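import Pool.Agent.P.MP_dd457d_ag.Bav.CalcB
import Pool.Agent.P.MP_2ce3e7_ag.Tav.DetC

/-! The algebraic part: the diagonal formula and the vanishing of the kernel of the pairing. -/

set_option autoImplicit false

noncomputable section

open Matrix

namespace Pool.Agent.Bav

open Pool.Agent.Tav.Det

section Rm
variable {Λ : Type} [CommRing Λ] {ι κ μ ν : Type}

theorem rm_comp [DecidableEq ι] [DecidableEq κ] [Fintype κ] (f : μ → κ) (h : κ → ι) :
    rm Λ f * rm Λ h = rm Λ (h ∘ f) := by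
  ext i j
  simp only [rm, Matrix.mul_apply, Matrix.of_apply, ite_mul, one_mul, zero_mul,
    Finset.sum_ite_eq, Finset.mem_univ, if_true, Function.comp_apply]

theorem rm_id [DecidableEq ι] : rm Λ (id : ι → ι) = 1 := by
  ext i j
  simp [rm, Matrix.one_apply]

theorem rm_blocks [DecidableEq ι] [DecidableEq κ] (f : μ → ι) (h : ν → κ) :
    fromBlocks (rm Λ f) 0 0 (rm Λ h) = rm Λ (Sum.map f h) := by
  ext (i | i) (j | j) <;> simp [rm]

theorem vecMul_rm [DecidableEq ι] [Fintype κ] (e : κ ≃ ι) (v : κ → Λ) :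
    v ᵥ* rm Λ e = v ∘ e.symm := by
  ext i
  simp only [rm, Matrix.vecMul, dotProduct, Matrix.of_apply, Function.comp_apply]
  rw [Finset.sum_eq_single (e.symm i) (fun x _ hx => ?_) (by simp)]
  · simp
  · rw [if_neg fun h => hx (by rw [← h, e.symm_apply_apply]), mul_zero]

end Rm

section Ind
variable {Λ Γ : Type} [CommRing Λ] [Fintype Γ] [DecidableEq Γ] (b : Module.Basis Γ ℤ Λ)
  {ρ : Γ → Λ →+* ℂ} (hρ : Function.Injective ρ)
include b hρ

theorem chars_indep : LinearIndependent ℂ fun (T : Finset Γ) (a : Λ) => ∏ r ∈ T, ρ r a := by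
  have key : ∀ T T' : Finset Γ, (∀ a, ∏ r ∈ T, ρ r a = ∏ r ∈ T', ρ r a) → T' ⊆ T := by
    intro T T' h r hr
    have := dense_eq (J := Unit) b hρ (PF.prod T fun r _ => PF.var r ())
      (PF.prod T' fun r _ => PF.var r ()) (fun m => h (m ())) fun r _ => if r ∈ T then 1 else 0
    by_contra hn
    rw [Finset.prod_eq_zero hr (if_neg hn), Finset.prod_eq_one fun r hr => if_pos hr] at this
    exact one_ne_zero this
  have := (linearIndependent_monoidHom Λ ℂ).comp
    (fun T : Finset Γ => ∏ r ∈ T, (ρ r).toMonoidHom) fun T T' h => by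
      have h' : ∀ a, ∏ r ∈ T, ρ r a = ∏ r ∈ T', ρ r a := fun a => by
        simpa using DFunLike.congr_fun h a
      exact (key _ _ fun a => (h' a).symm).antisymm (key _ _ h')
  have e : (fun (T : Finset Γ) (a : Λ) => ∏ r ∈ T, ρ r a) =
      (fun f : Λ →* ℂ => (f : Λ → ℂ)) ∘ fun T : Finset Γ => ∏ r ∈ T, (ρ r).toMonoidHom := by
    funext T a
    simp
  rw [e]
  exact this

variable {W : Type*} [AddCommGroup W] [Module ℂ W]

theorem chars_zero {X : Finset Γ → W} (h : ∀ a, ∑ T, (∏ r ∈ T, ρ r a) • X T = 0)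
    (T : Finset Γ) : X T = 0 := by
  refine (Module.forall_dual_apply_eq_zero_iff ℂ _).1 fun φ => ?_
  refine Fintype.linearIndependent_iff.1 (chars_indep b hρ) (fun T => φ (X T)) ?_ T
  funext a
  simpa [Finset.sum_apply, mul_comm] using congrArg φ (h a)

theorem one_vec (D : Λ → Λ → W)
    (hD : ∀ φ : Module.Dual ℂ W, IsPol fun x : Λ × Λ => φ (D x.1 x.2))
    (h : ∀ c x y, D (c * x) (c * y) = nm ρ c • D x y) :
    ∃ X : Finset Γ → W, ∀ x y, D x y = ∑ S, mon ρ S x y • X S := by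
  have h1 := span_flip_eq_top_iff_linearIndependent.2 (chars_indep b hρ)
  have h2 : ∀ S : Finset Γ, ∃ c : Λ →₀ ℂ, ∀ T : Finset Γ,
      (c.sum fun a t => t * ∏ r ∈ T, ρ r a) = if T = S then 1 else 0 := fun S => by
    obtain ⟨c, hc⟩ := Finsupp.mem_span_range_iff_exists_finsupp.1
      (h1 ▸ Submodule.mem_top (x := (Pi.single S 1 : Finset Γ → ℂ)))
    refine ⟨c, fun T => ?_⟩
    simpa [Finsupp.sum, Finset.sum_apply, flip, Pi.single_apply] using congrFun hc T
  choose c hc using h2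
  refine ⟨fun S => (c S).sum fun a t => t • D 1 a, fun x y => ?_⟩
  rw [← sub_eq_zero]
  refine (Module.forall_dual_apply_eq_zero_iff ℂ _).1 fun φ => ?_
  obtain ⟨p, hp⟩ := one b hρ (fun x y => φ (D x y)) (hD φ) fun c x y _ => by simp [h]
  have h3 : ∀ S, φ ((c S).sum fun a t => t • D 1 a) = p S := fun S => by
    simp only [Finsupp.sum, map_sum, map_smul, hp, mon, map_one, Finset.prod_const_one, one_mul,
      smul_eq_mul, Finset.mul_sum] at hc ⊢
    rw [Finset.sum_comm]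
    simp only [mul_left_comm _ (p _), ← Finset.mul_sum, hc]
    simp
  simp [h3, hp, mul_comm]

end Ind

namespace Calc
variable {Λ : Type} [CommRing Λ] {g q : ℕ} {π : Λ} {N : Λ → ℂ} (C : Calc Λ g q π N)
  {ι κ μ : Type} [Fintype ι] [Fintype κ] [Fintype μ]

theorem pol_pow {H : Type} [AddCommGroup H] [Module.Free ℤ H] [Module.Finite ℤ H]
    (A : H →+ ι → Λ) {f : H → C.G ι} (hf : ∀ φ : Module.Dual ℂ (C.G ι), IsPol fun x => φ (f x))
    (n : ℕ) (φ : Module.Dual ℂ (C.G ι)) : IsPol fun x => φ ((C.l (A x) ^ n) (f x)) := by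
  induction n generalizing φ with
  | zero => exact hf φ
  | succ n ih =>
    let e := Module.Free.chooseBasis ℤ H
    have h1 : ∀ w x, φ (C.l (A x) w) = ∑ u, ∑ v, (e.repr x u : ℂ) * ((e.repr x v : ℂ) *
        ((φ (C.l (A (e u + e v)) w) - φ (C.l (A (e u - e v)) w)) / 4)) := fun w =>
      polar_exp e (fun y => φ (C.l (A y) w)) fun x y => by
        simpa using congrArg (fun T : Module.End ℂ (C.G ι) => φ (T w)) (C.par (A x) (A y))
    have hl : ∀ u, IsPol (fun x : H => (e.repr x u : ℂ)) := fun u =>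
      IsPol.lin ((Int.castAddHom ℂ).comp (e.coord u).toAddMonoidHom)
    have h2 : (fun x => φ ((C.l (A x) ^ (n + 1)) (f x))) = fun x => ∑ u, ∑ v,
        (e.repr x u : ℂ) * ((e.repr x v : ℂ) *
          (((φ ∘ₗ C.l (A (e u + e v))) ((C.l (A x) ^ n) (f x)) -
            (φ ∘ₗ C.l (A (e u - e v))) ((C.l (A x) ^ n) (f x))) * 4⁻¹)) := funext fun x => by
      rw [pow_succ', Module.End.mul_apply, h1]
      simp only [div_eq_mul_inv, LinearMap.comp_apply]
    rw [h2]
    exact IsPol.sum _ fun u _ => IsPol.sum _ fun v _ => (hl u).mul ((hl v).mul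
      (((ih _).sub (ih _)).mul (IsPol.const _)))

variable [DecidableEq ι] [DecidableEq κ] [DecidableEq μ]

omit [DecidableEq μ] in
theorem push_rm (f : μ → κ) (h : κ → ι) (x : C.G ι) :
    C.push (rm Λ f) (C.push (rm Λ h) x) = C.push (rm Λ (h ∘ f)) x := by
  rw [C.push_mul, rm_comp]

theorem assoc_inv (x : C.G ι) (y : C.G κ) (z : C.G μ) :
    C.push (rm Λ (Equiv.sumAssoc ι κ μ)) (C.box x (C.box y z)) = C.box (C.box x y) z := by
  rw [← C.assoc, push_rm, Equiv.symm_comp_self, rm_id, C.push_one]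

theorem box_rm_left {ι' : Type} [Fintype ι'] (f : ι' → ι) (x : C.G ι) (y : C.G κ) :
    C.box (C.push (rm Λ f) x) y = C.push (rm Λ (Sum.map f id)) (C.box x y) := by
  rw [← rm_blocks, C.push_box, rm_id, C.push_one]

theorem box_rm_right {κ' : Type} [Fintype κ'] (f : κ' → κ) (x : C.G ι) (y : C.G κ) :
    C.box x (C.push (rm Λ f) y) = C.push (rm Λ (Sum.map id f)) (C.box x y) := by
  rw [← rm_blocks, C.push_box, rm_id, C.push_one]

/-- exchange of the first and the third factor -/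
def ex : (Unit ⊕ Unit) ⊕ (Unit ⊕ Unit) ≃ (Unit ⊕ Unit) ⊕ (Unit ⊕ Unit) :=
  Equiv.swap (.inl (.inl ())) (.inr (.inl ()))

theorem exch (x y z w : C.G Unit) :
    C.box (C.box x y) (C.box z w) = C.push (rm Λ ex) (C.box (C.box z y) (C.box x w)) := by
  rw [← C.swap y x, box_rm_left, ← assoc_inv, ← C.assoc x, ← C.swap z x, box_rm_left,
    ← assoc_inv C z, box_rm_right, box_rm_right, box_rm_right, ← C.assoc y, ← C.swap z y,
    box_rm_left]
  simp only [push_rm]
  congr 2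
  funext i
  rcases i with (_ | _) | (_ | _) <;> rfl

/-- the row `(a, -c)` -/
abbrev rw2 (a c : Λ) : Unit ⊕ Unit → Λ := Sum.elim (fun _ => a) fun _ => -c

/-- the correspondence along the row `(a, -c)` -/
def Dz (x : C.G Unit) (c a : Λ) : C.G Unit :=
  C.push (rm Λ Sum.inr) ((C.l (rw2 a c) ^ g) (C.box x C.one))

theorem Dz_one (x : C.G Unit) (a : Λ) : C.Dz x 1 a = C.dl • C.push (sc1 a) x := by
  have e : rm Λ (Sum.inr : Unit → Unit ⊕ Unit) * Matrix.fromRows (1 : Matrix Unit Unit Λ)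
      (Matrix.of fun (_ _ : Unit) => a) = sc1 a := by
    ext i j
    simp [rm, sc1, Matrix.mul_apply]
  rw [Dz, rw2, C.diag, map_smul, C.push_mul, e]

theorem B_one (c : Λ) (x w : C.G Unit) : C.B 1 1 x (C.push (sc1 c) w) = C.B 1 c x w := by
  have e : rw2 (1 : Λ) 1 ᵥ* fromBlocks 1 0 0 (sc1 c) = rw2 1 c := by
    ext (i | i) <;> simp [sc1, Matrix.vecMul, dotProduct]
  rw [B, ← C.push_one x, ← C.push_box, lp_push, C.chi_push, e, C.push_one, B]

theorem four (a c a' c' : Λ) (x y w : C.G Unit) :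
    C.push (rm Λ (Sum.inr ∘ Sum.inr)) ((C.l (Sum.elim 0 (rw2 a c)) ^ g)
      ((C.l (Sum.elim (rw2 a' c') 0) ^ g) (C.box (C.box y w) (C.box x C.one)))) =
      C.B a' c' y w • C.Dz x c a := by
  rw [lp_box_left, lp_box_right, ← push_rm, C.push_snd, map_smul, B, Dz]

end Calc

section Main
variable {Λ Γ : Type} [CommRing Λ] [Fintype Γ] [DecidableEq Γ] (b : Module.Basis Γ ℤ Λ)
  {ρ : Γ → Λ →+* ℂ} (hρ : Function.Injective ρ) {g q : ℕ} {π : Λ}
  (C : Calc Λ g q π fun a => ∏ r, ρ r a)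
include b hρ

theorem row_vec {W : Type*} [AddCommGroup W] [Module ℂ W] (T : C.G (Unit ⊕ Unit) →ₗ[ℂ] W)
    (z : C.G (Unit ⊕ Unit)) : ∃ X : Finset Γ → W, ∀ c a,
      T ((C.l (Calc.rw2 a c) ^ g) z) = ∑ S, mon ρ S c a • X S := by
  have := Module.Free.of_basis b
  have := Module.Finite.of_basis b
  let A : Λ × Λ →+ (Unit ⊕ Unit → Λ) := AddMonoidHom.mk' (fun x => Calc.rw2 x.2 x.1) fun x y => by
    ext (i | i) <;> simp [add_comm]
  refine one_vec b hρ _ (fun φ => C.pol_pow A (fun _ => IsPol.const _) g (φ ∘ₗ T)) fun c x y => ?_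
  have e : Calc.rw2 (c * y) (c * x) = fun i => c * Calc.rw2 y x i := by
    ext (i | i) <;> simp
  rw [e, C.mul, map_smul, nm]

theorem comp_vec (x : C.G Unit) : ∃ X : Finset Γ → C.G Unit,
    (∀ c a, C.Dz x c a = ∑ S, mon ρ S c a • X S) ∧ C.dl • x = ∑ S, X S ∧
      ∀ a S, C.push (sc1 a) (X S) = (∏ r ∈ S, ρ r a) • X S := by
  obtain ⟨X, hX⟩ := row_vec b hρ C (C.push (rm Λ Sum.inr)) (C.box x C.one)
  have h1 : ∀ a, C.dl • C.push (sc1 a) x = ∑ S, (∏ r ∈ S, ρ r a) • X S := fun a => by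
    rw [← C.Dz_one, Calc.Dz, hX]
    simp [mon]
  refine ⟨X, hX, ?_, fun a S => ?_⟩
  · have e : sc1 (1 : Λ) = 1 := by
      ext i j
      simp [sc1]
    simpa [e, C.push_one] using h1 1
  · rw [← sub_eq_zero]
    refine chars_zero b hρ (X := fun S => C.push (sc1 a) (X S) - (∏ r ∈ S, ρ r a) • X S)
      (fun c => ?_) S
    have e : sc1 a * sc1 c = sc1 (c * a) := by
      ext i j
      simp [sc1, Matrix.mul_apply, mul_comm]
    have h2 := congrArg (C.push (sc1 a)) (h1 c)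
    rw [map_smul, C.push_mul, e, h1, map_sum] at h2
    simp only [map_smul, map_mul, Finset.prod_mul_distrib, mul_smul] at h2
    simp only [smul_sub, Finset.sum_sub_distrib, h2, sub_self]

theorem B_zero {x : C.G Unit} (hx : ∀ y, C.B 1 1 x y = 0) (a c : Λ) (w : C.G Unit) :
    C.B a c x w = 0 := by
  obtain ⟨X, hX⟩ := row_vec b hρ C C.chi (C.box x w)
  have h1 : ∀ S, X Sᶜ = 0 := chars_zero b hρ fun c => by
    have := hX c 1
    rw [← Calc.B, ← C.B_one, hx] at this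
    rw [this, ← Equiv.sum_comp (Function.Involutive.toPerm Compl.compl compl_compl)]
    simp [mon]
  have h2 : X = 0 := funext fun S => by simpa using h1 Sᶜ
  simpa [h2, Calc.B] using hX c a

omit b hρ [DecidableEq Γ] in
theorem frob_zero {x : C.G Unit} {t : ℂ} (h : ∀ e : ℕ, C.push (sc1 (π ^ e)) x = t ^ e • x)
    (ht : ∀ e j : ℕ, e ≠ 0 → j ≤ g → t ^ e ≠ ((q : ℂ) ^ e) ^ j) : x = 0 := by
  have key : ∀ j, j ≤ g + 1 → x ∈ C.F j → x = 0 := by
    intro j
    induction j with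
    | zero => intro _ hx; rwa [C.F_zero] at hx
    | succ j ih =>
      intro hj hx
      obtain ⟨e, he, h1⟩ := C.frob j x hx
      rw [h, ← sub_smul] at h1
      exact ih (by omega)
        ((Submodule.smul_mem_iff _ (sub_ne_zero.2 (ht e j he (by omega)))).1 h1)
  exact key _ le_rfl (by rw [C.F_top]; trivial)

theorem exch_zero {x y w : C.G Unit} (hx : ∀ a c, C.B a c x w = 0) {X : Finset Γ → C.G Unit}
    (hX : ∀ c a, C.Dz x c a = ∑ S, mon ρ S c a • X S) {p : Finset Γ → ℂ}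
    (hp : ∀ a c, C.B a c y w = ∑ T, (∏ r ∈ T, ρ r a) * (∏ r ∈ Tᶜ, ρ r c) * p T)
    (S : Finset Γ) : p S • X S = 0 := by
  have := Module.Free.of_basis b
  have := Module.Finite.of_basis b
  refine (Module.forall_dual_apply_eq_zero_iff ℂ _).1 fun φ => ?_
  let s : (Unit ⊕ Unit) ⊕ (Unit ⊕ Unit) → Fin 4 :=
    Sum.elim (Sum.elim (fun _ => 3) fun _ => 2) (Sum.elim (fun _ => 1) fun _ => 0)
  let A : (Fin 4 → Λ) →+ ((Unit ⊕ Unit) ⊕ (Unit ⊕ Unit) → Λ) :=
    AddMonoidHom.mk' (fun u => -(u ∘ s)) fun u v => by ext; simp [add_comm]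
  have hA : ∀ (c : Λ) u, A (fun j => c * u j) = fun i => c * A u i := fun c u => by
    ext i
    simp [A]
  let T := φ ∘ₗ C.push (rm Λ (Sum.inr ∘ Sum.inr : Unit → (Unit ⊕ Unit) ⊕ (Unit ⊕ Unit)))
  have h2 : Two ρ fun u v =>
      T ((C.l (A u) ^ g) ((C.l (A v) ^ g) (C.box (C.box y w) (C.box x C.one)))) :=
    ⟨C.pol_pow (A.comp (AddMonoidHom.fst (Fin 4 → Λ) (Fin 4 → Λ)))
      (C.pol_pow (A.comp (AddMonoidHom.snd (Fin 4 → Λ) (Fin 4 → Λ)))
        (f := fun _ => C.box (C.box y w) (C.box x C.one)) (fun _ => IsPol.const _) g) g T,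
      fun c u v _ => by rw [hA, C.mul, map_smul, nm, smul_eq_mul],
      fun c u v _ => by rw [hA, C.mul, map_smul, map_smul, nm, smul_eq_mul],
      fun u v => by rw [map_add, C.elem]⟩
  have := two_neg b hρ h2 (fun S => φ (X S)) p 0 0 (fun c a c' a' _ _ _ _ => ?_)
    (fun c a c' a' _ _ _ _ => ?_) S
  · simpa [mul_comm] using this
  · have e1 : A ![c, -a, 0, 0] = Sum.elim (0 : Unit ⊕ Unit → Λ) (Calc.rw2 a c) := by
      ext ((i | i) | (i | i)) <;> simp [A, s]
    have e2 : A ![0, 0, c', -a'] = Sum.elim (Calc.rw2 a' c') 0 := by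
      ext ((i | i) | (i | i)) <;> simp [A, s]
    simp only [e1, e2, T, LinearMap.comp_apply, C.four, hX, hp, map_smul, map_sum, smul_eq_mul]
    rw [mul_comm]
    congr 1 <;> exact Finset.sum_congr rfl fun S _ => by simp only [mon]; ring
  · have e1 : A ![c, 0, 0, -a] ᵥ* rm Λ Calc.ex =
        Sum.elim (0 : Unit ⊕ Unit → Λ) (Calc.rw2 a c) := by
      rw [vecMul_rm]
      ext ((i | i) | (i | i)) <;> simp [A, s, Calc.ex, Equiv.swap_apply_def]
    have e2 : A ![0, -a', c', 0] ᵥ* rm Λ Calc.ex = Sum.elim (Calc.rw2 a' c') 0 := by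
      rw [vecMul_rm]
      ext ((i | i) | (i | i)) <;> simp [A, s, Calc.ex, Equiv.swap_apply_def]
    have e3 : (Calc.ex ∘ Sum.inr ∘ Sum.inr : Unit → _) = Sum.inr ∘ Sum.inr := rfl
    rw [C.exch, C.lp_push, C.lp_push, e1, e2]
    simp only [T, LinearMap.comp_apply, C.push_rm, e3, C.four, hx]
    simp

end Main

theorem p_Calc : S_Calc := by
  intro Λ _ Γ _ _ ρ b hρ g q π _ C alg x hx
  obtain ⟨X, h1, h2, h3⟩ := comp_vec b hρ C x
  have h4 : ∀ S, X S = 0 := fun S => by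
    by_cases h : ∃ e j : ℕ, e ≠ 0 ∧ j ≤ g ∧ (∏ r ∈ S, ρ r π) ^ e = ((q : ℂ) ^ e) ^ j
    · obtain ⟨e, j, he, hj, h⟩ := h
      obtain ⟨y, w, p, hS, hp⟩ := alg S e j he hj h
      exact (smul_eq_zero.1 (exch_zero b hρ C (fun a c => B_zero b hρ C hx a c w) h1 hp S)
        ).resolve_left hS
    · refine frob_zero C (t := ∏ r ∈ S, ρ r π) (fun e => ?_) fun e j he hj h' =>
        h ⟨e, j, he, hj, h'⟩
      simp only [h3, map_pow, Finset.prod_pow]
  rw [Finset.sum_eq_zero fun S _ => h4 S] at h2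
  exact (smul_eq_zero.1 h2).resolve_left C.del

end Pool.Agent.Bav
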