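import Pool.Agent.P.MP_dd457d_ag.Bav.DescA

/-! Descent of `NumTors` along an algebraic extension of the ground field. -/

open Function Filter TensorProduct Module
open Pool.Agent.CXD

noncomputable section

namespace Pool.Agent.Bav.Desc

variable {k Ω : Type} [Field k] [Field Ω] [Algebra k Ω] {A B : Type} [CommRing A] [CommRing B]

theorem dim_alg [Algebra k A] [Algebra Ω B] {X Y : Type} [AddCommGroup X] [Module B X]
    [AddCommGroup Y] [Module A Y] (K : IntermediateField k Ω) (φ : Y →+ X) (hφ : Injective φ)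
    (he : ∀ (c : k) y, φ (algebraMap k A c • y) = algebraMap Ω B (algebraMap k Ω c) • φ y)
    (ret : ∀ r : Ω →+ Ω, Kl K r → ∃ R : X →+ X,
      ∀ ω y, R (algebraMap Ω B ω • φ y) = algebraMap Ω B (r ω) • φ y)
    (S : Set Y) (T : Set X) (h1 : ∀ y ∈ S, φ y ∈ T)
    (h2 : ∀ x ∈ T, x ∈ sp B (Set.univ : Set Ω) fun y : S => φ y)
    (h3 : ∀ c ∈ K, ∀ y ∈ S, algebraMap Ω B c • φ y ∈ φ '' S) :
    dimK k A S = finrank k K * dimK Ω B T := by
  unfold dimK
  let := Module.compHom X (algebraMap Ω B)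
  let := Module.compHom Y (algebraMap k A)
  let : Module k X := Module.compHom X (algebraMap k Ω)
  have : IsScalarTower k Ω X := ⟨fun a b x => by rw [Algebra.smul_def, mul_smul]; rfl⟩
  have : IsScalarTower k K X := ⟨fun a b x => smul_assoc a (b : Ω) x⟩
  let φ' : Y →ₗ[k] X := ⟨φ, he⟩
  let W := Submodule.span K (φ '' S)
  have hm : (Submodule.span k S).map φ' = W.restrictScalars k := by
    rw [Submodule.map_span]
    refine le_antisymm (Submodule.span_le.2 Submodule.subset_span) fun x hx => ?_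
    have : ∀ c : K, c • x ∈ Submodule.span k (φ' '' S) := by
      induction hx using Submodule.span_induction with
      | mem x hx =>
        obtain ⟨y, hy, rfl⟩ := hx
        exact fun c => Submodule.subset_span (h3 c c.2 y hy)
      | zero => simp
      | add x y _ _ hx hy => exact fun r => by rw [smul_add]; exact add_mem (hx r) (hy r)
      | smul a x _ hx => exact fun r => by rw [← mul_smul]; exact hx _
    simpa using this 1
  let b := Basis.ofVectorSpace K W
  have hli : LinearIndependent Ω fun i => (b i : X) := by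
    rw [linearIndependent_iff']
    intro s g hg i hi
    refine (Module.forall_dual_apply_eq_zero_iff K (g i)).1 fun r => ?_
    obtain ⟨R, hR⟩ := ret (Algebra.linearMap K Ω ∘ₗ r).toAddMonoidHom
      fun c hc ω => (Algebra.linearMap K Ω ∘ₗ r).map_smul ⟨c, hc⟩ ω
    refine linearIndependent_iff'.1 b.linearIndependent s (fun i => r (g i)) (Subtype.ext ?_) i hi
    rw [AddSubmonoidClass.coe_finsetSum]
    refine (Finset.sum_congr rfl fun i _ => ?_).trans
      ((map_sum R _ s).symm.trans ((congrArg R hg).trans R.map_zero))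
    obtain ⟨y, -, hy⟩ := hm.ge (b i).2
    have := hR (g i) y
    rw [show φ y = b i from hy] at this
    exact this.symm
  have hs : Submodule.span Ω T = Submodule.span Ω (Set.range fun i => (b i : X)) := by
    have : Submodule.span K (Set.range fun i => (b i : X)) = W := by
      rw [show (Set.range fun i => (b i : X)) = W.subtype '' Set.range b from Set.range_comp _ _,
        ← Submodule.map_span, b.span_eq, Submodule.map_subtype_top]
    rw [← Submodule.span_span_of_tower K Ω (Set.range _), this, Submodule.span_span_of_tower]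
    refine le_antisymm (Submodule.span_le.2 fun x hx => ?_) (Submodule.span_mono ?_)
    · refine sp_le (H := (Submodule.span Ω (φ '' S)).toAddSubgroup) (fun c _ y => ?_) (h2 x hx)
      exact (Submodule.span Ω (φ '' S)).smul_mem c (Submodule.subset_span ⟨y.1, y.2, rfl⟩)
    · rintro _ ⟨y, hy, rfl⟩
      exact h1 y hy
  rw [hs, finrank_eq_nat_card_basis (Basis.span hli), ← finrank_eq_nat_card_basis b,
    finrank_mul_finrank, (Submodule.equivMapOfInjective φ' hφ _).finrank_eq, hm]
  rfl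

variable [Algebra k A] [Algebra Ω B] [Algebra A B] [Algebra k B] [IsScalarTower k A B]
  [IsScalarTower k Ω B] [Algebra.IsPushout k Ω A B]

theorem bc_spec (k Ω : Type) [Field k] [Field Ω] [Algebra k Ω] [Algebra k A] [Algebra Ω B]
    [Algebra k B] [IsScalarTower k A B] [IsScalarTower k Ω B] [Algebra.IsPushout k Ω A B]
    (V : Type) [AddCommGroup V] [Module A V] :
    (∀ (r : Ω →+ Ω) (p : V →+ V), Kl (⊥ : IntermediateField k Ω) r →
      (∀ (c : k) v, p (algebraMap k A c • v) = algebraMap k A c • p v) →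
      ∃ R : B ⊗[A] V →+ B ⊗[A] V, ∀ ω v, R (algebraMap Ω B ω • (1 : B) ⊗ₜ v) =
        algebraMap Ω B (r ω) • (1 : B) ⊗ₜ p v) ∧
    (∀ x, x ∈ sp B (Set.univ : Set Ω) fun v : V => (1 : B) ⊗ₜ[A] v) ∧
    ∀ v : V, (1 : B) ⊗ₜ[A] v = 0 → v = 0 := by
  let := Module.compHom V (algebraMap k A)
  have : IsScalarTower k A V := ⟨fun a b x => by rw [Algebra.smul_def, mul_smul]; rfl⟩
  let e := Algebra.IsPushout.cancelBaseChange k Ω A B V
  have he : ∀ ω v, e.symm (ω ⊗ₜ v) = algebraMap Ω B ω • (1 : B) ⊗ₜ v := fun ω v => by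
    rw [smul_tmul', smul_eq_mul, mul_one]
    exact Algebra.IsPushout.cancelBaseChange_symm_tmul k Ω A B V ω v
  refine ⟨fun r p hr hp => ?_, fun x => ?_, fun v hv => ?_⟩
  · let r' : Ω →ₗ[k] Ω := ⟨r, fun c ω => by
      simpa [Algebra.smul_def] using hr _ (algebraMap_mem ⊥ c) ω⟩
    let p' : V →ₗ[k] V := ⟨p, hp⟩
    refine ⟨e.symm.toAddEquiv.toAddMonoidHom.comp ((TensorProduct.map r' p').toAddMonoidHom.comp
      e.toAddEquiv.toAddMonoidHom), fun ω v => ?_⟩
    rw [← he, ← he]
    exact congrArg e.symm (congrArg (TensorProduct.map r' p') (e.apply_symm_apply _))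
  · obtain ⟨y, rfl⟩ := e.symm.surjective x
    induction y with
    | zero => simp
    | tmul ω v => exact he ω v ▸ mem_sp (Set.mem_univ ω) v
    | add y z hy hz => exact map_add e.symm y z ▸ add_mem hy hz
  · have := congrArg e hv
    rwa [map_zero, Algebra.IsPushout.cancelBaseChange_tmul,
      Module.FaithfullyFlat.one_tmul_eq_zero_iff] at this

theorem ring_spec (k Ω : Type) [Field k] [Field Ω] [Algebra k Ω] [Algebra k A] [Algebra Ω B]
    [Algebra k B] [IsScalarTower k A B] [IsScalarTower k Ω B] [Algebra.IsPushout k Ω A B] :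
    (∀ r : Ω →+ Ω, Kl (⊥ : IntermediateField k Ω) r → ∃ R : B →+ B, ∀ ω a,
      R (algebraMap Ω B ω • algebraMap A B a) = algebraMap Ω B (r ω) • algebraMap A B a) ∧
    ∀ x, x ∈ sp B (Set.univ : Set Ω) (algebraMap A B) := by
  obtain ⟨h1, h2, -⟩ := bc_spec (A := A) (B := B) k Ω A
  let e := AlgebraTensorModule.rid A B B
  have he : ∀ (β : B) (a : A), e (β • (1 : B) ⊗ₜ a) = β • algebraMap A B a := fun β a => by
    simp [e, Algebra.smul_def]
  refine ⟨fun r hr => ?_, fun x => ?_⟩
  · obtain ⟨R, hR⟩ := h1 r (AddMonoidHom.id A) hr fun _ _ => rfl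
    refine ⟨e.toAddEquiv.toAddMonoidHom.comp (R.comp e.symm.toAddEquiv.toAddMonoidHom),
      fun ω a => ?_⟩
    rw [← he, ← he]
    exact congrArg e ((congrArg R (e.symm_apply_apply _)).trans (hR ω a))
  · obtain ⟨y, rfl⟩ := e.surjective x
    exact sp_map e.toAddEquiv.toAddMonoidHom
      (fun c hc a => (he _ a).symm ▸ mem_sp hc a) (h2 y)

/-- compatible gradings -/
structure Cmp (k Ω : Type) [Field k] [Field Ω] [Algebra k A] [Algebra Ω B] (𝒜 : ℤ → Set A)
    (ℬ : ℤ → Set B) : Prop where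
  gen : ∀ a, a ∈ AddSubgroup.closure (⋃ c, 𝒜 c)
  cst : ∀ r : k, algebraMap k A r ∈ 𝒜 0
  cst' : ∀ ω : Ω, algebraMap Ω B ω ∈ ℬ 0
  map : ∀ c, ∀ a ∈ 𝒜 c, algebraMap A B a ∈ ℬ c
  dec : ∀ c, ∀ β ∈ ℬ c, β ∈ sp B (Set.univ : Set Ω) fun a : 𝒜 c => algebraMap A B a

variable {𝒜 : ℤ → Set A} {ℬ : ℤ → Set B}

theorem ev_sum (V : GM 𝒜) (x : V.M) : ∀ᶠ s : Finset ℤ in atTop, ∑ d ∈ s, V.π d x = x := by
  obtain ⟨s, hs⟩ := V.sum_π x
  refine (eventually_ge_atTop s).mono fun t ht =>
    (Finset.sum_subset ht fun d _ hd => ?_).symm.trans hs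
  rw [← hs, map_sum]
  exact Finset.sum_eq_zero fun e he => V.π_ne d e _ fun h => hd (h ▸ he)

theorem Cmp.exists_π (h : Cmp k Ω 𝒜 ℬ) (V : GM 𝒜) (d : ℤ) : ∃ R : B ⊗[A] V.M →+ B ⊗[A] V.M,
    ∀ ω v, R (algebraMap Ω B ω • (1 : B) ⊗ₜ v) = algebraMap Ω B ω • (1 : B) ⊗ₜ V.π d v :=
  (bc_spec k Ω V.M).1 (AddMonoidHom.id Ω) (V.π d) (fun _ _ _ => rfl)
    fun c => π_zero V (h.cst c) d

/-- base change -/
def Cmp.bc (h : Cmp k Ω 𝒜 ℬ) (V : GM 𝒜) : GM ℬ where
  M := B ⊗[A] V.M
  π d := (h.exists_π V d).choose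
  π_self d x := sp_ext (f := (h.exists_π V d).choose.comp (h.exists_π V d).choose)
    (fun c _ v => by simp only [AddMonoidHom.comp_apply, (h.exists_π V d).choose_spec, V.π_self])
    ((bc_spec k Ω V.M).2.1 x)
  π_ne d e x hde := sp_ext (f := (h.exists_π V d).choose.comp (h.exists_π V e).choose) (g := 0)
    (fun c _ v => by
      simp only [AddMonoidHom.comp_apply, (h.exists_π V _).choose_spec, V.π_ne d e _ hde,
        tmul_zero, smul_zero, AddMonoidHom.zero_apply])
    ((bc_spec k Ω V.M).2.1 x)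
  sum_π x := Eventually.exists (f := atTop) (by
    induction (bc_spec k Ω V.M).2.1 x using AddSubgroup.closure_induction with
    | mem y hy =>
      obtain ⟨c, -, v, rfl⟩ := hy
      exact (ev_sum V v).mono fun s hs => by
        simp only [(h.exists_π V _).choose_spec, ← Finset.smul_sum, ← tmul_sum, hs]
    | zero => simp
    | add x y _ _ hx hy =>
      exact (hx.and hy).mono fun s hs => by simp only [map_add, Finset.sum_add_distrib, hs.1, hs.2]
    | neg x _ hx => exact hx.mono fun s hs => by simp only [map_neg, Finset.sum_neg_distrib, hs])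
  π_smul c d β hβ x := sp_ext
    (f := (h.exists_π V (c + d)).choose.comp ((smulAddHom B _).flip x))
    (g := (smulAddHom B _).flip ((h.exists_π V d).choose x)) (fun ω _ a => sp_ext
      (f := (h.exists_π V (c + d)).choose.comp (smulAddHom B _ (_ • _)))
      (g := (smulAddHom B _ (_ • _)).comp (h.exists_π V d).choose) (fun ω' _ v => by
        have e : ∀ w : V.M, (algebraMap Ω B ω • algebraMap A B a) • algebraMap Ω B ω' •
            (1 : B) ⊗ₜ[A] w = algebraMap Ω B (ω * ω') • (1 : B) ⊗ₜ[A] (a.1 • w) := fun w => by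
          simp only [tmul_smul, smul_eq_mul, map_mul, mul_smul, algebraMap_smul B a.1,
            smul_comm a.1]
        simp only [AddMonoidHom.comp_apply, smulAddHom_apply, (h.exists_π V _).choose_spec, e,
          V.π_smul c d _ a.2]) ((bc_spec k Ω V.M).2.1 x)) (h.dec c β hβ)

theorem Cmp.form_bc (h : Cmp k Ω 𝒜 ℬ) (V : GM 𝒜) : Form (⊥ : IntermediateField k Ω) (h.bc V) V
    (TensorProduct.mk A B V.M 1).toAddMonoidHom where
  inj := (injective_iff_map_eq_zero _).2 (bc_spec k Ω V.M).2.2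
  lin a x := (tmul_smul a (1 : B) x).trans (algebraMap_smul B a _).symm
  gr d x := by
    have := (h.exists_π V d).choose_spec 1 x
    rw [map_one, one_smul, one_smul] at this
    exact this.symm
  st c hc x := by
    obtain ⟨r, rfl⟩ := IntermediateField.mem_bot.1 hc
    refine ⟨algebraMap k A r • x, (tmul_smul _ (1 : B) x).trans ?_⟩
    rw [← algebraMap_smul B, ← IsScalarTower.algebraMap_apply, ← IsScalarTower.algebraMap_apply]
    rfl
  top := (bc_spec k Ω V.M).2.1
  ret r hr := (bc_spec k Ω V.M).1 r (AddMonoidHom.id _) hr fun _ _ => rfl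

/-- a graded submodule -/
def subG (M : GM 𝒜) (W : Submodule A M.M) (h : ∀ d, ∀ x ∈ W, M.π d x ∈ W) : GM 𝒜 where
  M := W
  π d := ((M.π d).comp W.subtype.toAddMonoidHom).codRestrict W fun x => h d x.1 x.2
  π_self d x := Subtype.ext (M.π_self d x.1)
  π_ne d e x hde := Subtype.ext (M.π_ne d e x.1 hde)
  sum_π x := (M.sum_π x.1).imp fun s hs => Subtype.ext (by
    rw [AddSubmonoidClass.coe_finsetSum]; exact hs)
  π_smul c d a ha x := Subtype.ext (M.π_smul c d a ha x.1)

theorem st_span (gen : ∀ a, a ∈ AddSubgroup.closure (⋃ c, 𝒜 c)) (M : GM 𝒜) {S : Set M.M}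
    (hS : ∀ x ∈ S, ∃ e, M.π e x = x) (d : ℤ) (x : M.M) (hx : x ∈ Submodule.span A S) :
    M.π d x ∈ Submodule.span A S := by
  have : ∀ a : A, M.π d (a • x) ∈ Submodule.span A S := by
    induction hx using Submodule.span_induction with
    | mem x hx =>
      intro a
      induction gen a using AddSubgroup.closure_induction with
      | mem a ha =>
        obtain ⟨c, hc⟩ := Set.mem_iUnion.1 ha
        obtain ⟨e, he⟩ := hS x hx
        rw [← add_sub_cancel c d, M.π_smul c _ a hc]
        refine Submodule.smul_mem _ _ ?_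
        by_cases h : d - c = e
        · rw [h, he]; exact Submodule.subset_span hx
        · rw [← he, M.π_ne _ _ _ h]; exact zero_mem _
      | zero => simp
      | add a b _ _ ha hb => rw [add_smul, map_add]; exact add_mem ha hb
      | neg a _ ha => rw [neg_smul, map_neg]; exact neg_mem ha
    | zero => simp
    | add x y _ _ hx hy => exact fun a => by rw [smul_add, map_add]; exact add_mem (hx a) (hy a)
    | smul b x _ hx => exact fun a => by rw [← mul_smul]; exact hx _
  simpa using this 1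

theorem Cmp.exists_form [Algebra.IsAlgebraic k Ω] [IsNoetherianRing B] (h : Cmp k Ω 𝒜 ℬ)
    (N : FGM ℬ) : ∃ (K : FD k Ω) (N' : FGM 𝒜) (j : N'.1.M →+ N.1.M), Form K.1 N.1 N'.1 j := by
  classical
  obtain ⟨N, ⟨S, hS⟩⟩ := N
  choose s hs using N.sum_π
  let ι := Σ x : S, s x
  let n : ι → N.M := fun p => N.π p.2 p.1
  let φ := Fintype.linearCombination B n
  have hφ : ∀ i β, φ (Pi.single i β) = β • n i := fun i β =>
    Fintype.linearCombination_apply_single B n i β
  have hn : Submodule.span B (Set.range n) = ⊤ := by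
    rw [eq_top_iff, ← hS, Submodule.span_le]
    intro x hx
    rw [← hs x, ← Finset.sum_coe_sort]
    exact sum_mem fun d _ => Submodule.subset_span ⟨⟨⟨x, hx⟩, d⟩, rfl⟩
  have hsur : Surjective φ := by
    rw [← LinearMap.range_eq_top, Fintype.range_linearCombination, hn]
  obtain ⟨t, ht⟩ := IsNoetherian.noetherian (LinearMap.ker φ)
  obtain ⟨hB, htop⟩ := ring_spec (A := A) (B := B) k Ω
  obtain ⟨K, hK⟩ := ((eventually_all_finset t).2 fun w _ =>
    eventually_all.2 fun i => ev_sp k (htop (w i))).exists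
  have := K.2
  obtain ⟨m, u, c, -, hu, -, h2, -, h4⟩ := exists_rel (bot_le : ⊥ ≤ K.1)
  let : Module A N.M := (res h.map N).mod
  let v : Fin m × ι → N.M := fun p => algebraMap Ω B (u p.1) • n p.2
  let W := Submodule.span A (Set.range v)
  have hA : ∀ (a : A), ∀ x ∈ W, algebraMap A B a • x ∈ W := fun a x hx => W.smul_mem a hx
  have h1 : ∀ a ∈ K.1, ∀ i, algebraMap Ω B a • n i ∈ W := fun a ha i => by
    rw [← h4 a ha, map_sum, Finset.sum_smul]
    refine W.sum_mem fun l _ => ?_
    obtain ⟨r, hr⟩ := IntermediateField.mem_bot.1 (h2 l a)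
    rw [← hr, map_mul, mul_comm, mul_smul, ← IsScalarTower.algebraMap_apply,
      IsScalarTower.algebraMap_apply k A B]
    exact hA _ _ (Submodule.subset_span ⟨(l, i), rfl⟩)
  have ind : ∀ H : AddSubgroup N.M, (∀ (a : A), ∀ e ∈ K.1, ∀ i,
      algebraMap A B a • algebraMap Ω B e • n i ∈ H) → ∀ x ∈ W, x ∈ H := by
    intro H hH x hx
    have : ∀ a : A, a • x ∈ H := by
      induction hx using Submodule.span_induction with
      | mem x hx => obtain ⟨p, rfl⟩ := hx; exact fun a => hH a _ (hu _) _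
      | zero => simp
      | add x y _ _ hx hy => exact fun a => by rw [smul_add]; exact add_mem (hx a) (hy a)
      | smul b x _ hx => exact fun a => by rw [← mul_smul]; exact hx _
    simpa using this 1
  have hW : Module.Finite A W := Module.Finite.span_of_finite A (Set.finite_range v)
  refine ⟨K, ⟨subG (res h.map N) W (st_span h.gen _ ?_), hW⟩, W.subtype.toAddMonoidHom, Subtype.val_injective, fun _ _ => rfl,
    fun _ _ => rfl, fun a ha x => ⟨⟨_, ?_⟩, rfl⟩, fun y => ?_, fun r hr => ?_⟩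
  · rintro _ ⟨p, rfl⟩
    exact ⟨p.2.2, (π_zero N (h.cst' _) _ _).trans (congrArg _ (N.π_self _ _))⟩
  · refine ind (W.toAddSubgroup.comap (DistribSMul.toAddMonoidHom N.M (algebraMap Ω B a)))
      (fun b e he i => ?_) x.1 x.2
    change algebraMap Ω B a • algebraMap A B b • algebraMap Ω B e • n i ∈ W
    rw [smul_comm, ← mul_smul _ (algebraMap Ω B e), ← map_mul]
    exact hA _ _ (h1 _ (K.1.mul_mem ha he) i)
  · obtain ⟨γ, rfl⟩ := hsur y
    rw [Fintype.linearCombination_apply]
    refine AddSubgroup.sum_mem _ fun i _ => sp_map ((smulAddHom B N.M).flip (n i))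
      (fun ω hω a => ?_) (htop (γ i))
    have := mem_sp (B := B) (j := (W.subtype.toAddMonoidHom : W → N.M)) hω
      ⟨_, hA a _ (h1 1 K.1.one_mem i)⟩
    change (algebraMap Ω B ω * algebraMap A B a) • n i ∈ _
    rw [mul_smul, ← one_smul B (n i), ← map_one (algebraMap Ω B)]
    exact this
  · obtain ⟨R, hR⟩ := hB r fun a ha => hr a (bot_le (a := K.1) ha)
    have hmul : ∀ β ∈ sp B (K.1 : Set Ω) (algebraMap A B), ∀ γ, R (γ * β) = R γ * β :=
      fun β hβ γ => sp_ext (f := R.comp (AddMonoidHom.mulLeft γ)) (g := AddMonoidHom.mulLeft (R γ))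
        (fun e he a => sp_ext (f := R.comp (AddMonoidHom.mulRight _))
          (g := (AddMonoidHom.mulRight _).comp R) (fun ω _ a' => by
            have := hR (e * ω) (a * a')
            rw [hr e he] at this
            simp only [AddMonoidHom.comp_apply, AddMonoidHom.coe_mulRight, hR]
            simpa only [smul_eq_mul, map_mul, mul_comm, mul_left_comm, mul_assoc] using this)
          (htop γ)) hβ
    have hker : φ.toAddMonoidHom.ker ≤ (φ.toAddMonoidHom.comp (R.compLeft ι)).ker := by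
      intro y hy
      have hy' : y ∈ Submodule.span B (t : Set (ι → B)) := ht ▸ hy
      have : ∀ γ : B, φ (R.compLeft ι (γ • y)) = 0 := by
        clear hy
        induction hy' using Submodule.span_induction with
        | mem w hw =>
          intro γ
          rw [show R.compLeft ι (γ • w) = R γ • w from funext fun i => hmul _ (hK w hw i) γ,
            map_smul, show φ w = 0 from ht.le (Submodule.subset_span hw), smul_zero]
        | zero => simp
        | add x y _ _ hx hy => exact fun γ => by rw [smul_add, map_add, map_add, hx, hy, add_zero]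
        | smul b x _ hx => exact fun γ => by rw [← mul_smul]; exact hx _
      simpa using this 1
    let T := φ.toAddMonoidHom.liftOfSurjective hsur ⟨_, hker⟩
    have hT : ∀ γ, T (φ γ) = φ (R.compLeft ι γ) :=
      φ.toAddMonoidHom.liftOfRightInverse_comp_apply _ _ ⟨_, hker⟩
    refine ⟨T, fun ω x => ind ((T.comp (DistribSMul.toAddMonoidHom N.M (algebraMap Ω B ω))).eqLocus
      (DistribSMul.toAddMonoidHom N.M (algebraMap Ω B (r ω)))) (fun a e he i => ?_) x.1 x.2⟩
    change T (algebraMap Ω B ω • algebraMap A B a • algebraMap Ω B e • n i) =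
      algebraMap Ω B (r ω) • algebraMap A B a • algebraMap Ω B e • n i
    have := hT (Pi.single i (algebraMap Ω B (e * ω) • algebraMap A B a))
    rw [show R.compLeft ι (Pi.single i (algebraMap Ω B (e * ω) • algebraMap A B a)) =
      Pi.single i (R _) from funext (Pi.apply_single (fun _ => R) (fun _ => R.map_zero) i _),
      hφ, hφ, hR, hr e he] at this
    simpa only [← mul_smul, smul_eq_mul, map_mul, mul_comm, mul_left_comm, mul_assoc] using this

theorem Cmp.bc_π (h : Cmp k Ω 𝒜 ℬ) (V : GM 𝒜) (d : ℤ) (ω : Ω) (v : V.M) :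
    (h.bc V).π d (algebraMap Ω B ω • (1 : B) ⊗ₜ[A] v) = algebraMap Ω B ω • (1 : B) ⊗ₜ[A] V.π d v :=
  (h.exists_π V d).choose_spec ω v

theorem Cmp.dim_form (h : Cmp k Ω 𝒜 ℬ) {K : IntermediateField k Ω} {N : GM ℬ} {N' : GM 𝒜}
    {j : N'.M →+ N.M} (hN : Form K N N' j) (V : GM 𝒜) (t : ℤ) :
    dimK k A (tpc N' V t) = finrank k K * dimK Ω B (tpc N (h.bc V) t) := by
  let : Module A N.M := (res h.map N).mod
  have : IsScalarTower A B N.M := ⟨fun a β x => by rw [Algebra.smul_def, mul_smul]; rfl⟩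
  let e := AlgebraTensorModule.cancelBaseChange A B B N.M V.M
  let j' : N'.M →ₗ[A] N.M := ⟨j, hN.lin⟩
  let φ : N'.M ⊗[A] V.M →+ N.M ⊗[B] (B ⊗[A] V.M) :=
    e.symm.toAddEquiv.toAddMonoidHom.comp (j'.rTensor V.M).toAddMonoidHom
  have hφ : ∀ (x : N'.M) (v : V.M), φ (x ⊗ₜ[A] v) = j x ⊗ₜ[B] ((1 : B) ⊗ₜ[A] v) := fun _ _ => rfl
  have ret : ∀ r : Ω →+ Ω, Kl K r → ∃ R : N.M →ₗ[A] N.M,
      ∀ ω x, R (algebraMap Ω B ω • j x) = algebraMap Ω B (r ω) • j x := fun r hr => by
    obtain ⟨R, hR⟩ := hN.ret r hr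
    exact ⟨⟨R, fun a y => sp_ext (f := R.comp (DistribSMul.toAddMonoidHom _ (algebraMap A B a)))
      (g := (DistribSMul.toAddMonoidHom _ (algebraMap A B a)).comp R) (fun ω _ x => by
        simp only [AddMonoidHom.comp_apply, DistribSMul.toAddMonoidHom_apply, hR,
          smul_comm (algebraMap A B a), ← hN.lin]) (hN.top y)⟩, hR⟩
  refine Eq.trans (dim_alg (B := B) K φ (e.symm.injective.comp ?_) (fun c y => ?_) (fun r hr => ?_)
    _ (tpc N (h.bc V) t) ?_ ?_ ?_) rfl
  · obtain ⟨r, hr, hK, h1⟩ := exists_proj K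
    obtain ⟨R, hR⟩ := ret r hr
    have h2 : ∀ y, R y ∈ LinearMap.range j' := fun y => sp_le (H := j.range.comap R.toAddMonoidHom)
      (fun c _ x => (hN.st _ (hK c) x).imp fun _ h => h.trans (hR c x).symm) (hN.top y)
    let q := (LinearEquiv.ofInjective j' hN.inj).symm.toLinearMap ∘ₗ R.codRestrict _ h2
    have h3 : q ∘ₗ j' = LinearMap.id := LinearMap.ext fun x =>
      (LinearEquiv.ofInjective j' hN.inj).symm_apply_eq.2
        (Subtype.ext (show R (j x) = j x by simpa [h1] using hR 1 x))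
    refine LeftInverse.injective (g := q.rTensor V.M) fun y => ?_
    change (q.rTensor V.M ∘ₗ j'.rTensor V.M) y = y
    rw [← LinearMap.rTensor_comp, h3, LinearMap.rTensor_id, LinearMap.id_apply]
  · change e.symm (j'.rTensor V.M _) = _ • e.symm (j'.rTensor V.M y)
    rw [map_smul, ← IsScalarTower.algebraMap_apply, IsScalarTower.algebraMap_apply k A B,
      ← e.symm.map_smul, algebraMap_smul B]
  · obtain ⟨R, hR⟩ := ret r hr
    refine ⟨e.symm.toAddEquiv.toAddMonoidHom.comp ((R.rTensor V.M).toAddMonoidHom.comp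
      e.toAddEquiv.toAddMonoidHom), fun ω y => ?_⟩
    change e.symm (R.rTensor V.M (e (_ • e.symm (j'.rTensor V.M y)))) =
      _ • e.symm (j'.rTensor V.M y)
    rw [e.map_smul, e.apply_symm_apply, ← e.symm.map_smul]
    congr 1
    induction y with
    | zero => simp
    | tmul x v => exact congrArg (· ⊗ₜ[A] v) (hR ω x)
    | add y z hy hz => simp only [map_add, smul_add, hy, hz]
  · rintro _ ⟨a, x, v, rfl⟩
    refine ⟨a, j x, 1 ⊗ₜ v, ?_⟩
    rw [hφ, hN.gr]
    exact congrArg _ ((h.form_bc V).gr (t - a) v)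
  · rintro _ ⟨a, y, w, rfl⟩
    refine sp_map (((TensorProduct.mk B N.M (h.bc V).M).flip _).toAddMonoidHom.comp (N.π a))
      (fun ω _ x => ?_) (hN.top y)
    refine sp_map ((TensorProduct.mk B N.M (h.bc V).M _).toAddMonoidHom.comp ((h.bc V).π (t - a)))
      (fun ω' hω v => ?_) ((h.form_bc V).top w)
    have := mem_sp (B := B) (j := fun y : tpc N' V t => φ y) (Set.mem_univ (ω' * ω))
      ⟨_, a, x, v, rfl⟩
    rw [hφ, hN.gr, map_mul, mul_smul, smul_tmul' _ (N.π a _), ← π_zero N (h.cst' ω), ← tmul_smul,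
      ← h.bc_π] at this
    exact this
  · rintro c hc _ ⟨a, x, v, rfl⟩
    obtain ⟨y, hy⟩ := hN.st c hc x
    refine ⟨_, ⟨a, y, v, rfl⟩, ?_⟩
    rw [hφ, hφ, hN.gr, hN.gr, hy, π_zero N (h.cst' c), smul_tmul']

theorem Cmp.desc [Algebra.IsAlgebraic k Ω] [IsNoetherianRing B] (h : Cmp k Ω 𝒜 ℬ) {σ : Type}
    (z : σ → A) (hT : NumTors Ω ℬ fun i => algebraMap A B (z i)) : NumTors k 𝒜 z := by
  intro x hx h0
  choose K D j hD using h.exists_form
  let U : FGM 𝒜 → FGM ℬ := fun V => ⟨h.bc V.1,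
    have := V.2; inferInstanceAs (Module.Finite B (B ⊗[A] V.1.M))⟩
  obtain ⟨c, hc0, hcx⟩ := hT (FreeAbelianGroup.map U x) ((AddSubgroup.closure_le
    ((vb ℬ _).comap (FreeAbelianGroup.map U))).2 (by
      rintro _ ⟨V, hV, rfl⟩
      exact AddSubgroup.subset_closure ⟨U V, fun i => lf_bc (z i) (hV i), rfl⟩) hx) fun N => by
    have := (K N).2
    have hm : (finrank k (K N).1 : ℚ) ≠ 0 := Nat.cast_ne_zero.2 finrank_pos.ne'
    have h1 := h0 (D N)
    have h2 := h0 ⟨sq (D N).1, have := (D N).2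
      inferInstanceAs (Module.Finite A ((D N).1.M × (D N).1.M))⟩
    have key : ∀ y, FreeAbelianGroup.lift (fun W : FGM ℬ => pair Ω N.1 W.1)
        (FreeAbelianGroup.map U y) = (2 - (finrank k (K N).1 : ℚ)⁻¹) *
          FreeAbelianGroup.lift (fun V : FGM 𝒜 => pair k (D N).1 V.1) y +
        ((finrank k (K N).1 : ℚ)⁻¹ - 1) *
          FreeAbelianGroup.lift (fun V : FGM 𝒜 => pair k (sq (D N).1) V.1) y := fun y => by
      induction y using FreeAbelianGroup.induction_on with
      | zero => simp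
      | of V =>
        obtain ⟨α, β, hf⟩ := hp_aff fun t => dimK Ω B (tpc N.1 (U V).1 t)
        have e1 : pair Ω N.1 (U V).1 = 1 * α + β := by
          rw [← hf 1 one_ne_zero]; simp only [one_mul]; rfl
        have e2 : pair k (D N).1 V.1 = finrank k (K N).1 * α + β := by
          rw [← hf _ hm, pair]
          simp only [h.dim_form (hD N), Nat.cast_mul]
          rfl
        have e3 : pair k (sq (D N).1) V.1 = (2 * finrank k (K N).1) * α + β := by
          rw [← hf _ (mul_ne_zero two_ne_zero hm), pair]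
          simp only [dim_sq, h.dim_form (hD N), Nat.cast_mul, mul_assoc]
          rfl
        simp only [FreeAbelianGroup.map_of_apply, FreeAbelianGroup.lift_apply_of, e1, e2, e3]
        field_simp
        ring
      | neg V ih => simp only [map_neg, ih]; ring
      | add y y' ih ih' => simp only [map_add, ih, ih']; ring
    rw [key, h1, h2]
    simp
  let G := FreeAbelianGroup (FGM 𝒜) ⧸ rels 𝒜
  let cl : FreeAbelianGroup (FGM 𝒜) →+ ℚ ⊗[ℤ] G :=
    (TensorProduct.mk ℤ ℚ G 1).toAddMonoidHom.comp (QuotientAddGroup.mk' _)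
  have hcl : ∀ y ∈ rels 𝒜, cl y = 0 := fun y hy =>
    (congrArg (TensorProduct.mk ℤ ℚ G 1) ((QuotientAddGroup.eq_zero_iff y).2 hy)).trans (map_zero _)
  let ρ := FreeAbelianGroup.lift fun N : FGM ℬ => (finrank k (K N).1 : ℚ)⁻¹ • cl (.of (D N))
  have hz : ∀ N : FGM ℬ, Tors N.1 → cl (.of (D N)) = 0 := fun N hN =>
    hcl _ (AddSubgroup.subset_closure (Or.inr ⟨D N, Eventually.mono hN fun d hd =>
      AddMonoidHom.ext fun y => (hD N).inj (by simp [(hD N).gr, hd]), rfl⟩))
  have hρ : rels ℬ ≤ ρ.ker := (AddSubgroup.closure_le _).2 (by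
    rintro _ (⟨M, N, P, hs, rfl⟩ | ⟨M, hM, rfl⟩)
    · simp [ρ, val_add h.cst' cl hcl (hD M) (hD N) (hD P) hs]
    · simp [ρ, hz M hM])
  have hU : ρ.comp (FreeAbelianGroup.map U) = cl := FreeAbelianGroup.lift_ext _ _ fun V => by
    have := val_add h.cst' cl hcl (K₁ := ⟨⊥, inferInstance⟩) (h.form_bc V.1) (hD (U V))
      (hD (pwF 0 (U V))) ⟨LinearMap.id, 0, fun _ _ => rfl, fun _ _ => funext fun i => i.elim0,
        injective_id, fun y => ⟨0, funext fun i => i.elim0⟩,
        fun y => ⟨fun _ => ⟨y, rfl⟩, fun _ => rfl⟩⟩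
    rw [hz (pwF 0 (U V)) (Eventually.of_forall fun _ => AddMonoidHom.ext fun _ =>
      funext fun i => i.elim0)] at this
    simpa [ρ] using this
  obtain ⟨s, hs⟩ := (IsLocalizedModule.eq_zero_iff (nonZeroDivisors ℤ)
    (TensorProduct.mk ℤ ℚ G 1) (m := QuotientAddGroup.mk (c • x))).1 (by
      change cl (c • x) = 0
      rw [← hU, AddMonoidHom.comp_apply, map_nsmul]
      exact hρ hcx)
  refine ⟨s.1.natAbs * c, Nat.mul_pos (Int.natAbs_pos.2 (nonZeroDivisors.coe_ne_zero s)) hc0, ?_⟩
  rw [mul_smul, ← QuotientAddGroup.eq_zero_iff, QuotientAddGroup.mk_nsmul, natAbs_nsmul_eq_zero]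
  exact hs

open MvPolynomial in
/-- `NumTors` descends along an algebraic extension of the ground field. -/
theorem numTors_alg (k Ω : Type) [Field k] [Field Ω] [Algebra k Ω] [Algebra.IsAlgebraic k Ω]
    {τ : Type} [Finite τ] (J : Ideal (MvPolynomial τ k))
    (h : NumTors Ω (hom (J.map (MvPolynomial.map (algebraMap k Ω))))
      (crd (J.map (MvPolynomial.map (algebraMap k Ω))))) : NumTors k (hom J) (crd J) := by
  let : Algebra (MvPolynomial τ k) (MvPolynomial τ Ω) := algebraMvPolynomial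
  let I := J.map (algebraMap (MvPolynomial τ k) (MvPolynomial τ Ω))
  have ha : ∀ g, algebraMap (MvPolynomial τ k ⧸ J) (MvPolynomial τ Ω ⧸ I)
      (Ideal.Quotient.mk J g) = Ideal.Quotient.mk I (map (algebraMap k Ω) g) := fun _ => rfl
  have : IsScalarTower k (MvPolynomial τ k ⧸ J) (MvPolynomial τ Ω ⧸ I) :=
    .of_algebraMap_eq (R := k) (S := MvPolynomial τ k ⧸ J) (A := MvPolynomial τ Ω ⧸ I)
      fun r => congrArg (Ideal.Quotient.mk I) (map_C (algebraMap k Ω) r).symm
  have : Algebra.IsPushout k Ω (MvPolynomial τ k ⧸ J) (MvPolynomial τ Ω ⧸ I) :=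
    ⟨.of_equiv ((Algebra.IsPushout.cancelBaseChange k Ω (MvPolynomial τ k) (MvPolynomial τ Ω)
      (MvPolynomial τ k ⧸ J)).symm.trans ((Algebra.TensorProduct.quotIdealMapEquivTensorQuot
        (MvPolynomial τ Ω) J).symm.toLinearEquiv.restrictScalars Ω)) fun x => by
      obtain ⟨g, rfl⟩ := Ideal.Quotient.mk_surjective x
      simp only [LinearEquiv.trans_apply, Algebra.IsPushout.cancelBaseChange_symm_tmul, map_one]
      exact congrArg (Ideal.Quotient.mk I) ((Algebra.smul_def g 1).trans (mul_one _))⟩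
  refine Cmp.desc (Ω := Ω) (𝒜 := hom J) (ℬ := hom I) ⟨fun a => ?_,
    fun r => ⟨0, C r, rfl, isHomogeneous_C _ _, rfl⟩,
    fun r => ⟨0, C r, rfl, isHomogeneous_C _ _, rfl⟩, ?_, ?_⟩ (crd J) ?_
  · obtain ⟨f, rfl⟩ := Ideal.Quotient.mk_surjective a
    rw [← f.sum_homogeneousComponent, map_sum]
    exact sum_mem fun m _ => AddSubgroup.subset_closure
      (Set.mem_iUnion.2 ⟨m, m, _, rfl, homogeneousComponent_isHomogeneous m f, rfl⟩)
  · rintro c _ ⟨m, f, hm, hf, rfl⟩
    exact ⟨m, map (algebraMap k Ω) f, hm, hf.map _, rfl⟩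
  · rintro c _ ⟨m, f, hm, hf, rfl⟩
    rw [f.as_sum, map_sum]
    refine AddSubgroup.sum_mem _ fun d hd => ?_
    have := mem_sp (B := MvPolynomial τ Ω ⧸ I) (j := fun a : hom J c =>
      algebraMap (MvPolynomial τ k ⧸ J) (MvPolynomial τ Ω ⧸ I) a) (Set.mem_univ (coeff d f))
      ⟨_, m, monomial d 1, hm, isHomogeneous_monomial _ (by
        rw [Finsupp.degree_eq_weight_one]; exact hf (MvPolynomial.mem_support_iff.1 hd)), rfl⟩
    rwa [ha, map_monomial, map_one, smul_eq_mul, ← Ideal.Quotient.mk_algebraMap, ← map_mul,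
      algebraMap_eq, C_mul_monomial, mul_one] at this
  · rwa [show (fun i => algebraMap _ (MvPolynomial τ Ω ⧸ I) (crd J i)) = crd I from
      funext fun i => congrArg (Ideal.Quotient.mk I) (map_X _ i)]

end Pool.Agent.Bav.Desc
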