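import Pool.Agent.P.MP_dd457d_ag.Bav.ChartB

/-! The ideal of a product, zeros of graded ideals, orbits of Frobenius. -/

set_option autoImplicit false

noncomputable section

namespace Pool.Agent.Bav

open MvPolynomial Pool.Agent.Tav

section Prod
variable {Ω σ ι : Type} [Field Ω]

theorem prod_step {A : Type} [CommRing A] [Algebra Ω A] (J : Ideal A) (Z : Set (σ → Ω))
    (ξ : σ → A) (hξ : ∀ f ∈ vanishingIdeal Ω Z, aeval ξ f ∈ J) (P : MvPolynomial σ A)
    (h : ∀ y ∈ Z, eval (fun a => algebraMap Ω A (y a)) P ∈ J) : eval ξ P ∈ J := by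
  classical
  let b := Module.Basis.ofVectorSpace Ω (A ⧸ J)
  let mk := Ideal.Quotient.mkₐ Ω J
  let H := fun a => ∑ m ∈ P.support, (monomial m (b.repr (mk (coeff m P)) a) : MvPolynomial σ Ω)
  have hH : ∀ a, H a ∈ vanishingIdeal Ω Z := fun a y hy => by
    have h1 : mk (eval (fun a => algebraMap Ω A (y a)) P) = 0 :=
      Ideal.Quotient.eq_zero_iff_mem.2 (h y hy)
    have h2 := congrArg (fun z => b.repr z a) h1
    simp only [map_zero, Finsupp.zero_apply] at h2
    rw [← h2, eval_eq, map_sum, map_sum, map_sum, Finsupp.finsetSum_apply]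
    refine Finset.sum_congr rfl fun m _ => ?_
    rw [aeval_monomial]
    simp only [← map_pow, ← map_prod]
    rw [mul_comm (coeff m P), ← Algebra.smul_def (A := A), map_smul, map_smul, Finsupp.smul_apply,
      smul_eq_mul, mul_comm]
    rfl
  rw [← Ideal.Quotient.eq_zero_iff_mem]
  change mk _ = 0
  let U := P.support.biUnion fun m => (b.repr (mk (coeff m P))).support
  have e : mk (eval ξ P) = ∑ a ∈ U, b a * mk (aeval ξ (H a)) := by
    simp only [H, map_sum, Finset.mul_sum]
    rw [Finset.sum_comm, eval_eq, map_sum]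
    refine Finset.sum_congr rfl fun m hm => ?_
    have h3 : mk (coeff m P) = ∑ a ∈ U, b.repr (mk (coeff m P)) a • b a := by
      conv_lhs => rw [← b.linearCombination_repr (mk (coeff m P))]
      rw [Finsupp.linearCombination_apply]
      exact Finsupp.sum_of_support_subset _
        (Finset.subset_biUnion_of_mem (fun m => (b.repr (mk (coeff m P))).support) hm) _
        fun _ _ => zero_smul _ _
    rw [map_mul, h3, Finset.sum_mul]
    refine Finset.sum_congr rfl fun a _ => ?_
    rw [aeval_monomial, ← Algebra.smul_def, map_smul, ← h3, smul_mul_assoc, mul_smul_comm]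
    rfl
  rw [e]
  exact Finset.sum_eq_zero fun a _ => by
    rw [show mk (aeval ξ (H a)) = 0 from Ideal.Quotient.eq_zero_iff_mem.2 (hξ _ (hH a)), mul_zero]

/-- a polynomial that vanishes on a product lies in the sum of the ideals of the factors -/
theorem mem_of_vanish_prod [Finite ι] (Z : ι → Set (σ → Ω)) (J : Ideal (S σ Ω ι))
    (hJ : ∀ i, ∀ f ∈ vanishingIdeal Ω (Z i), blk i f ∈ J) {f : S σ Ω ι}
    (h : ∀ z : ι × σ → Ω, (∀ i, (fun a => z (i, a)) ∈ Z i) → eval z f = 0) : f ∈ J := by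
  classical
  cases nonempty_fintype ι
  have key : ∀ s : Finset ι, ∀ z : ι × σ → Ω, (∀ i ∉ s, (fun a => z (i, a)) ∈ Z i) →
      aeval (fun v => if v.1 ∈ s then (X v : S σ Ω ι) else C (z v)) f ∈ J := by
    intro s
    induction s using Finset.induction_on with
    | empty =>
      intro z hz
      simp only [Finset.notMem_empty, if_false]
      have : aeval (fun v => (C (z v) : S σ Ω ι)) f = C (eval z f) := by
        rw [← coe_aeval_eq_eval]
        exact (aeval_algebraMap_apply (S σ Ω ι) z f)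
      rw [this, h z fun i => hz i (Finset.notMem_empty i), C_0]
      exact J.zero_mem
    | insert i s hi ih =>
      intro z hz
      let Φ : S σ Ω ι →ₐ[Ω] MvPolynomial σ (S σ Ω ι) :=
        aeval fun v => if v.1 = i then X v.2 else C (if v.1 ∈ s then X v else C (z v))
      have hΦ : ∀ ξ : σ → S σ Ω ι, eval ξ (Φ f) =
          aeval (fun v => if v.1 = i then ξ v.2 else if v.1 ∈ s then X v else C (z v)) f := by
        intro ξ
        have : ((aeval ξ : MvPolynomial σ (S σ Ω ι) →ₐ[S σ Ω ι] S σ Ω ι).restrictScalars Ω).comp Φ =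
            aeval (fun v => if v.1 = i then ξ v.2 else if v.1 ∈ s then X v else C (z v)) :=
          algHom_ext fun v => by
            by_cases hv : v.1 = i <;> simp [Φ, hv]
        exact DFunLike.congr_fun this f
      have h1 := prod_step J (Z i) (fun a => X (i, a)) (fun g hg => by
        have := hJ i g hg
        rwa [show (blk i : MvPolynomial σ Ω →ₐ[Ω] S σ Ω ι) = aeval fun a => X (i, a) from
          algHom_ext fun a => by simp] at this) (Φ f) fun y hy => by
        rw [hΦ]
        have h2 := ih (fun v => if v.1 = i then y v.2 else z v) fun j hj => by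
          by_cases e : j = i
          · subst e
            simpa using hy
          · simpa [e] using hz j fun h => (Finset.mem_insert.1 h).elim e hj
        convert h2 using 3
        funext v
        by_cases e : v.1 = i
        · simp [e, hi]
        · simp [e]
      rw [hΦ] at h1
      convert h1 using 3
      funext v
      by_cases e : v.1 = i
      · simp [← e]
      · simp [e]
  have := key Finset.univ 0 fun i hi => absurd (Finset.mem_univ i) hi
  simpa using this

end Prod

section Conv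
variable {k σ ι : Type} [Field k] [DecidableEq ι]

theorem weight_wt (s : ι × σ →₀ ℕ) (i : ι) :
    Finsupp.weight (wt (ι := ι) (σ := σ)) s i = (Finsupp.weight (wN Prod.fst) s i : ℕ) := by
  induction s using Finsupp.induction_linear with
  | zero => simp
  | add s t hs ht => simp only [map_add, Pi.add_apply, hs, ht, Nat.cast_add]
  | single v n => simp [Finsupp.weight_single, wt_apply, wN, Pi.single_apply]

theorem hg_of_Sd {f : S σ k ι} {d : ι → ℕ} (h : f ∈ Sd k Prod.fst d) : Hg f fun i => d i :=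
  fun s hs => funext fun i => by rw [weight_wt, h hs]

theorem Hg.mem_Sd {f : S σ k ι} {d : ι → ℤ} (h : Hg f d) :
    f ∈ Sd k Prod.fst fun i => (d i).toNat :=
  fun s hs => funext fun i => by rw [← h hs, weight_wt, Int.toNat_natCast]

omit [DecidableEq ι] in
theorem blk_fst {T : Type} (x : ι → T → σ → k) :
    Tav.blk k Prod.fst (fun (v : ι × σ) t => x v.1 t v.2) = fun i => crd (x i) := by
  funext i
  unfold Tav.blk crd
  congr 1
  ext u
  constructor
  · rintro ⟨v, rfl, rfl⟩
    exact ⟨v.2, rfl⟩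
  · rintro ⟨l, rfl⟩
    exact ⟨(i, l), rfl, rfl⟩

end Conv

section Pts
variable {Ω G σ ι : Type} [Field Ω] (p : G → σ → Ω)

/-- the coordinates of a point of the power -/
def xp (t : ι → G) : ι × σ → Ω := fun v => p (t v.1) v.2

variable {p}

theorem Hg.eval_scale [Fintype ι] {f : S σ Ω ι} {d : ι → ℤ} (h : Hg f d) (c : ι → Ω)
    (z : ι × σ → Ω) :
    eval (fun v => c v.1 * z v) f = (∏ i, c i ^ (d i).toNat) * eval z f := by
  classical
  exact Bav.eval_scale h.mem_Sd c z

theorem mem_idl {f : MvPolynomial σ Ω} : f ∈ idl p ↔ ∀ (c : Ω) (t : G), eval (c • p t) f = 0 :=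
  ⟨fun h c t => h _ ⟨c, t, rfl⟩, by
    rintro h _ ⟨c, t, rfl⟩
    exact h c t⟩

theorem eval_blk (z : ι × σ → Ω) (i : ι) (f : MvPolynomial σ Ω) :
    eval z (blk i f) = eval (fun a => z (i, a)) f := eval_rename _ _ _

theorem eval_of_mem_IX {f : S σ Ω ι} (h : f ∈ IX (idl p) ι) (t : ι → G) : eval (xp p t) f = 0 := by
  refine (IX_le (J := RingHom.ker (eval (xp p t))) fun i g hg => ?_) h
  rw [RingHom.mem_ker, eval_blk]
  have := mem_idl.1 hg 1 (t i)
  rwa [one_smul] at this

/-- a form that vanishes at all points of the power lies in the ideal of the power -/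
theorem mem_IX_of_vanish [Finite ι] {f : S σ Ω ι} {d : ι → ℤ} (hf : Hg f d)
    (h : ∀ t : ι → G, eval (xp p t) f = 0) : f ∈ IX (idl p) ι := by
  cases nonempty_fintype ι
  refine mem_of_vanish_prod (fun _ => {z | ∃ (c : Ω) (t : G), z = c • p t}) _
    (fun i g hg => blk_mem i hg) fun z hz => ?_
  choose c t ht using hz
  have e : z = fun v => c v.1 * xp p t v := funext fun v => congrFun (ht v.1) v.2
  rw [e, hf.eval_scale, h, mul_zero]

theorem eval_smul_hom {f : MvPolynomial σ Ω} {n : ℕ} (hf : f.IsHomogeneous n) (c : Ω)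
    (z : σ → Ω) : eval (c • z) f = c ^ n * eval z f := by
  have h := (hg_blk () hf).eval_scale (fun _ => c) fun v => z v.2
  rw [eval_blk, eval_blk] at h
  refine Eq.trans h ?_
  simp

theorem mem_idl_hom {f : MvPolynomial σ Ω} {n : ℕ} (hf : f.IsHomogeneous n) :
    f ∈ idl p ↔ ∀ t, eval (p t) f = 0 :=
  ⟨fun h t => by simpa only [one_smul] using mem_idl.1 h 1 t,
    fun h => mem_idl.2 fun c t => by rw [eval_smul_hom hf, h, mul_zero]⟩

theorem homI_idl [Infinite Ω] (p : G → σ → Ω) : HomI (idl p) := by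
  intro d f hf
  refine (mem_idl_hom (homogeneousComponent_isHomogeneous d f)).2 fun t => ?_
  let Q : Polynomial Ω := ∑ n ∈ Finset.range (f.totalDegree + 1),
    Polynomial.monomial n (eval (p t) (homogeneousComponent n f))
  have hQ : Q = 0 := Polynomial.funext fun c => by
    rw [Polynomial.eval_zero, ← mem_idl.1 hf c t]
    conv_rhs => rw [← sum_homogeneousComponent f, map_sum]
    rw [Polynomial.eval_finsetSum]
    exact Finset.sum_congr rfl fun n _ => by
      rw [Polynomial.eval_monomial, eval_smul_hom (homogeneousComponent_isHomogeneous n f),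
        mul_comm]
  by_cases hd : d ≤ f.totalDegree
  · have := congrArg (fun q => Polynomial.coeff q d) hQ
    simpa [Q, Polynomial.coeff_monomial, Nat.lt_succ_of_le hd] using this
  · rw [homogeneousComponent_eq_zero _ _ (not_le.1 hd), map_zero]

/-- a zero of the ideal of the power with nonzero blocks comes from a point -/
theorem exists_pt (cl : ∀ z ∈ zeroLocus Ω (idl p), z ≠ 0 → ∃ x, Par z (p x)) {z : ι × σ → Ω}
    (hz : ∀ f ∈ IX (idl p) ι, eval z f = 0) (hb : ∀ i, ∃ a, z (i, a) ≠ 0) :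
    ∃ (t : ι → G) (c : ι → Ω), (∀ i, c i ≠ 0) ∧ z = fun v => c v.1 * xp p t v := by
  choose t c hc ht using fun i => cl (fun a => z (i, a))
    (fun f hf => (eval_blk z i f).symm.trans (hz _ (blk_mem i hf))) (Function.ne_iff.2 (hb i))
  exact ⟨t, c, fun i => (hc i).ne_zero, funext fun v => congrFun (ht v.1) v.2⟩

theorem GrI.eval_scale [Fintype ι] {J : Ideal (S σ Ω ι)} (hJ : GrI J) {z : ι × σ → Ω}
    (hz : ∀ f ∈ J, eval z f = 0) (c : ι → Ω) : ∀ f ∈ J, eval (fun v => c v.1 * z v) f = 0 := by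
  intro f hf
  obtain ⟨T, hT⟩ := polyA_sum wt f
  rw [← hT, map_sum]
  exact Finset.sum_eq_zero fun d _ => by
    rw [Hg.eval_scale (weightedHomogeneousComponent_isWeightedHomogeneous d f), hz _ (hJ d f hf),
      mul_zero]

variable [IsAlgClosed Ω] [Finite σ] [Fintype ι]

/-- Nullstellensatz on the points of the power -/
theorem nst (cl : ∀ z ∈ zeroLocus Ω (idl p), z ≠ 0 → ∃ x, Par z (p x)) {J : Ideal (S σ Ω ι)}
    (hJ : GrI J) (hI : IX (idl p) ι ≤ J) {f : S σ Ω ι} {d : ι → ℤ} (hf : Hg f d)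
    (h : ∀ t : ι → G, (∀ u ∈ J, eval (xp p t) u = 0) → eval (xp p t) f = 0) (α : ι → σ) :
    ∃ N : ℕ, (mono Ω α * f) ^ N ∈ J := by
  refine (vanishingIdeal_zeroLocus_eq_radical (K := Ω) J).le fun z hz => ?_
  change eval z _ = 0
  rw [map_mul]
  by_cases h0 : eval z (mono Ω α) = 0
  · rw [h0, zero_mul]
  · simp only [mono, map_prod, eval_X] at h0
    obtain ⟨t, c, hc, rfl⟩ := exists_pt cl (fun u hu => hz u (hI hu)) fun i =>
      ⟨α i, Finset.prod_ne_zero_iff.1 h0 i (Finset.mem_univ i)⟩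
    rw [hf.eval_scale, h t fun u hu => ?_, mul_zero, mul_zero]
    have := hJ.eval_scale hz (fun i => (c i)⁻¹) u hu
    simpa only [inv_mul_cancel_left₀ (hc _)] using this

theorem irr_of_pts (cl : ∀ z ∈ zeroLocus Ω (idl p), z ≠ 0 → ∃ x, Par z (p x))
    {J : Ideal (S σ Ω ι)} (hJ : GrI J) (hI : IX (idl p) ι ≤ J)
    (h : ∀ t : ι → G, ∃ u ∈ J, eval (xp p t) u ≠ 0) : Irr J := fun α => by
  simpa only [mul_one] using nst cl hJ hI (isWeightedHomogeneous_one Ω wt) (fun t ht => by
    obtain ⟨u, hu, h0⟩ := h t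
    exact absurd (ht u hu) h0) α

/-- a relevant graded prime is the ideal of its points -/
theorem mem_prime_of_vanish (cl : ∀ z ∈ zeroLocus Ω (idl p), z ≠ 0 → ∃ x, Par z (p x))
    {P : Ideal (S σ Ω ι)} (hg : GrI P) (hP : P.IsPrime) (hI : IX (idl p) ι ≤ P) (hr : ¬ Irr P)
    {f : S σ Ω ι} {d : ι → ℤ} (hf : Hg f d)
    (h : ∀ t : ι → G, (∀ u ∈ P, eval (xp p t) u = 0) → eval (xp p t) f = 0) : f ∈ P := by
  by_contra hc
  refine hr fun α => ?_
  obtain ⟨N, hN⟩ := nst cl hg hI hf h α
  exact ⟨1, by rw [pow_one]; exact (hP.mem_or_mem (hP.mem_of_pow_mem N hN)).resolve_right hc⟩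

omit [IsAlgClosed Ω] in
/-- finite systems of charts of one multidegree -/
theorem exists_charts {τ : Type} (hne : ∀ x, p x ≠ 0) {w : (ι → G) → τ → Ω} (hw : ∀ t, w t ≠ 0)
    (h : Rg (fun i => crd fun t : ι → G => p (t i)) (crd w)) :
    ∃ (n : ℕ) (e : ι → ℕ) (u : Fin n → τ → S σ Ω ι), (∀ c l, Hg (u c l) fun i => e i) ∧
      (∀ c t, ∃ a : Ω, ∀ l, eval (xp p t) (u c l) = a * w t l) ∧
      ∀ t, ∃ c l, eval (xp p t) (u c l) ≠ 0 := by
  classical
  obtain ⟨n, e, u, hu⟩ := exists_chart_top (β := Prod.fst) (x := xp p) (fun t i => by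
    obtain ⟨a, ha⟩ := Function.ne_iff.1 (hne (t i))
    exact ⟨(i, a), rfl, ha⟩) hw (by
    rw [← blk_fst fun i (t : ι → G) => p (t i)] at h
    exact h)
  exact ⟨n, e, u, fun c l => hg_of_Sd (hu.hom c l), hu.par, hu.cov⟩

omit [IsAlgClosed Ω] [Finite σ] in
/-- the cross minors of two charts of one map -/
theorem minor_mem {τ : Type} {w : (ι → G) → τ → Ω} {u u' : τ → S σ Ω ι} {e e' : ι → ℤ}
    (hu : ∀ l, Hg (u l) e) (hu' : ∀ l, Hg (u' l) e')
    (h : ∀ t, ∃ a : Ω, ∀ l, eval (xp p t) (u l) = a * w t l)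
    (h' : ∀ t, ∃ a : Ω, ∀ l, eval (xp p t) (u' l) = a * w t l) (a b : τ) :
    u a * u' b - u b * u' a ∈ IX (idl p) ι := by
  refine mem_IX_of_vanish (poly_hg_sub ((hu a).mul (hu' b)) ((hu b).mul (hu' a))) fun t => ?_
  obtain ⟨c, hc⟩ := h t
  obtain ⟨c', hc'⟩ := h' t
  simp only [map_sub, map_mul, hc, hc']
  ring

/-- the charts have no common zero -/
theorem irr_charts (cl : ∀ z ∈ zeroLocus Ω (idl p), z ≠ 0 → ∃ x, Par z (p x)) {C τ : Type}
    {u : C → τ → S σ Ω ι} {e : C → ι → ℤ} (hu : ∀ c l, Hg (u c l) (e c))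
    (h : ∀ t, ∃ c l, eval (xp p t) (u c l) ≠ 0) :
    Irr (IX (idl p) ι ⊔ Ideal.span {f | ∃ c a, f = u c a}) := by
  refine irr_of_pts cl (GrW.sup (grI_IX (homI_idl p)) (grW_span ?_)) le_sup_left fun t => ?_
  · rintro _ ⟨c, a, rfl⟩
    exact ⟨_, hu c a⟩
  · obtain ⟨c, l, h0⟩ := h t
    exact ⟨_, Ideal.mem_sup_right (Ideal.subset_span ⟨c, l, rfl⟩), h0⟩

end Pts

end Pool.Agent.Bav
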