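import Pool.Agent.P.MP_dd457d_ag.Bav.PMod
import Pool.Agent.P.MP_dd457d_ag.Bav.ChartC

/-! The ideal of the variety is defined over the ground field. -/

set_option autoImplicit false

noncomputable section

namespace Pool.Agent.Bav

open MvPolynomial Pool.Agent.Tav

theorem p_Idk : S_Idk := by
  intro k _ _ G τ _ p F inj _ hF
  rw [← Nat.card_eq_fintype_card] at hF
  obtain ⟨fr, hfr⟩ := exists_fr k (AlgebraicClosure k)
  have hh := homI_idl p
  refine ⟨desc_ideal hfr _ fun f hf => mem_idl.2 fun c t => ?_, fun d f hf => ?_⟩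
  · obtain ⟨n, hn, e⟩ := exists_fix inj hF t
    obtain ⟨n, rfl⟩ := Nat.exists_eq_succ_of_ne_zero hn.ne'
    rw [Function.iterate_succ_apply'] at e
    obtain ⟨d, -, hd⟩ := hF (F^[n] t)
    obtain ⟨a, ha⟩ := IsAlgClosed.exists_pow_nat_eq (c * d) (Nat.card_pos (α := k))
    have : c • p t = fun v => fr ((a • p (F^[n] t)) v) := funext fun v => by
      rw [hfr, Pi.smul_apply, Pi.smul_apply, smul_eq_mul, smul_eq_mul, mul_pow, ha, ← e, hd, e,
        mul_assoc]
      rfl
    rw [this, De.eval_frob, mem_idl.1 hf, map_zero]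
  · have := hh d _ hf
    rw [idk, Ideal.mem_comap]
    refine (congrArg (· ∈ idl p) ?_).mpr this
    ext s
    simp only [coeff_map, coeff_homogeneousComponent]
    split_ifs <;> simp

end Pool.Agent.Bav
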