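import Pool.Agent.P.MP_dd457d_ag.Bav.Plus
import Pool.Agent.P.MP_2ce3e7_ag.Tav.TiTop

/-! The point data for every abelian variety, from the inputs of the last step. -/

set_option autoImplicit false

namespace Pool.Agent.Bav

open Pool.Agent.Tav

theorem hasP_of {k : Type} [Field k] [Fintype k] (hC : Ti.S_Cube k) (hB : Ti.S_Fib k)
    (hM : Ti.S_HM k) (hI : Ti.S_Isog k) {G τ : Type} [AddCommGroup G] [Fintype τ] {g : ℕ}
    {p : G → τ → AlgebraicClosure k} (av : AV p g) (inj : ∀ y y', Par (p y) (p y') → y = y')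
    {F : G →+ G} (hF : ∀ y, Par (p (F y)) (p y ^ Fintype.card k)) : HasP k p g F := by
  obtain ⟨σ, _, h, av', s, B, e, π, b₀, m1, m2, law, hg, hV, hπ, deg, -, hT, -⟩ :=
    Ti.pkg hC hB hM hI av inj hF
  exact hasP_of_emb k av inj hF av'.ne m1 m2 law B e π b₀ hg hV hπ deg hT

end Pool.Agent.Bav
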