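import Pool.Agent.P.MP_dd457d_ag.Bav.KPkg
import Pool.Agent.P.MP_dd457d_ag.Bav.CalcC
import Pool.Agent.P.MP_dd457d_ag.Bav.DescB
import Pool.Agent.P.MP_dd457d_ag.Bav.Idk
import Pool.Agent.P.MP_dd457d_ag.Bav.PlusTop
import Pool.Agent.P.MP_2ce3e7_ag.Tav.CuTi
import Pool.Agent.P.MP_2ce3e7_ag.Tav.TiSFib
import Pool.Agent.P.MP_2ce3e7_ag.Tav.TiSIsog
import Pool.Agent.P.MP_2ce3e7_ag.Tav.G3HM
import Pool.Agent.P.MP_2ce3e7_ag.Tav.TiAll

/-! The theorem for every abelian variety over a finite field. -/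

set_option autoImplicit false

namespace Pool.Agent.Bav

open Pool.Agent.Tav

variable (k : Type) [Field k] [Fintype k] {G τ : Type} [AddCommGroup G] [Fintype τ] {g : ℕ}
  {p : G → τ → AlgebraicClosure k} (av : AV p g) (inj : ∀ y y', Par (p y) (p y') → y = y')
  {F : G →+ G} (hF : ∀ y, Par (p (F y)) (p y ^ Fintype.card k))

include av inj hF

theorem hasP : HasP k p g F :=
  hasP_of (Ti.p_Cube k) (Ti.s_fib k) (Ti.s_hm_all k) (Ti.s_isog k) av inj hF

theorem mainP : CXD.NumTors k (CXD.hom (idk k p)) (CXD.crd (idk k p)) :=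
  (hasP k av inj hF).bav k p_Pkg p_Calc (fun k Ω _ _ _ _ _ _ J _ h => Desc.numTors_alg k Ω J h)
    p_Idk

end Pool.Agent.Bav
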