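import Pool.Agent.P.MP_2ce3e7_ag.Tav.Stmt0
import Pool.Agent.P.MP_2ce3e7_ag.CW0

/-! The ideal over the ground field. -/

set_option autoImplicit false

noncomputable section

namespace Pool.Agent.Bav

open Pool.Agent.Tav

/-- the equations with coefficients in `k` of the cone over the image of `p` -/
def idk (k : Type) [Field k] {G τ : Type} (p : G → τ → AlgebraicClosure k) :
    Ideal (MvPolynomial τ k) :=
  (idl p).comap (MvPolynomial.map (algebraMap k (AlgebraicClosure k)))

end Pool.Agent.Bav
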