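import Pool.Agent.P.MP_dd457d_ag.Bav.Fgt

/-! Projections to some of the factors and the Euler characteristic. -/

set_option autoImplicit false

noncomputable section

namespace Pool.Agent.Bav

open MvPolynomial Filter TensorProduct

variable {σ k ι κ μ : Type} [Field k] {I : Ideal (MvPolynomial σ k)}

theorem reD_val_τ (u : ι → κ) (hu : Function.Injective u) (o : κ → ℤ) (e : ι → ℤ) (i : ι) :
    (reD I u hu o).val e (u i) = o (u i) + e i := by
  have := (reD I u hu o).val_τ e i
  simpa [reD] using this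

theorem reD_val_of_not (u : ι → κ) (hu : Function.Injective u) (o : κ → ℤ) (e : ι → ℤ) {l : κ}
    (h : ∀ i, u i ≠ l) : (reD I u hu o).val e l = o l := (reD I u hu o).val_of_not e h

theorem reD_val (u : ι → κ) (hu : Function.Injective u) (o : κ → ℤ) (e : ι → ℤ) :
    (reD I u hu o).val e = (reD I u hu 0).val e + o := by
  simp only [PD.val, reD, zero_add, add_comm]

theorem IsPull.reD_sh {u : ι → κ} {hu : Function.Injective u} {o : κ → ℤ} {M : GM I κ}
    {N : GM I ι} {j : N.M →ₗ[k] M.M} (h : IsPull (reD I u hu o) M N j) :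
    IsPull (reD I u hu 0) (M.sh o) N j :=
  ⟨h.inj, h.smul, fun e x => (h.π e x).trans (by rw [reD_val]; rfl), fun e x => by
    have := h.surj e x
    rwa [reD_val] at this⟩

variable [Fintype σ] [Fintype ι] [Fintype κ] [Fintype μ]

theorem pl_reD (u : ι → κ) (hu : Function.Injective u) (o : κ → ℤ) (M : GM I κ) :
    pl (reD I u hu 0) (M.sh o) = pl (reD I u hu o) M := by
  obtain ⟨N, j, h⟩ := exists_isPull (reD I u hu o) M
  rw [← h.cls_eq, ← h.reD_sh.cls_eq]

/-- projection to the factors `u i` -/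
def fgt (u : ι → κ) (hu : Function.Injective u) : G I κ →ₗ[ℂ] G I ι := fgD (reD I u hu 0)

theorem fgt_spec (u : ι → κ) (hu : Function.Injective u) (M : GM I κ) :
    ∀ᶠ d in atTop, fgt u hu (shG d (cls M)) = pl (reD I u hu d) M :=
  (fgD_spec (reD I u hu 0) M).mono fun d h => h.trans (pl_reD u hu d M)

/-- only the forgotten degrees have to be large -/
theorem fgt_spec' (u : ι → κ) (hu : Function.Injective u) (M : GM I κ) : ∃ d₀ : κ → ℤ,
    ∀ d : κ → ℤ, (∀ l, (∀ i, u i ≠ l) → d₀ l ≤ d l) →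
      fgt u hu (shG d (cls M)) = pl (reD I u hu d) M := by
  obtain ⟨d₀, h⟩ := fgD_spec' (reD I u hu 0) M
  exact ⟨d₀, fun d hd => (h d hd).trans (pl_reD u hu d M)⟩

/-- a function of polynomial type that gives the large slices gives the projection -/
theorem fgt_of_isP [DecidableEq κ] (u : ι → κ) (hu : Function.Injective u) (M : GM I κ)
    {g : (κ → ℤ) → G I ι} (hg : IsP g) (e : ∀ᶠ d in atTop, g d = pl (reD I u hu d) M)
    (d : κ → ℤ) : fgt u hu (shG d (cls M)) = g d := ev_of_isP (fgt_spec u hu M) hg e d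

theorem fgt_sh (u : ι → κ) (hu : Function.Injective u) {n : κ → ℤ}
    (h : ∀ l, (∀ i, u i ≠ l) → n l = 0) (x : G I κ) :
    fgt u hu (shG n x) = shG (n ∘ u) (fgt u hu x) := by
  have : (reD I u hu 0).val (n ∘ u) - (reD I u hu 0).o = n := by
    funext l
    by_cases hl : ∃ i, u i = l
    · obtain ⟨i, rfl⟩ := hl
      rw [Pi.sub_apply, reD_val_τ]
      simp [reD]
    · push Not at hl
      rw [(reD I u hu 0).val_sub_of_not _ hl, h l hl]
  rw [fgt, ← fgD_sh, this]

theorem fgt_sh_single [DecidableEq ι] [DecidableEq κ] (u : ι → κ) (hu : Function.Injective u)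
    (i : ι) (m : ℤ) (x : G I κ) :
    fgt u hu (shG (Pi.single (u i) m) x) = shG (Pi.single i m) (fgt u hu x) := by
  rw [fgt_sh u hu fun l hl => Pi.single_eq_of_ne (hl i).symm _]
  congr 2
  funext j
  simp [Pi.single_apply, hu.eq_iff]

theorem fgt_comp (u : ι → κ) (hu : Function.Injective u) (v : μ → ι) (hv : Function.Injective v)
    (x : G I κ) : fgt v hv (fgt u hu x) = fgt (u ∘ v) (hu.comp hv) x := by
  refine fgD_comp (fun a => by rw [Ops_re_X, Ops_re_X, Ops_re_X]; rfl) (fun e => ?_) x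
  funext l
  by_cases h : ∃ i, u i = l
  · obtain ⟨i, rfl⟩ := h
    rw [reD_val_τ]
    by_cases h' : ∃ j, v j = i
    · obtain ⟨j, rfl⟩ := h'
      rw [reD_val_τ]
      exact (reD_val_τ (u ∘ v) (hu.comp hv) 0 e j).trans (by simp)
    · push Not at h'
      rw [reD_val_of_not v hv 0 e h', reD_val_of_not (u ∘ v) _ 0 e fun j hj => h' j (hu hj)]
      simp
  · push Not at h
    rw [reD_val_of_not u hu 0 _ h, reD_val_of_not (u ∘ v) _ 0 e fun j => h (v j)]

theorem fgt_equiv (e : ι ≃ κ) : fgt e.symm e.symm.injective = (reG e : G I ι →ₗ[ℂ] G I κ) :=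
  fgD_surj (Ops_re_s e)

theorem fgt_id (x : G I ι) : fgt id Function.injective_id x = x :=
  (LinearMap.congr_fun (fgt_equiv (Equiv.refl ι)) x).trans (reG_refl x)

omit [Fintype μ] in
theorem fgt_congr {u u' : ι → κ} (hu : Function.Injective u) (hu' : Function.Injective u')
    (h : u = u') : fgt u hu = (fgt u' hu' : G I κ →ₗ[ℂ] G I ι) := by subst h; rfl

theorem fgt_box {ι' κ' : Type} [Fintype ι'] [Fintype κ'] (u : ι' → ι) (hu : Function.Injective u)
    (v : κ' → κ) (hv : Function.Injective v) (x : G I ι) (y : G I κ) :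
    fgt (Sum.map u v) (hu.sumMap hv) (boxG x y) = boxG (fgt u hu x) (fgt v hv y) := by
  have h : reD I (Sum.map u v) (hu.sumMap hv) 0 = (reD I u hu 0).sum (reD I v hv 0) := by
    apply Ops_PD_ext
    · rfl
    · funext v; rcases v with ⟨i | i, j⟩ <;> rfl
    · funext i; rcases i with i | i <;> rfl
    · funext i; rcases i with i | i <;> rfl
  rw [fgt, h, fgD_sum]
  rfl

theorem exists_chi (I : Ideal (MvPolynomial σ k)) (ι : Type) [Fintype ι] :
    ∃ F : G I ι →ₗ[ℂ] ℂ, ∀ M, ∀ᶠ d in atTop, F (shG d (cls M)) = (hilb M d : ℂ) :=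
  exists_ev (fun d M => (hilb M d : ℂ))
    (fun M N P f g h => Eventually.of_forall fun d => by rw [hilb_ses h, Nat.cast_add])
    (fun M h => ((tors_iff_hilb M).1 h).mono fun d hd => by rw [hd, Nat.cast_zero])
    fun M n => Eventually.of_forall fun d => rfl

/-- the Euler characteristic: the value at zero of the Hilbert polynomial -/
def chi : G I ι →ₗ[ℂ] ℂ := (exists_chi I ι).choose

theorem chi_spec (M : GM I ι) : ∀ᶠ d in atTop, chi (shG d (cls M)) = (hilb M d : ℂ) :=
  (exists_chi I ι).choose_spec M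

theorem chi_of_isP [DecidableEq ι] (M : GM I ι) {g : (ι → ℤ) → ℂ} (hg : IsP g)
    (e : ∀ᶠ d in atTop, g d = (hilb M d : ℂ)) (d : ι → ℤ) : chi (shG d (cls M)) = g d :=
  ev_of_isP (chi_spec M) hg e d

theorem chi_fgD (D : PD I ι κ) (x : G I κ) : chi (fgD D x) = chi (shG D.o x) := by
  classical
  have : chi.comp (fgD D) = chi.comp (shG D.o) := G.ext_ev fun M => by
    obtain ⟨a, ha⟩ := eventually_atTop.1 (chi_spec M)
    filter_upwards [fgD_spec D M, eventually_ge_atTop (a - D.o)] with d h1 h2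
    obtain ⟨N, j, hN⟩ := exists_isPull D (M.sh d)
    rw [LinearMap.comp_apply, LinearMap.comp_apply, h1, ← hN.cls_eq]
    have h3 := ev_of_isP (chi_spec N) ((isP_val D (shG D.o (shG d (cls M)))).comp chi) ?_ 0
    · rwa [shG_zero_apply, D.pullA_val_zero, sub_self, shG_zero_apply] at h3
    · filter_upwards [eventually_ge_atTop (0 : ι → ℤ)] with e he
      rw [shG_shG, shG_shG, sub_add_cancel, hN.hilb_eq, hilb_sh]
      refine ha _ fun l => ?_
      have h4 : 0 ≤ D.val e l - D.o l := D.val_sub_nonneg he l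
      have h5 : a l - D.o l ≤ d l := h2 l
      change a l ≤ D.val e l + d l
      omega
  exact LinearMap.congr_fun this x

theorem chi_fgt (u : ι → κ) (hu : Function.Injective u) (x : G I κ) :
    chi (fgt u hu x) = chi x :=
  (chi_fgD _ x).trans (congrArg chi (shG_zero_apply x))

theorem chi_reG (e : ι ≃ κ) (x : G I ι) : chi (reG e x) = chi x := by
  rw [← fgt_equiv, chi_fgt]

theorem chi_box (x : G I ι) (y : G I κ) : chi (boxG x y) = chi x * chi y := by
  have : (boxG : G I ι →ₗ[ℂ] G I κ →ₗ[ℂ] G I (ι ⊕ κ)).compr₂ chi =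
      (LinearMap.mul ℂ ℂ).compl₁₂ chi chi :=
    G.ext₂_ev fun M N => by
      obtain ⟨P, j, h⟩ := exists_isBox M N
      filter_upwards [chi_spec P, ev_inl (κ := κ) (chi_spec M),
        ev_inr (ι := ι) (chi_spec N)] with d h1 h2 h3
      rw [LinearMap.compr₂_apply, LinearMap.compl₁₂_apply, h2, h3, ← shG_box, h.boxG_cls, h1,
        h.hilb_eq, Nat.cast_mul]
      rfl
  exact LinearMap.congr_fun₂ this x y

/-- projection of a product to the second factor -/
theorem fgt_inr (x : G I ι) (y : G I κ) :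
    fgt Sum.inr Sum.inr_injective (boxG x y) = chi x • y := by
  have : (boxG : G I ι →ₗ[ℂ] G I κ →ₗ[ℂ] G I (ι ⊕ κ)).compr₂ (fgt Sum.inr Sum.inr_injective) =
      (LinearMap.lsmul ℂ (G I κ)).compl₁₂ chi LinearMap.id :=
    G.ext₂ fun M N => by
      obtain ⟨P, j, h⟩ := exists_isBox M N
      obtain ⟨a, ha⟩ := fgt_spec' Sum.inr Sum.inr_injective P
      refine eq_of_ev
        (F := ((boxG : G I ι →ₗ[ℂ] G I κ →ₗ[ℂ] G I (ι ⊕ κ)).compr₂
          (fgt Sum.inr Sum.inr_injective)).flip (cls N))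
        (F' := ((LinearMap.lsmul ℂ (G I κ)).compl₁₂ chi LinearMap.id).flip (cls N)) ?_
      filter_upwards [chi_spec M, eventually_ge_atTop (a ∘ Sum.inl)] with d h1 h2
      change fgt Sum.inr Sum.inr_injective (boxG (shG d (cls M)) (cls N)) =
        chi (shG d (cls M)) • cls N
      rw [h1, ← shG_zero_apply (cls N), ← box_sh, h.boxG_cls, shG_zero_apply, ha _ ?_,
        pl_box h _ rfl (fun _ => rfl) (fun _ => rfl) fun _ => rfl]
      · rfl
      · rintro (l | l) hl
        · exact h2 l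
        · exact absurd rfl (hl l)
  exact LinearMap.congr_fun₂ this x y

theorem chi_empty [IsEmpty ι] (M : GM I ι) : chi (cls M) = (hilb M 0 : ℂ) := by
  obtain ⟨d, hd⟩ := (chi_spec M).exists
  rwa [Subsingleton.elim d 0, shG_zero_apply] at hd

end Pool.Agent.Bav
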