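import Pool.Agent.P.MP_dd457d_ag.Bav.Cyc
import Pool.Agent.P.MP_2ce3e7_ag.Tav.HBase

/-! The dimension filtration. -/

set_option autoImplicit false
set_option linter.unusedSectionVars false

noncomputable section

namespace Pool.Agent.Bav

open MvPolynomial

variable {σ k ι : Type} [Field k] {I : Ideal (MvPolynomial σ k)} [DecidableEq ι]

/-- a vector of natural numbers as a vector of integers -/
def nz (d : ι → ℕ) : ι → ℤ := fun i => d i

theorem nz_inj : Function.Injective (nz : (ι → ℕ) → ι → ℤ) := fun _ _ h =>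
  funext fun i => Nat.cast_injective (R := ℤ) (congrFun h i)

theorem weight_nz (s : ι × σ →₀ ℕ) :
    Finsupp.weight (wt (ι := ι) (σ := σ)) s = nz (Finsupp.weight (Tav.wN Prod.fst) s) := by
  induction s using Finsupp.induction_linear with
  | zero => funext i; simp [nz]
  | add s t hs ht => funext i; simp only [map_add, hs, ht, nz, Pi.add_apply, Nat.cast_add]
  | single v n =>
    funext i
    simp only [Finsupp.weight_single, nz, Pi.smul_apply, wt_apply, Tav.wN, Pi.single_apply]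
    split_ifs <;> simp

theorem hg_iff_Sd {f : S σ k ι} {d : ι → ℕ} : Hg f (nz d) ↔ f ∈ Tav.Sd k Prod.fst d :=
  ⟨fun h s hs => nz_inj ((weight_nz s).symm.trans (h hs)),
    fun h s hs => (weight_nz s).trans (congrArg nz (h hs))⟩

theorem Hg.exists_nz {f : S σ k ι} {e : ι → ℤ} (hf : Hg f e) (h0 : f ≠ 0) : ∃ d, e = nz d := by
  obtain ⟨s, hs⟩ := ne_zero_iff.1 h0
  exact ⟨_, (hf hs).symm.trans (weight_nz s)⟩

theorem cmp_nz (d : ι → ℕ) (f : S σ k ι) :
    cmp (nz d) f = weightedHomogeneousComponent (Tav.wN Prod.fst) d f := by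
  classical
  refine MvPolynomial.ext _ _ fun s => ?_
  rw [coeff_weightedHomogeneousComponent, coeff_weightedHomogeneousComponent, weight_nz]
  exact if_congr nz_inj.eq_iff rfl rfl

theorem grI_iff {J : Ideal (S σ k ι)} : GrI J ↔ Tav.GrJ Prod.fst J := by
  refine ⟨fun h d f hf => cmp_nz d f ▸ h (nz d) f hf, fun h e f hf => ?_⟩
  by_cases h0 : cmp e f = 0
  · exact h0 ▸ J.zero_mem
  · obtain ⟨d, rfl⟩ := Hg.exists_nz (weightedHomogeneousComponent_mem _ f e) h0
    exact (cmp_nz d f).symm ▸ h d f hf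

theorem sub_nz (d : ι → ℕ) : weightedHomogeneousSubmodule k (wt (ι := ι) (σ := σ)) (nz d) =
    Tav.Sd k Prod.fst d := Submodule.ext fun _ => hg_iff_Sd

variable [Finite σ] [Fintype ι] {J J' P : Ideal (S σ k ι)} {M : GM I ι} {j : ℕ}

theorem IsCyc.hilb_hI {n : ι → ℤ} {x : M.M} (h : IsCyc J n M x) {d : ι → ℤ} {e : ι → ℕ}
    (he : d + n = nz e) : hilb M d = Tav.hI Prod.fst J e := by
  have h1 := h.hilb_eq d
  rw [he, sub_nz] at h1
  have h2 := Tav.hI_add (β := Prod.fst) J e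
  omega

/-- the Hilbert polynomial of the quotient by `J` -/
abbrev pJ (J : Ideal (S σ k ι)) : MvPolynomial ι ℚ := Tav.pI Prod.fst J

/-- the zero set of `J` has dimension less than `j` -/
def DimJ (j : ℕ) (J : Ideal (S σ k ι)) : Prop := Tav.Dg (pJ J) ((j : ℤ) - 1)

theorem DimJ.mono {i : ℕ} (h : DimJ i J) (hl : i ≤ j) : DimJ j J :=
  Tav.Dg.mono h (by omega)

theorem DimJ.le (h : DimJ j J) (hJ : GrI J) (hJ' : GrI J') (hl : J ≤ J') : DimJ j J' :=
  Tav.Dg.pI_mono h (grI_iff.1 hJ) (grI_iff.1 hJ') hl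

theorem irr_of_pJ (hJ : GrI J) (h : pJ J = 0) : Irr J := fun α => by
  obtain ⟨N, hN⟩ := Tav.lg_of_pI_eq_zero (grI_iff.1 hJ) h
  exact ⟨N, hN (fun _ => N) (fun _ => le_rfl) _ (hg_iff_Sd.1 (basic_hg_mono α N))⟩

theorem DimJ.irr (h : DimJ 0 J) (hJ : GrI J) : Irr J :=
  irr_of_pJ hJ (Tav.Dg.eq_zero h (by simp))

theorem pJ_irr (h : Irr J) : pJ J = 0 := by
  cases nonempty_fintype σ
  choose N hN using h
  obtain ⟨B, hB⟩ := Finite.exists_le N
  refine Tav.pI_eq_zero ⟨Fintype.card σ * B + 1, fun d hd f hf => ?_⟩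
  refine basic_mem_of_deg (N := B) (fun α => ?_) (hg_iff_Sd.2 hf) fun i => ?_
  · obtain ⟨c, hc⟩ := Nat.exists_eq_add_of_le (hB α)
    rw [hc, pow_add]
    exact J.mul_mem_right _ (hN α)
  · have := hd i
    change _ < ((d i : ℕ) : ℤ)
    exact_mod_cast this

theorem Irr.dimJ (h : Irr J) (j : ℕ) : DimJ j J := by
  unfold DimJ
  rw [pJ_irr h]
  exact Tav.dg_zero _

/-- the dimension drops on passing to a larger graded ideal -/
theorem dim_drop (hg : GrI P) (hP : P.IsPrime) (hJ : GrI J) (h : P < J) (hd : DimJ (j + 1) P) :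
    DimJ j J := by
  obtain ⟨f, d, hf, hf1, hf2⟩ : ∃ f d, Hg f d ∧ f ∈ J ∧ f ∉ P := by
    by_contra hc
    push Not at hc
    exact h.not_ge (GrW.le_of_hom hJ hc)
  obtain ⟨e, rfl⟩ := hf.exists_nz fun h0 => hf2 (h0 ▸ P.zero_mem)
  have h1 := Tav.Dg.cut hd (grI_iff.1 hg) (hg_iff_Sd.1 hf) (Tav.lg_prime hP hf2)
  have h2 : DimJ j (P ⊔ Ideal.span {f}) := Tav.Dg.mono h1 (by omega)
  exact h2.le (grI_iff.2 ((grI_iff.1 hg).sup_span (hg_iff_Sd.1 hf))) hJ
    (sup_le h.le ((Ideal.span_singleton_le_iff_mem _).2 hf1))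

/-- graded primes of the power of the scheme -/
structure Pr (I : Ideal (MvPolynomial σ k)) (P : Ideal (S σ k ι)) : Prop where
  gr : GrI P
  prime : P.IsPrime
  le : IX I ι ≤ P

/-- the span of the classes of dimension less than `j` -/
def Fil (I : Ideal (MvPolynomial σ k)) (ι : Type) [DecidableEq ι] (j : ℕ) :
    Submodule ℂ (G I ι) :=
  Submodule.span ℂ {x | ∃ P n, Pr I P ∧ DimJ j P ∧ x = cy I P n}

/-- the span of the classes of the modules killed by `J` -/
def Sup (I : Ideal (MvPolynomial σ k)) (J : Ideal (S σ k ι)) : Submodule ℂ (G I ι) :=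
  Submodule.span ℂ {x | ∃ M : GM I ι, J ≤ M.ann ∧ x = cls M}

theorem cls_mem_sup (h : J ≤ M.ann) : cls M ∈ Sup I J := Submodule.subset_span ⟨M, h, rfl⟩

theorem cy_mem_sup (h : J ≤ J') (n : ι → ℤ) : cy I J' n ∈ Sup I J := by
  rcases cyc_cases (I := I) J' n with h0 | ⟨M, x, h1, h2⟩
  · rw [h0]; exact Submodule.zero_mem _
  · rw [h2]; exact cls_mem_sup (h1.ann_eq.symm ▸ h)

theorem Sup_anti (h : J ≤ J') : Sup I J' ≤ Sup I J :=
  Submodule.span_mono fun _ ⟨M, hM, e⟩ => ⟨M, h.trans hM, e⟩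

theorem Sup_IX : Sup I (IX I ι) = ⊤ :=
  eq_top_iff.2 (span_cls.ge.trans (Submodule.span_mono fun _ ⟨M, e⟩ => ⟨M, M.IX_le_ann, e.symm⟩))

theorem sup_le_iff {W : Submodule ℂ (G I ι)} : Sup I J ≤ W ↔ Kil W.mkQ J :=
  ⟨fun h _ hM => (Submodule.Quotient.mk_eq_zero _).2 (h (cls_mem_sup hM)),
    fun h => Submodule.span_le.2 fun _ ⟨M, hM, e⟩ =>
      e ▸ (Submodule.Quotient.mk_eq_zero _).1 (h M hM)⟩

theorem Kil.sup {V : Type*} [AddCommGroup V] [Module ℂ V] {e : G I ι →ₗ[ℂ] V} (h : Kil e J)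
    {x : G I ι} (hx : x ∈ Sup I J) : e x = 0 :=
  (Submodule.span_le (p := LinearMap.ker e)).2 (by rintro _ ⟨M, hM, rfl⟩; exact h M hM) hx

theorem sup_le_of_primes {W : Submodule ℂ (G I ι)}
    (h : ∀ P n, Pr I P → J ≤ P → cy I P n ∈ W) : Sup I J ≤ W :=
  sup_le_iff.2 (kil_of_primes fun P n a b c d =>
    (Submodule.Quotient.mk_eq_zero _).2 (h P n ⟨a, b, c⟩ d))

theorem Pr.mem_fil (h : Pr I P) (hd : DimJ j P) (n : ι → ℤ) : cy I P n ∈ Fil I ι j :=
  Submodule.subset_span ⟨P, n, h, hd, rfl⟩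

theorem sup_le_fil (hJ : GrI J) (h : DimJ j J) : Sup I J ≤ Fil I ι j :=
  sup_le_of_primes fun _ n hP hl => hP.mem_fil (h.le hJ hP.gr hl) n

theorem cy_mem_fil (hJ : GrI J) (h : DimJ j J) (n : ι → ℤ) : cy I J n ∈ Fil I ι j :=
  sup_le_fil hJ h (cy_mem_sup le_rfl n)

/-- classes supported on a proper closed subset -/
theorem Pr.sup_le_fil (h : Pr I P) (hd : DimJ (j + 1) P) (hl : P ≤ J) {f : S σ k ι} (hf : f ∈ J)
    (hf' : f ∉ P) : Sup I J ≤ Fil I ι j :=
  sup_le_of_primes fun _ n hQ hJ => hQ.mem_fil (dim_drop h.gr h.prime hQ.gr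
    (lt_of_le_of_ne (hl.trans hJ) fun e => hf' (e ▸ hJ hf)) hd) n

theorem Fil_mono {i : ℕ} (h : i ≤ j) : Fil I ι i ≤ Fil I ι j :=
  Submodule.span_mono fun _ ⟨P, n, a, b, e⟩ => ⟨P, n, a, b.mono h, e⟩

theorem Fil_zero : Fil I ι 0 = ⊥ :=
  Submodule.span_eq_bot.2 fun _ ⟨_, n, a, b, e⟩ => e ▸ cy_irr (b.irr a.gr) n

theorem Fil_top (hI : HomI I) (h : DimJ j (IX I ι)) : Fil I ι j = ⊤ :=
  eq_top_iff.2 (Sup_IX.ge.trans (sup_le_fil (grI_IX hI) h))

theorem fil_map {V : Type*} [AddCommGroup V] [Module ℂ V] {Φ : G I ι →ₗ[ℂ] V}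
    {W : Submodule ℂ V} (h : ∀ P n, Pr I P → ¬ Irr P → DimJ j P → Φ (cy I P n) ∈ W)
    {x : G I ι} (hx : x ∈ Fil I ι j) : Φ x ∈ W := by
  refine (Submodule.span_le (p := W.comap Φ)).2 ?_ hx
  rintro _ ⟨P, n, a, b, rfl⟩
  by_cases hI : Irr P
  · rw [cy_irr hI]; exact Submodule.zero_mem _
  · exact h P n a hI b

/-- shifts agree modulo the lower step of the filtration -/
theorem Pr.shift (h : Pr I P) (hd : DimJ (j + 1) P) (n n' : ι → ℤ) :
    cy I P n' - cy I P n ∈ Fil I ι j := by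
  by_cases hI : Irr P
  · rw [cy_irr hI, cy_irr hI, sub_zero]; exact Submodule.zero_mem _
  · obtain ⟨α, hα⟩ := exists_var_notMem h.prime hI
    exact (Submodule.Quotient.eq _).1 (cy_shift (e := (Fil I ι j).mkQ) h.gr h.prime h.le α hα
      (fun i => sup_le_iff.1 (h.sup_le_fil hd le_sup_left
        (Ideal.mem_sup_right (Ideal.mem_span_singleton_self _)) (hα i))) n' n)

/-- a class supported on `P` is a multiple of the class of `P` modulo the lower step -/
theorem Pr.exists_mul (h : Pr I P) (hd : DimJ (j + 1) P) (n : ι → ℤ) {x : G I ι}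
    (hx : x ∈ Sup I P) : ∃ c : ℂ, x - c • cy I P n ∈ Fil I ι j := by
  have key : Sup I P ≤ Fil I ι j ⊔ Submodule.span ℂ {cy I P n} := by
    refine sup_le_of_primes fun Q m hQ hl => ?_
    rcases hl.lt_or_eq with hlt | rfl
    · exact Submodule.mem_sup_left (hQ.mem_fil (dim_drop h.gr h.prime hQ.gr hlt hd) m)
    · rw [← sub_add_cancel (cy I P m) (cy I P n)]
      exact Submodule.add_mem_sup (h.shift hd n m) (Submodule.mem_span_singleton_self _)
  obtain ⟨y, hy, z, hz, rfl⟩ := Submodule.mem_sup.1 (key hx)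
  obtain ⟨c, rfl⟩ := Submodule.mem_span_singleton.1 hz
  exact ⟨c, by rwa [add_sub_cancel_right]⟩

/-- every class is a multiple of the fundamental class modulo lower dimension -/
theorem exists_rank (hI : HomI I) (hp : (IX I ι).IsPrime) (hd : DimJ (j + 1) (IX I ι))
    (x : G I ι) : ∃ c : ℂ, x - c • cy I (IX I ι) 0 ∈ Fil I ι j :=
  Pr.exists_mul ⟨grI_IX hI, hp, le_rfl⟩ hd 0 (Sup_IX.ge Submodule.mem_top)

/-- operators that lower the filtration by `r` steps -/
def Low (r : ℕ) (A : Module.End ℂ (G I ι)) : Prop := ∀ j, ∀ x ∈ Fil I ι (j + r), A x ∈ Fil I ι j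

section Low
variable {r s : ℕ} {A B : Module.End ℂ (G I ι)}

theorem Low.mono (h : Low r A) (hl : s ≤ r) : Low s A := fun j x hx => by
  rcases le_or_gt r (j + s) with h1 | h1
  · obtain ⟨i, hi⟩ := Nat.exists_eq_add_of_le' h1
    exact Fil_mono (by omega) (h i x (hi ▸ hx))
  · exact Fil_mono (Nat.zero_le _) (h 0 x (Fil_mono (by omega) hx))

theorem Low.mul (h : Low r A) (h' : Low s B) : Low (r + s) (A * B) := fun j x hx =>
  h j _ (h' _ x (by rwa [add_assoc]))

theorem Low.add (h : Low r A) (h' : Low r B) : Low r (A + B) := fun j x hx =>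
  Submodule.add_mem _ (h j x hx) (h' j x hx)

theorem Low.sub (h : Low r A) (h' : Low r B) : Low r (A - B) := fun j x hx =>
  Submodule.sub_mem _ (h j x hx) (h' j x hx)

theorem Low.smul (h : Low r A) (c : ℂ) : Low r (c • A) := fun j x hx =>
  Submodule.smul_mem _ c (h j x hx)

theorem low_zero (r : ℕ) : Low r (0 : Module.End ℂ (G I ι)) := fun _ _ _ => Submodule.zero_mem _

theorem low_one : Low 0 (1 : Module.End ℂ (G I ι)) := fun _ _ hx => hx

theorem Low.sum {α : Type} {T : Finset α} {A : α → Module.End ℂ (G I ι)}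
    (h : ∀ a ∈ T, Low r (A a)) : Low r (∑ a ∈ T, A a) :=
  Finset.sum_induction _ _ (fun _ _ => Low.add) (low_zero r) h

theorem Low.pow (h : Low r A) (n : ℕ) : Low (n * r) (A ^ n) := by
  induction n with
  | zero => simpa using low_one
  | succ n ih => rw [pow_succ, Nat.succ_mul]; exact ih.mul h

theorem Low.of_sub_one (h : Low 1 (A - 1)) : Low 0 A := by
  have := (h.mono zero_le_one).add low_one
  rwa [sub_add_cancel] at this

theorem Low.apply (h : Low r A) {x : G I ι} (hx : x ∈ Fil I ι r) : A x = 0 := by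
  have := h 0 x (by rwa [zero_add])
  rwa [Fil_zero, Submodule.mem_bot] at this

theorem Low.pow_sub (hA : Low 1 A) (hB : Low 1 B) (h : Low 2 (A - B)) (n : ℕ) :
    Low (n + 1) (A ^ n - B ^ n) := by
  induction n with
  | zero => simpa using low_zero 1
  | succ n ih =>
    have e : A ^ (n + 1) - B ^ (n + 1) = A * (A ^ n - B ^ n) + (A - B) * B ^ n := by
      rw [pow_succ', pow_succ', mul_sub, sub_mul]
      abel
    have h1 := hA.mul ih
    have h2 := h.mul (hB.pow n)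
    rw [e]
    exact (h1.mono (by omega)).add (h2.mono (by omega))

theorem Low.pow_eq (hA : Low 1 A) (hB : Low 1 B) (h : Low 2 (A - B)) {x : G I ι}
    (hx : x ∈ Fil I ι (j + 1)) : (A ^ j) x = (B ^ j) x :=
  sub_eq_zero.1 ((hA.pow_sub hB h j).apply hx)

theorem Low.pow_apply (hA : Low 1 A) {x : G I ι} (hx : x ∈ Fil I ι j) : (A ^ j) x = 0 :=
  (hA.pow j).apply (by rwa [mul_one])

/-- powers of a unipotent operator -/
theorem Low.unip (h : Low 1 (A - 1)) (q : ℕ) :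
    Low 1 (A ^ q - 1) ∧ Low 2 (A ^ q - 1 - (q : ℂ) • (A - 1)) := by
  induction q with
  | zero => simpa using ⟨low_zero 1, low_zero 2⟩
  | succ q ih =>
    have e1 : A ^ (q + 1) - 1 = (A ^ q - 1) * A + (A - 1) := by noncomm_ring
    have e2 : A ^ (q + 1) - 1 - ((q + 1 : ℕ) : ℂ) • (A - 1) =
        (A ^ q - 1) * (A - 1) + (A ^ q - 1 - (q : ℂ) • (A - 1)) := by
      rw [Nat.cast_succ, add_smul, one_smul, pow_succ]
      noncomm_ring
    rw [e2]
    exact ⟨e1 ▸ (ih.1.mul h.of_sub_one).add h, (ih.1.mul h).add ih.2⟩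

/-- a criterion on the generators -/
theorem low_of_primes
    (h : ∀ P n, Pr I P → ¬ Irr P → ∃ J f, P ≤ J ∧ f ∈ J ∧ f ∉ P ∧ A (cy I P n) ∈ Sup I J) :
    Low 1 A := fun _ _ hx => fil_map (fun P n a b c => by
  obtain ⟨J, f, h1, h2, h3, h4⟩ := h P n a b
  exact a.sup_le_fil c h1 h2 h3 h4) hx

theorem low_zero_of_primes (h : ∀ P n, Pr I P → ¬ Irr P → A (cy I P n) ∈ Sup I P) :
    Low 0 A := fun _ _ hx => fil_map (fun P n a b c => sup_le_fil a.gr c (h P n a b)) hx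

end Low

end Pool.Agent.Bav
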