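import Mathlib

set_option autoImplicit false

namespace Pool.Agent.Bav.Un

variable {S Γ V M : Type*} [CommRing S] [AddCommGroup Γ] [AddCommGroup V] [AddCommGroup M]
  [Module S M]

/-- the ideal of the `f` with `f • x ∈ W` -/
def cl (W : Submodule S M) (x : M) : Ideal S := W.comap (LinearMap.toSpanSingleton S M x)

theorem mem_cl {W : Submodule S M} {x : M} {f : S} : f ∈ cl W x ↔ f • x ∈ W := Iff.rfl

/-- the submodule generated by `W` and the members of a list -/
def sp : Submodule S M → List (M × Γ) → Submodule S M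
  | W, [] => W
  | W, p :: l => sp (W ⊔ Submodule.span S {p.1}) l

/-- the sum of `c` over the cyclic steps of a list -/
def val (c : Ideal S → Γ → V) : Submodule S M → List (M × Γ) → V
  | _, [] => 0
  | W, p :: l => c (cl W p.1) (-p.2) + val c (W ⊔ Submodule.span S {p.1}) l

theorem sp_eq (l : List (M × Γ)) (W : Submodule S M) :
    sp W l = W ⊔ Submodule.span S {x | ∃ p ∈ l, p.1 = x} := by
  induction l generalizing W with
  | nil => simp [sp]
  | cons p l ih =>
    rw [sp, ih, sup_assoc, ← Submodule.span_union]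
    congr 2
    ext x
    constructor
    · rintro (rfl | ⟨q, hq, rfl⟩)
      · exact ⟨p, List.mem_cons_self, rfl⟩
      · exact ⟨q, List.mem_cons_of_mem _ hq, rfl⟩
    · rintro ⟨q, hq, rfl⟩
      rcases List.mem_cons.1 hq with rfl | hq
      · exact Or.inl rfl
      · exact Or.inr ⟨q, hq, rfl⟩

theorem sp_sup (l : List (M × Γ)) (W W' : Submodule S M) : sp (W ⊔ W') l = sp W l ⊔ W' := by
  rw [sp_eq, sp_eq, sup_right_comm]

theorem mem_sp {l : List (M × Γ)} (W : Submodule S M) {p : M × Γ} (h : p ∈ l) : p.1 ∈ sp W l := by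
  rw [sp_eq]
  exact Submodule.mem_sup_right (Submodule.subset_span ⟨p, h, rfl⟩)

theorem sp_append (l l' : List (M × Γ)) (W : Submodule S M) :
    sp W (l ++ l') = sp (sp W l) l' := by
  induction l generalizing W with
  | nil => rfl
  | cons p l ih => rw [List.cons_append, sp, sp, ih]

theorem val_append (c : Ideal S → Γ → V) (l l' : List (M × Γ)) (W : Submodule S M) :
    val c W (l ++ l') = val c W l + val c (sp W l) l' := by
  induction l generalizing W with
  | nil => simp [val, sp]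
  | cons p l ih => rw [List.cons_append, val, val, sp, ih, add_assoc]

theorem val_zero (c : Ideal S → Γ → V) (l : List (M × Γ)) (W : Submodule S M)
    (h : ∀ W' : Submodule S M, W ≤ W' → ∀ p ∈ l, c (cl W' p.1) (-p.2) = 0) : val c W l = 0 := by
  induction l generalizing W with
  | nil => rfl
  | cons p l ih =>
    rw [val, h W le_rfl p List.mem_cons_self, zero_add]
    exact ih _ fun W' h1 q hq => h W' (le_sup_left.trans h1) q (List.mem_cons_of_mem _ hq)

theorem val_map {N : Type*} [AddCommGroup N] [Module S N] (c : Ideal S → Γ → V) (φ : M →ₗ[S] N)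
    (l : List (M × Γ)) (W : Submodule S N) :
    val c (W.comap φ) l = val c W (l.map fun p => (φ p.1, p.2)) := by
  induction l generalizing W with
  | nil => rfl
  | cons p l ih =>
    rw [List.map_cons, val, val, ← ih]
    have h1 : cl (W.comap φ) p.1 = cl W (φ p.1) := by
      ext f
      rw [mem_cl, mem_cl, Submodule.mem_comap, map_smul]
    have h2 : W.comap φ ⊔ Submodule.span S {p.1} = (W ⊔ Submodule.span S {φ p.1}).comap φ := by
      refine le_antisymm (sup_le (Submodule.comap_mono le_sup_left) ?_) fun y hy => ?_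
      · rw [Submodule.span_le, Set.singleton_subset_iff]
        exact Submodule.mem_sup_right (Submodule.mem_span_singleton_self _)
      · obtain ⟨w, hw, z, hz, e⟩ := Submodule.mem_sup.1 (Submodule.mem_comap.1 hy)
        obtain ⟨s, rfl⟩ := Submodule.mem_span_singleton.1 hz
        refine Submodule.mem_sup.2 ⟨y - s • p.1, ?_, s • p.1,
          Submodule.smul_mem _ _ (Submodule.mem_span_singleton_self _), sub_add_cancel _ _⟩
        rw [Submodule.mem_comap, map_sub, map_smul, ← e, add_sub_cancel_right]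
        exact hw
    rw [h1, h2]

/-- what is used of a grading -/
structure Sys (Hg : S → Γ → Prop) (GI : Ideal S → Prop) (Hm : M × Γ → Prop)
    (Gr : Submodule S M → Prop) : Prop where
  sup : ∀ W p, Gr W → Hm p → Gr (W ⊔ Submodule.span S {p.1})
  inf : ∀ W W', Gr W → Gr W' → Gr (W ⊓ W')
  ide : ∀ W p, Gr W → Hm p → GI (cl W p.1)
  cmp : ∀ W p z, Gr W → Hm p → Hm z → z.1 ∈ W ⊔ Submodule.span S {p.1} →
    ∃ f, Hg f (z.2 - p.2) ∧ z.1 - f • p.1 ∈ W
  gen : ∀ W, Gr W → ∃ l : List (M × Γ), (∀ p ∈ l, Hm p) ∧ sp ⊥ l = W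

/-- the recurrence -/
def Rec (Hg : S → Γ → Prop) (GI : Ideal S → Prop) (c : Ideal S → Γ → V) : Prop :=
  ∀ J f e n, GI J → Hg f e → c J n = c (cl J f) (n - e) + c (J ⊔ Ideal.span {f}) n

variable {Hg : S → Γ → Prop} {GI : Ideal S → Prop} {Hm : M × Γ → Prop}
  {Gr : Submodule S M → Prop} {c : Ideal S → Γ → V}

theorem Sys.gr_sp (h : Sys Hg GI Hm Gr) (l : List (M × Γ)) (hl : ∀ p ∈ l, Hm p)
    (W : Submodule S M) (hW : Gr W) : Gr (sp W l) := by
  induction l generalizing W with
  | nil => exact hW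
  | cons p l ih =>
    exact ih (fun q hq => hl q (List.mem_cons_of_mem _ hq)) _
      (h.sup W p hW (hl p List.mem_cons_self))

theorem val_zero' (h : Sys Hg GI Hm Gr) (c : Ideal S → Γ → V) (l : List (M × Γ))
    (hl : ∀ p ∈ l, Hm p) (W : Submodule S M) (hW : Gr W)
    (h0 : ∀ W' : Submodule S M, Gr W' → ∀ p ∈ l, c (cl W' p.1) (-p.2) = 0) : val c W l = 0 := by
  induction l generalizing W with
  | nil => rfl
  | cons p l ih =>
    rw [val, h0 W hW p List.mem_cons_self, zero_add]
    exact ih (fun q hq => hl q (List.mem_cons_of_mem _ hq)) _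
      (h.sup W p hW (hl p List.mem_cons_self))
      fun W' h1 q hq => h0 W' h1 q (List.mem_cons_of_mem _ hq)

theorem Sys.refine (h : Sys Hg GI Hm Gr) (hc : Rec Hg GI c) {p : M × Γ} (hp : Hm p)
    (l : List (M × Γ)) (W : Submodule S M) (hW : Gr W)
    (hl : ∀ z ∈ l, Hm z ∧ z.1 ∈ W ⊔ Submodule.span S {p.1}) :
    c (cl W p.1) (-p.2) = val c W l + c (cl (sp W l) p.1) (-p.2) := by
  induction l generalizing W with
  | nil => simp [val, sp]
  | cons z l ih =>
    obtain ⟨hz, hz'⟩ := hl z List.mem_cons_self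
    obtain ⟨f, hf, hf'⟩ := h.cmp W p z hW hp hz hz'
    have h1 : cl W z.1 = cl (cl W p.1) f := by
      ext g
      rw [mem_cl, mem_cl, mem_cl, smul_eq_mul, mul_smul]
      have := W.smul_mem g hf'
      rw [smul_sub] at this
      exact ⟨fun a => by simpa using W.sub_mem a this, fun a => by simpa using W.add_mem this a⟩
    have h2 : cl (W ⊔ Submodule.span S {z.1}) p.1 = cl W p.1 ⊔ Ideal.span {f} := by
      refine le_antisymm (fun g hg => ?_) (sup_le (fun g hg => Submodule.mem_sup_left hg) ?_)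
      · obtain ⟨w, hw, y, hy, e⟩ := Submodule.mem_sup.1 (mem_cl.1 hg)
        obtain ⟨s, rfl⟩ := Submodule.mem_span_singleton.1 hy
        refine Submodule.mem_sup.2 ⟨g - s * f, ?_, s * f,
          Ideal.mul_mem_left _ _ (Ideal.mem_span_singleton_self _), sub_add_cancel _ _⟩
        rw [mem_cl, sub_smul, ← e, mul_smul, add_sub_assoc, ← smul_sub]
        exact W.add_mem hw (W.smul_mem s hf')
      · rw [Ideal.span_le, Set.singleton_subset_iff]
        refine mem_cl.2 (Submodule.mem_sup.2 ⟨-(z.1 - f • p.1), W.neg_mem hf', z.1,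
          Submodule.mem_span_singleton_self _, by abel⟩)
    rw [val, sp, add_assoc, ← ih _ (h.sup W z hW hz) fun y hy =>
      ⟨(hl y (List.mem_cons_of_mem _ hy)).1,
        (sup_le_sup_right le_sup_left _ : W ⊔ _ ≤ W ⊔ _ ⊔ _) (hl y (List.mem_cons_of_mem _ hy)).2⟩,
      h1, h2, hc _ f _ (-p.2) (h.ide W p hW hp) hf]
    congr 2
    abel

theorem Sys.swap (h : Sys Hg GI Hm Gr) (hc : Rec Hg GI c) {p q : M × Γ} (hp : Hm p) (hq : Hm q)
    (W : Submodule S M) (hW : Gr W) :
    c (cl W p.1) (-p.2) + c (cl (W ⊔ Submodule.span S {p.1}) q.1) (-q.2) =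
      c (cl W q.1) (-q.2) + c (cl (W ⊔ Submodule.span S {q.1}) p.1) (-p.2) := by
  obtain ⟨l, hl, e⟩ := h.gen _ (h.inf _ _ (h.sup W p hW hp) (h.sup W q hW hq))
  have e' : sp W l = (W ⊔ Submodule.span S {p.1}) ⊓ (W ⊔ Submodule.span S {q.1}) := by
    rw [← bot_sup_eq W, sp_sup, e, bot_sup_eq]
    exact sup_eq_left.2 (le_inf le_sup_left le_sup_left)
  have m : ∀ z ∈ l, z.1 ∈ (W ⊔ Submodule.span S {p.1}) ⊓ (W ⊔ Submodule.span S {q.1}) :=
    fun z hz => e ▸ mem_sp ⊥ hz
  have s : ∀ (x : M) (f : S), f • x ∈ W ⊔ Submodule.span S {x} := fun x f =>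
    Submodule.mem_sup_right (Submodule.smul_mem _ _ (Submodule.mem_span_singleton_self _))
  have h1 : cl (sp W l) p.1 = cl (W ⊔ Submodule.span S {q.1}) p.1 := by
    ext f
    rw [e', mem_cl, mem_cl]
    exact ⟨fun a => a.2, fun a => ⟨s _ _, a⟩⟩
  have h2 : cl (sp W l) q.1 = cl (W ⊔ Submodule.span S {p.1}) q.1 := by
    ext f
    rw [e', mem_cl, mem_cl]
    exact ⟨fun a => a.1, fun a => ⟨a, s _ _⟩⟩
  rw [h.refine hc hp l W hW fun z hz => ⟨hl z hz, (m z hz).1⟩,
    h.refine hc hq l W hW fun z hz => ⟨hl z hz, (m z hz).2⟩, h1, h2]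
  abel

theorem Sys.move (h : Sys Hg GI Hm Gr) (hc : Rec Hg GI c) {p : M × Γ} (hp : Hm p)
    (l : List (M × Γ)) (hl : ∀ z ∈ l, Hm z) (W : Submodule S M) (hW : Gr W) :
    val c W (p :: l) = val c W l + c (cl (sp W l) p.1) (-p.2) := by
  induction l generalizing W with
  | nil => simp [val, sp]
  | cons q l ih =>
    have hq := hl q List.mem_cons_self
    have := ih (fun z hz => hl z (List.mem_cons_of_mem _ hz)) _ (h.sup W q hW hq)
    rw [val] at this
    rw [val, val, ← add_assoc, h.swap hc hp hq W hW, val, sp, add_assoc, add_assoc, ← this,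
      sup_right_comm]

theorem Sys.comm (h : Sys Hg GI Hm Gr) (hc : Rec Hg GI c) (l l' : List (M × Γ))
    (hl : ∀ z ∈ l, Hm z) (hl' : ∀ z ∈ l', Hm z) (W : Submodule S M) (hW : Gr W) :
    val c W (l ++ l') = val c W l' + val c (sp W l') l := by
  induction l generalizing W with
  | nil => simp [val]
  | cons p l ih =>
    have hp := hl p List.mem_cons_self
    have := h.move hc hp l' hl' W hW
    rw [val] at this
    rw [List.cons_append, val, ih (fun z hz => hl z (List.mem_cons_of_mem _ hz)) _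
      (h.sup W p hW hp), ← add_assoc, this, val, sp_sup, add_assoc]

/-- the sum depends only on the submodule generated by the list -/
theorem Sys.indep (h : Sys Hg GI Hm Gr) (hc : Rec Hg GI c) (h0 : ∀ n, c ⊤ n = 0)
    (l l' : List (M × Γ)) (hl : ∀ z ∈ l, Hm z) (hl' : ∀ z ∈ l', Hm z) (W : Submodule S M)
    (hW : Gr W) (e : sp W l = sp W l') : val c W l = val c W l' := by
  have z : ∀ (W₀ : Submodule S M) (u : List (M × Γ)), (∀ p ∈ u, p.1 ∈ W₀) → val c W₀ u = 0 :=
    fun W₀ u hu => val_zero c u W₀ fun W' h1 p hp => by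
      rw [show cl W' p.1 = ⊤ from eq_top_iff.2 fun f _ => W'.smul_mem f (h1 (hu p hp)), h0]
  have h1 := h.comm hc l l' hl hl' W hW
  rw [val_append, z (sp W l) l' fun p hp => e ▸ mem_sp W hp,
    z (sp W l') l fun p hp => e ▸ mem_sp W hp] at h1
  simpa using h1

end Pool.Agent.Bav.Un
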