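import Pool.Agent.P.MP_dd457d_ag.Bav.Cyc
import Pool.Agent.P.MP_dd457d_ag.Bav.UnivA

/-! A function on graded ideals with the recurrence of cyclic modules extends to the
Grothendieck group. -/

set_option autoImplicit false

noncomputable section

namespace Pool.Agent.Bav

open MvPolynomial

variable {σ k ι : Type} [Field k] {I : Ideal (MvPolynomial σ k)} [Finite σ] [Fintype ι]

theorem univ_sys (M : GM I ι) : Un.Sys (fun f e => Hg f e) (fun J => GrI J ∧ IX I ι ≤ J)
    (fun p : M.M × (ι → ℤ) => M.π p.2 p.1 = p.1) (Gr M) where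
  sup W p hW hp := hW.sup (gr_span M fun x hx => ⟨p.2, by rw [Set.mem_singleton_iff.1 hx, hp]⟩)
  inf W W' h h' d x hx := ⟨h d x hx.1, h' d x hx.2⟩
  ide W p hW hp := by
    refine ⟨fun d f hf => Un.mem_cl.2 ?_, IX_le fun i f hf => Un.mem_cl.2 ?_⟩
    · have := hW (d + p.2) _ (Un.mem_cl.1 hf)
      rwa [M.π_smul_hom hp] at this
    · rw [show (blk i f : S σ k ι) • p.1 = 0 from M.kil i f hf p.1]
      exact W.zero_mem
  cmp W p z hW hp hz h := by
    obtain ⟨w, hw, y, hy, e⟩ := Submodule.mem_sup.1 h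
    obtain ⟨f, rfl⟩ := Submodule.mem_span_singleton.1 hy
    refine ⟨cmp (z.2 - p.2) f, weightedHomogeneousComponent_isWeightedHomogeneous _ _, ?_⟩
    have h1 := M.π_smul_hom hp f (z.2 - p.2)
    rw [sub_add_cancel] at h1
    have h2 := congrArg (M.π z.2) e
    rw [map_add, hz, h1] at h2
    rw [← h2, add_sub_cancel_right]
    exact hW _ _ hw
  gen W hW := by
    obtain ⟨n, x, d, hx, hs⟩ := (M.sub W hW).exists_gens
    refine ⟨List.ofFn fun i => ((x i).1, d i), fun p hp => ?_, ?_⟩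
    · obtain ⟨i, rfl⟩ := List.mem_ofFn.1 hp
      exact congrArg Subtype.val (hx i)
    · have h := congrArg (Submodule.map (M.subι W hW).f) hs
      rw [Submodule.map_span, Submodule.map_top] at h
      rw [Un.sp_eq, bot_sup_eq]
      refine Eq.trans ?_ (h.trans W.range_subtype)
      congr 1
      ext y
      constructor
      · rintro ⟨p, hp, rfl⟩
        obtain ⟨i, rfl⟩ := List.mem_ofFn.1 hp
        exact ⟨x i, ⟨i, rfl⟩, rfl⟩
      · rintro ⟨_, ⟨i, rfl⟩, rfl⟩
        exact ⟨_, List.mem_ofFn.2 ⟨i, rfl⟩, rfl⟩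

omit [Finite σ] [Fintype ι] in
theorem univ_cl (J : Ideal (S σ k ι)) (f : S σ k ι) : Un.cl J f = J.colon {f} := by
  ext g
  rw [Un.mem_cl, Submodule.mem_colon_singleton]

/-- additive extension to all modules, values in any abelian group -/
theorem exists_univ_add {V : Type*} [AddCommGroup V] (c : Ideal (S σ k ι) → (ι → ℤ) → V)
    (hr : ∀ J f e n, GrI J → IX I ι ≤ J → Hg f e →
      c J n = c (J.colon {f}) (n - e) + c (J ⊔ Ideal.span {f}) n)
    (hi : ∀ J n, GrI J → IX I ι ≤ J → Irr J → c J n = 0) :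
    ∃ l : GM I ι → V,
      (∀ (M N P : GM I ι) (f : Hom M N) (g : Hom N P), SES f g → l N = l M + l P) ∧
      (∀ M, Tors M → l M = 0) ∧ ∀ J n M x, IsCyc J n M x → l M = c J n := by
  have hc : Un.Rec (fun f e => Hg f e) (fun J => GrI J ∧ IX I ι ≤ J) c :=
    fun J f e n hJ hf => by rw [univ_cl]; exact hr J f e n hJ.1 hJ.2 hf
  have h0 : ∀ n, c ⊤ n = 0 := fun n =>
    hi ⊤ n (fun _ _ _ => trivial) le_top fun _ => ⟨0, trivial⟩
  have gb : ∀ M : GM I ι, Gr M ⊥ := fun M d x hx => by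
    rw [(Submodule.mem_bot _).1 hx, map_zero]
    exact Submodule.zero_mem _
  choose L hL eL using fun M : GM I ι => (univ_sys M).gen ⊤ fun _ _ _ => trivial
  have key : ∀ (M : GM I ι) (l : List (M.M × (ι → ℤ))), (∀ p ∈ l, M.π p.2 p.1 = p.1) →
      Un.sp (⊥ : Submodule (S σ k ι) M.M) l = ⊤ → Un.val c ⊥ (L M) = Un.val c ⊥ l :=
    fun M l hl e => (univ_sys M).indep hc h0 _ _ (hL M) hl ⊥ (gb M) ((eL M).trans e.symm)
  refine ⟨fun M => Un.val c ⊥ (L M), fun M N P f g h => ?_, fun M hM => ?_, fun J n M x h => ?_⟩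
  · obtain ⟨h1, h2, h3⟩ := h
    have lift : ∀ p : P.M × (ι → ℤ), ∃ y : N.M, P.π p.2 p.1 = p.1 →
        N.π p.2 y = y ∧ g.f y = p.1 := fun p => by
      obtain ⟨y, hy⟩ := h2 p.1
      exact ⟨N.π p.2 y, fun hp => ⟨N.π_self _ _, by rw [g.π, hy, hp]⟩⟩
    choose s hs using lift
    have e1 : Un.sp (⊥ : Submodule (S σ k ι) N.M) ((L M).map fun p => (f.f p.1, p.2)) =
        (⊥ : Submodule (S σ k ι) P.M).comap g.f := by
      have h := congrArg (Submodule.map f.f) (eL M)
      rw [Un.sp_eq, bot_sup_eq, Submodule.map_span, Submodule.map_top] at h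
      rw [Submodule.comap_bot, h3.linearMap_ker_eq, ← h, Un.sp_eq, bot_sup_eq]
      congr 1
      ext y
      constructor
      · rintro ⟨p, hp, rfl⟩
        obtain ⟨q, hq, rfl⟩ := List.mem_map.1 hp
        exact ⟨q.1, ⟨q, hq, rfl⟩, rfl⟩
      · rintro ⟨_, ⟨q, hq, rfl⟩, rfl⟩
        exact ⟨_, List.mem_map.2 ⟨q, hq, rfl⟩, rfl⟩
    have e2 : ((L P).map fun p => (s p, p.2)).map (fun p => (g.f p.1, p.2)) = L P := by
      rw [List.map_map]
      refine (List.map_congr_left fun p hp => ?_).trans (List.map_id _)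
      exact Prod.ext (hs p (hL P p hp)).2 rfl
    have e3 : Un.sp ((⊥ : Submodule (S σ k ι) P.M).comap g.f) ((L P).map fun p => (s p, p.2)) =
        ⊤ := by
      refine eq_top_iff.2 fun y _ => ?_
      have h : g.f y ∈ (Un.sp ((⊥ : Submodule (S σ k ι) P.M).comap g.f)
          ((L P).map fun p => (s p, p.2))).map g.f := by
        have h : g.f y ∈ Un.sp (⊥ : Submodule (S σ k ι) P.M) (L P) := eL P ▸ trivial
        rw [Un.sp_eq, bot_sup_eq] at h
        refine Submodule.span_le.2 ?_ h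
        rintro _ ⟨p, hp, rfl⟩
        exact ⟨s p, Un.mem_sp _ (List.mem_map.2 ⟨p, hp, rfl⟩), (hs p (hL P p hp)).2⟩
      obtain ⟨z, hz, e⟩ := h
      rw [← sub_add_cancel y z]
      refine Submodule.add_mem _ ?_ hz
      rw [Un.sp_eq]
      exact Submodule.mem_sup_left (by simp [e])
    change Un.val c ⊥ (L N) = Un.val c ⊥ (L M) + Un.val c ⊥ (L P)
    rw [key N (((L M).map fun p => (f.f p.1, p.2)) ++ (L P).map fun p => (s p, p.2)) ?_ ?_,
      Un.val_append, e1, Un.val_map c g.f, e2, ← Un.val_map c f.f, Submodule.comap_bot,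
      LinearMap.ker_eq_bot.2 h1]
    · intro p hp
      rcases List.mem_append.1 hp with hp | hp
      · obtain ⟨q, hq, rfl⟩ := List.mem_map.1 hp
        exact (f.π _ _).symm.trans (congrArg f.f (hL M q hq))
      · obtain ⟨q, hq, rfl⟩ := List.mem_map.1 hp
        exact (hs q (hL P q hq)).1
    · rw [Un.sp_append, e1, e3]
  · refine Un.val_zero' (univ_sys M) c _ (hL M) _ (gb M) fun W hW p hp => ?_
    have := (univ_sys M).ide W p hW (hL M p hp)
    exact hi _ _ this.1 this.2 (((tors_iff_irr M).1 hM).mono fun f hf => Un.mem_cl.2 (by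
      rw [GM.mem_ann.1 hf]
      exact W.zero_mem))
  · change Un.val c ⊥ (L M) = _
    rw [key M [(x, -n)] (by simpa using h.deg) ?_]
    · rw [Un.val, Un.val, add_zero, neg_neg]
      congr 1
      ext f
      rw [Un.mem_cl, Submodule.mem_bot, h.ann]
    · refine eq_top_iff.2 fun y _ => ?_
      obtain ⟨f, rfl⟩ := h.gen y
      exact Submodule.smul_mem _ _ (Un.mem_sp (p := (x, -n)) _ List.mem_cons_self)

/-- the universal property of the classes of cyclic modules -/
theorem exists_univ {V : Type*} [AddCommGroup V] [Module ℂ V]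
    (c : Ideal (S σ k ι) → (ι → ℤ) → V)
    (hr : ∀ J f e n, GrI J → IX I ι ≤ J → Hg f e →
      c J n = c (J.colon {f}) (n - e) + c (J ⊔ Ideal.span {f}) n)
    (hi : ∀ J n, GrI J → IX I ι ≤ J → Irr J → c J n = 0) :
    ∃ F : G I ι →ₗ[ℂ] V, ∀ J n, GrI J → IX I ι ≤ J → F (cy I J n) = c J n := by
  obtain ⟨l, h1, h2, h3⟩ := exists_univ_add c hr hi
  obtain ⟨F, hF⟩ := exists_lift l h1 h2
  refine ⟨F, fun J n hJ hI => ?_⟩
  obtain ⟨M, x, hx, e⟩ := exists_cy hJ hI n
  rw [e, hF, h3 J n M x hx]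

end Pool.Agent.Bav
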