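import Pool.Agent.P.MP_dd457d_ag.Bav.Tw
import Pool.Agent.P.MP_dd457d_ag.Bav.FgtB
import Pool.Agent.P.MP_dd457d_ag.Bav.Univ
import Pool.Agent.P.MP_dd457d_ag.Bav.FilA
import Pool.Agent.P.MP_dd457d_ag.Bav.BoxB
import Pool.Agent.P.MP_dd457d_ag.Bav.ChartC

/-! Point sets, regular maps, twists, graphs and push-forwards. -/

set_option autoImplicit false

noncomputable section

namespace Pool.Agent.Bav

open MvPolynomial

variable {σ k ι κ τ X : Type} [Field k] {I : Ideal (MvPolynomial σ k)}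

/-- the points of the reduced projective scheme with ideal `I` -/
structure Geo (I : Ideal (MvPolynomial σ k)) (X : Type) where
  p : X → σ → k
  ne : ∀ x, p x ≠ 0
  inj : ∀ x y, Tav.Par (p x) (p y) → x = y
  idl : I = Tav.idl p
  cl : ∀ z ∈ zeroLocus k I, z ≠ 0 → ∃ x, Tav.Par z (p x)

namespace Geo

variable (Γ : Geo I X)

/-- evaluation at a point of the power -/
def ev (x : ι → X) : S σ k ι →ₐ[k] k := aeval fun v => Γ.p (x v.1) v.2

/-- the graded ideal of a point set -/
def VI (T : Set (ι → X)) : Ideal (S σ k ι) := core wt (⨅ x ∈ T, RingHom.ker (Γ.ev x))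

/-- the points of an ideal -/
def ZS (J : Ideal (S σ k ι)) : Set (ι → X) := {x | ∀ f ∈ J, Γ.ev x f = 0}

/-- closed point sets -/
def Cl (T : Set (ι → X)) : Prop := Γ.ZS (Γ.VI T) ⊆ T

/-- the class of the coordinate ring of a point set -/
def cT (T : Set (ι → X)) (n : ι → ℤ) : G I ι := cy I (Γ.VI T) n

/-- classes supported on a point set -/
def Supp (T : Set (ι → X)) : Submodule ℂ (G I ι) := Sup I (Γ.VI T)

/-- regular maps to a projective space -/
structure RegF [Fintype ι] (f : (ι → X) → τ → k) : Prop where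
  ne : ∀ x, f x ≠ 0
  rg : Tav.Rg (fun i => Tav.crd fun t : ι → X => Γ.p (t i)) (Tav.crd f)

/-- regular maps between powers -/
def RegM [Fintype ι] (φ : (ι → X) → κ → X) : Prop := ∀ j, Γ.RegF fun x => Γ.p (φ x j)

/-- the forms of `D` are charts of `f` -/
def IsCh [Fintype ι] (D : TD I ι τ) (f : (ι → X) → τ → k) : Prop :=
  ∀ c x, ∃ l : k, ∀ a, Γ.ev x (D.P c a) = l * f x a

/-- the twist by the pull-back of `O(1)` along `f` -/
def twF [Finite σ] [Fintype ι] [Fintype τ] (f : (ι → X) → τ → k) : Module.End ℂ (G I ι) :=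
  Classical.epsilon fun L => ∀ D : TD I ι τ, Γ.IsCh D f → L = D.L

/-- `ψ` is a regular section of the projection along `u` -/
structure Sec [Fintype κ] (u : κ → ι) (ψ : (κ → X) → ι → X) : Prop where
  inj : Function.Injective u
  reg : Γ.RegM ψ
  sec : ∀ y j, ψ y (u j) = y j

/-- direct image along a section -/
def grs (u : κ → ι) (ψ : (κ → X) → ι → X) : G I κ →ₗ[ℂ] G I ι :=
  Classical.epsilon fun F => ∀ J n, GrI J → IX I κ ≤ J →
    F (cy I J n) = cy I (J.map (rn u) ⊔ Γ.VI (Set.range ψ)) (Function.extend u n 0)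

/-- push-forward along a regular map -/
def pushM [Fintype σ] [Fintype ι] [Fintype κ] (φ : (ι → X) → κ → X) : G I ι →ₗ[ℂ] G I κ :=
  fgt Sum.inr Sum.inr_injective ∘ₗ Γ.grs Sum.inl fun x => Sum.elim x (φ x)

end Geo

/-- product of point sets -/
def prodT (Z : Set (ι → X)) (W : Set (κ → X)) : Set (ι ⊕ κ → X) :=
  {t | t ∘ Sum.inl ∈ Z ∧ t ∘ Sum.inr ∈ W}

end Pool.Agent.Bav
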