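import Mathlib

/-! Logarithms of unipotent elements of complex algebras. -/

set_option autoImplicit false

noncomputable section

namespace Pool.Agent.Bav

open Polynomial

section Alg
variable {A : Type*} [Ring A] [Algebra ℂ A]

/-- the exponential of a nilpotent element -/
def ex (a : A) : A :=
  letI : Module ℚ A := Module.compHom A (algebraMap ℚ ℂ)
  IsNilpotent.exp a

theorem ex_eq_sum {a : A} {N : ℕ} (h : a ^ N = 0) :
    ex a = ∑ i ∈ Finset.range N, (i.factorial : ℂ)⁻¹ • a ^ i := by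
  letI : Module ℚ A := Module.compHom A (algebraMap ℚ ℂ)
  refine (IsNilpotent.exp_eq_sum h).trans (Finset.sum_congr rfl fun i _ => ?_)
  change (algebraMap ℚ ℂ (i.factorial : ℚ)⁻¹) • a ^ i = _
  simp

theorem ex_add {a b : A} (h : Commute a b) (ha : IsNilpotent a) (hb : IsNilpotent b) :
    ex (a + b) = ex a * ex b := by
  letI : Module ℚ A := Module.compHom A (algebraMap ℚ ℂ)
  exact IsNilpotent.exp_add_of_commute h ha hb

theorem ex_zero : ex (0 : A) = 1 := by
  rw [ex_eq_sum (N := 1) (pow_one 0)]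
  simp

theorem ex_nsmul {a : A} (ha : IsNilpotent a) (n : ℕ) : ex (n • a) = ex a ^ n := by
  induction n with
  | zero => rw [zero_smul, pow_zero, ex_zero]
  | succ n ih =>
    rw [succ_nsmul, ex_add ((Commute.refl a).smul_left n) (ha.smul n) ha, ih, pow_succ]

theorem ex_eq_poly {a : A} (ha : IsNilpotent a) :
    ∃ p : ℂ[X], ex a = 1 + a + a ^ 2 * aeval a p := by
  obtain ⟨N, hN⟩ := ha
  have h2 : a ^ (2 + N) = 0 := by rw [pow_add, hN, mul_zero]
  refine ⟨∑ i ∈ Finset.range N, ((2 + i).factorial : ℂ)⁻¹ • X ^ i, ?_⟩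
  rw [ex_eq_sum h2, Finset.sum_range_add, map_sum, Finset.mul_sum]
  congr 1
  · simp [Finset.sum_range_succ]
  · refine Finset.sum_congr rfl fun i _ => ?_
    rw [map_smul, aeval_X_pow, mul_smul_comm, pow_add]

theorem comm_aeval {a b : A} (h : Commute b a) (p : ℂ[X]) : Commute b (aeval a p) := by
  induction p using Polynomial.induction_on' with
  | add p q hp hq => rw [map_add]; exact hp.add_right hq
  | monomial n c =>
    rw [aeval_monomial]
    exact Commute.mul_right (Algebra.commutes c b).symm (h.pow_right n)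

theorem ex_inj {a b : A} (h : Commute a b) (ha : IsNilpotent a) (hb : IsNilpotent b)
    (e : ex a = ex b) : a = b := by
  have hd : IsNilpotent (a - b) := h.isNilpotent_sub ha hb
  have h1 : ex (a - b) = 1 := by
    rw [sub_eq_add_neg, ex_add h.neg_right ha hb.neg, e, ← ex_add (Commute.refl b).neg_right hb hb.neg,
      add_neg_cancel, ex_zero]
  obtain ⟨p, hp⟩ := ex_eq_poly hd
  have h2 : (a - b) * (1 + (a - b) * aeval (a - b) p) = 0 := by
    rw [h1, add_assoc, left_eq_add] at hp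
    rw [← hp, mul_add, mul_one, ← mul_assoc, pow_two]
  have h3 : IsUnit (1 + (a - b) * aeval (a - b) p) :=
    ((comm_aeval (Commute.refl _) p).isNilpotent_mul_right hd).isUnit_one_add
  exact sub_eq_zero.1 (h3.mul_left_eq_zero.1 h2)

theorem log_comm_case {R : Type*} [CommRing R] [Algebra ℂ R] {c : R} (hc : IsNilpotent c) (j : ℕ) :
    ∃ r s : R, ex (c + c ^ 2 * r) = 1 + c + c ^ (j + 2) * s := by
  have hn : ∀ x : R, IsNilpotent (c * x) := fun x => (Commute.all _ _).isNilpotent_mul_right hc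
  induction j with
  | zero =>
    obtain ⟨p, hp⟩ := ex_eq_poly hc
    exact ⟨0, aeval c p, by rw [mul_zero, add_zero, hp]⟩
  | succ j ih =>
    obtain ⟨r, s, h⟩ := ih
    have h1 : IsNilpotent (c + c ^ 2 * r) := by
      rw [show c + c ^ 2 * r = c * (1 + c * r) by ring]; exact hn _
    have h2 : IsNilpotent (-(c ^ (j + 2) * s)) := by
      rw [show -(c ^ (j + 2) * s) = c * (-(c ^ (j + 1) * s)) by ring]; exact hn _
    obtain ⟨p, hp⟩ := ex_eq_poly h2
    obtain ⟨u, hu⟩ : ∃ u, u = aeval (-(c ^ (j + 2) * s)) p := ⟨_, rfl⟩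
    refine ⟨r - c ^ j * s, -s - c ^ (j + 1) * s ^ 2 +
      (1 + c + c ^ (j + 2) * s) * c ^ (j + 1) * s ^ 2 * u, ?_⟩
    rw [show c + c ^ 2 * (r - c ^ j * s) = c + c ^ 2 * r + -(c ^ (j + 2) * s) by ring,
      ex_add (Commute.all _ _) h1 h2, h, hp, ← hu]
    ring

/-- a universal polynomial for the logarithm -/
def LogP (N : ℕ) (p : ℂ[X]) : Prop :=
  X ^ N ∣ (∑ i ∈ Finset.range N, (i.factorial : ℂ)⁻¹ • (X + X ^ 2 * p) ^ i) - (1 + X)

theorem exists_logP (N : ℕ) : ∃ p : ℂ[X], LogP N p := by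
  let J : Ideal ℂ[X] := Ideal.span {X ^ N}
  have hN : (Ideal.Quotient.mk J X) ^ N = 0 := by
    rw [← map_pow]; exact Ideal.Quotient.eq_zero_iff_mem.2 (Ideal.subset_span rfl)
  obtain ⟨r, s, h⟩ := log_comm_case (c := Ideal.Quotient.mk J X) ⟨N, hN⟩ N
  obtain ⟨p, rfl⟩ := Ideal.Quotient.mk_surjective r
  have h0 : (Ideal.Quotient.mk J X + Ideal.Quotient.mk J X ^ 2 * Ideal.Quotient.mk J p) ^ N = 0 := by
    rw [show Ideal.Quotient.mk J X + Ideal.Quotient.mk J X ^ 2 * Ideal.Quotient.mk J p =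
      Ideal.Quotient.mk J X * (1 + Ideal.Quotient.mk J X * Ideal.Quotient.mk J p) by ring, mul_pow,
      hN, zero_mul]
  rw [ex_eq_sum h0, pow_add, hN, zero_mul, zero_mul, add_zero] at h
  have h1 : (∑ i ∈ Finset.range N, (i.factorial : ℂ)⁻¹ • (X + X ^ 2 * p) ^ i) - (1 + X) ∈ J := by
    rw [← Ideal.Quotient.eq_zero_iff_mem, map_sub, sub_eq_zero, map_add, map_one, ← h, map_sum]
    refine Finset.sum_congr rfl fun i _ => ?_
    rw [← Ideal.Quotient.mkₐ_eq_mk ℂ, map_smul, map_pow, map_add, map_mul, map_pow]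
  exact ⟨p, Ideal.mem_span_singleton.1 h1⟩

theorem LogP.ex {N : ℕ} {p : ℂ[X]} (h : LogP N p) {a : A} (ha : a ^ N = 0) :
    ex (a + a ^ 2 * aeval a p) = 1 + a := by
  obtain ⟨w, hw⟩ := h
  have e : a + a ^ 2 * aeval a p = aeval a (X + X ^ 2 * p) := by simp
  have h2 : (a + a ^ 2 * aeval a p) ^ N = 0 := by
    rw [e, ← map_pow, show (X + X ^ 2 * p : ℂ[X]) = X * (1 + X * p) by ring, mul_pow, map_mul,
      aeval_X_pow, ha, zero_mul]
  have h3 := congrArg (aeval a) hw
  rw [map_mul, aeval_X_pow, ha, zero_mul, map_sub, sub_eq_zero, map_sum] at h3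
  rw [ex_eq_sum h2, e]
  simpa only [map_smul, map_pow, map_add, map_one, aeval_X] using h3

/-- unipotent elements -/
def Unip (t : A) : Prop := IsNilpotent (t - 1)

/-- the logarithm of a unipotent element -/
def lg (t : A) : A := Classical.epsilon fun l => IsNilpotent l ∧ ex l = t

theorem nil_poly {a : A} (ha : IsNilpotent a) (p : ℂ[X]) : IsNilpotent (a + a ^ 2 * aeval a p) := by
  rw [show a + a ^ 2 * aeval a p = a * (1 + a * aeval a p) by
    rw [mul_add, mul_one, ← mul_assoc, pow_two]]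
  exact ((Commute.one_right a).add_right ((Commute.refl a).mul_right
    (comm_aeval (Commute.refl a) p))).isNilpotent_mul_right ha

theorem Unip.spec {t : A} (h : Unip t) : IsNilpotent (lg t) ∧ ex (lg t) = t := by
  obtain ⟨N, hN⟩ := id h
  obtain ⟨p, hp⟩ := exists_logP N
  exact Classical.epsilon_spec (p := fun l => IsNilpotent l ∧ ex l = t)
    ⟨_, nil_poly h p, by rw [hp.ex hN, add_sub_cancel]⟩

theorem Unip.lg_nil {t : A} (h : Unip t) : IsNilpotent (lg t) := h.spec.1

theorem Unip.ex_lg {t : A} (h : Unip t) : ex (lg t) = t := h.spec.2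

theorem comm_ex {a b : A} (ha : IsNilpotent a) (h : Commute b a) : Commute b (ex a) := by
  obtain ⟨p, hp⟩ := ex_eq_poly ha
  rw [hp]
  exact ((Commute.one_right b).add_right h).add_right ((h.pow_right 2).mul_right (comm_aeval h p))

theorem unip_ex {a : A} (ha : IsNilpotent a) : Unip (ex a) := by
  obtain ⟨p, hp⟩ := ex_eq_poly ha
  rw [Unip, hp, add_assoc, add_sub_cancel_left]
  exact nil_poly ha p

theorem lg_eq_poly {t : A} {N : ℕ} {p : ℂ[X]} (hN : (t - 1) ^ N = 0)
    (hp : ex ((t - 1) + (t - 1) ^ 2 * aeval (t - 1) p) = 1 + (t - 1)) :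
    lg t = (t - 1) + (t - 1) ^ 2 * aeval (t - 1) p := by
  have h : Unip t := ⟨N, hN⟩
  have c : Commute (lg t) (t - 1) := by
    refine Commute.sub_right ?_ (Commute.one_right _)
    have := comm_ex h.lg_nil (Commute.refl _)
    rwa [h.ex_lg] at this
  refine ex_inj (c.add_right ((c.pow_right 2).mul_right (comm_aeval c p))) h.lg_nil
    (nil_poly h p) ?_
  rw [hp, h.ex_lg, add_sub_cancel]

/-- the logarithm is a polynomial in `t - 1` that begins with `t - 1` -/
theorem Unip.lg_poly {t : A} (h : Unip t) :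
    ∃ p : ℂ[X], lg t = (t - 1) + (t - 1) ^ 2 * aeval (t - 1) p := by
  obtain ⟨N, hN⟩ := h
  obtain ⟨p, hp⟩ := exists_logP N
  exact ⟨p, lg_eq_poly hN (hp.ex hN)⟩

theorem Unip.comm_lg {t b : A} (h : Unip t) (c : Commute b t) : Commute b (lg t) := by
  obtain ⟨p, hp⟩ := h.lg_poly
  have c1 : Commute b (t - 1) := c.sub_right (Commute.one_right b)
  rw [hp]
  exact c1.add_right ((c1.pow_right 2).mul_right (comm_aeval c1 p))

theorem lg_comm {s t : A} (hs : Unip s) (ht : Unip t) (c : Commute s t) : Commute (lg s) (lg t) :=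
  ht.comm_lg (hs.comm_lg c.symm).symm

theorem lg_ex {a : A} (ha : IsNilpotent a) : lg (ex a) = a :=
  ex_inj ((unip_ex ha).comm_lg (comm_ex ha (Commute.refl a))).symm (unip_ex ha).lg_nil ha
    (unip_ex ha).ex_lg

theorem unip_one : Unip (1 : A) := by
  rw [Unip, sub_self]; exact IsNilpotent.zero

theorem lg_one : lg (1 : A) = 0 := by
  rw [← ex_zero, lg_ex IsNilpotent.zero]

theorem Unip.mul {s t : A} (hs : Unip s) (ht : Unip t) (c : Commute s t) : Unip (s * t) := by
  rw [← hs.ex_lg, ← ht.ex_lg, ← ex_add (lg_comm hs ht c) hs.lg_nil ht.lg_nil]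
  exact unip_ex ((lg_comm hs ht c).isNilpotent_add hs.lg_nil ht.lg_nil)

theorem lg_mul {s t : A} (hs : Unip s) (ht : Unip t) (c : Commute s t) :
    lg (s * t) = lg s + lg t := by
  rw [← lg_ex ((lg_comm hs ht c).isNilpotent_add hs.lg_nil ht.lg_nil),
    ex_add (lg_comm hs ht c) hs.lg_nil ht.lg_nil, hs.ex_lg, ht.ex_lg]

theorem Unip.pow {t : A} (h : Unip t) (n : ℕ) : Unip (t ^ n) := by
  rw [← h.ex_lg, ← ex_nsmul h.lg_nil]
  exact unip_ex (h.lg_nil.smul n)

theorem lg_pow {t : A} (h : Unip t) (n : ℕ) : lg (t ^ n) = n • lg t := by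
  rw [← lg_ex (h.lg_nil.smul n), ex_nsmul h.lg_nil, h.ex_lg]

theorem Unip.isUnit {t : A} (h : Unip t) : IsUnit t := by
  have := IsNilpotent.isUnit_add_one h
  rwa [sub_add_cancel] at this

theorem Unip.inv {s t : A} (h : Unip t) (e : s * t = 1) : Unip s ∧ lg s = -lg t := by
  have e1 : ex (-lg t) * t = 1 := by
    nth_rewrite 2 [← h.ex_lg]
    rw [← ex_add (Commute.refl _).neg_left h.lg_nil.neg h.lg_nil, neg_add_cancel, ex_zero]
  have e2 : s = ex (-lg t) := h.isUnit.mul_right_cancel (e.trans e1.symm)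
  rw [e2]
  exact ⟨unip_ex h.lg_nil.neg, lg_ex h.lg_nil.neg⟩

theorem lg_inj {s t : A} (hs : Unip s) (ht : Unip t) (e : lg s = lg t) : s = t := by
  rw [← hs.ex_lg, ← ht.ex_lg, e]

/-- the nilpotency order is kept -/
theorem lg_pow_eq_zero {t : A} {N : ℕ} (hN : (t - 1) ^ N = 0) : lg t ^ N = 0 := by
  obtain ⟨p, hp⟩ := Unip.lg_poly (t := t) ⟨N, hN⟩
  rw [hp, show (t - 1) + (t - 1) ^ 2 * aeval (t - 1) p = (t - 1) * (1 + (t - 1) * aeval (t - 1) p) by
    rw [mul_add, mul_one, ← mul_assoc, pow_two], Commute.mul_pow, hN, zero_mul]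
  exact (Commute.one_right _).add_right ((Commute.refl _).mul_right (comm_aeval (Commute.refl _) p))

theorem sub_one_pow_eq_zero {t : A} (h : Unip t) {N : ℕ} (hN : lg t ^ N = 0) : (t - 1) ^ N = 0 := by
  obtain ⟨p, hp⟩ := ex_eq_poly h.lg_nil
  rw [h.ex_lg] at hp
  have e : t - 1 = lg t * (1 + lg t * aeval (lg t) p) := by
    rw [mul_add, mul_one, ← mul_assoc, ← pow_two, sub_eq_iff_eq_add', ← add_assoc, ← hp]
  rw [e, Commute.mul_pow, hN, zero_mul]
  exact (Commute.one_right _).add_right ((Commute.refl _).mul_right (comm_aeval (Commute.refl _) p))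

/-- powers of the logarithm up to higher order terms -/
theorem Unip.lg_pow_poly {t : A} (h : Unip t) (g : ℕ) :
    ∃ p : ℂ[X], lg t ^ g = (t - 1) ^ g + aeval (t - 1) p * (t - 1) ^ (g + 1) := by
  obtain ⟨p, hp⟩ := h.lg_poly
  obtain ⟨w, hw⟩ : (X : ℂ[X]) ∣ (1 + X * p) ^ g - 1 := by
    have := sub_dvd_pow_sub_pow (1 + X * p : ℂ[X]) 1 g
    rw [add_sub_cancel_left, one_pow] at this
    exact (Dvd.intro _ rfl).trans this
  refine ⟨w, ?_⟩
  have e : lg t = aeval (t - 1) (X * (1 + X * p)) := by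
    rw [hp, show (X * (1 + X * p) : ℂ[X]) = X + X ^ 2 * p by ring]; simp
  rw [e, ← map_pow, show (X * (1 + X * p) : ℂ[X]) ^ g = X ^ g + w * X ^ (g + 1) by
    rw [mul_pow, sub_eq_iff_eq_add.1 hw]; ring]
  simp

theorem lg_pow_top {t : A} {g : ℕ} (h : (t - 1) ^ (g + 1) = 0) : lg t ^ g = (t - 1) ^ g := by
  obtain ⟨p, hp⟩ := Unip.lg_pow_poly (t := t) ⟨_, h⟩ g
  rw [hp, h, mul_zero, add_zero]

/-- the powers of a unipotent element are polynomial in the exponent -/
theorem Unip.pow_eq_sum {t : A} (h : Unip t) {N : ℕ} (hN : lg t ^ N = 0) (m : ℕ) :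
    t ^ m = ∑ i ∈ Finset.range N, ((m : ℂ) ^ i * (i.factorial : ℂ)⁻¹) • lg t ^ i := by
  have e : m • lg t = (m : ℂ) • lg t := (Nat.cast_smul_eq_nsmul ℂ m _).symm
  have h1 : (m • lg t) ^ N = 0 := by rw [e, _root_.smul_pow, hN, smul_zero]
  nth_rewrite 1 [← h.ex_lg]
  rw [← ex_nsmul h.lg_nil, ex_eq_sum h1]
  refine Finset.sum_congr rfl fun i _ => ?_
  rw [e, _root_.smul_pow, smul_smul, mul_comm]

theorem ex_smul_eq_sum {a : A} {N : ℕ} (hN : a ^ N = 0) (c : ℂ) :
    ex (c • a) = ∑ i ∈ Finset.range N, (c ^ i * (i.factorial : ℂ)⁻¹) • a ^ i := by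
  have h1 : (c • a) ^ N = 0 := by rw [_root_.smul_pow, hN, smul_zero]
  rw [ex_eq_sum h1]
  refine Finset.sum_congr rfl fun i _ => ?_
  rw [_root_.smul_pow, smul_smul, mul_comm]

end Alg

section End
variable {V W : Type*} [AddCommGroup V] [Module ℂ V] [AddCommGroup W] [Module ℂ W]

theorem aeval_inter {a : Module.End ℂ V} {b : Module.End ℂ W} {ψ : V →ₗ[ℂ] W}
    (h : ∀ x, b (ψ x) = ψ (a x)) (p : ℂ[X]) (x : V) : aeval b p (ψ x) = ψ (aeval a p x) := by
  induction p using Polynomial.induction_on generalizing x with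
  | C c => simp
  | add p q hp hq => simp [hp, hq]
  | monomial n c ih =>
    rw [pow_succ, ← mul_assoc, map_mul, map_mul (aeval a), aeval_X, aeval_X, Module.End.mul_apply,
      Module.End.mul_apply, h, ih]

/-- intertwining maps intertwine the logarithms -/
theorem lg_inter {s : Module.End ℂ V} {t : Module.End ℂ W} (hs : Unip s) (ht : Unip t)
    {ψ : V →ₗ[ℂ] W} (h : ∀ x, t (ψ x) = ψ (s x)) (x : V) : lg t (ψ x) = ψ (lg s x) := by
  obtain ⟨N, hN⟩ := hs
  obtain ⟨N', hN'⟩ := ht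
  have h1 : (s - 1) ^ (N + N') = 0 := by rw [pow_add, hN, zero_mul]
  have h2 : (t - 1) ^ (N + N') = 0 := by rw [pow_add, hN', mul_zero]
  obtain ⟨p, hp⟩ := exists_logP (N + N')
  have h3 : ∀ y, (t - 1) (ψ y) = ψ ((s - 1) y) := fun y => by
    rw [LinearMap.sub_apply, LinearMap.sub_apply, h, map_sub]; rfl
  rw [lg_eq_poly h1 (hp.ex h1), lg_eq_poly h2 (hp.ex h2)]
  simp only [LinearMap.add_apply, pow_two, Module.End.mul_apply, aeval_inter h3, h3, map_add]

theorem aeval_mem {a : Module.End ℂ V} {F : Submodule ℂ V} (h : ∀ x ∈ F, a x ∈ F) (p : ℂ[X]) :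
    ∀ x ∈ F, aeval a p x ∈ F := by
  induction p using Polynomial.induction_on with
  | C c => intro x hx; simpa using F.smul_mem c hx
  | add p q hp hq => intro x hx; simpa using F.add_mem (hp x hx) (hq x hx)
  | monomial n c ih =>
    intro x hx
    rw [pow_succ, ← mul_assoc, map_mul, aeval_X, Module.End.mul_apply]
    exact ih _ (h x hx)

/-- the logarithm lowers a filtration that `t - 1` lowers -/
theorem lg_mem {t : Module.End ℂ V} (ht : Unip t) {F F' : Submodule ℂ V} (hle : F' ≤ F)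
    (h : ∀ x ∈ F, t x - x ∈ F') : ∀ x ∈ F, lg t x ∈ F' := by
  intro x hx
  obtain ⟨p, hp⟩ := ht.lg_poly
  have h1 : ∀ y ∈ F, (t - 1) y ∈ F' := h
  rw [hp, LinearMap.add_apply, pow_two, Module.End.mul_apply, Module.End.mul_apply]
  exact F'.add_mem (h1 x hx) (h1 _ (hle (h1 _ (aeval_mem (fun y hy => hle (h1 y hy)) p x hx))))

/-- a vector fixed by `t` is killed by the logarithm -/
theorem lg_apply_of_fix {t : Module.End ℂ V} (ht : Unip t) {x : V} (h : t x = x) :
    lg t x = 0 := by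
  have := lg_mem ht (F := Submodule.span ℂ {x}) (F' := ⊥) bot_le (fun y hy => by
    obtain ⟨c, rfl⟩ := Submodule.mem_span_singleton.1 hy
    rw [map_smul, h, sub_self]; exact Submodule.zero_mem _) x (Submodule.mem_span_singleton_self x)
  simpa using this

/-- top power of the logarithm on one vector -/
theorem lg_pow_apply_top {t : Module.End ℂ V} (ht : Unip t) {g : ℕ} {x : V}
    (h : ((t - 1) ^ (g + 1)) x = 0) : (lg t ^ g) x = ((t - 1) ^ g) x := by
  obtain ⟨p, hp⟩ := ht.lg_pow_poly g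
  rw [hp, LinearMap.add_apply, Module.End.mul_apply, h, map_zero, add_zero]

end End

end Pool.Agent.Bav
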