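import Pool.Agent.P.MP_dd457d_ag.Bav.FnMod
import Pool.Agent.P.MP_dd457d_ag.Bav.KDefs
import Pool.Agent.P.MP_dd457d_ag.Bav.Log

/-! The numbers of the Grothendieck group are coefficients of Hilbert polynomials of point sets. -/

set_option autoImplicit false

noncomputable section

namespace Pool.Agent.Bav

open MvPolynomial Filter Pool.Agent.Tav

section Num
variable {ι : Type} [DecidableEq ι]

theorem dl_pow_coord (i j : ι) (n : ℕ) (g : (ι → ℤ) → ℂ) (d : ι → ℤ) :
    (dl i ^ (n + 1)) (fun x => (x j : ℂ) * g x) d = (d j : ℂ) * (dl i ^ (n + 1)) g d +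
      ((Pi.single i 1 : ι → ℤ) j : ℂ) * (n + 1) * (dl i ^ n) g (d + Pi.single i 1) := by
  induction n generalizing d with
  | zero =>
    simp only [zero_add, pow_one, dl_apply, pow_zero, Module.End.one_apply, Pi.add_apply]
    push_cast
    ring
  | succ n ih =>
    rw [dl_pow_succ, ih, ih, dl_pow_succ i (n + 1) g d, dl_pow_succ i n g (d + Pi.single i 1),
      Pi.add_apply]
    push_cast
    ring

theorem IsP.coord (j : ι) {g : (ι → ℤ) → ℂ} (h : IsP g) : IsP fun x => (x j : ℂ) * g x := by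
  obtain ⟨N, h⟩ := h
  refine ⟨N + 1, fun i => funext fun d => ?_⟩
  rw [dl_pow_coord, h i, dl_pow_mono (Nat.le_succ N) (h i)]
  simp

theorem isP_eval (P : MvPolynomial (Option ι) ℚ) (n : ℚ) :
    IsP fun d : ι → ℤ => ((eval (fun o => Option.elim o n fun i => (d i : ℚ)) P : ℚ) : ℂ) := by
  induction P using MvPolynomial.induction_on with
  | C a => simpa only [eval_C] using isP_const (ι := ι) (a : ℂ)
  | add p q hp hq =>
    refine (congrArg IsP (funext fun d => ?_)).mp (hp.add hq)
    simp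
  | mul_X p s hp =>
    rcases s with _ | j
    · have := hp.smul (n : ℂ)
      refine (congrArg IsP (funext fun d => ?_)).mp this
      simp [mul_comm]
    · refine (congrArg IsP (funext fun d => ?_)).mp (hp.coord j)
      simp [mul_comm]

omit [DecidableEq ι] in
/-- comparison of coefficients -/
theorem coeff_of_ev (P : MvPolynomial (Option ι) ℚ) {N : ℕ} (c : ℕ → ℂ) (hc : ∀ i, N ≤ i → c i = 0)
    (h : ∀ᶠ n : ℕ in atTop, ∑ i ∈ Finset.range N, (n : ℂ) ^ i * (i.factorial : ℂ)⁻¹ * c i =
      ((eval (fun o => Option.elim o (n : ℚ) fun _ => 0) P : ℚ) : ℂ)) (m : ℕ) :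
    c m = (m.factorial : ℂ) * (coeff (Finsupp.single none m) P : ℚ) := by
  classical
  let Q : Polynomial ℂ :=
    ((optionEquivLeft ℚ ι P).map (eval fun _ => (0 : ℚ))).map (algebraMap ℚ ℂ)
  let R : Polynomial ℂ :=
    ∑ i ∈ Finset.range N, Polynomial.monomial i ((i.factorial : ℂ)⁻¹ * c i)
  have e : R = Q := by
    obtain ⟨a, ha⟩ := eventually_atTop.1 h
    refine Polynomial.eq_of_infinite_eval_eq _ _ (Set.Infinite.mono ?_
      ((Set.Ici_infinite a).image (f := fun n : ℕ => (n : ℂ)) Nat.cast_injective.injOn))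
    rintro _ ⟨n, hn, rfl⟩
    have h1 := ha n hn
    rw [optionEquivLeft_elim_eval] at h1
    change R.eval (n : ℂ) = Q.eval (n : ℂ)
    rw [show (n : ℂ) = algebraMap ℚ ℂ (n : ℚ) by simp, Polynomial.eval_map_algebraMap,
      Polynomial.aeval_algebraMap_apply, Polynomial.coe_aeval_eq_eval]
    refine Eq.trans ?_ h1
    rw [Polynomial.eval_finsetSum]
    refine Finset.sum_congr rfl fun i _ => ?_
    rw [Polynomial.eval_monomial]
    simp only [eq_ratCast, Rat.cast_natCast]
    ring
  have h1 : R.coeff m = (m.factorial : ℂ)⁻¹ * c m := by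
    rw [Polynomial.finsetSum_coeff]
    simp only [Polynomial.coeff_monomial]
    rw [Finset.sum_ite_eq']
    split_ifs with hm
    · rfl
    · rw [hc m (by simpa using hm), mul_zero]
  have h2 : Q.coeff m = (coeff (Finsupp.single none m) P : ℚ) := by
    rw [Polynomial.coeff_map, Polynomial.coeff_map, ← optionEquivLeft_coeff_some_coeff_none,
      Finsupp.some_single_none, Finsupp.single_eq_same]
    exact congrArg _ (eval_zero' (σ := ι) (R := ℚ) ▸ rfl)
  rw [← h2, ← e, h1, mul_inv_cancel_left₀ (Nat.cast_ne_zero.2 m.factorial_ne_zero)]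

end Num

variable {σ k ι T A : Type} [Field k]

theorem hp_spec' {κ : Type} [Fintype κ] (L : κ → Submodule k (T → k))
    [∀ i, FiniteDimensional k (L i)] : ∀ᶠ d : κ → ℕ in atTop, eval (fun i => (d i : ℚ)) (hp L) =
      Module.finrank k (∏ i, L i ^ d i : Submodule k (T → k)) := by
  obtain ⟨P, N, hN⟩ := exists_evP_hf L
  exact Classical.epsilon_spec (p := fun P : MvPolynomial κ ℚ => ∀ᶠ d : κ → ℕ in atTop,
    eval (fun i => (d i : ℚ)) P = Module.finrank k (∏ i, L i ^ d i : Submodule k (T → k)))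
    ⟨P, eventually_atTop.2 ⟨fun _ => N, fun d hd => hN d hd⟩⟩

instance fd_crd [Finite A] (w : T → A → k) : FiniteDimensional k (crd w) :=
  FiniteDimensional.span_of_finite k (Set.finite_range _)

instance fd_pow (W : Submodule k (T → k)) [FiniteDimensional k W] (n : ℕ) :
    FiniteDimensional k (W ^ n : Submodule k (T → k)) :=
  (Submodule.fg_iff_finiteDimensional _).1
    (((Submodule.fg_iff_finiteDimensional W).2 inferInstance).pow n)

variable [Fintype ι] [Fintype σ] [Fintype A] {I : Ideal (MvPolynomial σ k)} {x : T → ι × σ → k}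

theorem pcZ_nat (d : ι → ℕ) :
    pcZ x (fun i => d i) = ∏ i, (crd fun t a => x t (i, a)) ^ d i := by
  classical
  have h1 := map_Sd (Ω := k) (β := Prod.fst) (fun (v : ι × σ) t => x t v) d
  have h2 := blk_fst (k := k) fun i t a => x t (i, a)
  have h3 : weightedHomogeneousSubmodule k (wt (ι := ι) (σ := σ)) (fun i => d i) =
      Sd k Prod.fst d :=
    Submodule.ext fun f => ⟨fun h => by simpa using Hg.mem_Sd h, hg_of_Sd⟩
  rw [pcZ, h3]
  exact h1.trans (Finset.prod_congr rfl fun i _ => congrArg (· ^ d i) (congrFun h2 i))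

omit [Fintype σ] [Fintype A] in
/-- consecutive modules of functions form a twist pair -/
theorem tw_FM (hx : OnX I x) (D : TD I ι A) {w : T → A → k}
    (hD : ∀ c t, ∃ a, ∀ l, eval (x t) (D.P c l) = a * w t l) (W : Submodule k (T → k))
    [FiniteDimensional k W] (W' : Submodule k (T → k)) [FiniteDimensional k W']
    (e : W' = crd w * W) : Nonempty (Tw D.P (FM hx W) (FM hx W')) := by
  choose lam hl using hD
  have h1 : ∀ c a, evF x (D.P c a) = lam c * fun t => w t a := fun c a =>
    funext fun t => by rw [evF_apply, hl]; rfl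
  have h2 : ∀ a, ∀ u ∈ W, (fun t => w t a) * u ∈ pcZ x 0 * W' := fun a u hu => by
    have := Submodule.mul_mem_mul (one_mem_pcZ (x := x))
      (e ▸ Submodule.mul_mem_mul (mem_crd w a) hu)
    rwa [one_mul] at this
  have h3 : ∀ c, ∀ u ∈ W', lam c * u ∈ pcZ x (D.e c) * W := fun c u hu => by
    rw [e] at hu
    refine Submodule.mul_induction_on hu (fun a ha b hb => ?_) fun a b ha hb => ?_
    · rw [← mul_assoc]
      refine Submodule.mul_mem_mul ?_ hb
      induction ha using Submodule.span_induction with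
      | mem y hy =>
        obtain ⟨l, rfl⟩ := hy
        rw [← h1]
        exact evF_mem (D.hg c l)
      | zero => rw [mul_zero]; exact Submodule.zero_mem _
      | add y z _ _ hy hz => rw [mul_add]; exact Submodule.add_mem _ hy hz
      | smul r y _ hy => rw [mul_smul_comm]; exact Submodule.smul_mem _ _ hy
    · rw [mul_add]; exact Submodule.add_mem _ ha hb
  refine ⟨⟨fun a => FM.mulHom hx _ (h2 a), fun c => FM.mul hx (D.e c) _ (h3 c),
    fun c a F => FM.ext' ?_, fun c a F => FM.ext' ?_⟩⟩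
  · change FA.sg x _ _ * (FA.sg x _ _ * _) = _
    rw [FM.val_smul, evA_hg (D.hg c a), ← mul_assoc, FA.sg_mul, add_zero, h1]
  · change FA.sg x _ _ * (FA.sg x _ _ * _) = _
    rw [FM.val_smul, evA_hg (D.hg c a), ← mul_assoc, FA.sg_mul, zero_add, h1, mul_comm (lam c)]

theorem L_pow_FM (hx : OnX I x) {J : Ideal (S σ k ι)} (hJ : GrI J)
    (hv : ∀ f d, Hg f d → (f ∈ J ↔ ∀ t, eval (x t) f = 0)) (D : TD I ι A) {w : T → A → k}
    (hD : ∀ c t, ∃ a, ∀ l, eval (x t) (D.P c l) = a * w t l) (n : ℕ) :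
    (D.L ^ n) (cy I J 0) = cls (FM hx (crd w ^ n)) := by
  induction n with
  | zero =>
    obtain ⟨y, hy⟩ := isCyc_FM hx hJ hv (pow_zero (crd w))
    rw [hy.cls_eq, pow_zero, Module.End.one_apply]
  | succ n ih =>
    obtain ⟨t⟩ := tw_FM hx D hD (crd w ^ n) (crd w ^ (n + 1)) (pow_succ' _ _)
    rw [pow_succ', Module.End.mul_apply, ih, D.L_cls t]

/-- BRIDGE: for any family of points on the power of the scheme -/
theorem bridge (hx : OnX I x) {J : Ideal (S σ k ι)} (hJ : GrI J)
    (hv : ∀ f d, Hg f d → (f ∈ J ↔ ∀ t, eval (x t) f = 0)) (D : TD I ι A) {w : T → A → k}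
    (hD : ∀ c t, ∃ a, ∀ l, eval (x t) (D.P c l) = a * w t l) {κ : Type} [Fintype κ]
    (L : κ → Submodule k (T → k)) (e : Option ι ≃ κ)
    (h1 : ∀ i, L (e (some i)) = crd fun t a => x t (i, a)) (h2 : L (e none) = crd w) (m : ℕ) :
    chi ((lg D.L ^ m) (cy I J 0)) =
      (m.factorial : ℂ) * (coeff (Finsupp.single (e none) m) (hp L) : ℚ) := by
  classical
  have fd : ∀ j, FiniteDimensional k (L j) := fun j => by
    obtain ⟨o, rfl⟩ := e.surjective j
    rcases o with _ | i
    · rw [h2]; infer_instance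
    · rw [h1]; infer_instance
  obtain ⟨a, ha⟩ := eventually_atTop.1 (hp_spec' L)
  have hu : Unip D.L := D.isNilpotent_L
  obtain ⟨N, hN⟩ := hu.lg_nil
  have h3 := coeff_of_ev (rename e.symm (hp L)) (N := N)
    (fun i => chi ((lg D.L ^ i) (cy I J 0))) (fun i hi => by
      rw [pow_eq_zero_of_le hi hN, LinearMap.zero_apply, map_zero]) ?_ m
  · rw [h3, ← e.symm_apply_apply none, ← Finsupp.mapDomain_single,
      coeff_rename_mapDomain _ e.symm.injective, e.symm_apply_apply]
  filter_upwards [eventually_ge_atTop (a (e none))] with n hn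
  have h4 := chi_of_isP (FM hx (crd w ^ n)) (isP_eval (rename e.symm (hp L)) n) ?_ 0
  · rw [shG_zero_apply, ← L_pow_FM hx hJ hv D hD, hu.pow_eq_sum hN, LinearMap.sum_apply,
      map_sum] at h4
    simpa only [LinearMap.smul_apply, map_smul, smul_eq_mul, Pi.zero_apply, Int.cast_zero] using h4
  filter_upwards [eventually_ge_atTop fun i => (a (e (some i)) : ℤ)] with d hd
  obtain ⟨d, rfl⟩ : ∃ d' : ι → ℕ, d = fun i => (d' i : ℤ) :=
    ⟨fun i => (d i).toNat, funext fun i =>
      (Int.toNat_of_nonneg ((Nat.cast_nonneg _).trans (hd i))).symm⟩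
  have h5 := ha (fun j => Option.elim (e.symm j) n d) fun j => by
    obtain ⟨o, rfl⟩ := e.surjective j
    change _ ≤ Option.elim (e.symm (e o)) n d
    rw [e.symm_apply_apply]
    rcases o with _ | i
    · exact hn
    · exact Int.ofNat_le.1 (hd i)
  have h6 : (∏ j, L j ^ Option.elim (e.symm j) n d : Submodule k (T → k)) =
      pcZ x (fun i => d i) * crd w ^ n := by
    rw [← e.prod_comp, Fintype.prod_option, pcZ_nat, mul_comm]
    simp only [e.symm_apply_apply, h1, h2, Option.elim]
  rw [h6] at h5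
  rw [hilb_FM, ← Rat.cast_natCast (Module.finrank _ _), ← h5, eval_rename]
  congr 3
  funext j
  rcases h : e.symm j with _ | i <;> simp [h]

namespace Geo

variable {X : Type} [IsAlgClosed k] (Γ : Geo I X)

omit [Fintype ι] [Fintype σ] [IsAlgClosed k] in
theorem ev_eq_eval (t : ι → X) (f : S σ k ι) : Γ.ev t f = eval (xp Γ.p t) f := rfl

/-- BRIDGE for the twist given by charts -/
theorem bridge_td {f : (ι → X) → A → k} {D : TD I ι A} (hD : Γ.IsCh D f) (j : T → ι → X)
    {κ : Type} [Fintype κ] (L : κ → Submodule k (T → k)) (e : Option ι ≃ κ)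
    (h1 : ∀ i, L (e (some i)) = crd fun t => Γ.p (j t i)) (h2 : L (e none) = crd fun t => f (j t))
    (m : ℕ) : chi ((lg D.L ^ m) (Γ.cT (Set.range j) 0)) =
      (m.factorial : ℂ) * (coeff (Finsupp.single (e none) m) (hp L) : ℚ) := by
  have hI : HomI I := Γ.idl ▸ homI_idl Γ.p
  refine bridge (x := fun t => xp Γ.p (j t)) (onX_of hI fun t i g hg => ?_) (grW_core _)
    (fun g d hg => ?_) D (fun c t => hD c (j t)) L e h1 h2 m
  · rw [Γ.idl] at hg
    have := mem_idl.1 hg 1 (j t i)
    rwa [one_smul] at this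
  · rw [mem_core hg]
    simp only [Ideal.mem_iInf, RingHom.mem_ker, Set.forall_mem_range, ev_eq_eval]

end Geo

end Pool.Agent.Bav
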