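import Pool.Agent.P.MP_dd457d_ag.Bav.Sh
import Pool.Agent.P.MP_dd457d_ag.Bav.Log

/-! Logarithms of the shift operators. -/

set_option autoImplicit false

noncomputable section

namespace Pool.Agent.Bav

open MvPolynomial

variable {σ k ι : Type} [Field k] {I : Ideal (MvPolynomial σ k)} [Finite σ] [Fintype ι]

theorem shG_commute (n n' : ι → ℤ) : Commute (shG n : Module.End ℂ (G I ι)) (shG n') :=
  LinearMap.ext fun x => shG_comm n n' x

theorem shG_nsmul (m : ℕ) (n : ι → ℤ) : shG (m • n) = (shG n : Module.End ℂ (G I ι)) ^ m := by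
  induction m with
  | zero => rw [zero_smul, pow_zero, shG_zero]
  | succ m ih => rw [succ_nsmul, shG_add, ih, pow_succ]

theorem shG_neg_mul (n : ι → ℤ) : (shG (-n) * shG n : Module.End ℂ (G I ι)) = 1 := by
  rw [← shG_add, neg_add_cancel, shG_zero]

theorem unip_shG (n : ι → ℤ) : Unip (shG n : Module.End ℂ (G I ι)) := by
  classical
  let H : AddSubgroup (ι → ℤ) :=
    { carrier := {t | Unip (shG t : Module.End ℂ (G I ι))}
      zero_mem' := by change Unip _; rw [shG_zero]; exact unip_one
      add_mem' := fun {a b} ha hb => by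
        change Unip _; rw [shG_add]; exact Unip.mul ha hb (shG_commute a b)
      neg_mem' := fun {a} ha => (Unip.inv ha (shG_neg_mul a)).1 }
  change n ∈ H
  rw [← Finset.univ_sum_single n]
  refine H.sum_mem fun i _ => ?_
  have h3 := H.zsmul_mem (x := Pi.single i 1) ⟨_, shG_nil i⟩ (n i)
  rwa [← Pi.single_smul, smul_eq_mul, mul_one] at h3

/-- the logarithm of the shift is additive -/
def lS (I : Ideal (MvPolynomial σ k)) : (ι → ℤ) →+ Module.End ℂ (G I ι) where
  toFun n := lg (shG n)
  map_zero' := by rw [shG_zero, lg_one]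
  map_add' n n' := by rw [shG_add, lg_mul (unip_shG n) (unip_shG n') (shG_commute n n')]

theorem lS_apply (n : ι → ℤ) : lS I n = lg (shG n) := rfl

theorem lS_nil (n : ι → ℤ) : IsNilpotent (lS I n) := (unip_shG n).lg_nil

theorem ex_lS (n : ι → ℤ) : ex (lS I n) = shG n := (unip_shG n).ex_lg

theorem lS_comm (n n' : ι → ℤ) : Commute (lS I n) (lS I n') :=
  lg_comm (unip_shG n) (unip_shG n') (shG_commute n n')

/-- the shift is polynomial in its multiplicity -/
theorem shG_zsmul_eq_sum (n : ι → ℤ) {N : ℕ} (hN : lS I n ^ N = 0) (m : ℤ) :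
    (shG (m • n) : Module.End ℂ (G I ι)) =
      ∑ i ∈ Finset.range N, ((m : ℂ) ^ i * (i.factorial : ℂ)⁻¹) • lS I n ^ i := by
  rw [← ex_lS, map_zsmul, ← Int.cast_smul_eq_zsmul ℂ, ex_smul_eq_sum hN]

/-- an operator that cuts modules by the members of a family without common zero is nilpotent -/
theorem nil_of_step {A : Type} [Fintype A] (f : A → Ideal (S σ k ι)) (D : Module.End ℂ (G I ι))
    (hirr : Irr (IX I ι ⊔ ⨆ a, f a))
    (h : ∀ (M : GM I ι) (a : A), ∃ K C : GM I ι, M.ann ≤ K.ann ∧ f a ≤ K.ann ∧ M.ann ≤ C.ann ∧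
      f a ≤ C.ann ∧ D (cls M) = cls C - cls K) : D ^ Fintype.card A = 0 := by
  classical
  have key : ∀ (s : Finset A) (M : GM I ι), (∀ a ∉ s, f a ≤ M.ann) → (D ^ s.card) (cls M) = 0 := by
    intro s
    induction s using Finset.induction_on with
    | empty =>
      intro M hM
      rw [cls_irr (hirr.mono (sup_le M.IX_le_ann (iSup_le fun a =>
        hM a (Finset.notMem_empty a)))), map_zero]
    | insert a s ha ih =>
      intro M hM
      obtain ⟨K, C, h1, h2, h3, h4, h5⟩ := h M a
      have e : ∀ N : GM I ι, M.ann ≤ N.ann → f a ≤ N.ann → ∀ b ∉ s, f b ≤ N.ann := by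
        intro N a1 a2 b hb
        by_cases hab : b = a
        · rwa [hab]
        · exact (hM b (by simp [hab, hb])).trans a1
      rw [Finset.card_insert_of_notMem ha, pow_succ, Module.End.mul_apply, h5, map_sub,
        ih C (e C h3 h4), ih K (e K h1 h2), sub_zero]
  exact G.ext fun M => key Finset.univ M fun a ha => absurd (Finset.mem_univ a) ha

end Pool.Agent.Bav
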