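import Pool.Agent.P.MP_dd457d_ag.Bav.Cyc

/-! The twist by the line bundle that is given by charts of forms. -/

set_option autoImplicit false

noncomputable section

namespace Pool.Agent.Bav

open MvPolynomial

variable {σ k ι : Type} [Field k] {I : Ideal (MvPolynomial σ k)}

/-- charts of forms for a map to the projective space with coordinates `A` -/
structure TD (I : Ideal (MvPolynomial σ k)) (ι A : Type) [Fintype ι] where
  C : Type
  [fin : Finite C]
  P : C → A → S σ k ι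
  e : C → ι → ℤ
  hg : ∀ c a, Hg (P c a) (e c)
  mnr : ∀ c c' a b, P c a * P c' b - P c b * P c' a ∈ IX I ι
  irr : Irr (IX I ι ⊔ Ideal.span {f | ∃ c a, f = P c a})

attribute [instance] TD.fin

/-- `T` is, modulo torsion, the twist of `M` -/
structure Tw {C A : Type} (P : C → A → S σ k ι) (M T : GM I ι) where
  j : A → Hom M T
  ev : C → T.M →ₗ[S σ k ι] M.M
  ej : ∀ c a x, ev c ((j a).f x) = P c a • x
  je : ∀ c a t, (j a).f (ev c t) = P c a • t

section Con
variable {C A : Type} {P : C → A → S σ k ι} {e : C → ι → ℤ} {M N T T' : GM I ι}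

theorem Tw.rel (h : Tw P M T) (c : C) (a b : A) (x : M.M) :
    (h.j a).f (P c b • x) = (h.j b).f (P c a • x) := by
  rw [← h.ej c b x, h.je, map_smul]

/-- shift of a twist pair -/
def Tw.sh (h : Tw P M T) (n : ι → ℤ) : Tw P (M.sh n) (T.sh n) where
  j a := ⟨(h.j a).f, fun d x => (h.j a).π (d + n) x⟩
  ev := h.ev
  ej := h.ej
  je := h.je

/-- fewer charts, and a linear change of the coordinates -/
def Tw.lin [Fintype A] (h : Tw P M T) {C' A' : Type} {P' : C' → A' → S σ k ι} (φ : C' → C)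
    (m : A' → A → k) (hM : ∀ c b (x : M.M), P' c b • x = (∑ a, m b a • P (φ c) a) • x)
    (hT : ∀ c b (x : T.M), P' c b • x = (∑ a, m b a • P (φ c) a) • x) : Tw P' M T where
  j b := ⟨∑ a, (MvPolynomial.C (m b a) : S σ k ι) • (h.j a).f, fun d x => by
    simp only [LinearMap.sum_apply, LinearMap.smul_apply, GM.C_smul, map_sum, map_smul,
      (h.j _).π]⟩
  ev c := h.ev (φ c)
  ej c b x := by
    simp only [hM, LinearMap.sum_apply, LinearMap.smul_apply, map_sum, map_smul, h.ej]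
    simp only [Finset.sum_smul, GM.C_smul, smul_assoc]
  je c b t := by
    simp only [hT, LinearMap.sum_apply, LinearMap.smul_apply, h.je, Finset.sum_smul, GM.C_smul,
      smul_assoc]

/-- composition of twist pairs -/
def Tw.comp {C' A' : Type} {P' : C' → A' → S σ k ι} {U : GM I ι} (h : Tw P M T)
    (h' : Tw P' T U) : Tw (fun (c : C × C') (a : A × A') => P c.1 a.1 * P' c.2 a.2) M U where
  j a := (h'.j a.2).comp (h.j a.1)
  ev c := h.ev c.1 ∘ₗ h'.ev c.2
  ej c a x := by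
    change h.ev c.1 (h'.ev c.2 ((h'.j a.2).f ((h.j a.1).f x))) = _
    rw [h'.ej, map_smul, h.ej, smul_smul, mul_comm]
  je c a t := by
    change (h'.j a.2).f ((h.j a.1).f (h.ev c.1 (h'.ev c.2 t))) = _
    rw [h.je, map_smul, h'.je, smul_smul]

/-- forms of one degree give the shift -/
def Tw.forms (M : GM I ι) {u : A → S σ k ι} {n : ι → ℤ} (hu : ∀ a, Hg (u a) n) :
    Tw (fun _ : Unit => u) M (M.sh n) where
  j a := ⟨LinearMap.lsmul (S σ k ι) M.M (u a), fun d x => (M.π_smul (hu a) d x).symm⟩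
  ev _ := LinearMap.id
  ej _ _ _ := rfl
  je _ _ _ := rfl

variable [Fintype A] [DecidableEq A]

/-- the relations of the standard twist -/
def twW (P : C → A → S σ k ι) (M : GM I ι) : Submodule (S σ k ι) (A → M.M) :=
  Submodule.span (S σ k ι)
    {z | ∃ c a b x, z = Pi.single a (P c b • x) - Pi.single b (P c a • x)}

theorem tw_π_single (M : GM I ι) (d : ι → ℤ) (a : A) (x : M.M) :
    (M.pw A).π d (Pi.single a x : A → M.M) = (Pi.single a (M.π d x) : A → M.M) := by
  funext b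
  change M.π d ((Pi.single a x : A → M.M) b) = _
  by_cases h : b = a
  · subst h
    simp
  · simp [Pi.single_eq_of_ne h]

theorem twW_gr (hg : ∀ c a, Hg (P c a) (e c)) (M : GM I ι) : Gr (M.pw A) (twW P M) := by
  intro d z hz
  induction hz using Submodule.span_induction generalizing d with
  | mem z hz =>
    obtain ⟨c, a, b, x, rfl⟩ := hz
    have h : (M.pw A).π d (Pi.single a (P c b • x) - Pi.single b (P c a • x) : A → M.M) =
        (Pi.single a (P c b • M.π (d - e c) x) - Pi.single b (P c a • M.π (d - e c) x) :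
          A → M.M) := by
      rw [← M.π_smul (hg c a), ← M.π_smul (hg c b), sub_add_cancel, ← tw_π_single, ← tw_π_single]
      exact map_sub ((M.pw A).π d) _ _
    have h2 : (Pi.single a (P c b • M.π (d - e c) x) - Pi.single b (P c a • M.π (d - e c) x) :
        A → M.M) ∈ twW P M := Submodule.subset_span ⟨c, a, b, _, rfl⟩
    exact h.symm ▸ h2
  | zero => exact (map_zero ((M.pw A).π d)).symm ▸ Submodule.zero_mem _
  | add x y _ _ hx hy => exact (map_add ((M.pw A).π d) x y).symm ▸ Submodule.add_mem _ (hx d) (hy d)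
  | smul f x _ hx => exact basicA_smul_mem (M.pw A) hx f d

/-- the standard twist -/
def twM (hg : ∀ c a, Hg (P c a) (e c)) (M : GM I ι) : GM I ι :=
  (M.pw A).quo (twW P M) (twW_gr hg M)

/-- the maps into the standard twist -/
def twJ (hg : ∀ c a, Hg (P c a) (e c)) (M : GM I ι) (a : A) : Hom M (twM hg M) :=
  ⟨(twW P M).mkQ ∘ₗ LinearMap.single (S σ k ι) (fun _ => M.M) a, fun d x =>
    congrArg (twW P M).mkQ (tw_π_single M d a x).symm⟩

theorem tw_gen (hg : ∀ c a, Hg (P c a) (e c)) (t : (twM hg M).M) :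
    ∃ ξ : A → M.M, t = ∑ a, (twJ hg M a).f (ξ a) := by
  obtain ⟨ξ, rfl⟩ := (twW P M).mkQ_surjective t
  refine ⟨ξ, ?_⟩
  conv_lhs => rw [← Finset.univ_sum_single ξ]
  exact map_sum (twW P M).mkQ _ _

theorem twJ_rel (hg : ∀ c a, Hg (P c a) (e c)) (c : C) (a b : A) (x : M.M) :
    (twJ hg M a).f (P c b • x) = (twJ hg M b).f (P c a • x) :=
  (Submodule.Quotient.eq _).2 (Submodule.subset_span ⟨c, a, b, x, rfl⟩)

theorem tw_lift (hg : ∀ c a, Hg (P c a) (e c)) {V : Type} [AddCommGroup V] [Module (S σ k ι) V]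
    (φ : A → M.M →ₗ[S σ k ι] V) (h : ∀ c a b x, φ a (P c b • x) = φ b (P c a • x)) :
    ∃ F : (twM hg M).M →ₗ[S σ k ι] V, ∀ a x, F ((twJ hg M a).f x) = φ a x := by
  refine ⟨(twW P M).liftQ (LinearMap.lsum (S σ k ι) (fun _ => M.M) (S σ k ι) φ) ?_, fun a x => ?_⟩
  · refine Submodule.span_le.2 ?_
    rintro _ ⟨c, a, b, x, rfl⟩
    rw [SetLike.mem_coe, LinearMap.mem_ker, map_sub, LinearMap.lsum_piSingle,
      LinearMap.lsum_piSingle, h, sub_self]
  · exact LinearMap.lsum_piSingle _ _ _ φ a x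

theorem tw_hom (hg : ∀ c a, Hg (P c a) (e c)) (φ : A → Hom M N)
    (h : ∀ c a b x, (φ a).f (P c b • x) = (φ b).f (P c a • x)) :
    ∃ F : Hom (twM hg M) N, ∀ a x, F.f ((twJ hg M a).f x) = (φ a).f x := by
  obtain ⟨F, hF⟩ := tw_lift hg (fun a => (φ a).f) h
  refine ⟨⟨F, fun d t => ?_⟩, hF⟩
  obtain ⟨ξ, rfl⟩ := tw_gen hg t
  simp only [map_sum, ← (twJ hg M _).π, hF, (φ _).π]

theorem exists_twM (hg : ∀ c a, Hg (P c a) (e c))
    (hm : ∀ c c' a b, P c a * P c' b - P c b * P c' a ∈ M.ann) :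
    ∃ h : Tw P M (twM hg M), h.j = twJ hg M := by
  choose ev hev using fun c => tw_lift hg (M := M)
    (fun a => LinearMap.lsmul (S σ k ι) M.M (P c a)) fun c' a b x => by
      have := GM.mem_ann.1 (hm c c' a b) x
      rw [sub_smul, sub_eq_zero, mul_smul, mul_smul] at this
      exact this
  refine ⟨⟨twJ hg M, ev, hev, fun c a t => ?_⟩, rfl⟩
  obtain ⟨ξ, rfl⟩ := tw_gen hg t
  simp only [map_sum, hev, LinearMap.lsmul_apply, Finset.smul_sum]
  refine Finset.sum_congr rfl fun b _ => ?_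
  rw [twJ_rel hg c a b, map_smul]

theorem ann_le_twM (hg : ∀ c a, Hg (P c a) (e c)) (M : GM I ι) : M.ann ≤ (twM hg M).ann := by
  intro f hf
  refine GM.mem_ann.2 fun t => ?_
  obtain ⟨ξ, rfl⟩ := tw_gen hg t
  simp only [Finset.smul_sum, ← map_smul, GM.mem_ann.1 hf, map_zero, Finset.sum_const_zero]

omit [Fintype A] [DecidableEq A] in
theorem tw_kill {W : Submodule (S σ k ι) T.M} {t : T.M} (h : ∀ c a, P c a • t ∈ W) :
    ∀ s ∈ IX I ι ⊔ Ideal.span {f | ∃ c a, f = P c a}, s • t ∈ W := by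
  have : IX I ι ⊔ Ideal.span {f | ∃ c a, f = P c a} ≤
      W.comap (LinearMap.toSpanSingleton (S σ k ι) T.M t) := by
    refine sup_le (fun s hs => ?_) (Ideal.span_le.2 ?_)
    · change s • t ∈ W
      rw [GM.mem_ann.1 (T.IX_le_ann hs)]
      exact W.zero_mem
    · rintro _ ⟨c, a, rfl⟩
      exact h c a
  exact this

variable [Finite σ] [Fintype ι]

theorem Tw.cls_twM (hg : ∀ c a, Hg (P c a) (e c))
    (hm : ∀ c c' a b, P c a * P c' b - P c b * P c' a ∈ M.ann)
    (hi : Irr (IX I ι ⊔ Ideal.span {f | ∃ c a, f = P c a})) (h : Tw P M T) :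
    cls (twM hg M) = cls T := by
  obtain ⟨h0, e0⟩ := exists_twM hg hm
  obtain ⟨F, hF⟩ := tw_hom hg h.j h.rel
  have hev : ∀ c t, h.ev c (F.f t) = h0.ev c t := fun c t => by
    obtain ⟨ξ, rfl⟩ := tw_gen hg t
    simp only [map_sum, hF, h.ej]
    simp only [← e0, h0.ej]
  refine cls_eq_of_irr F hi (fun s hs t ht => ?_) fun s hs t => ?_
  · refine (Submodule.mem_bot (S σ k ι)).1 (tw_kill (fun c a => ?_) s hs)
    rw [← h0.je, ← hev, ht, map_zero, map_zero]
    exact Submodule.zero_mem _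
  · exact tw_kill (W := LinearMap.range F.f) (fun c a => ⟨_, (hF a _).trans (h.je c a t)⟩) s hs

end Con

namespace TD

variable [Fintype ι] {A : Type} [Fintype A] (D : TD I ι A) {M N T : GM I ι}

theorem exists_tw (M : GM I ι) : ∃ T : GM I ι, M.ann ≤ T.ann ∧ Nonempty (Tw D.P M T) := by
  classical
  obtain ⟨h, -⟩ := exists_twM D.hg fun c c' a b => M.IX_le_ann (D.mnr c c' a b)
  exact ⟨_, ann_le_twM D.hg M, ⟨h⟩⟩

variable [Finite σ]

theorem exists_L : ∃ F : Module.End ℂ (G I ι), ∀ M T, Tw D.P M T → F (cls M) = cls T := by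
  classical
  have hm := fun (M : GM I ι) c c' a b => M.IX_le_ann (D.mnr c c' a b)
  obtain ⟨F, hF⟩ := exists_lift (fun M : GM I ι => cls (twM D.hg M)) (fun M N Q f g h => by
    obtain ⟨h1, h2, h3⟩ := h
    obtain ⟨tM, eM⟩ := exists_twM D.hg (hm M)
    obtain ⟨tN, eN⟩ := exists_twM D.hg (hm N)
    obtain ⟨tQ, eQ⟩ := exists_twM D.hg (hm Q)
    obtain ⟨F, hF⟩ := tw_hom D.hg (fun a => (twJ D.hg N a).comp f) fun c a b x => by
      change (twJ D.hg N a).f (f.f _) = (twJ D.hg N b).f (f.f _)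
      rw [map_smul f.f, map_smul f.f, twJ_rel]
    obtain ⟨H, hH⟩ := tw_hom D.hg (fun a => (twJ D.hg Q a).comp g) fun c a b x => by
      change (twJ D.hg Q a).f (g.f _) = (twJ D.hg Q b).f (g.f _)
      rw [map_smul g.f, map_smul g.f, twJ_rel]
    replace hF : ∀ a x, F.f ((twJ D.hg M a).f x) = (twJ D.hg N a).f (f.f x) := hF
    replace hH : ∀ a x, H.f ((twJ D.hg N a).f x) = (twJ D.hg Q a).f (g.f x) := hH
    have eF : ∀ c t, tN.ev c (F.f t) = f.f (tM.ev c t) := fun c t => by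
      obtain ⟨ξ, rfl⟩ := tw_gen D.hg t
      simp only [map_sum, hF]
      simp only [← eN, ← eM, tN.ej, tM.ej, map_smul]
    have eH : ∀ c t, tQ.ev c (H.f t) = g.f (tN.ev c t) := fun c t => by
      obtain ⟨ξ, rfl⟩ := tw_gen D.hg t
      simp only [map_sum, hH]
      simp only [← eN, ← eQ, tN.ej, tQ.ej, map_smul]
    have hs : Function.Surjective H.f := fun t => by
      obtain ⟨ξ, rfl⟩ := tw_gen D.hg t
      choose η hη using fun a => h2 (ξ a)
      exact ⟨∑ a, (twJ D.hg N a).f (η a), by simp only [map_sum, hH, hη]⟩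
    have h0 : ∀ t, H.f (F.f t) = 0 := fun t => by
      obtain ⟨ξ, rfl⟩ := tw_gen D.hg t
      simp only [map_sum, hF, hH, h3.apply_apply_eq_zero, map_zero, Finset.sum_const_zero]
    let F' : Hom (twM D.hg M) ((twM D.hg N).sub _ H.gr_ker) :=
      ⟨F.f.codRestrict _ h0, fun d x => Subtype.ext (F.π d x)⟩
    rw [cls_surj H hs, cls_eq_of_irr F' D.irr (fun s hs t ht => ?_) fun s hs t => ?_]
    · refine (Submodule.mem_bot (S σ k ι)).1 (tw_kill (fun c a => ?_) s hs)
      have : tM.ev c t = 0 := h1 (by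
        rw [← eF, show F.f t = 0 from congrArg Subtype.val ht, map_zero, map_zero])
      rw [← tM.je, this, map_zero]
      exact Submodule.zero_mem _
    · refine tw_kill (fun c a => ?_) s hs
      obtain ⟨x, hx⟩ := (h3 (tN.ev c t.1)).1 (by rw [← eH, show H.f t.1 = 0 from t.2, map_zero])
      refine ⟨(twJ D.hg M a).f x, Subtype.ext ?_⟩
      change F.f _ = D.P c a • t.1
      rw [hF, hx, ← eN, tN.je])
    fun M hM => cls_irr (((tors_iff_irr M).1 hM).mono (ann_le_twM D.hg M))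
  exact ⟨F, fun M T h => (hF M).trans (h.cls_twM D.hg (hm M) D.irr)⟩

/-- the twist on the Grothendieck group -/
def L : Module.End ℂ (G I ι) := D.exists_L.choose

theorem L_cls (h : Tw D.P M T) : D.L (cls M) = cls T := D.exists_L.choose_spec M T h

/-- independence of the charts, on one module -/
theorem L_rel (D' : TD I ι A) (h : ∀ c c' a b, D.P c a * D'.P c' b - D.P c b * D'.P c' a ∈ M.ann) :
    D.L (cls M) = D'.L (cls M) := by
  classical
  have hg : ∀ (c : D.C ⊕ D'.C) a, Hg (Sum.elim D.P D'.P c a) (Sum.elim D.e D'.e c) := by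
    rintro (c | c) a
    exacts [D.hg c a, D'.hg c a]
  obtain ⟨t, -⟩ := exists_twM (M := M) hg (by
    rintro (c | c) (c' | c') a b
    · exact M.IX_le_ann (D.mnr c c' a b)
    · exact h c c' a b
    · have := h c' c b a
      rwa [mul_comm (D.P c' b), mul_comm (D.P c' a)] at this
    · exact M.IX_le_ann (D'.mnr c c' a b))
  rw [D.L_cls ⟨t.j, fun c => t.ev (.inl c), fun c => t.ej (.inl c), fun c => t.je (.inl c)⟩,
    D'.L_cls ⟨t.j, fun c => t.ev (.inr c), fun c => t.ej (.inr c), fun c => t.je (.inr c)⟩]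

theorem L_rel_cy (D' : TD I ι A) {J : Ideal (S σ k ι)}
    (h : ∀ c c' a b, D.P c a * D'.P c' b - D.P c b * D'.P c' a ∈ J) (n : ι → ℤ) :
    D.L (cy I J n) = D'.L (cy I J n) := by
  rcases cyc_cases (I := I) J n with h0 | ⟨M, x, h1, h2⟩
  · rw [h0, map_zero, map_zero]
  · rw [h2]
    exact D.L_rel D' fun c c' a b => h1.ann_eq.symm ▸ h c c' a b

theorem L_congr (D' : TD I ι A)
    (h : ∀ c c' a b, D.P c a * D'.P c' b - D.P c b * D'.P c' a ∈ IX I ι) : D.L = D'.L :=
  G.ext fun M => D.L_rel D' fun c c' a b => M.IX_le_ann (h c c' a b)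

/-- fewer charts, and a linear change of the coordinates -/
theorem L_lin {A' : Type} [Fintype A'] (D' : TD I ι A') (φ : D'.C → D.C) (m : A' → A → k)
    (h : ∀ c b, D'.P c b - ∑ a, m b a • D.P (φ c) a ∈ IX I ι) : D'.L = D.L := by
  refine G.ext fun M => ?_
  obtain ⟨T, -, ⟨t⟩⟩ := D.exists_tw M
  have key : ∀ (Q : GM I ι) c b (x : Q.M), D'.P c b • x = (∑ a, m b a • D.P (φ c) a) • x :=
    fun Q c b x => by
      have := GM.mem_ann.1 (Q.IX_le_ann (h c b)) x
      rwa [sub_smul, sub_eq_zero] at this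
  rw [D.L_cls t, D'.L_cls (t.lin φ m (key M) (key T))]

theorem L_sh (h : Tw D.P M T) (n : ι → ℤ) : D.L (cls (M.sh n)) = cls (T.sh n) :=
  D.L_cls (h.sh n)

/-- the difference of a module and its twist -/
theorem L_sub (M : GM I ι) (a : A) : ∃ K Q : GM I ι,
    M.ann ⊔ Ideal.span {f | ∃ c, f = D.P c a} ≤ K.ann ∧
    M.ann ⊔ Ideal.span {f | ∃ c, f = D.P c a} ≤ Q.ann ∧ D.L (cls M) - cls M = cls Q - cls K := by
  obtain ⟨T, hT, ⟨t⟩⟩ := D.exists_tw M
  refine ⟨M.sub _ (t.j a).gr_ker, T.quo _ (t.j a).gr_range,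
    sup_le (fun s hs => GM.mem_ann.2 fun x => Subtype.ext (GM.mem_ann.1 hs x.1))
      (Ideal.span_le.2 ?_),
    sup_le (fun s hs => GM.mem_ann.2 fun x => ?_) (Ideal.span_le.2 ?_), ?_⟩
  · rintro _ ⟨c, rfl⟩
    refine GM.mem_ann.2 fun x => Subtype.ext ?_
    change D.P c a • x.1 = 0
    rw [← t.ej, show (t.j a).f x.1 = 0 from x.2, map_zero]
  · obtain ⟨y, rfl⟩ := (LinearMap.range (t.j a).f).mkQ_surjective x
    exact ((map_smul _ s y).symm.trans (congrArg _ (GM.mem_ann.1 (hT hs) y))).trans (map_zero _)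
  · rintro _ ⟨c, rfl⟩
    refine GM.mem_ann.2 fun x => ?_
    obtain ⟨y, rfl⟩ := (LinearMap.range (t.j a).f).mkQ_surjective x
    exact (map_smul _ _ y).symm.trans ((Submodule.Quotient.mk_eq_zero _).2 ⟨_, t.je c a y⟩)
  · rw [D.L_cls t, sub_eq_sub_iff_sub_eq_sub, ← cls_ker_coker (t.j a)]

theorem L_nil_aux [DecidableEq A] (s : Finset A) : ∀ M : GM I ι,
    (∀ c, ∀ a ∉ s, D.P c a ∈ M.ann) → ((D.L - 1) ^ s.card) (cls M) = 0 := by
  induction s using Finset.induction_on with
  | empty =>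
    intro M h
    rw [cls_irr (D.irr.mono (sup_le M.IX_le_ann (Ideal.span_le.2 ?_))), map_zero]
    rintro _ ⟨c, a, rfl⟩
    exact h c a (Finset.notMem_empty a)
  | insert a s ha ih =>
    intro M h
    obtain ⟨K, Q, hK, hQ, e⟩ := D.L_sub M a
    have key : ∀ U : GM I ι, M.ann ⊔ Ideal.span {f | ∃ c, f = D.P c a} ≤ U.ann →
        ((D.L - 1) ^ s.card) (cls U) = 0 := fun U hU => ih U fun c b hb => by
      by_cases hab : b = a
      · exact hU (Ideal.mem_sup_right (Ideal.subset_span ⟨c, by rw [hab]⟩))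
      · exact hU (Ideal.mem_sup_left (h c b (by simp [hab, hb])))
    rw [Finset.card_insert_of_notMem ha, pow_succ, Module.End.mul_apply, LinearMap.sub_apply,
      Module.End.one_apply, e, map_sub, key Q hQ, key K hK, sub_zero]

theorem L_nil : (D.L - 1) ^ Fintype.card A = 0 := by
  classical
  exact G.ext fun M => D.L_nil_aux Finset.univ M fun _ a ha => absurd (Finset.mem_univ a) ha

theorem isNilpotent_L : IsNilpotent (D.L - 1) := ⟨_, D.L_nil⟩

end TD

end Pool.Agent.Bav
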