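import Pool.Agent.P.MP_dd457d_ag.Bav.FgtB
import Pool.Agent.P.MP_dd457d_ag.Bav.Tw

/-! Twists commute with projections. -/

set_option autoImplicit false

noncomputable section

namespace Pool.Agent.Bav

open MvPolynomial Filter

variable {σ k ι κ : Type} [Field k] {I : Ideal (MvPolynomial σ k)} [Fintype ι] [Fintype κ]
  {A : Type}

theorem PD.irr_map' (D : PD I ι κ) {J : Ideal (S σ k ι)} (hJ : Irr J) : Irr (J.map D.φ) := by
  intro α
  obtain ⟨N, hN⟩ := hJ (α ∘ D.τ)
  have h1 : D.φ (mono k (α ∘ D.τ)) ∣ mono k α ^ ∑ i, D.q i := by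
    rw [mono, mono, map_prod, ← Finset.prod_pow]
    refine dvd_trans ?_ (Finset.prod_dvd_prod_of_subset (Finset.univ.map ⟨D.τ, D.inj⟩) _
      (fun l => (X (l, α l) : S σ k κ) ^ ∑ i, D.q i) (Finset.subset_univ _))
    rw [Finset.prod_map]
    refine Finset.prod_dvd_prod_of_dvd _ _ fun i _ => ?_
    rw [D.φ_X, ((D.c_ne _).isUnit.map C).mul_left_dvd]
    exact pow_dvd_pow _ (Finset.single_le_sum (f := D.q) (fun _ _ => Nat.zero_le _)
      (Finset.mem_univ i))
  refine ⟨(∑ i, D.q i) * N, ?_⟩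
  rw [pow_mul]
  refine Ideal.mem_of_dvd _ (pow_dvd_pow_of_dvd h1 N) ?_
  rw [← map_pow]
  exact Ideal.mem_map_of_mem _ hN

/-- charts composed with a monomial substitution -/
def TD.pull (E : TD I ι A) (D : PD I ι κ) : TD I κ A where
  C := E.C
  P c a := D.φ (E.P c a)
  e c := D.val (E.e c) - D.o
  hg c a := D.hg_φ (E.hg c a)
  mnr c c' a b := by
    rw [← map_mul, ← map_mul, ← map_sub]
    exact D.φ_mem_IX (E.mnr c c' a b)
  irr := (D.irr_map' E.irr).mono (Ideal.map_le_iff_le_comap.2 (sup_le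
    (fun f hf => Ideal.mem_sup_left (D.φ_mem_IX hf)) (Ideal.span_le.2 (by
      rintro _ ⟨c, a, rfl⟩
      exact Ideal.mem_sup_right (Ideal.subset_span ⟨c, a, rfl⟩)))))

variable [Fintype A]

omit [Fintype κ] in
/-- twists with graded evaluation maps exist -/
theorem TD.exists_tw_gr (E : TD I ι A) (M : GM I ι) : ∃ (T : GM I ι) (h : Tw E.P M T),
    ∀ c d t, h.ev c (T.π d t) = M.π (d + E.e c) (h.ev c t) := by
  classical
  obtain ⟨h, e⟩ := exists_twM E.hg fun c c' a b => M.IX_le_ann (E.mnr c c' a b)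
  refine ⟨_, h, fun c d t => ?_⟩
  obtain ⟨ξ, rfl⟩ := tw_gen E.hg t
  simp only [map_sum, ← e, ← (h.j _).π, h.ej, M.π_smul (E.hg c _)]

variable [Fintype σ]

theorem pl_tw (E : TD I ι A) (D : PD I ι κ) {M T : GM I κ} (h : Tw (E.pull D).P M T)
    (hev : ∀ c d t, h.ev c (T.π d t) = M.π (d + (E.pull D).e c) (h.ev c t)) :
    pl D T = E.L (pl D M) := by
  obtain ⟨N, j, hN⟩ := exists_isPull D M
  obtain ⟨U, j', hU⟩ := exists_isPull D T
  choose g hg _ using fun a => hN.exists_hom hU (h.j a)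
  have hz : ∀ c d, d + (D.val (-E.e c) - D.o) + (E.pull D).e c = d := fun c d => by
    have h1 := D.val_add (-E.e c) (E.e c)
    rw [neg_add_cancel, D.pullA_val_zero] at h1
    change d + (D.val (-E.e c) - D.o) + (D.val (E.e c) - D.o) = d
    rw [add_assoc, sub_add_eq_add_sub, ← h1, sub_self, add_zero]
  choose g' hg' _ using fun c => (hU.sh (-E.e c)).exists_hom hN
    (⟨h.ev c, fun d t => (hev c _ t).trans (by rw [hz]; rfl)⟩ : Hom (T.sh (D.val (-E.e c) - D.o)) M)
  replace hg' : ∀ c t, j ((g' c).f t) = h.ev c (j' t) := hg'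
  rw [← hN.cls_eq, ← hU.cls_eq]
  refine (E.L_cls ⟨g, fun c => (g' c).f, fun c a x => hN.inj ?_, fun c a t => hU.inj ?_⟩).symm
  · rw [hN.smul]
    exact (hg' c _).trans (by rw [hg, h.ej]; rfl)
  · rw [hU.smul, hg]
    exact (congrArg (h.j a).f (hg' c t)).trans (h.je c a _)

theorem fgD_L (E : TD I ι A) (D : PD I ι κ) (x : G I κ) :
    fgD D ((E.pull D).L x) = E.L (fgD D x) := by
  have : (fgD D).comp (E.pull D).L = E.L.comp (fgD D) := G.ext_ev fun M => by
    obtain ⟨T, h, hev⟩ := (E.pull D).exists_tw_gr M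
    filter_upwards [fgD_spec D M, fgD_spec D T] with d h1 h2
    rw [LinearMap.comp_apply, LinearMap.comp_apply, h1, shG_cls, (E.pull D).L_sh h, ← shG_cls, h2]
    exact pl_tw E D (h.sh d) fun c e t => (hev c (e + d) t).trans (by rw [add_right_comm]; rfl)
  exact LinearMap.congr_fun this x

/-- projection formula -/
theorem fgt_L (u : ι → κ) (hu : Function.Injective u) (E : TD I ι A) (E' : TD I κ A)
    (h : ∀ c c' a b, rn u (E.P c a) * E'.P c' b - rn u (E.P c b) * E'.P c' a ∈ IX I κ)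
    (x : G I κ) : fgt u hu (E'.L x) = E.L (fgt u hu x) := by
  rw [← (E.pull (reD I u hu 0)).L_congr E' fun c c' a b => by
    change (reD I u hu 0).φ _ * _ - (reD I u hu 0).φ _ * _ ∈ _
    rw [reD_φ]
    exact h c c' a b]
  exact fgD_L E _ x

end Pool.Agent.Bav
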