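import Pool.Agent.P.MP_dd457d_ag.Bav.Chart

/-! Finite systems of charts and descent to a finite field. -/

set_option autoImplicit false

noncomputable section

namespace Pool.Agent.Bav

open MvPolynomial Pool.Agent.Tav

section Desc
variable {k Ω : Type} [Field k] [Finite k] [Field Ω] [Algebra k Ω] [Algebra.IsAlgebraic k Ω]

omit [Algebra.IsAlgebraic k Ω] in
theorem exists_fr (k Ω : Type) [Field k] [Finite k] [Field Ω] [Algebra k Ω] :
    ∃ fr : Ω →+* Ω, ∀ x, fr x = x ^ Nat.card k := by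
  cases nonempty_fintype k
  exact ⟨(FiniteField.frobeniusAlgHom k Ω).toRingHom, fun x => by
    rw [Nat.card_eq_fintype_card]; rfl⟩

/-- on a finite set a linear form is a combination of the powers of Frobenius -/
theorem lin_frob (φ : Ω →ₗ[k] k) (A : Finset Ω) : ∃ (m : ℕ) (b : ℕ → Ω), ∀ x ∈ A,
    algebraMap k Ω (φ x) = ∑ i ∈ Finset.range m, b i * x ^ Nat.card k ^ i := by
  let E := IntermediateField.adjoin k (A : Set Ω)
  have : FiniteDimensional k E := IntermediateField.finiteDimensional_adjoin fun x _ =>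
    (Algebra.IsAlgebraic.isAlgebraic x).isIntegral
  have : Finite E := Module.finite_of_finite k
  let y : E := ((Algebra.traceForm k E).toDual (traceForm_nondegenerate k E)).symm
    (φ ∘ₗ E.val.toLinearMap)
  refine ⟨Module.finrank k E, fun i => (y : Ω) ^ Nat.card k ^ i, fun x hx => ?_⟩
  let x' : E := ⟨x, IntermediateField.subset_adjoin k _ hx⟩
  have h1 : Algebra.trace k E (y * x') = φ x :=
    LinearMap.BilinForm.apply_toDual_symm_apply (hB := traceForm_nondegenerate k E) _ x'
  have h2 := congrArg (fun z : E => (z : Ω))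
    (FiniteField.algebraMap_trace_eq_sum_pow k E (y * x'))
  rw [h1] at h2
  refine Eq.trans h2 ?_
  push_cast
  simp only [mul_pow]
  rfl

/-- a space of tuples of polynomials that is stable under Frobenius contains the components of
its members -/
theorem desc_tuple {s τ : Type} [Finite τ] {fr : Ω →+* Ω} (hfr : ∀ x, fr x = x ^ Nat.card k)
    (V : Submodule Ω (τ → MvPolynomial s Ω)) (hV : ∀ u ∈ V, (fun l => map fr (u l)) ∈ V)
    (φ : Ω →ₗ[k] k) {u : τ → MvPolynomial s Ω} (hu : u ∈ V) :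
    (fun l => map (algebraMap k Ω) (cfl φ (u l))) ∈ V := by
  classical
  cases nonempty_fintype τ
  obtain ⟨m, b, h⟩ := lin_frob φ (insert 0 (Finset.univ.biUnion fun l => (u l).coeffs))
  have h1 : ∀ i, (fun l => map (fr ^ i) (u l)) ∈ V := by
    intro i
    induction i with
    | zero => simpa [RingHom.one_def, map_id] using hu
    | succ i ih =>
      have := hV _ ih
      simpa only [map_map, pow_succ', RingHom.mul_def] using this
  have e : (fun l => map (algebraMap k Ω) (cfl φ (u l))) =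
      ∑ i ∈ Finset.range m, b i • fun l => map (fr ^ i) (u l) := by
    funext l
    refine MvPolynomial.ext _ _ fun d => ?_
    rw [coeff_map, coeff_cfl, Finset.sum_apply, coeff_sum, h]
    · exact Finset.sum_congr rfl fun i _ => by
        rw [Pi.smul_apply, coeff_smul, coeff_map, De.iter_pow fr _ hfr, smul_eq_mul]
    · by_cases h0 : coeff d (u l) = 0
      · rw [h0]; exact Finset.mem_insert_self _ _
      · exact Finset.mem_insert_of_mem (Finset.mem_biUnion.2 ⟨l, Finset.mem_univ _,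
          coeff_mem_coeffs d h0⟩)
  rw [e]
  exact Submodule.sum_mem _ fun i _ => Submodule.smul_mem _ _ (h1 i)

/-- an ideal that is stable under Frobenius is generated by its members over the finite field -/
theorem desc_ideal {s : Type} {fr : Ω →+* Ω} (hfr : ∀ x, fr x = x ^ Nat.card k)
    (J : Ideal (MvPolynomial s Ω)) (hJ : ∀ f ∈ J, map fr f ∈ J) :
    (J.comap (map (algebraMap k Ω) : MvPolynomial s k →+* _)).map (map (algebraMap k Ω)) = J := by
  refine le_antisymm Ideal.map_comap_le fun f hf => mem_map_iff_cfl.2 fun φ => ?_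
  exact desc_tuple (τ := Unit) hfr (Submodule.pi Set.univ fun _ => J.restrictScalars Ω)
    (fun u hu l _ => hJ _ (hu l trivial)) φ (u := fun _ => f) (fun _ _ => hf) () trivial

end Desc

section Sys
variable {k Ω : Type} [Field k] [Field Ω] [Algebra k Ω] {s ι T τ : Type} [DecidableEq ι]

/-- a system of charts over `k` for the map with coordinates `w` -/
structure IsChart (β : s → ι) (x : T → s → Ω) (w : T → τ → Ω) {C : Type} (e : ι → ℕ)
    (u : C → τ → MvPolynomial s k) : Prop where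
  hom : ∀ c l, u c l ∈ Sd k β e
  par : ∀ c t, ∃ a : Ω, ∀ l, aeval (x t) (u c l) = a * w t l
  cov : ∀ t, ∃ c l, aeval (x t) (u c l) ≠ 0

/-- tuples of forms that are proportional to `w` -/
def prp (β : s → ι) (x : T → s → Ω) (w : T → τ → Ω) (e : ι → ℕ) :
    Submodule Ω (τ → MvPolynomial s Ω) where
  carrier := {u | (∀ l, u l ∈ Sd Ω β e) ∧ ∀ t, ∃ a : Ω, ∀ l, eval (x t) (u l) = a * w t l}
  add_mem' := fun {u v} hu hv => ⟨fun l => add_mem (hu.1 l) (hv.1 l), fun t => by
    obtain ⟨a, ha⟩ := hu.2 t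
    obtain ⟨b, hb⟩ := hv.2 t
    exact ⟨a + b, fun l => by rw [Pi.add_apply, map_add, ha, hb, add_mul]⟩⟩
  zero_mem' := ⟨fun l => zero_mem _, fun t => ⟨0, fun l => by simp⟩⟩
  smul_mem' := fun c u hu => ⟨fun l => Submodule.smul_mem _ _ (hu.1 l), fun t => by
    obtain ⟨a, ha⟩ := hu.2 t
    exact ⟨c * a, fun l => by rw [Pi.smul_apply, smul_eval, ha, mul_assoc]⟩⟩

theorem aeval_fun (x : T → s → Ω) (f : MvPolynomial s Ω) (t : T) :
    aeval (fun v t => x t v) f t = eval (x t) f := by
  induction f using MvPolynomial.induction_on with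
  | C a => simp
  | add p q hp hq => simp only [map_add, Pi.add_apply, hp, hq]
  | mul_X p v hp => simp only [map_mul, Pi.mul_apply, hp, aeval_X, eval_X]

theorem aeval_eq_map (z : s → Ω) (f : MvPolynomial s k) :
    aeval z f = eval z (map (algebraMap k Ω) f) := by
  rw [eval_map, aeval_def]

/-- scaling the blocks scales a form -/
theorem eval_scale [Fintype ι] {β : s → ι} {e : ι → ℕ} {f : MvPolynomial s Ω} (hf : f ∈ Sd Ω β e)
    (c : ι → Ω) (z : s → Ω) :
    eval (fun v => c (β v) * z v) f = (∏ i, c i ^ e i) * eval z f := by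
  induction hf using IsWeightedHomogeneous.induction_on with
  | zero => simp
  | add p q _ _ hp hq => rw [map_add, map_add, hp, hq, mul_add]
  | monomial d r hd =>
    subst hd
    rw [eval_monomial, eval_monomial, mul_left_comm]
    congr 1
    simp only [mul_pow]
    rw [Finsupp.prod_mul]
    congr 1
    rw [Finsupp.weight_apply, Finsupp.sum, Finsupp.prod]
    simp only [Finset.sum_apply, ← Finset.prod_pow_eq_pow_sum]
    rw [Finset.prod_comm]
    refine Finset.prod_congr rfl fun v _ => ?_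
    rw [Finset.prod_eq_single (β v) (fun i _ hi => by simp [wN, Pi.single_eq_of_ne hi])
      fun h => absurd (Finset.mem_univ _) h]
    simp [wN]

variable [Finite s] [Fintype ι] {β : s → ι} {x : T → s → Ω} {w : T → τ → Ω}

theorem exists_prp (hw : ∀ t, w t ≠ 0)
    (h : Rg (Tav.blk Ω β fun v t => x t v) (crd w)) (t : T) :
    ∃ e, ∃ u ∈ prp β x w e, ∃ l, eval (x t) (u l) ≠ 0 := by
  obtain ⟨e, c, hc, h⟩ := h t
  rw [← map_Sd] at h
  choose u hu hu' using fun l => h _ (mem_crd w l)
  have h1 : ∀ l t', eval (x t') (u l) = c t' * w t' l := fun l t' =>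
    (aeval_fun x (u l) t').symm.trans (congrFun (hu' l) t')
  obtain ⟨l, hl⟩ := Function.ne_iff.1 (hw t)
  exact ⟨e, u, ⟨hu, fun t' => ⟨c t', fun l => h1 l t'⟩⟩, l, by
    rw [h1]; exact mul_ne_zero hc.ne_zero hl⟩

/-- a finite subsystem with one degree -/
theorem exists_fin (hx : ∀ t i, ∃ v, β v = i ∧ x t v ≠ 0)
    (h : ∀ t, ∃ (e : ι → ℕ) (u : τ → MvPolynomial s k), (∀ l, u l ∈ Sd k β e) ∧
      (∀ t', ∃ a : Ω, ∀ l, aeval (x t') (u l) = a * w t' l) ∧ ∃ l, aeval (x t) (u l) ≠ 0) :
    ∃ (n : ℕ) (e : ι → ℕ) (u : Fin n → τ → MvPolynomial s k), IsChart β x w e u := by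
  classical
  choose e u h1 h2 l h3 using h
  obtain ⟨A, hA, hsp⟩ := (Submodule.fg_span_iff_fg_span_finset_subset
    (R := MvPolynomial s k) (Set.range fun t => u t (l t))).1
    (IsNoetherian.noetherian _)
  choose j hj using fun a : A => hA a.2
  obtain ⟨E, hE⟩ := Finite.exists_le fun a : A => e (j a)
  let C := A × {α : ι → s // ∀ i, β (α i) = i}
  let m : C → MvPolynomial s k := fun c => ∏ i, X (c.2.1 i) ^ (E i - e (j c.1) i)
  have hm : ∀ c, m c ∈ Sd k β (E - e (j c.1)) := fun c => by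
    have := IsWeightedHomogeneous.prod Finset.univ
      (fun i => (X (c.2.1 i) : MvPolynomial s k) ^ (E i - e (j c.1) i))
      (fun i => (E i - e (j c.1) i) • wN β (c.2.1 i)) fun i _ =>
        (isWeightedHomogeneous_X k (wN β) _).pow _
    have e1 : ∑ i, (E i - e (j c.1) i) • wN β (c.2.1 i) = E - e (j c.1) := by
      funext i
      simp [wN, c.2.2, Finset.sum_apply, Pi.single_apply]
    rw [e1] at this
    exact this
  obtain ⟨n, ⟨q⟩⟩ := Finite.exists_equiv_fin C
  refine ⟨n, E, fun c b => m (q.symm c) * u (j (q.symm c).1) b, fun c b => ?_, fun c t => ?_,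
    fun t => ?_⟩
  · have := IsWeightedHomogeneous.mul (hm (q.symm c)) (h1 (j (q.symm c).1) b)
    rwa [tsub_add_cancel_of_le (hE _)] at this
  · obtain ⟨a, ha⟩ := h2 (j (q.symm c).1) t
    exact ⟨aeval (x t) (m (q.symm c)) * a, fun b => by rw [map_mul, ha, mul_assoc]⟩
  · obtain ⟨a, ha⟩ : ∃ a : A, aeval (x t) (u (j a) (l (j a))) ≠ 0 := by
      by_contra hc
      push Not at hc
      have hle : Submodule.span (MvPolynomial s k) (A : Set (MvPolynomial s k)) ≤
          RingHom.ker (aeval (x t) : MvPolynomial s k →ₐ[k] Ω) := Submodule.span_le.2 fun f hf => by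
        have := hc ⟨f, hf⟩
        rwa [show u (j ⟨f, hf⟩) (l (j ⟨f, hf⟩)) = f from hj ⟨f, hf⟩] at this
      exact h3 t (hle (hsp ▸ Submodule.subset_span ⟨t, rfl⟩))
    choose α hα hα' using hx t
    refine ⟨q (a, ⟨α, hα⟩), l (j a), ?_⟩
    simp only [Equiv.symm_apply_apply, map_mul]
    refine mul_ne_zero ?_ ha
    simp only [m, map_prod, map_pow, aeval_X]
    exact Finset.prod_ne_zero_iff.2 fun i _ => pow_ne_zero _ (hα' i)

/-- charts over the big field -/
theorem exists_chart_top (hx : ∀ t i, ∃ v, β v = i ∧ x t v ≠ 0) (hw : ∀ t, w t ≠ 0)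
    (h : Rg (Tav.blk Ω β fun v t => x t v) (crd w)) :
    ∃ (n : ℕ) (e : ι → ℕ) (u : Fin n → τ → MvPolynomial s Ω), IsChart β x w e u := by
  refine exists_fin hx fun t => ?_
  obtain ⟨e, u, hu, l, hl⟩ := exists_prp hw h t
  exact ⟨e, u, hu.1, hu.2, l, hl⟩

omit [Finite s] in
/-- the value at the image under Frobenius -/
theorem eval_F {fr : Ω →+* Ω} {z z' : s → Ω} {c : ι → Ω} (hz : ∀ v, z' v = c (β v) * fr (z v))
    {e : ι → ℕ} {f : MvPolynomial s Ω} (hf : f ∈ Sd Ω β e) :
    eval z' (map fr f) = (∏ i, c i ^ e i) * fr (eval z f) := by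
  rw [funext hz, eval_scale (map_mem_Sd fr hf), De.eval_frob]

/-- charts over the finite field -/
theorem exists_chart [Finite k] [Algebra.IsAlgebraic k Ω] [Finite τ]
    (hx : ∀ t i, ∃ v, β v = i ∧ x t v ≠ 0) (hw : ∀ t, w t ≠ 0) {F : T → T}
    (hF : Function.Surjective F)
    (hxF : ∀ t, ∃ c : ι → Ω, ∀ v, x (F t) v = c (β v) * x t v ^ Nat.card k)
    (hwF : ∀ t, Par (w (F t)) (w t ^ Nat.card k))
    (h : Rg (Tav.blk Ω β fun v t => x t v) (crd w)) :
    ∃ (n : ℕ) (e : ι → ℕ) (u : Fin n → τ → MvPolynomial s k), IsChart β x w e u := by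
  obtain ⟨fr, hfr⟩ := exists_fr k Ω
  refine exists_fin hx fun t => ?_
  obtain ⟨e, u, hu, l, hl⟩ := exists_prp hw h t
  have hV : ∀ u ∈ prp β x w e, (fun l => map fr (u l)) ∈ prp β x w e := by
    refine fun u hu => ⟨fun l => map_mem_Sd fr (hu.1 l), fun t' => ?_⟩
    obtain ⟨t', rfl⟩ := hF t'
    obtain ⟨c, hc⟩ := hxF t'
    obtain ⟨b, hb, hb'⟩ := hwF t'
    obtain ⟨a, ha⟩ := hu.2 t'
    refine ⟨(∏ i, c i ^ e i) * fr a * b⁻¹, fun l => ?_⟩
    rw [eval_F (fun v => by rw [hc, hfr]) (hu.1 l), ha, map_mul, hb', Pi.smul_apply, Pi.pow_apply,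
      smul_eq_mul, ← hfr]
    have := hb.ne_zero
    field_simp
  obtain ⟨φ, hφ⟩ : ∃ φ : Ω →ₗ[k] k, eval (x t) (map (algebraMap k Ω) (cfl φ (u l))) ≠ 0 := by
    by_contra hc
    push Not at hc
    exact hl (mem_of_cfl (k := k) (W := (RingHom.ker (eval (x t))).restrictScalars Ω) hc)
  refine ⟨e, fun l => cfl φ (u l), fun l => cfl_mem_Sd φ (hu.1 l), fun t' => ?_, l, ?_⟩
  · simpa only [aeval_eq_map] using (desc_tuple hfr _ hV φ hu).2 t'
  · rwa [aeval_eq_map]

end Sys

end Pool.Agent.Bav
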