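import Pool.Agent.P.MP_dd457d_ag.Bav.FilB
import Pool.Agent.P.MP_dd457d_ag.Bav.ChartB

/-! Points, the dimension of the variety, and stability under Frobenius. -/

set_option autoImplicit false
set_option linter.unusedSectionVars false

noncomputable section

namespace Pool.Agent.Bav

open MvPolynomial

section Pt
variable {σ k ι : Type} [Field k] {I : Ideal (MvPolynomial σ k)} [DecidableEq ι] [Finite σ]
  [Fintype ι] {Q : Ideal (S σ k ι)} {z : ι × σ → k}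

theorem pt_prime (hQ : GrI Q) (h : ∀ f d, Hg f d → (f ∈ Q ↔ eval z f = 0)) : Q.IsPrime := by
  refine GrW.isPrime hQ (fun e => ?_) fun f g d e hf hg hm => ?_
  · have := (h 1 0 (isWeightedHomogeneous_one k wt)).1 (e ▸ Submodule.mem_top)
    simp at this
  · rw [h _ _ (hf.mul hg), map_mul, mul_eq_zero] at hm
    exact hm.imp (h f d hf).2 (h g e hg).2

theorem pt_not_irr (h : ∀ f d, Hg f d → (f ∈ Q ↔ eval z f = 0)) (hz : ∀ i, ∃ a, z (i, a) ≠ 0) :
    ¬ Irr Q := fun hI => by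
  choose α hα using hz
  obtain ⟨N, hN⟩ := hI α
  rw [h _ _ (basic_hg_mono α N), map_pow, mono, map_prod] at hN
  obtain ⟨i, -, hi⟩ := Finset.prod_eq_zero_iff.1 (eq_zero_of_pow_eq_zero hN)
  exact hα i (by simpa using hi)

theorem pt_hI (h : ∀ f d, Hg f d → (f ∈ Q ↔ eval z f = 0)) (hz : ∀ i, ∃ a, z (i, a) ≠ 0)
    (d : ι → ℕ) : Tav.hI Prod.fst Q d = 1 := by
  choose α hα using hz
  rw [Tav.hI_eq (aeval z : S σ k ι →ₐ[k] k).toLinearMap fun f hf => h f _ (hg_iff_Sd.2 hf)]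
  have h1 : (∏ i, X (i, α i) ^ d i : S σ k ι) ∈ Tav.Sd k Prod.fst d := by
    have h2 := IsWeightedHomogeneous.prod Finset.univ (fun i => (X (i, α i) ^ d i : S σ k ι))
      (fun i => d i • Tav.wN Prod.fst (i, α i)) fun i _ => (isWeightedHomogeneous_X k _ _).pow _
    have e : ∑ i, d i • Tav.wN Prod.fst (i, α i) = d := by
      funext j
      simp [Tav.wN, Finset.sum_apply, Pi.single_apply]
    rwa [e] at h2
  have h3 : (Tav.Sd k Prod.fst d).map (aeval z : S σ k ι →ₐ[k] k).toLinearMap = ⊤ := by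
    refine (eq_bot_or_eq_top _).resolve_left fun e => ?_
    have h4 : aeval z (∏ i, X (i, α i) ^ d i : S σ k ι) ∈ (⊥ : Submodule k k) :=
      e ▸ Submodule.mem_map_of_mem h1
    simp only [map_prod, map_pow, aeval_X, Submodule.mem_bot] at h4
    obtain ⟨i, -, hi⟩ := Finset.prod_eq_zero_iff.1 h4
    exact hα i (eq_zero_of_pow_eq_zero hi)
  rw [h3, finrank_top, Module.finrank_self]

theorem pt_pJ (h : ∀ f d, Hg f d → (f ∈ Q ↔ eval z f = 0)) (hz : ∀ i, ∃ a, z (i, a) ≠ 0) :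
    pJ Q = C 1 :=
  Tav.EvP.hP_eq ((Tav.evP_C 1).congr (Tav.Lg.of_forall fun d => by simp [pt_hI h hz d]))

theorem pt_dim (h : ∀ f d, Hg f d → (f ∈ Q ↔ eval z f = 0)) (hz : ∀ i, ∃ a, z (i, a) ≠ 0) :
    DimJ 1 Q := by
  unfold DimJ
  rw [pt_pJ h hz]
  exact (Tav.dg_C 1).mono (by simp)

theorem IsSh.fix {u : ι → ℤ} {T : Module.End ℂ (G I ι)} (h : IsSh u T) {x : G I ι}
    (hx : x ∈ Fil I ι 1) : T x = x := sub_eq_zero.1 (h.low.apply hx)

theorem pt_chi {χ : G I ι →ₗ[ℂ] ℂ} (hχ : IsChi χ) (hQ : GrI Q) (hF : IX I ι ≤ Q)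
    (h : ∀ f d, Hg f d → (f ∈ Q ↔ eval z f = 0)) (hz : ∀ i, ∃ a, z (i, a) ≠ 0) (n : ι → ℤ) :
    χ (cy I Q n) = 1 := by
  obtain ⟨N, hN⟩ := hχ.lg hQ hF
  have h1 := Pr.shift (j := 0) ⟨hQ, pt_prime hQ h, hF⟩ (pt_dim h hz) (nz fun _ => N) n
  rw [Fil_zero, Submodule.mem_bot, sub_eq_zero] at h1
  rw [h1, hN _ fun _ => le_rfl, pt_pJ h hz, Tav.evN_C, Rat.cast_one]

end Pt

section Dim
variable {K G τ : Type} [Field K] [Finite τ]

theorem fil_hp {T ι : Type} [Fintype ι] (L : ι → Submodule K (T → K)) :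
    Tav.hp L = Tav.pf L := by
  unfold Tav.hp Tav.pf Tav.hP
  congr 1
  funext P
  refine propext (Filter.eventually_atTop.trans ⟨fun ⟨a, ha⟩ => ?_, fun ⟨N, hN⟩ =>
    ⟨fun _ => N, fun d hd => hN d hd⟩⟩)
  obtain ⟨B, hB⟩ := Finite.exists_le a
  exact ⟨B, fun d hd => ha d fun i => (hB i).trans (hd i)⟩

theorem IX_unit (I : Ideal (MvPolynomial τ K)) :
    IX I Unit = I.map (blk () : MvPolynomial τ K →ₐ[K] S τ K Unit) :=
  le_antisymm (IX_le fun _ _ hf => Ideal.mem_map_of_mem _ hf)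
    (Ideal.map_le_iff_le_comap.2 fun _ hf => blk_mem () hf)

theorem IX_unit_prime {I : Ideal (MvPolynomial τ K)} (h : I.IsPrime) : (IX I Unit).IsPrime := by
  rw [IX_unit]
  exact Ideal.map_isPrime_of_equiv (renameEquiv K (Equiv.punitProd τ).symm)

/-- the dimension of the variety -/
theorem dim_of_av [AddCommGroup G] {p : G → τ → K} {g : ℕ} (h : Tav.AV p g)
    {J : Ideal (S τ K Unit)}
    (hJ : ∀ f d, Hg f d → (f ∈ J ↔ ∀ y, eval (fun v => p y v.2) f = 0)) : DimJ (g + 1) J := by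
  let x : Unit × τ → ↥(Set.univ : Set G) → K := fun v y => p y v.2
  have h1 : pJ J = Tav.pf (Tav.blk K Prod.fst x) := by
    refine Tav.pI_eq_pf x (Tav.Lg.of_forall fun d f hf => (hJ f _ (hg_iff_Sd.2 hf)).trans ?_)
    rw [funext_iff]
    refine ⟨fun a y => ?_, fun a y => ?_⟩
    · exact (aeval_fun (fun (y : ↥(Set.univ : Set G)) (v : Unit × τ) => p y v.2) f y).trans (a y)
    · exact (aeval_fun (fun (y : ↥(Set.univ : Set G)) (v : Unit × τ) => p y v.2) f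
        ⟨y, trivial⟩).symm.trans (a ⟨y, trivial⟩)
  have h2 : Tav.blk K Prod.fst x =
      ![Tav.crd fun z : (Set.univ : Set G) => p z] ∘ fun _ : Unit => (0 : Fin 1) := by
    funext i
    refine congrArg (Submodule.span K) (Set.ext fun u => ⟨?_, ?_⟩)
    · rintro ⟨v, -, rfl⟩
      exact ⟨v.2, rfl⟩
    · rintro ⟨l, rfl⟩
      exact ⟨((), l), rfl, rfl⟩
  have h3 : ∀ i, FiniteDimensional K
      ((![Tav.crd fun z : (Set.univ : Set G) => p z] : Fin 1 → _) i) := fun i => by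
    fin_cases i
    exact FiniteDimensional.span_of_finite K (Set.finite_range _)
  unfold DimJ
  rw [h1, h2, Tav.pf_comp _ fun i => ⟨(), Subsingleton.elim _ _⟩, ← fil_hp]
  exact (Tav.Dg.mrg (Tav.dg_iff.2 h.dim.le) _).mono (by omega)

end Dim

section Frob
variable {k Ω s : Type} [Field k] [Finite k] [Field Ω] [Algebra k Ω] [Algebra.IsAlgebraic k Ω]
  [Finite s]

variable (k) in
/-- zero sets are stable under a power of Frobenius -/
theorem exists_stable (P : Ideal (MvPolynomial s Ω)) : ∃ e ≠ 0, ∀ (t : ℕ) (z : s → Ω),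
    (∀ f ∈ P, eval z f = 0) → ∀ f ∈ P, eval (z ^ Nat.card k ^ (e * t)) f = 0 := by
  obtain ⟨fr, hfr⟩ := exists_fr k Ω
  obtain ⟨A, hA⟩ := (isNoetherianRing_iff_ideal_fg _).1 inferInstance P
  obtain ⟨m, hm, h⟩ := Tav.De.per_poly fr hfr A
  refine ⟨m, hm.ne', fun t z hz => ?_⟩
  change P ≤ RingHom.ker (eval (z ^ Nat.card k ^ (m * t)))
  rw [← hA, Ideal.span_le]
  intro f hf
  have h1 : z ^ Nat.card k ^ (m * t) = (fr ^ (m * t)) ∘ z :=
    funext fun v => (Tav.De.iter_pow fr _ hfr _ _).symm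
  change eval _ f = 0
  rw [← Tav.De.per_poly_mul fr (h f hf) t, h1, ← map_eval, hz f (hA ▸ Ideal.subset_span hf), map_zero]

end Frob

theorem fil_par {K G τ : Type} [Field K] {p : G → τ → K} {F : G → G} {q : ℕ}
    (h : ∀ y, Tav.Par (p (F y)) (p y ^ q)) (e : ℕ) (y : G) :
    Tav.Par (p (F^[e] y)) (p y ^ q ^ e) := by
  induction e with
  | zero => exact ⟨1, isUnit_one, by simp⟩
  | succ e ih =>
    obtain ⟨c, hc, h1⟩ := ih
    obtain ⟨c', hc', h2⟩ := h (F^[e] y)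
    refine ⟨c' * c ^ q, hc'.mul (hc.pow q), ?_⟩
    rw [Function.iterate_succ_apply', h2, h1, smul_pow, ← pow_mul, ← pow_succ, mul_smul]

end Pool.Agent.Bav
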