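import Pool.Agent.P.MP_dd457d_ag.Bav.KPt
import Pool.Agent.P.MP_dd457d_ag.Bav.FilC

/-! Products and projections of point sets. -/

set_option autoImplicit false
set_option linter.unusedSectionVars false

noncomputable section

namespace Pool.Agent.Bav

open MvPolynomial Function

variable {σ k ι κ μ τ τ' X : Type} [Field k] [IsAlgClosed k] {I : Ideal (MvPolynomial σ k)}
  [Fintype σ] [Fintype ι] [Fintype κ] [Fintype μ] [Fintype τ] [Fintype τ']

theorem kprod_aux (A : Set (ι × σ → k)) (B : Set (κ × σ → k)) (n : ℕ) :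
    ∀ (a : Fin n → S σ k ι) (b : Fin n → S σ k κ),
      (∀ x ∈ A, ∀ y ∈ B, ∑ i, eval x (a i) * eval y (b i) = 0) →
      ∑ i, rn Sum.inl (a i) * rn Sum.inr (b i) ∈
        ((vanishingIdeal k A).map (rn Sum.inl) ⊔ (vanishingIdeal k B).map (rn Sum.inr) :
          Ideal (S σ k (ι ⊕ κ))) := by
  induction n with
  | zero => intro a b _; simp
  | succ n ih =>
    intro a b h
    simp only [Fin.sum_univ_succ] at h ⊢
    by_cases h0 : ∀ x ∈ A, eval x (a 0) = 0
    · refine add_mem (Ideal.mul_mem_right _ _ (Ideal.mem_sup_left (Ideal.mem_map_of_mem _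
        (mem_vanishingIdeal_iff.2 h0)))) (ih _ _ fun x hx y hy => ?_)
      simpa [h0 x hx] using h x hx y hy
    push Not at h0
    obtain ⟨x0, hx0, hα⟩ := h0
    obtain ⟨c, hc⟩ : ∃ c : Fin n → k, ∀ i, eval x0 (a i.succ) = eval x0 (a 0) * c i :=
      ⟨fun i => eval x0 (a i.succ) / eval x0 (a 0), fun i => by field_simp⟩
    have hb : ∀ y ∈ B, eval y (b 0) + ∑ i, c i * eval y (b i.succ) = 0 := fun y hy => by
      have := h x0 hx0 y hy
      simp only [hc, mul_assoc, ← Finset.mul_sum, ← mul_add] at this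
      exact (mul_eq_zero.1 this).resolve_left hα
    have e : rn Sum.inl (a 0) * rn Sum.inr (b 0) +
        ∑ i : Fin n, rn Sum.inl (a i.succ) * rn Sum.inr (b i.succ) =
        rn Sum.inl (a 0) * rn Sum.inr (b 0 + ∑ i, c i • b i.succ) +
        ∑ i : Fin n, (rn Sum.inl (a i.succ - c i • a 0) * rn Sum.inr (b i.succ) :
          S σ k (ι ⊕ κ)) := by
      simp only [map_add, map_sum, map_sub, map_smul, sub_mul, Finset.sum_sub_distrib, mul_add,
        Finset.mul_sum, smul_mul_assoc, mul_smul_comm]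
      abel
    rw [e]
    refine add_mem (Ideal.mul_mem_left _ _ (Ideal.mem_sup_right (Ideal.mem_map_of_mem _
      (mem_vanishingIdeal_iff.2 fun y hy => ?_)))) (ih _ _ fun x hx y hy => ?_)
    · have := hb y hy
      simpa [coe_aeval_eq_eval] using this
    · have h1 := h x hx y hy
      have h2 := hb y hy
      simp only [map_sub, smul_eval, sub_mul, Finset.sum_sub_distrib]
      have h3 : ∑ i : Fin n, c i * eval x (a 0) * eval y (b i.succ) =
          eval x (a 0) * ∑ i : Fin n, c i * eval y (b i.succ) := by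
        rw [Finset.mul_sum]
        exact Finset.sum_congr rfl fun i _ => by ring
      rw [h3]
      linear_combination h1 - eval x (a 0) * h2

theorem kprod_cmp {f : S σ k ι} {z : ι × σ → k}
    (h : ∀ c : ι → k, eval (fun v => c v.1 * z v) f = 0) (d : ι → ℤ) : eval z (cmp d f) = 0 := by
  classical
  obtain ⟨θ, hθ⟩ : ∃ θ : S σ k ι →ₐ[k] MvPolynomial ι k,
      θ = aeval fun v => C (z v) * MvPolynomial.X v.1 := ⟨_, rfl⟩
  have h1 : ∀ (c : ι → k) g, eval c (θ g) = eval (fun v => c v.1 * z v) g := fun c g => by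
    have : (aeval c).comp θ = aeval fun v => c v.1 * z v := by
      ext1 v
      simp only [hθ, AlgHom.comp_apply, aeval_X, map_mul, aeval_C,
        Algebra.algebraMap_self, RingHom.id_apply]
      ring
    exact AlgHom.congr_fun this g
  have h2 : GrW wt ((⊥ : Ideal (MvPolynomial ι k)).comap θ) :=
    GrW.comap (w' := fun i => Pi.single i 1) (fun d f hf => by
      rw [Ideal.mem_bot.1 hf, map_zero]
      exact zero_mem _) θ (AddMonoidHom.id _) Function.injective_id fun v => by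
      rw [hθ, aeval_X, wt_eq_single]
      exact (isWeightedHomogeneous_X k _ v.1).C_mul _
  have h3 := h2 d f (Ideal.mem_comap.2 (Ideal.mem_bot.2 (MvPolynomial.funext fun c => by
    rw [h1, map_zero]
    exact h c)))
  have h4 := h1 1 (weightedHomogeneousComponent wt d f)
  rw [Ideal.mem_bot.1 (Ideal.mem_comap.1 h3), map_zero] at h4
  simpa only [Pi.one_apply, one_mul] using h4.symm

theorem kprod_isChi : IsChi (chi : G I ι →ₗ[ℂ] ℂ) := fun M =>
  (chi_spec M).mono fun _ h => by rwa [shG_cls] at h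

namespace Geo
variable (Γ : Geo I X) {T T' Z : Set (ι → X)} {W : Set (κ → X)} {J P : Ideal (S σ k ι)}

theorem cone_le (T : Set (ι → X)) :
    vanishingIdeal k {z | ∃ c : ι → k, ∃ t ∈ T, z = fun v => c v.1 * xp Γ.p t v} ≤ Γ.VI T := by
  intro f hf
  obtain ⟨s, hs⟩ := polyA_sum wt f
  rw [← hs]
  refine Ideal.sum_mem _ fun d _ => (Γ.mem_VI
    (weightedHomogeneousComponent_isWeightedHomogeneous d f)).2 fun x hx => ?_
  exact kprod_cmp (fun c => mem_vanishingIdeal_iff.1 hf _ ⟨c, x, hx, rfl⟩) d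

theorem VI_prod (Z : Set (ι → X)) (W : Set (κ → X)) :
    Γ.VI (prodT Z W) = (Γ.VI Z).map (rn Sum.inl) ⊔ (Γ.VI W).map (rn Sum.inr) := by
  apply le_antisymm
  · refine (Γ.grI_VI _).le_of_hom fun f d hd hf => ?_
    obtain ⟨n, a, b, rfl⟩ : ∃ (n : ℕ) (a : Fin n → S σ k ι) (b : Fin n → S σ k κ),
        f = ∑ i, rn Sum.inl (a i) * rn Sum.inr (b i) := by
      clear hf hd
      induction f using boxA_ind with
      | hm f g => exact ⟨1, fun _ => f, fun _ => g, by simp⟩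
      | ha F F' h h' =>
        obtain ⟨n, a, b, rfl⟩ := h
        obtain ⟨n', a', b', rfl⟩ := h'
        exact ⟨n + n', Fin.append a a', Fin.append b b', by simp [Fin.sum_univ_add]⟩
    have hl := sup_le_sup (α := Ideal (S σ k (ι ⊕ κ)))
      (Ideal.map_mono (f := rn Sum.inl) (Γ.cone_le Z))
      (Ideal.map_mono (f := rn Sum.inr) (Γ.cone_le W))
    refine hl (kprod_aux _ _ n a b ?_)
    rintro _ ⟨c, t, ht, rfl⟩ _ ⟨c', t', ht', rfl⟩
    have := Hg.eval_scale hd (Sum.elim c c') (xp Γ.p (Sum.elim t t'))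
    rw [← ev_eq, Γ.ev_of_VI hf (x := Sum.elim t t') ⟨ht, ht'⟩, mul_zero] at this
    simp only [map_sum, map_mul, rn, eval_rename] at this
    exact this
  · refine sup_le (le_trans (Ideal.map_mono (Γ.VI_anti ?_)) (Γ.VI_image_le _ Sum.inl_injective _))
      (le_trans (Ideal.map_mono (Γ.VI_anti ?_)) (Γ.VI_image_le _ Sum.inr_injective _))
    · rintro _ ⟨t, ht, rfl⟩
      exact ht.1
    · rintro _ ⟨t, ht, rfl⟩
      exact ht.2

theorem VI_univ : Γ.VI (Set.univ : Set (ι → X)) = IX I ι :=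
  le_antisymm ((Γ.grI_VI _).le_of_hom fun _ _ hd hf =>
    Γ.idl ▸ mem_IX_of_vanish (p := Γ.p) hd fun t => Γ.ev_of_VI hf (Set.mem_univ t)) (Γ.IX_le_VI _)

theorem box_cT (Z : Set (ι → X)) (W : Set (κ → X)) (n : ι → ℤ) (n' : κ → ℤ) :
    boxG (Γ.cT Z n) (Γ.cT W n') = Γ.cT (prodT Z W) (Sum.elim n n') := by
  rw [cT, cT, cT, boxG_cy (Γ.grI_VI _) (Γ.IX_le_VI _) (Γ.grI_VI _) (Γ.IX_le_VI _), VI_prod]

theorem box_supp {x : G I ι} {y : G I κ} (hx : x ∈ Γ.Supp Z) (hy : y ∈ Γ.Supp W) :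
    boxG x y ∈ Γ.Supp (prodT Z W) := by
  refine kpt_primes (W := (Γ.Supp (prodT Z W)).comap (boxG.flip y)) (fun P n hP hl => ?_) hx
  refine kpt_primes (W := (Γ.Supp (prodT Z W)).comap (boxG (cy I P n))) (fun Q m hQ hl' => ?_) hy
  rw [Submodule.mem_comap, boxG_cy hP.gr hP.le hQ.gr hQ.le]
  refine kpt_cy ?_ _
  rw [VI_prod]
  exact sup_le_sup (Ideal.map_mono hl) (Ideal.map_mono hl')

theorem fgt_supp (u : κ → ι) (hu : Injective u) {x : G I ι} (hx : x ∈ Γ.Supp T) :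
    fgt u hu x ∈ Γ.Supp ((· ∘ u) '' T) := by
  classical
  refine (Submodule.span_le (p := (Γ.Supp ((· ∘ u) '' T)).comap (fgt u hu))).2 ?_ hx
  rintro _ ⟨M, hM, rfl⟩
  refine (Submodule.Quotient.mk_eq_zero (Γ.Supp ((· ∘ u) '' T))).1 (eq_of_ev (x := cls M)
    (F := (Γ.Supp ((· ∘ u) '' T)).mkQ ∘ₗ fgt u hu) (F' := 0) ((fgt_spec u hu M).mono
      fun d hd => ?_))
  obtain ⟨N, j, h⟩ := exists_isPull (reD I u hu d) M
  rw [LinearMap.comp_apply, hd, ← h.cls_eq]
  refine (Submodule.Quotient.mk_eq_zero _).2 (kpt_cls fun f hf => GM.mem_ann.2 fun y => h.inj ?_)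
  rw [h.smul, map_zero, reD_φ]
  exact GM.mem_ann.1 (hM (Γ.VI_image_le u hu T (Ideal.mem_map_of_mem _ hf))) _

theorem mem_VI_point (x : ι → X) (f : S σ k ι) (d : ι → ℤ) (hf : Hg f d) :
    f ∈ Γ.VI {x} ↔ eval (xp Γ.p x) f = 0 := by
  rw [Γ.mem_VI hf]
  exact ⟨fun h => h x rfl, fun h y hy => by
    rw [Set.mem_singleton_iff.1 hy]
    exact h⟩

theorem pt_xp_ne (x : ι → X) (i : ι) : ∃ a, xp Γ.p x (i, a) ≠ 0 := Function.ne_iff.1 (Γ.ne (x i))

theorem chi_point (x : ι → X) (n : ι → ℤ) : chi (Γ.cT {x} n) = 1 := by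
  classical
  exact pt_chi kprod_isChi (Γ.grI_VI _) (Γ.IX_le_VI _) (Γ.mem_VI_point x) (Γ.pt_xp_ne x) n

theorem pr_point (x : ι → X) : Pr I (Γ.VI {x}) := by
  classical
  exact Γ.pr_VI (pt_prime (Γ.grI_VI _) (Γ.mem_VI_point x))

theorem dim_point [DecidableEq ι] (x : ι → X) : DimJ 1 (Γ.VI {x}) :=
  pt_dim (Γ.mem_VI_point x) (Γ.pt_xp_ne x)

theorem cT_point (x : ι → X) (n n' : ι → ℤ) : Γ.cT {x} n = Γ.cT {x} n' := by
  classical
  have h1 := Pr.shift (j := 0) (Γ.pr_point x) (Γ.dim_point x) n' n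
  rwa [Fil_zero, Submodule.mem_bot, sub_eq_zero] at h1

theorem cT_univ (n : ι → ℤ) : Γ.cT (Set.univ : Set (ι → X)) n = cy I (IX I ι) n := by
  rw [cT, VI_univ]

end Geo

theorem prodT_univ : prodT (Set.univ : Set (ι → X)) (Set.univ : Set (κ → X)) = Set.univ :=
  Set.eq_univ_of_forall fun _ => ⟨trivial, trivial⟩

end Pool.Agent.Bav
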