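import Pool.Agent.P.MP_dd457d_ag.Bav.KReg
import Pool.Agent.P.MP_dd457d_ag.Bav.KProd

/-! The direct image along a section. -/

set_option autoImplicit false

noncomputable section

namespace Pool.Agent.Bav

open MvPolynomial Function

variable {σ k ι κ X : Type} [Field k] {I : Ideal (MvPolynomial σ k)}

theorem GrI.colon {J : Ideal (S σ k ι)} (hJ : GrI J) (hF : IX I ι ≤ J) {f : S σ k ι} {e : ι → ℤ}
    (hf : Hg f e) : GrI (J.colon {f}) := by
  obtain ⟨M, x, hx⟩ := exists_cyc hJ hF 0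
  have h1 : M.π (-0 + e) (f • x) = f • x := by rw [M.π_smul hf, hx.deg]
  intro d g hg
  rw [Submodule.mem_colon_singleton, smul_eq_mul, ← hx.ann, mul_smul] at hg ⊢
  rw [← M.π_smul_hom h1, hg, map_zero]

theorem le_colon_one (J : Ideal (S σ k ι)) (f : S σ k ι) : J ≤ J.colon {f} := fun g hg => by
  rw [Submodule.mem_colon_singleton, smul_eq_mul]
  exact J.mul_mem_right _ hg

theorem cy_rec [Finite σ] [Fintype ι] {J : Ideal (S σ k ι)} (hJ : GrI J) (hF : IX I ι ≤ J)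
    {f : S σ k ι} {e : ι → ℤ} (hf : Hg f e) (n : ι → ℤ) :
    cy I J n = cy I (J.colon {f}) (n - e) + cy I (J ⊔ Ideal.span {f}) n := by
  obtain ⟨M, x, hx⟩ := exists_cyc hJ hF n
  have h1 := cls_sub_quo M _ (M.mulHom hf).gr_range
  have h2 : IsCyc (J.colon {f}) (n - e) (M.sub _ (M.mulHom hf).gr_range) ⟨f • x, x, rfl⟩ := by
    refine ⟨Subtype.ext ?_, ?_, fun g => ?_⟩
    · change M.π (-(n - e)) (f • x) = f • x
      rw [show -(n - e) = -n + e by ring, M.π_smul hf, hx.deg]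
    · rintro ⟨_, y, rfl⟩
      obtain ⟨g, rfl⟩ := hx.gen y
      exact ⟨g, Subtype.ext (smul_comm f g x)⟩
    · rw [Submodule.mem_colon_singleton, smul_eq_mul, ← hx.ann, mul_smul]
      exact Subtype.ext_iff
  have h3 := (hx.image (J' := Ideal.span {f}) (M.quop _ (M.mulHom hf).gr_range)
    (Submodule.mkQ_surjective _) fun y => by
      rw [Submodule.ideal_span_singleton_smul, Submodule.mem_smul_pointwise_iff_exists]
      refine (Submodule.Quotient.mk_eq_zero _).trans ⟨?_, ?_⟩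
      · rintro ⟨z, hz⟩
        exact ⟨z, trivial, hz⟩
      · rintro ⟨z, -, hz⟩
        exact ⟨z, hz⟩).cls_eq
  rw [← hx.cls_eq, h1, h2.cls_eq, h3]

namespace Geo

/-- a chart of a section, as a substitution -/
structure CH (Γ : Geo I X) (u : κ → ι) (ψ : (κ → X) → ι → X) where
  θ : S σ k ι →ₐ[k] S σ k κ
  v : (ι → ℤ) →+ (κ → ℤ)
  Λ : (κ → X) → (ι → ℤ) → k
  hg : ∀ g d, Hg g d → Hg (θ g) (v d)
  rn : ∀ f, θ (rn u f) = f
  ev : ∀ y g d, Hg g d → Γ.ev y (θ g) = Λ y d * Γ.ev (ψ y) g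

variable [IsAlgClosed k] [Fintype σ] [Fintype ι] [Fintype κ] {Γ : Geo I X} {u : κ → ι}
  {ψ : (κ → X) → ι → X}

omit [IsAlgClosed k] [Fintype σ] [Fintype ι] [Fintype κ] in
theorem gr_ev (Γ : Geo I X) (x : ι → X) (f : S σ k ι) :
    Γ.ev x f = eval (fun v => Γ.p (x v.1) v.2) f := by
  rw [ev, aeval_eq_eval]

theorem Sec.exists_ch (h : Γ.Sec u ψ) (y₀ : κ → X) :
    ∃ c : CH Γ u ψ, ∀ d, c.Λ y₀ d ≠ 0 := by
  classical
  have H : ∀ i, ∃ (Q : σ → S σ k κ) (e : κ → ℤ) (l : (κ → X) → k), (∀ a, Hg (Q a) e) ∧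
      (∀ y a, Γ.ev y (Q a) = l y * Γ.p (ψ y i) a) ∧ l y₀ ≠ 0 ∧
      ∀ j, u j = i → ∀ a, Q a = MvPolynomial.X (j, a) := by
    intro i
    by_cases hi : ∃ j, u j = i
    · obtain ⟨j, rfl⟩ := hi
      refine ⟨fun a => MvPolynomial.X (j, a), Pi.single j 1, fun _ => 1, fun a => ?_,
        fun y a => ?_, one_ne_zero, fun j' e a => by rw [h.inj e]⟩
      · have := hg_X (k := k) (j, a)
        rwa [wt_eq_single] at this
      · rw [Γ.ev_X, one_mul, h.sec]
    · obtain ⟨D, hD⟩ := (h.reg i).exists_td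
      obtain ⟨c, a, hc⟩ := hD.exists_ne y₀
      choose l hl using hD c
      refine ⟨D.P c, D.e c, l, D.hg c, hl, fun h0 => hc ?_, fun j e => absurd ⟨j, e⟩ hi⟩
      rw [hl, h0, zero_mul]
  choose Q e l hQ hl h0 hu using H
  let v : (ι → ℤ) →+ (κ → ℤ) :=
    { toFun := fun d => ∑ i, d i • e i
      map_zero' := by simp
      map_add' := fun d d' => by simp [add_smul, Finset.sum_add_distrib] }
  have hv : ∀ s : ι × σ, v (wt s) = e s.1 := fun s => by
    change ∑ i, wt s i • e i = _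
    rw [Finset.sum_eq_single s.1 (fun i _ hi => by rw [wt_apply, if_neg hi, zero_smul])
      (fun h => absurd (Finset.mem_univ _) h), wt_apply, if_pos rfl, one_smul]
  refine ⟨⟨aeval fun s => Q s.1 s.2, v, fun y d => ∏ i, l i y ^ (d i).toNat,
    fun g d hg => hom_map _ v (fun s => ?_) hg, fun f => ?_, fun y g d hg => ?_⟩,
    fun d => Finset.prod_ne_zero_iff.2 fun i _ => pow_ne_zero _ (h0 i)⟩
  · rw [aeval_X, hv]
    exact hQ _ _
  · have : (aeval fun s : ι × σ => Q s.1 s.2).comp (Bav.rn u) = AlgHom.id k (S σ k κ) :=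
      algHom_ext fun s => by
        rw [AlgHom.comp_apply, rn_X, aeval_X, AlgHom.id_apply]
        exact hu _ _ rfl _
    exact DFunLike.congr_fun this f
  · have e1 : (Γ.ev y).comp (aeval fun s : ι × σ => Q s.1 s.2) =
        aeval fun s : ι × σ => l s.1 y * Γ.p (ψ y s.1) s.2 :=
      algHom_ext fun s => by rw [AlgHom.comp_apply, aeval_X, aeval_X, hl]
    have e2 := DFunLike.congr_fun e1 g
    rw [AlgHom.comp_apply, aeval_eq_eval] at e2
    rw [e2, gr_ev]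
    exact hg.eval_scale (fun i => l i y) _

theorem exists_hg_ne (x : ι → X) {g : S σ k ι} {d : ι → ℤ} (hg : Hg g d) (h0 : g ≠ 0) :
    ∃ m : S σ k ι, Hg m d ∧ Γ.ev x m ≠ 0 := by
  classical
  obtain ⟨n, rfl⟩ := hg.exists_nz h0
  choose b hb using fun i => Function.ne_iff.1 (Γ.ne (x i))
  refine ⟨∏ i, MvPolynomial.X (i, b i) ^ n i, ?_, ?_⟩
  · have h := IsWeightedHomogeneous.prod Finset.univ
      (fun i => (MvPolynomial.X (i, b i) ^ n i : S σ k ι))
      (fun i => n i • wt (i, b i)) fun i _ => (hg_X _).pow _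
    have e : ∑ i, n i • wt (i, b i) = nz n := by
      funext l
      simp [Finset.sum_apply, wt_apply, nz]
    rwa [e] at h
  · rw [map_prod]
    exact Finset.prod_ne_zero_iff.2 fun i _ => by
      rw [map_pow, Γ.ev_X]
      exact pow_ne_zero _ (hb i)

theorem Sec.cl_range {Γ : Geo I X} (h : Γ.Sec u ψ) : Γ.Cl (Set.range ψ) := by
  have e : Set.range ψ = {x | x ∘ id = ψ (x ∘ u)} := by
    ext x
    constructor
    · rintro ⟨y, rfl⟩
      have : ψ y ∘ u = y := funext (h.sec y)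
      change ψ y = ψ (ψ y ∘ u)
      rw [this]
    · exact fun hx => ⟨_, Eq.symm hx⟩
  rw [e]
  exact Γ.cl_eq (Γ.regM_rm id) (h.reg.comp (Γ.regM_rm u))

theorem Sec.gr_gr (h : Γ.Sec u ψ) {K : Ideal (S σ k κ)} (hK : GrI K) :
    GrI (K.map (Bav.rn u) ⊔ Γ.VI (Set.range ψ)) := GrW.sup (hK.map_rn h.inj) (Γ.grI_VI _)

theorem gr_le (K : Ideal (S σ k κ)) : IX I ι ≤ K.map (Bav.rn u) ⊔ Γ.VI (Set.range ψ) :=
  (Γ.IX_le_VI _).trans le_sup_right

theorem CH.mem (c : CH Γ u ψ) {K : Ideal (S σ k κ)} (hF : IX I κ ≤ K) {g : S σ k ι}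
    (hg : g ∈ K.map (Bav.rn u) ⊔ Γ.VI (Set.range ψ)) : c.θ g ∈ K := by
  refine (sup_le ?_ ?_ : _ ≤ K.comap c.θ) hg
  · rw [Ideal.map_le_iff_le_comap]
    intro f hf
    rw [Ideal.mem_comap, Ideal.mem_comap, c.rn]
    exact hf
  · refine (Γ.grI_VI _).le_of_hom fun f d hf hm => ?_
    rw [Ideal.mem_comap]
    refine hF ?_
    rw [← Γ.VI_univ, Γ.mem_VI (c.hg f d hf)]
    intro y _
    rw [c.ev y f d hf, Γ.ev_of_VI hm ⟨y, rfl⟩, mul_zero]

theorem Sec.sat (h : Γ.Sec u ψ) {K : Ideal (S σ k κ)} (hK : GrI K) {g : S σ k ι} {d : ι → ℤ}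
    (hg : Hg g d) (H : ∀ c : CH Γ u ψ, c.θ g ∈ K) (α : ι → σ) :
    ∃ N : ℕ, mono k α ^ N * g ∈ K.map (Bav.rn u) ⊔ Γ.VI (Set.range ψ) := by
  by_cases h0 : g = 0
  · exact ⟨0, by rw [h0, mul_zero]; exact Ideal.zero_mem _⟩
  have hi : Irr ((K.map (Bav.rn u) ⊔ Γ.VI (Set.range ψ)).colon {g}) := by
    rw [Γ.irr_iff ((h.gr_gr hK).colon (gr_le K) hg) ((gr_le K).trans (le_colon_one _ _)),
      Set.eq_empty_iff_forall_notMem]
    intro x hx
    obtain ⟨y, rfl⟩ := h.cl_range (Γ.ZS_anti (le_sup_right.trans (le_colon_one _ _)) hx)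
    obtain ⟨c, hc⟩ := h.exists_ch y
    obtain ⟨m, hm, hm0⟩ := exists_hg_ne (Γ := Γ) (ψ y) hg h0
    have e : ∀ z, ψ z ∘ u = z := fun z => funext (h.sec z)
    have h1 : Bav.rn u (c.θ m) * g - Bav.rn u (c.θ g) * m ∈ Γ.VI (Set.range ψ) := by
      rw [Γ.mem_VI (poly_hg_sub ((hg_rn h.inj (c.hg m d hm)).mul hg)
        ((hg_rn h.inj (c.hg g d hg)).mul hm))]
      rintro _ ⟨z, rfl⟩
      rw [map_sub, map_mul, map_mul, Γ.ev_rn, Γ.ev_rn, e, c.ev z m d hm, c.ev z g d hg]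
      ring
    have h2 : Bav.rn u (c.θ m) ∈ (K.map (Bav.rn u) ⊔ Γ.VI (Set.range ψ)).colon {g} := by
      rw [Submodule.mem_colon_singleton, smul_eq_mul, ← sub_add_cancel (_ * g) (Bav.rn u (c.θ g) * m)]
      exact Ideal.add_mem _ (Ideal.mem_sup_right h1)
        (Ideal.mem_sup_left (Ideal.mul_mem_right _ _ (Ideal.mem_map_of_mem _ (H c))))
    have h3 := hx _ h2
    rw [Γ.ev_rn, e, c.ev y m d hm] at h3
    exact mul_ne_zero (hc d) hm0 h3
  obtain ⟨N, hN⟩ := hi α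
  exact ⟨N, by rwa [Submodule.mem_colon_singleton, smul_eq_mul] at hN⟩

theorem Sec.grs_cy {Γ : Geo I X} (h : Γ.Sec u ψ) {J : Ideal (S σ k κ)} (hJ : GrI J)
    (hF : IX I κ ≤ J) (n : κ → ℤ) : Γ.grs u ψ (cy I J n) =
      cy I (J.map (rn u) ⊔ Γ.VI (Set.range ψ)) (extend u n 0) := by
  have H := exists_univ (I := I)
    (fun (J : Ideal (S σ k κ)) n => cy I (J.map (rn u) ⊔ Γ.VI (Set.range ψ)) (extend u n 0))
    (fun J f e n hJ hF hf => by
      have e1 : extend u (n - e) (0 : ι → ℤ) = extend u n 0 - extend u e 0 :=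
        map_sub (polyExt h.inj) n e
      rw [cy_rec (h.gr_gr hJ) (gr_le J) (hg_rn h.inj hf), e1, Ideal.map_sup, Ideal.map_span,
        Set.image_singleton, sup_right_comm]
      congr 1
      refine (cy_eq_of_sat (h.gr_gr (hJ.colon hF hf))
        ((h.gr_gr hJ).colon (gr_le J) (hg_rn h.inj hf)) (gr_le _) (sup_le ?_ ?_)
        (fun g d hg hm => h.sat (hJ.colon hF hf) hg fun c => ?_) _).symm
      · rw [Ideal.map_le_iff_le_comap]
        intro g hg
        rw [Submodule.mem_colon_singleton, smul_eq_mul] at hg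
        rw [Ideal.mem_comap, Submodule.mem_colon_singleton, smul_eq_mul, ← map_mul]
        exact Ideal.mem_sup_left (Ideal.mem_map_of_mem _ hg)
      · exact le_sup_right.trans (le_colon_one _ _)
      · rw [Submodule.mem_colon_singleton, smul_eq_mul] at hm ⊢
        have := c.mem hF hm
        rwa [map_mul, c.rn] at this)
    (fun J n hJ hF hi => cy_irr (by
      rw [Γ.irr_iff (h.gr_gr hJ) (gr_le J), Set.eq_empty_iff_forall_notMem]
      intro x hx
      have := Γ.ZS_anti le_sup_left hx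
      rw [Γ.ZS_map_rn, (Γ.irr_iff hJ hF).1 hi] at this
      exact this) _)
  exact Classical.epsilon_spec (p := fun F : G I κ →ₗ[ℂ] G I ι => ∀ J n, GrI J → IX I κ ≤ J →
    F (cy I J n) = cy I (J.map (rn u) ⊔ Γ.VI (Set.range ψ)) (extend u n 0)) H J n hJ hF

theorem Sec.grs_cT {Γ : Geo I X} (h : Γ.Sec u ψ) (W : Set (κ → X)) (n : κ → ℤ) :
    Γ.grs u ψ (Γ.cT W n) = Γ.cT (ψ '' W) (extend u n 0) := by
  rw [cT, h.grs_cy (Γ.grI_VI _) (Γ.IX_le_VI _), cT]
  refine cy_eq_of_sat (h.gr_gr (Γ.grI_VI _)) (Γ.grI_VI _) (gr_le _) (sup_le ?_ ?_)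
    (fun g d hg hm => h.sat (Γ.grI_VI _) hg fun c => ?_) _
  · rw [Γ.le_VI ((Γ.grI_VI _).map_rn h.inj), Γ.ZS_map_rn]
    rintro _ ⟨y, hy, rfl⟩ f hf
    rw [show ψ y ∘ u = y from funext (h.sec y)]
    exact Γ.ev_of_VI hf hy
  · exact Γ.VI_anti (Set.image_subset_range _ _)
  · rw [Γ.mem_VI (c.hg g d hg)]
    intro y hy
    rw [c.ev y g d hg, Γ.ev_of_VI hm ⟨y, hy, rfl⟩, mul_zero]

theorem Sec.grs_supp {W : Set (κ → X)} {Γ : Geo I X} (h : Γ.Sec u ψ) (hW : Γ.Cl W) {y : G I κ}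
    (hy : y ∈ Γ.Supp W) : Γ.grs u ψ y ∈ Γ.Supp (ψ '' W) :=
  Γ.supp_ind hW (V := (Γ.Supp (ψ '' W)).comap (Γ.grs u ψ)) (fun Z n hZ _ _ _ => by
    rw [Submodule.mem_comap, h.grs_cT]
    exact Γ.cT_mem_supp (Set.image_mono hZ) _) hy

theorem Sec.exists_grs {Γ : Geo I X} (h : Γ.Sec u ψ) {x : G I ι}
    (hx : x ∈ Γ.Supp (Set.range ψ)) : ∃ y, Γ.grs u ψ y = x := by
  classical
  have key : ∀ J : Ideal (S σ k ι), Γ.VI (Set.range ψ) ≤ J →
      Sup I J ≤ LinearMap.range (Γ.grs u ψ) := by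
    intro J
    induction J using IsNoetherian.induction with
    | hgt J ih =>
    intro hJ
    refine sup_le_of_primes fun P n hP hl => ?_
    rcases hl.lt_or_eq with hlt | rfl
    · exact ih P hlt (hJ.trans hl) (cy_mem_sup le_rfl n)
    by_cases hi : Irr J
    · rw [cy_irr hi]
      exact Submodule.zero_mem _
    obtain ⟨α, hα⟩ := exists_var_notMem hP.prime hi
    have h1 := cy_shift (e := (LinearMap.range (Γ.grs u ψ)).mkQ) hP.gr hP.prime hP.le α hα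
      (fun i => sup_le_iff.1 (ih _ (lt_of_le_of_ne le_sup_left fun e => hα i
        (e ▸ Ideal.mem_sup_right (Ideal.mem_span_singleton_self _))) (hJ.trans le_sup_left))) n
      (extend u 0 0)
    have h2 : Γ.ZS J ⊆ Set.range ψ := fun z hz => h.cl_range (Γ.ZS_anti hJ hz)
    have h3 := h.grs_cT (ψ ⁻¹' Γ.ZS J) 0
    rw [Set.image_preimage_eq_of_subset h2, cT, cT, Γ.VI_ZS hP hi] at h3
    rw [← Submodule.Quotient.mk_eq_zero, ← Submodule.mkQ_apply, h1, Submodule.mkQ_apply,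
      Submodule.Quotient.mk_eq_zero]
    exact ⟨_, h3⟩
  exact key _ le_rfl hx

end Geo

end Pool.Agent.Bav
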