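import Pool.Agent.P.MP_dd457d_ag.Bav.ChartC
import Pool.Agent.P.MP_dd457d_ag.Bav.Tw

/-! Twist data that represent a map on points. -/

set_option autoImplicit false

noncomputable section

namespace Pool.Agent.Bav

open MvPolynomial Pool.Agent.Tav

variable {Ω G σ ι τ : Type} [Field Ω] {p : G → σ → Ω} [Fintype ι]

/-- the charts of `D` are parallel to `w` at all points -/
def TD.Rp (D : TD (idl p) ι τ) (w : (ι → G) → τ → Ω) : Prop :=
  ∀ c t, ∃ a : Ω, ∀ l, eval (xp p t) (D.P c l) = a * w t l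

theorem TD.Rp.par {D : TD (idl p) ι τ} {w w' : (ι → G) → τ → Ω} (h : D.Rp w)
    (hw : ∀ t, ∃ b : Ω, w t = b • w' t) : D.Rp w' := fun c t => by
  obtain ⟨a, ha⟩ := h c t
  obtain ⟨b, hb⟩ := hw t
  exact ⟨a * b, fun l => by rw [ha, hb, Pi.smul_apply, smul_eq_mul, mul_assoc]⟩

theorem TD.Rp.minor {D D' : TD (idl p) ι τ} {w : (ι → G) → τ → Ω} (h : D.Rp w) (h' : D'.Rp w)
    (c : D.C) (c' : D'.C) (a b : τ) : D.P c a * D'.P c' b - D.P c b * D'.P c' a ∈ IX (idl p) ι :=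
  minor_mem (D.hg c) (D'.hg c') (h c) (h' c') a b

/-- some chart is nonzero at a given point -/
theorem TD.cov_pts (hne : ∀ x, p x ≠ 0) (D : TD (idl p) ι τ) (t : ι → G) :
    ∃ c l, eval (xp p t) (D.P c l) ≠ 0 := by
  by_contra hc
  push Not at hc
  choose α hα using fun i => Function.ne_iff.1 (hne (t i))
  obtain ⟨N, hN⟩ := D.irr α
  have hle : IX (idl p) ι ⊔ Ideal.span {f | ∃ c a, f = D.P c a} ≤ RingHom.ker (eval (xp p t)) :=
    sup_le (fun f hf => eval_of_mem_IX hf t) (Ideal.span_le.2 (by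
      rintro _ ⟨c, a, rfl⟩
      exact hc c a))
  have h0 := hle hN
  rw [RingHom.mem_ker, map_pow, mono, map_prod] at h0
  simp only [eval_X] at h0
  exact pow_ne_zero N (Finset.prod_ne_zero_iff.2 fun i _ => hα i) h0

variable [Finite σ]

theorem TD.Rp.L_eq [Fintype τ] {D D' : TD (idl p) ι τ} {w : (ι → G) → τ → Ω} (h : D.Rp w)
    (h' : D'.Rp w) : D.L = D'.L := D.L_congr D' (h.minor h')

/-- a regular map is represented by twist data of one multidegree -/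
theorem exists_td_pts [IsAlgClosed Ω] (hne : ∀ x, p x ≠ 0)
    (cl : ∀ z ∈ zeroLocus Ω (idl p), z ≠ 0 → ∃ x, Par z (p x)) {w : (ι → G) → τ → Ω}
    (hw : ∀ t, w t ≠ 0) (h : Rg (fun i => crd fun t : ι → G => p (t i)) (crd w)) :
    ∃ D : TD (idl p) ι τ, D.Rp w ∧ ∃ e : ι → ℕ, ∀ c, D.e c = fun i => (e i : ℤ) := by
  obtain ⟨n, e, u, h1, h2, h3⟩ := exists_charts hne hw h
  exact ⟨⟨Fin n, u, fun _ i => e i, h1,
    fun c c' a b => minor_mem (h1 c) (h1 c') (h2 c) (h2 c') a b, irr_charts cl h1 h3⟩,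
    h2, e, fun _ => rfl⟩

end Pool.Agent.Bav
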