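import Pool.Agent.P.MP_dd457d_ag.Bav.KDefs
import Pool.Agent.P.MP_dd457d_ag.Bav.ChartE

/-! Regular maps between powers. -/

set_option autoImplicit false

noncomputable section

namespace Pool.Agent.Bav

open MvPolynomial Function

variable {σ k ι κ μ τ τ' X : Type} [Field k] [IsAlgClosed k] {I : Ideal (MvPolynomial σ k)}
  [Fintype σ] [Fintype ι] [Fintype κ] [Fintype μ] [Fintype τ] [Fintype τ']

namespace Geo
variable (Γ : Geo I X) {W : Set (κ → X)}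

variable {f f₁ : (ι → X) → τ → k} {f' : (ι → X) → τ' → k} {φ φ' : (ι → X) → κ → X}

omit [IsAlgClosed k] [Fintype σ] [Fintype ι] in
theorem reg_ev (x : ι → X) (u : S σ k ι) : Γ.ev x u = eval (xp Γ.p x) u := rfl

omit [Fintype τ] in
theorem RegF.exists_td {Γ : Geo I X} (h : Γ.RegF f) : ∃ D : TD I ι τ, Γ.IsCh D f := by
  obtain ⟨p, ne, inj, rfl, cl⟩ := Γ
  obtain ⟨D, hD, -⟩ := exists_td_pts ne cl h.ne h.rg
  exact ⟨D, hD⟩

omit [Fintype τ] in
/-- charts of one multidegree -/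
theorem RegF.exists_td' {Γ : Geo I X} (h : Γ.RegF f) :
    ∃ D : TD I ι τ, Γ.IsCh D f ∧ ∃ e : ι → ℕ, ∀ c, D.e c = fun i => (e i : ℤ) := by
  obtain ⟨p, ne, inj, rfl, cl⟩ := Γ
  exact exists_td_pts ne cl h.ne h.rg

omit [IsAlgClosed k] [Fintype σ] [Fintype τ] in
theorem td_ne (D : TD I ι τ) (x : ι → X) : ∃ c a, Γ.ev x (D.P c a) ≠ 0 := by
  obtain ⟨p, ne, inj, rfl, cl⟩ := Γ
  exact D.cov_pts ne x

omit [IsAlgClosed k] [Fintype σ] [Fintype τ] in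
theorem IsCh.exists_ne {Γ : Geo I X} {D : TD I ι τ} (_h : Γ.IsCh D f) (x : ι → X) :
    ∃ c a, Γ.ev x (D.P c a) ≠ 0 := Γ.td_ne D x

omit [IsAlgClosed k] [Fintype σ] in
theorem regF_proj (i : ι) : Γ.RegF fun x : ι → X => Γ.p (x i) :=
  ⟨fun _ => Γ.ne _, rg_self (fun i => Tav.crd fun t : ι → X => Γ.p (t i)) i⟩

omit [IsAlgClosed k] [Fintype σ] [Fintype τ] in
theorem regF_const {z : τ → k} (hz : z ≠ 0) : Γ.RegF fun _ : ι → X => z :=
  ⟨fun _ => hz, rg_const _ z⟩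

omit [IsAlgClosed k] [Fintype σ] [Fintype τ] in
theorem RegF.comp {Γ : Geo I X} {g : (κ → X) → τ → k} (h : Γ.RegF g) (hφ : Γ.RegM φ) :
    Γ.RegF fun x => g (φ x) := by
  refine ⟨fun x => h.ne _, ?_⟩
  rw [← crd_pb g φ]
  exact rg_comp φ h.rg fun b => by
    rw [crd_pb (fun t : κ → X => Γ.p (t b)) φ]
    exact (hφ b).rg

omit [IsAlgClosed k] [Fintype ι] [Fintype τ] [Fintype τ'] in
theorem crd_seg (f : (ι → X) → τ → k) (f' : (ι → X) → τ' → k) :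
    Tav.crd (fun x (a : τ × τ') => f x a.1 * f' x a.2) = Tav.crd f * Tav.crd f' := by
  unfold Tav.crd
  rw [Submodule.span_mul_span]
  congr 1
  ext u
  constructor
  · rintro ⟨a, rfl⟩
    exact ⟨_, ⟨a.1, rfl⟩, _, ⟨a.2, rfl⟩, rfl⟩
  · rintro ⟨_, ⟨a, rfl⟩, _, ⟨b, rfl⟩, rfl⟩
    exact ⟨(a, b), rfl⟩

omit [IsAlgClosed k] [Fintype σ] [Fintype τ] [Fintype τ'] in
theorem RegF.seg {Γ : Geo I X} (h : Γ.RegF f) (h' : Γ.RegF f') :
    Γ.RegF fun x (a : τ × τ') => f x a.1 * f' x a.2 := by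
  refine ⟨fun x h0 => ?_, rg_crd fun t => ?_⟩
  · obtain ⟨a, ha⟩ := Function.ne_iff.1 (h.ne x)
    obtain ⟨b, hb⟩ := Function.ne_iff.1 (h'.ne x)
    exact mul_ne_zero ha hb (congrFun h0 (a, b))
  · obtain ⟨e, c, hc, h1⟩ := h.rg t
    obtain ⟨e', c', hc', h2⟩ := h'.rg t
    refine ⟨e + e', c * c', hc.mul hc', fun a => ?_⟩
    have := Submodule.mul_mem_mul (h1 _ (mem_crd f a.1)) (h2 _ (mem_crd f' a.2))
    rw [← Finset.prod_mul_distrib, mul_mul_mul_comm] at this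
    simp only [Pi.add_apply, pow_add]
    exact this

omit [IsAlgClosed k] [Fintype σ] [Fintype τ] [Fintype τ'] in
theorem RegF.of_crd {Γ : Geo I X} (h : Γ.RegF f) (hne : ∀ x, f' x ≠ 0) {c : (ι → X) → k}
    (hc : ∀ x, c x ≠ 0) (hm : ∀ b, (c * fun x => f' x b) ∈ Tav.crd f) : Γ.RegF f' := by
  refine ⟨hne, rg_crd fun t => ?_⟩
  obtain ⟨e, c', hc', h1⟩ := h.rg t
  exact ⟨e, c' * c, hc'.mul (hc t).isUnit, fun b => by
    rw [mul_assoc]
    exact h1 _ (hm b)⟩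

omit [IsAlgClosed k] [Fintype σ] [Fintype κ] in
theorem regM_rm (v : κ → ι) : Γ.RegM fun x : ι → X => x ∘ v := fun j => Γ.regF_proj (v j)

omit [IsAlgClosed k] [Fintype σ] [Fintype κ] in
theorem regM_const (o : κ → X) : Γ.RegM fun _ : ι → X => o := fun j => Γ.regF_const (Γ.ne (o j))

omit [IsAlgClosed k] [Fintype σ] [Fintype μ] in
theorem RegM.comp {Γ : Geo I X} {ψ : (κ → X) → μ → X} (h : Γ.RegM ψ) (hφ : Γ.RegM φ) :
    Γ.RegM fun x => ψ (φ x) := fun j => (h j).comp hφ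

omit [IsAlgClosed k] [Fintype σ] [Fintype κ] [Fintype μ] in
theorem RegM.elim {Γ : Geo I X} {ψ : (ι → X) → μ → X} (hφ : Γ.RegM φ) (h : Γ.RegM ψ) :
    Γ.RegM fun x => Sum.elim (φ x) (ψ x) := by
  rintro (j | j)
  exacts [hφ j, h j]

omit [IsAlgClosed k] [Fintype σ] [Fintype ι] in
theorem reg_mem_VI {T : Set (ι → X)} {u : S σ k ι} {d : ι → ℤ} (hu : Hg u d) :
    u ∈ Γ.VI T ↔ ∀ x ∈ T, Γ.ev x u = 0 := by
  unfold VI
  rw [mem_core hu]
  simp only [Ideal.mem_iInf, RingHom.mem_ker]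

omit [IsAlgClosed k] [Fintype σ] [Fintype ι] in
/-- a set is closed if every point outside is separated from it by a form -/
theorem cl_of_sep {T : Set (ι → X)} (h : ∀ x ∉ T, ∃ (u : S σ k ι) (d : ι → ℤ), Hg u d ∧
    (∀ y ∈ T, Γ.ev y u = 0) ∧ Γ.ev x u ≠ 0) : Γ.Cl T := by
  intro x hx
  by_contra hc
  obtain ⟨u, d, hu, h0, h1⟩ := h x hc
  exact h1 (hx u ((Γ.reg_mem_VI hu).2 h0))

omit [IsAlgClosed k] [Fintype σ] [Fintype ι] in
theorem Cl.sep {Γ : Geo I X} {T : Set (ι → X)} (h : Γ.Cl T) {x : ι → X} (hx : x ∉ T) :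
    ∃ (u : S σ k ι) (d : ι → ℤ), Hg u d ∧ (∀ y ∈ T, Γ.ev y u = 0) ∧ Γ.ev x u ≠ 0 := by
  by_contra hc
  push Not at hc
  refine hx (h fun u hu => ?_)
  have hle : Γ.VI T ≤ RingHom.ker (Γ.ev x) := Ideal.span_le.2 (by
    rintro v ⟨hv, d, hd⟩
    refine hc v d hd fun y hy => ?_
    simp only [Ideal.mem_iInf, RingHom.mem_ker] at hv
    exact hv y hy)
  exact hle hu

omit [IsAlgClosed k] [Fintype σ] [Fintype ι] [Fintype τ] in
theorem reg_par_minor {z z' : τ → k} (hz : z ≠ 0) (hz' : z' ≠ 0)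
    (h : ∀ a b, z a * z' b = z b * z' a) : Tav.Par z z' := by
  obtain ⟨a, ha⟩ := Function.ne_iff.1 hz
  obtain ⟨b, hb⟩ := Function.ne_iff.1 hz'
  have ha' : z a ≠ 0 := ha
  have hb' : z' b ≠ 0 := hb
  have h1 : z b ≠ 0 := fun h0 => mul_ne_zero ha' hb' (by rw [h, h0, zero_mul])
  refine ⟨z b / z' b, (div_ne_zero h1 hb').isUnit, funext fun c => ?_⟩
  rw [Pi.smul_apply, smul_eq_mul, div_mul_eq_mul_div, eq_div_iff hb', h]

omit [Fintype τ] in
/-- the locus where two regular maps to a projective space agree is closed -/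
theorem cl_par (h : Γ.RegF f) (h₁ : Γ.RegF f₁) : Γ.Cl {x | Tav.Par (f x) (f₁ x)} := by
  obtain ⟨D, hD⟩ := h.exists_td
  obtain ⟨D', hD'⟩ := h₁.exists_td
  refine Γ.cl_of_sep fun x hx => ?_
  obtain ⟨c, a, ha⟩ := hD.exists_ne x
  obtain ⟨c', a', ha'⟩ := hD'.exists_ne x
  obtain ⟨l, hl⟩ := hD c x
  obtain ⟨l', hl'⟩ := hD' c' x
  have h1 : l ≠ 0 := fun h0 => ha (by rw [hl, h0, zero_mul])
  have h2 : l' ≠ 0 := fun h0 => ha' (by rw [hl', h0, zero_mul])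
  obtain ⟨b, b', hb⟩ : ∃ b b', f x b * f₁ x b' ≠ f x b' * f₁ x b := by
    by_contra hc
    push Not at hc
    exact hx (reg_par_minor (h.ne x) (h₁.ne x) hc)
  refine ⟨D.P c b * D'.P c' b' - D.P c b' * D'.P c' b, _,
    poly_hg_sub ((D.hg c b).mul (D'.hg c' b')) ((D.hg c b').mul (D'.hg c' b)), ?_, ?_⟩
  · rintro y ⟨r, -, hr⟩
    obtain ⟨m, hm⟩ := hD c y
    obtain ⟨m', hm'⟩ := hD' c' y
    simp only [map_sub, map_mul, hm, hm', hr, Pi.smul_apply, smul_eq_mul]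
    ring
  · simp only [map_sub, map_mul, hl, hl']
    intro h0
    refine hb (mul_left_cancel₀ (mul_ne_zero h1 h2) ?_)
    linear_combination h0

omit [Fintype κ] in
theorem cl_eq (h : Γ.RegM φ) (h' : Γ.RegM φ') : Γ.Cl {x | φ x = φ' x} := by
  refine Γ.cl_of_sep fun x hx => ?_
  obtain ⟨j, hj⟩ := Function.ne_iff.1 hx
  obtain ⟨u, d, hu, h0, h1⟩ := (Γ.cl_par (h j) (h' j)).sep (x := x) fun hp => hj (Γ.inj _ _ hp)
  refine ⟨u, d, hu, fun y hy => h0 y ?_, h1⟩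
  change Tav.Par (Γ.p (φ y j)) (Γ.p (φ' y j))
  rw [show φ y = φ' y from hy]
  exact ⟨1, isUnit_one, (one_smul _ _).symm⟩

omit [IsAlgClosed k] [Fintype σ] [Fintype ι] in
/-- substitution of forms into a form -/
theorem hg_subst {P : κ × σ → S σ k ι} {e : κ → ι → ℤ} (hP : ∀ v, Hg (P v) (e v.1))
    {u : S σ k κ} {d : κ → ℤ} (hu : Hg u d) : Hg (aeval P u) (∑ j, d j • e j) := by
  classical
  let v : (κ → ℤ) →+ (ι → ℤ) :=
    { toFun := fun d => ∑ j, d j • e j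
      map_zero' := by simp
      map_add' := fun a b => by simp [add_smul, Finset.sum_add_distrib] }
  refine hom_map (aeval P) v (fun s => ?_) hu
  have : v (wt s) = e s.1 := by
    change ∑ j, wt s j • e j = _
    simp [wt_apply]
  rw [this, aeval_X]
  exact hP s

omit [IsAlgClosed k] [Fintype σ] [Fintype ι] in
/-- the value of a substitution of charts -/
theorem ev_subst {P : κ × σ → S σ k ι} {x : ι → X} {y : κ → X} {l : κ → k}
    (hP : ∀ v, Γ.ev x (P v) = l v.1 * Γ.p (y v.1) v.2) {u : S σ k κ} {d : κ → ℤ} (hu : Hg u d) :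
    Γ.ev x (aeval P u) = (∏ j, l j ^ (d j).toNat) * Γ.ev y u := by
  rw [← AlgHom.comp_apply, comp_aeval, funext hP]
  exact hu.eval_scale l (xp Γ.p y)

theorem Cl.preimage {Γ : Geo I X} (hW : Γ.Cl W) (h : Γ.RegM φ) : Γ.Cl (φ ⁻¹' W) := by
  choose D hD using fun j => (h j).exists_td
  refine Γ.cl_of_sep fun x hx => ?_
  obtain ⟨u, d, hu, h0, h1⟩ := hW.sep hx
  choose c a ha using fun j => (hD j).exists_ne x
  refine ⟨aeval (fun v : κ × σ => (D v.1).P (c v.1) v.2) u, _,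
    hg_subst (e := fun j => (D j).e (c j)) (fun v => (D v.1).hg _ _) hu, fun y hy => ?_, ?_⟩
  · choose l hl using fun j => hD j (c j) y
    rw [Γ.ev_subst (y := φ y) (l := l) (fun v => hl v.1 v.2) hu, h0 _ hy, mul_zero]
  · choose l hl using fun j => hD j (c j) x
    rw [Γ.ev_subst (y := φ x) (l := l) (fun v => hl v.1 v.2) hu]
    refine mul_ne_zero (Finset.prod_ne_zero_iff.2 fun j _ => pow_ne_zero _ fun h2 => ha j ?_) h1
    rw [hl, h2, zero_mul]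

end Geo

end Pool.Agent.Bav
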