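import Pool.Agent.P.MP_dd457d_ag.Bav.FilC
import Pool.Agent.P.MP_dd457d_ag.Bav.ChartC
import Pool.Agent.P.MP_dd457d_ag.Bav.FgtB
import Pool.Agent.P.MP_dd457d_ag.Bav.Tw
import Pool.Agent.P.MP_dd457d_ag.Bav.Log

/-! The fields of the calculus that concern the dimension filtration. -/

set_option autoImplicit false
set_option linter.unusedSectionVars false

noncomputable section

namespace Pool.Agent.Bav

open MvPolynomial

section Gen
variable {σ k ι κ : Type} [Field k] {I : Ideal (MvPolynomial σ k)} [DecidableEq ι] [Fintype σ]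
  [Fintype ι] [Fintype κ]

theorem isSh_shG (u : ι → ℤ) : IsSh u (shG u : Module.End ℂ (G I ι)) := shG_cls u

theorem isChi_fil : IsChi (chi : G I ι →ₗ[ℂ] ℂ) := fun M =>
  (chi_spec M).mono fun d h => by rwa [shG_cls] at h

theorem TD.low {A : Type} [Fintype A] (D : TD I ι A) : Low 1 (D.L - 1) :=
  low_of_primes fun P n h hI => by
    obtain ⟨c, a, hc⟩ : ∃ c a, D.P c a ∉ P := by
      by_contra hc
      push Not at hc
      exact hI (D.irr.mono (sup_le h.le (Ideal.span_le.2 fun _ ⟨c, a, e⟩ => e ▸ hc c a)))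
    obtain ⟨M, x, hx, e⟩ := exists_cy h.gr h.le n
    obtain ⟨K, Q, h1, h2, h3⟩ := D.L_sub M a
    rw [hx.ann_eq] at h1 h2
    refine ⟨P ⊔ Ideal.span {f | ∃ c, f = D.P c a}, D.P c a, le_sup_left,
      Ideal.mem_sup_right (Ideal.subset_span ⟨c, rfl⟩), hc, ?_⟩
    rw [e, LinearMap.sub_apply, Module.End.one_apply, h3]
    exact Submodule.sub_mem _ (cls_mem_sup h2) (cls_mem_sup h1)

theorem Low.lg {t : Module.End ℂ (G I ι)} (h : Low 1 (t - 1)) (ht : Unip t) : Low 1 (lg t) :=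
  fun j => lg_mem ht (Fil_mono (Nat.le_succ j)) (h j)

/-- the field `l_F` -/
theorem TD.low_lg {A : Type} [Fintype A] (D : TD I ι A) : Low 1 (lg D.L) :=
  D.low.lg D.isNilpotent_L

/-- supports under a projection -/
theorem fgt_sup [DecidableEq κ] (u : ι → κ) (hu : Function.Injective u) {J : Ideal (S σ k ι)}
    {J' : Ideal (S σ k κ)} (h : ∀ f ∈ J, rn u f ∈ J') {x : G I κ} (hx : x ∈ Sup I J') :
    fgt u hu x ∈ Sup I J := by
  refine (Submodule.span_le (p := (Sup I J).comap (fgt u hu))).2 ?_ hx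
  rintro _ ⟨M, hM, rfl⟩
  refine (Submodule.Quotient.mk_eq_zero (Sup I J)).1
    (eq_of_ev (F := (Sup I J).mkQ ∘ₗ fgt u hu) (F' := 0) (x := cls M)
      ((fgt_spec u hu M).mono fun d hd => ?_))
  obtain ⟨N, j, hN⟩ := exists_isPull (reD I u hu d) M
  refine (Submodule.Quotient.mk_eq_zero (Sup I J)).2 ?_
  rw [hd, ← hN.cls_eq]
  refine cls_mem_sup fun f hf => GM.mem_ann.2 fun y => hN.inj ?_
  rw [hN.smul, map_zero, reD_φ]
  exact GM.mem_ann.1 (hM (h f hf)) _

end Gen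

section AV
variable {Ω A τ : Type} [Field Ω] [Infinite Ω] [Fintype τ] [AddCommGroup A] {p : A → τ → Ω} {g : ℕ}

theorem dim_IX (h : Tav.AV p g) : DimJ (g + 1) (IX (Tav.idl p) Unit) :=
  dim_of_av h fun _ _ hf => ⟨fun a y => eval_of_mem_IX a fun _ => y,
    fun a => mem_IX_of_vanish hf fun t => a (t ())⟩

/-- the field `F_top` -/
theorem fil_top (h : Tav.AV p g) : Fil (Tav.idl p) Unit (g + 1) = ⊤ :=
  Fil_top (homI_idl p) (dim_IX h)

/-- the field `rank` -/
theorem fil_rank (h : Tav.AV p g) (v : G (Tav.idl p) Unit) :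
    ∃ r : ℂ, v - r • cy (Tav.idl p) (IX (Tav.idl p) Unit) 0 ∈ Fil (Tav.idl p) Unit g :=
  exists_rank (homI_idl p) (IX_unit_prime h.irr) (dim_IX h) v

end AV

end Pool.Agent.Bav
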