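import Pool.Agent.P.MP_dd457d_ag.Bav.KTwB
import Pool.Agent.P.MP_dd457d_ag.Bav.FilD

/-! Twists along regular maps: unipotence, supports, locality. -/

set_option autoImplicit false

noncomputable section

namespace Pool.Agent.Bav

open MvPolynomial Function

variable {σ k ι τ X : Type} [Field k] [IsAlgClosed k] {I : Ideal (MvPolynomial σ k)}
  [Fintype σ] [Fintype ι] [Fintype τ]

namespace Geo

variable (Γ : Geo I X) {T : Set (ι → X)} {f f₁ : (ι → X) → τ → k}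

omit [IsAlgClosed k] in
theorem IsCh.twF_eq {Γ : Geo I X} {D : TD I ι τ} (h : Γ.IsCh D f) : Γ.twF f = D.L := by
  obtain ⟨p, ne, inj, rfl, cl⟩ := Γ
  exact twB_eq h

theorem kTw_ex {Γ : Geo I X} (h : Γ.RegF f) : ∃ D : TD I ι τ, Γ.IsCh D f := by
  obtain ⟨p, ne, inj, rfl, cl⟩ := Γ
  exact twB_ex h

theorem RegF.nil {Γ : Geo I X} (h : Γ.RegF f) : (Γ.twF f - 1) ^ Fintype.card τ = 0 := by
  obtain ⟨D, hD⟩ := kTw_ex h
  rw [hD.twF_eq]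
  exact D.L_nil

theorem RegF.unip {Γ : Geo I X} (h : Γ.RegF f) : Unip (Γ.twF f) := ⟨_, h.nil⟩

theorem RegF.low {Γ : Geo I X} [DecidableEq ι] (h : Γ.RegF f) : Low 1 (Γ.twF f - 1) := by
  obtain ⟨D, hD⟩ := kTw_ex h
  rw [hD.twF_eq]
  exact D.low

theorem RegF.supp {Γ : Geo I X} (h : Γ.RegF f) {x : G I ι} (hx : x ∈ Γ.Supp T) :
    Γ.twF f x ∈ Γ.Supp T := by
  obtain ⟨D, hD⟩ := kTw_ex h
  rw [hD.twF_eq]
  refine (Submodule.span_le (p := (Γ.Supp T).comap D.L)).2 ?_ hx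
  rintro _ ⟨M, hM, rfl⟩
  obtain ⟨U, hU, ⟨t⟩⟩ := D.exists_tw M
  change D.L (cls M) ∈ Γ.Supp T
  rw [D.L_cls t]
  exact Submodule.subset_span ⟨U, hM.trans hU, rfl⟩

theorem twF_loc (h : Γ.RegF f) (h₁ : Γ.RegF f₁) (e : ∀ t ∈ T, Tav.Par (f t) (f₁ t)) {x : G I ι}
    (hx : x ∈ Γ.Supp T) : Γ.twF f x = Γ.twF f₁ x := by
  obtain ⟨D, hD⟩ := kTw_ex h
  obtain ⟨D₁, hD₁⟩ := kTw_ex h₁
  rw [hD.twF_eq, hD₁.twF_eq]
  refine (Submodule.span_le (p := LinearMap.eqLocus D.L D₁.L)).2 ?_ hx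
  rintro _ ⟨M, hM, rfl⟩
  refine D.L_rel D₁ fun c c' a b => hM ((mem_core
    (poly_hg_sub ((D.hg c a).mul (D₁.hg c' b)) ((D.hg c b).mul (D₁.hg c' a)))).2 ?_)
  simp only [Ideal.mem_iInf, RingHom.mem_ker, map_sub, map_mul]
  intro t ht
  obtain ⟨l, hl⟩ := hD c t
  obtain ⟨l', hl'⟩ := hD₁ c' t
  obtain ⟨m, -, hm⟩ := e t ht
  rw [hl, hl, hl', hl', hm, Pi.smul_apply, Pi.smul_apply, smul_eq_mul, smul_eq_mul]
  ring

end Geo

end Pool.Agent.Bav
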