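import Pool.Agent.P.MP_dd457d_ag.Bav.KPt
import Pool.Agent.P.MP_dd457d_ag.Bav.KReg
import Pool.Agent.P.MP_dd457d_ag.Bav.KTw
import Pool.Agent.P.MP_dd457d_ag.Bav.KGr
import Pool.Agent.P.MP_dd457d_ag.Bav.FgTw

/-! The projection of a graph. -/

set_option autoImplicit false

noncomputable section

namespace Pool.Agent.Bav

open MvPolynomial Function Filter

variable {σ k ι κ : Type} [Field k] {I : Ideal (MvPolynomial σ k)}

theorem KFG_cone [DecidableEq ι] {V : Type*} [AddCommGroup V] [Module ℂ V] (i : ι) (N : ℕ)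
    (T : Module.End ℂ V) (h : (ι → ℤ) → V) {a : ι → ℤ}
    (e : ∀ x, a ≤ x → h (x + Pi.single i 1) = T (h x)) {d : ι → ℤ} (hd : a ≤ d) :
    (dl i ^ N) h d = ((T - 1) ^ N) (h d) := by
  induction N generalizing d with
  | zero => rfl
  | succ N ih =>
    rw [dl_pow_succ, ih hd, ih (hd.trans (le_add_of_nonneg_right
      (Pi.single_nonneg.2 zero_le_one))), e d hd, pow_succ, Module.End.mul_apply,
      LinearMap.sub_apply, map_sub]
    rfl

theorem IsPull.reD_add {u : κ → ι} {hu : Injective u} {o n : ι → ℤ} {M : GM I ι}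
    {N : GM I κ} {j : N.M →ₗ[k] M.M} (h : IsPull (reD I u hu (o + n)) M N j) :
    IsPull (reD I u hu o) (M.sh n) N j := by
  have e : ∀ d, (reD I u hu (o + n)).val d = (reD I u hu o).val d + n := fun d => by
    rw [reD_val, reD_val u hu o, add_assoc]
  exact ⟨h.inj, h.smul, fun d x => (h.π d x).trans (by rw [e]; rfl), fun d x => by
    have := h.surj d x
    rwa [e] at this⟩

variable [Fintype σ] [Fintype ι] [Fintype κ]

omit [Fintype ι] [Fintype κ] in
theorem KFG_rn {u : κ → ι} (hu : Injective u) {f : S σ k ι} {d : ι → ℤ} (hf : Hg f d)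
    (hd : ∀ l, (∀ i, u i ≠ l) → d l = 0) : ∃ g, rn u g = f := by
  classical
  refine exists_rename_eq_of_vars_subset_range f _ (hu.prodMap injective_id) fun v hv => ?_
  obtain ⟨s, hs, h1⟩ := (mem_vars_iff_mem_support v).1 hv
  by_contra h2
  have h3 := hf.deg hs v.1
  rw [hd v.1 fun i hi => h2 ⟨(i, v.2), Prod.ext hi rfl⟩, Nat.cast_eq_zero,
    Finset.sum_eq_zero_iff] at h3
  exact Finsupp.mem_support_iff.1 h1 (h3 v.2 (Finset.mem_univ _))

/-- neighbouring slices of a cyclic module that lives on a graph -/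
theorem KFG_step [DecidableEq ι] {u : κ → ι} (hu : Injective u) (E : TD I κ σ) {M : GM I ι}
    {x : M.M} (h0 : M.π 0 x = x) (hx : ∀ y, ∃ f : S σ k ι, y = f • x) {i : ι}
    (hi : ∀ j, u j ≠ i) (hm : ∀ c a b (y : M.M), (X (i, a) * rn u (E.P c b) : S σ k ι) • y =
      (X (i, b) * rn u (E.P c a) : S σ k ι) • y)
    (hs : ∀ y : M.M, (∀ a, (X (i, a) : S σ k ι) • y = 0) → y = 0) {d : ι → ℤ} (hd : 0 ≤ d i) :
    pl (reD I u hu (d + Pi.single i 1)) M = E.L (pl (reD I u hu d) M) := by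
  obtain ⟨N, j, hN⟩ := exists_isPull (reD I u hu d) M
  obtain ⟨N', j', hN'⟩ := exists_isPull (reD I u hu (d + Pi.single i 1)) M
  have sN : ∀ (f : S σ k κ) y, j (f • y) = rn u f • j y := fun f y => by rw [hN.smul, reD_φ]
  have sN' : ∀ (f : S σ k κ) y, j' (f • y) = rn u f • j' y := fun f y => by rw [hN'.smul, reD_φ]
  choose g hg _ using fun a : σ => hN.exists_hom hN'.reD_add
    (⟨LinearMap.lsmul (S σ k ι) M.M (X (i, a)), fun e y => by
      have := M.π_X (i, a) e y
      rw [wt_eq_single] at this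
      exact this.symm⟩ : Hom M (M.sh (Pi.single i 1)))
  replace hg : ∀ a y, j' ((g a).f y) = (X (i, a) : S σ k ι) • j y := hg
  have un : ∀ y y' : N.M, (∀ a, (X (i, a) : S σ k ι) • j y = (X (i, a) : S σ k ι) • j y') →
      y = y' := fun y y' h => hN.inj (sub_eq_zero.1 (hs _ fun a => by rw [smul_sub, h, sub_self]))
  have ex : ∀ c t, ∃ y : N.M, ∀ a, (X (i, a) : S σ k ι) • j y = rn u (E.P c a) • j' t := by
    intro c t
    let Q : AddSubmonoid M.M :=
      { carrier := {m | ∃ y : N.M, ∀ a, (X (i, a) : S σ k ι) • j y = rn u (E.P c a) • m}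
        zero_mem' := ⟨0, fun a => by simp⟩
        add_mem' := by
          rintro _ _ ⟨y, hy⟩ ⟨y', hy'⟩
          exact ⟨y + y', fun a => by rw [map_add, smul_add, smul_add, hy, hy']⟩ }
    have key : ∀ (e : κ → ℤ) (f : S σ k ι), Hg f ((reD I u hu (d + Pi.single i 1)).val e) →
        f • x ∈ Q := by
      intro e f hf
      induction hf using IsWeightedHomogeneous.induction_on with
      | zero => rw [zero_smul]; exact Q.zero_mem
      | add p q _ _ hp hq => rw [add_smul]; exact Q.add_mem hp hq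
      | monomial s r hr =>
        obtain ⟨b, hb⟩ : ∃ b, s (i, b) ≠ 0 := by
          by_contra hn
          push Not at hn
          have h1 := poly_weight s i
          rw [hr, reD_val_of_not u hu _ e hi, Finset.sum_eq_zero fun b _ => hn b, Pi.add_apply,
            Pi.single_eq_same] at h1
          omega
        obtain ⟨s', rfl⟩ := exists_add_of_le
          (Finsupp.single_le_iff.2 (Nat.one_le_iff_ne_zero.2 hb))
        have h2 : Hg (rn u (E.P c b) * monomial s' r : S σ k ι)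
            ((reD I u hu d).val (e + E.e c)) := by
          have h3 := (hg_rn hu (E.hg c b)).mul
            (isWeightedHomogeneous_monomial (wt (ι := ι) (σ := σ)) s' r rfl)
          convert h3 using 1
          rw [map_add, Finsupp.weight_single, one_smul, wt_eq_single, reD_val] at hr
          rw [PD.val_add, reD_val, add_comm (extend u (E.e c) 0)]
          congr 1
          · exact add_left_cancel (a := Pi.single i 1) (by rw [hr]; abel)
          · simp only [PD.val, reD, add_sub_cancel_left, Nat.cast_one, one_mul]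
        obtain ⟨y, hy⟩ := hN.surj (e + E.e c) ((rn u (E.P c b) * monomial s' r : S σ k ι) • x)
        have h4 := M.π_smul h2 0 x
        rw [zero_add, h0] at h4
        refine ⟨y, fun a => ?_⟩
        rw [hy, h4, monomial_single_add, pow_one, mul_smul, mul_smul, ← mul_smul, ← mul_smul _ _
          ((monomial s' r : S σ k ι) • x), hm, mul_comm]
    obtain ⟨s, hs⟩ := N'.sum_π t
    change j' t ∈ Q
    rw [← hs, map_sum]
    refine Q.sum_mem fun e _ => ?_
    obtain ⟨f, hf⟩ := hx (j' t)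
    have h5 := M.π_smul_hom h0 f ((reD I u hu (d + Pi.single i 1)).val e)
    rw [add_zero] at h5
    rw [hN'.π, hf, h5]
    exact key e _ (weightedHomogeneousComponent_isWeightedHomogeneous _ _)
  choose ev hev using ex
  rw [← hN.cls_eq, ← hN'.cls_eq]
  refine (E.L_cls ⟨g, fun c =>
    { toFun := ev c
      map_add' := fun t t' => un _ _ fun a => by
        rw [hev, map_add, map_add, smul_add, smul_add, hev, hev]
      map_smul' := fun f t => un _ _ fun a => by
        rw [hev, RingHom.id_apply, sN, sN', smul_comm, ← hev, smul_comm] },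
    fun c a y => un _ _ fun b => ?_, fun c a t => hN'.inj ?_⟩).symm
  · change _ • j (ev c _) = _
    rw [hev, hg, sN, ← mul_smul, ← mul_smul, mul_comm, hm]
  · change j' ((g a).f (ev c t)) = _
    rw [hg, hev, sN']

namespace Geo

variable {X : Type} [IsAlgClosed k] {u : κ → ι} {ψ : (κ → X) → ι → X}

/-- the slices of the coordinate ring of a graph are twists -/
theorem Sec.pl_step {Γ : Geo I X} [DecidableEq ι] (h : Γ.Sec u ψ) (W : Set (κ → X)) {M : GM I ι}
    {x : M.M} (hM : IsCyc (Γ.VI (ψ '' W)) 0 M x) (i : ι) (hi : i ∉ Set.range u) {d : ι → ℤ}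
    (hd : 0 ≤ d i) : pl (reD I u h.inj (d + Pi.single i 1)) M =
      Γ.twF (fun y => Γ.p (ψ y i)) (pl (reD I u h.inj d) M) := by
  obtain ⟨E, hE⟩ := (h.reg i).exists_td
  have h0 : M.π 0 x = x := by simpa only [neg_zero] using hM.deg
  rw [hE.twF_eq]
  refine KFG_step h.inj E h0 hM.gen (fun j hj => hi ⟨j, hj⟩) (fun c a b y => ?_) (fun y hy => ?_) hd
  · rw [← sub_eq_zero, ← sub_smul]
    refine GM.mem_ann.1 ?_ y
    have h1 : ∀ a b, Hg (MvPolynomial.X (i, a) * rn u (E.P c b) : S σ k ι)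
        (Pi.single i 1 + extend u (E.e c) 0) := fun a b => by
      have := (hg_X (k := k) (i, a)).mul (hg_rn h.inj (E.hg c b))
      rwa [wt_eq_single] at this
    rw [hM.ann_eq, Γ.mem_VI (poly_hg_sub (h1 a b) (h1 b a))]
    rintro _ ⟨y, -, rfl⟩
    obtain ⟨l, hl⟩ := hE c y
    have h2 : ψ y ∘ u = y := funext (h.sec y)
    rw [map_sub, map_mul, map_mul, ev_X, ev_X, ev_rn, ev_rn, h2, hl, hl]
    ring
  · obtain ⟨f, rfl⟩ := hM.gen y
    refine M.eq_zero fun e => ?_
    have h1 := M.π_smul_hom h0 f e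
    rw [add_zero] at h1
    rw [h1, hM.ann, Γ.mem_VI (weightedHomogeneousComponent_isWeightedHomogeneous e f)]
    intro t ht
    obtain ⟨a, ha⟩ := Function.ne_iff.1 (Γ.ne (t i))
    have h2 := M.π_X (i, a) e (f • x)
    rw [hy, map_zero, h1, ← mul_smul, eq_comm, hM.ann] at h2
    have h3 := Γ.ev_of_VI h2 ht
    rw [map_mul, ev_X] at h3
    exact (mul_eq_zero.1 h3).resolve_left ha

theorem Sec.pl_zero {Γ : Geo I X} (h : Γ.Sec u ψ) (W : Set (κ → X)) {M : GM I ι}
    {x : M.M} (hM : IsCyc (Γ.VI (ψ '' W)) 0 M x) : pl (reD I u h.inj 0) M = Γ.cT W 0 := by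
  obtain ⟨N, j, hN⟩ := exists_isPull (reD I u h.inj 0) M
  have sN : ∀ (f : S σ k κ) y, j (f • y) = rn u f • j y := fun f y => by rw [hN.smul, reD_φ]
  have h0 : M.π 0 x = x := by simpa only [neg_zero] using hM.deg
  have hv : (reD I u h.inj 0).val 0 = 0 := PD.pullA_val_zero _
  obtain ⟨y, hy⟩ := hN.surj 0 x
  rw [hv, h0] at hy
  have hJ : (Γ.VI (ψ '' W)).comap (rn u) = Γ.VI W := by
    refine le_antisymm ((Γ.le_VI (GrW.comap (Γ.grI_VI _) (rn u) (polyExt h.inj)
      (fun a b e => funext fun i => ?_) (polyExt_X h.inj))).2 fun t ht f hf => ?_) ?_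
    · have := congrFun e (u i)
      change extend u a 0 _ = extend u b 0 _ at this
      rwa [h.inj.extend_apply, h.inj.extend_apply] at this
    · have := Γ.ev_of_VI (Ideal.mem_comap.1 hf) ⟨t, ht, rfl⟩
      rwa [ev_rn, show ψ t ∘ u = t from funext (h.sec t)] at this
    · rw [← Ideal.map_le_iff_le_comap]
      refine le_trans (Ideal.map_mono (Γ.VI_anti ?_)) (Γ.VI_image_le u h.inj _)
      rintro _ ⟨_, ⟨t, ht, rfl⟩, rfl⟩
      change ψ t ∘ u ∈ W
      rwa [show ψ t ∘ u = t from funext (h.sec t)]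
  rw [← hN.cls_eq]
  refine IsCyc.cls_eq (x := y) ⟨hN.inj (by rw [neg_zero, hN.π, hv, hy, h0]), fun z => ?_,
    fun f => ?_⟩
  · obtain ⟨s, hs⟩ := N.sum_π z
    obtain ⟨f, hf⟩ := hM.gen (j z)
    choose g hg using fun e => KFG_rn h.inj (weightedHomogeneousComponent_isWeightedHomogeneous
      ((reD I u h.inj 0).val e) f) fun l hl => reD_val_of_not u h.inj 0 e hl
    refine ⟨∑ e ∈ s, g e, ?_⟩
    rw [Finset.sum_smul]
    refine hs.symm.trans (Finset.sum_congr rfl fun e _ => hN.inj ?_)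
    have h1 := M.π_smul_hom h0 f ((reD I u h.inj 0).val e)
    rw [add_zero] at h1
    rw [hN.π, sN, hy, hg, hf, h1]
  · rw [← hJ, Ideal.mem_comap, ← hM.ann, ← hy, ← sN]
    exact (map_eq_zero_iff j hN.inj).symm

theorem Sec.fgt_cT {Γ : Geo I X} (h : Γ.Sec u ψ) (W : Set (κ → X)) :
    fgt u h.inj (Γ.cT (ψ '' W) 0) = Γ.cT W 0 := by
  classical
  obtain ⟨M, x, hM, e⟩ := exists_cy (Γ.grI_VI (ψ '' W)) (Γ.IX_le_VI _) 0
  rw [cT, e, ← h.pl_zero W hM, ← shG_zero_apply (cls M)]
  refine ev_of_cone (fgt_spec u h.inj M) (N := Fintype.card σ) (a := 0) (fun i d hd => ?_) le_rfl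
  by_cases hi : i ∈ Set.range u
  · obtain ⟨j, rfl⟩ := hi
    rw [KFG_cone (u j) _ (shG (Pi.single j 1)) _ (fun d _ => ?_) hd, ← Nat.card_eq_fintype_card,
      shG_nil, LinearMap.zero_apply]
    rw [← pl_reD u h.inj d, ← pl_sh, GM.sh_sh, pl_reD]
    congr 2
    rw [add_comm]
    congr 1
    funext l
    by_cases hl : ∃ j', u j' = l
    · obtain ⟨j', rfl⟩ := hl
      refine Eq.trans ?_ (PD.val_sub_τ (reD I u h.inj 0) _ j').symm
      simp [reD, Pi.single_apply, h.inj.eq_iff]
    · push Not at hl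
      rw [PD.val_sub_of_not _ _ hl, Pi.single_eq_of_ne (hl j).symm]
  · rw [KFG_cone i _ _ _ (fun d hd => h.pl_step W hM i hi (hd i)) hd, (h.reg i).nil,
      LinearMap.zero_apply]

theorem Sec.fgt_grs {Γ : Geo I X} (h : Γ.Sec u ψ) (y : G I κ) :
    fgt u h.inj (Γ.grs u ψ y) = y := by
  refine Γ.supp_ext Γ.cl_univ (F := fgt u h.inj ∘ₗ Γ.grs u ψ) (F' := LinearMap.id)
    (fun W n _ => ?_) (Γ.mem_supp_univ y)
  rw [LinearMap.comp_apply, h.grs_cT, ← zero_add (extend u n 0), ← Γ.shG_cT,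
    fgt_sh u h.inj (n := extend u n 0) fun l hl => extend_apply' _ _ _ fun ⟨i, e⟩ => hl i e,
    h.fgt_cT, Γ.shG_cT,
    zero_add, extend_comp h.inj]
  rfl

end Geo

end Pool.Agent.Bav
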