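import Pool.Agent.P.MP_dd457d_ag.Bav.KPt
import Pool.Agent.P.MP_dd457d_ag.Bav.KReg
import Pool.Agent.P.MP_dd457d_ag.Bav.KTw
import Pool.Agent.P.MP_dd457d_ag.Bav.FgTw

/-! Twists commute with projections and products. -/

set_option autoImplicit false

noncomputable section

namespace Pool.Agent.Bav

open MvPolynomial Function

variable {σ k ι κ τ X : Type} [Field k] {I : Ideal (MvPolynomial σ k)}
  [Fintype σ] [Fintype ι] [Fintype κ] [Fintype τ]

theorem KTwF_box (D : TD I ι τ) (x : G I ι) (y : G I κ) :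
    (D.pull (reD I Sum.inl Sum.inl_injective 0)).L (boxG x y) = boxG (D.L x) y := by
  have : (boxG : G I ι →ₗ[ℂ] G I κ →ₗ[ℂ] G I (ι ⊕ κ)).compr₂
      (D.pull (reD I Sum.inl Sum.inl_injective 0)).L =
      (boxG : G I ι →ₗ[ℂ] G I κ →ₗ[ℂ] G I (ι ⊕ κ)).compl₁₂ D.L LinearMap.id :=
    G.ext₂ fun M N => by
      obtain ⟨T, -, ⟨t⟩⟩ := D.exists_tw M
      obtain ⟨P, j, h⟩ := exists_isBox M N
      obtain ⟨P', j', h'⟩ := exists_isBox T N
      rw [LinearMap.compr₂_apply, LinearMap.compl₁₂_apply, D.L_cls t, LinearMap.id_apply,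
        h.boxG_cls, h'.boxG_cls]
      have hP : ∀ c a, (D.pull (reD I (Sum.inl : ι → ι ⊕ κ) Sum.inl_injective 0)).P c a =
          rn Sum.inl (D.P c a) := fun c a => AlgHom.congr_fun (reD_φ _ _ _) _
      let ev : D.C → P'.M →ₗ[S σ k (ι ⊕ κ)] P.M := fun c =>
        { toFun := box_lin j' j ((t.ev c).restrictScalars k) LinearMap.id
          map_add' := map_add _
          map_smul' := box_lin_smul h' h _ _ (AlgHom.id k _) (AlgHom.id k _) (AlgHom.id k _)
            (fun s x => (t.ev c).map_smul s x) (fun _ _ => rfl)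
            (fun i a => (rn_X Sum.inl (i, a)).symm) fun i a => (rn_X Sum.inr (i, a)).symm }
      have e1 : ∀ c x y, ev c (j' (x ⊗ₜ y)) = j (t.ev c x ⊗ₜ y) := fun c x y =>
        box_lin_tmul j' j _ _ x y
      have e2 : ∀ a x y, (box_hom h h' (t.j a) (box_id N)).f (j (x ⊗ₜ y)) =
          j' ((t.j a).f x ⊗ₜ y) := fun a x y => box_lin_tmul j j' _ _ x y
      refine TD.L_cls _ ⟨fun a => box_hom h h' (t.j a) (box_id N), ev, fun c a z => ?_,
        fun c a z => ?_⟩
      · rw [hP]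
        refine box_ext j (p := fun z => ev c ((box_hom h h' (t.j a) (box_id N)).f z) =
          rn Sum.inl (D.P c a) • z) (by simp) (fun x y => ?_) (fun x y hx hy => ?_) z
        · rw [e2, e1, t.ej, box_smul_inl h]
        · rw [map_add, map_add, hx, hy, smul_add]
      · rw [hP]
        refine box_ext j' (p := fun z => (box_hom h h' (t.j a) (box_id N)).f (ev c z) =
          rn Sum.inl (D.P c a) • z) (by simp) (fun x y => ?_) (fun x y hx hy => ?_) z
        · rw [e1, e2, t.je, box_smul_inl h']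
        · rw [map_add, map_add, hx, hy, smul_add]
  exact LinearMap.congr_fun₂ this x y

namespace Geo

variable [IsAlgClosed k] (Γ : Geo I X) {f : (ι → X) → τ → k}

theorem IsCh.pull {Γ : Geo I X} {D : TD I ι τ} (h : Γ.IsCh D f) (u : ι → κ) (hu : Injective u) :
    Γ.IsCh (D.pull (reD I u hu 0)) fun x => f (x ∘ u) := fun c x => by
  obtain ⟨l, hl⟩ := h c (x ∘ u)
  refine ⟨l, fun a => ?_⟩
  change Γ.ev x ((reD I u hu 0).φ (D.P c a)) = _
  rw [reD_φ, ev_rn, hl]

theorem twF_fgt (u : ι → κ) (hu : Injective u) (h : Γ.RegF f) (z : G I κ) :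
    fgt u hu (Γ.twF (fun x => f (x ∘ u)) z) = Γ.twF f (fgt u hu z) := by
  obtain ⟨D, hD⟩ := h.exists_td
  rw [hD.twF_eq, (hD.pull u hu).twF_eq]
  exact fgD_L D _ z

theorem twF_box_left (h : Γ.RegF f) (x : G I ι) (y : G I κ) :
    Γ.twF (fun t => f (t ∘ Sum.inl)) (boxG x y) = boxG (Γ.twF f x) y := by
  obtain ⟨D, hD⟩ := h.exists_td
  rw [hD.twF_eq, (hD.pull Sum.inl Sum.inl_injective).twF_eq, KTwF_box]

theorem twF_box_right (h : Γ.RegF f) (x : G I κ) (y : G I ι) :
    Γ.twF (fun t => f (t ∘ Sum.inr)) (boxG x y) = boxG x (Γ.twF f y) := by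
  have := Γ.twF_fgt (Equiv.sumComm ι κ).symm (Equiv.sumComm ι κ).symm.injective
    (h.comp (Γ.regM_rm (Sum.inr : ι → κ ⊕ ι))) (boxG y x)
  rw [fgt_equiv, box_comm] at this
  rw [← this, ← box_comm (Γ.twF f y) x, ← Γ.twF_box_left h]
  rfl

end Geo

end Pool.Agent.Bav
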