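import Pool.Agent.P.MP_dd457d_ag.Bav.KProd
import Pool.Agent.P.MP_dd457d_ag.Bav.KReg
import Pool.Agent.P.MP_dd457d_ag.Bav.KTw
import Pool.Agent.P.MP_dd457d_ag.Bav.KTwF
import Pool.Agent.P.MP_dd457d_ag.Bav.KGr
import Pool.Agent.P.MP_dd457d_ag.Bav.KFG

/-! Push-forwards along regular maps. -/

set_option autoImplicit false

noncomputable section

namespace Pool.Agent.Bav

open MvPolynomial Function

variable {σ k ι κ μ τ X : Type} [Field k] [IsAlgClosed k] {I : Ideal (MvPolynomial σ k)}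
  [Fintype σ] [Fintype ι] [Fintype κ] [Fintype μ] [Fintype τ]

namespace Geo
variable (Γ : Geo I X) {T Z : Set (ι → X)} {φ : (ι → X) → κ → X} {u : κ → ι}
  {ψ : (κ → X) → ι → X}

/-- the shifts that act trivially on the classes supported on `T` -/
def triv (T : Set (ι → X)) : AddSubgroup (ι → ℤ) where
  carrier := {n | ∀ x ∈ Γ.Supp T, shG n x = x}
  zero_mem' x _ := shG_zero_apply x
  add_mem' ha hb x hx := by rw [← shG_shG, hb x hx, ha x hx]
  neg_mem' {n} ha x hx := by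
    conv_lhs => rw [← ha x hx]
    rw [shG_shG, neg_add_cancel, shG_zero_apply]

theorem sub_mem_triv [DecidableEq ι] {i i' : ι} (h : ∀ t ∈ T, t i = t i') :
    Pi.single i 1 - Pi.single i' 1 ∈ Γ.triv T := fun x hx => by
  have e := Γ.twF_loc (Γ.regF_proj i) (Γ.regF_proj i')
    (fun t ht => ⟨1, isUnit_one, by rw [h t ht, one_smul]⟩) hx
  rw [Γ.twF_proj, Γ.twF_proj] at e
  rw [sub_eq_neg_add, ← shG_shG, e, shG_shG, neg_add_cancel, shG_zero_apply]

theorem triv_point (o : ι → X) (n : ι → ℤ) : n ∈ Γ.triv {o} := by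
  classical
  rw [← Finset.univ_sum_single n]
  refine sum_mem fun i _ => ?_
  have h1 : Pi.single i 1 ∈ Γ.triv {o} := fun x hx => by
    have e := Γ.twF_loc (Γ.regF_proj i) (Γ.regF_const (Γ.ne (o i)))
      (fun t (ht : t ∈ ({o} : Set (ι → X))) => ⟨1, isUnit_one, by
        rw [Set.mem_singleton_iff.1 ht, one_smul]⟩) hx
    rwa [Γ.twF_proj, Γ.twF_const (Γ.ne (o i))] at e
  have h2 := zsmul_mem h1 (n i)
  rwa [← Pi.single_smul, smul_eq_mul, mul_one] at h2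

theorem cT_triv {n n' : ι → ℤ} (h : n' - n ∈ Γ.triv T) : Γ.cT T n' = Γ.cT T n := by
  rw [← h _ (Γ.cT_mem_supp subset_rfl n), Γ.shG_cT, add_sub_cancel]

theorem eq_of_supp_point {o : ι → X} {x : G I ι} (hx : x ∈ Γ.Supp {o}) :
    x = chi x • Γ.cT {o} 0 := by
  refine Γ.supp_ext (Γ.cl_point o) (F := LinearMap.id) (F' := chi.smulRight (Γ.cT {o} 0))
    (fun Z n hZ => ?_) hx
  rcases Set.subset_singleton_iff_eq.1 hZ with rfl | rfl
  · rw [Γ.cT_empty, map_zero, map_zero]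
  · rw [LinearMap.smulRight_apply, Γ.chi_point, one_smul]
    exact Γ.cT_triv (Γ.triv_point _ _)

theorem RegM.sec {Γ : Geo I X} (h : Γ.RegM φ) :
    Γ.Sec Sum.inl fun x => Sum.elim x (φ x) :=
  ⟨Sum.inl_injective, (Γ.regM_rm id).elim h, fun _ _ => rfl⟩

omit [Fintype ι] [Fintype κ] in
theorem extend_inl (n : ι → ℤ) : extend (Sum.inl : ι → ι ⊕ κ) n 0 = Sum.elim n 0 := by
  funext j
  rcases j with j | j
  · exact Sum.inl_injective.extend_apply _ _ _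
  · rw [extend_apply']
    · rfl
    · rintro ⟨l, hl⟩
      cases hl

theorem pushM_cT (h : Γ.RegM φ) (Z : Set (ι → X)) (n : ι → ℤ) : Γ.pushM φ (Γ.cT Z n) =
    fgt Sum.inr Sum.inr_injective (Γ.cT ((fun x => Sum.elim x (φ x)) '' Z) (Sum.elim n 0)) := by
  rw [pushM, LinearMap.comp_apply, h.sec.grs_cT, extend_inl]

/-- repeated blocks -/
theorem fgt_dup {b : κ → μ} (hb : Injective b) (Z : Set (μ → X)) (n : μ → ℤ) :
    fgt Sum.inr Sum.inr_injective (Γ.cT ((fun t => Sum.elim t (t ∘ b)) '' Z) (Sum.elim n 0)) =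
      fgt b hb (Γ.cT Z n) := by
  classical
  let v : μ → μ ⊕ κ := extend b Sum.inr Sum.inl
  have v1 : ∀ j, v (b j) = Sum.inr j := fun j => hb.extend_apply _ _ _
  have v2 : ∀ l, (¬ ∃ j, b j = l) → v l = Sum.inl l := fun l hl => extend_apply' _ _ _ hl
  have v3 : ∀ l, Sum.elim id b (v l) = l := fun l => by
    by_cases hl : ∃ j, b j = l
    · obtain ⟨j, rfl⟩ := hl
      rw [v1]
      rfl
    · rw [v2 l hl]
      rfl
  have v4 : ∀ (t : μ → X) l, Sum.elim t (t ∘ b) l = t (Sum.elim id b l) := by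
    rintro t (l | l) <;> rfl
  have hv : Injective v := LeftInverse.injective v3
  have s : Γ.Sec v fun t => Sum.elim t (t ∘ b) :=
    ⟨hv, (Γ.regM_rm id).elim (Γ.regM_rm b), fun t l => by rw [v4, v3]⟩
  have e := s.fgt_grs (Γ.cT Z n)
  rw [s.grs_cT] at e
  have e1 : extend v n 0 - Sum.elim n 0 =
      ∑ l, n l • ((Pi.single (v l) 1 : μ ⊕ κ → ℤ) - Pi.single (Sum.inl l) 1) := by
    have h1 : ∀ w : μ → μ ⊕ κ, Injective w →
        extend w n 0 = ∑ l, n l • (Pi.single (w l) 1 : μ ⊕ κ → ℤ) := fun w hw => by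
      funext j
      rw [Finset.sum_apply]
      by_cases hj : ∃ l, w l = j
      · obtain ⟨l, rfl⟩ := hj
        rw [hw.extend_apply, Finset.sum_eq_single l
          (fun l' _ hl => by rw [Pi.smul_apply, Pi.single_eq_of_ne (hw.ne hl.symm), smul_zero])
          fun h => absurd (Finset.mem_univ l) h]
        simp
      · rw [extend_apply' _ _ _ hj]
        exact (Finset.sum_eq_zero fun l _ => by
          rw [Pi.smul_apply, Pi.single_eq_of_ne fun h => hj ⟨l, h.symm⟩, smul_zero]).symm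
    rw [← extend_inl, h1 v hv, h1 _ Sum.inl_injective, ← Finset.sum_sub_distrib]
    simp only [smul_sub]
  rw [Γ.cT_triv (n := Sum.elim n 0) (by
    rw [e1]
    refine sum_mem fun l _ => zsmul_mem (Γ.sub_mem_triv ?_) _
    rintro _ ⟨t, -, rfl⟩
    exact s.sec t l)] at e
  rw [← e, fgt_comp]
  exact LinearMap.congr_fun (fgt_congr _ _ (funext fun j => (v1 j).symm)) _

/-- the master formula -/
theorem pushM_char (h : Γ.RegM φ) {a : ι → μ} (ha : Injective a) {b : κ → μ} (hb : Injective b)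
    {z : G I μ} (hz : z ∈ Γ.Supp {t | t ∘ b = φ (t ∘ a)}) :
    Γ.pushM φ (fgt a ha z) = fgt b hb z := by
  have hr : Γ.RegM fun t : μ → X => φ (t ∘ a) := h.comp (Γ.regM_rm a)
  have ha' : Injective (Sum.map a id : ι ⊕ κ → μ ⊕ κ) := ha.sumMap injective_id
  have h1 := Γ.fgt_supp _ ha' (hr.sec.grs_supp Γ.cl_univ (Γ.mem_supp_univ z))
  obtain ⟨y, hy⟩ := h.sec.exists_grs (Γ.Supp_mono (by
    rintro _ ⟨_, ⟨t, -, rfl⟩, rfl⟩
    exact ⟨t ∘ a, funext fun j => by rcases j with j | j <;> rfl⟩) h1)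
  have h2 : y = fgt a ha z := by
    rw [← h.sec.fgt_grs y, hy, fgt_comp]
    conv_rhs => rw [← hr.sec.fgt_grs z, fgt_comp]
    rfl
  rw [← h2, pushM, LinearMap.comp_apply, hy, fgt_comp]
  change Γ.pushM (fun t : μ → X => φ (t ∘ a)) z = _
  refine Γ.supp_ext (Γ.cl_eq (Γ.regM_rm b) hr) (fun Z n hZ => ?_) hz
  rw [Γ.pushM_cT hr, ← Γ.fgt_dup hb, Set.image_congr fun t ht => by rw [← hZ ht]]

theorem pushM_comp {χ : (κ → X) → μ → X} (h : Γ.RegM φ) (h' : Γ.RegM χ) (x : G I ι) :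
    Γ.pushM χ (Γ.pushM φ x) = Γ.pushM (fun t => χ (φ t)) x := by
  have s := (h.elim (h'.comp h)).sec
  have hz := s.grs_supp Γ.cl_univ (Γ.mem_supp_univ x)
  have i1 : Injective (Sum.inr ∘ Sum.inl : κ → ι ⊕ κ ⊕ μ) :=
    Sum.inr_injective.comp Sum.inl_injective
  have i2 : Injective (Sum.inr ∘ Sum.inr : μ → ι ⊕ κ ⊕ μ) :=
    Sum.inr_injective.comp Sum.inr_injective
  have e1 := Γ.pushM_char h s.inj i1 (Γ.Supp_mono (by rintro _ ⟨t, -, rfl⟩; rfl) hz)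
  have e2 := Γ.pushM_char h' i1 i2 (Γ.Supp_mono (by rintro _ ⟨t, -, rfl⟩; rfl) hz)
  have e3 := Γ.pushM_char (h'.comp h) s.inj i2 (Γ.Supp_mono (by rintro _ ⟨t, -, rfl⟩; rfl) hz)
  rw [s.fgt_grs] at e1 e3
  rw [e1, e2, e3]

theorem pushM_rm (v : κ → ι) (hv : Injective v) (x : G I ι) :
    Γ.pushM (fun t => t ∘ v) x = fgt v hv x := by
  have e := Γ.pushM_char (Γ.regM_rm v) injective_id hv
    (Γ.Supp_mono (fun _ _ => rfl) (Γ.mem_supp_univ x))
  rwa [fgt_id] at e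

theorem pushM_id (x : G I ι) : Γ.pushM (fun t => t) x = x :=
  (Γ.pushM_rm id injective_id x).trans (fgt_id x)

theorem Sec.pushM_eq {Γ : Geo I X} (h : Γ.Sec u ψ) (y : G I κ) :
    Γ.pushM ψ y = Γ.grs u ψ y := by
  have e := Γ.pushM_char h.reg h.inj injective_id (Γ.Supp_mono (by
    rintro _ ⟨t, -, rfl⟩
    exact congrArg ψ (funext fun j => (h.sec t j).symm))
    (h.grs_supp Γ.cl_univ (Γ.mem_supp_univ y)))
  rwa [h.fgt_grs, fgt_id] at e

theorem pushM_supp (h : Γ.RegM φ) (hT : Γ.Cl T) {x : G I ι} (hx : x ∈ Γ.Supp T) :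
    Γ.pushM φ x ∈ Γ.Supp (φ '' T) :=
  Γ.Supp_mono (by
    rintro _ ⟨_, ⟨t, ht, rfl⟩, rfl⟩
    exact ⟨t, ht, rfl⟩) (Γ.fgt_supp Sum.inr Sum.inr_injective (h.sec.grs_supp hT hx))

theorem chi_pushM (h : Γ.RegM φ) (x : G I ι) : chi (Γ.pushM φ x) = chi x := by
  rw [pushM, LinearMap.comp_apply, chi_fgt, ← chi_fgt _ h.sec.inj, h.sec.fgt_grs]

theorem twF_pushM {g : (κ → X) → τ → k} (hg : Γ.RegF g) (h : Γ.RegM φ) (x : G I ι) :
    Γ.twF g (Γ.pushM φ x) = Γ.pushM φ (Γ.twF (fun t => g (φ t)) x) := by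
  have hz := h.sec.grs_supp Γ.cl_univ (Γ.mem_supp_univ x)
  have r1 : Γ.RegF fun t : ι ⊕ κ → X => g (t ∘ Sum.inr) := hg.comp (Γ.regM_rm _)
  have r2 : Γ.RegF fun t : ι ⊕ κ → X => g (φ (t ∘ Sum.inl)) := (hg.comp h).comp (Γ.regM_rm _)
  have e := Γ.pushM_char h Sum.inl_injective Sum.inr_injective
    (Γ.Supp_mono (by rintro _ ⟨t, -, rfl⟩; rfl) (r2.supp hz))
  rw [Γ.twF_fgt _ _ (hg.comp h), h.sec.fgt_grs] at e
  rw [e, pushM, LinearMap.comp_apply, ← Γ.twF_fgt _ _ hg, Γ.twF_loc r1 r2 _ hz]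
  rintro _ ⟨t, -, rfl⟩
  exact ⟨1, isUnit_one, (one_smul _ _).symm⟩

theorem pushM_point (h : Γ.RegM φ) (x : ι → X) (n : ι → ℤ) :
    Γ.pushM φ (Γ.cT {x} n) = Γ.cT {φ x} 0 := by
  have h1 := Γ.pushM_supp h (Γ.cl_point x) (Γ.cT_mem_supp subset_rfl n)
  rw [Set.image_singleton] at h1
  rw [Γ.eq_of_supp_point h1, Γ.chi_pushM h, Γ.chi_point, one_smul]

end Geo

end Pool.Agent.Bav
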