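import Pool.Agent.P.MP_dd457d_ag.Bav.KPush
import Pool.Agent.P.MP_dd457d_ag.Bav.KProd

/-! Push-forwards and external products. -/

set_option autoImplicit false

noncomputable section

namespace Pool.Agent.Bav

open MvPolynomial Function

variable {σ k ι κ μ X : Type} [Field k] {I : Ideal (MvPolynomial σ k)}
  [Fintype σ] [Fintype ι] [Fintype κ] [Fintype μ]

theorem fgt_inl (x : G I ι) (y : G I κ) :
    fgt Sum.inl Sum.inl_injective (boxG x y) = chi y • x := by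
  rw [← box_comm, ← fgt_equiv, fgt_comp, ← fgt_inr]
  rfl

variable [IsAlgClosed k]

namespace Geo
variable (Γ : Geo I X) {φ : (ι → X) → κ → X}

theorem pushM_box {ι' κ' : Type} [Fintype ι'] [Fintype κ'] {χ : (ι' → X) → κ' → X}
    (h : Γ.RegM φ) (h' : Γ.RegM χ) (x : G I ι) (y : G I ι') :
    Γ.pushM (fun t => Sum.elim (φ (t ∘ Sum.inl)) (χ (t ∘ Sum.inr))) (boxG x y) =
      boxG (Γ.pushM φ x) (Γ.pushM χ y) := by
  have hr : Γ.RegM fun t : ι ⊕ ι' → X => Sum.elim (φ (t ∘ Sum.inl)) (χ (t ∘ Sum.inr)) :=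
    (h.comp (Γ.regM_rm Sum.inl)).elim (h'.comp (Γ.regM_rm Sum.inr))
  have hz := Γ.box_supp (h.sec.grs_supp Γ.cl_univ (Γ.mem_supp_univ x))
    (h'.sec.grs_supp Γ.cl_univ (Γ.mem_supp_univ y))
  have e := Γ.pushM_char hr (a := Sum.map Sum.inl Sum.inl)
    (Sum.inl_injective.sumMap Sum.inl_injective) (b := Sum.map Sum.inr Sum.inr)
    (Sum.inr_injective.sumMap Sum.inr_injective) (Γ.Supp_mono (fun t ht => by
      obtain ⟨⟨s, -, hs⟩, s', -, hs'⟩ := ht
      have e1 : (t ∘ Sum.map Sum.inl Sum.inl) ∘ Sum.inl = s :=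
        funext fun i => (congrFun hs (Sum.inl i)).symm
      have e2 : (t ∘ Sum.map Sum.inl Sum.inl) ∘ Sum.inr = s' :=
        funext fun i => (congrFun hs' (Sum.inl i)).symm
      change _ = _
      rw [e1, e2]
      funext j
      rcases j with j | j
      · exact (congrFun hs (Sum.inr j)).symm
      · exact (congrFun hs' (Sum.inr j)).symm) hz)
  rw [fgt_box _ Sum.inl_injective _ Sum.inl_injective,
    fgt_box _ Sum.inr_injective _ Sum.inr_injective, h.sec.fgt_grs, h'.sec.fgt_grs] at e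
  exact e

theorem pushM_shear {s s' : (ι ⊕ κ → X) → ι ⊕ κ → X} (h : Γ.RegM s) (h' : Γ.RegM s')
    (e : ∀ t, s' (s t) = t) (e' : ∀ t, s (s' t) = t) (h1 : ∀ t i, s t (Sum.inl i) = t (Sum.inl i))
    (x : G I ι) : Γ.pushM s (boxG x (Γ.cT Set.univ 0)) = boxG x (Γ.cT Set.univ 0) := by
  refine Γ.supp_ext Γ.cl_univ (F := Γ.pushM s ∘ₗ boxG.flip (Γ.cT Set.univ 0))
    (F' := boxG.flip (Γ.cT Set.univ 0)) (fun Z n _ => ?_) (Γ.mem_supp_univ x)
  change Γ.pushM s (boxG _ _) = boxG _ _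
  rw [Γ.box_cT]
  have h2 : ∀ y i, s' y (Sum.inl i) = y (Sum.inl i) := fun y i => by
    rw [← h1 (s' y), e']
  have hb : Injective (Sum.map Sum.inl id : ι ⊕ κ → (ι ⊕ κ) ⊕ κ) :=
    Sum.inl_injective.sumMap injective_id
  have s1 : Γ.Sec (Sum.inl : ι ⊕ κ → (ι ⊕ κ) ⊕ κ) fun t => Sum.elim t (s t ∘ Sum.inr) :=
    RegM.sec ((Γ.regM_rm Sum.inr).comp h)
  have s2 : Γ.Sec (Sum.map Sum.inl id : ι ⊕ κ → (ι ⊕ κ) ⊕ κ)
      fun y => Sum.elim (s' y) (y ∘ Sum.inr) :=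
    ⟨hb, h'.elim (Γ.regM_rm Sum.inr), fun y j => by
      rcases j with j | j
      · exact h2 y j
      · rfl⟩
  have e1 : (fun t : ι ⊕ κ → X => Sum.elim t (s t ∘ Sum.inr)) '' prodT Z Set.univ =
      (fun y : ι ⊕ κ → X => Sum.elim (s' y) (y ∘ Sum.inr)) '' prodT Z Set.univ := by
    ext w
    constructor
    · rintro ⟨t, ht, rfl⟩
      refine ⟨s t, ⟨?_, trivial⟩, by simp only [e]⟩
      rw [show s t ∘ Sum.inl = t ∘ Sum.inl from funext (h1 t)]
      exact ht.1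
    · rintro ⟨t, ht, rfl⟩
      refine ⟨s' t, ⟨?_, trivial⟩, by simp only [e']⟩
      rw [show s' t ∘ Sum.inl = t ∘ Sum.inl from funext (h2 t)]
      exact ht.1
  have e2 : extend (Sum.inl : ι ⊕ κ → (ι ⊕ κ) ⊕ κ) (Sum.elim n (0 : κ → ℤ)) 0 =
      extend (Sum.map Sum.inl id : ι ⊕ κ → (ι ⊕ κ) ⊕ κ) (Sum.elim n (0 : κ → ℤ)) 0 := by
    funext j
    rcases j with (j | j) | j
    · exact (Sum.inl_injective.extend_apply _ _ _).trans
        (hb.extend_apply _ _ (Sum.inl j)).symm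
    · rw [Sum.inl_injective.extend_apply, extend_apply']
      · rfl
      · rintro ⟨l | l, hl⟩ <;> cases hl
    · rw [extend_apply']
      · exact (hb.extend_apply (Sum.elim n (0 : κ → ℤ)) 0 (Sum.inr j)).symm
      · rintro ⟨l, hl⟩
        cases hl
  have a1 := s1.fgt_grs (Γ.cT (prodT Z Set.univ) (Sum.elim n 0))
  have a2 := s2.fgt_grs (Γ.cT (prodT Z Set.univ) (Sum.elim n 0))
  rw [s1.grs_cT] at a1
  rw [s2.grs_cT, ← e1, ← e2] at a2
  have e3 := Γ.pushM_char h s1.inj s2.inj (Γ.cT_mem_supp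
    (Z := (fun t : ι ⊕ κ → X => Sum.elim t (s t ∘ Sum.inr)) '' prodT Z Set.univ) (by
      rintro _ ⟨t, -, rfl⟩
      funext j
      rcases j with j | j
      · exact (h1 t j).symm
      · rfl) (extend Sum.inl (Sum.elim n (0 : κ → ℤ)) 0))
  rw [a1, a2] at e3
  exact e3

theorem box_point (x : G I ι) (o : κ → X) :
    boxG x (Γ.cT {o} 0) = Γ.pushM (fun t => Sum.elim t o) x := by
  have hr : Γ.RegM fun t : ι → X => Sum.elim t o := (Γ.regM_rm id).elim (Γ.regM_const o)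
  have hz := Γ.box_supp (Γ.mem_supp_univ x) (Γ.cT_mem_supp (subset_refl {o}) 0)
  have e := Γ.pushM_char hr (a := Sum.inl) Sum.inl_injective (b := id) injective_id
    (Γ.Supp_mono (fun t ht => by
      funext j
      rcases j with j | j
      · rfl
      · exact congrFun ht.2 j) hz)
  rw [fgt_inl, Γ.chi_point, one_smul, fgt_id] at e
  exact e.symm

theorem pushM_snd (x : G I ι) (y : G I κ) :
    Γ.pushM (fun t => t ∘ Sum.inr) (boxG x y) = chi x • y := by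
  rw [Γ.pushM_rm Sum.inr Sum.inr_injective, fgt_inr]

theorem pushM_swap (x : G I ι) (y : G I κ) :
    Γ.pushM (fun t => t ∘ Sum.swap) (boxG x y) = boxG y x := by
  rw [← box_comm x y, ← fgt_equiv]
  exact Γ.pushM_rm _ _ _

theorem pushM_assoc (x : G I ι) (y : G I κ) (z : G I μ) :
    Γ.pushM (fun t => t ∘ (Equiv.sumAssoc ι κ μ).symm) (boxG (boxG x y) z) =
      boxG x (boxG y z) := by
  rw [← box_assoc x y z, ← fgt_equiv]
  exact Γ.pushM_rm _ _ _

end Geo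

end Pool.Agent.Bav
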