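import Pool.Agent.P.MP_dd457d_ag.Bav.FilD
import Pool.Agent.P.MP_dd457d_ag.Bav.KPushBox

/-! The filtration and the push-forwards. -/

set_option autoImplicit false
set_option linter.unusedSectionVars false

noncomputable section

namespace Pool.Agent.Bav

open MvPolynomial

variable {σ k ι κ τ X : Type} [Field k] [IsAlgClosed k] {I : Ideal (MvPolynomial σ k)}
  [Fintype σ] [Fintype ι] [Fintype κ] [Fintype τ]

namespace Geo
variable (Γ : Geo I X)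

theorem fil_ev (x : ι → X) (f : S σ k ι) : Γ.ev x f = eval (xp Γ.p x) f := rfl

/-- the field `l_F` -/
theorem RegF.low_lg {Γ : Geo I X} [DecidableEq ι] {f : (ι → X) → τ → k} (h : Γ.RegF f) :
    Low 1 (lg (Γ.twF f)) := h.low.lg h.unip

/-- the field `F_top` -/
theorem fil_top [AddCommGroup X] {g : ℕ} (h : Tav.AV Γ.p g) : Fil I Unit (g + 1) = ⊤ := by
  obtain ⟨p, _, _, rfl, _⟩ := Γ
  exact Bav.fil_top h

/-- the field `rank` -/
theorem fil_rank [AddCommGroup X] {g : ℕ} (h : Tav.AV Γ.p g) (v : G I Unit) :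
    ∃ r : ℂ, v - r • Γ.cT Set.univ 0 ∈ Fil I Unit g := by
  rw [cT, VI_univ]
  obtain ⟨p, _, _, rfl, _⟩ := Γ
  exact Bav.fil_rank h v

theorem pushM_sup {φ : (ι → X) → κ → X} (h : Γ.RegM φ) {J : Ideal (S σ k ι)} (hJ : GrI J)
    {Q : Ideal (S σ k κ)} (hQ : GrI Q) (hl : φ '' Γ.ZS J ⊆ Γ.ZS Q) (n : ι → ℤ) :
    Γ.pushM φ (cy I J n) ∈ Sup I Q := by
  classical
  exact Sup_anti ((Γ.le_VI hQ).2 hl)
    (Γ.pushM_supp h (Γ.cl_ZS hJ) (Γ.cy_mem_supp subset_rfl n))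

theorem mem_VI_pt (o : ι → X) (f : S σ k ι) (d : ι → ℤ) (hf : Hg f d) :
    f ∈ Γ.VI {o} ↔ eval (xp Γ.p o) f = 0 :=
  (Γ.mem_VI hf).trans ⟨fun h => h o rfl, fun h _ e => e ▸ h⟩

theorem fil_xp_ne (o : ι → X) (i : ι) : ∃ a, xp Γ.p o (i, a) ≠ 0 :=
  Function.ne_iff.1 (Γ.ne (o i))

/-- a relevant prime of dimension zero is the ideal of a point -/
theorem ZS_of_dim [DecidableEq ι] {P : Ideal (S σ k ι)} (h : Pr I P) (hI : ¬ Irr P)
    (hd : DimJ 1 P) : ∃ y, Γ.ZS P ⊆ {y} := by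
  obtain ⟨y, hy⟩ := Set.nonempty_iff_ne_empty.2 fun e => hI ((Γ.irr_iff h.gr h.le).2 e)
  have e : P = Γ.VI {y} := h.eq_of_dim hd (Γ.grI_VI _)
    ((Γ.le_VI h.gr).2 (Set.singleton_subset_iff.2 hy))
    (pt_not_irr (Γ.mem_VI_pt y) (Γ.fil_xp_ne y))
  exact ⟨y, e ▸ Γ.cl_point y⟩

/-- the field `pts` -/
theorem fil_pts [DecidableEq ι] (φ : ℕ → (ι → X) → ι → X) (hφ : ∀ n, Γ.RegM (φ n)) (o : ι → X)
    (ht : ∀ y, ∃ e ≠ 0, ∀ t, φ (e * t) y = o) {x : G I ι} (hx : x ∈ Fil I ι 1) :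
    ∃ n : ℕ, n ≠ 0 ∧ Γ.pushM (φ n) x = chi x • Γ.cT {o} 0 := by
  refine Bav.fil_pts ⟨Γ.grI_VI _, pt_prime (Γ.grI_VI _) (Γ.mem_VI_pt o), Γ.IX_le_VI _⟩
    (pt_dim (Γ.mem_VI_pt o) (Γ.fil_xp_ne o)) (Γ.chi_point o 0) (fun n => Γ.pushM (φ n))
    (fun n => Γ.chi_pushM (hφ n)) (fun P hP hI hd => ?_) hx
  obtain ⟨y, hy⟩ := Γ.ZS_of_dim hP hI hd
  obtain ⟨e, he, h⟩ := ht y
  refine ⟨e, he, fun t n => Γ.pushM_sup (hφ _) hP.gr (Γ.grI_VI _) ?_ n⟩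
  rintro _ ⟨y', hy', rfl⟩ f hf
  rw [hy hy', h]
  exact Γ.ev_of_VI hf rfl

/-- the twist along a power of the coordinates -/
theorem twF_pow [DecidableEq ι] (i : ι) (Q : ℕ) {f : (ι → X) → σ → k}
    (h : ∀ x, Tav.Par (f x) (Γ.p (x i) ^ Q)) :
    Γ.twF f = (shG (Pi.single i 1) : Module.End ℂ (G I ι)) ^ Q := by
  have hg : ∀ a, Hg (MvPolynomial.X (i, a) ^ Q : S σ k ι) (Q • Pi.single i 1) := fun a => by
    have := (hg_X (k := k) (i, a)).pow Q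
    rwa [wt_eq_single] at this
  let D : TD I ι σ :=
    { C := Unit
      P := fun _ a => MvPolynomial.X (i, a) ^ Q
      e := fun _ => Q • Pi.single i 1
      hg := fun _ => hg
      mnr := fun _ _ a b => by rw [mul_comm, sub_self]; exact Ideal.zero_mem _
      irr := irr_of_block i fun a =>
        ⟨Q, Ideal.mem_sup_right (Ideal.subset_span ⟨(), a, rfl⟩)⟩ }
  have h1 : Γ.IsCh D f := fun _ x => by
    obtain ⟨c, hc, e⟩ := h x
    refine ⟨c⁻¹, fun a => ?_⟩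
    change Γ.ev x (MvPolynomial.X (i, a) ^ Q) = _
    rw [map_pow, ev_X, e, Pi.smul_apply, smul_eq_mul, inv_mul_cancel_left₀ hc.ne_zero,
      Pi.pow_apply]
  have h2 : ∀ (m : ℕ) (u : ι → ℤ), (shG u : Module.End ℂ (G I ι)) ^ m = shG (m • u) := by
    intro m u
    induction m with
    | zero => rw [pow_zero, zero_smul, shG_zero]
    | succ m ih => rw [pow_succ, ih, succ_nsmul, shG_add]
  rw [h1.twF_eq, h2]
  exact G.ext fun M => (D.L_cls (Tw.forms M hg)).trans (shG_cls _ M).symm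

variable (k₀ : Type) [Field k₀] [Fintype k₀] [Algebra k₀ k] [Algebra.IsAlgebraic k₀ k]

/-- the field `frob` -/
theorem fil_frob (φ : ℕ → (Unit → X) → Unit → X) (hφ : ∀ e, Γ.RegM (φ e))
    (hF : ∀ e y, Tav.Par (Γ.p (φ e y ())) (Γ.p (y ()) ^ Fintype.card k₀ ^ e)) (j : ℕ)
    {x : G I Unit} (hx : x ∈ Fil I Unit (j + 1)) : ∃ e : ℕ, e ≠ 0 ∧
      Γ.pushM (φ e) x - ((Fintype.card k₀ : ℂ) ^ e) ^ j • x ∈ Fil I Unit j := by
  have h0 : (Pi.single () 1 : Unit → ℤ) = 1 := funext fun _ => Pi.single_eq_same _ _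
  refine Bav.fil_frob (isSh_shG 1) isChi_fil (fun e => Γ.pushM (φ e)) _ (fun e z => ?_)
    (fun e => Γ.chi_pushM (hφ e)) (fun J hJ _ => ?_) j hx
  · rw [← h0, ← Γ.twF_pow () _ (hF e), ← Γ.twF_proj ()]
    exact Γ.twF_pushM (Γ.regF_proj ()) (hφ e) z
  · obtain ⟨e, he, h⟩ := exists_stable k₀ J
    refine ⟨e, he, fun t n => Γ.pushM_sup (hφ _) hJ.gr hJ.gr ?_ n⟩
    rintro _ ⟨y, hy, rfl⟩
    obtain ⟨c, -, hc⟩ := hF (e * t) y
    have h1 := hJ.gr.eval_scale (h t (xp Γ.p y) hy) fun _ => c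
    rw [Nat.card_eq_fintype_card] at h1
    have h2 : xp Γ.p (φ (e * t) y) = fun v => c * (xp Γ.p y ^ Fintype.card k₀ ^ (e * t)) v :=
      funext fun v => congrFun hc v.2
    intro f hf
    rw [fil_ev, h2]
    exact h1 f hf

end Geo

end Pool.Agent.Bav
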