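import Mathlib

/-! The abstract calculus of push-forwards, twists and exterior products. -/

set_option autoImplicit false

noncomputable section

open Matrix

namespace Pool.Agent.Bav

/-- the matrix of the map `(x i)_i ↦ (x (f j))_j` -/
def rm (Λ : Type) [CommRing Λ] {ι κ : Type} [DecidableEq ι] (f : κ → ι) : Matrix κ ι Λ :=
  Matrix.of fun j i => if f j = i then 1 else 0

/-- the one by one matrix of `a` -/
def sc1 {Λ : Type} (a : Λ) : Matrix Unit Unit Λ := Matrix.of fun _ _ => a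

/-- Grothendieck groups `G ι` of the powers of a variety of dimension `g` with an action of `Λ`;
`l u` is the logarithm of the twist by the pull-back of `O(1)` along the row `u`. -/
structure Calc (Λ : Type) [CommRing Λ] (g q : ℕ) (π : Λ) (N : Λ → ℂ) where
  G : Type → Type 1
  [acg : ∀ ι, AddCommGroup (G ι)]
  [mod : ∀ ι, Module ℂ (G ι)]
  push : ∀ {ι κ : Type} [Fintype ι] [Fintype κ], Matrix κ ι Λ → G ι →ₗ[ℂ] G κ
  l : ∀ {ι : Type} [Fintype ι], (ι → Λ) → Module.End ℂ (G ι)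
  box : ∀ {ι κ : Type} [Fintype ι] [Fintype κ], G ι →ₗ[ℂ] G κ →ₗ[ℂ] G (ι ⊕ κ)
  chi : ∀ {ι : Type} [Fintype ι], G ι →ₗ[ℂ] ℂ
  one : G Unit
  pt : G Unit
  F : ℕ → Submodule ℂ (G Unit)
  push_mul : ∀ {ι κ μ : Type} [Fintype ι] [Fintype κ] [Fintype μ] (ψ : Matrix μ κ Λ)
    (φ : Matrix κ ι Λ) (x : G ι), push ψ (push φ x) = push (ψ * φ) x
  push_one : ∀ {ι : Type} [Fintype ι] [DecidableEq ι] (x : G ι), push (1 : Matrix ι ι Λ) x = x
  l_push : ∀ {ι κ : Type} [Fintype ι] [Fintype κ] (v : κ → Λ) (φ : Matrix κ ι Λ) (x : G ι),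
    l v (push φ x) = push φ (l (v ᵥ* φ) x)
  l_comm : ∀ {ι : Type} [Fintype ι] (u v : ι → Λ) (x : G ι), l u (l v x) = l v (l u x)
  par : ∀ {ι : Type} [Fintype ι] (u v : ι → Λ),
    l (u + v) + l (u - v) = (2 : ℂ) • l u + (2 : ℂ) • l v
  l_box_left : ∀ {ι κ : Type} [Fintype ι] [Fintype κ] (u : ι → Λ) (x : G ι) (y : G κ),
    l (Sum.elim u 0) (box x y) = box (l u x) y
  l_box_right : ∀ {ι κ : Type} [Fintype ι] [Fintype κ] (v : κ → Λ) (x : G ι) (y : G κ),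
    l (Sum.elim 0 v) (box x y) = box x (l v y)
  push_box : ∀ {ι κ ι' κ' : Type} [Fintype ι] [Fintype κ] [Fintype ι'] [Fintype κ']
    (φ : Matrix ι' ι Λ) (ψ : Matrix κ' κ Λ) (x : G ι) (y : G κ),
    push (fromBlocks φ 0 0 ψ) (box x y) = box (push φ x) (push ψ y)
  shear : ∀ {ι : Type} [Fintype ι] [DecidableEq ι] (u : ι → Λ) (x : G ι),
    push (fromBlocks 1 0 (Matrix.of fun _ => u) 1) (box x one) = box x one
  box_pt : ∀ {ι : Type} [Fintype ι] [DecidableEq ι] (x : G ι),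
    box x pt = push (Matrix.fromRows 1 0) x
  push_snd : ∀ {ι κ : Type} [Fintype ι] [Fintype κ] [DecidableEq ι] [DecidableEq κ] (x : G ι)
    (y : G κ), push (rm Λ Sum.inr) (box x y) = chi x • y
  chi_push : ∀ {ι κ : Type} [Fintype ι] [Fintype κ] (φ : Matrix κ ι Λ) (x : G ι),
    chi (push φ x) = chi x
  swap : ∀ {ι κ : Type} [Fintype ι] [Fintype κ] [DecidableEq ι] [DecidableEq κ] (x : G ι)
    (y : G κ), push (rm Λ Sum.swap) (box x y) = box y x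
  assoc : ∀ {ι κ μ : Type} [Fintype ι] [Fintype κ] [Fintype μ] [DecidableEq ι] [DecidableEq κ]
    [DecidableEq μ] (x : G ι) (y : G κ) (z : G μ),
    push (rm Λ (Equiv.sumAssoc ι κ μ).symm) (box (box x y) z) = box x (box y z)
  F_zero : F 0 = ⊥
  F_top : F (g + 1) = ⊤
  l_F : ∀ (j : ℕ) (u : Unit → Λ), ∀ x ∈ F (j + 1), l u x ∈ F j
  rank : ∀ v : G Unit, ∃ r : ℂ, v - r • one ∈ F g
  deg : ∀ a : Λ, chi ((l (fun _ : Unit => a) ^ g) one) =
    N a * chi ((l (1 : Unit → Λ) ^ g) one)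
  pts : ∀ x ∈ F 1, ∃ n : ℕ, n ≠ 0 ∧ push (sc1 (n : Λ)) x = chi x • pt
  frob : ∀ j : ℕ, ∀ x ∈ F (j + 1), ∃ e : ℕ, e ≠ 0 ∧
    push (sc1 (π ^ e)) x - ((q : ℂ) ^ e) ^ j • x ∈ F j
  del : chi ((l (1 : Unit → Λ) ^ g) one) ≠ 0

attribute [instance] Calc.acg Calc.mod

/-- the pairing along the row `(a, -c)` -/
def Calc.B {Λ : Type} [CommRing Λ] {g q : ℕ} {π : Λ} {N : Λ → ℂ} (C : Calc Λ g q π N) (a c : Λ)
    (x y : C.G Unit) : ℂ :=
  C.chi ((C.l (Sum.elim (fun _ : Unit => a) fun _ : Unit => -c) ^ g) (C.box x y))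

/-- The statement of the algebraic part. -/
def S_Calc : Prop :=
  ∀ (Λ : Type) [CommRing Λ] (Γ : Type) [Fintype Γ] [DecidableEq Γ] (ρ : Γ → Λ →+* ℂ)
    (_ : Module.Basis Γ ℤ Λ), Function.Injective ρ → ∀ (g q : ℕ) (π : Λ),
    Fintype.card Γ = 2 * g → ∀ C : Calc Λ g q π fun a => ∏ r, ρ r a,
    (∀ (S : Finset Γ) (e j : ℕ), e ≠ 0 → j ≤ g → (∏ r ∈ S, ρ r π) ^ e = ((q : ℂ) ^ e) ^ j →
      ∃ (y w : C.G Unit) (p : Finset Γ → ℂ), p S ≠ 0 ∧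
        ∀ a c, C.B a c y w = ∑ T, (∏ r ∈ T, ρ r a) * (∏ r ∈ Tᶜ, ρ r c) * p T) →
    ∀ x : C.G Unit, (∀ y, C.B 1 1 x y = 0) → x = 0

/-- The diagonal formula. -/
def S_Diag : Prop :=
  ∀ (Λ : Type) [CommRing Λ] (g q : ℕ) (π : Λ) (N : Λ → ℂ) (C : Calc Λ g q π N) (y : C.G Unit),
    (C.l (Sum.elim (fun _ : Unit => (1 : Λ)) fun _ : Unit => -1) ^ g) (C.box y C.one) =
      C.chi ((C.l (1 : Unit → Λ) ^ g) C.one) •
        C.push (Matrix.of fun (_ : Unit ⊕ Unit) (_ : Unit) => (1 : Λ)) y ∧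
    (C.l (Sum.elim (fun _ : Unit => (1 : Λ)) fun _ : Unit => -1) ^ g) (C.box C.one y) =
      C.chi ((C.l (1 : Unit → Λ) ^ g) C.one) •
        C.push (Matrix.of fun (_ : Unit ⊕ Unit) (_ : Unit) => (1 : Λ)) y

end Pool.Agent.Bav
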