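import Pool.Agent.P.MP_dd457d_ag.Bav.Stmt
import Pool.Agent.P.MP_dd457d_ag.Bav.Calc

/-! The interface between the model and the Grothendieck groups. -/

set_option autoImplicit false

noncomputable section

namespace Pool.Agent.Bav

open Function Pool.Agent.Tav MvPolynomial

/-- An abelian variety on points, with an action of `Λ`, a Frobenius element `π` and a second map
`h` to projective space that satisfies the parallelogram law. -/
structure PMod (Ω : Type) [Field Ω] (G τ σ Λ : Type) [AddCommGroup G] [CommRing Λ] (g q : ℕ)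
    (π : Λ) where
  p : G → τ → Ω
  h : G → σ → Ω
  av : AV p g
  inj : ∀ y y', Par (p y) (p y') → y = y'
  hne : ∀ y, h y ≠ 0
  hmor : Mor p h id
  law : ∃ c : G × G → Ω, (∀ t, c t ≠ 0) ∧ ∀ i j,
    (c * fun t => h (t.1 + t.2) i * h (t.1 - t.2) j) ∈
      (crd fun t : G × G => h t.1) ^ 2 * (crd fun t : G × G => h t.2) ^ 2
  act : Λ →+* AddMonoid.End G
  mor : ∀ a, Mor p p (act a)
  frob : ∀ y, Par (p (act π y)) (p y ^ q)
  tors : ∀ y : G, ∃ n : ℕ, n ≠ 0 ∧ n • y = 0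

section
variable {Ω : Type} [Field Ω] {G τ σ Λ : Type} [AddCommGroup G] [CommRing Λ] {g q : ℕ} {π : Λ}

/-- the map given by a row -/
def PMod.row (P : PMod Ω G τ σ Λ g q π) {ι : Type} [Fintype ι] (u : ι → Λ) (t : ι → G) : G :=
  ∑ i, P.act (u i) (t i)

/-- the map given by a matrix -/
def PMod.mat (P : PMod Ω G τ σ Λ g q π) {ι κ : Type} [Fintype ι] (φ : Matrix κ ι Λ) (t : ι → G) :
    κ → G := fun j => P.row (φ j) t

/-- the degree of `h ∘ a` -/
def PMod.num1 (P : PMod Ω G τ σ Λ g q π) (a : Λ) : ℚ :=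
  coeff (Finsupp.single 1 g) (hp ![crd P.p, crd fun y => P.h (P.act a y)])

/-- the degree of `h (a z - b w)` on `Z × W` -/
def PMod.num2 (P : PMod Ω G τ σ Λ g q π) (Z W : Set G) (a b : Λ) : ℚ :=
  coeff (Finsupp.single 2 g) (hp ![crd fun t : Z × W => P.p t.1, crd fun t => P.p t.2,
    crd fun t => P.h (P.act a t.1 - P.act b t.2)])

/-- the numerical input -/
structure PMod.Num (P : PMod Ω G τ σ Λ g q π) {Γ : Type} [Fintype Γ] [DecidableEq Γ]
    (ρ : Γ → Λ →+* ℂ) : Prop where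
  del : P.num1 1 ≠ 0
  deg : ∀ a, (P.num1 a : ℂ) = (∏ r, ρ r a) * P.num1 1
  alg : ∀ (S : Finset Γ) (e j : ℕ), e ≠ 0 → j ≤ g → (∏ r ∈ S, ρ r π) ^ e = ((q : ℂ) ^ e) ^ j →
    ∃ (Z W : Set G) (c : Finset Γ → ℂ), c S ≠ 0 ∧
      ∀ a b, (P.num2 Z W a b : ℂ) = ∑ T, (∏ r ∈ T, ρ r a) * (∏ r ∈ Tᶜ, ρ r b) * c T

end

/-- From the model to the point data. -/
def S_Model : Prop :=
  ∀ (k : Type) [Field k] [Fintype k] {G τ σ : Type} [AddCommGroup G] [Fintype τ] [Fintype σ]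
    (g : ℕ) (p : G → τ → AlgebraicClosure k) (_ : AV p g)
    (_ : ∀ y y', Par (p y) (p y') → y = y') (F : G →+ G)
    (_ : ∀ y, Par (p (F y)) (p y ^ Fintype.card k))
    (R : ValuationSubring ℂ) (r : R →+* AlgebraicClosure k) (_ : Surjective r)
    (X : Model r σ g) (ψ : G →+ X.B) (ψ' : X.B →+ G) (_ : Mor p X.p ψ)
    (_ : Mor X.p p ψ') (_ : Surjective ψ') (m : ℕ) (_ : m ≠ 0) (_ : ∀ b, ψ (ψ' b) = m • b)
    (π : Fin g → ℂ) (_ : π ∈ En X.Λ) (_ : X.Eqv ψ F π)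
    (_ : (∀ i, R.valuation (star (π i)) = 1) ∨ X.Full (Fintype.card k)),
    ∃ (Λ : Type) (_ : CommRing Λ) (ρ : Fin g ⊕ Fin g → Λ →+* ℂ)
      (_ : Module.Basis (Fin g ⊕ Fin g) ℤ Λ) (π' : Λ)
      (P : PMod (AlgebraicClosure k) G τ σ Λ g (Fintype.card k) π'),
      Injective ρ ∧ P.p = p ∧ P.act π' = F ∧ P.Num ρ

/-- The Grothendieck groups: a calculus exists, its numbers are those of the point data, and
nondegeneracy of its pairing gives the conclusion over the algebraic closure. -/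
def S_Pkg : Prop :=
  ∀ (k : Type) [Field k] [Fintype k] {G τ σ Λ : Type} [AddCommGroup G] [Fintype τ] [Fintype σ]
    [CommRing Λ] (g : ℕ) (π : Λ) (P : PMod (AlgebraicClosure k) G τ σ Λ g (Fintype.card k) π)
    (N : Λ → ℂ), P.num1 1 ≠ 0 → (∀ a, (P.num1 a : ℂ) = N a * P.num1 1) →
    ∃ C : Calc Λ g (Fintype.card k) π N,
      (∀ Z W : Set G, ∃ y w, ∀ a b, C.B a b y w = (g.factorial : ℂ) * P.num2 Z W a b) ∧
      ((∀ x : C.G Unit, (∀ y, C.B 1 1 x y = 0) → x = 0) →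
        CXD.NumTors (AlgebraicClosure k) (CXD.hom (idl P.p)) (CXD.crd (idl P.p)))

/-- Descent of the conclusion to the ground field. -/
def S_Desc : Prop :=
  ∀ (k Ω : Type) [Field k] [Field Ω] [Algebra k Ω] [Algebra.IsAlgebraic k Ω] {τ : Type}
    [Fintype τ] (J : Ideal (MvPolynomial τ k)),
    (∀ d, ∀ f ∈ J, homogeneousComponent d f ∈ J) →
    CXD.NumTors Ω (CXD.hom (J.map (map (algebraMap k Ω))))
      (CXD.crd (J.map (map (algebraMap k Ω)))) →
    CXD.NumTors k (CXD.hom J) (CXD.crd J)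

/-- The ideal is defined over the ground field. -/
def S_Idk : Prop :=
  ∀ (k : Type) [Field k] [Fintype k] {G τ : Type} [Fintype τ]
    (p : G → τ → AlgebraicClosure k) (F : G → G), (∀ y y', Par (p y) (p y') → y = y') →
    (∀ y, p y ≠ 0) → (∀ y, Par (p (F y)) (p y ^ Fintype.card k)) →
    (idk k p).map (map (algebraMap k (AlgebraicClosure k))) = idl p ∧
      ∀ d, ∀ f ∈ idk k p, homogeneousComponent d f ∈ idk k p

theorem main_of (hM : S_Model) (hP : S_Pkg) (hC : S_Calc) (hD : S_Desc) (hI : S_Idk) : Main := by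
  intro k _ _ G τ σ _ _ _ g p hav hinj F hF R r hr X ψ ψ' h1 h2 h3 m hm h4 π h5 h6 h7
  obtain ⟨Λ, _, ρ, b, π', P, hρ, rfl, -, hN⟩ :=
    hM k g p hav hinj F hF R r hr X ψ ψ' h1 h2 h3 m hm h4 π h5 h6 h7
  obtain ⟨C, hB, hT⟩ := hP k g π' P (fun a => ∏ r, ρ r a) hN.del hN.deg
  obtain ⟨e1, e2⟩ := hI k P.p F hinj hav.ne hF
  refine hD k (AlgebraicClosure k) _ e2 ?_
  rw [e1]
  refine hT (hC Λ _ ρ b hρ g _ π' (by simp [two_mul]) C fun S e j he hj h => ?_)
  obtain ⟨Z, W, c, hc, hs⟩ := hN.alg S e j he hj h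
  obtain ⟨y, w, hyw⟩ := hB Z W
  refine ⟨y, w, fun T => (g.factorial : ℂ) * c T,
    mul_ne_zero (Nat.cast_ne_zero.2 g.factorial_ne_zero) hc, fun a b => ?_⟩
  rw [hyw, hs, Finset.mul_sum]
  exact Finset.sum_congr rfl fun T _ => by ring

end Pool.Agent.Bav
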