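import Pool.Agent.P.MP_dd457d_ag.Bav.ChartC
import Pool.Agent.P.MP_dd457d_ag.Bav.Iface

/-! Orbits of Frobenius, descent of the ideal, charts of rows. -/

set_option autoImplicit false

noncomputable section

namespace Pool.Agent.Bav

open MvPolynomial Pool.Agent.Tav

section Orb
variable {Ω G τ : Type} [Field Ω] {p : G → τ → Ω} {F : G → G} {q : ℕ}

theorem par_symm {x y : τ → Ω} (h : Par x y) : Par y x := by
  obtain ⟨c, hc, rfl⟩ := h
  exact ⟨c⁻¹, hc.inv, by rw [smul_smul, inv_mul_cancel₀ hc.ne_zero, one_smul]⟩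

theorem par_trans {x y z : τ → Ω} (h : Par x y) (h' : Par y z) : Par x z := by
  obtain ⟨c, hc, rfl⟩ := h
  obtain ⟨b, hb, rfl⟩ := h'
  exact ⟨c * b, hc.mul hb, smul_smul _ _ _⟩

theorem par_pow {x y : τ → Ω} (h : Par x y) (n : ℕ) : Par (x ^ n) (y ^ n) := by
  obtain ⟨c, hc, rfl⟩ := h
  exact ⟨c ^ n, hc.pow n, smul_pow _ _ _⟩

theorem par_iter (hF : ∀ y, Par (p (F y)) (p y ^ q)) (n : ℕ) (y : G) :
    Par (p (F^[n] y)) (p y ^ q ^ n) := by
  induction n with
  | zero => exact ⟨1, isUnit_one, by simp⟩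
  | succ n ih =>
    rw [Function.iterate_succ_apply', pow_succ, pow_mul]
    exact par_trans (hF _) (par_pow ih q)

variable {k : Type} [Field k] [Finite k] [Algebra k Ω] [Algebra.IsAlgebraic k Ω] [Finite τ]

/-- a nonzero vector is parallel to one of its Frobenius powers -/
theorem par_period {z : τ → Ω} (hz : z ≠ 0) :
    ∃ m, 0 < m ∧ ∀ n, Par (z ^ Nat.card k ^ (m * n)) z := by
  classical
  cases nonempty_fintype τ
  obtain ⟨fr, hfr⟩ := exists_fr k Ω
  obtain ⟨l, hl⟩ := Function.ne_iff.1 hz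
  have hl' : z l ≠ 0 := hl
  obtain ⟨m, hm, h⟩ := De.per_fin fr hfr (Finset.univ.image fun a => z a / z l)
  refine ⟨m, hm, fun n => ⟨z l ^ Nat.card k ^ (m * n) / z l,
    (div_ne_zero (pow_ne_zero _ hl') hl').isUnit, funext fun a => ?_⟩⟩
  have h1 := De.per_mul fr (h _ (Finset.mem_image_of_mem _ (Finset.mem_univ a))) n
  rw [De.iter_pow fr _ hfr, div_pow, div_eq_iff (pow_ne_zero _ hl')] at h1
  rw [Pi.pow_apply, h1, Pi.smul_apply, smul_eq_mul]
  ring

/-- the orbits of Frobenius are finite -/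
theorem frob_period (inj : ∀ y y', Par (p y) (p y') → y = y') (hne : ∀ y, p y ≠ 0)
    (hF : ∀ y, Par (p (F y)) (p y ^ Nat.card k)) (y : G) : ∃ m, 0 < m ∧ F^[m] y = y := by
  obtain ⟨m, hm, h⟩ := par_period (k := k) (hne y)
  exact ⟨m, hm, inj _ _ (par_trans (par_iter hF m y) (by simpa using h 1))⟩

theorem frob_surj (inj : ∀ y y', Par (p y) (p y') → y = y') (hne : ∀ y, p y ≠ 0)
    (hF : ∀ y, Par (p (F y)) (p y ^ Nat.card k)) : Function.Surjective F := fun y => by
  obtain ⟨m, hm, h⟩ := frob_period inj hne hF y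
  obtain ⟨n, rfl⟩ := Nat.exists_eq_succ_of_ne_zero hm.ne'
  exact ⟨F^[n] y, by rw [← Function.iterate_succ_apply' F n y]; exact h⟩

omit [Finite τ] in
theorem fr_surj {fr : Ω →+* Ω} (hfr : ∀ x, fr x = x ^ Nat.card k) : Function.Surjective fr :=
  fun x => by
    obtain ⟨m, hm, h⟩ := De.per_elt fr hfr x
    obtain ⟨n, rfl⟩ := Nat.exists_eq_succ_of_ne_zero hm.ne'
    rw [Nat.succ_eq_add_one, pow_succ', RingHom.mul_def, RingHom.comp_apply] at h
    exact ⟨(fr ^ n) x, h⟩

omit [Finite τ] in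
/-- the ideal of a stable family of points is stable -/
theorem idl_stable {fr : Ω →+* Ω} (hfr : ∀ x, fr x = x ^ Nat.card k) (hs : Function.Surjective F)
    (hF : ∀ y, Par (p (F y)) (p y ^ Nat.card k)) {f : MvPolynomial τ Ω} (hf : f ∈ idl p) :
    map fr f ∈ idl p := by
  refine mem_idl.2 fun c t => ?_
  obtain ⟨t, rfl⟩ := hs t
  obtain ⟨b, -, hb⟩ := hF t
  obtain ⟨a, ha⟩ := fr_surj hfr (c * b)
  have e : c • p (F t) = fun l => fr ((a • p t) l) := funext fun l => by
    rw [hb, smul_smul, ← ha, Pi.smul_apply, Pi.smul_apply, Pi.pow_apply, smul_eq_mul, smul_eq_mul,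
      map_mul, hfr (p t l)]
  rw [e, De.eval_frob, mem_idl.1 hf, map_zero]

omit [Finite k] [Algebra.IsAlgebraic k Ω] [Finite τ] in
theorem fix_finite [Finite τ] (inj : ∀ y y', Par (p y) (p y') → y = y') (hne : ∀ y, p y ≠ 0)
    {Q : ℕ} (hQ : 1 < Q) : {y | Par (p y ^ Q) (p y)}.Finite := by
  classical
  choose l hl using fun y => Function.ne_iff.1 (hne y)
  have hl' : ∀ y, p y (l y) ≠ 0 := hl
  have hR : {x : Ω | x ^ Q = x}.Finite := by
    refine (Polynomial.X ^ Q - Polynomial.X : Polynomial Ω).roots.toFinset.finite_toSet.subset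
      fun x hx => ?_
    simp only [Finset.mem_coe, Multiset.mem_toFinset]
    rw [Polynomial.mem_roots (FiniteField.X_pow_card_sub_X_ne_zero Ω hQ)]
    simpa [sub_eq_zero] using hx
  refine Set.Finite.of_finite_image (f := fun y a => p y a / p y (l y))
    ((Set.Finite.pi' fun _ : τ => hR).subset ?_) fun y _ y' _ h => inj _ _ ?_
  · rintro _ ⟨y, ⟨c, hc, hy⟩, rfl⟩ a
    have h1 : p y a ^ Q = c * p y a := congrFun hy a
    have h2 : p y (l y) ^ Q = c * p y (l y) := congrFun hy (l y)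
    change (p y a / p y (l y)) ^ Q = _
    rw [div_pow, h1, h2, mul_div_mul_left _ _ hc.ne_zero]
  · refine ⟨p y (l y) / p y' (l y'), (div_ne_zero (hl' y) (hl' y')).isUnit, funext fun a => ?_⟩
    have h1 : p y a / p y (l y) = p y' a / p y' (l y') := congrFun h a
    rw [div_eq_iff (hl' y)] at h1
    rw [h1, Pi.smul_apply, smul_eq_mul]
    ring

/-- every point is a torsion point -/
theorem tors_of_frob [AddCommGroup G] (inj : ∀ y y', Par (p y) (p y') → y = y') (hne : ∀ y, p y ≠ 0)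
    (F : G →+ G) (hF : ∀ y, Par (p (F y)) (p y ^ Nat.card k)) (y : G) :
    ∃ n : ℕ, n ≠ 0 ∧ n • y = 0 := by
  obtain ⟨m, hm, h⟩ := frob_period inj hne hF y
  have hfin := fix_finite inj hne (Nat.one_lt_pow hm.ne' (Finite.one_lt_card (α := k)))
  have h1 : ∀ n : ℕ, n • y ∈ {y | Par (p y ^ Nat.card k ^ m) (p y)} := fun n => by
    have := par_iter hF m (n • y)
    rw [iterate_map_nsmul, h] at this
    exact par_symm this
  obtain ⟨a, b, hab, e⟩ := hfin.exists_lt_map_eq_of_forall_mem h1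
  refine ⟨b - a, Nat.sub_ne_zero_of_lt hab, ?_⟩
  have : (b - a) • y + a • y = 0 + a • y := by
    rw [← add_nsmul, Nat.sub_add_cancel hab.le, zero_add, e]
  exact add_right_cancel this

end Orb

theorem s_idk : S_Idk := by
  intro k _ _ G τ _ p F inj hne hF
  rw [← Nat.card_eq_fintype_card] at hF
  obtain ⟨fr, hfr⟩ := exists_fr k (AlgebraicClosure k)
  refine ⟨desc_ideal hfr _ fun f hf => idl_stable hfr (frob_surj inj hne hF) hF hf,
    fun d f hf => ?_⟩
  have h := homI_idl p d _ hf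
  change map _ _ ∈ idl p
  convert h using 1
  ext s
  rw [coeff_map, coeff_homogeneousComponent, coeff_homogeneousComponent, coeff_map]
  split_ifs <;> simp

section Row
variable {Ω : Type} [Field Ω] {G τ σ Λ ι : Type} [AddCommGroup G] [CommRing Λ] {g q : ℕ} {π : Λ}
  [Fintype ι] (P : PMod Ω G τ σ Λ g q π)

theorem PMod.rg_row (u : ι → Λ) :
    Rg (fun i => crd fun t : ι → G => P.p (t i)) (crd fun t => P.p (P.row u t)) :=
  Bav.rg_row P.av (fun i => P.act (u i)) fun i => P.mor (u i)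

theorem PMod.rg_hrow (u : ι → Λ) :
    Rg (fun i => crd fun t : ι → G => P.p (t i)) (crd fun t => P.h (P.row u t)) :=
  rg_mor P.hmor (P.rg_row u)

/-- charts of a row -/
theorem PMod.charts_row [Finite τ] (u : ι → Λ) :
    ∃ (n : ℕ) (e : ι → ℕ) (w : Fin n → τ → S τ Ω ι), (∀ c l, Hg (w c l) fun i => e i) ∧
      (∀ c t, ∃ a : Ω, ∀ l, eval (xp P.p t) (w c l) = a * P.p (P.row u t) l) ∧
      ∀ t, ∃ c l, eval (xp P.p t) (w c l) ≠ 0 :=
  exists_charts P.av.ne (fun _ => P.av.ne _) (P.rg_row u)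

/-- charts of the second map along a row -/
theorem PMod.charts_hrow [Finite τ] (u : ι → Λ) :
    ∃ (n : ℕ) (e : ι → ℕ) (w : Fin n → σ → S τ Ω ι), (∀ c l, Hg (w c l) fun i => e i) ∧
      (∀ c t, ∃ a : Ω, ∀ l, eval (xp P.p t) (w c l) = a * P.h (P.row u t) l) ∧
      ∀ t, ∃ c l, eval (xp P.p t) (w c l) ≠ 0 :=
  exists_charts P.av.ne (fun _ => P.hne _) (P.rg_hrow u)

end Row

end Pool.Agent.Bav
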