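import Pool.Agent.P.MP_dd457d_ag.Bav.KDefs
import Pool.Agent.P.MP_dd457d_ag.Bav.ChartD
import Pool.Agent.P.MP_dd457d_ag.Bav.Log
import Pool.Agent.P.MP_2ce3e7_ag.Tav.SRg

/-! Rows and matrices as regular maps between the powers of the group of points. -/

set_option autoImplicit false

noncomputable section

namespace Pool.Agent.Bav.PMod

open Matrix

variable {Ω : Type} [Field Ω] {A τ σ Λ ι κ μ : Type} [AddCommGroup A] [CommRing Λ] {g q : ℕ}
  {π : Λ} (P : PMod Ω A τ σ Λ g q π)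

/-- the points of the variety -/
def geo : Geo (Tav.idl P.p) A := ⟨P.p, P.av.ne, P.inj, rfl, P.av.cl⟩

@[simp] theorem geo_p : P.geo.p = P.p := rfl

variable [Fintype ι] [Fintype κ] [Fintype μ]

theorem regF_row (u : ι → Λ) : P.geo.RegF fun t => P.h (P.row u t) :=
  ⟨fun _ => P.hne _, P.rg_hrow u⟩

omit [Fintype κ] in
theorem regM_mat (φ : Matrix κ ι Λ) : P.geo.RegM (P.mat φ) :=
  fun j => ⟨fun _ => P.av.ne _, P.rg_row (φ j)⟩

/-- the push-forward along a matrix -/
def push [Fintype τ] (φ : Matrix κ ι Λ) : G (Tav.idl P.p) ι →ₗ[ℂ] G (Tav.idl P.p) κ :=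
  P.geo.pushM (P.mat φ)

/-- the twist along a row -/
def tw [Fintype τ] [Fintype σ] (u : ι → Λ) : Module.End ℂ (G (Tav.idl P.p) ι) :=
  P.geo.twF fun t => P.h (P.row u t)

/-- the logarithm of the twist along a row -/
def l [Fintype τ] [Fintype σ] (u : ι → Λ) : Module.End ℂ (G (Tav.idl P.p) ι) := lg (P.tw u)

/-- the class of the variety -/
def one : G (Tav.idl P.p) Unit := P.geo.cT Set.univ 0

/-- the class of the origin -/
def pt : G (Tav.idl P.p) Unit := P.geo.cT {0} 0

theorem row_add (u v : ι → Λ) (t : ι → A) : P.row (u + v) t = P.row u t + P.row v t := by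
  rw [row, row, row, ← Finset.sum_add_distrib]
  exact Finset.sum_congr rfl fun i _ => by rw [Pi.add_apply, map_add]; rfl

theorem row_sub (u v : ι → Λ) (t : ι → A) : P.row (u - v) t = P.row u t - P.row v t := by
  rw [row, row, row, ← Finset.sum_sub_distrib]
  exact Finset.sum_congr rfl fun i _ => by rw [Pi.sub_apply, map_sub]; rfl

@[simp] theorem row_zero (t : ι → A) : P.row 0 t = 0 := by
  simp [row]

theorem row_elim (u : ι → Λ) (v : κ → Λ) (t : ι ⊕ κ → A) :
    P.row (Sum.elim u v) t = P.row u (t ∘ Sum.inl) + P.row v (t ∘ Sum.inr) := by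
  simp [row]

theorem row_unit (u : Unit → Λ) (t : Unit → A) : P.row u t = P.act (u ()) (t ()) := by
  simp [row]

theorem row_vecMul (v : κ → Λ) (φ : Matrix κ ι Λ) (t : ι → A) :
    P.row (v ᵥ* φ) t = P.row v (P.mat φ t) := by
  simp only [row, mat, vecMul, dotProduct, map_sum, map_mul]
  rw [Finset.sum_comm]
  exact Finset.sum_congr rfl fun i _ => AddMonoidHom.finsetSum_apply _ _ _

omit [Fintype μ] in
theorem mat_mul (ψ : Matrix μ κ Λ) (φ : Matrix κ ι Λ) (t : ι → A) :
    P.mat (ψ * φ) t = P.mat ψ (P.mat φ t) :=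
  funext fun j => P.row_vecMul (ψ j) φ t

omit [Fintype κ] in
theorem mat_rm [DecidableEq ι] (f : κ → ι) (t : ι → A) : P.mat (rm Λ f) t = t ∘ f :=
  funext fun j => by
    simp only [mat, row, rm, of_apply, Function.comp_apply]
    rw [Finset.sum_eq_single (f j) (fun i _ hi => by simp [hi.symm]) (by simp)]
    simp

theorem mat_one [DecidableEq ι] (t : ι → A) : P.mat (1 : Matrix ι ι Λ) t = t :=
  P.mat_rm id t

omit [Fintype κ] in
theorem mat_zero (t : ι → A) : P.mat (0 : Matrix κ ι Λ) t = 0 := funext fun _ => P.row_zero t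

theorem mat_sc1 (a : Λ) (t : Unit → A) : P.mat (sc1 a) t = fun _ => P.act a (t ()) :=
  funext fun _ => P.row_unit _ t

theorem mat_fromBlocks {ι' κ' : Type} (a : Matrix ι' ι Λ) (b : Matrix ι' κ Λ) (c : Matrix κ' ι Λ)
    (d : Matrix κ' κ Λ) (t : ι ⊕ κ → A) : P.mat (fromBlocks a b c d) t =
      Sum.elim (P.mat a (t ∘ Sum.inl) + P.mat b (t ∘ Sum.inr))
        (P.mat c (t ∘ Sum.inl) + P.mat d (t ∘ Sum.inr)) := by
  funext j
  cases j <;> exact P.row_elim _ _ t

omit [Fintype κ] [Fintype μ] in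
theorem mat_fromRows (a : Matrix κ ι Λ) (b : Matrix μ ι Λ) (t : ι → A) :
    P.mat (fromRows a b) t = Sum.elim (P.mat a t) (P.mat b t) := by
  funext j
  cases j <;> rfl

/-- the parallelogram law along two rows -/
theorem law_row (u v : ι → Λ) : ∃ c : (ι → A) → Ω, (∀ t, c t ≠ 0) ∧ ∀ i j,
    (c * fun t => P.h (P.row (u + v) t) i * P.h (P.row (u - v) t) j) ∈
      (Tav.crd fun t => P.h (P.row u t)) ^ 2 * (Tav.crd fun t => P.h (P.row v t)) ^ 2 := by
  obtain ⟨c, hc, hw⟩ := P.law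
  refine ⟨fun t => c (P.row u t, P.row v t), fun t => hc _, fun i j => ?_⟩
  have := Submodule.mem_map_of_mem
    (f := (Tav.Tr.pb Ω fun t => (P.row u t, P.row v t)).toLinearMap) (hw i j)
  rw [Submodule.map_mul, Submodule.map_pow, Submodule.map_pow, Tav.Tr.map_crd,
    Tav.Tr.map_crd] at this
  refine (congrArg (· ∈ _) (funext fun t => ?_)).mpr this
  simp [row_add, row_sub]

end Pool.Agent.Bav.PMod
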