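import Pool.Agent.P.MP_dd457d_ag.Bav.Bridge
import Pool.Agent.P.MP_dd457d_ag.Bav.KRow
import Pool.Agent.P.MP_dd457d_ag.Bav.KReg
import Pool.Agent.P.MP_dd457d_ag.Bav.KTw

/-! The numbers of the calculus are those of the point data. -/

set_option autoImplicit false

noncomputable section

namespace Pool.Agent.Bav

open MvPolynomial Pool.Agent.Tav

/-- BRIDGE -/
theorem Geo.bridge_cT {σ k ι T A X : Type} [Field k] [IsAlgClosed k] [Fintype ι] [Fintype σ]
    [Fintype A] {I : Ideal (MvPolynomial σ k)} (Γ : Geo I X) {f : (ι → X) → A → k} (h : Γ.RegF f)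
    (j : T → ι → X) {κ : Type} [Fintype κ] (L : κ → Submodule k (T → k)) (e : Option ι ≃ κ)
    (h1 : ∀ i, L (e (some i)) = crd fun t => Γ.p (j t i)) (h2 : L (e none) = crd fun t => f (j t))
    (m : ℕ) : chi ((lg (Γ.twF f) ^ m) (Γ.cT (Set.range j) 0)) =
      (m.factorial : ℂ) * (coeff (Finsupp.single (e none) m) (hp L) : ℚ) := by
  obtain ⟨D, hD⟩ := h.exists_td
  rw [hD.twF_eq]
  exact Γ.bridge_td hD j L e h1 h2 m

/-- one block and one slot -/
def eqv1 : Option Unit ≃ Fin 2 where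
  toFun o := o.elim 1 fun _ => 0
  invFun := ![some (), none]
  left_inv := by decide
  right_inv := by decide

/-- two blocks and one slot -/
def eqv2 : Option (Unit ⊕ Unit) ≃ Fin 3 where
  toFun o := o.elim 2 (Sum.elim (fun _ => 0) fun _ => 1)
  invFun := ![some (.inl ()), some (.inr ()), none]
  left_inv := by decide
  right_inv := by decide

namespace PMod

variable {Ω : Type} [Field Ω] [IsAlgClosed Ω] {A τ σ Λ : Type} [AddCommGroup A] [CommRing Λ]
  {g q : ℕ} {π : Λ} (P : PMod Ω A τ σ Λ g q π) [Fintype τ] [Fintype σ]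

theorem k_num1 (a : Λ) :
    chi ((P.l (fun _ : Unit => a) ^ g) P.one) = (g.factorial : ℂ) * P.num1 a := by
  have e : Set.range (fun (y : A) (_ : Unit) => y) = Set.univ :=
    Set.eq_univ_of_forall fun t => ⟨t (), rfl⟩
  have := P.geo.bridge_cT (P.regF_row fun _ : Unit => a) (fun (y : A) (_ : Unit) => y)
    ![crd P.p, crd fun y => P.h (P.act a y)] eqv1 (fun _ => rfl)
    (by simp only [row_unit]; rfl) g
  rwa [e] at this

theorem k_num2 (Z W : Set A) (a b : Λ) :
    chi ((P.l (Sum.elim (fun _ : Unit => a) fun _ : Unit => -b) ^ g)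
      (P.geo.cT {t | t (.inl ()) ∈ Z ∧ t (.inr ()) ∈ W} 0)) =
      (g.factorial : ℂ) * P.num2 Z W a b := by
  have e : Set.range (fun t : Z × W => Sum.elim (fun _ : Unit => (t.1 : A)) fun _ : Unit => t.2) =
      {t | t (.inl ()) ∈ Z ∧ t (.inr ()) ∈ W} := by
    ext t
    constructor
    · rintro ⟨s, rfl⟩
      exact ⟨s.1.2, s.2.2⟩
    · rintro ⟨h1, h2⟩
      exact ⟨(⟨_, h1⟩, ⟨_, h2⟩), funext fun i => by rcases i with _ | _ <;> rfl⟩
  have := P.geo.bridge_cT (P.regF_row (Sum.elim (fun _ : Unit => a) fun _ : Unit => -b))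
    (fun t : Z × W => Sum.elim (fun _ : Unit => (t.1 : A)) fun _ : Unit => t.2)
    ![crd fun t : Z × W => P.p t.1, crd fun t => P.p t.2,
      crd fun t => P.h (P.act a t.1 - P.act b t.2)] eqv2
    (fun i => by rcases i with _ | _ <;> rfl)
    (by
      simp only [row_elim, row_unit, map_neg, sub_eq_add_neg]
      rfl) g
  rwa [e] at this

end PMod

end Pool.Agent.Bav
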