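import Pool.Agent.P.MP_2ce3e7_ag.Tav.SRg

/-! The order of endomorphisms that act on an isogenous variety. -/

set_option autoImplicit false

noncomputable section

namespace Pool.Agent.Bav

open Set Function Pool.Agent.Tav Pool.Agent.Tav.Tr

section red
variable {R Ω T B σ : Type} [CommRing R] [CommRing Ω]

theorem red_crd {r : R →+* Ω} {x : T → σ → R} {p : B → σ → Ω} {red : T → B} {lam : T → Ω}
    (h : ∀ v l, p (red v) l = lam v * r (x v l)) {u : T → R} (hu : u ∈ crd x) :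
    ∃ u' ∈ crd p, ∀ v, u' (red v) = lam v * r (u v) := by
  induction hu using Submodule.span_induction with
  | mem y hy =>
    obtain ⟨l, rfl⟩ := hy
    exact ⟨_, Submodule.subset_span ⟨l, rfl⟩, fun v => h v l⟩
  | zero => exact ⟨0, Submodule.zero_mem _, fun v => by simp⟩
  | add a b _ _ ha hb =>
    obtain ⟨a', h1, h2⟩ := ha
    obtain ⟨b', h3, h4⟩ := hb
    exact ⟨a' + b', Submodule.add_mem _ h1 h3, fun v => by simp [h2, h4, mul_add]⟩
  | smul c a _ ha =>
    obtain ⟨a', h1, h2⟩ := ha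
    exact ⟨r c • a', Submodule.smul_mem _ _ h1, fun v => by simp [h2, mul_left_comm]⟩

theorem red_pow {r : R →+* Ω} {x : T → σ → R} {p : B → σ → Ω} {red : T → B} {lam : T → Ω}
    (h : ∀ v l, p (red v) l = lam v * r (x v l)) (e : ℕ) {u : T → R} (hu : u ∈ crd x ^ e) :
    ∃ u' ∈ crd p ^ e, ∀ v, u' (red v) = lam v ^ e * r (u v) := by
  induction e generalizing u with
  | zero =>
    rw [pow_zero] at hu ⊢
    obtain ⟨c, rfl⟩ := Submodule.mem_one.1 hu
    exact ⟨_, Submodule.mem_one.2 ⟨r c, rfl⟩, fun v => by simp⟩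
  | succ e ih =>
    rw [pow_succ] at hu ⊢
    refine Submodule.mul_induction_on hu (fun a ha b hb => ?_) fun a b ha hb => ?_
    · obtain ⟨a', h1, h2⟩ := ih ha
      obtain ⟨b', h3, h4⟩ := red_crd h hb
      refine ⟨a' * b', Submodule.mul_mem_mul h1 h3, fun v => ?_⟩
      rw [Pi.mul_apply, h2, h4, Pi.mul_apply, map_mul]
      ring
    · obtain ⟨a', h1, h2⟩ := ha
      obtain ⟨b', h3, h4⟩ := hb
      exact ⟨a' + b', Submodule.add_mem _ h1 h3, fun v => by simp [h2, h4, mul_add]⟩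

theorem lmor_id (p : B → σ → Ω) : Mor p p id := rg_self ![crd p] 0

theorem lmor_comp {U τ υ : Type} {p : T → σ → Ω} {q : B → τ → Ω} {s : U → υ → Ω} {f : T → B}
    {f' : B → U} (h : Mor p q f) (h' : Mor q s f') : Mor p s (f' ∘ f) := Mor_comp h' h

theorem lmor_const {τ : Type} (p : T → σ → Ω) (q : B → τ → Ω) (b : B) : Mor p q fun _ => b :=
  rg_const _ _

end red

variable {Ω : Type} [Field Ω]

theorem lmor_sub {T G σ τ : Type} [AddCommGroup G] {p : T → σ → Ω} {q : G → τ → Ω} {g : ℕ}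
    (hq : AV q g) {f f' : T → G} (h : Mor p q f) (h' : Mor p q f') :
    Mor p q fun t => f t - f' t :=
  rg_comp2 (f := fun t : G × G => t.1 - t.2) hq.sub h h'

theorem lmor_frob {G τ : Type} {p : G → τ → Ω} {F : G → G} {q : ℕ}
    (hF : ∀ y, Par (p (F y)) (p y ^ q)) : Mor p p F := by
  choose c hc h using hF
  refine rg_of_gen fun t => ⟨fun _ => q, fun y => (c y)⁻¹, (hc t).inv, fun l => ?_⟩
  have : ((fun y => (c y)⁻¹) * fun t => p (F t) l) = (fun t => p t l) ^ q := by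
    funext y
    simp [h y, (hc y).ne_zero]
  rw [this, Fin.prod_univ_one]
  exact Submodule.pow_mem_pow (crd p) (Submodule.subset_span (mem_range_self l)) _

variable {R : ValuationSubring ℂ} {r : R →+* Ω} {σ : Type} [Fintype σ] {g : ℕ}

/-- an endomorphism of the model acts on the special fibre -/
theorem exists_actB (X : Model r σ g) {a : Fin g → ℂ} (ha : a ∈ En X.Λ) :
    ∃ f : X.B →+ X.B, Mor X.p X.p f ∧ ∀ v, f (X.red v) = X.red (a * v) := by
  choose lam hl h using X.hred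
  have h' : ∀ v l, X.p (X.red v) l = lam v * r (X.x v l) := fun v l => congrFun (h v) l
  have key : ∀ v₀, ∃ (e : ℕ) (mu : (Fin g → ℂ) → Ω) (u : σ → X.B → Ω), mu v₀ ≠ 0 ∧
      (∀ l, u l ∈ crd X.p ^ e) ∧ ∀ v l, u l (X.red v) = mu v * X.p (X.red (a * v)) l := by
    intro v₀
    obtain ⟨e, c, hc, hw⟩ := X.reg a ha v₀
    have h1 := fun l => hw _ (Submodule.subset_span (mem_range_self l))
    simp only [Fin.prod_univ_one, Matrix.cons_val_zero] at h1
    choose u h2 h3 using fun l => red_pow h' _ (h1 l)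
    refine ⟨e 0, fun v => lam v ^ e 0 * r (c v) * (lam (a * v))⁻¹, u, ?_, h2, fun v l => ?_⟩
    · exact mul_ne_zero (mul_ne_zero (pow_ne_zero _ (hl _).ne_zero) (hc.map r).ne_zero)
        (inv_ne_zero (hl _).ne_zero)
    · rw [h3, h', Pi.mul_apply, map_mul]
      have := (hl (a * v)).ne_zero
      field_simp
  have wd : ∀ v v₀, X.red v = X.red v₀ → X.red (a * v) = X.red (a * v₀) := by
    intro v v₀ e
    obtain ⟨_, mu, u, h0, -, h2⟩ := key v₀
    have h3 : ∀ l, mu v * X.p (X.red (a * v)) l = mu v₀ * X.p (X.red (a * v₀)) l := fun l => by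
      rw [← h2, ← h2, e]
    have h4 : mu v ≠ 0 := fun h4 => X.sp.ne (X.red (a * v₀)) (funext fun l => by
      have := h3 l
      rw [h4, zero_mul] at this
      exact (mul_eq_zero.1 this.symm).resolve_left h0)
    refine X.inj _ _ ⟨mu v₀ / mu v, (div_ne_zero h0 h4).isUnit, funext fun l => ?_⟩
    rw [Pi.smul_apply, smul_eq_mul, div_mul_eq_mul_div, ← h3]
    field_simp
  have sp : ∀ v, X.red (a * surjInv X.onto (X.red v)) = X.red (a * v) := fun v =>
    wd _ _ (surjInv_eq X.onto _)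
  refine ⟨AddMonoidHom.mk' (fun b => X.red (a * surjInv X.onto b)) fun b b' => ?_, ?_, sp⟩
  · obtain ⟨v, rfl⟩ := X.onto b
    obtain ⟨w, rfl⟩ := X.onto b'
    rw [← map_add, sp, sp, sp, mul_add, map_add]
  · refine rg_of_gen fun b₀ => ?_
    obtain ⟨e, mu, u, h0, h1, h2⟩ := key (surjInv X.onto b₀)
    refine ⟨fun _ => e, fun b => mu (surjInv X.onto b), h0.isUnit, fun l => ?_⟩
    have : ((fun b => mu (surjInv X.onto b)) * fun b => X.p (X.red (a * surjInv X.onto b)) l) =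
        u l := funext fun b => by rw [Pi.mul_apply, ← h2, surjInv_eq X.onto]
    rw [Fin.prod_univ_one]
    exact this ▸ h1 l

theorem B_div (X : Model r σ g) {n : ℕ} (hn : n ≠ 0) (b : X.B) : ∃ b', n • b' = b := by
  obtain ⟨v, rfl⟩ := X.onto b
  refine ⟨X.red ((n : ℂ)⁻¹ • v), ?_⟩
  rw [← map_nsmul, ← Nat.cast_smul_eq_nsmul ℂ, smul_smul, mul_inv_cancel₀ (Nat.cast_ne_zero.2 hn),
    one_smul]

/-- the characters of a ring of diagonal endomorphisms -/
def rho (A : Subring (Fin g → ℂ)) : Fin g ⊕ Fin g → A →+* ℂ :=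
  Sum.elim (fun i => (Pi.evalRingHom (fun _ => ℂ) i).comp A.subtype)
    fun i => (starRingEnd ℂ).comp ((Pi.evalRingHom (fun _ => ℂ) i).comp A.subtype)

@[simp] theorem rho_inl (A : Subring (Fin g → ℂ)) (i : Fin g) (a : A) :
    rho A (Sum.inl i) a = a.1 i := rfl

@[simp] theorem rho_inr (A : Subring (Fin g → ℂ)) (i : Fin g) (a : A) :
    rho A (Sum.inr i) a = star (a.1 i) := rfl

theorem rho_apply (A : Subring (Fin g → ℂ)) (s : Fin g ⊕ Fin g) (a : A) :
    rho A s a = Sum.elim a.1 (star a.1) s := by cases s <;> rfl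

theorem rho_inj_of {A : Subring (Fin g → ℂ)} {θ : A} (h : Injective (Sum.elim θ.1 (star θ.1))) :
    Injective (rho A) := fun s t e => h (by rw [← rho_apply, ← rho_apply, e])

theorem exists_gen (Λ : Submodule ℤ (Fin g → ℂ)) [DiscreteTopology Λ] [IsZLattice ℝ Λ] :
    ∃ l ∈ Λ, ∀ i, l i ≠ 0 := by
  have h1 : ∀ i, ∃ l ∈ Λ, l i ≠ 0 := fun i => by
    by_contra h
    push Not at h
    have : Submodule.span ℝ (Λ : Set (Fin g → ℂ)) ≤
        LinearMap.ker (LinearMap.proj (R := ℝ) (φ := fun _ : Fin g => ℂ) i) :=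
      Submodule.span_le.2 fun l hl => h l hl
    rw [IsZLattice.span_top] at this
    exact one_ne_zero (this (Submodule.mem_top (x := 1)))
  have : ∀ s : Finset (Fin g), ∃ l ∈ Λ, ∀ i ∈ s, l i ≠ 0 := fun s => by
    induction s using Finset.induction_on with
    | empty => exact ⟨0, Λ.zero_mem, by simp⟩
    | insert i s _ ih =>
      obtain ⟨l, hl, h⟩ := ih
      obtain ⟨l', hl', h'⟩ := h1 i
      have fin : (⋃ j ∈ insert i s, {n : ℕ | l j + n * l' j = 0}).Finite := by
        refine (insert i s).finite_toSet.biUnion fun j hj => Set.Subsingleton.finite ?_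
        intro n hn n' hn'
        have e : ((n : ℂ) - n') * l' j = 0 := by
          have a1 : l j + n * l' j = 0 := hn
          have a2 : l j + n' * l' j = 0 := hn'
          linear_combination a1 - a2
        rcases mul_eq_zero.1 e with e | e
        · exact Nat.cast_injective (sub_eq_zero.1 e)
        · rcases Finset.mem_insert.1 hj with rfl | hj
          · exact absurd e h'
          · have a1 : l j + n * l' j = 0 := hn
            rw [e, mul_zero, add_zero] at a1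
            exact absurd a1 (h j hj)
      obtain ⟨n, hn⟩ := fin.infinite_compl.nonempty
      refine ⟨l + n • l', Λ.add_mem hl (nsmul_mem hl' n), fun j hj e => hn ?_⟩
      exact mem_biUnion hj (by simpa using e)
  obtain ⟨l, hl, h⟩ := this Finset.univ
  exact ⟨l, hl, fun i => h i (Finset.mem_univ _)⟩

theorem basis_of (Λ : Submodule ℤ (Fin g → ℂ)) [DiscreteTopology Λ] [IsZLattice ℝ Λ]
    {A : Subring (Fin g → ℂ)} (hA : ∀ a ∈ A, a ∈ En Λ) {θ : A}
    (h : Injective (Sum.elim θ.1 (star θ.1))) : Nonempty (Module.Basis (Fin g ⊕ Fin g) ℤ A) := by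
  obtain ⟨l, hl, h0⟩ := exists_gen Λ
  let φ : A →+ Λ := AddMonoidHom.mk' (fun a => ⟨a.1 * l, hA _ a.2 l hl⟩) fun a b =>
    Subtype.ext (add_mul _ _ _)
  have hφ : Injective φ.toIntLinearMap := fun a b e => Subtype.ext (funext fun i =>
    mul_right_cancel₀ (h0 i) (congrFun (congrArg Subtype.val e) i))
  have := ZLattice.module_finite ℝ Λ
  have := ZLattice.module_free ℝ Λ
  have : Module.Finite ℤ A := Module.Finite.of_injective _ hφ
  have : Module.IsTorsionFree ℤ A := hφ.moduleIsTorsionFree _ fun c a => map_zsmul φ c a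
  have : Module.Free ℤ A := Module.free_of_finite_type_torsion_free'
  have h1 : Module.finrank ℤ A ≤ g + g := by
    refine (LinearMap.finrank_le_finrank_of_injective hφ).trans ?_
    rw [ZLattice.rank ℝ Λ, Module.finrank_pi_fintype]
    simp [Complex.finrank_real_complex, mul_two]
  have h2 : LinearIndependent ℤ fun i : Fin (g + g) => θ ^ (i : ℕ) := by
    rw [Fintype.linearIndependent_iff]
    intro n hn
    have := Matrix.eq_zero_of_forall_index_sum_mul_pow_eq_zero (v := fun i => (n i : ℂ))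
      (h.comp finSumFinEquiv.symm.injective) fun j => by
        have e := congrArg (rho A (finSumFinEquiv.symm j)) hn
        simpa [map_sum, rho_apply A _ θ] using e
    intro i
    exact Int.cast_eq_zero.1 (congrFun this i)
  have h3 := h2.fintype_card_le_finrank
  rw [Fintype.card_fin] at h3
  exact ⟨(Module.finBasisOfFinrankEq ℤ A (le_antisymm h1 h3)).reindex finSumFinEquiv.symm⟩

/-- the ring of diagonal endomorphisms -/
def EnR (Λ : Submodule ℤ (Fin g → ℂ)) : Subring (Fin g → ℂ) where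
  carrier := En Λ
  mul_mem' := fun {a b} ha hb l hl => by rw [mul_assoc]; exact ha _ (hb l hl)
  one_mem' := fun l hl => by rwa [one_mul]
  add_mem' := fun {a b} ha hb l hl => by rw [add_mul]; exact Λ.add_mem (ha l hl) (hb l hl)
  zero_mem' := fun l _ => by rw [zero_mul]; exact Λ.zero_mem
  neg_mem' := fun {a} ha l hl => by rw [neg_mul]; exact Λ.neg_mem (ha l hl)

variable {G τ : Type} [AddCommGroup G]

/-- `G` is an abelian variety that is isogenous to the special fibre of `X` -/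
structure Isg (X : Model r σ g) (p : G → τ → Ω) (ψ : G →+ X.B) (ψ' : X.B →+ G) (m : ℕ) :
    Prop where
  av : AV p g
  mor : Mor p X.p ψ
  mor' : Mor X.p p ψ'
  onto : Surjective ψ'
  m0 : m ≠ 0
  comp : ∀ b, ψ (ψ' b) = m • b

namespace Isg

variable {X : Model r σ g} {p : G → τ → Ω} {ψ : G →+ X.B} {ψ' : X.B →+ G} {m : ℕ}
  (h : Isg X p ψ ψ' m)
include h

theorem div {n : ℕ} (hn : n ≠ 0) (y : G) : ∃ z, n • z = y := by
  obtain ⟨b, rfl⟩ := h.onto y
  obtain ⟨b', rfl⟩ := B_div X hn b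
  exact ⟨ψ' b', (map_nsmul _ _ _).symm⟩

theorem comp' (y : G) : ψ' (ψ y) = m • y := by
  obtain ⟨b, rfl⟩ := h.onto y
  rw [h.comp, map_nsmul]

theorem surj : Surjective ψ := fun b => by
  obtain ⟨b', rfl⟩ := B_div X h.m0 b
  exact ⟨ψ' b', h.comp b'⟩

theorem uniq {f f' : G →+ G} {a : Fin g → ℂ} (e : X.Eqv ψ f a) (e' : X.Eqv ψ f' a) : f = f' := by
  ext y
  obtain ⟨z, rfl⟩ := h.div h.m0 y
  obtain ⟨v, hv⟩ := X.onto (ψ z)
  rw [map_nsmul, map_nsmul, ← h.comp', ← h.comp', e z v hv.symm, e' z v hv.symm]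

theorem sub_aux {a b : Fin g → ℂ} (ha : ∃ f : G →+ G, Mor p p f ∧ X.Eqv ψ f a)
    (hb : ∃ f : G →+ G, Mor p p f ∧ X.Eqv ψ f b) :
    ∃ f : G →+ G, Mor p p f ∧ X.Eqv ψ f (a - b) := by
  obtain ⟨f, h1, h2⟩ := ha
  obtain ⟨f', h3, h4⟩ := hb
  refine ⟨f - f', lmor_sub h.av h1 h3, fun y v e => ?_⟩
  rw [AddMonoidHom.sub_apply, map_sub, h2 y v e, h4 y v e, sub_mul, map_sub]

omit h in
theorem zero_aux : ∃ f : G →+ G, Mor p p f ∧ X.Eqv ψ f 0 :=
  ⟨0, lmor_const p p 0, fun y v _ => by simp⟩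

omit h in
theorem mul_aux {a b : Fin g → ℂ} (ha : ∃ f : G →+ G, Mor p p f ∧ X.Eqv ψ f a)
    (hb : ∃ f : G →+ G, Mor p p f ∧ X.Eqv ψ f b) :
    ∃ f : G →+ G, Mor p p f ∧ X.Eqv ψ f (a * b) := by
  obtain ⟨f, h1, h2⟩ := ha
  obtain ⟨f', h3, h4⟩ := hb
  refine ⟨f.comp f', lmor_comp (f := f') (f' := f) h3 h1, fun y v e => ?_⟩
  rw [mul_assoc]
  exact h2 _ _ (h4 y v e)

/-- the endomorphisms of the model that act on `G` -/
def Lam : Subring (Fin g → ℂ) where
  carrier := {a | a ∈ En X.Λ ∧ ∃ f : G →+ G, Mor p p f ∧ X.Eqv ψ f a}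
  mul_mem' := fun ha hb => ⟨(EnR X.Λ).mul_mem ha.1 hb.1, mul_aux ha.2 hb.2⟩
  one_mem' := ⟨(EnR X.Λ).one_mem, AddMonoidHom.id G, lmor_id p, fun y v e => by simpa using e⟩
  add_mem' := by
    rintro a b ⟨ha, h1⟩ ⟨hb, h2⟩
    refine ⟨(EnR X.Λ).add_mem ha hb, ?_⟩
    simpa using h.sub_aux h1 (h.sub_aux zero_aux h2)
  zero_mem' := ⟨(EnR X.Λ).zero_mem, zero_aux⟩
  neg_mem' := by
    rintro a ⟨ha, h1⟩
    refine ⟨(EnR X.Λ).neg_mem ha, ?_⟩
    simpa using h.sub_aux zero_aux h1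

theorem mem_Lam {a : Fin g → ℂ} :
    a ∈ h.Lam ↔ a ∈ En X.Λ ∧ ∃ f : G →+ G, Mor p p f ∧ X.Eqv ψ f a := Iff.rfl

theorem en (a : h.Lam) : a.1 ∈ En X.Λ := a.2.1

/-- the additive map attached to a member of the order -/
def actF (a : h.Lam) : G →+ G := a.2.2.choose

theorem actF_eqv (a : h.Lam) : X.Eqv ψ (h.actF a) a.1 := a.2.2.choose_spec.2

/-- the action of the order on `G` -/
def act : h.Lam →+* AddMonoid.End G where
  toFun := h.actF
  map_one' := h.uniq (h.actF_eqv 1) fun y v e => by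
    rw [Subring.coe_one, one_mul]
    exact e
  map_mul' a b := h.uniq (h.actF_eqv (a * b)) fun y v e => by
    rw [Subring.coe_mul, mul_assoc]
    exact h.actF_eqv a _ _ (h.actF_eqv b y v e)
  map_zero' := h.uniq (h.actF_eqv 0) fun y v _ => by
    rw [Subring.coe_zero, zero_mul, map_zero]
    exact map_zero ψ
  map_add' a b := h.uniq (h.actF_eqv (a + b)) fun y v e => by
    change ψ (h.actF a y + h.actF b y) = _
    rw [map_add, h.actF_eqv a y v e, h.actF_eqv b y v e, Subring.coe_add, add_mul, map_add]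

theorem act_mor (a : h.Lam) : Mor p p (h.act a) := a.2.2.choose_spec.1

theorem act_eqv (a : h.Lam) : X.Eqv ψ (h.act a) a.1 := h.actF_eqv a

theorem act_eq {f : G →+ G} (a : h.Lam) (e : X.Eqv ψ f a.1) (y : G) : h.act a y = f y :=
  DFunLike.congr_fun (h.uniq (h.actF_eqv a) e) y

theorem act_comm (a b : h.Lam) (y : G) : h.act a (h.act b y) = h.act b (h.act a y) := by
  have := DFunLike.congr_fun (congrArg h.act (mul_comm a b)) y
  rwa [map_mul, map_mul] at this

theorem nsmul_mem {a : Fin g → ℂ} (ha : a ∈ En X.Λ) : m • a ∈ h.Lam := by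
  obtain ⟨f, h1, h2⟩ := exists_actB X ha
  refine ⟨_root_.nsmul_mem (S := EnR X.Λ) ha m, ψ'.comp (f.comp ψ),
    lmor_comp (f := f ∘ ψ) (f' := ψ') (lmor_comp (f := ψ) (f' := f) h.mor h1) h.mor', fun y v e => ?_⟩
  change ψ (ψ' (f (ψ y))) = _
  rw [h.comp, e, h2, smul_mul_assoc, map_nsmul]

theorem frob_mem {F : G →+ G} {q : ℕ} (hF : ∀ y, Par (p (F y)) (p y ^ q)) {π : Fin g → ℂ}
    (hπ : π ∈ En X.Λ) (e : X.Eqv ψ F π) : π ∈ h.Lam := ⟨hπ, F, lmor_frob hF, e⟩

theorem act_frob {F : G →+ G} {π : h.Lam} (e : X.Eqv ψ F π.1) (a : h.Lam) (y : G) :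
    h.act a (F y) = F (h.act a y) := by
  rw [← h.act_eq π e, ← h.act_eq π e, h.act_comm]

theorem exists_theta : ∃ θ : h.Lam, Injective (Sum.elim θ.1 (star θ.1)) := by
  obtain ⟨θ, h1, h2⟩ := X.cm
  refine ⟨⟨m • θ, h.nsmul_mem h1⟩, fun s t e => h2 ?_⟩
  have : ∀ s, Sum.elim (m • θ) (star (m • θ)) s = m * Sum.elim θ (star θ) s := fun s => by
    cases s <;> simp
  exact mul_left_cancel₀ (Nat.cast_ne_zero.2 h.m0) (by rw [← this, ← this]; exact e)

theorem rho_inj : Injective (rho h.Lam) := rho_inj_of h.exists_theta.choose_spec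

theorem basis : Nonempty (Module.Basis (Fin g ⊕ Fin g) ℤ h.Lam) :=
  haveI := X.lat
  basis_of X.Λ (fun _ ha => ha.1) h.exists_theta.choose_spec

end Isg

end Pool.Agent.Bav
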