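import Pool.Agent.P.MP_dd457d_ag.Bav.Iface
import Pool.Agent.P.MP_dd457d_ag.Bav.Lam
import Pool.Agent.P.MP_2ce3e7_ag.Tav.Desc

/-! The point data attached to a model. -/

set_option autoImplicit false

noncomputable section

namespace Pool.Agent.Bav

open Set Function Pool.Agent.Tav Pool.Agent.Tav.Tr

variable {Ω : Type} [Field Ω] {R : ValuationSubring ℂ} {r : R →+* Ω} {σ : Type} [Fintype σ] {g : ℕ}

/-- the parallelogram law on the special fibre -/
theorem lawB (X : Model r σ g) : ∃ c : X.B × X.B → Ω, (∀ t, c t ≠ 0) ∧ ∀ i j,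
    (c * fun t => X.p (t.1 + t.2) i * X.p (t.1 - t.2) j) ∈
      (crd fun t : X.B × X.B => X.p t.1) ^ 2 * (crd fun t : X.B × X.B => X.p t.2) ^ 2 := by
  choose lam hl h using X.hred
  have h' : ∀ v l, X.p (X.red v) l = lam v * r (X.x v l) := fun v l => congrFun (h v) l
  obtain ⟨c, hc, hw⟩ := X.law
  let s := surjInv X.onto
  have hs : ∀ b, X.red (s b) = b := surjInv_eq X.onto
  have key : ∀ u ∈ (crd fun t : (Fin g → ℂ) × (Fin g → ℂ) => X.x t.1) ^ 2 *
      (crd fun t : (Fin g → ℂ) × (Fin g → ℂ) => X.x t.2) ^ 2,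
      ∃ u' ∈ (crd fun t : X.B × X.B => X.p t.1) ^ 2 * (crd fun t : X.B × X.B => X.p t.2) ^ 2,
        ∀ v, u' (Prod.map X.red X.red v) = lam v.1 ^ 2 * lam v.2 ^ 2 * r (u v) := by
    intro u hu
    refine Submodule.mul_induction_on hu (fun a ha b hb => ?_) fun a b ha hb => ?_
    · obtain ⟨a', h1, h2⟩ := red_pow (p := fun t : X.B × X.B => X.p t.1)
        (red := Prod.map X.red X.red) (lam := fun v => lam v.1) (fun v l => h' v.1 l) 2 ha
      obtain ⟨b', h3, h4⟩ := red_pow (p := fun t : X.B × X.B => X.p t.2)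
        (red := Prod.map X.red X.red) (lam := fun v => lam v.2) (fun v l => h' v.2 l) 2 hb
      refine ⟨a' * b', Submodule.mul_mem_mul h1 h3, fun v => ?_⟩
      rw [Pi.mul_apply, h2, h4, Pi.mul_apply, map_mul]
      ring
    · obtain ⟨a', h1, h2⟩ := ha
      obtain ⟨b', h3, h4⟩ := hb
      exact ⟨a' + b', Submodule.add_mem _ h1 h3, fun v => by
        rw [Pi.add_apply, h2, h4, Pi.add_apply, map_add, mul_add]⟩
  refine ⟨fun t => lam (s t.1) ^ 2 * lam (s t.2) ^ 2 * r (c (s t.1, s t.2)) *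
    (lam (s t.1 + s t.2))⁻¹ * (lam (s t.1 - s t.2))⁻¹, fun t => ?_, fun i j => ?_⟩
  · exact mul_ne_zero (mul_ne_zero (mul_ne_zero (mul_ne_zero (pow_ne_zero _ (hl _).ne_zero)
      (pow_ne_zero _ (hl _).ne_zero)) ((hc _).map r).ne_zero) (inv_ne_zero (hl _).ne_zero))
      (inv_ne_zero (hl _).ne_zero)
  · obtain ⟨u, h1, h2⟩ := key _ (hw i j)
    refine (congrArg (· ∈ _) (funext fun t => ?_)).mpr h1
    have e := h2 (s t.1, s t.2)
    have e1 := h' (s t.1 + s t.2) i
    have e2 := h' (s t.1 - s t.2) j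
    rw [map_add, hs, hs] at e1
    rw [map_sub, hs, hs] at e2
    rw [Prod.map_apply, hs, hs] at e
    have n1 := (hl (s t.1 + s t.2)).ne_zero
    have n2 := (hl (s t.1 - s t.2)).ne_zero
    rw [Pi.mul_apply, e1, e2]
    refine Eq.trans ?_ e.symm
    rw [Pi.mul_apply, map_mul, map_mul]
    field_simp

section tors
variable {k G τ : Type} [Field k] [Finite k] [Algebra k Ω] [Fintype τ] {p : G → τ → Ω}

omit [Fintype τ] in
theorem par_itr {F : G → G} {q : ℕ} (hF : ∀ y, Par (p (F y)) (p y ^ q)) (n : ℕ) (y : G) :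
    Par (p (F^[n] y)) (p y ^ q ^ n) := by
  induction n with
  | zero => exact ⟨1, isUnit_one, by simp⟩
  | succ n ih =>
    obtain ⟨c, hc, h⟩ := ih
    obtain ⟨d, hd, h'⟩ := hF (F^[n] y)
    refine ⟨d * c ^ q, hd.mul (hc.pow q), ?_⟩
    rw [iterate_succ_apply', h', h, smul_pow, ← pow_mul, smul_smul, pow_succ]

/-- every point is fixed by a power of Frobenius -/
theorem exists_fix [Algebra.IsAlgebraic k Ω] (inj : ∀ y y', Par (p y) (p y') → y = y') {F : G → G}
    (hF : ∀ y, Par (p (F y)) (p y ^ Nat.card k)) (y : G) : ∃ n, 0 < n ∧ F^[n] y = y := by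
  classical
  cases nonempty_fintype k
  let fr : Ω →+* Ω := (FiniteField.frobeniusAlgHom k Ω).toRingHom
  have hfr : ∀ x, fr x = x ^ Nat.card k := fun x => by rw [Nat.card_eq_fintype_card]; rfl
  obtain ⟨n, hn, h⟩ := De.per_fin fr hfr (Finset.univ.image (p y))
  refine ⟨n, hn, inj _ _ ?_⟩
  have : p y ^ Nat.card k ^ n = p y := funext fun l => by
    rw [Pi.pow_apply, ← De.iter_pow fr _ hfr]
    exact h _ (Finset.mem_image_of_mem _ (Finset.mem_univ l))
  exact this ▸ par_itr hF n y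

/-- finitely many points are fixed -/
theorem finite_fix (ne : ∀ y, p y ≠ 0) (inj : ∀ y y', Par (p y) (p y') → y = y') {f : G → G}
    {Q : ℕ} (hQ : 1 < Q) (hf : ∀ y, Par (p (f y)) (p y ^ Q)) : {y | f y = y}.Finite := by
  classical
  choose l hl using fun y => Function.ne_iff.1 (ne y)
  have hl' : ∀ y, p y (l y) ≠ 0 := hl
  have fin : {z : Ω | z ^ Q = z}.Finite := by
    refine ((Polynomial.X ^ Q - Polynomial.X : Polynomial Ω).roots.toFinset.finite_toSet).subset
      fun z hz => ?_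
    have hz' : z ^ Q = z := hz
    simpa [Polynomial.mem_roots (FiniteField.X_pow_card_sub_X_ne_zero Ω hQ), sub_eq_zero] using hz'
  refine Set.Finite.of_finite_image (f := fun y => (p y (l y))⁻¹ • p y)
    ((Set.Finite.pi' fun _ : τ => fin).subset ?_) fun y _ y' _ e => inj _ _ ?_
  · rintro _ ⟨y, hy, rfl⟩ i
    obtain ⟨c, hc, h⟩ := hf y
    rw [show f y = y from hy] at h
    have e1 : p y i = c * p y i ^ Q := congrFun h i
    have e2 : p y (l y) = c * p y (l y) ^ Q := congrFun h (l y)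
    have n1 := hl' y
    have n2 := hc.ne_zero
    change ((p y (l y))⁻¹ * p y i) ^ Q = (p y (l y))⁻¹ * p y i
    rw [mul_pow, inv_pow]
    conv_rhs => rw [e1, e2]
    field_simp
  · refine ⟨p y (l y) * (p y' (l y'))⁻¹, (mul_ne_zero (hl' y) (inv_ne_zero (hl' y'))).isUnit, ?_⟩
    have e' : (p y (l y))⁻¹ • p y = (p y' (l y'))⁻¹ • p y' := e
    rw [← smul_smul, ← e', smul_smul, mul_inv_cancel₀ (hl' y), one_smul]

/-- every point is a torsion point -/
theorem tors_of [AddCommGroup G] [Algebra.IsAlgebraic k Ω] (ne : ∀ y, p y ≠ 0)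
    (inj : ∀ y y', Par (p y) (p y') → y = y') {F : G →+ G}
    (hF : ∀ y, Par (p (F y)) (p y ^ Nat.card k)) (y : G) : ∃ n : ℕ, n ≠ 0 ∧ n • y = 0 := by
  obtain ⟨n, hn, h⟩ := exists_fix inj hF y
  have fin := finite_fix ne inj (Nat.one_lt_pow hn.ne' Finite.one_lt_card) (par_itr hF n)
  have : IsOfFinAddOrder y := by
    rw [← finite_multiples]
    refine fin.subset ?_
    rintro _ ⟨m, rfl⟩
    change F^[n] (m • y) = m • y
    rw [iterate_map_nsmul, h]
  obtain ⟨m, hm, e⟩ := isOfFinAddOrder_iff_nsmul_eq_zero.1 this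
  exact ⟨m, hm.ne', e⟩

end tors

namespace Isg

variable {G τ : Type} [AddCommGroup G] {X : Model r σ g} {p : G → τ → Ω} {ψ : G →+ X.B}
  {ψ' : X.B →+ G} {m : ℕ} (h : Isg X p ψ ψ' m)

omit h in
theorem law : ∃ c : G × G → Ω, (∀ t, c t ≠ 0) ∧ ∀ i j,
    (c * fun t => X.p (ψ (t.1 + t.2)) i * X.p (ψ (t.1 - t.2)) j) ∈
      (crd fun t : G × G => X.p (ψ t.1)) ^ 2 * (crd fun t : G × G => X.p (ψ t.2)) ^ 2 := by
  obtain ⟨c, hc, hw⟩ := lawB X
  refine ⟨fun t => c (Prod.map ψ ψ t), fun t => hc _, fun i j => ?_⟩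
  have := Submodule.mem_map_of_mem (f := (pb Ω (Prod.map ψ ψ)).toLinearMap) (hw i j)
  rw [Submodule.map_mul, Submodule.map_pow, Submodule.map_pow, map_crd, map_crd] at this
  refine (congrArg (· ∈ _) (funext fun t => ?_)).mpr this
  simp

/-- the point data -/
def pmod (k : Type) [Field k] [Fintype k] [Algebra k Ω] [Algebra.IsAlgebraic k Ω] [Fintype τ]
    (inj : ∀ y y', Par (p y) (p y') → y = y') {F : G →+ G}
    (hF : ∀ y, Par (p (F y)) (p y ^ Fintype.card k)) (π : h.Lam) (e : X.Eqv ψ F π.1) :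
    PMod Ω G τ σ h.Lam g (Fintype.card k) π where
  p := p
  h y := X.p (ψ y)
  av := h.av
  inj := inj
  hne _ := X.sp.ne _
  hmor := h.mor
  law := law
  act := h.act
  mor := h.act_mor
  frob y := by rw [h.act_eq π e]; exact hF y
  tors := tors_of (k := k) h.av.ne inj (F := F) (by rwa [Nat.card_eq_fintype_card])

section
variable (k : Type) [Field k] [Fintype k] [Algebra k Ω] [Algebra.IsAlgebraic k Ω] [Fintype τ]
  (inj : ∀ y y', Par (p y) (p y') → y = y') {F : G →+ G}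
  (hF : ∀ y, Par (p (F y)) (p y ^ Fintype.card k)) (π : h.Lam) (e : X.Eqv ψ F π.1)

@[simp] theorem pmod_p : (h.pmod k inj hF π e).p = p := rfl

@[simp] theorem pmod_h (y : G) : (h.pmod k inj hF π e).h y = X.p (ψ y) := rfl

@[simp] theorem pmod_act : (h.pmod k inj hF π e).act = h.act := rfl

theorem pmod_frob : (h.pmod k inj hF π e).act π = F :=
  AddMonoidHom.ext (h.act_eq π e)

end

end Isg

/-- the numerical input for the point data of a model -/
def S_Num : Prop :=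
  ∀ (k : Type) [Field k] [Fintype k] {G τ σ : Type} [AddCommGroup G] [Fintype τ] [Fintype σ]
    (g : ℕ) (p : G → τ → AlgebraicClosure k)
    (inj : ∀ y y', Par (p y) (p y') → y = y') (F : G →+ G)
    (hF : ∀ y, Par (p (F y)) (p y ^ Fintype.card k))
    (R : ValuationSubring ℂ) (r : R →+* AlgebraicClosure k) (_ : Surjective r)
    (X : Model r σ g) (ψ : G →+ X.B) (ψ' : X.B →+ G) (m : ℕ) (h : Isg X p ψ ψ' m)
    (π : h.Lam) (e : X.Eqv ψ F π.1)
    (_ : (∀ i, R.valuation (star (π.1 i)) = 1) ∨ X.Full (Fintype.card k)),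
    (h.pmod k inj hF π e).Num (rho h.Lam)

theorem model_of_num (hN : S_Num) : S_Model := by
  intro k _ _ G τ σ _ _ _ g p hav inj F hF R r hr X ψ ψ' h1 h2 h3 m hm h4 π h5 h6 h7
  have h : Isg X p ψ ψ' m := ⟨hav, h1, h2, h3, hm, h4⟩
  obtain ⟨b⟩ := h.basis
  exact ⟨h.Lam, inferInstance, rho h.Lam, b, ⟨π, h.frob_mem hF h5 h6⟩, h.pmod k inj hF _ h6,
    h.rho_inj, rfl, h.pmod_frob k inj hF _ h6, hN k g p inj F hF R r hr X ψ ψ' m h _ h6 h7⟩

end Pool.Agent.Bav
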