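import Pool.Agent.P.MP_dd457d_ag.Bav.NumA
import Pool.Agent.P.MP_dd457d_ag.Bav.PMod
import Pool.Agent.P.MP_2ce3e7_ag.Tav.MAV

/-! The conclusion for a variety that is isogenous to a fibre on which the Tate classes are
algebraic. -/

set_option autoImplicit false

noncomputable section

namespace Pool.Agent.Bav

open MvPolynomial Function Pool.Agent.Tav Pool.Agent.Tav.Tr

theorem main_of_pmod (hP : S_Pkg) (hC : S_Calc) (hD : S_Desc) (hI : S_Idk) (k : Type) [Field k]
    [Fintype k] {G τ σ Λ Γ : Type} [AddCommGroup G] [Fintype τ] [Fintype σ] [CommRing Λ]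
    [Fintype Γ] [DecidableEq Γ] {g : ℕ} {π : Λ}
    (P : PMod (AlgebraicClosure k) G τ σ Λ g (Fintype.card k) π) {ρ : Γ → Λ →+* ℂ}
    (b : Module.Basis Γ ℤ Λ) (hρ : Injective ρ) (hc : Fintype.card Γ = 2 * g) (hN : P.Num ρ) :
    CXD.NumTors k (CXD.hom (idk k P.p)) (CXD.crd (idk k P.p)) := by
  obtain ⟨C, hB, hT⟩ := hP k g π P (fun a => ∏ r, ρ r a) hN.del hN.deg
  obtain ⟨e1, e2⟩ := hI k P.p (P.act π) P.inj P.av.ne P.frob
  refine hD k (AlgebraicClosure k) _ e2 ?_
  rw [e1]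
  refine hT (hC Λ _ ρ b hρ g _ π hc C fun S e j he hj h => ?_)
  obtain ⟨Z, W, c, hc, hs⟩ := hN.alg S e j he hj h
  obtain ⟨y, w, hyw⟩ := hB Z W
  refine ⟨y, w, fun T => (g.factorial : ℂ) * c T,
    mul_ne_zero (Nat.cast_ne_zero.2 g.factorial_ne_zero) hc, fun a b => ?_⟩
  rw [hyw, hs, Finset.mul_sum]
  exact Finset.sum_congr rfl fun T _ => by ring

variable {Ω : Type} [Field Ω]

/-- the exact parallelogram law for the coordinates `x` -/
def Law {G σ : Type} [AddCommGroup G] (x : G → σ → Ω) : Prop :=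
  ∃ c : G × G → Ω, (∀ t, c t ≠ 0) ∧ ∀ i j, (c * fun t => x (t.1 + t.2) i * x (t.1 - t.2) j) ∈
    (crd fun t : G × G => x t.1) ^ 2 * (crd fun t : G × G => x t.2) ^ 2

theorem Law.pull {G H σ : Type} [AddCommGroup G] [AddCommGroup H] {x : H → σ → Ω} (h : Law x)
    (ψ : G →+ H) : Law fun y => x (ψ y) := by
  obtain ⟨c, hc, hw⟩ := h
  refine ⟨fun t => c (Prod.map ψ ψ t), fun t => hc _, fun i j => ?_⟩
  have := Submodule.mem_map_of_mem (f := (pb Ω (Prod.map ψ ψ)).toLinearMap) (hw i j)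
  rw [Submodule.map_mul, Submodule.map_pow, Submodule.map_pow, map_crd, map_crd] at this
  refine (congrArg (· ∈ _) (_root_.funext fun t => ?_)).mpr this
  simp

theorem mor_of_reg {T U σ τ : Type} [Fintype σ] [Fintype τ] {p : T → σ → Ω} {q : U → τ → Ω}
    (hp : ∀ t, p t ≠ 0) (hq : ∀ t, q t ≠ 0) {f : T → U}
    (h : Reg (fun _ : Unit => LS.co p hp) ((LS.co q hq).pb f)) : Mor p q f := by
  rw [LS.pb_co] at h
  have h1 := Rg.reg.2 (Reg.trans (fun _ => Reg.self (fun _ : Fin 1 => LS.co p hp) 0) h)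
  have e : (fun _ : Fin 1 => (LS.co p hp).sp) = ![crd p] :=
    funext fun i => by rw [Subsingleton.elim i 0]; rfl
  rw [e] at h1
  exact h1

variable {s : Sh} {B : Fib Ω s}

theorem dd_cf {V : LS Ω B.G} (b₀ : s.β) (hV : ∀ b, B.H b = V) {T β ι : Type} [Fintype β]
    [Fintype ι] {C : β → LS Ω T} (hC : Src C s.n) {v : T → B.G} (hv : RegM C B.H v)
    (L : ι → LS Ω T) (u : β ⊕ Unit → ι) (hu : Surjective u)
    (e : Sum.elim C (fun _ : Unit => V.pb v) = L ∘ u) :
    B.DD C v = (s.n.factorial : ℚ) *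
      coeff (Finsupp.single (u (Sum.inr ())) s.n) (hp fun i => (L i).sp) := by
  have h1 := mix_rep (ν := s.ν) hC (hv b₀) le_rfl L u hu (by rw [hV]; exact e)
  rw [hp_eq_pf, ← h1, Fib.DD]
  simp only [hV]

section
variable [IsAlgClosed Ω] {G τ σ : Type} [AddCommGroup G] [Fintype τ] [Fintype σ] {q m : ℕ} {π : s.Λ}
  (P : PMod Ω G τ σ s.Λ s.n q π) {x : B.G → σ → Ω} {hx : ∀ t, x t ≠ 0} (b₀ : s.β)
  (hV : ∀ b, B.H b = LS.co x hx) {ψ : G →+ B.G} {ψ' : B.G →+ G}
  (h : Iso B (LS.co P.p P.av.ne) ψ ψ' m) (hh : ∀ y, P.h y = x (ψ y))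
  (ha : ∀ a y, ψ (P.act a y) = a • ψ y)

include b₀ hV h hh ha

theorem PMod.dd1 (a : s.Λ) :
    B.DD (fun _ : Unit => LS.co P.p P.av.ne) (fun y => a • ψ y) =
      (s.n.factorial : ℚ) * P.num1 a := by
  have e : (![crd P.p, crd fun y => P.h (P.act a y)] : Fin 2 → _) = fun i =>
      ((![LS.co P.p P.av.ne, (LS.co x hx).pb fun y => a • ψ y] : Fin 2 → _) i).sp := by
    funext i
    fin_cases i
    · rfl
    · simp only [hh, ha, LS.pb_co]
      rfl
  rw [PMod.num1, e]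
  exact dd_cf b₀ hV h.src (h.r1.comp (regM_smul B a)) _ (Sum.elim (fun _ => 0) fun _ => 1)
    (fun i => by fin_cases i; exacts [⟨Sum.inl (), rfl⟩, ⟨Sum.inr (), rfl⟩])
    (funext fun i => by cases i <;> rfl)

theorem PMod.dd2 {Z W : Set G}
    (hs : Src (prodB (bz (LS.co P.p P.av.ne) Z) (bz (LS.co P.p P.av.ne) W)) s.n) (a b : s.Λ) :
    B.DD (prodB (bz (LS.co P.p P.av.ne) Z) (bz (LS.co P.p P.av.ne) W))
      (fun t : Z × W => a • ψ t.1 - b • ψ t.2) = (s.n.factorial : ℚ) * P.num2 Z W a b := by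
  have e : (![crd fun t : Z × W => P.p t.1, crd fun t => P.p t.2,
      crd fun t => P.h (P.act a t.1 - P.act b t.2)] : Fin 3 → _) = fun i =>
      ((![((LS.co P.p P.av.ne).pb Subtype.val).pb Prod.fst,
        ((LS.co P.p P.av.ne).pb Subtype.val).pb Prod.snd, (LS.co x hx).pb
          fun t : Z × W => a • ψ t.1 - b • ψ t.2] : Fin 3 → _) i).sp := by
    funext i
    fin_cases i
    · simp only [LS.pb_co]
      rfl
    · simp only [LS.pb_co]
      rfl
    · simp only [hh, map_sub, ha, LS.pb_co]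
      rfl
  rw [PMod.num2, e]
  exact dd_cf b₀ hV hs (h.reg2 Z W a b) _
    (Sum.elim (Sum.elim (fun _ => 0) fun _ => 1) fun _ => 2)
    (fun i => by
      fin_cases i
      exacts [⟨Sum.inl (Sum.inl ()), rfl⟩, ⟨Sum.inl (Sum.inr ()), rfl⟩, ⟨Sum.inr (), rfl⟩])
    (funext fun i => by rcases i with (i | i) | i <;> rfl)

theorem PMod.num_fib (hD : B.Deg) (hT : ∀ e ≠ 0, B.TateAlg (π ^ e) (q ^ e)) : P.Num s.χ := by
  have hg : ((s.n.factorial : ℚ) : ℂ) ≠ 0 := by exact_mod_cast s.n.factorial_ne_zero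
  have e1 : (fun y => (1 : s.Λ) • ψ y) = ψ := funext fun y => one_smul _ _
  have n1 := P.dd1 b₀ hV h hh ha
  refine ⟨fun h0 => h.del hD ?_, fun a => ?_, fun S n j hn _ hS => ?_⟩
  · rw [← e1, n1, h0, mul_zero]
  · have h1 := h.deg hD a
    rw [n1 a] at h1
    have h2 := n1 1
    rw [e1] at h2
    rw [h2, Rat.cast_mul, Rat.cast_mul, mul_left_comm] at h1
    exact mul_left_cancel₀ hg h1
  · have hA := hT n hn S j (by
      simp only [map_pow, Finset.prod_pow, Nat.cast_pow]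
      exact hS)
    obtain ⟨Z, W, c, hc, hs, hZ⟩ := h.alg hD hA
    refine ⟨Z, W, fun T => ((s.n.factorial : ℚ) : ℂ)⁻¹ * c T, mul_ne_zero (inv_ne_zero hg) hc,
      fun a b => ?_⟩
    have h1 := hZ a b
    rw [P.dd2 b₀ hV h hh ha hs a b, Rat.cast_mul] at h1
    refine ((eq_inv_mul_iff_mul_eq₀ hg).2 h1).trans ?_
    rw [Finset.mul_sum]
    exact Finset.sum_congr rfl fun T _ => by ring

end

section
variable (k : Type) [Field k] [Fintype k]

/-- point data with their numerical input exist for `p`, `F` -/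
def HasP {G τ : Type} [AddCommGroup G] (p : G → τ → AlgebraicClosure k) (g : ℕ) (F : G →+ G) :
    Prop :=
  ∃ (σ Λ Γ : Type) (_ : Fintype σ) (_ : CommRing Λ) (_ : Fintype Γ) (_ : DecidableEq Γ)
    (ρ : Γ → Λ →+* ℂ) (_ : Module.Basis Γ ℤ Λ) (π : Λ)
    (P : PMod (AlgebraicClosure k) G τ σ Λ g (Fintype.card k) π),
    Injective ρ ∧ Fintype.card Γ = 2 * g ∧ P.p = p ∧ P.act π = F ∧ P.Num ρ

theorem HasP.bav (hP : S_Pkg) (hC : S_Calc) (hD : S_Desc) (hI : S_Idk) {G τ : Type}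
    [AddCommGroup G] [Fintype τ] {p : G → τ → AlgebraicClosure k} {g : ℕ} {F : G →+ G}
    (h : HasP k p g F) : CXD.NumTors k (CXD.hom (idk k p)) (CXD.crd (idk k p)) := by
  obtain ⟨σ, Λ, Γ, _, _, _, _, ρ, b, π, P, hρ, hc, rfl, -, hN⟩ := h
  exact main_of_pmod hP hC hD hI k P b hρ hc hN

/-- a variety that is isogenous to a fibre -/
theorem hasP_of_iso {G τ σ : Type} [AddCommGroup G] [Fintype τ] [Fintype σ]
    {p : G → τ → AlgebraicClosure k} {B : Fib (AlgebraicClosure k) s} (av : AV p s.n)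
    (inj : ∀ y y', Par (p y) (p y') → y = y') {x : B.G → σ → AlgebraicClosure k}
    {hx : ∀ t, x t ≠ 0} (b₀ : s.β) (hV : ∀ b, B.H b = LS.co x hx) (law : Law x)
    {ψ : G →+ B.G} {ψ' : B.G →+ G} {m : ℕ} (h : Iso B (LS.co p av.ne) ψ ψ' m)
    (act : s.Λ →+* AddMonoid.End G) (mor : ∀ a, Mor p p (act a))
    (ha : ∀ a y, ψ (act a y) = a • ψ y) (π : s.Λ)
    (hF : ∀ y, Par (p (act π y)) (p y ^ Fintype.card k)) (deg : B.Deg)
    (hT : ∀ e ≠ 0, B.TateAlg (π ^ e) (Fintype.card k ^ e)) : HasP k p s.n (act π) := by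
  let P : PMod (AlgebraicClosure k) G τ σ s.Λ s.n (Fintype.card k) π :=
    { p := p
      h := fun y => x (ψ y)
      av := av
      inj := inj
      hne := fun _ => hx _
      hmor := mor_of_reg (q := x) (f := ψ) av.ne hx (hV b₀ ▸ h.r1 b₀)
      law := law.pull ψ
      act := act
      mor := mor
      frob := hF
      tors := tors_of (k := k) av.ne inj (F := act π) (by rwa [Nat.card_eq_fintype_card]) }
  exact ⟨σ, s.Λ, s.Γ, inferInstance, inferInstance, inferInstance, inferInstance, s.χ, s.bas, π, P,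
    s.inj, s.card, rfl, rfl,
    P.num_fib b₀ hV h (fun _ => rfl) ha deg hT⟩

/-- the variety itself is the fibre, in a second embedding `h` -/
theorem hasP_of_emb {G τ σ : Type} [AddCommGroup G] [Fintype τ] [Fintype σ] {g : ℕ}
    {p : G → τ → AlgebraicClosure k} (av : AV p g)
    (inj : ∀ y y', Par (p y) (p y') → y = y') {F : G →+ G}
    (hF : ∀ y, Par (p (F y)) (p y ^ Fintype.card k)) {h : G → σ → AlgebraicClosure k}
    (hh : ∀ y, h y ≠ 0) (m1 : Mor p h id) (m2 : Mor h p id) (law : Law h)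
    (B : Fib (AlgebraicClosure k) s) (e : G ≃+ B.G) (π : s.Λ) (b₀ : s.β) (hg : s.n = g)
    (hV : ∀ b, B.H b = (LS.co h hh).pb e.symm) (hπ : ∀ y, e (F y) = π • e y)
    (deg : B.Deg) (hT : ∀ n ≠ 0, B.TateAlg (π ^ n) (Fintype.card k ^ n)) : HasP k p g F := by
  subst hg
  have e1 : (e.symm ∘ e : G → G) = id := _root_.funext e.symm_apply_apply
  have r1 : RegM (fun _ : Unit => LS.co p av.ne) B.H e := fun b => by
    rw [hV, LS.pb_pb, e1]
    exact Mor.reg av.ne hh m1
  have r2 : RegM B.H (fun _ : Unit => LS.co p av.ne) e.symm := fun _ => by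
    have h1 := (Mor.reg hh av.ne m2).pb e.symm
    rw [LS.pb_id] at h1
    exact Reg.trans (fun _ => hV b₀ ▸ Reg.self B.H b₀) h1
  let act : s.Λ →+* AddMonoid.End G :=
    { toFun := fun a => e.symm.toAddMonoidHom.comp
        ((Module.toAddMonoidEnd s.Λ B.G a : B.G →+ B.G).comp e.toAddMonoidHom)
      map_one' := AddMonoidHom.ext fun y => by
        change e.symm ((1 : s.Λ) • e y) = y
        rw [one_smul, e.symm_apply_apply]
      map_mul' := fun a b => AddMonoidHom.ext fun y => by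
        change e.symm ((a * b) • e y) = e.symm (a • e (e.symm (b • e y)))
        rw [e.apply_symm_apply, mul_smul]
      map_zero' := AddMonoidHom.ext fun y => by
        change e.symm ((0 : s.Λ) • e y) = 0
        rw [zero_smul, map_zero]
      map_add' := fun a b => AddMonoidHom.ext fun y => by
        change e.symm ((a + b) • e y) = e.symm (a • e y) + e.symm (b • e y)
        rw [add_smul, map_add] }
  have e2 : F = act π := AddMonoidHom.ext fun y => (e.symm_apply_eq.2 (hπ y).symm).symm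
  subst e2
  exact hasP_of_iso k av inj (x := fun t => h (e.symm t)) (hx := fun t => hh _) b₀
    (fun b => (hV b).trans (LS.pb_co _ _ _)) (law.pull e.symm.toAddMonoidHom)
    (ψ := e.toAddMonoidHom) (ψ' := e.symm.toAddMonoidHom) (m := 1)
    ⟨av.src, r1, r2, one_ne_zero, fun b => (e.apply_symm_apply b).trans (one_smul _ b).symm⟩ act
    (fun a => mor_of_reg av.ne av.ne (((r1.comp (regM_smul B a)).comp r2) ()))
    (fun a y => e.apply_symm_apply _) π hF deg hT

end

end Pool.Agent.Bav
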