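import Pool.Agent.P.MP_dd457d_ag.Bav.BoxA

/-! External products. -/

set_option autoImplicit false

noncomputable section

namespace Pool.Agent.Bav

open MvPolynomial TensorProduct

variable {σ k ι κ : Type} [Field k] {I : Ideal (MvPolynomial σ k)}

theorem box_smul_inl {M : GM I ι} {N : GM I κ} {P : GM I (ι ⊕ κ)}
    {j : M.M ⊗[k] N.M ≃ₗ[k] P.M} (h : IsBox M N P j) (f : S σ k ι) (x : M.M) (y : N.M) :
    (rn Sum.inl f : S σ k (ι ⊕ κ)) • j (x ⊗ₜ y) = j ((f • x) ⊗ₜ y) := by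
  rw [← h.smul, boxHom_inl]

theorem box_smul_inr {M : GM I ι} {N : GM I κ} {P : GM I (ι ⊕ κ)}
    {j : M.M ⊗[k] N.M ≃ₗ[k] P.M} (h : IsBox M N P j) (f : S σ k κ) (x : M.M) (y : N.M) :
    (rn Sum.inr f : S σ k (ι ⊕ κ)) • j (x ⊗ₜ y) = j (x ⊗ₜ (f • y)) := by
  rw [← h.smul, boxHom_inr]

theorem box_π_tmul {M : GM I ι} {N : GM I κ} {P : GM I (ι ⊕ κ)}
    {j : M.M ⊗[k] N.M ≃ₗ[k] P.M} (h : IsBox M N P j) (d : ι ⊕ κ → ℤ) (x : M.M) (y : N.M) :
    P.π d (j (x ⊗ₜ y)) = j (M.π (d ∘ Sum.inl) x ⊗ₜ N.π (d ∘ Sum.inr) y) := by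
  rw [h.π, TensorProduct.map_tmul]

/-- two linear maps on a product that agree on pure tensors agree -/
theorem box_ext {M : GM I ι} {N : GM I κ} {P : GM I (ι ⊕ κ)}
    (j : M.M ⊗[k] N.M ≃ₗ[k] P.M) {p : P.M → Prop} (h0 : p 0)
    (h1 : ∀ x y, p (j (x ⊗ₜ y))) (h2 : ∀ x y, p x → p y → p (x + y)) (z : P.M) : p z := by
  obtain ⟨t, rfl⟩ := j.surjective z
  induction t using TensorProduct.induction_on with
  | zero => rw [map_zero]; exact h0
  | tmul x y => exact h1 x y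
  | add a b ha hb => rw [map_add]; exact h2 _ _ ha hb

/-- the map of products induced by two linear maps -/
def box_lin {ι' κ' : Type} {M : GM I ι} {N : GM I κ} {P : GM I (ι ⊕ κ)}
    {M' : GM I ι'} {N' : GM I κ'} {P' : GM I (ι' ⊕ κ')}
    (j : M.M ⊗[k] N.M ≃ₗ[k] P.M) (j' : M'.M ⊗[k] N'.M ≃ₗ[k] P'.M)
    (f : M.M →ₗ[k] M'.M) (g : N.M →ₗ[k] N'.M) : P.M →ₗ[k] P'.M :=
  j'.toLinearMap ∘ₗ TensorProduct.map f g ∘ₗ j.symm.toLinearMap

theorem box_lin_apply {ι' κ' : Type} {M : GM I ι} {N : GM I κ} {P : GM I (ι ⊕ κ)}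
    {M' : GM I ι'} {N' : GM I κ'} {P' : GM I (ι' ⊕ κ')}
    (j : M.M ⊗[k] N.M ≃ₗ[k] P.M) (j' : M'.M ⊗[k] N'.M ≃ₗ[k] P'.M)
    (f : M.M →ₗ[k] M'.M) (g : N.M →ₗ[k] N'.M) (t : M.M ⊗[k] N.M) :
    box_lin j j' f g (j t) = j' (TensorProduct.map f g t) := by
  simp [box_lin]

theorem box_lin_tmul {ι' κ' : Type} {M : GM I ι} {N : GM I κ} {P : GM I (ι ⊕ κ)}
    {M' : GM I ι'} {N' : GM I κ'} {P' : GM I (ι' ⊕ κ')}
    (j : M.M ⊗[k] N.M ≃ₗ[k] P.M) (j' : M'.M ⊗[k] N'.M ≃ₗ[k] P'.M)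
    (f : M.M →ₗ[k] M'.M) (g : N.M →ₗ[k] N'.M) (x : M.M) (y : N.M) :
    box_lin j j' f g (j (x ⊗ₜ y)) = j' (f x ⊗ₜ g y) := by
  rw [box_lin_apply, TensorProduct.map_tmul]

/-- compatibility of the induced map with ring maps -/
theorem box_lin_smul {ι' κ' : Type} {M : GM I ι} {N : GM I κ} {P : GM I (ι ⊕ κ)}
    {M' : GM I ι'} {N' : GM I κ'} {P' : GM I (ι' ⊕ κ')}
    {j : M.M ⊗[k] N.M ≃ₗ[k] P.M} {j' : M'.M ⊗[k] N'.M ≃ₗ[k] P'.M}
    (h : IsBox M N P j) (h' : IsBox M' N' P' j')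
    (f : M.M →ₗ[k] M'.M) (g : N.M →ₗ[k] N'.M) (θ₁ : S σ k ι →ₐ[k] S σ k ι')
    (θ₂ : S σ k κ →ₐ[k] S σ k κ') (θ : S σ k (ι ⊕ κ) →ₐ[k] S σ k (ι' ⊕ κ'))
    (hf : ∀ (s : S σ k ι) x, f (s • x) = θ₁ s • f x) (hg : ∀ (s : S σ k κ) x, g (s • x) = θ₂ s • g x)
    (h1 : ∀ i a, θ (X (Sum.inl i, a)) = rn Sum.inl (θ₁ (X (i, a))))
    (h2 : ∀ i a, θ (X (Sum.inr i, a)) = rn Sum.inr (θ₂ (X (i, a)))) (s : S σ k (ι ⊕ κ)) (z : P.M) :
    box_lin j j' f g (s • z) = θ s • box_lin j j' f g z := by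
  refine smul_of_X θ (box_lin j j' f g) ?_ s z
  rintro ⟨i | i, a⟩ z
  · refine box_ext j (p := fun z => box_lin j j' f g ((X (Sum.inl i, a) : S σ k (ι ⊕ κ)) • z) =
      θ (X (Sum.inl i, a)) • box_lin j j' f g z) (by simp) (fun x y => ?_)
      (fun x y hx hy => ?_) z
    · have e : (X (Sum.inl i, a) : S σ k (ι ⊕ κ)) = rn Sum.inl (X (i, a) : S σ k ι) :=
        (rn_X Sum.inl (i, a)).symm
      rw [h1, box_lin_tmul, box_smul_inl h', e, box_smul_inl h, box_lin_tmul, hf]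
    · simp only [smul_add, map_add] at hx hy ⊢
      rw [hx, hy]
  · refine box_ext j (p := fun z => box_lin j j' f g ((X (Sum.inr i, a) : S σ k (ι ⊕ κ)) • z) =
      θ (X (Sum.inr i, a)) • box_lin j j' f g z) (by simp) (fun x y => ?_)
      (fun x y hx hy => ?_) z
    · have e : (X (Sum.inr i, a) : S σ k (ι ⊕ κ)) = rn Sum.inr (X (i, a) : S σ k κ) :=
        (rn_X Sum.inr (i, a)).symm
      rw [h2, box_lin_tmul, box_smul_inr h', e, box_smul_inr h, box_lin_tmul, hg]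
    · simp only [smul_add, map_add] at hx hy ⊢
      rw [hx, hy]

/-- compatibility of the induced map with the gradings -/
theorem box_lin_π {ι' κ' : Type} {M : GM I ι} {N : GM I κ} {P : GM I (ι ⊕ κ)}
    {M' : GM I ι'} {N' : GM I κ'} {P' : GM I (ι' ⊕ κ')}
    {j : M.M ⊗[k] N.M ≃ₗ[k] P.M} {j' : M'.M ⊗[k] N'.M ≃ₗ[k] P'.M}
    (h : IsBox M N P j) (h' : IsBox M' N' P' j')
    (f : M.M →ₗ[k] M'.M) (g : N.M →ₗ[k] N'.M) (d : ι ⊕ κ → ℤ) (d' : ι' ⊕ κ' → ℤ)
    (hf : ∀ x, f (M.π (d ∘ Sum.inl) x) = M'.π (d' ∘ Sum.inl) (f x))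
    (hg : ∀ x, g (N.π (d ∘ Sum.inr) x) = N'.π (d' ∘ Sum.inr) (g x)) (z : P.M) :
    box_lin j j' f g (P.π d z) = P'.π d' (box_lin j j' f g z) := by
  refine box_ext j (p := fun z => box_lin j j' f g (P.π d z) = P'.π d' (box_lin j j' f g z))
    (by simp) (fun x y => ?_) (fun x y hx hy => ?_) z
  · rw [box_π_tmul h, box_lin_tmul, box_lin_tmul, box_π_tmul h', hf, hg]
  · simp only [map_add] at hx hy ⊢
    rw [hx, hy]

/-- the homomorphism of products induced by two homomorphisms -/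
def box_hom {M M' : GM I ι} {N N' : GM I κ} {P P' : GM I (ι ⊕ κ)}
    {j : M.M ⊗[k] N.M ≃ₗ[k] P.M} {j' : M'.M ⊗[k] N'.M ≃ₗ[k] P'.M}
    (h : IsBox M N P j) (h' : IsBox M' N' P' j') (f : Hom M M') (g : Hom N N') : Hom P P' :=
  Hom.mk' (box_lin j j' (f.f.restrictScalars k) (g.f.restrictScalars k))
    (box_lin_smul h h' _ _ (AlgHom.id k _) (AlgHom.id k _) (AlgHom.id k _)
      (fun s x => f.f.map_smul s x) (fun s x => g.f.map_smul s x)
      (fun i a => (rn_X Sum.inl (i, a)).symm) (fun i a => (rn_X Sum.inr (i, a)).symm))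
    (fun d => box_lin_π h h' _ _ d d (f.π _) (g.π _))

theorem box_hom_coe {M M' : GM I ι} {N N' : GM I κ} {P P' : GM I (ι ⊕ κ)}
    {j : M.M ⊗[k] N.M ≃ₗ[k] P.M} {j' : M'.M ⊗[k] N'.M ≃ₗ[k] P'.M}
    (h : IsBox M N P j) (h' : IsBox M' N' P' j') (f : Hom M M') (g : Hom N N') :
    ⇑(box_hom h h' f g).f =
      j' ∘ TensorProduct.map (f.f.restrictScalars k) (g.f.restrictScalars k) ∘ j.symm := rfl

/-- the identity homomorphism -/
def box_id (M : GM I ι) : Hom M M := ⟨LinearMap.id, fun _ _ => rfl⟩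

/-- transport of a short exact sequence along isomorphisms -/
theorem box_ses_of {P₁ P₂ P₃ : GM I ι} {A B C : Type} [AddCommGroup A] [Module k A]
    [AddCommGroup B] [Module k B] [AddCommGroup C] [Module k C] (j₁ : A ≃ₗ[k] P₁.M)
    (j₂ : B ≃ₗ[k] P₂.M) (j₃ : C ≃ₗ[k] P₃.M) (a : A →ₗ[k] B) (b : B →ₗ[k] C) (f : Hom P₁ P₂)
    (g : Hom P₂ P₃) (hf : ⇑f.f = j₂ ∘ a ∘ j₁.symm) (hg : ⇑g.f = j₃ ∘ b ∘ j₂.symm)
    (h1 : Function.Injective a) (h2 : Function.Surjective b) (h3 : Function.Exact a b) :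
    SES f g := by
  refine ⟨?_, ?_, fun y => ?_⟩
  · rw [hf]
    exact j₂.injective.comp (h1.comp j₁.symm.injective)
  · rw [hg]
    exact j₃.surjective.comp (h2.comp j₂.symm.surjective)
  · rw [hf, hg]
    simp only [Function.comp_apply, EmbeddingLike.map_eq_zero_iff, Set.mem_range]
    rw [h3 (j₂.symm y)]
    constructor
    · rintro ⟨x, hx⟩
      exact ⟨j₁ x, by rw [j₁.symm_apply_apply, hx, j₂.apply_symm_apply]⟩
    · rintro ⟨x, hx⟩
      exact ⟨j₁.symm x, by rw [← hx, j₂.symm_apply_apply]⟩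

/-- the class of a product of two modules -/
def box_bx (M : GM I ι) (N : GM I κ) : G I (ι ⊕ κ) := cls (exists_isBox M N).choose

variable [Fintype σ] [Fintype ι] [Fintype κ]

theorem box_cls_eq {M : GM I ι} {N : GM I κ} {P : GM I (ι ⊕ κ)}
    {j : M.M ⊗[k] N.M ≃ₗ[k] P.M} (h : IsBox M N P j) : cls P = box_bx M N := by
  obtain ⟨j', h'⟩ := (exists_isBox M N).choose_spec
  refine cls_iso (box_hom h h' (box_id M) (box_id N)) ?_
  rw [box_hom_coe]
  have e : TensorProduct.map ((box_id M).f.restrictScalars k) ((box_id N).f.restrictScalars k) =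
      LinearMap.id := TensorProduct.map_id
  rw [e]
  exact j'.bijective.comp (Function.bijective_id.comp j.symm.bijective)

theorem box_bx_left {M₁ M₂ M₃ : GM I ι} {f : Hom M₁ M₂} {g : Hom M₂ M₃} (h : SES f g)
    (N : GM I κ) : box_bx M₂ N = box_bx M₁ N + box_bx M₃ N := by
  obtain ⟨P₁, j₁, h₁⟩ := exists_isBox M₁ N
  obtain ⟨P₂, j₂, h₂⟩ := exists_isBox M₂ N
  obtain ⟨P₃, j₃, h₃⟩ := exists_isBox M₃ N
  rw [← box_cls_eq h₁, ← box_cls_eq h₂, ← box_cls_eq h₃]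
  refine cls_ses (box_ses_of j₁ j₂ j₃ ((f.f.restrictScalars k).rTensor N.M)
    ((g.f.restrictScalars k).rTensor N.M) (box_hom h₁ h₂ f (box_id N))
    (box_hom h₂ h₃ g (box_id N)) rfl rfl ?_ ?_ ?_)
  · exact Module.Flat.rTensor_preserves_injective_linearMap _ h.1
  · exact LinearMap.rTensor_surjective _ h.2.1
  · exact rTensor_exact _ h.2.2 h.2.1

theorem box_bx_right (M : GM I ι) {N₁ N₂ N₃ : GM I κ} {f : Hom N₁ N₂} {g : Hom N₂ N₃}
    (h : SES f g) : box_bx M N₂ = box_bx M N₁ + box_bx M N₃ := by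
  obtain ⟨P₁, j₁, h₁⟩ := exists_isBox M N₁
  obtain ⟨P₂, j₂, h₂⟩ := exists_isBox M N₂
  obtain ⟨P₃, j₃, h₃⟩ := exists_isBox M N₃
  rw [← box_cls_eq h₁, ← box_cls_eq h₂, ← box_cls_eq h₃]
  refine cls_ses (box_ses_of j₁ j₂ j₃ ((f.f.restrictScalars k).lTensor M.M)
    ((g.f.restrictScalars k).lTensor M.M) (box_hom h₁ h₂ (box_id M) f)
    (box_hom h₂ h₃ (box_id M) g) rfl rfl ?_ ?_ ?_)
  · exact Module.Flat.lTensor_preserves_injective_linearMap _ h.1
  · exact LinearMap.lTensor_surjective _ h.2.1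
  · exact lTensor_exact _ h.2.2 h.2.1

theorem box_bx_tors_left {M : GM I ι} (h : Tors M) (N : GM I κ) : box_bx M N = 0 := by
  obtain ⟨P, j, hP⟩ := exists_isBox M N
  rw [← box_cls_eq hP]
  obtain ⟨d₀, hd⟩ := h
  refine cls_tors ⟨Sum.elim d₀ 0, fun d hdd => LinearMap.ext fun z => ?_⟩
  obtain ⟨t, rfl⟩ := j.surjective z
  rw [hP.π, hd (d ∘ Sum.inl) fun i => hdd (Sum.inl i)]
  simp

theorem box_bx_tors_right (M : GM I ι) {N : GM I κ} (h : Tors N) : box_bx M N = 0 := by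
  obtain ⟨P, j, hP⟩ := exists_isBox M N
  rw [← box_cls_eq hP]
  obtain ⟨d₀, hd⟩ := h
  refine cls_tors ⟨Sum.elim 0 d₀, fun d hdd => LinearMap.ext fun z => ?_⟩
  obtain ⟨t, rfl⟩ := j.surjective z
  rw [hP.π, hd (d ∘ Sum.inr) fun i => hdd (Sum.inr i)]
  simp

theorem exists_boxG (I : Ideal (MvPolynomial σ k)) (ι κ : Type) [Fintype ι] [Fintype κ] :
    ∃ B : G I ι →ₗ[ℂ] G I κ →ₗ[ℂ] G I (ι ⊕ κ),
      ∀ M N P j, IsBox M N P j → B (cls M) (cls N) = cls P := by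
  have h1 : ∀ M : GM I ι, ∃ F : G I κ →ₗ[ℂ] G I (ι ⊕ κ), ∀ N, F (cls N) = box_bx M N :=
    fun M => exists_lift (box_bx M) (fun _ _ _ _ _ h => box_bx_right M h)
      fun _ h => box_bx_tors_right M h
  choose F hF using h1
  obtain ⟨B, hB⟩ := exists_lift F
    (fun M₁ M₂ M₃ f g h => G.ext fun N => by
      rw [LinearMap.add_apply, hF, hF, hF, box_bx_left h])
    fun M h => G.ext fun N => by rw [hF, box_bx_tors_left h, LinearMap.zero_apply]
  exact ⟨B, fun M N P j h => by rw [hB, hF, box_cls_eq h]⟩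

/-- external product of classes -/
def boxG : G I ι →ₗ[ℂ] G I κ →ₗ[ℂ] G I (ι ⊕ κ) := (exists_boxG I ι κ).choose

theorem IsBox.boxG_cls {M : GM I ι} {N : GM I κ} {P : GM I (ι ⊕ κ)}
    {j : M.M ⊗[k] N.M ≃ₗ[k] P.M} (h : IsBox M N P j) : boxG (cls M) (cls N) = cls P :=
  (exists_boxG I ι κ).choose_spec M N P j h

theorem boxG_cy {J : Ideal (S σ k ι)} {J' : Ideal (S σ k κ)} (hJ : GrI J) (hF : IX I ι ≤ J)
    (hJ' : GrI J') (hF' : IX I κ ≤ J') (n : ι → ℤ) (n' : κ → ℤ) :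
    boxG (cy I J n) (cy I J' n') =
      cy I (J.map (rn Sum.inl) ⊔ J'.map (rn Sum.inr)) (Sum.elim n n') := by
  obtain ⟨M, x, hx, e⟩ := exists_cy hJ hF n
  obtain ⟨N, y, hy, e'⟩ := exists_cy hJ' hF' n'
  obtain ⟨P, j, h⟩ := exists_isBox M N
  rw [e, e', h.boxG_cls, (h.cyc hx hy).cls_eq]

omit [Fintype σ] [Fintype ι] [Fintype κ] in
theorem IX_sum : (IX I ι).map (rn Sum.inl) ⊔ (IX I κ).map (rn Sum.inr) =
    IX I (ι ⊕ κ) := by
  apply le_antisymm
  · exact sup_le (Ideal.map_le_iff_le_comap.2 fun g hg => rn_mem_IX _ hg)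
      (Ideal.map_le_iff_le_comap.2 fun g hg => rn_mem_IX _ hg)
  · refine IX_le ?_
    rintro (i | i) f hf
    · rw [← rn_blk Sum.inl i]
      exact Ideal.mem_sup_left (Ideal.mem_map_of_mem _ (blk_mem i hf))
    · rw [← rn_blk Sum.inr i]
      exact Ideal.mem_sup_right (Ideal.mem_map_of_mem _ (blk_mem i hf))

omit [Fintype σ] [Fintype ι] [Fintype κ] in
theorem box_rn_C {μ : Type} (f : ι → μ) (a : k) : rn f (C a : S σ k ι) = C a := rename_C _ a

theorem pullG_sum {ι' κ' : Type} [Fintype ι'] [Fintype κ'] {D : PD I ι' ι} {D' : PD I κ' κ}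
    (hs : Function.Surjective D.τ) (hs' : Function.Surjective D'.τ) (x : G I ι) (y : G I κ) :
    pullG (D.sum D') (boxG x y) = boxG (pullG D x) (pullG D' y) := by
  have hss : Function.Surjective (D.sum D').τ := hs.sumMap hs'
  have key : ∀ (M : GM I ι) (N : GM I κ),
      pullG (D.sum D') (boxG (cls M) (cls N)) = boxG (pullG D (cls M)) (pullG D' (cls N)) := by
    intro M N
    obtain ⟨M', a, ha⟩ := exists_isPull D M
    obtain ⟨N', b, hb⟩ := exists_isPull D' N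
    obtain ⟨P, j, h⟩ := exists_isBox M N
    obtain ⟨P', j', h'⟩ := exists_isBox M' N'
    rw [ha.pullG_cls hs, hb.pullG_cls hs', h.boxG_cls, h'.boxG_cls]
    have v1 : ∀ e : ι' ⊕ κ' → ℤ, (D.sum D').val e ∘ Sum.inl = D.val (e ∘ Sum.inl) := by
      intro e
      funext l
      obtain ⟨i, rfl⟩ := hs l
      rw [PD.val_τ]
      exact (D.sum D').val_τ e (Sum.inl i)
    have v2 : ∀ e : ι' ⊕ κ' → ℤ, (D.sum D').val e ∘ Sum.inr = D'.val (e ∘ Sum.inr) := by
      intro e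
      funext l
      obtain ⟨i, rfl⟩ := hs' l
      rw [PD.val_τ]
      exact (D.sum D').val_τ e (Sum.inr i)
    refine IsPull.pullG_cls hss (j := box_lin j' j a b) ⟨?_, ?_, fun e => ?_, fun e z => ?_⟩
    · have hinj : Function.Injective (TensorProduct.map a b) := by
        rw [← LinearMap.lTensor_comp_rTensor]
        exact (Module.Flat.lTensor_preserves_injective_linearMap _ hb.inj).comp
          (Module.Flat.rTensor_preserves_injective_linearMap _ ha.inj)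
      exact j.injective.comp (hinj.comp j'.symm.injective)
    · refine box_lin_smul h' h a b D.φ D'.φ (D.sum D').φ ha.smul hb.smul (fun i c => ?_)
        fun i c => ?_
      · rw [PD.φ_X, PD.φ_X, map_mul, map_pow, box_rn_C, rn_X]
        rfl
      · rw [PD.φ_X, PD.φ_X, map_mul, map_pow, box_rn_C, rn_X]
        rfl
    · refine box_lin_π h' h a b e _ (fun x => ?_) fun x => ?_
      · rw [v1, ha.π]
      · rw [v2, hb.π]
    · refine box_ext j (p := fun z => P.π ((D.sum D').val e) z ∈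
        LinearMap.range (box_lin j' j a b)) (by simp) (fun x y => ?_) (fun x y hx hy => ?_) z
      · rw [box_π_tmul h, v1, v2]
        obtain ⟨x', hx'⟩ := ha.surj (e ∘ Sum.inl) x
        obtain ⟨y', hy'⟩ := hb.surj (e ∘ Sum.inr) y
        exact ⟨j' (x' ⊗ₜ y'), by rw [box_lin_tmul, hx', hy']⟩
      · simp only [map_add] at hx hy ⊢
        exact add_mem hx hy
  induction x using G.ind with
  | h0 => simp
  | h2 x x' hx hx' => simp only [map_add, LinearMap.add_apply, hx, hx']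
  | h3 c x hx => simp only [map_smul, LinearMap.smul_apply, hx]
  | h1 M =>
    induction y using G.ind with
    | h0 => simp
    | h2 y y' hy hy' => simp only [map_add, hy, hy']
    | h3 c y hy => simp only [map_smul, hy]
    | h1 N => exact key M N

/-- slices of a product -/
theorem pl_box {M : GM I ι} {N : GM I κ} {P : GM I (ι ⊕ κ)}
    {j : M.M ⊗[k] N.M ≃ₗ[k] P.M} (h : IsBox M N P j) (D : PD I κ (ι ⊕ κ))
    (hτ : D.τ = Sum.inr) (hc : ∀ v, D.c v = 1) (hq : ∀ i, D.q i = 1)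
    (ho : ∀ i, D.o (Sum.inr i) = 0) :
    pl D P = (hilb M (D.o ∘ Sum.inl) : ℂ) • cls N := by
  set o := D.o ∘ Sum.inl with hodef
  have := M.finite_piece o
  obtain ⟨b⟩ : Nonempty (Module.Basis (Fin (hilb M o)) k (LinearMap.range (M.π o))) :=
    ⟨Module.finBasis k (LinearMap.range (M.π o))⟩
  have v1 : ∀ e : κ → ℤ, D.val e ∘ Sum.inl = o := by
    intro e
    funext l
    exact D.val_of_not e fun i => by rw [hτ]; exact Sum.inr_ne_inl
  have v2 : ∀ e : κ → ℤ, D.val e ∘ Sum.inr = e := by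
    intro e
    funext i
    have := D.val_τ e i
    rw [hτ, ho, hq] at this
    simpa using this
  have hφ : D.φ = rn Sum.inr := by
    refine MvPolynomial.algHom_ext fun v => ?_
    rw [PD.φ_X, hc, hq, hτ, rn_X]
    simp
  have hb : ∀ a, M.π o (b a : M.M) = b a := fun a => M.mem_range_π.1 (b a).2
  let i₀ : (Fin (hilb M o) → N.M) →ₗ[k] M.M ⊗[k] N.M :=
    ∑ a, TensorProduct.mk k M.M N.M (b a : M.M) ∘ₗ LinearMap.proj a
  have hi₀ : ∀ ξ, i₀ ξ = ∑ a, (b a : M.M) ⊗ₜ ξ a := fun ξ => by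
    simp only [i₀, LinearMap.sum_apply]
    rfl
  have hp : IsPull D P (N.pw (Fin (hilb M o))) (j.toLinearMap ∘ₗ i₀) := by
    refine ⟨?_, fun f ξ => ?_, fun e ξ => ?_, fun e z => ?_⟩
    · refine j.injective.comp ((injective_iff_map_eq_zero i₀).2 fun ξ hξ => funext fun a => ?_)
      have h1 := congrArg (fun t => TensorProduct.lid k N.M
        ((b.coord a ∘ₗ (M.π o).rangeRestrict).rTensor N.M t)) hξ
      have h2 : ∀ a', (M.π o).rangeRestrict (b a' : M.M) = b a' := fun a' => Subtype.ext (hb a')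
      simp only [hi₀, map_sum, LinearMap.rTensor_tmul, LinearMap.comp_apply, h2,
        TensorProduct.lid_tmul, map_zero, Module.Basis.coord_apply, Module.Basis.repr_self] at h1
      rw [Finset.sum_eq_single a (fun a' _ ha => by rw [Finsupp.single_eq_of_ne' ha, zero_smul])
        (fun ha => absurd (Finset.mem_univ a) ha), Finsupp.single_eq_same, one_smul] at h1
      exact h1
    · change j (i₀ (f • ξ)) = D.φ f • j (i₀ ξ)
      rw [hi₀, hi₀, map_sum, map_sum, Finset.smul_sum, hφ]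
      exact Finset.sum_congr rfl fun a _ => (box_smul_inr h f _ _).symm
    · change j (i₀ _) = P.π (D.val e) (j (i₀ ξ))
      rw [hi₀, hi₀, map_sum, map_sum, map_sum]
      refine Finset.sum_congr rfl fun a _ => ?_
      rw [box_π_tmul h, v1, v2, hb]
      rfl
    · refine box_ext j (p := fun z => P.π (D.val e) z ∈
        LinearMap.range (j.toLinearMap ∘ₗ i₀)) (by simp) (fun x y => ?_) (fun x y hx hy => ?_) z
      · rw [box_π_tmul h, v1, v2]
        refine ⟨fun a => b.repr ((M.π o).rangeRestrict x) a • N.π e y, ?_⟩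
        change j (i₀ _) = _
        rw [hi₀]
        congr 1
        have h3 : M.π o x = ∑ a, b.repr ((M.π o).rangeRestrict x) a • (b a : M.M) := by
          have := congrArg Subtype.val (b.sum_repr ((M.π o).rangeRestrict x))
          rw [Submodule.coe_sum] at this
          exact this.symm
        rw [h3, TensorProduct.sum_tmul]
        exact Finset.sum_congr rfl fun a _ => (TensorProduct.smul_tmul _ _ _).symm
      · simp only [map_add] at hx hy ⊢
        exact add_mem hx hy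
  rw [← hp.cls_eq, cls_pw, Fintype.card_fin]

end Pool.Agent.Bav
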