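import Pool.Agent.P.MP_dd457d_ag.Bav.BasicA

/-! Basic properties of graded modules. -/

set_option autoImplicit false

noncomputable section

namespace Pool.Agent.Bav

open MvPolynomial

variable {σ k ι : Type} [Field k] {I : Ideal (MvPolynomial σ k)} {M N P : GM I ι}

theorem ses_sub_quo [Finite σ] [Finite ι] (M : GM I ι) (W : Submodule (S σ k ι) M.M) (h : Gr M W) :
    SES (M.subι W h) (M.quop W h) :=
  ⟨W.subtype_injective, W.mkQ_surjective, LinearMap.exact_subtype_mkQ W⟩

theorem basic_hg_mono [Fintype ι] (α : ι → σ) (N : ℕ) :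
    Hg (mono k α ^ N) fun _ => (N : ℤ) := by
  classical
  have h := (IsWeightedHomogeneous.prod Finset.univ (fun i => (X (i, α i) : S σ k ι))
    (fun i => wt (i, α i)) fun i _ => hg_X _).pow N
  have e : N • ∑ i, wt (i, α i) = fun _ : ι => (N : ℤ) := by
    funext l
    simp [Finset.sum_apply, wt_apply]
  rw [e] at h
  exact h

theorem basic_mem_of_deg [Fintype σ] [Fintype ι] {J : Ideal (S σ k ι)} {N : ℕ} (h : ∀ α, mono k α ^ N ∈ J)
    {g : S σ k ι} {e : ι → ℤ} (hg : Hg g e) (he : ∀ i, Fintype.card σ * (N : ℤ) < e i) : g ∈ J := by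
  classical
  rw [g.as_sum]
  refine J.sum_mem fun s hs => ?_
  have hα : ∀ i, ∃ j, N ≤ s (i, j) := by
    intro i
    by_contra hc
    push Not at hc
    have h1 := hg.deg hs i
    have h2 := he i
    have h3 : ∑ j, s (i, j) ≤ Fintype.card σ * N := by
      simpa using Finset.sum_le_card_nsmul Finset.univ (fun j => s (i, j)) N fun j _ => (hc j).le
    have h4 : ((∑ j, s (i, j) : ℕ) : ℤ) ≤ Fintype.card σ * (N : ℤ) := by exact_mod_cast h3
    omega
  choose α hα using hα
  refine Ideal.mem_of_dvd J ?_ (h α)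
  rw [monomial_eq, Finsupp.prod_fintype _ _ (fun _ => pow_zero _), Fintype.prod_prod_type, mono,
    ← Finset.prod_pow]
  exact Dvd.dvd.mul_left (Finset.prod_dvd_prod_of_dvd _ _ fun i _ => (pow_dvd_pow _ (hα i)).trans
    (Finset.dvd_prod_of_mem (fun j => (X (i, j) : S σ k ι) ^ s (i, j)) (Finset.mem_univ _))) _

theorem tors_iff_irr [Finite σ] [Fintype ι] (M : GM I ι) : Tors M ↔ Irr M.ann := by
  cases nonempty_fintype σ
  obtain ⟨n, x, d, hx, hsp⟩ := M.exists_gens
  constructor
  · rintro ⟨d0, h0⟩ α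
    obtain ⟨B, hB⟩ := Finite.exists_le fun p : Fin n × ι => (d0 p.2 - d p.1 p.2).toNat
    refine ⟨B, GM.mem_ann.2 fun y => ?_⟩
    have hy : y ∈ Submodule.span (S σ k ι) (Set.range x) := hsp ▸ Submodule.mem_top
    have hle : Submodule.span (S σ k ι) (Set.range x) ≤
        LinearMap.ker (LinearMap.lsmul (S σ k ι) M.M (mono k α ^ B)) := by
      refine Submodule.span_le.2 ?_
      rintro _ ⟨i, rfl⟩
      change mono k α ^ B • x i = 0
      rw [← hx i, ← M.π_smul (basic_hg_mono α B), h0, LinearMap.zero_apply]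
      intro l
      have := hB (i, l)
      simp only [Pi.add_apply] at this ⊢
      omega
    exact hle hy
  · intro h
    choose N hN using h
    obtain ⟨B, hB⟩ := Finite.exists_le N
    have hB' : ∀ α, mono k α ^ B ∈ M.ann := fun α =>
      Ideal.mem_of_dvd _ (pow_dvd_pow _ (hB α)) (hN α)
    obtain ⟨D, hD⟩ := Finite.exists_le fun p : Fin n × ι => d p.1 p.2
    refine ⟨fun _ => D + Fintype.card σ * B + 1, fun e he => LinearMap.ext fun y => ?_⟩
    have hy : y ∈ Submodule.span (S σ k ι) (Set.range x) := hsp ▸ Submodule.mem_top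
    obtain ⟨c, rfl⟩ := (Submodule.mem_span_range_iff_exists_fun _).1 hy
    rw [map_sum, LinearMap.zero_apply]
    refine Finset.sum_eq_zero fun i _ => ?_
    have h1 := M.π_smul_hom (hx i) (c i) (e - d i)
    rw [sub_add_cancel] at h1
    rw [h1]
    refine GM.mem_ann.1 (basic_mem_of_deg hB'
      (weightedHomogeneousComponent_isWeightedHomogeneous _ _) fun l => ?_) _
    have h2 := hD (i, l)
    have h3 := he l
    simp only [Pi.sub_apply] at h2 h3 ⊢
    omega

theorem tors_iff_hilb [Finite σ] [Finite ι] (M : GM I ι) :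
    Tors M ↔ ∀ᶠ d in Filter.atTop, hilb M d = 0 := by
  rw [Filter.eventually_atTop]
  refine exists_congr fun d0 => forall_congr' fun d => imp_congr_right fun _ => ?_
  have := M.finite_piece d
  rw [hilb, Submodule.finrank_eq_zero, LinearMap.range_eq_bot]

theorem basic_rank {V W : Type} [AddCommGroup V] [Module k V] [AddCommGroup W] [Module k W]
    (φ : V →ₗ[k] W) (A : Submodule k V) [Module.Finite k A] :
    Module.finrank k (A.map φ) + Module.finrank k ↥(A ⊓ LinearMap.ker φ) = Module.finrank k A := by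
  have h := (φ.domRestrict A).finrank_range_add_finrank_ker
  rwa [LinearMap.range_domRestrict, LinearMap.ker_domRestrict,
    ← Submodule.finrank_map_subtype_eq, Submodule.map_comap_subtype] at h

theorem hilb_ses [Finite σ] [Finite ι] {f : Hom M N} {g : Hom N P} (h : SES f g) (d : ι → ℤ) :
    hilb N d = hilb M d + hilb P d := by
  obtain ⟨h1, h2, h3⟩ := h
  have := N.finite_piece d
  have h4 := basic_rank (g.f.restrictScalars k) (LinearMap.range (N.π d))
  have e1 : (LinearMap.range (N.π d)).map (g.f.restrictScalars k) = LinearMap.range (P.π d) := by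
    ext z
    constructor
    · rintro ⟨_, ⟨y, rfl⟩, rfl⟩
      exact ⟨g.f y, (g.π d y).symm⟩
    · rintro ⟨z, rfl⟩
      obtain ⟨y, rfl⟩ := h2 z
      exact ⟨_, ⟨y, rfl⟩, g.π d y⟩
  have e2 : LinearMap.range (N.π d) ⊓ LinearMap.ker (g.f.restrictScalars k) =
      (LinearMap.range (M.π d)).map (f.f.restrictScalars k) := by
    ext y
    constructor
    · rintro ⟨hy, hy'⟩
      obtain ⟨x, rfl⟩ := (h3 y).1 hy'
      exact ⟨_, ⟨x, rfl⟩, (f.π d x).trans (N.mem_range_π.1 hy)⟩
    · rintro ⟨_, ⟨x, rfl⟩, rfl⟩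
      exact ⟨⟨f.f x, (f.π d x).symm⟩, (h3 _).2 ⟨_, rfl⟩⟩
  rw [e1, e2, ← (Submodule.equivMapOfInjective (f.f.restrictScalars k) h1 _).finrank_eq] at h4
  unfold hilb
  omega

theorem hilb_sh (n : ι → ℤ) (M : GM I ι) (d : ι → ℤ) : hilb (M.sh n) d = hilb M (d + n) := rfl

theorem basic_cmp_X (v : ι × σ) (d : ι → ℤ) (f : S σ k ι) :
    cmp (d + wt v) (X v * f) = X v * cmp d f := by
  classical
  induction f using MvPolynomial.induction_on' with
  | monomial s a =>
    have h1 : Hg (monomial s a : S σ k ι) (Finsupp.weight wt s) :=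
      isWeightedHomogeneous_monomial _ _ _ rfl
    rw [weightedHomogeneousComponent_of_mem ((hg_X v).mul h1),
      weightedHomogeneousComponent_of_mem h1]
    by_cases h : d = Finsupp.weight wt s
    · rw [if_pos h, if_pos (by rw [h, add_comm])]
    · rw [if_neg h, if_neg fun h' => h (add_right_cancel (h'.trans (add_comm _ _))), mul_zero]
  | add p q hp hq => rw [mul_add, map_add, map_add, hp, hq, mul_add]

/-- projections on the quotient of the polynomial ring -/
def basicQ {J : Ideal (S σ k ι)} (hJ : GrI J) (d : ι → ℤ) : (S σ k ι ⧸ J) →ₗ[k] (S σ k ι ⧸ J) :=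
  Submodule.mapQ (J.restrictScalars k) (J.restrictScalars k) (cmp d) (hJ d)

theorem basicQ_mk {J : Ideal (S σ k ι)} (hJ : GrI J) (d : ι → ℤ) (f : S σ k ι) :
    basicQ hJ d (J.mkQ f) = J.mkQ (cmp d f) := rfl

/-- the quotient of the polynomial ring as a graded module -/
def basicM {J : Ideal (S σ k ι)} (hJ : GrI J) (hF : IX I ι ≤ J) : GM I ι where
  M := S σ k ι ⧸ J
  fg := inferInstance
  π := basicQ hJ
  π_self d x := by
    classical
    obtain ⟨x, rfl⟩ := J.mkQ_surjective x
    rw [basicQ_mk, basicQ_mk, weightedHomogeneousComponent_of_mem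
      (weightedHomogeneousComponent_mem _ _ _), if_pos rfl]
  π_ne d e x hde := by
    classical
    obtain ⟨x, rfl⟩ := J.mkQ_surjective x
    rw [basicQ_mk, basicQ_mk, weightedHomogeneousComponent_of_mem
      (weightedHomogeneousComponent_mem _ _ _), if_neg hde, map_zero]
  sum_π x := by
    obtain ⟨x, rfl⟩ := J.mkQ_surjective x
    have hf := weightedHomogeneousComponent_finsupp (w := wt (ι := ι)) x
    refine ⟨hf.toFinset, ?_⟩
    simp only [basicQ_mk]
    rw [← map_sum, ← finsum_eq_sum _ hf, sum_weightedHomogeneousComponent]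
  π_X v d x := by
    obtain ⟨x, rfl⟩ := J.mkQ_surjective x
    rw [← map_smul, basicQ_mk, basicQ_mk, ← map_smul, smul_eq_mul, smul_eq_mul, basic_cmp_X]
  kil i f hf x := by
    obtain ⟨x, rfl⟩ := J.mkQ_surjective x
    rw [← map_smul, Submodule.mkQ_apply, Submodule.Quotient.mk_eq_zero]
    exact J.mul_mem_right _ (hF (blk_mem i hf))

theorem exists_cyc {J : Ideal (S σ k ι)} (hJ : GrI J) (hF : IX I ι ≤ J) (n : ι → ℤ) :
    ∃ (M : GM I ι) (x : M.M), IsCyc J n M x := by
  classical
  refine ⟨(basicM hJ hF).sh n, J.mkQ 1, ?_, fun y => ?_, fun f => ?_⟩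
  · change basicQ hJ (-n + n) (J.mkQ 1) = J.mkQ 1
    rw [basicQ_mk, weightedHomogeneousComponent_of_mem (isWeightedHomogeneous_one k _),
      if_pos (neg_add_cancel n)]
  · obtain ⟨f, rfl⟩ := J.mkQ_surjective y
    refine ⟨f, ?_⟩
    change J.mkQ f = f • J.mkQ 1
    rw [← map_smul, smul_eq_mul, mul_one]
  · change f • J.mkQ 1 = 0 ↔ _
    rw [← map_smul, smul_eq_mul, mul_one, Submodule.mkQ_apply, Submodule.Quotient.mk_eq_zero]

theorem IsCyc.ann_eq {J : Ideal (S σ k ι)} {n : ι → ℤ} {x : M.M} (h : IsCyc J n M x) :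
    M.ann = J := by
  ext f
  rw [GM.mem_ann, ← h.ann]
  refine ⟨fun h1 => h1 x, fun h1 y => ?_⟩
  obtain ⟨g, rfl⟩ := h.gen y
  rw [smul_comm, h1, smul_zero]

theorem IsCyc.grI {J : Ideal (S σ k ι)} {n : ι → ℤ} {x : M.M} (h : IsCyc J n M x) : GrI J :=
  h.ann_eq ▸ M.grI_ann

theorem IsCyc.IX_le {J : Ideal (S σ k ι)} {n : ι → ℤ} {x : M.M} (h : IsCyc J n M x) :
    IX I ι ≤ J := h.ann_eq ▸ M.IX_le_ann

theorem IsCyc.sh {J : Ideal (S σ k ι)} {n : ι → ℤ} {x : M.M} (h : IsCyc J n M x) (n' : ι → ℤ) :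
    IsCyc J (n + n') (M.sh n') x := by
  refine ⟨?_, h.gen, h.ann⟩
  change M.π (-(n + n') + n') x = x
  rw [show -(n + n') + n' = -n by abel, h.deg]

/-- the image of a cyclic module -/
theorem IsCyc.image {J J' : Ideal (S σ k ι)} {n : ι → ℤ} {x : M.M} (h : IsCyc J n M x)
    (p : Hom M N) (hp : Function.Surjective p.f)
    (hk : ∀ y, p.f y = 0 ↔ y ∈ J' • (⊤ : Submodule (S σ k ι) M.M)) :
    IsCyc (J ⊔ J') n N (p.f x) := by
  refine ⟨by rw [← p.π, h.deg], fun y => ?_, fun f => ?_⟩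
  · obtain ⟨y, rfl⟩ := hp y
    obtain ⟨f, rfl⟩ := h.gen y
    exact ⟨f, map_smul _ _ _⟩
  · have ht : (⊤ : Submodule (S σ k ι) M.M) = Submodule.span (S σ k ι) {x} :=
      (eq_top_iff.2 fun y _ => by
        obtain ⟨g, rfl⟩ := h.gen y
        exact Submodule.smul_mem _ _ (Submodule.mem_span_singleton_self x)).symm
    rw [← map_smul, hk, ht, Submodule.mem_smul_span_singleton, Submodule.mem_sup]
    constructor
    · rintro ⟨g, hg, e⟩
      exact ⟨f - g, (h.ann _).1 (by rw [sub_smul, e, sub_self]), g, hg, sub_add_cancel _ _⟩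
    · rintro ⟨a, ha, b, hb, rfl⟩
      exact ⟨b, hb, by rw [add_smul, (h.ann a).2 ha, zero_add]⟩

/-- a cyclic module maps onto every cyclic module with a larger annihilator -/
theorem IsCyc.exists_hom {J J' : Ideal (S σ k ι)} {n : ι → ℤ} {x : M.M} {y : N.M}
    (h : IsCyc J n M x) (h' : IsCyc J' n N y) (hl : J ≤ J') :
    ∃ p : Hom M N, p.f x = y ∧ Function.Surjective p.f ∧ (J = J' → Function.Injective p.f) := by
  have hs : Function.Surjective (LinearMap.toSpanSingleton (S σ k ι) M.M x) := fun z => by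
    obtain ⟨f, rfl⟩ := h.gen z
    exact ⟨f, rfl⟩
  have hk : LinearMap.ker (LinearMap.toSpanSingleton (S σ k ι) M.M x) ≤
      LinearMap.ker (LinearMap.toSpanSingleton (S σ k ι) N.M y) :=
    fun f hf => (h'.ann f).2 (hl ((h.ann f).1 hf))
  obtain ⟨q, hq⟩ : ∃ q : M.M →ₗ[S σ k ι] N.M, ∀ f : S σ k ι, q (f • x) = f • y := by
    refine ⟨(Submodule.liftQ _ _ hk).comp
      (LinearMap.quotKerEquivOfSurjective _ hs).symm.toLinearMap, fun f => ?_⟩
    have : (LinearMap.quotKerEquivOfSurjective _ hs).symm (f • x) = Submodule.Quotient.mk f :=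
      (LinearEquiv.symm_apply_eq _).2 rfl
    rw [LinearMap.comp_apply, LinearEquiv.coe_coe, this]
    rfl
  refine ⟨⟨q, fun d z => ?_⟩, by simpa using hq 1, fun z => ?_, fun e => ?_⟩
  · obtain ⟨f, rfl⟩ := h.gen z
    have h1 := M.π_smul_hom h.deg f (d + n)
    have h2 := N.π_smul_hom h'.deg f (d + n)
    rw [add_neg_cancel_right] at h1 h2
    rw [h1, hq, hq, h2]
  · obtain ⟨f, rfl⟩ := h'.gen z
    exact ⟨_, hq f⟩
  · refine (injective_iff_map_eq_zero q).2 fun z hz => ?_
    obtain ⟨f, rfl⟩ := h.gen z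
    rw [hq] at hz
    exact (h.ann f).2 (e ▸ (h'.ann f).1 hz)

/-- Hilbert function of a cyclic module -/
theorem IsCyc.hilb_eq [Finite σ] [Finite ι] {J : Ideal (S σ k ι)} {n : ι → ℤ} {x : M.M} (h : IsCyc J n M x)
    (d : ι → ℤ) : hilb M d + Module.finrank k
      ↥(weightedHomogeneousSubmodule k (wt (ι := ι) (σ := σ)) (d + n) ⊓ J.restrictScalars k) =
      Module.finrank k (weightedHomogeneousSubmodule k (wt (ι := ι) (σ := σ)) (d + n)) := by
  classical
  have := finite_hg (σ := σ) (k := k) (d + n)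
  have h1 := basic_rank ((LinearMap.toSpanSingleton (S σ k ι) M.M x).restrictScalars k)
    (weightedHomogeneousSubmodule k (wt (ι := ι) (σ := σ)) (d + n))
  have hπ : ∀ f : S σ k ι, M.π d (f • x) = cmp (d + n) f • x := fun f => by
    have h2 := M.π_smul_hom h.deg f (d + n)
    rwa [add_neg_cancel_right] at h2
  have e1 : (weightedHomogeneousSubmodule k (wt (ι := ι) (σ := σ)) (d + n)).map
      ((LinearMap.toSpanSingleton (S σ k ι) M.M x).restrictScalars k) = LinearMap.range (M.π d) := by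
    ext z
    constructor
    · rintro ⟨f, hf, rfl⟩
      refine ⟨f • x, ?_⟩
      rw [hπ, weightedHomogeneousComponent_of_mem hf, if_pos rfl]
      rfl
    · rintro ⟨z, rfl⟩
      obtain ⟨f, rfl⟩ := h.gen z
      exact ⟨_, weightedHomogeneousComponent_mem _ _ _, (hπ f).symm⟩
  have e2 : LinearMap.ker ((LinearMap.toSpanSingleton (S σ k ι) M.M x).restrictScalars k) =
      J.restrictScalars k := Submodule.ext fun f => h.ann f
  rw [e1, e2] at h1
  exact h1

end Pool.Agent.Bav
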