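import Pool.Agent.P.MP_dd457d_ag.Bav.Calc

/-! The point class, the diagonal formula, multiplicativity and elementary row operations. -/

set_option autoImplicit false

noncomputable section

open Matrix

namespace Pool.Agent.Bav

namespace Calc

variable {Λ : Type} [CommRing Λ] {g q : ℕ} {π : Λ} {N : Λ → ℂ} (C : Calc Λ g q π N)
  {ι κ : Type} [Fintype ι] [Fintype κ]

/-- the degree of the variety -/
def dl : ℂ := C.chi ((C.l (1 : Unit → Λ) ^ g) C.one)

theorem dl_ne : C.dl ≠ 0 := C.del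

theorem l_zero : C.l (0 : ι → Λ) = 0 := by
  have h := C.par (0 : ι → Λ) 0
  rw [add_zero, sub_zero] at h
  have h2 : (2 : ℂ) • C.l (0 : ι → Λ) = 0 := by
    have e : (2 : ℂ) • C.l (0 : ι → Λ) = (2 : ℂ) • C.l 0 + (2 : ℂ) • C.l 0 - (C.l 0 + C.l 0) := by
      module
    rw [e, ← h, sub_self]
  exact (smul_eq_zero.1 h2).resolve_left two_ne_zero

theorem l_neg (u : ι → Λ) : C.l (-u) = C.l u := by
  have h := C.par 0 u
  rw [zero_add, zero_sub, C.l_zero, smul_zero, zero_add, two_smul] at h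
  exact add_left_cancel h

theorem l_nsmul (n : ℕ) (u : ι → Λ) : C.l (n • u) = ((n : ℂ) ^ 2) • C.l u := by
  induction n using Nat.twoStepInduction with
  | zero => simp [C.l_zero]
  | one => simp
  | more n h0 h1 =>
    have h := C.par ((n + 1) • u) u
    rw [← succ_nsmul, succ_nsmul u n, add_sub_cancel_right, ← succ_nsmul, h0, h1] at h
    rw [eq_sub_of_add_eq h]
    push_cast
    module

theorem lp_push (n : ℕ) (v : κ → Λ) (φ : Matrix κ ι Λ) (x : C.G ι) :
    (C.l v ^ n) (C.push φ x) = C.push φ ((C.l (v ᵥ* φ) ^ n) x) := by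
  induction n with
  | zero => rfl
  | succ n ih => rw [pow_succ', pow_succ', Module.End.mul_apply, Module.End.mul_apply, ih, C.l_push]

theorem lp_box_left (n : ℕ) (u : ι → Λ) (x : C.G ι) (y : C.G κ) :
    (C.l (Sum.elim u 0) ^ n) (C.box x y) = C.box ((C.l u ^ n) x) y := by
  induction n with
  | zero => rfl
  | succ n ih =>
    rw [pow_succ', pow_succ', Module.End.mul_apply, Module.End.mul_apply, ih, C.l_box_left]

theorem lp_box_right (n : ℕ) (v : κ → Λ) (x : C.G ι) (y : C.G κ) :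
    (C.l (Sum.elim 0 v) ^ n) (C.box x y) = C.box x ((C.l v ^ n) y) := by
  induction n with
  | zero => rfl
  | succ n ih =>
    rw [pow_succ', pow_succ', Module.End.mul_apply, Module.End.mul_apply, ih, C.l_box_right]

theorem l_commute (u v : ι → Λ) : Commute (C.l u) (C.l v) := LinearMap.ext (C.l_comm u v)

theorem lp_comm (m n : ℕ) (u v : ι → Λ) (x : C.G ι) :
    (C.l u ^ m) ((C.l v ^ n) x) = (C.l v ^ n) ((C.l u ^ m) x) :=
  LinearMap.congr_fun ((C.l_commute u v).pow_pow m n).eq x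

theorem lp_F (u : Unit → Λ) (n j : ℕ) : ∀ x ∈ C.F (j + n), (C.l u ^ n) x ∈ C.F j := by
  induction n with
  | zero => exact fun x hx => hx
  | succ n ih =>
    intro x hx
    rw [pow_succ, Module.End.mul_apply]
    exact ih _ (C.l_F (j + n) u x hx)

theorem lp_F_zero (u : Unit → Λ) {x : C.G Unit} (hx : x ∈ C.F g) : (C.l u ^ g) x = 0 := by
  have h := C.lp_F u g 0 x (by rwa [zero_add])
  rwa [C.F_zero, Submodule.mem_bot] at h

theorem vec_sc1 (c a : Λ) : (fun _ : Unit => c) ᵥ* sc1 a = fun _ => c * a := by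
  funext i
  simp [sc1, vecMul, dotProduct]

theorem point (c : Λ) : (C.l (fun _ : Unit => c) ^ g) C.one = (N c * C.dl) • C.pt := by
  have h1 : (C.l (fun _ : Unit => c) ^ g) C.one ∈ C.F 1 :=
    C.lp_F _ g 1 _ (by rw [add_comm, C.F_top]; trivial)
  obtain ⟨n, hn, h2⟩ := C.pts _ h1
  obtain ⟨r, hr⟩ := C.rank (C.push (sc1 (n : Λ)) C.one)
  have key : ∀ a : Λ, r • (C.l (fun _ : Unit => a) ^ g) C.one =
      ((n : ℂ) ^ 2) ^ g • C.push (sc1 (n : Λ)) ((C.l (fun _ : Unit => a) ^ g) C.one) := by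
    intro a
    have e : (fun _ : Unit => a) ᵥ* sc1 (n : Λ) = n • fun _ : Unit => a := by
      rw [vec_sc1]
      funext i
      simp [mul_comm]
    have h3 := C.lp_F_zero (fun _ => a) hr
    rw [map_sub, map_smul, C.lp_push, e, C.l_nsmul, smul_pow, LinearMap.smul_apply, map_smul,
      sub_eq_zero] at h3
    exact h3.symm
  have h4 : r = ((n : ℂ) ^ 2) ^ g := by
    have h5 := congrArg C.chi (key 1)
    rw [map_smul, map_smul, C.chi_push, smul_eq_mul, smul_eq_mul] at h5
    exact mul_right_cancel₀ C.del h5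
  have h6 := key c
  rw [h4] at h6
  have h7 := smul_right_injective _
    (pow_ne_zero g (pow_ne_zero 2 (Nat.cast_ne_zero.2 hn : (n : ℂ) ≠ 0))) h6
  rw [h7, h2, C.deg]
  rfl

include C in
theorem N_one : N 1 = 1 := by
  have h := C.deg 1
  exact mul_right_cancel₀ C.del (h.symm.trans (one_mul _).symm)

theorem point_one : (C.l (fun _ : Unit => (1 : Λ)) ^ g) C.one = C.dl • C.pt := by
  rw [C.point, C.N_one, one_mul]

variable [DecidableEq ι]

theorem lp_box_pt (n : ℕ) (u : ι → Λ) (c : Unit → Λ) (y : C.G ι) :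
    (C.l (Sum.elim u c) ^ n) (C.box y C.pt) =
      C.push (Matrix.fromRows 1 0) ((C.l u ^ n) y) := by
  rw [C.box_pt, C.lp_push, sumElim_vecMul_fromRows, vecMul_one, vecMul_zero, add_zero]

theorem diag (u : ι → Λ) (y : C.G ι) :
    (C.l (Sum.elim u fun _ : Unit => -1) ^ g) (C.box y C.one) =
      C.dl • C.push (Matrix.fromRows 1 (Matrix.of fun _ : Unit => u)) y := by
  have e : (Sum.elim u fun _ : Unit => (-1 : Λ)) ᵥ*
      fromBlocks 1 0 (Matrix.of fun _ : Unit => u) 1 =
        Sum.elim (0 : ι → Λ) (-fun _ : Unit => (1 : Λ)) := by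
    rw [vecMul_fromBlocks]
    congr 1
    · funext i
      simp [vecMul, dotProduct]
    · funext i
      simp
  have e2 : fromBlocks (1 : Matrix ι ι Λ) 0 (Matrix.of fun _ : Unit => u)
      (1 : Matrix Unit Unit Λ) *
      Matrix.fromRows (1 : Matrix ι ι Λ) (0 : Matrix Unit ι Λ) =
        Matrix.fromRows (1 : Matrix ι ι Λ) (Matrix.of fun _ : Unit => u) := by
    rw [fromBlocks_mul_fromRows]
    simp
  conv_lhs => rw [← C.shear u y]
  rw [C.lp_push, e, C.lp_box_right, C.l_neg, C.point_one, map_smul, map_smul, C.box_pt, C.push_mul,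
    e2]

theorem push_fst (A : Matrix Unit ι Λ) (x : C.G ι) :
    C.push (Matrix.fromCols (1 : Matrix ι ι Λ) (0 : Matrix ι Unit Λ))
      (C.push (Matrix.fromRows (1 : Matrix ι ι Λ) A) x) = x := by
  rw [C.push_mul, fromCols_mul_fromRows, Matrix.one_mul, Matrix.zero_mul, add_zero, C.push_one]

theorem vec_graph (w u : ι → Λ) (c : Λ) : (Sum.elim w fun _ : Unit => c) ᵥ*
    Matrix.fromRows (1 : Matrix ι ι Λ) (Matrix.of fun _ : Unit => u) = w + fun i => c * u i := by
  rw [sumElim_vecMul_fromRows, vecMul_one]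
  congr 1
  funext i
  simp [vecMul, dotProduct]

theorem graph_mul (c : Λ) (u : ι → Λ) (y : C.G ι) :
    C.push (Matrix.fromRows 1 (Matrix.of fun _ : Unit => u)) ((C.l (fun i => c * u i) ^ g) y) =
      N c • C.push (Matrix.fromRows (1 : Matrix ι ι Λ) (0 : Matrix Unit ι Λ))
        ((C.l u ^ g) y) := by
  refine smul_right_injective _ C.dl_ne ?_
  have e := vec_graph 0 u c
  rw [zero_add] at e
  dsimp only
  rw [← e, ← C.lp_push, ← map_smul, ← C.diag, C.lp_comm, C.lp_box_right, C.point, map_smul,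
    map_smul, C.lp_box_pt, smul_smul, mul_comm]

theorem mul (c : Λ) (u : ι → Λ) (y : C.G ι) :
    (C.l (fun i => c * u i) ^ g) y = N c • (C.l u ^ g) y := by
  have h := congrArg (C.push (Matrix.fromCols (1 : Matrix ι ι Λ) (0 : Matrix ι Unit Λ)))
    (C.graph_mul c u y)
  rwa [map_smul, C.push_fst, C.push_fst] at h

theorem elem (u v : ι → Λ) (y : C.G ι) :
    (C.l (u + v) ^ g) ((C.l v ^ g) y) = (C.l u ^ g) ((C.l v ^ g) y) := by
  have h := C.graph_mul 1 v y
  simp only [one_mul, C.N_one, one_smul] at h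
  have e := vec_graph u v 1
  simp only [one_mul] at e
  have h2 := congrArg (C.l (Sum.elim u fun _ : Unit => (1 : Λ)) ^ g) h
  rw [C.lp_push, C.lp_push, e, sumElim_vecMul_fromRows, vecMul_one, vecMul_zero, add_zero] at h2
  have h3 := congrArg (C.push (Matrix.fromCols (1 : Matrix ι ι Λ) (0 : Matrix ι Unit Λ))) h2
  rwa [C.push_fst, C.push_fst] at h3

end Calc

theorem p_Diag : S_Diag := by
  intro Λ _ g q π N C y
  have e : (Matrix.fromRows (1 : Matrix Unit Unit Λ) (Matrix.of fun _ _ : Unit => (1 : Λ))) =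
      Matrix.of fun (_ : Unit ⊕ Unit) (_ : Unit) => (1 : Λ) := by
    ext i j
    rcases i with i | i <;> simp
  have h := C.diag (fun _ : Unit => (1 : Λ)) y
  rw [e] at h
  refine ⟨h, ?_⟩
  have e2 : (Sum.elim (fun _ : Unit => (1 : Λ)) fun _ : Unit => -1) ᵥ* rm Λ Sum.swap =
      -(Sum.elim (fun _ : Unit => (1 : Λ)) fun _ : Unit => -1) := by
    funext i
    rcases i with i | i <;> simp [rm, vecMul, dotProduct]
  have e3 : rm Λ (Sum.swap : Unit ⊕ Unit → Unit ⊕ Unit) *
      (Matrix.of fun (_ : Unit ⊕ Unit) (_ : Unit) => (1 : Λ)) =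
        Matrix.of fun (_ : Unit ⊕ Unit) (_ : Unit) => (1 : Λ) := by
    ext i j
    rcases i with i | i <;> simp [rm, Matrix.mul_apply]
  rw [← C.swap y C.one, C.lp_push, e2, C.l_neg, h, map_smul, C.push_mul, e3]
  rfl

end Pool.Agent.Bav
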