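import Pool.Agent.P.MP_dd457d_ag.Bav.Poly
import Pool.Agent.P.MP_2ce3e7_ag.Tav.Stmt
import Pool.Agent.P.MP_2ce3e7_ag.Tav.Desc
import Pool.Agent.P.MP_2ce3e7_ag.Tav.HBase

/-! Finite systems of charts of a regular map and their descent to a finite field. -/

set_option autoImplicit false

noncomputable section

namespace Pool.Agent.Bav

open MvPolynomial Pool.Agent.Tav

section Comp
variable {K : Type} [CommRing K] {T U ι κ σ τ : Type}

/-- composition with `j` -/
def pbk (K : Type) [CommRing K] (j : T → U) : (U → K) →ₐ[K] (T → K) :=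
  AlgHom.pi fun t => Pi.evalAlgHom K (fun _ : U => K) (j t)

theorem crd_pb (p : U → σ → K) (j : T → U) :
    (crd p).map (pbk K j).toLinearMap = crd fun t => p (j t) := by
  unfold crd
  rw [Submodule.map_span, ← Set.range_comp]
  rfl

theorem mem_crd (p : T → σ → K) (l : σ) : (fun t => p t l) ∈ crd p :=
  Submodule.subset_span ⟨l, rfl⟩

theorem rg_iff [Fintype ι] {L : ι → Submodule K (T → K)} {W : Submodule K (T → K)} :
    Rg L W ↔ ∀ t, ∃ (e : ι → ℕ) (c : T → K), IsUnit (c t) ∧
      Submodule.span K {c} * W ≤ ∏ i, L i ^ e i := by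
  refine forall_congr' fun t => exists_congr fun e => exists_congr fun c =>
    and_congr_right fun _ => ⟨fun h => Submodule.mul_le.2 fun a ha w hw => ?_, fun h w hw =>
      h (Submodule.mul_mem_mul (Submodule.mem_span_singleton_self c) hw)⟩
  obtain ⟨r, rfl⟩ := Submodule.mem_span_singleton.1 ha
  rw [smul_mul_assoc]
  exact Submodule.smul_mem _ _ (h w hw)

theorem rg_crd [Fintype ι] {L : ι → Submodule K (T → K)} {w : T → τ → K}
    (h : ∀ t, ∃ (e : ι → ℕ) (c : T → K), IsUnit (c t) ∧
      ∀ l, (c * fun s => w s l) ∈ ∏ i, L i ^ e i) : Rg L (crd w) := by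
  intro t
  obtain ⟨e, c, hc, h⟩ := h t
  refine ⟨e, c, hc, fun u hu => ?_⟩
  induction hu using Submodule.span_induction with
  | mem x hx => obtain ⟨l, rfl⟩ := hx; exact h l
  | zero => rw [mul_zero]; exact zero_mem _
  | add x y _ _ hx hy => rw [mul_add]; exact add_mem hx hy
  | smul a x _ hx => rw [mul_smul_comm]; exact Submodule.smul_mem _ _ hx

theorem rg_self [Fintype ι] (L : ι → Submodule K (T → K)) (i : ι) : Rg L (L i) := by
  classical
  refine fun t => ⟨Pi.single i 1, 1, isUnit_one, fun w hw => ?_⟩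
  rw [Finset.prod_eq_single i (fun j _ hj => by rw [Pi.single_eq_of_ne hj, pow_zero])
    (fun h => absurd (Finset.mem_univ i) h), Pi.single_eq_same, pow_one, one_mul]
  exact hw

theorem rg_const [Fintype ι] (L : ι → Submodule K (T → K)) (z : τ → K) :
    Rg L (crd fun _ : T => z) := by
  refine rg_crd fun t => ⟨0, 1, isUnit_one, fun l => ?_⟩
  simp only [Pi.zero_apply, pow_zero, Finset.prod_const_one, one_mul]
  exact Submodule.mem_one.2 ⟨z l, rfl⟩

/-- regularity is stable under composition -/
theorem rg_comp [Fintype ι] [Fintype κ] {L : ι → Submodule K (T → K)}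
    {M : κ → Submodule K (U → K)} {W : Submodule K (U → K)} (j : T → U) (h : Rg M W)
    (hM : ∀ b, Rg L ((M b).map (pbk K j).toLinearMap)) :
    Rg L (W.map (pbk K j).toLinearMap) := by
  rw [rg_iff] at h ⊢
  intro t
  obtain ⟨e, c, hc, h⟩ := h (j t)
  choose e' c' hc' h' using fun b => rg_iff.1 (hM b) t
  refine ⟨fun i => ∑ b, e' b i * e b, (∏ b, c' b ^ e b) * pbk K j c, ?_, ?_⟩
  · rw [Pi.mul_apply, Finset.prod_apply]
    exact (IsUnit.prod_iff.2 fun b _ => (hc' b).pow _).mul hc
  · have h1 : Submodule.span K {pbk K j c} * W.map (pbk K j).toLinearMap ≤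
        ∏ b, (M b).map (pbk K j).toLinearMap ^ e b := by
      have := Submodule.map_mono (f := (pbk K j).toLinearMap) h
      rw [Submodule.map_mul, Submodule.map_span, Set.image_singleton] at this
      refine this.trans (le_of_eq ?_)
      refine (map_prod (Submodule.mapHom (pbk K j)) _ _).trans ?_
      exact Finset.prod_congr rfl fun b _ => map_pow (Submodule.mapHom (pbk K j)) _ _
    have h2 : Submodule.span K {∏ b, c' b ^ e b} = ∏ b, Submodule.span K {c' b} ^ e b := by
      simp only [Submodule.span_pow, Set.singleton_pow]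
      rw [Submodule.prod_span_singleton]
    rw [← Set.singleton_mul_singleton, ← Submodule.span_mul_span, mul_assoc]
    refine (mul_le_mul_right h1 _).trans ?_
    rw [h2, ← Finset.prod_mul_distrib]
    refine (Finset.prod_le_prod' fun b _ => ?_).trans
      (le_of_eq (?_ : ∏ b, (∏ i, L i ^ e' b i) ^ e b = _))
    · rw [← mul_pow]
      exact pow_le_pow_left' (h' b) _
    · simp only [← Finset.prod_pow, ← pow_mul]
      rw [Finset.prod_comm]
      exact Finset.prod_congr rfl fun i _ => Finset.prod_pow_eq_pow_sum _ _ _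

theorem rg_mor [Fintype ι] {L : ι → Submodule K (T → K)} {V : Type} {p : U → σ → K}
    {q : V → τ → K} {f : U → V} (hf : Mor p q f) {j : T → U} (h : Rg L (crd fun t => p (j t))) :
    Rg L (crd fun t => q (f (j t))) := by
  rw [← crd_pb (fun u => q (f u)) j]
  refine rg_comp j hf fun b => ?_
  fin_cases b
  simpa only [Fin.zero_eta, Matrix.cons_val_zero, crd_pb] using h

theorem mor_comp {V μ : Type} {p : T → σ → K} {q : U → τ → K} {r : V → μ → K} {f : T → U}
    {g : U → V} (hg : Mor q r g) (hf : Mor p q f) : Mor p r (g ∘ f) := rg_mor hg hf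

theorem mor_id (p : T → σ → K) : Mor p p id := rg_self ![crd p] 0

end Comp

section Grp
variable {K : Type} [Field K] {T G ι σ : Type} [AddCommGroup G] [Fintype ι]
  {L : ι → Submodule K (T → K)} {p : G → σ → K} {g : ℕ}

theorem rg_sub (h : AV p g) {a b : T → G} (ha : Rg L (crd fun t => p (a t)))
    (hb : Rg L (crd fun t => p (b t))) : Rg L (crd fun t => p (a t - b t)) := by
  have := rg_comp (L := L) (fun t => (a t, b t)) h.sub fun i => by
    fin_cases i
    · simpa only [Fin.zero_eta, Matrix.cons_val_zero, crd_pb] using ha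
    · simpa only [Fin.mk_one, Matrix.cons_val_one, Matrix.cons_val_zero, crd_pb] using hb
  rwa [crd_pb] at this

theorem rg_neg (h : AV p g) {a : T → G} (ha : Rg L (crd fun t => p (a t))) :
    Rg L (crd fun t => p (-a t)) := by
  simpa only [zero_sub] using rg_sub h (rg_const L (p 0)) ha

theorem rg_add (h : AV p g) {a b : T → G} (ha : Rg L (crd fun t => p (a t)))
    (hb : Rg L (crd fun t => p (b t))) : Rg L (crd fun t => p (a t + b t)) := by
  simpa only [sub_neg_eq_add] using rg_sub h ha (rg_neg h hb)

theorem rg_sum (h : AV p g) {κ : Type} (s : Finset κ) {a : κ → T → G}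
    (ha : ∀ b ∈ s, Rg L (crd fun t => p (a b t))) :
    Rg L (crd fun t => p (∑ b ∈ s, a b t)) := by
  classical
  induction s using Finset.induction_on with
  | empty => simpa only [Finset.sum_empty] using rg_const L (p 0)
  | insert b s hb ih =>
    simp only [Finset.sum_insert hb]
    exact rg_add h (ha b (Finset.mem_insert_self _ _))
      (ih fun c hc => ha c (Finset.mem_insert_of_mem hc))

/-- a row of regular endomorphisms is regular -/
theorem rg_row (h : AV p g) (f : ι → G → G) (hf : ∀ i, Mor p p (f i)) :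
    Rg (fun i => crd fun t : ι → G => p (t i)) (crd fun t => p (∑ i, f i (t i))) :=
  rg_sum h _ fun i _ => rg_mor (hf i) (rg_self (fun i => crd fun t : ι → G => p (t i)) i)

theorem mor_sub (h : AV p g) {τ : Type} {q : T → τ → K} {a b : T → G} (ha : Mor q p a)
    (hb : Mor q p b) : Mor q p (a - b) := rg_sub h ha hb

theorem mor_add (h : AV p g) {τ : Type} {q : T → τ → K} {a b : T → G} (ha : Mor q p a)
    (hb : Mor q p b) : Mor q p (a + b) := rg_add h ha hb

theorem mor_neg (h : AV p g) {τ : Type} {q : T → τ → K} {a : T → G} (ha : Mor q p a) :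
    Mor q p (-a) := rg_neg h ha

theorem mor_zero {τ : Type} (q : T → τ → K) : Mor q p (0 : T → G) := rg_const _ (p 0)

end Grp

end Pool.Agent.Bav
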