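import Pool.Agent.P.MP_dd457d_ag.Bav.Defs

/-! Shared definitions of the project. -/

set_option autoImplicit false

noncomputable section

namespace Pool.Agent.Bav

open MvPolynomial TensorProduct

section Ring
variable {k ι σ Γ : Type} [CommRing k]

/-- inclusion of the `i`-th block of variables -/
abbrev blk (i : ι) : MvPolynomial σ k →ₐ[k] S σ k ι := rename (Prod.mk i)

/-- the ideal of the power of the scheme -/
def IX (I : Ideal (MvPolynomial σ k)) (ι : Type) : Ideal (S σ k ι) :=
  Ideal.span {g | ∃ i : ι, ∃ f ∈ I, g = blk i f}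

/-- homogeneous ideals of the polynomial ring in one block -/
def HomI (I : Ideal (MvPolynomial σ k)) : Prop := ∀ d, ∀ f ∈ I, homogeneousComponent d f ∈ I

/-- homogeneous of multidegree `d` -/
abbrev Hg (f : S σ k ι) (d : ι → ℤ) : Prop := f.IsWeightedHomogeneous wt d

/-- homogeneous component -/
abbrev cmp (d : ι → ℤ) : S σ k ι →ₗ[k] S σ k ι := weightedHomogeneousComponent wt d

/-- graded ideals for the weight `w` -/
def GrW [AddCommMonoid Γ] (w : σ → Γ) (J : Ideal (MvPolynomial σ k)) : Prop :=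
  ∀ d, ∀ f ∈ J, weightedHomogeneousComponent w d f ∈ J

/-- multigraded ideals -/
abbrev GrI (J : Ideal (S σ k ι)) : Prop := GrW wt J

/-- the largest graded ideal inside `J` -/
def core [AddCommMonoid Γ] (w : σ → Γ) (J : Ideal (MvPolynomial σ k)) : Ideal (MvPolynomial σ k) :=
  Ideal.span {f | f ∈ J ∧ ∃ d, f.IsWeightedHomogeneous w d}

/-- irrelevant monomials -/
def mono (k : Type) [CommRing k] [Fintype ι] (α : ι → σ) : S σ k ι := ∏ i, X (i, α i)

/-- the ideal has no zero in the power of projective space -/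
def Irr [Fintype ι] (J : Ideal (S σ k ι)) : Prop := ∀ α, ∃ N : ℕ, mono k α ^ N ∈ J

/-- diagonal substitution -/
def sc (c : σ → k) : MvPolynomial σ k →ₐ[k] MvPolynomial σ k := aeval fun v => C (c v) * X v

/-- renaming of the factors -/
def rn {κ : Type} (f : ι → κ) : S σ k ι →ₐ[k] S σ k κ := rename (Prod.map f id)

/-- monomial substitution -/
def phi {κ : Type} (τ : ι → κ) (c : ι × σ → k) (q : ι → ℕ) : S σ k ι →ₐ[k] S σ k κ :=
  aeval fun v => C (c v) * X (τ v.1, v.2) ^ q v.1

end Ring

section Modules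
variable {σ k ι κ : Type} [Field k] {I : Ideal (MvPolynomial σ k)}

/-- graded submodules -/
def Gr (M : GM I ι) (W : Submodule (S σ k ι) M.M) : Prop := ∀ d, ∀ x ∈ W, M.π d x ∈ W

/-- annihilator -/
def GM.ann (M : GM I ι) : Ideal (S σ k ι) := Module.annihilator (S σ k ι) M.M

/-- Hilbert function -/
def hilb (M : GM I ι) (d : ι → ℤ) : ℕ := Module.finrank k (LinearMap.range (M.π d))

/-- a graded submodule as a graded module -/
def GM.sub [Finite σ] [Finite ι] (M : GM I ι) (W : Submodule (S σ k ι) M.M) (h : Gr M W) : GM I ι where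
  M := W
  tower := ⟨fun a f x => Subtype.ext (smul_assoc a f x.1)⟩
  fg := inferInstance
  π d := (M.π d).restrict (p := W.restrictScalars k) (q := W.restrictScalars k) (h d)
  π_self d x := Subtype.ext (M.π_self d x)
  π_ne d e x hde := Subtype.ext (M.π_ne d e x hde)
  sum_π x := by
    obtain ⟨s, hs⟩ := M.sum_π x
    exact ⟨s, Subtype.ext (by rw [Submodule.coe_sum]; exact hs)⟩
  π_X v d x := Subtype.ext (M.π_X v d x)
  kil i f hf x := Subtype.ext (M.kil i f hf x)

/-- projection on a quotient -/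
def GM.quoπ (M : GM I ι) (W : Submodule (S σ k ι) M.M) (h : Gr M W) (d : ι → ℤ) :
    (M.M ⧸ W) →ₗ[k] (M.M ⧸ W) :=
  Submodule.mapQ (W.restrictScalars k) (W.restrictScalars k) (M.π d) (h d)

theorem GM.quoπ_mk (M : GM I ι) (W : Submodule (S σ k ι) M.M) (h : Gr M W) (d : ι → ℤ) (x : M.M) :
    M.quoπ W h d (W.mkQ x) = W.mkQ (M.π d x) := rfl

/-- the quotient by a graded submodule -/
def GM.quo (M : GM I ι) (W : Submodule (S σ k ι) M.M) (h : Gr M W) : GM I ι where
  M := M.M ⧸ W
  fg := inferInstance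
  π := M.quoπ W h
  π_self d x := by
    obtain ⟨x, rfl⟩ := W.mkQ_surjective x
    rw [quoπ_mk, quoπ_mk, M.π_self]
  π_ne d e x hde := by
    obtain ⟨x, rfl⟩ := W.mkQ_surjective x
    rw [quoπ_mk, quoπ_mk, M.π_ne d e x hde, map_zero]
  sum_π x := by
    obtain ⟨x, rfl⟩ := W.mkQ_surjective x
    obtain ⟨s, hs⟩ := M.sum_π x
    exact ⟨s, by simp only [quoπ_mk]; rw [← map_sum, hs]⟩
  π_X v d x := by
    obtain ⟨x, rfl⟩ := W.mkQ_surjective x
    rw [← map_smul, quoπ_mk, quoπ_mk, M.π_X, map_smul]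
  kil i f hf x := by
    obtain ⟨x, rfl⟩ := W.mkQ_surjective x
    rw [← map_smul, M.kil i f hf, map_zero]

/-- shift of the grading -/
def GM.sh (n : ι → ℤ) (M : GM I ι) : GM I ι where
  M := M.M
  fg := M.fg
  π d := M.π (d + n)
  π_self d x := M.π_self _ x
  π_ne d e x hde := M.π_ne _ _ x fun h => hde (add_right_cancel h)
  sum_π x := by
    classical
    obtain ⟨s, hs⟩ := M.sum_π x
    refine ⟨s.image fun d => d - n, ?_⟩
    rw [Finset.sum_image fun a _ b _ h => sub_left_injective h]
    simpa only [sub_add_cancel] using hs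
  π_X v d x := by rw [add_right_comm]; exact M.π_X v _ x
  kil := M.kil

/-- a finite power of a module -/
def GM.pw (A : Type) [Finite A] (M : GM I ι) : GM I ι where
  M := A → M.M
  fg := inferInstance
  π d := (M.π d).compLeft A
  π_self d x := funext fun a => M.π_self d (x a)
  π_ne d e x hde := funext fun a => M.π_ne d e (x a) hde
  sum_π x := by
    classical
    cases nonempty_fintype A
    choose s hs using fun a => M.sum_π (x a)
    refine ⟨Finset.univ.biUnion s, funext fun a => ?_⟩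
    rw [Finset.sum_apply]
    refine ((Finset.sum_subset (Finset.subset_biUnion_of_mem s (Finset.mem_univ a))
      fun d _ hd => ?_).symm).trans (hs a)
    change M.π d (x a) = 0
    rw [← hs a, map_sum]
    exact Finset.sum_eq_zero fun e he => M.π_ne d e _ fun h => hd (h ▸ he)
  π_X v d x := funext fun a => M.π_X v d (x a)
  kil i f hf x := funext fun a => M.kil i f hf (x a)

/-- inclusion of a graded submodule -/
def GM.subι [Finite σ] [Finite ι] (M : GM I ι) (W : Submodule (S σ k ι) M.M) (h : Gr M W) :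
    Hom (M.sub W h) M := ⟨W.subtype, fun _ _ => rfl⟩

/-- projection to a quotient -/
def GM.quop (M : GM I ι) (W : Submodule (S σ k ι) M.M) (h : Gr M W) :
    Hom M (M.quo W h) := ⟨W.mkQ, fun _ _ => rfl⟩

/-- relations of the complexified Grothendieck group -/
def relC (I : Ideal (MvPolynomial σ k)) (ι : Type) : Submodule ℂ (GM I ι →₀ ℂ) :=
  Submodule.span ℂ {z | (∃ (M N P : GM I ι) (f : Hom M N) (g : Hom N P), SES f g ∧
      z = Finsupp.single N 1 - Finsupp.single M 1 - Finsupp.single P 1) ∨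
    ∃ M : GM I ι, Tors M ∧ z = Finsupp.single M 1}

/-- the complexified Grothendieck group -/
def G (I : Ideal (MvPolynomial σ k)) (ι : Type) : Type 1 := (GM I ι →₀ ℂ) ⧸ relC I ι

instance : AddCommGroup (G I ι) := inferInstanceAs (AddCommGroup (_ ⧸ relC I ι))
instance : Module ℂ (G I ι) := inferInstanceAs (Module ℂ (_ ⧸ relC I ι))

/-- the class of a module -/
def cls (M : GM I ι) : G I ι := (relC I ι).mkQ (Finsupp.single M 1)

/-- `M` is the cyclic module `S/J` shifted by `n`, with generator `x` -/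
structure IsCyc (J : Ideal (S σ k ι)) (n : ι → ℤ) (M : GM I ι) (x : M.M) : Prop where
  deg : M.π (-n) x = x
  gen : ∀ y, ∃ f : S σ k ι, y = f • x
  ann : ∀ f : S σ k ι, f • x = 0 ↔ f ∈ J

open Classical in
/-- the class of `S/J` shifted by `n` -/
def cy (I : Ideal (MvPolynomial σ k)) (J : Ideal (S σ k ι)) (n : ι → ℤ) : G I ι :=
  if h : ∃ M : GM I ι, ∃ x, IsCyc J n M x then cls h.choose else 0

/-- a linear map kills the classes of the modules annihilated by `J` -/
def Kil {V : Type*} [AddCommGroup V] [Module ℂ V] (e : G I ι →ₗ[ℂ] V) (J : Ideal (S σ k ι)) :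
    Prop := ∀ M : GM I ι, J ≤ M.ann → e (cls M) = 0

/-- data of a monomial substitution -/
structure PD (I : Ideal (MvPolynomial σ k)) (ι κ : Type) where
  τ : ι → κ
  inj : Function.Injective τ
  c : ι × σ → k
  c_ne : ∀ v, c v ≠ 0
  q : ι → ℕ
  q_pos : ∀ i, 0 < q i
  o : κ → ℤ
  fer : ∀ i, ∀ f ∈ I, phi τ c q (blk i f) ∈ IX I κ

/-- the ring map -/
def PD.φ (D : PD I ι κ) : S σ k ι →ₐ[k] S σ k κ := phi D.τ D.c D.q

/-- the map on degrees -/
def PD.val (D : PD I ι κ) (e : ι → ℤ) : κ → ℤ :=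
  D.o + Function.extend D.τ (fun i => D.q i * e i) 0

/-- `N` is the part of `M` in the degrees `D.val e`, with the action through `D.φ` -/
structure IsPull (D : PD I ι κ) (M : GM I κ) (N : GM I ι) (j : N.M →ₗ[k] M.M) : Prop where
  inj : Function.Injective j
  smul : ∀ (f : S σ k ι) x, j (f • x) = D.φ f • j x
  π : ∀ e x, j (N.π e x) = M.π (D.val e) (j x)
  surj : ∀ e x, M.π (D.val e) x ∈ LinearMap.range j

/-- `P` is the external product of `M` and `N` -/
structure IsBox (M : GM I ι) (N : GM I κ) (P : GM I (ι ⊕ κ))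
    (j : M.M ⊗[k] N.M ≃ₗ[k] P.M) : Prop where
  smul : ∀ (f : S σ k (ι ⊕ κ)) t, j (boxHom M N f t) = f • j t
  π : ∀ d t, P.π d (j t) = j (TensorProduct.map (M.π (d ∘ Sum.inl)) (N.π (d ∘ Sum.inr)) t)

end Modules

end Pool.Agent.Bav
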