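import Pool.Agent.P.MP_dd457d_ag.Bav.Grp

/-! Cyclic modules and prime filtrations. -/

set_option autoImplicit false

noncomputable section

namespace Pool.Agent.Bav

open MvPolynomial

variable {σ k ι : Type} [Field k] {I : Ideal (MvPolynomial σ k)} [Finite σ] [Fintype ι]
  {M : GM I ι} {J : Ideal (S σ k ι)}

omit [Finite σ] [Fintype ι] in
theorem cyc_cases (J : Ideal (S σ k ι)) (n : ι → ℤ) :
    cy I J n = 0 ∨ ∃ (M : GM I ι) (x : M.M), IsCyc J n M x ∧ cy I J n = cls M := by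
  unfold cy
  split_ifs with h
  · obtain ⟨x, hx⟩ := h.choose_spec
    exact Or.inr ⟨_, x, hx, rfl⟩
  · exact Or.inl rfl

theorem IsCyc.cls_eq {n : ι → ℤ} {x : M.M} (h : IsCyc J n M x) : cls M = cy I J n := by
  have h0 : ∃ M : GM I ι, ∃ x, IsCyc J n M x := ⟨M, x, h⟩
  unfold cy
  rw [dif_pos h0]
  obtain ⟨y, hy⟩ := h0.choose_spec
  obtain ⟨p, -, h1, h2⟩ := h.exists_hom hy le_rfl
  exact cls_iso p ⟨h2 rfl, h1⟩

theorem exists_cy (hJ : GrI J) (hF : IX I ι ≤ J) (n : ι → ℤ) :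
    ∃ (M : GM I ι) (x : M.M), IsCyc J n M x ∧ cy I J n = cls M := by
  obtain ⟨M, x, h⟩ := exists_cyc hJ hF n
  exact ⟨M, x, h, h.cls_eq.symm⟩

theorem cy_irr (h : Irr J) (n : ι → ℤ) : cy I J n = 0 := by
  rcases cyc_cases (I := I) J n with h0 | ⟨M, x, h1, h2⟩
  · exact h0
  · rw [h2]
    exact cls_irr (h1.ann_eq.symm ▸ h)

theorem cy_mul (hJ : GrI J) (hF : IX I ι ≤ J) {f : S σ k ι} {d : ι → ℤ} (hf : Hg f d)
    (h : ∀ g, f * g ∈ J → g ∈ J) (n : ι → ℤ) :
    cy I J n = cy I J (n - d) + cy I (J ⊔ Ideal.span {f}) n := by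
  obtain ⟨M, x, hx⟩ := exists_cyc hJ hF n
  have hi : Function.Injective (M.mulHom hf).f := by
    rw [injective_iff_map_eq_zero]
    intro y hy
    obtain ⟨g, rfl⟩ := hx.gen y
    have h1 : (f * g) • x = 0 := by rw [mul_smul]; exact hy
    exact (hx.ann g).2 (h g ((hx.ann _).1 h1))
  have h1 := cls_inj (M.mulHom hf) hi
  have h2 := (hx.sh (-d)).cls_eq
  have h3 := (hx.image (J' := Ideal.span {f}) (M.quop _ (M.mulHom hf).gr_range)
    (Submodule.mkQ_surjective _) fun y => by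
      rw [Submodule.ideal_span_singleton_smul, Submodule.mem_smul_pointwise_iff_exists]
      refine (Submodule.Quotient.mk_eq_zero _).trans ⟨?_, ?_⟩
      · rintro ⟨z, hz⟩
        exact ⟨z, trivial, hz⟩
      · rintro ⟨z, -, hz⟩
        exact ⟨z, hz⟩).cls_eq
  rw [← hx.cls_eq, h1, h2, h3, sub_eq_add_neg]

/-- a nonzero module contains a homogeneous element with prime annihilator -/
theorem cyc_exists_prime (N : GM I ι) (hN : ∃ y : N.M, y ≠ 0) :
    ∃ (x : N.M) (d : ι → ℤ) (P : Ideal (S σ k ι)), x ≠ 0 ∧ N.π d x = x ∧ GrI P ∧ P.IsPrime ∧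
      ∀ f, f • x = 0 ↔ f ∈ P := by
  have hne : {P : Ideal (S σ k ι) | ∃ (x : N.M) (d : ι → ℤ), x ≠ 0 ∧ N.π d x = x ∧
      ∀ f, f • x = 0 ↔ f ∈ P}.Nonempty := by
    obtain ⟨y, hy⟩ := hN
    obtain ⟨d, hd⟩ : ∃ d, N.π d y ≠ 0 := by
      by_contra hc
      exact hy (N.eq_zero fun d => not_not.1 fun h => hc ⟨d, h⟩)
    exact ⟨LinearMap.ker (LinearMap.toSpanSingleton (S σ k ι) N.M (N.π d y)), N.π d y, d, hd,
      N.π_self d y, fun f => Iff.rfl⟩
  obtain ⟨P, ⟨x, d, h0, h1, h2⟩, hmax⟩ := set_has_maximal_iff_noetherian.2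
    (inferInstance : IsNoetherian (S σ k ι) (S σ k ι)) _ hne
  have hg : GrI P := fun e f hf => by
    rw [← h2, ← N.π_smul_hom h1, (h2 f).2 hf, map_zero]
  refine ⟨x, d, P, h0, h1, hg, GrW.isPrime hg (fun ht => h0 ?_) ?_, h2⟩
  · have := (h2 1).2 (ht ▸ Submodule.mem_top)
    rwa [one_smul] at this
  · intro f g a b _ hb hfg
    by_contra hc
    rw [not_or] at hc
    refine hmax (LinearMap.ker (LinearMap.toSpanSingleton (S σ k ι) N.M (g • x)))
      ⟨g • x, d + b, fun h => hc.2 ((h2 g).1 h), by rw [N.π_smul hb, h1], fun f => Iff.rfl⟩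
      (lt_of_le_of_ne (fun s hs => ?_) fun he => hc.1 ?_)
    · change s • g • x = 0
      rw [smul_comm, (h2 s).2 hs, smul_zero]
    · rw [he]
      change f • g • x = 0
      rw [← mul_smul]
      exact (h2 _).2 hfg

theorem cyc_dv_aux (M : GM I ι) (W : Submodule (S σ k ι) M.M) : ∀ (N : GM I ι) (p : Hom M N),
    Function.Surjective p.f → LinearMap.ker p.f = W →
    ∃ (n : ℕ) (P : Fin n → Ideal (S σ k ι)) (s : Fin n → ι → ℤ),
      (∀ i, GrI (P i) ∧ (P i).IsPrime ∧ N.ann ≤ P i) ∧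
      (∀ Q : Ideal (S σ k ι), Q.IsPrime → N.ann ≤ Q → ∃ i, P i ≤ Q) ∧
      cls N = ∑ i, cy I (P i) (s i) := by
  induction W using WellFoundedGT.induction with
  | ind W ih =>
  intro N p hp hW
  by_cases hN : ∃ y : N.M, y ≠ 0
  · obtain ⟨x, d, P₀, h0, h1, h2, h3, h4⟩ := cyc_exists_prime N hN
    have hg : Gr N (Submodule.span (S σ k ι) {x}) := gr_span N (by rintro _ rfl; exact ⟨d, h1⟩)
    have hc : IsCyc P₀ (-d) (N.sub _ hg) ⟨x, Submodule.mem_span_singleton_self x⟩ :=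
      ⟨Subtype.ext (by rw [neg_neg]; exact h1), fun y => by
        obtain ⟨f, hf⟩ := Submodule.mem_span_singleton.1 y.2
        exact ⟨f, Subtype.ext hf.symm⟩, fun f => Subtype.ext_iff.trans (h4 f)⟩
    have hlt : W < LinearMap.ker ((N.quop _ hg).comp p).f := by
      rw [← hW]
      refine lt_of_le_of_ne (fun y hy => ?_) fun he => h0 ?_
      · change (N.quop _ hg).f (p.f y) = 0
        rw [LinearMap.mem_ker.1 hy, map_zero]
      · obtain ⟨y, hy⟩ := hp x
        have : y ∈ LinearMap.ker ((N.quop _ hg).comp p).f := by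
          change (Submodule.span (S σ k ι) {x}).mkQ (p.f y) = 0
          rw [hy]
          exact (Submodule.Quotient.mk_eq_zero _).2 (Submodule.mem_span_singleton_self x)
        rw [← he] at this
        rw [← hy]
        exact this
    obtain ⟨n, P, s, a1, a2, a3⟩ := ih _ hlt (N.quo _ hg) ((N.quop _ hg).comp p)
      ((Submodule.mkQ_surjective _).comp hp) rfl
    have hle : N.ann ≤ (N.quo _ hg).ann := fun f hf => GM.mem_ann.2 fun y => by
      obtain ⟨z, rfl⟩ := Submodule.mkQ_surjective (Submodule.span (S σ k ι) {x}) y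
      change f • (Submodule.span (S σ k ι) {x}).mkQ z = 0
      rw [← map_smul, GM.mem_ann.1 hf z, map_zero]
    refine ⟨n + 1, Fin.cons P₀ P, Fin.cons (-d) s, fun i => ?_, fun Q hQ hl => ?_, ?_⟩
    · refine Fin.cases ?_ (fun i => ?_) i
      · exact ⟨h2, h3, fun f hf => (h4 f).1 (GM.mem_ann.1 hf x)⟩
      · exact ⟨(a1 i).1, (a1 i).2.1, hle.trans (a1 i).2.2⟩
    · have hm : P₀ * (N.quo _ hg).ann ≤ Q := by
        refine le_trans (Ideal.mul_le.2 fun f hf g hgm => GM.mem_ann.2 fun y => ?_) hl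
        have h5 : (Submodule.span (S σ k ι) {x}).mkQ (g • y) = 0 := by
          rw [map_smul]
          exact GM.mem_ann.1 hgm _
        obtain ⟨c, hc⟩ := Submodule.mem_span_singleton.1 ((Submodule.Quotient.mk_eq_zero _).1 h5)
        rw [mul_smul, ← hc, smul_comm, (h4 f).2 hf, smul_zero]
      rcases (hQ.mul_le).1 hm with h5 | h5
      · exact ⟨0, h5⟩
      · obtain ⟨i, hi⟩ := a2 Q hQ h5
        exact ⟨i.succ, hi⟩
    · rw [Fin.sum_univ_succ, cls_sub_quo N _ hg, hc.cls_eq, a3]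
      rfl
  · have h0 : ∀ y : N.M, y = 0 := fun y => not_not.1 fun h => hN ⟨y, h⟩
    refine ⟨0, Fin.elim0, Fin.elim0, fun i => i.elim0, fun Q hQ hl => ?_, ?_⟩
    · exact absurd ((Ideal.eq_top_iff_one Q).2 (hl (GM.mem_ann.2 fun y => h0 _))) hQ.ne_top
    · rw [Finset.univ_eq_empty, Finset.sum_empty]
      exact cls_tors ⟨0, fun d _ => LinearMap.ext fun y => h0 _⟩

/-- prime filtration -/
theorem dv (M : GM I ι) : ∃ (n : ℕ) (P : Fin n → Ideal (S σ k ι)) (s : Fin n → ι → ℤ),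
    (∀ i, GrI (P i) ∧ (P i).IsPrime ∧ M.ann ≤ P i) ∧
    (∀ Q : Ideal (S σ k ι), Q.IsPrime → M.ann ≤ Q → ∃ i, P i ≤ Q) ∧
    cls M = ∑ i, cy I (P i) (s i) :=
  cyc_dv_aux M _ M ⟨LinearMap.id, fun _ _ => rfl⟩ Function.surjective_id rfl

variable {V : Type*} [AddCommGroup V] [Module ℂ V] {e : G I ι →ₗ[ℂ] V}

theorem kil_of_primes (h : ∀ P n, GrI P → P.IsPrime → IX I ι ≤ P → J ≤ P → e (cy I P n) = 0) :
    Kil e J := by
  intro M hM
  obtain ⟨n, P, s, a1, -, a3⟩ := dv M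
  rw [a3, map_sum]
  exact Finset.sum_eq_zero fun i _ => h _ _ (a1 i).1 (a1 i).2.1
    (M.IX_le_ann.trans (a1 i).2.2) (hM.trans (a1 i).2.2)

theorem Kil.cy (h : Kil e J) {J' : Ideal (S σ k ι)} (hl : J ≤ J') (n : ι → ℤ) :
    e (cy I J' n) = 0 := by
  rcases cyc_cases (I := I) J' n with h0 | ⟨M, x, h1, h2⟩
  · rw [h0, map_zero]
  · rw [h2]
    exact h M (h1.ann_eq.symm ▸ hl)

theorem Kil.eq_zero (h : Kil e (IX I ι)) : e = 0 :=
  G.ext fun M => h M M.IX_le_ann

/-- independence of the shift -/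
theorem cy_shift {P : Ideal (S σ k ι)} (hg : GrI P) (hP : P.IsPrime) (hF : IX I ι ≤ P)
    (α : ι → σ) (hα : ∀ i, (X (i, α i) : S σ k ι) ∉ P)
    (h : ∀ i, Kil e (P ⊔ Ideal.span {X (i, α i)})) (n n' : ι → ℤ) :
    e (cy I P n) = e (cy I P n') := by
  classical
  let H : AddSubgroup (ι → ℤ) :=
    { carrier := {t | ∀ n, e (cy I P (n - t)) = e (cy I P n)}
      zero_mem' := fun n => by rw [sub_zero]
      add_mem' := fun {a b} ha hb n => by rw [← sub_sub, hb, ha]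
      neg_mem' := fun {a} ha n => by rw [← ha (n - -a), sub_neg_eq_add, add_sub_cancel_right] }
  have h1 : ∀ i, Pi.single i (1 : ℤ) ∈ H := fun i n => by
    have h2 := cy_mul hg hF (hg_X (i, α i))
      (fun g hg' => (hP.mem_or_mem hg').resolve_left (hα i)) n
    rw [wt_eq_single] at h2
    rw [h2, map_add, (h i).cy le_rfl, add_zero]
  have h2 : n - n' ∈ H := by
    rw [← Finset.univ_sum_single (n - n')]
    refine H.sum_mem fun i _ => ?_
    have h3 := H.zsmul_mem (h1 i) ((n - n') i)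
    rwa [← Pi.single_smul, smul_eq_mul, mul_one] at h3
  have h3 := h2 n
  rw [sub_sub_cancel] at h3
  exact h3.symm

end Pool.Agent.Bav
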