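import Mathlib

/-! Multigraded modules on the powers of a projective scheme and their Grothendieck group. -/

set_option autoImplicit false

noncomputable section

namespace Pool.Agent.Bav

open MvPolynomial TensorProduct

/-- Homogeneous coordinate ring of a power of projective space. -/
abbrev S (σ k ι : Type) [CommRing k] : Type := MvPolynomial (ι × σ) k

/-- The multidegree of a variable. -/
def wt {ι σ : Type} (v : ι × σ) : ι → ℤ := Set.indicator {v.1} 1

variable {σ k ι κ : Type} [Field k]

/-- Finitely generated multigraded modules killed by the equations from `I` in each factor; the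
grading is given by the projections `π d` onto the homogeneous components. -/
structure GM (I : Ideal (MvPolynomial σ k)) (ι : Type) where
  M : Type
  [acg : AddCommGroup M]
  [modk : Module k M]
  [mod : Module (S σ k ι) M]
  [tower : IsScalarTower k (S σ k ι) M]
  fg : Module.Finite (S σ k ι) M
  π : (ι → ℤ) → M →ₗ[k] M
  π_self : ∀ d x, π d (π d x) = π d x
  π_ne : ∀ d e x, d ≠ e → π d (π e x) = 0
  sum_π : ∀ x, ∃ s : Finset (ι → ℤ), ∑ d ∈ s, π d x = x
  π_X : ∀ v d x, π (d + wt v) ((X v : S σ k ι) • x) = (X v : S σ k ι) • π d x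
  kil : ∀ (i : ι), ∀ f ∈ I, ∀ x : M, (rename (Prod.mk i) f : S σ k ι) • x = 0

attribute [instance] GM.acg GM.modk GM.mod GM.tower GM.fg

variable {I : Ideal (MvPolynomial σ k)}

/-- Graded homomorphisms. -/
structure Hom (M N : GM I ι) where
  f : M.M →ₗ[S σ k ι] N.M
  π : ∀ d x, f (M.π d x) = N.π d (f x)

/-- Short exact sequences. -/
def SES {M N P : GM I ι} (f : Hom M N) (g : Hom N P) : Prop :=
  Function.Injective f.f ∧ Function.Surjective g.f ∧ Function.Exact f.f g.f

/-- Modules that vanish in all large degrees. -/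
def Tors (M : GM I ι) : Prop := ∃ d₀ : ι → ℤ, ∀ d, d₀ ≤ d → M.π d = 0

/-- The relations of the Grothendieck group. -/
def rels (I : Ideal (MvPolynomial σ k)) (ι : Type) : AddSubgroup (FreeAbelianGroup (GM I ι)) :=
  AddSubgroup.closure {z | (∃ (M N P : GM I ι) (f : Hom M N) (g : Hom N P), SES f g ∧
      z = FreeAbelianGroup.of N - FreeAbelianGroup.of M - FreeAbelianGroup.of P) ∨
    ∃ M : GM I ι, Tors M ∧ z = FreeAbelianGroup.of M}

/-- Action of the coordinate ring of the product on a tensor product. -/
def boxAct {V W : Type} [AddCommGroup V] [Module k V] [AddCommGroup W] [Module k W]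
    (ρ : S σ k ι →ₐ[k] Module.End k V) (τ : S σ k κ →ₐ[k] Module.End k W) :
    S σ k (ι ⊕ κ) →ₐ[k] Module.End k (V ⊗[k] W) :=
  Module.endTensorEndAlgHom.comp ((Algebra.TensorProduct.map ρ τ).comp
    (aeval fun v : (ι ⊕ κ) × σ =>
      Sum.elim (fun i => (X (i, v.2) : S σ k ι) ⊗ₜ[k] (1 : S σ k κ))
        (fun i => (1 : S σ k ι) ⊗ₜ[k] (X (i, v.2) : S σ k κ)) v.1))

/-- The action of the coordinate ring on a module. -/
def GM.act (M : GM I ι) : S σ k ι →ₐ[k] Module.End k M.M := Algebra.lsmul k k M.M

/-- Action of the coordinate ring of the product on the external tensor product. -/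
def boxHom (M : GM I ι) (N : GM I κ) : S σ k (ι ⊕ κ) →ₐ[k] Module.End k (M.M ⊗[k] N.M) :=
  boxAct M.act N.act

end Pool.Agent.Bav
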