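import Pool.Agent.P.MP_2ce3e7_ag.CW0

/-! Powers, restriction of scalars and base change of graded modules. -/

open Function Filter TensorProduct Module
open Pool.Agent.CXD

noncomputable section

namespace Pool.Agent.Bav.Desc

theorem hp_of {f : ℤ → ℚ} {p : Polynomial ℚ} (h : ∀ᶠ t : ℤ in atTop, f t = p.eval (t : ℚ)) :
    hp f = p := by
  have h1 : ∀ᶠ t : ℤ in atTop, f t = (hp f).eval (t : ℚ) :=
    Classical.epsilon_spec (p := fun p : Polynomial ℚ => ∀ᶠ t : ℤ in atTop, f t = p.eval (t : ℚ))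
      ⟨p, h⟩
  obtain ⟨a, ha⟩ := eventually_atTop.1 (h1.and h)
  refine Polynomial.eq_of_infinite_eval_eq _ _ ?_
  refine ((Set.Ici_infinite a).image (f := fun t : ℤ => (t : ℚ)) Int.cast_injective.injOn).mono ?_
  rintro _ ⟨t, ht, rfl⟩
  exact (ha t ht).1.symm.trans (ha t ht).2

/-- `c ↦ hp (c f) (0)` is affine in `c ≠ 0`. -/
theorem hp_aff (f : ℤ → ℚ) : ∃ α β : ℚ, ∀ c : ℚ, c ≠ 0 →
    (hp fun t => c * f t).eval 0 = c * α + β := by
  by_cases h : ∃ p : Polynomial ℚ, ∀ᶠ t : ℤ in atTop, f t = p.eval (t : ℚ)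
  · obtain ⟨p, hp'⟩ := h
    refine ⟨p.eval 0, 0, fun c _ => ?_⟩
    rw [hp_of (p := Polynomial.C c * p) (hp'.mono fun t ht => by simp [ht])]
    simp
  · refine ⟨0, (Classical.epsilon fun _ : Polynomial ℚ => False).eval 0, fun c hc => ?_⟩
    rw [mul_zero, zero_add, hp]
    congr 2
    funext p
    refine eq_false fun hp' => h ⟨Polynomial.C c⁻¹ * p, hp'.mono fun t ht => ?_⟩
    rw [Polynomial.eval_mul, Polynomial.eval_C, ← ht, inv_mul_cancel_left₀ hc]

theorem dim_prod (k : Type) {A X Y : Type} [Field k] [CommRing A] [Algebra k A] [AddCommGroup X]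
    [Module A X] [AddCommGroup Y] [Module A Y] (e : X ≃ₗ[A] Y × Y) (S : Set X) (T : Set Y)
    (h1 : ∀ x ∈ S, (e x).1 ∈ T ∧ (e x).2 ∈ T)
    (h2 : ∀ y ∈ T, e.symm (y, 0) ∈ S ∧ e.symm (0, y) ∈ S) : dimK k A S = 2 * dimK k A T := by
  unfold dimK
  let := Module.compHom X (algebraMap k A)
  let := Module.compHom Y (algebraMap k A)
  let e' : X ≃ₗ[k] Y × Y := e.toAddEquiv.toLinearEquiv fun c x => e.map_smul (algebraMap k A c) x
  have he : ∀ x, e' x = e x := fun _ => rfl
  have hm : (Submodule.span k S).map e'.toLinearMap =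
      (Submodule.span k T).prod (Submodule.span k T) := by
    rw [Submodule.map_span]
    apply le_antisymm
    · rw [Submodule.span_le]
      rintro _ ⟨x, hx, rfl⟩
      exact ⟨Submodule.subset_span (h1 x hx).1, Submodule.subset_span (h1 x hx).2⟩
    · rw [LinearMap.prod_eq_sup_map, Submodule.map_span, Submodule.map_span]
      refine sup_le (Submodule.span_mono ?_) (Submodule.span_mono ?_)
      · rintro _ ⟨y, hy, rfl⟩
        exact ⟨_, (h2 y hy).1, e.apply_symm_apply _⟩
      · rintro _ ⟨y, hy, rfl⟩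
        exact ⟨_, (h2 y hy).2, e.apply_symm_apply _⟩
  have hr : (Submodule.span k T).prod (Submodule.span k T) = LinearMap.range
      ((Submodule.span k T).subtype.prodMap (Submodule.span k T).subtype) := by
    simp [LinearMap.range_prodMap]
  rw [← LinearEquiv.finrank_map_eq e', hm, hr, LinearMap.finrank_range_of_inj
    (Subtype.val_injective.prodMap Subtype.val_injective), finrank,
    rank_prod', ← two_mul, Cardinal.toNat_mul, finrank]
  simp

section
variable {A B : Type} [CommRing A] [CommRing B] {𝒜 : ℤ → Set A} {ℬ : ℤ → Set B}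

/-- a power of a graded module -/
def pw (n : ℕ) (V : GM 𝒜) : GM 𝒜 where
  M := Fin n → V.M
  π d := (V.π d).compLeft (Fin n)
  π_self d x := funext fun i => V.π_self d (x i)
  π_ne d e x h := funext fun i => V.π_ne d e (x i) h
  sum_π x := by
    classical
    choose s hs using fun i => V.sum_π (x i)
    refine ⟨Finset.univ.biUnion s, funext fun i => ?_⟩
    rw [Finset.sum_apply]
    refine Eq.trans (Finset.sum_subset (Finset.subset_biUnion_of_mem s (Finset.mem_univ i))
      fun d _ hd => ?_).symm (hs i)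
    change V.π d (x i) = 0
    rw [← hs i, map_sum]
    exact Finset.sum_eq_zero fun e he => V.π_ne d e _ fun h => hd (h ▸ he)
  π_smul c d a ha x := funext fun i => V.π_smul c d a ha (x i)

/-- the square of a graded module -/
def sq (V : GM 𝒜) : GM 𝒜 where
  M := V.M × V.M
  π d := (V.π d).prodMap (V.π d)
  π_self d x := Prod.ext (V.π_self d x.1) (V.π_self d x.2)
  π_ne d e x h := Prod.ext (V.π_ne d e x.1 h) (V.π_ne d e x.2 h)
  sum_π x := by
    obtain ⟨s, hs⟩ := (pw 2 V).sum_π ![x.1, x.2]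
    refine ⟨s, Prod.ext ?_ ?_⟩
    · rw [Prod.fst_sum]
      exact (Finset.sum_apply 0 s _).symm.trans (congrFun hs 0)
    · rw [Prod.snd_sum]
      exact (Finset.sum_apply 1 s _).symm.trans (congrFun hs 1)
  π_smul c d a ha x := Prod.ext (V.π_smul c d a ha x.1) (V.π_smul c d a ha x.2)

theorem dim_sq (k : Type) [Field k] [Algebra k A] (N V : GM 𝒜) (t : ℤ) :
    dimK k A (tpc (sq N) V t) = 2 * dimK k A (tpc N V t) := by
  refine dim_prod k (prodLeft A A N.M N.M V.M) _ _ ?_ ?_
  · rintro _ ⟨a, y, v, rfl⟩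
    exact ⟨⟨a, y.1, v, rfl⟩, ⟨a, y.2, v, rfl⟩⟩
  · rintro _ ⟨a, y, v, rfl⟩
    refine ⟨⟨a, (y, 0), v, (LinearEquiv.symm_apply_eq _).2 ?_⟩,
      ⟨a, (0, y), v, (LinearEquiv.symm_apply_eq _).2 ?_⟩⟩
    · exact Prod.ext rfl (show 0 = N.π a 0 ⊗ₜ[A] V.π (t - a) v by simp)
    · exact Prod.ext (show 0 = N.π a 0 ⊗ₜ[A] V.π (t - a) v by simp) rfl

/-- a power of a finitely generated graded module -/
def pwF (n : ℕ) (V : FGM 𝒜) : FGM 𝒜 :=
  ⟨pw n V.1, have := V.2; inferInstanceAs (Module.Finite A (Fin n → V.1.M))⟩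

theorem ses_mem {M N P : FGM 𝒜} (h : Ses M.1 N.1 P.1) :
    FreeAbelianGroup.of N - FreeAbelianGroup.of M - FreeAbelianGroup.of P ∈ rels 𝒜 :=
  AddSubgroup.subset_closure (Or.inl ⟨M, N, P, h, rfl⟩)

theorem pw_zero (V : FGM 𝒜) : FreeAbelianGroup.of (pwF 0 V) ∈ rels 𝒜 :=
  AddSubgroup.subset_closure (Or.inr ⟨_, Eventually.of_forall fun _ =>
    AddMonoidHom.ext fun _ => funext fun i => i.elim0, rfl⟩)

theorem pw_mem (V : FGM 𝒜) (n : ℕ) :
    FreeAbelianGroup.of (pwF n V) - n • FreeAbelianGroup.of V ∈ rels 𝒜 := by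
  induction n with
  | zero => simpa using pw_zero V
  | succ n ih =>
    have h : Ses V.1 (pwF (n + 1) V).1 (pwF n V).1 := by
      refine ⟨LinearMap.single A (fun _ : Fin (n + 1) => V.1.M) 0,
        LinearMap.funLeft A V.1.M Fin.succ, fun d x => funext fun i => ?_, fun _ _ => rfl,
        Pi.single_injective (M := fun _ : Fin (n + 1) => V.1.M) 0, fun y => ⟨Fin.cons 0 y, rfl⟩,
        fun y => ⟨fun hy => ⟨y 0, funext (Fin.cases rfl fun j => (congrFun hy j).symm)⟩, ?_⟩⟩
      · exact (Pi.apply_single (fun _ => V.1.π d) (fun _ => map_zero _) 0 x i).symm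
      · rintro ⟨x, rfl⟩
        rfl
    have := add_mem (ses_mem h) ih
    rwa [show ∀ a b c : FreeAbelianGroup (FGM 𝒜), a - b - c + (c - n • b) = a - (n + 1) • b from
      fun a b c => by rw [succ_nsmul]; abel] at this

variable [Algebra A B]

/-- restriction of scalars -/
def res (h : ∀ c, ∀ a ∈ 𝒜 c, algebraMap A B a ∈ ℬ c) (N : GM ℬ) : GM 𝒜 where
  M := N.M
  mod := Module.compHom N.M (algebraMap A B)
  π := N.π
  π_self := N.π_self
  π_ne := N.π_ne
  sum_π := N.sum_π
  π_smul c d a ha x := N.π_smul c d _ (h c a ha) x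

theorem lf_bc {V : Type} [AddCommGroup V] [Module A V] (z : A)
    (h : Module.Projective (Localization (Submonoid.powers z))
    (LocalizedModule (Submonoid.powers z) V)) :
    Module.Projective (Localization (Submonoid.powers (algebraMap A B z)))
      (LocalizedModule (Submonoid.powers (algebraMap A B z)) (B ⊗[A] V)) := by
  let Az := Localization (Submonoid.powers z)
  let Bz := Localization (Submonoid.powers (algebraMap A B z))
  have hz : Submonoid.powers z ≤ (Submonoid.powers (algebraMap A B z)).comap (algebraMap A B) := by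
    rintro _ ⟨m, rfl⟩
    exact ⟨m, (map_pow _ _ _).symm⟩
  let : Algebra Az Bz := (IsLocalization.map Bz (algebraMap A B) hz).toAlgebra
  have : IsScalarTower A Az Bz := IsScalarTower.of_algebraMap_eq fun a =>
    (IsScalarTower.algebraMap_apply A B Bz a).trans (IsLocalization.map_eq hz a).symm
  exact Module.Projective.of_equiv' (M := Bz ⊗[Az] LocalizedModule (Submonoid.powers z) V)
    ((AlgebraTensorModule.congr (LinearEquiv.refl Bz Bz)
      (LocalizedModule.equivTensorProduct _ V)).trans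
    ((AlgebraTensorModule.cancelBaseChange A Az Bz Bz V).trans
    ((AlgebraTensorModule.cancelBaseChange A B Bz Bz V).symm.trans
      (LocalizedModule.equivTensorProduct _ _).symm)))

end

end Pool.Agent.Bav.Desc
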