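import Pool.Agent.P.MP_dd457d_ag.Bav.Desc

/-! Forms of graded modules over finite subextensions. -/

open Function Filter TensorProduct Module
open Pool.Agent.CXD

noncomputable section

namespace Pool.Agent.Bav.Desc

variable {k Ω : Type} [Field k] [Field Ω] [Algebra k Ω]

/-- finite subextensions -/
def FD (k Ω : Type) [Field k] [Field Ω] [Algebra k Ω] : Type :=
  {L : IntermediateField k Ω // FiniteDimensional k L}

instance : SemilatticeSup (FD k Ω) :=
  Subtype.semilatticeSup fun x y _ _ => IntermediateField.finiteDimensional_sup x y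

instance : Nonempty (FD k Ω) := ⟨⟨⊥, inferInstance⟩⟩

theorem ev_mem [Algebra.IsAlgebraic k Ω] (ω : Ω) : ∀ᶠ L : FD k Ω in atTop, ω ∈ L.1 :=
  (eventually_ge_atTop (α := FD k Ω) ⟨IntermediateField.adjoin k {ω},
    IntermediateField.adjoin.finiteDimensional (Algebra.IsIntegral.isIntegral ω)⟩).mono
    fun _ h => h (IntermediateField.mem_adjoin_simple_self k ω)

/-- `K`-linear maps -/
def Kl (K : IntermediateField k Ω) (r : Ω →+ Ω) : Prop := ∀ c ∈ K, ∀ ω, r (c * ω) = c * r ω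

theorem exists_proj (K : IntermediateField k Ω) :
    ∃ r : Ω →+ Ω, Kl K r ∧ (∀ ω, r ω ∈ K) ∧ r 1 = 1 := by
  obtain ⟨g, hg⟩ := (Algebra.linearMap K Ω).exists_leftInverse_of_injective
    (LinearMap.ker_eq_bot.2 (algebraMap K Ω).injective)
  refine ⟨(Algebra.linearMap K Ω ∘ₗ g).toAddMonoidHom,
    fun c hc ω => (Algebra.linearMap K Ω ∘ₗ g).map_smul ⟨c, hc⟩ ω, fun ω => (g ω).2, ?_⟩
  exact congrArg Subtype.val (LinearMap.congr_fun hg 1)

theorem exists_rel {K L : IntermediateField k Ω} (h : K ≤ L) [FiniteDimensional k L] :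
    ∃ (m : ℕ) (u : Fin m → Ω) (c : Fin m → Ω →+ Ω), finrank k K * m = finrank k L ∧
      (∀ i, u i ∈ L) ∧ (∀ i, Kl K (c i)) ∧ (∀ i ω, c i ω ∈ K) ∧
      (∀ i j, c i (u j) = if j = i then 1 else 0) ∧ ∀ x ∈ L, ∑ i, u i * c i x = x := by
  let : Algebra K L := (IntermediateField.inclusion h).toRingHom.toAlgebra
  have : IsScalarTower k K L := .of_algebraMap_eq fun _ => rfl
  have : IsScalarTower K L Ω := .of_algebraMap_eq fun _ => rfl
  have : FiniteDimensional K L := .right k K L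
  let u := finBasis K L
  obtain ⟨g, hg⟩ := (IsScalarTower.toAlgHom K L Ω).toLinearMap.exists_leftInverse_of_injective
    (LinearMap.ker_eq_bot.2 (algebraMap L Ω).injective)
  have hg' : ∀ x : L, g x = x := LinearMap.congr_fun hg
  refine ⟨_, fun i => u i, fun i => (Algebra.linearMap K Ω ∘ₗ u.coord i ∘ₗ g).toAddMonoidHom,
    finrank_mul_finrank k K L, fun i => (u i).2,
    fun i c hc ω => (Algebra.linearMap K Ω ∘ₗ u.coord i ∘ₗ g).map_smul ⟨c, hc⟩ ω,
    fun i ω => (u.coord i (g ω)).2, fun i j => ?_, fun x hx => ?_⟩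
  · simp [hg', Finsupp.single_apply, apply_ite]
  · have := congrArg (algebraMap L Ω) (u.sum_repr ⟨x, hx⟩)
    rw [map_sum] at this
    refine Eq.trans (Finset.sum_congr rfl fun i _ => ?_) this
    rw [← hg' ⟨x, hx⟩, mul_comm]
    rfl

variable {A B : Type} [CommRing A] [CommRing B] [Algebra Ω B]

section
variable {X Y : Type} [AddCommGroup X] [Module B X] {S : Set Ω} {j : Y → X}

/-- the combinations with coefficients in `S` -/
def sp (B : Type) [CommRing B] [Algebra Ω B] [Module B X] (S : Set Ω) (j : Y → X) :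
    AddSubgroup X := AddSubgroup.closure {y | ∃ c ∈ S, ∃ x, y = algebraMap Ω B c • j x}

theorem mem_sp {c : Ω} (hc : c ∈ S) (x : Y) : algebraMap Ω B c • j x ∈ sp B S j :=
  AddSubgroup.subset_closure ⟨c, hc, x, rfl⟩

theorem sp_le {H : AddSubgroup X} (h : ∀ c ∈ S, ∀ x, algebraMap Ω B c • j x ∈ H) :
    sp B S j ≤ H := (AddSubgroup.closure_le _).2 (by rintro _ ⟨c, hc, x, rfl⟩; exact h c hc x)

theorem sp_ext {Z : Type} [AddCommGroup Z] {f g : X →+ Z}
    (h : ∀ c ∈ S, ∀ x, f (algebraMap Ω B c • j x) = g (algebraMap Ω B c • j x)) {y : X}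
    (hy : y ∈ sp B S j) : f y = g y := sp_le (H := f.eqLocus g) h hy

theorem sp_map {X' Y' : Type} [AddCommGroup X'] [Module B X'] {S' : Set Ω} {j' : Y' → X'}
    (f : X →+ X') (h : ∀ c ∈ S, ∀ x, f (algebraMap Ω B c • j x) ∈ sp B S' j') {y : X}
    (hy : y ∈ sp B S j) : f y ∈ sp B S' j' := sp_le (H := (sp B S' j').comap f) h hy

theorem sp_smul {L : IntermediateField k Ω} {c : Ω} (hc : c ∈ L) {y : X}
    (hy : y ∈ sp B (L : Set Ω) j) : algebraMap Ω B c • y ∈ sp B (L : Set Ω) j :=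
  sp_map (DistribSMul.toAddMonoidHom X (algebraMap Ω B c)) (fun d hd x => by
    rw [DistribSMul.toAddMonoidHom_apply, ← mul_smul, ← map_mul]
    exact mem_sp (L.mul_mem hc hd) x) hy

theorem ev_sp (k : Type) [Field k] [Algebra k Ω] [Algebra.IsAlgebraic k Ω] {y : X}
    (hy : y ∈ sp B S j) : ∀ᶠ L : FD k Ω in atTop, y ∈ sp B (L.1 : Set Ω) j := by
  induction hy using AddSubgroup.closure_induction with
  | mem y hy =>
    obtain ⟨c, -, x, rfl⟩ := hy
    exact (ev_mem c).mono fun L h => mem_sp h x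
  | zero => exact Eventually.of_forall fun _ => zero_mem _
  | add x y _ _ hx hy => exact (hx.and hy).mono fun _ h => add_mem h.1 h.2
  | neg x _ hx => exact hx.mono fun _ h => neg_mem h

end

variable [Algebra A B] {𝒜 : ℤ → Set A} {ℬ : ℤ → Set B}

theorem π_zero (N : GM ℬ) {β : B} (h : β ∈ ℬ 0) (d : ℤ) (y : N.M) :
    N.π d (β • y) = β • N.π d y := by
  simpa using N.π_smul 0 d β h y

/-- `N'` is a form of `N` over `K`. -/
structure Form (K : IntermediateField k Ω) (N : GM ℬ) (N' : GM 𝒜) (j : N'.M →+ N.M) : Prop where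
  inj : Injective j
  lin : ∀ (a : A) x, j (a • x) = algebraMap A B a • j x
  gr : ∀ d x, j (N'.π d x) = N.π d (j x)
  st : ∀ c ∈ K, ∀ x, ∃ y, j y = algebraMap Ω B c • j x
  top : ∀ y, y ∈ sp B (Set.univ : Set Ω) j
  ret : ∀ r : Ω →+ Ω, Kl K r → ∃ R : N.M →+ N.M,
    ∀ ω x, R (algebraMap Ω B ω • j x) = algebraMap Ω B (r ω) • j x

variable {K K' L : IntermediateField k Ω} {M N P : GM ℬ} {M' N' P' : GM 𝒜} {i : M'.M →+ M.M}
  {j : N'.M →+ N.M} {l : P'.M →+ P.M}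

theorem Form.up (H3 : ∀ ω, algebraMap Ω B ω ∈ ℬ 0) (h : Form K N N' j) (hL : K ≤ L)
    [FiniteDimensional k L] : ∃ (m : ℕ) (j' : (pw m N').M →+ N.M), finrank k K * m = finrank k L ∧
      Form L N (pw m N') j' ∧ j'.range = sp B (L : Set Ω) j := by
  obtain ⟨m, u, c, hm, hu, h1, h2, h3, h4⟩ := exists_rel hL
  let j' : (Fin m → N'.M) →+ N.M := AddMonoidHom.mk'
    (fun f => ∑ i, algebraMap Ω B (u i) • j (f i)) fun f g => by simp [Finset.sum_add_distrib]
  have hj : ∀ f, j' f = ∑ i, algebraMap Ω B (u i) • j (f i) := fun _ => rfl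
  have hr : j'.range = sp B (L : Set Ω) j := by
    refine le_antisymm ?_ (sp_le fun a ha x => ?_)
    · rintro _ ⟨f, rfl⟩
      rw [hj]
      exact AddSubgroup.sum_mem _ fun i _ => mem_sp (B := B) (S := (L : Set Ω)) (hu i) (f i)
    · choose y hy using fun i => h.st _ (h2 i a) x
      refine ⟨y, ?_⟩
      simp only [hj, hy, ← mul_smul, ← map_mul, ← Finset.sum_smul, ← map_sum, h4 a ha]
  refine ⟨m, j', hm, ⟨(injective_iff_map_eq_zero j').2 fun f hf => funext fun e => ?_,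
    fun a f => ?_, fun d f => ?_, fun a ha f => ?_, fun y => ?_, fun r hr => ?_⟩, hr⟩
  · obtain ⟨R, hR⟩ := h.ret _ (h1 e)
    have := congrArg R hf
    simp only [hj, map_sum, hR, h3, map_zero, apply_ite, ite_smul, map_one, one_smul, zero_smul,
      Finset.sum_ite_eq', Finset.mem_univ, if_true] at this
    exact h.inj (this.trans (map_zero j).symm)
  · change ∑ i, algebraMap Ω B (u i) • j (a • f i) = _ • ∑ i, algebraMap Ω B (u i) • j (f i)
    simp only [h.lin, Finset.smul_sum, smul_comm (algebraMap A B a)]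
  · change ∑ i, algebraMap Ω B (u i) • j (N'.π d (f i)) =
      N.π d (∑ i, algebraMap Ω B (u i) • j (f i))
    simp only [h.gr, map_sum, π_zero N (H3 _)]
  · exact hr.ge (sp_smul ha (hr.le ⟨f, rfl⟩))
  · refine sp_le (fun a _ x => ?_) (h.top y)
    obtain ⟨f, hf⟩ := hr.ge (mem_sp L.one_mem x)
    rw [map_one, one_smul] at hf
    exact hf ▸ mem_sp (Set.mem_univ a) f
  · obtain ⟨R, hR⟩ := h.ret r fun a ha => hr a (hL ha)
    refine ⟨R, fun ω (f : Fin m → N'.M) => ?_⟩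
    change R (_ • j' f) = _ • j' f
    simp only [hj, Finset.smul_sum, map_sum, ← mul_smul, ← map_mul, hR, mul_comm _ (u _),
      hr _ (hu _)]

theorem Form.ev_map [Algebra.IsAlgebraic k Ω] (hM : Form K M M' i) (hN : Form K' N N' j)
    (hf : Module.Finite A M'.M) (f : M.M →ₗ[B] N.M) : ∀ᶠ L : FD k Ω in atTop,
      ∀ y ∈ sp B (L.1 : Set Ω) i, f y ∈ sp B (L.1 : Set Ω) j := by
  obtain ⟨s, hs⟩ := hf.fg_top
  refine ((eventually_all_finset s).2 fun x _ => ev_sp k (hN.top (f (i x)))).mono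
    fun L h y hy => sp_map f.toAddMonoidHom (fun c hc x => ?_) hy
  rw [LinearMap.toAddMonoidHom_coe, map_smul]
  refine sp_smul hc ?_
  have hx : x ∈ Submodule.span A (s : Set M'.M) := hs ▸ trivial
  induction hx using Submodule.span_induction with
  | mem x hx => exact h x hx
  | zero => simp
  | add x y _ _ hx hy => simpa only [map_add] using add_mem hx hy
  | smul a x _ hx =>
    rw [hM.lin, map_smul]
    refine sp_map (DistribSMul.toAddMonoidHom _ (algebraMap A B a)) (fun d hd z => ?_) hx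
    rw [DistribSMul.toAddMonoidHom_apply, smul_comm, ← hN.lin]
    exact mem_sp hd _

theorem Form.map (hM : Form K M M' i) (hN : Form K N N' j) {f : M.M →ₗ[B] N.M} (hf : IsG f)
    (h : ∀ x, ∃ y, j y = f (i x)) :
    ∃ f' : M'.M →ₗ[A] N'.M, IsG f' ∧ ∀ x, j (f' x) = f (i x) := by
  choose f' hf' using h
  exact ⟨⟨⟨f', fun x y => hN.inj (by simp [hf'])⟩, fun a x => hN.inj (by
    simp [hf', hM.lin, hN.lin])⟩, fun d x => hN.inj (by simp [hf', hM.gr, hN.gr, hf d]), hf'⟩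

theorem Form.ses (hM : Form K M M' i) (hN : Form K N N' j) (hP : Form K P P' l)
    {f : M.M →ₗ[B] N.M} {g : N.M →ₗ[B] P.M} (hf : IsG f) (hg : IsG g) (hs : Sx f g)
    (h1 : ∀ x, ∃ y, j y = f (i x)) (h2 : ∀ x, ∃ y, l y = g (j x)) : Ses M' N' P' := by
  obtain ⟨f', hf1, hf2⟩ := hM.map hN hf h1
  obtain ⟨g', hg1, hg2⟩ := hN.map hP hg h2
  obtain ⟨r, hr, hK, h1⟩ := exists_proj K
  obtain ⟨R, hR⟩ := hM.ret r hr
  obtain ⟨S, hS⟩ := hN.ret r hr
  obtain ⟨T, hT⟩ := hP.ret r hr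
  have e1 : ∀ y, S (f y) = f (R y) := fun y =>
    sp_ext (f := S.comp f.toAddMonoidHom) (g := f.toAddMonoidHom.comp R)
      (fun c _ x => by simp [hR, ← hf2, hS]) (hM.top y)
  have e2 : ∀ y, T (g y) = g (S y) := fun y =>
    sp_ext (f := T.comp g.toAddMonoidHom) (g := g.toAddMonoidHom.comp S)
      (fun c _ x => by simp [hS, ← hg2, hT]) (hN.top y)
  have e3 : ∀ y, ∃ x, i x = R y := fun y =>
    sp_le (H := i.range.comap R) (fun c _ x => (hM.st _ (hK c) x).imp fun _ h => h.trans (hR c x).symm)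
      (hM.top y)
  have e4 : ∀ y, ∃ x, j x = S y := fun y =>
    sp_le (H := j.range.comap S) (fun c _ x => (hN.st _ (hK c) x).imp fun _ h => h.trans (hS c x).symm)
      (hN.top y)
  refine ⟨f', g', hf1, hg1, fun x y h => hM.inj (hs.1 (by rw [← hf2, ← hf2, h])), fun p => ?_,
    fun x => ⟨fun hx => ?_, ?_⟩⟩
  · obtain ⟨y, hy⟩ := hs.2.1 (l p)
    obtain ⟨x, hx⟩ := e4 y
    exact ⟨x, hP.inj (by simpa [hg2, hx, ← e2, hy, h1] using hT 1 p)⟩
  · obtain ⟨y, hy⟩ := (hs.2.2 (j x)).1 (by rw [← hg2, hx, map_zero])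
    obtain ⟨z, hz⟩ := e3 y
    exact ⟨z, hN.inj (by simpa [hf2, hz, ← e1, hy, h1] using hS 1 x)⟩
  · rintro ⟨y, rfl⟩
    exact hP.inj (by rw [hg2, hf2, map_zero, hs.2.2.apply_apply_eq_zero])

theorem val_add [Algebra.IsAlgebraic k Ω] (H3 : ∀ ω, algebraMap Ω B ω ∈ ℬ 0) {Q : Type 1}
    [AddCommGroup Q] [Module ℚ Q] (c : FreeAbelianGroup (FGM 𝒜) →+ Q)
    (hc : ∀ x ∈ rels 𝒜, c x = 0) {M' N' P' : FGM 𝒜} {K₁ K₂ K₃ : FD k Ω} {i : M'.1.M →+ M.M}
    {j : N'.1.M →+ N.M} {l : P'.1.M →+ P.M} (hM : Form K₁.1 M M'.1 i) (hN : Form K₂.1 N N'.1 j)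
    (hP : Form K₃.1 P P'.1 l) (hs : Ses M N P) :
    (finrank k K₂.1 : ℚ)⁻¹ • c (.of N') =
      (finrank k K₁.1 : ℚ)⁻¹ • c (.of M') + (finrank k K₃.1 : ℚ)⁻¹ • c (.of P') := by
  obtain ⟨f, g, hf, hg, hs⟩ := hs
  obtain ⟨L, ⟨h1, h2, h3⟩, h4, h5⟩ := (((eventually_ge_atTop K₁).and ((eventually_ge_atTop K₂).and
    (eventually_ge_atTop K₃))).and ((hM.ev_map hN M'.2 f).and (hN.ev_map hP N'.2 g))).exists
  have := L.2
  obtain ⟨m₁, i', e1, hM', r1⟩ := hM.up H3 h1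
  obtain ⟨m₂, j', e2, hN', r2⟩ := hN.up H3 h2
  obtain ⟨m₃, l', e3, hP', r3⟩ := hP.up H3 h3
  have h := hc _ (ses_mem (M := pwF m₁ M') (N := pwF m₂ N') (P := pwF m₃ P')
    (hM'.ses hN' hP' hf hg hs (fun x => r2.ge (h4 _ (r1.le ⟨x, rfl⟩)))
      fun x => r3.ge (h5 _ (r2.le ⟨x, rfl⟩))))
  have hv : ∀ (K : FD k Ω) (m : ℕ) (V : FGM 𝒜), finrank k K.1 * m = finrank k L.1 →
      (finrank k K.1 : ℚ)⁻¹ • c (.of V) = (finrank k L.1 : ℚ)⁻¹ • c (.of (pwF m V)) := by
    intro K m V e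
    have h0 : (m : ℚ) ≠ 0 := by
      rintro h0
      rw [Nat.cast_eq_zero.1 h0, mul_zero] at e
      exact finrank_pos.ne e
    have := hc _ (pw_mem V m)
    rw [map_sub, sub_eq_zero, map_nsmul, ← Nat.cast_smul_eq_nsmul ℚ] at this
    rw [this, ← e, smul_smul, Nat.cast_mul, mul_inv, mul_assoc, inv_mul_cancel₀ h0, mul_one]
  rw [map_sub, map_sub, sub_sub, sub_eq_zero] at h
  rw [hv _ _ _ e1, hv _ _ _ e2, hv _ _ _ e3, h, smul_add]

end Pool.Agent.Bav.Desc
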