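import Mathlib

/-! Functions of polynomial type on `ℤ^ι` and their extension from a cone. -/

set_option autoImplicit false

noncomputable section

namespace Pool.Agent.Bav

open Filter MvPolynomial

variable {ι V : Type*} [AddCommGroup V] [Module ℂ V]

/-- translation of functions -/
def tr (n : ι → ℤ) : Module.End ℂ ((ι → ℤ) → V) where
  toFun h d := h (d + n)
  map_add' _ _ := rfl
  map_smul' _ _ := rfl

@[simp] theorem tr_apply (n : ι → ℤ) (h : (ι → ℤ) → V) (d : ι → ℤ) : tr n h d = h (d + n) := rfl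

variable [DecidableEq ι]

/-- the difference operator in the direction `i` -/
def dl (i : ι) : Module.End ℂ ((ι → ℤ) → V) := tr (Pi.single i 1) - 1

theorem dl_apply (i : ι) (h : (ι → ℤ) → V) (d : ι → ℤ) :
    dl i h d = h (d + Pi.single i 1) - h d := rfl

theorem dl_pow_succ (i : ι) (N : ℕ) (h : (ι → ℤ) → V) (d : ι → ℤ) :
    (dl i ^ (N + 1)) h d = (dl i ^ N) h (d + Pi.single i 1) - (dl i ^ N) h d := by
  rw [pow_succ']; rfl

theorem dl_pow_tr (i : ι) (N : ℕ) (n : ι → ℤ) (h : (ι → ℤ) → V) (d : ι → ℤ) :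
    (dl i ^ N) (tr n h) d = (dl i ^ N) h (d + n) := by
  induction N generalizing d with
  | zero => rfl
  | succ N ih => rw [dl_pow_succ, dl_pow_succ, ih, ih, add_right_comm]

theorem dl_pow_comp {W : Type*} [AddCommGroup W] [Module ℂ W] (α : V →ₗ[ℂ] W) (i : ι) (N : ℕ)
    (h : (ι → ℤ) → V) (d : ι → ℤ) :
    (dl i ^ N) (fun x => α (h x)) d = α ((dl i ^ N) h d) := by
  induction N generalizing d with
  | zero => rfl
  | succ N ih => rw [dl_pow_succ, dl_pow_succ, ih, ih, map_sub]

/-- the value depends only on the values on the cone -/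
theorem dl_pow_congr (i : ι) (N : ℕ) {h h' : (ι → ℤ) → V} {d : ι → ℤ}
    (e : ∀ x, d ≤ x → h x = h' x) : (dl i ^ N) h d = (dl i ^ N) h' d := by
  induction N generalizing d with
  | zero => exact e d le_rfl
  | succ N ih =>
    have h1 : d ≤ d + Pi.single i 1 := le_add_of_nonneg_right (Pi.single_nonneg.2 zero_le_one)
    rw [dl_pow_succ, dl_pow_succ, ih e, ih fun x hx => e x (h1.trans hx)]

/-- an orbit of an operator -/
theorem dl_pow_op (i : ι) (N : ℕ) (T : Module.End ℂ V) (h : (ι → ℤ) → V)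
    (e : ∀ x, h (x + Pi.single i 1) = T (h x)) (d : ι → ℤ) :
    (dl i ^ N) h d = ((T - 1) ^ N) (h d) := by
  induction N generalizing d with
  | zero => rfl
  | succ N ih =>
    rw [dl_pow_succ, ih, ih, e, pow_succ, Module.End.mul_apply, LinearMap.sub_apply, map_sub]
    rfl

/-- functions of polynomial type -/
def IsP (g : (ι → ℤ) → V) : Prop := ∃ N : ℕ, ∀ i, (dl i ^ N) g = 0

theorem dl_pow_mono {i : ι} {N N' : ℕ} (h : N ≤ N') {g : (ι → ℤ) → V} (hg : (dl i ^ N) g = 0) :
    (dl i ^ N') g = 0 := by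
  obtain ⟨c, rfl⟩ := Nat.exists_eq_add_of_le' h
  rw [pow_add, Module.End.mul_apply, hg, map_zero]

theorem IsP.sub {g g' : (ι → ℤ) → V} (h : IsP g) (h' : IsP g') : IsP (g - g') := by
  obtain ⟨N, h⟩ := h
  obtain ⟨N', h'⟩ := h'
  exact ⟨max N N', fun i => by
    rw [map_sub, dl_pow_mono (le_max_left _ _) (h i), dl_pow_mono (le_max_right _ _) (h' i),
      sub_zero]⟩

theorem IsP.add {g g' : (ι → ℤ) → V} (h : IsP g) (h' : IsP g') : IsP (g + g') := by
  obtain ⟨N, h⟩ := h
  obtain ⟨N', h'⟩ := h'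
  exact ⟨max N N', fun i => by
    rw [map_add, dl_pow_mono (le_max_left _ _) (h i), dl_pow_mono (le_max_right _ _) (h' i),
      add_zero]⟩

theorem IsP.smul (c : ℂ) {g : (ι → ℤ) → V} (h : IsP g) : IsP (c • g) := by
  obtain ⟨N, h⟩ := h
  exact ⟨N, fun i => by rw [map_smul, h i, smul_zero]⟩

theorem isP_const (v : V) : IsP fun _ : ι → ℤ => v :=
  ⟨1, fun i => by rw [pow_one]; exact funext fun d => sub_self v⟩

theorem IsP.comp {W : Type*} [AddCommGroup W] [Module ℂ W] (α : V →ₗ[ℂ] W) {g : (ι → ℤ) → V}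
    (h : IsP g) : IsP fun x => α (g x) := by
  obtain ⟨N, h⟩ := h
  exact ⟨N, fun i => funext fun d => by rw [dl_pow_comp, h i]; exact map_zero α⟩

theorem IsP.tr (n : ι → ℤ) {g : (ι → ℤ) → V} (h : IsP g) : IsP fun x => g (x + n) := by
  obtain ⟨N, h⟩ := h
  exact ⟨N, fun i => funext fun d => (dl_pow_tr i N n g d).trans (by rw [h i]; rfl)⟩

theorem dl_pow_lead (i : ι) (N : ℕ) {g : (ι → ℤ) → V} {d : ι → ℤ}
    (e : ∀ x, d + Pi.single i 1 ≤ x → g x = 0) : (dl i ^ N) g d = (-1 : ℂ) ^ N • g d := by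
  induction N with
  | zero => simp
  | succ N ih =>
    rw [dl_pow_succ, ih, dl_pow_congr i N (h' := 0) e, map_zero, pow_succ, mul_neg_one, neg_smul]
    exact zero_sub _

variable [Fintype ι]

/-- uniqueness from a recurrence that holds on a cone -/
theorem zero_of_cone {g : (ι → ℤ) → V} {N : ℕ} {a : ι → ℤ}
    (h : ∀ i x, a ≤ x → (dl i ^ N) g x = 0) (h0 : ∀ᶠ d in atTop, g d = 0) {x : ι → ℤ}
    (hx : a ≤ x) : g x = 0 := by
  obtain ⟨b, hb⟩ := eventually_atTop.1 h0
  have key : ∀ n : ℕ, ∀ c, a ≤ c → ∑ i, (b i - c i).toNat = n → ∀ y, c ≤ y → g y = 0 := by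
    intro n
    induction n with
    | zero =>
      intro c _ hs y hy
      refine hb y fun i => le_trans ?_ (hy i)
      have := Finset.sum_eq_zero_iff.1 hs i (Finset.mem_univ i)
      change b i ≤ c i
      omega
    | succ n ih =>
      intro c hc hs y hy
      obtain ⟨i, hi⟩ : ∃ i, (b i - c i).toNat ≠ 0 := by
        by_contra hn
        push Not at hn
        rw [Finset.sum_eq_zero fun i _ => hn i] at hs
        omega
      have h1 : ∀ z, c + Pi.single i 1 ≤ z → g z = 0 := by
        refine ih _ (hc.trans (le_add_of_nonneg_right (Pi.single_nonneg.2 zero_le_one))) ?_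
        rw [← Finset.add_sum_erase _ _ (Finset.mem_univ i)] at hs ⊢
        have : ∑ j ∈ Finset.univ.erase i, (b j - (c + Pi.single i 1 : ι → ℤ) j).toNat =
            ∑ j ∈ Finset.univ.erase i, (b j - c j).toNat :=
          Finset.sum_congr rfl fun j hj => by
            rw [Pi.add_apply, Pi.single_eq_of_ne (Finset.ne_of_mem_erase hj), add_zero]
        rw [this, Pi.add_apply, Pi.single_eq_same]
        omega
      have h2 := dl_pow_lead i N (g := g) (d := y) fun z hz => h1 z (le_trans (by gcongr) hz)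
      rw [h i y (hc.trans hy)] at h2
      exact (smul_eq_zero.1 h2.symm).resolve_left (pow_ne_zero _ (by norm_num))
  exact key _ x hx rfl x le_rfl

theorem IsP.eq_zero {g : (ι → ℤ) → V} (h : IsP g) (h0 : ∀ᶠ d in atTop, g d = 0) : g = 0 := by
  obtain ⟨N, h⟩ := h
  exact funext fun x => zero_of_cone (a := x) (N := N) (fun i y _ => by rw [h i]; rfl) h0 le_rfl

theorem IsP.uniq {g g' : (ι → ℤ) → V} (h : IsP g) (h' : IsP g')
    (h0 : ∀ᶠ d in atTop, g d = g' d) : g = g' :=
  sub_eq_zero.1 ((h.sub h').eq_zero (h0.mono fun _ hd => sub_eq_zero.2 hd))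

/-- extension from a cone -/
theorem exists_ext {h : (ι → ℤ) → V} {N : ℕ} {a : ι → ℤ}
    (hh : ∀ i x, a ≤ x → (dl i ^ N) h x = 0) :
    ∃ g : (ι → ℤ) → V, (∀ i, (dl i ^ N) g = 0) ∧ ∀ x, a ≤ x → g x = h x := by
  let J : Ideal (MvPolynomial ι ℂ) := Ideal.span (Set.range fun i => (X i - 1) ^ N)
  let lam : MvPolynomial ι ℂ →ₗ[ℂ] V :=
    (basisMonomials ι ℂ).constr ℂ fun m => h (a + fun i => (m i : ℤ))
  have lam_mono : ∀ m, lam (monomial m 1) = h (a + fun i => (m i : ℤ)) := fun m => by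
    have := (basisMonomials ι ℂ).constr_basis ℂ (fun m => h (a + fun i => (m i : ℤ))) m
    rwa [coe_basisMonomials] at this
  have step : ∀ (i : ι) (n : ℕ) (m : ι →₀ ℕ),
      lam (monomial m 1 * (X i - 1) ^ n) = (dl i ^ n) h (a + fun i => (m i : ℤ)) := by
    intro i n
    induction n with
    | zero => intro m; rw [pow_zero, mul_one, lam_mono]; rfl
    | succ n ih =>
      intro m
      have e1 : (monomial m (1 : ℂ)) * (X i - 1) ^ (n + 1) =
          monomial (m + Finsupp.single i 1) 1 * (X i - 1) ^ n - monomial m 1 * (X i - 1) ^ n := by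
        rw [monomial_add_single]; ring
      rw [e1, map_sub, ih, ih, dl_pow_succ]
      have e2 : (a + fun j => (((m + Finsupp.single i 1 : ι →₀ ℕ) j : ℕ) : ℤ)) =
          (a + fun j => (m j : ℤ)) + Pi.single i 1 := by
        funext j
        by_cases hj : j = i
        · subst hj; simp [add_assoc]
        · simp [hj]
      rw [e2]
  have kill : ∀ f ∈ J, lam f = 0 := by
    have k1 : ∀ (i : ι) (p : MvPolynomial ι ℂ), lam (p * (X i - 1) ^ N) = 0 := by
      intro i p
      induction p using MvPolynomial.induction_on' with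
      | monomial m c =>
        have : (monomial m c : MvPolynomial ι ℂ) = c • monomial m 1 := by
          rw [smul_monomial, smul_eq_mul, mul_one]
        rw [this, smul_mul_assoc, map_smul, step, hh i _ (le_add_of_nonneg_right fun j =>
          Int.natCast_nonneg _), smul_zero]
      | add p q hp hq => rw [add_mul, map_add, hp, hq, add_zero]
    intro f hf
    obtain ⟨c, rfl⟩ := Ideal.mem_span_range_iff_exists_fun.1 hf
    rw [map_sum]
    exact Finset.sum_eq_zero fun i _ => k1 i (c i)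
  let lb : (MvPolynomial ι ℂ ⧸ J) →ₗ[ℂ] V :=
    (Submodule.liftQ (J.restrictScalars ℂ) lam fun f hf => kill f hf)
  have lb_mk : ∀ f, lb (Ideal.Quotient.mk J f) = lam f := fun f => rfl
  have nil : ∀ i, (Ideal.Quotient.mk J (X i) - 1) ^ N = 0 := fun i => by
    have : Ideal.Quotient.mk J ((X i - 1) ^ N) = 0 :=
      Ideal.Quotient.eq_zero_iff_mem.2 (Ideal.subset_span ⟨i, rfl⟩)
    simpa using this
  have un : ∀ i, IsUnit (Ideal.Quotient.mk J (X i)) := fun i => by
    have := IsNilpotent.isUnit_add_one (r := Ideal.Quotient.mk J (X i) - 1) ⟨N, nil i⟩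
    rwa [sub_add_cancel] at this
  choose t ht using un
  let tz : (ι → ℤ) → (MvPolynomial ι ℂ ⧸ J)ˣ := fun x => ∏ i, t i ^ x i
  have tz_add : ∀ x i, tz (x + Pi.single i 1) = t i * tz x := fun x i => by
    have : (t i) = ∏ j, t j ^ (Pi.single i (1 : ℤ) : ι → ℤ) j := by
      rw [Finset.prod_eq_single i (fun j _ hj => by rw [Pi.single_eq_of_ne hj, zpow_zero])
        fun hi => absurd (Finset.mem_univ i) hi, Pi.single_eq_same, zpow_one]
    simp only [tz, Pi.add_apply, zpow_add, Finset.prod_mul_distrib]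
    rw [← this]
    exact mul_comm (G := (MvPolynomial ι ℂ ⧸ J)ˣ) _ _
  refine ⟨fun x => lb (tz (x - a) : (MvPolynomial ι ℂ ⧸ J)ˣ), fun i => funext fun d => ?_,
    fun x hx => ?_⟩
  · rw [dl_pow_comp lb i N (fun x => ((tz (x - a) : (MvPolynomial ι ℂ ⧸ J)ˣ) :
        MvPolynomial ι ℂ ⧸ J)) d,
      dl_pow_op i N (LinearMap.mulLeft ℂ (t i : MvPolynomial ι ℂ ⧸ J)) _ fun x => by
        rw [add_sub_right_comm, tz_add]; rfl]
    have : (LinearMap.mulLeft ℂ (t i : MvPolynomial ι ℂ ⧸ J) - 1) =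
        LinearMap.mulLeft ℂ ((t i : MvPolynomial ι ℂ ⧸ J) - 1) :=
      LinearMap.ext fun y => by simp [sub_mul]
    rw [this, LinearMap.pow_mulLeft, ht, nil]
    simp
  · let m : ι →₀ ℕ := Finsupp.equivFunOnFinite.symm fun i => (x i - a i).toNat
    have e1 : ((tz (x - a) : (MvPolynomial ι ℂ ⧸ J)ˣ) : MvPolynomial ι ℂ ⧸ J) =
        Ideal.Quotient.mk J (monomial m 1) := by
      rw [monomial_eq, C_1, one_mul, Finsupp.prod_fintype _ _ fun i => pow_zero _, map_prod]
      simp only [tz, Units.coe_prod]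
      refine Finset.prod_congr rfl fun i _ => ?_
      have : (x - a) i = ((m i : ℕ) : ℤ) := by
        have : a i ≤ x i := hx i
        simp only [m, Finsupp.coe_equivFunOnFinite_symm, Pi.sub_apply]
        omega
      rw [this, zpow_natCast, Units.val_pow_eq_pow_val, ht, map_pow]
    change lb _ = _
    rw [e1, lb_mk, lam_mono]
    congr 1
    funext i
    have : a i ≤ x i := hx i
    simp only [m, Finsupp.coe_equivFunOnFinite_symm, Pi.add_apply]
    omega

end Pool.Agent.Bav
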