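import Pool.Agent.P.MP_dd457d_ag.Bav.Ops

/-! Forgetting factors: the extrapolated pull-back along a monomial substitution. -/

set_option autoImplicit false

noncomputable section

namespace Pool.Agent.Bav

open MvPolynomial Filter TensorProduct

variable {σ k ι κ μ : Type} [Field k] {I : Ideal (MvPolynomial σ k)}

theorem GM.sh_sh (M : GM I ι) (n d : ι → ℤ) : (M.sh n).sh d = M.sh (d + n) := by
  simp only [GM.sh, add_assoc]

theorem IsPull.sh {D : PD I ι κ} {M : GM I κ} {N : GM I ι} {j : N.M →ₗ[k] M.M}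
    (h : IsPull D M N j) (e : ι → ℤ) : IsPull D (M.sh (D.val e - D.o)) (N.sh e) j :=
  ⟨h.inj, h.smul, fun d x => (h.π (d + e) x).trans (by rw [D.val_add]; rfl), fun d x => by
    have := h.surj (d + e) x
    rwa [D.val_add] at this⟩

theorem IsBox.sh {M : GM I ι} {N : GM I κ} {P : GM I (ι ⊕ κ)} {j : M.M ⊗[k] N.M ≃ₗ[k] P.M}
    (h : IsBox M N P j) (d : ι → ℤ) (d' : κ → ℤ) :
    IsBox (M.sh d) (N.sh d') (P.sh (Sum.elim d d')) j :=
  ⟨h.smul, fun e t => h.π (e + Sum.elim d d') t⟩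

theorem PD.val_sub_of_not (D : PD I ι κ) (e : ι → ℤ) {l : κ} (h : ∀ i, D.τ i ≠ l) :
    (D.val e - D.o) l = 0 := by rw [Pi.sub_apply, D.val_of_not e h, sub_self]

theorem PD.val_sub_τ (D : PD I ι κ) (e : ι → ℤ) (i : ι) :
    (D.val e - D.o) (D.τ i) = D.q i * e i := by rw [Pi.sub_apply, D.val_τ, add_sub_cancel_left]

theorem PD.val_sub_nonneg (D : PD I ι κ) {e : ι → ℤ} (he : 0 ≤ e) : 0 ≤ D.val e - D.o := by
  intro l
  by_cases h : ∃ i, D.τ i = l
  · obtain ⟨i, rfl⟩ := h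
    rw [D.val_sub_τ]
    exact mul_nonneg (Int.natCast_nonneg _) (he i)
  · push Not at h
    exact (D.val_sub_of_not e h).ge

theorem PD.sum_val_inl {ι' κ' : Type} (D : PD I ι' ι) (D' : PD I κ' κ) (e : ι' ⊕ κ' → ℤ) :
    (D.sum D').val e ∘ Sum.inl = D.val (e ∘ Sum.inl) := by
  funext l
  by_cases h : ∃ i, D.τ i = l
  · obtain ⟨i, rfl⟩ := h
    rw [PD.val_τ]
    exact (D.sum D').val_τ e (Sum.inl i)
  · push Not at h
    rw [D.val_of_not _ h]
    refine (D.sum D').val_of_not e ?_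
    rintro (i | i) hi
    · exact h i (Sum.inl_injective hi)
    · exact Sum.inr_ne_inl hi

theorem PD.sum_val_inr {ι' κ' : Type} (D : PD I ι' ι) (D' : PD I κ' κ) (e : ι' ⊕ κ' → ℤ) :
    (D.sum D').val e ∘ Sum.inr = D'.val (e ∘ Sum.inr) := by
  funext l
  by_cases h : ∃ i, D'.τ i = l
  · obtain ⟨i, rfl⟩ := h
    rw [PD.val_τ]
    exact (D.sum D').val_τ e (Sum.inr i)
  · push Not at h
    rw [D'.val_of_not _ h]
    refine (D.sum D').val_of_not e ?_
    rintro (i | i) hi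
    · exact Sum.inl_ne_inr hi
    · exact h i (Sum.inr_injective hi)

variable [Fintype σ] [Fintype ι] [Fintype κ] [Fintype μ]

theorem shG_unip (n : ι → ℤ) : IsNilpotent (shG n - 1 : Module.End ℂ (G I ι)) := by
  classical
  have hc : ∀ a b : ι → ℤ, Commute (shG a : Module.End ℂ (G I ι)) (shG b) := fun a b => by
    rw [Commute, SemiconjBy, ← shG_add, ← shG_add, add_comm]
  let U : AddSubgroup (ι → ℤ) :=
    { carrier := {n | IsNilpotent (shG n - 1 : Module.End ℂ (G I ι))}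
      zero_mem' := by
        change IsNilpotent _
        rw [shG_zero, sub_self]
        exact IsNilpotent.zero
      add_mem' := fun {a b} ha hb => by
        change IsNilpotent _
        have : (shG (a + b) - 1 : Module.End ℂ (G I ι)) = shG a * (shG b - 1) + (shG a - 1) := by
          rw [shG_add, mul_sub, mul_one, sub_add_sub_cancel]
        rw [this]
        exact Commute.isNilpotent_add
          ((((hc a a).sub_right (Commute.one_right _)).mul_left
            (((hc b a).sub_left (Commute.one_left _)).sub_right (Commute.one_right _))))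
          (((hc a b).sub_right (Commute.one_right _)).isNilpotent_mul_left hb) ha
      neg_mem' := fun {a} ha => by
        change IsNilpotent _
        have : (shG (-a) - 1 : Module.End ℂ (G I ι)) = -(shG (-a) * (shG a - 1)) := by
          rw [mul_sub, mul_one, ← shG_add, neg_add_cancel, shG_zero, neg_sub]
        rw [this]
        exact (((hc (-a) a).sub_right (Commute.one_right _)).isNilpotent_mul_left ha).neg }
  have : n ∈ U := by
    rw [← Finset.univ_sum_single n]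
    refine sum_mem fun i _ => ?_
    have : (Pi.single i (n i) : ι → ℤ) = n i • Pi.single i 1 := by
      rw [← Pi.single_smul, smul_eq_mul, mul_one]
    rw [this]
    exact zsmul_mem (⟨_, shG_nil i⟩ : Pi.single i 1 ∈ U) _
  exact this

omit [Fintype σ] in
theorem isP_of_unip [DecidableEq ι] {V : Type*} [AddCommGroup V] [Module ℂ V]
    {h : (ι → ℤ) → V} (T : ι → Module.End ℂ V) (hT : ∀ i, IsNilpotent (T i - 1))
    (e : ∀ i x, h (x + Pi.single i 1) = T i (h x)) : IsP h := by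
  choose N hN using hT
  refine ⟨∑ i, N i, fun i => dl_pow_mono (N := N i)
    (Finset.single_le_sum (f := N) (fun _ _ => Nat.zero_le _) (Finset.mem_univ i))
    (funext fun d => ?_)⟩
  rw [dl_pow_op i _ (T i) h (e i), hN]
  rfl

theorem isP_val [DecidableEq ι] (D : PD I ι κ) (x : G I κ) :
    IsP fun e => shG (D.val e - D.o) x :=
  isP_of_unip (fun i => shG (D.val (Pi.single i 1) - D.o)) (fun _ => shG_unip _) fun i e => by
    rw [shG_shG, D.val_add]
    congr 2
    abel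

theorem pl_sh (D : PD I ι κ) (M : GM I κ) (e : ι → ℤ) :
    pl D (M.sh (D.val e - D.o)) = shG e (pl D M) := by
  obtain ⟨N, j, h⟩ := exists_isPull D M
  rw [← h.cls_eq, ← (h.sh e).cls_eq, shG_cls]

theorem pl_sum {ι' κ' : Type} [Fintype ι'] [Fintype κ'] (D : PD I ι' ι) (D' : PD I κ' κ)
    {M : GM I ι} {N : GM I κ} {P : GM I (ι ⊕ κ)} {j : M.M ⊗[k] N.M ≃ₗ[k] P.M}
    (h : IsBox M N P j) : pl (D.sum D') P = boxG (pl D M) (pl D' N) := by
  obtain ⟨M', a, ha⟩ := exists_isPull D M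
  obtain ⟨N', b, hb⟩ := exists_isPull D' N
  obtain ⟨P', j', h'⟩ := exists_isBox M' N'
  rw [← ha.cls_eq, ← hb.cls_eq, h'.boxG_cls]
  refine (IsPull.cls_eq (j := box_lin j' j a b) ⟨?_, ?_, fun e => ?_, fun e z => ?_⟩).symm
  · have hinj : Function.Injective (TensorProduct.map a b) := by
      rw [← LinearMap.lTensor_comp_rTensor]
      exact (Module.Flat.lTensor_preserves_injective_linearMap _ hb.inj).comp
        (Module.Flat.rTensor_preserves_injective_linearMap _ ha.inj)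
    exact j.injective.comp (hinj.comp j'.symm.injective)
  · refine box_lin_smul h' h a b D.φ D'.φ (D.sum D').φ ha.smul hb.smul (fun i c => ?_)
      fun i c => ?_
    · rw [PD.φ_X, PD.φ_X, map_mul, map_pow, box_rn_C, rn_X]
      rfl
    · rw [PD.φ_X, PD.φ_X, map_mul, map_pow, box_rn_C, rn_X]
      rfl
  · refine box_lin_π h' h a b e _ (fun x => ?_) fun x => ?_
    · rw [PD.sum_val_inl, ha.π]
    · rw [PD.sum_val_inr, hb.π]
  · refine box_ext j (p := fun z => P.π ((D.sum D').val e) z ∈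
      LinearMap.range (box_lin j' j a b)) (by simp) (fun x y => ?_) (fun x y hx hy => ?_) z
    · rw [box_π_tmul h, PD.sum_val_inl, PD.sum_val_inr]
      obtain ⟨x', hx'⟩ := ha.surj (e ∘ Sum.inl) x
      obtain ⟨y', hy'⟩ := hb.surj (e ∘ Sum.inr) y
      exact ⟨j' (x' ⊗ₜ y'), by rw [box_lin_tmul, hx', hy']⟩
    · simp only [map_add] at hx hy ⊢
      exact add_mem hx hy

omit [Fintype σ] [Fintype ι] [Fintype κ] in
/-- extensionality for bilinear maps -/
theorem G.ext₂ {V : Type*} [AddCommGroup V] [Module ℂ V] {B B' : G I ι →ₗ[ℂ] G I κ →ₗ[ℂ] V}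
    (h : ∀ M N, B (cls M) (cls N) = B' (cls M) (cls N)) : B = B' :=
  G.ext fun M => G.ext fun N => h M N

theorem box_sh (d : ι → ℤ) (d' : κ → ℤ) (x : G I ι) (y : G I κ) :
    shG (Sum.elim d d') (boxG x y) = boxG (shG d x) (shG d' y) := by
  have : (boxG : G I ι →ₗ[ℂ] G I κ →ₗ[ℂ] G I (ι ⊕ κ)).compr₂ (shG (Sum.elim d d')) =
      (boxG : G I ι →ₗ[ℂ] G I κ →ₗ[ℂ] G I (ι ⊕ κ)).compl₁₂ (shG d) (shG d') :=
    G.ext₂ fun M N => by
      obtain ⟨P, j, h⟩ := exists_isBox M N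
      rw [LinearMap.compr₂_apply, LinearMap.compl₁₂_apply, shG_cls, shG_cls, h.boxG_cls,
        (h.sh d d').boxG_cls, shG_cls]
  exact LinearMap.congr_fun₂ this x y

/-- bilinear maps that agree after all large shifts agree -/
theorem G.ext₂_ev {V : Type*} [AddCommGroup V] [Module ℂ V] {B B' : G I ι →ₗ[ℂ] G I κ →ₗ[ℂ] V}
    (h : ∀ M N, ∀ᶠ d : ι ⊕ κ → ℤ in atTop,
      B (shG (d ∘ Sum.inl) (cls M)) (shG (d ∘ Sum.inr) (cls N)) =
        B' (shG (d ∘ Sum.inl) (cls M)) (shG (d ∘ Sum.inr) (cls N))) : B = B' := by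
  refine G.ext₂ fun M N => ?_
  obtain ⟨a, ha⟩ := eventually_atTop.1 (h M N)
  refine eq_of_ev (eventually_atTop.2 ⟨a ∘ Sum.inr, fun d' hd' => ?_⟩)
  refine eq_of_ev (F := B.flip (shG d' (cls N))) (F' := B'.flip (shG d' (cls N)))
    (eventually_atTop.2 ⟨a ∘ Sum.inl, fun d hd => ha (Sum.elim d d') ?_⟩)
  rintro (i | i)
  · exact hd i
  · exact hd' i

omit [Fintype ι] [Fintype κ] in
theorem ev_inl {p : (ι → ℤ) → Prop} (h : ∀ᶠ d in atTop, p d) :
    ∀ᶠ d : ι ⊕ κ → ℤ in atTop, p (d ∘ Sum.inl) := by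
  obtain ⟨a, ha⟩ := eventually_atTop.1 h
  exact eventually_atTop.2 ⟨Sum.elim a 0, fun d hd => ha _ fun i => hd (Sum.inl i)⟩

omit [Fintype ι] [Fintype κ] in
theorem ev_inr {p : (κ → ℤ) → Prop} (h : ∀ᶠ d in atTop, p d) :
    ∀ᶠ d : ι ⊕ κ → ℤ in atTop, p (d ∘ Sum.inr) := by
  obtain ⟨a, ha⟩ := eventually_atTop.1 h
  exact eventually_atTop.2 ⟨Sum.elim 0 a, fun d hd => ha _ fun i => hd (Sum.inr i)⟩

theorem exists_fgD (D : PD I ι κ) : ∃ F : G I κ →ₗ[ℂ] G I ι,
    ∀ M, ∀ᶠ d in atTop, F (shG d (cls M)) = pl D (M.sh d) := by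
  refine exists_ev (fun d M => pl D (M.sh d))
    (fun M N P f g h => Eventually.of_forall fun d =>
      pl_ses D (f := f.sh d) (g := g.sh d) h) (fun M h => ?_)
    fun M n => Eventually.of_forall fun d => by rw [GM.sh_sh]
  obtain ⟨d₀, hd⟩ := h
  refine eventually_atTop.2 ⟨d₀ - D.o, fun d h => ?_⟩
  obtain ⟨N, j, hN⟩ := exists_isPull D (M.sh d)
  rw [← hN.cls_eq]
  refine cls_tors ⟨0, fun e he => LinearMap.ext fun x => hN.inj ?_⟩
  have : d₀ ≤ D.val e + d := fun l => by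
    have h1 : 0 ≤ D.val e l - D.o l := D.val_sub_nonneg he l
    have h2 : d₀ l - D.o l ≤ d l := h l
    change d₀ l ≤ D.val e l + d l
    omega
  rw [hN.π]
  change M.π (D.val e + d) _ = _
  rw [hd _ this]
  exact (map_zero j).symm

/-- the extrapolated pull-back -/
def fgD (D : PD I ι κ) : G I κ →ₗ[ℂ] G I ι := (exists_fgD D).choose

theorem fgD_spec (D : PD I ι κ) (M : GM I κ) :
    ∀ᶠ d in atTop, fgD D (shG d (cls M)) = pl D (M.sh d) := (exists_fgD D).choose_spec M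

theorem fgD_sh (D : PD I ι κ) (e : ι → ℤ) (x : G I κ) :
    fgD D (shG (D.val e - D.o) x) = shG e (fgD D x) := by
  have : (fgD D).comp (shG (D.val e - D.o)) = (shG e).comp (fgD D) := G.ext_ev fun M => by
    filter_upwards [fgD_spec D M, (tendsto_atTop_add_const_left atTop (D.val e - D.o)
      tendsto_id).eventually (fgD_spec D M)] with d h1 h2
    rw [LinearMap.comp_apply, LinearMap.comp_apply, shG_shG, h1, ← pl_sh, GM.sh_sh]
    exact h2
  exact LinearMap.congr_fun this x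

/-- only the forgotten degrees have to be large -/
theorem fgD_spec' (D : PD I ι κ) (M : GM I κ) : ∃ d₀ : κ → ℤ, ∀ d : κ → ℤ,
    (∀ l, (∀ i, D.τ i ≠ l) → d₀ l ≤ d l) → fgD D (shG d (cls M)) = pl D (M.sh d) := by
  obtain ⟨a, ha⟩ := eventually_atTop.1 (fgD_spec D M)
  refine ⟨a, fun d hd => shG_inj (fun i => |a (D.τ i) - d (D.τ i)|) ?_⟩
  rw [← fgD_sh, ← pl_sh, shG_shG, GM.sh_sh]
  refine ha _ fun l => ?_
  rw [Pi.add_apply]
  by_cases h : ∃ i, D.τ i = l
  · obtain ⟨i, rfl⟩ := h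
    have h2 : (1 : ℤ) ≤ D.q i := by exact_mod_cast D.q_pos i
    have h3 := le_abs_self (a (D.τ i) - d (D.τ i))
    have h4 := abs_nonneg (a (D.τ i) - d (D.τ i))
    rw [D.val_sub_τ]
    nlinarith
  · push Not at h
    rw [D.val_sub_of_not _ h, zero_add]
    exact hd l h

theorem fgD_surj {D : PD I ι κ} (hs : Function.Surjective D.τ) : fgD D = pullG D :=
  G.ext_ev fun M => (fgD_spec D M).mono fun d h => by
    obtain ⟨N, j, hN⟩ := exists_isPull D (M.sh d)
    rw [h, shG_cls, hN.pullG_cls hs, hN.cls_eq]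

theorem fgD_comp {D : PD I ι κ} {D' : PD I μ ι} {D'' : PD I μ κ}
    (hφ : ∀ v, D''.φ (X v) = D.φ (D'.φ (X v))) (hv : ∀ e, D''.val e = D.val (D'.val e))
    (x : G I κ) : fgD D' (fgD D x) = fgD D'' x := by
  classical
  have : (fgD D').comp (fgD D) = fgD D'' := G.ext_ev fun M => by
    obtain ⟨a, ha⟩ := eventually_atTop.1 (fgD_spec D'' M)
    filter_upwards [fgD_spec D M, eventually_ge_atTop a] with d h1 h2
    obtain ⟨N, j, hN⟩ := exists_isPull D (M.sh d)
    rw [LinearMap.comp_apply, h1, ← hN.cls_eq]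
    have h3 := ev_of_isP (fgD_spec D' N) ((isP_val D (shG d (cls M))).comp (fgD D'')) ?_ 0
    · rwa [shG_zero_apply, D.pullA_val_zero, sub_self, shG_zero_apply] at h3
    · filter_upwards [eventually_ge_atTop (0 : ι → ℤ)] with e he
      obtain ⟨P, j', hP⟩ := exists_isPull D' (N.sh e)
      rw [shG_shG, ha _ (h2.trans (le_add_of_nonneg_left (D.val_sub_nonneg he))), ← hP.cls_eq,
        ← GM.sh_sh]
      exact (((hN.sh e).comp hP hφ hv).cls_eq).symm
  exact LinearMap.congr_fun this x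

theorem fgD_sum {ι' κ' : Type} [Fintype ι'] [Fintype κ'] (D : PD I ι' ι) (D' : PD I κ' κ)
    (x : G I ι) (y : G I κ) : fgD (D.sum D') (boxG x y) = boxG (fgD D x) (fgD D' y) := by
  have : (boxG : G I ι →ₗ[ℂ] G I κ →ₗ[ℂ] G I (ι ⊕ κ)).compr₂ (fgD (D.sum D')) =
      (boxG : G I ι' →ₗ[ℂ] G I κ' →ₗ[ℂ] G I (ι' ⊕ κ')).compl₁₂ (fgD D) (fgD D') :=
    G.ext₂_ev fun M N => by
      obtain ⟨P, j, h⟩ := exists_isBox M N
      filter_upwards [fgD_spec (D.sum D') P, ev_inl (κ := κ) (fgD_spec D M),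
        ev_inr (ι := ι) (fgD_spec D' N)] with d h1 h2 h3
      rw [LinearMap.compr₂_apply, LinearMap.compl₁₂_apply, h2, h3, ← box_sh, h.boxG_cls,
        ← pl_sum D D' (h.sh _ _), Sum.elim_comp_inl_inr, h1]
  exact LinearMap.congr_fun₂ this x y

end Pool.Agent.Bav
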