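import Pool.Agent.P.MP_dd457d_ag.Bav.FilA

/-! Top coefficients, Frobenius type operators and points. -/

set_option autoImplicit false
set_option linter.unusedSectionVars false

noncomputable section

namespace Pool.Agent.Bav

open MvPolynomial

variable {σ k ι : Type} [Field k] {I : Ideal (MvPolynomial σ k)} [DecidableEq ι] [Finite σ]
  [Fintype ι]

/-- `T` is the shift by `u` -/
def IsSh (u : ι → ℤ) (T : Module.End ℂ (G I ι)) : Prop := ∀ M : GM I ι, T (cls M) = cls (M.sh u)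

theorem IsSh.cy {u : ι → ℤ} {T : Module.End ℂ (G I ι)} (h : IsSh u T) {J : Ideal (S σ k ι)}
    (hJ : GrI J) (hF : IX I ι ≤ J) (n : ι → ℤ) : T (cy I J n) = cy I J (n + u) := by
  obtain ⟨M, x, hx, e⟩ := exists_cy hJ hF n
  rw [e, h, (hx.sh u).cls_eq]

theorem IsSh.low {u : ι → ℤ} {T : Module.End ℂ (G I ι)} (h : IsSh u T) : Low 1 (T - 1) :=
  fun _ _ hx => fil_map (fun P n a _ c => by
    rw [LinearMap.sub_apply, h.cy a.gr a.le]
    exact a.shift c n (n + u)) hx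

theorem IsSh.pow_cy {u : ι → ℤ} {T : Module.End ℂ (G I ι)} (h : IsSh u T) {J : Ideal (S σ k ι)}
    (hJ : GrI J) (hF : IX I ι ≤ J) (n : ι → ℤ) (m : ℕ) :
    (T ^ m) (Bav.cy I J n) = Bav.cy I J (n + m • u) := by
  induction m with
  | zero => simp
  | succ m ih => rw [pow_succ', Module.End.mul_apply, ih, h.cy hJ hF, succ_nsmul, add_assoc]

/-- `χ` is the value at the origin of the Hilbert polynomial -/
def IsChi (χ : G I ι →ₗ[ℂ] ℂ) : Prop :=
  ∀ M : GM I ι, ∀ᶠ n in Filter.atTop, χ (cls (M.sh n)) = hilb M n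

theorem IsChi.lg {χ : G I ι →ₗ[ℂ] ℂ} (h : IsChi χ) {J : Ideal (S σ k ι)} (hJ : GrI J)
    (hF : IX I ι ≤ J) : Tav.Lg fun d => χ (cy I J (nz d)) = (Tav.evN d (pJ J) : ℚ) := by
  obtain ⟨M, x, hx, -⟩ := exists_cy hJ hF 0
  obtain ⟨a, ha⟩ := Filter.eventually_atTop.1 (h M)
  obtain ⟨B, hB⟩ := Finite.exists_le fun i => (a i).toNat
  have h1 : Tav.Lg fun d => a ≤ nz d := ⟨B, fun d hd i =>
    (Int.self_le_toNat _).trans (Int.ofNat_le.2 ((hB i).trans (hd i)))⟩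
  refine (h1.and (Tav.evP_pI (grI_iff.1 hJ))).mono fun d hd => ?_
  have h2 := (hx.sh (nz d)).cls_eq
  rw [zero_add] at h2
  rw [← h2, ha _ hd.1, hd.2, hx.hilb_hI (add_zero _)]
  simp

theorem top_diff {V : Type*} [AddCommGroup V] [Module ℂ V] (T : Module.End ℂ V) (χ : V →ₗ[ℂ] ℂ)
    (j : ℕ) : ∀ (x : V) (p : MvPolynomial Unit ℚ), Tav.Dg p j →
      (Tav.Lg fun d => χ ((T ^ d ()) x) = (Tav.evN d p : ℚ)) →
      Tav.Lg fun d : Unit → ℕ => χ ((T ^ d ()) (((T - 1) ^ j) x)) =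
        (Tav.nc (Finsupp.single () j) p : ℚ) := by
  induction j with
  | zero =>
    intro x p hp h
    refine h.mono fun d hd => ?_
    have h1 : p = C (coeff 0 p) := totalDegree_eq_zero_iff_eq_C.1
      (Nat.le_zero.1 (Tav.dg_iff.1 hp))
    rw [pow_zero, Module.End.one_apply, hd, Finsupp.single_zero, Tav.nc_zero, h1, Tav.evN_C,
      coeff_zero_C]
  | succ j ih =>
    intro x p hp h
    have h1 := ih ((T - 1) x) (Tav.sh (fun _ => ((1 : ℕ) : ℚ)) p - p)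
      ((hp.sh_sub _).mono (by omega)) ((h.and (h.add fun _ => 1)).mono fun d hd => by
        rw [map_sub, Tav.evN_sh, Rat.cast_sub, ← hd.1, ← hd.2, LinearMap.sub_apply, map_sub,
          map_sub, Pi.add_apply, pow_succ]
        rfl)
    refine h1.mono fun d hd => ?_
    rw [pow_succ, Module.End.mul_apply, hd, hp.nc_sh_sub _ (by simp)]
    simp [Finsupp.single_add]

section One
variable {T : Module.End ℂ (G I Unit)} {χ : G I Unit →ₗ[ℂ] ℂ} {J P : Ideal (S σ k Unit)} {j : ℕ}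

/-- the top coefficient of the Hilbert polynomial -/
theorem chi_top (hT : IsSh 1 T) (hχ : IsChi χ) (hJ : GrI J) (hF : IX I Unit ≤ J)
    (hd : DimJ (j + 1) J) :
    χ (((T - 1) ^ j) (cy I J 0)) = (Tav.nc (Finsupp.single () j) (pJ J) : ℚ) := by
  obtain ⟨N, hN⟩ := top_diff T χ j (cy I J 0) (pJ J) (Tav.Dg.mono hd (by omega))
    ((hχ.lg hJ hF).mono fun d hd => by
      rw [hT.pow_cy hJ hF, ← hd]
      congr 2
      funext i
      simp [nz])
  have h1 : ((T - 1) ^ j) (cy I J 0) ∈ Fil I Unit 1 :=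
    hT.low.pow j 1 _ (by rw [mul_one, add_comm]; exact cy_mem_fil hJ hd 0)
  have h2 := (hT.low.unip N).1.apply h1
  rw [LinearMap.sub_apply, sub_eq_zero] at h2
  rw [← hN (fun _ => N) fun _ => le_rfl, h2]
  rfl

theorem chi_top_ne (hT : IsSh 1 T) (hχ : IsChi χ) (h : Pr I P) (hd : DimJ (j + 1) P)
    (hd' : ¬ DimJ j P) (n : Unit → ℤ) : χ (((T - 1) ^ j) (cy I P n)) ≠ 0 := by
  have h1 := hT.low.pow_apply (h.shift hd 0 n)
  rw [map_sub, sub_eq_zero] at h1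
  obtain ⟨s, hs, h2⟩ := Tav.exists_top (n := j) (Tav.Dg.mono hd (by omega)) hd'
  have h3 : s = Finsupp.single () j := by
    ext
    rw [← hs, Finsupp.degree_eq_sum]
    simp
  rw [h1, chi_top hT hχ h.gr h.le hd, ← h3]
  exact_mod_cast h2

/-- operators that behave like the `q`-th power map -/
theorem frob_prime (hT : IsSh 1 T) (hχ : IsChi χ) {Φ : Module.End ℂ (G I Unit)} {q : ℕ}
    (h1 : ∀ x, T (Φ x) = Φ ((T ^ q) x)) (h2 : ∀ x, χ (Φ x) = χ x) (h : Pr I P)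
    (hd : DimJ (j + 1) P) {n : Unit → ℤ} (hs : Φ (cy I P n) ∈ Sup I P) :
    Φ (cy I P n) - (q : ℂ) ^ j • cy I P n ∈ Fil I Unit j := by
  by_cases hj : DimJ j P
  · exact Submodule.sub_mem _ (sup_le_fil h.gr hj hs) (Submodule.smul_mem _ _ (h.mem_fil hj n))
  obtain ⟨c, hc⟩ := h.exists_mul hd n hs
  have h3 : ∀ (i : ℕ) x, ((T - 1) ^ i) (Φ x) = Φ (((T ^ q - 1) ^ i) x) := by
    intro i
    induction i with
    | zero => exact fun _ => rfl
    | succ i ih =>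
      intro x
      rw [pow_succ', pow_succ', Module.End.mul_apply, Module.End.mul_apply, ih,
        LinearMap.sub_apply, LinearMap.sub_apply, h1, map_sub]
      rfl
  have h4 := hT.low.pow_apply hc
  rw [map_sub, sub_eq_zero, h3, (hT.low.unip q).1.pow_eq (hT.low.smul q) (hT.low.unip q).2
    (h.mem_fil hd n), smul_pow, map_smul] at h4
  have h5 := congrArg χ h4
  rw [h2, LinearMap.smul_apply, map_smul, map_smul] at h5
  rw [mul_right_cancel₀ (chi_top_ne hT hχ h hd hj n) h5]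
  exact hc

end One

/-- a property that holds along the multiples of a positive number -/
theorem fil_multiple {V : Type*} [AddCommGroup V] [Module ℂ V] {j : ℕ} (A : ℕ → G I ι →ₗ[ℂ] V)
    (W : Submodule ℂ V) (h : ∀ P n, Pr I P → ¬ Irr P → DimJ j P →
      ∃ e ≠ 0, ∀ t ≠ 0, A (e * t) (cy I P n) ∈ W) {x : G I ι} (hx : x ∈ Fil I ι j) :
    ∃ e ≠ 0, ∀ t ≠ 0, A (e * t) x ∈ W := by
  induction hx using Submodule.span_induction with
  | mem x hx =>
    obtain ⟨P, n, a, b, rfl⟩ := hx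
    by_cases hI : Irr P
    · exact ⟨1, one_ne_zero, fun t _ => by rw [cy_irr hI, map_zero]; exact W.zero_mem⟩
    · exact h P n a hI b
  | zero => exact ⟨1, one_ne_zero, fun t _ => by rw [map_zero]; exact W.zero_mem⟩
  | add x y _ _ hx hy =>
    obtain ⟨e, he, h1⟩ := hx
    obtain ⟨e', he', h2⟩ := hy
    refine ⟨e * e', mul_ne_zero he he', fun t ht => ?_⟩
    rw [map_add]
    refine W.add_mem (mul_assoc e e' t ▸ h1 _ (mul_ne_zero he' ht)) ?_
    rw [mul_comm e e', mul_assoc]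
    exact h2 _ (mul_ne_zero he ht)
  | smul c x _ hx =>
    obtain ⟨e, he, h1⟩ := hx
    exact ⟨e, he, fun t ht => by rw [map_smul]; exact W.smul_mem c (h1 t ht)⟩

section Main
variable {T : Module.End ℂ (G I Unit)} {χ : G I Unit →ₗ[ℂ] ℂ}

/-- the field `frob` from the supports -/
theorem fil_frob (hT : IsSh 1 T) (hχ : IsChi χ) (Φ : ℕ → Module.End ℂ (G I Unit)) (q : ℕ)
    (h1 : ∀ e x, T (Φ e x) = Φ e ((T ^ q ^ e) x)) (h2 : ∀ e x, χ (Φ e x) = χ x)
    (hs : ∀ P, Pr I P → ¬ Irr P → ∃ e ≠ 0, ∀ t n, Φ (e * t) (cy I P n) ∈ Sup I P) (j : ℕ)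
    {x : G I Unit} (hx : x ∈ Fil I Unit (j + 1)) :
    ∃ e ≠ 0, Φ e x - ((q : ℂ) ^ e) ^ j • x ∈ Fil I Unit j := by
  obtain ⟨e, he, h⟩ := fil_multiple (fun e => Φ e - ((q : ℂ) ^ e) ^ j • LinearMap.id)
    (Fil I Unit j) (fun P n a b c => by
      obtain ⟨e, he, h⟩ := hs P a b
      refine ⟨e, he, fun t _ => ?_⟩
      have := frob_prime hT hχ (h1 (e * t)) (h2 (e * t)) a c (h t n)
      rwa [Nat.cast_pow] at this) hx
  have := h 1 one_ne_zero
  rw [mul_one] at this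
  exact ⟨e, he, this⟩

/-- the field `pts` from the supports -/
theorem fil_pts {Q : Ideal (S σ k ι)} (hQ : Pr I Q) (hd : DimJ 1 Q) {χ : G I ι →ₗ[ℂ] ℂ}
    (h0 : χ (cy I Q 0) = 1) (Φ : ℕ → Module.End ℂ (G I ι)) (h2 : ∀ e x, χ (Φ e x) = χ x)
    (hs : ∀ P, Pr I P → ¬ Irr P → DimJ 1 P →
      ∃ e ≠ 0, ∀ t n, Φ (e * t) (cy I P n) ∈ Sup I Q)
    {x : G I ι} (hx : x ∈ Fil I ι 1) : ∃ n ≠ 0, Φ n x = χ x • cy I Q 0 := by
  obtain ⟨e, he, h⟩ := fil_multiple Φ (Sup I Q) (fun P n a b c => by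
    obtain ⟨e, he, h⟩ := hs P a b c
    exact ⟨e, he, fun t _ => h t n⟩) hx
  have h3 := h 1 one_ne_zero
  rw [mul_one] at h3
  obtain ⟨c, hc⟩ := hQ.exists_mul (j := 0) hd 0 h3
  rw [Fil_zero, Submodule.mem_bot, sub_eq_zero] at hc
  refine ⟨e, he, ?_⟩
  rw [← h2 e x, hc, map_smul, h0, smul_eq_mul, mul_one]

end Main

/-- a relevant prime of dimension zero is maximal among the relevant primes -/
theorem Pr.eq_of_dim {P Q : Ideal (S σ k ι)} (h : Pr I P) (hd : DimJ 1 P) (hQ : GrI Q)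
    (hl : P ≤ Q) (hI : ¬ Irr Q) : P = Q := by
  by_contra hne
  exact hI ((dim_drop (j := 0) h.gr h.prime hQ (lt_of_le_of_ne hl hne) hd).irr hQ)

end Pool.Agent.Bav
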