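import Pool.Agent.P.MP_dd457d_ag.Bav.Cyc

/-! Graded modules of functions on a family of points. -/

set_option autoImplicit false

noncomputable section

namespace Pool.Agent.Bav

open MvPolynomial

variable {σ k ι T : Type} [Field k]

/-- graded functions on the family `x` -/
def FA (_x : T → ι × σ → k) : Type := AddMonoidAlgebra (T → k) (ι → ℤ)

variable (x : T → ι × σ → k)

instance : CommRing (FA x) := inferInstanceAs (CommRing (AddMonoidAlgebra (T → k) (ι → ℤ)))
instance : Algebra k (FA x) := inferInstanceAs (Algebra k (AddMonoidAlgebra (T → k) (ι → ℤ)))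

/-- the function `g` in degree `d` -/
def FA.sg (d : ι → ℤ) : (T → k) →ₗ[k] FA x where
  toFun g := AddMonoidAlgebra.single d g
  map_add' := AddMonoidAlgebra.single_add d
  map_smul' a g := (AddMonoidAlgebra.smul_single a d g).symm

/-- the part of degree `d` -/
def FA.co (d : ι → ℤ) : FA x →ₗ[k] (T → k) where
  toFun F := AddMonoidAlgebra.coeff F d
  map_add' _ _ := rfl
  map_smul' _ _ := rfl

/-- a polynomial as a function on the family -/
def evF : S σ k ι →ₐ[k] (T → k) := aeval fun v t => x t v

/-- a polynomial as a graded function -/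
def evA : S σ k ι →ₐ[k] FA x := aeval fun v => FA.sg x (wt v) fun t => x t v

instance : Algebra (S σ k ι) (FA x) := (evA x).toRingHom.toAlgebra

instance : IsScalarTower k (S σ k ι) (FA x) :=
  IsScalarTower.of_algebraMap_eq fun a => ((evA x).commutes a).symm

/-- functions given by forms of degree `d` -/
def pcZ (d : ι → ℤ) : Submodule k (T → k) :=
  (weightedHomogeneousSubmodule k (wt (ι := ι) (σ := σ)) d).map (evF x).toLinearMap

variable {x}

theorem evF_apply (f : S σ k ι) (t : T) : evF x f t = eval (x t) f := by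
  induction f using MvPolynomial.induction_on with
  | C a => simp [evF]
  | add p q hp hq => simp only [map_add, Pi.add_apply, hp, hq]
  | mul_X p s hp => simp only [map_mul, Pi.mul_apply, hp, eval_X]; simp [evF]

theorem FA.smul_def (f : S σ k ι) (F : FA x) : f • F = evA x f * F := rfl

theorem FA.co_sg (d : ι → ℤ) (g : T → k) : FA.co x d (FA.sg x d g) = g :=
  Finsupp.single_eq_same

theorem FA.co_sg_ne {d e : ι → ℤ} (h : d ≠ e) (g : T → k) : FA.co x d (FA.sg x e g) = 0 :=
  Finsupp.single_eq_of_ne h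

theorem FA.sg_mul (d e : ι → ℤ) (g g' : T → k) :
    FA.sg x d g * FA.sg x e g' = FA.sg x (d + e) (g * g') :=
  AddMonoidAlgebra.single_mul_single d e g g'

theorem FA.co_mul (d e : ι → ℤ) (g : T → k) (F : FA x) :
    FA.co x (d + e) (FA.sg x e g * F) = g * FA.co x d F := by
  rw [add_comm]
  exact AddMonoidAlgebra.coeff_single_mul_add F g e d

theorem FA.sum_sg (F : FA x) : ∃ s : Finset (ι → ℤ), ∑ d ∈ s, FA.sg x d (FA.co x d F) = F :=
  ⟨(AddMonoidAlgebra.coeff F).support, AddMonoidAlgebra.sum_coeff_single F⟩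

theorem FA.ext' {F F' : FA x} (h : ∀ d, FA.co x d F = FA.co x d F') : F = F' :=
  AddMonoidAlgebra.coeff_injective (Finsupp.ext h)

theorem evA_hg {f : S σ k ι} {d : ι → ℤ} (hf : Hg f d) : evA x f = FA.sg x d (evF x f) := by
  induction hf using IsWeightedHomogeneous.induction_on with
  | zero => rw [map_zero, map_zero, map_zero]
  | add p q _ _ hp hq => rw [map_add, map_add, map_add, hp, hq]
  | monomial s a hs =>
    subst hs
    have key : ∀ s : ι × σ →₀ ℕ, evA x (monomial s 1) =
        FA.sg x (Finsupp.weight wt s) (evF x (monomial s 1)) := fun s => by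
      induction s using Finsupp.induction_linear with
      | zero => rw [monomial_zero', map_one, map_one, map_one, map_zero]; rfl
      | add s t hs ht =>
        rw [← one_mul (1 : k), ← monomial_mul, map_mul, map_mul, hs, ht, FA.sg_mul, map_add]
      | single v n =>
        rw [← X_pow_eq_monomial, map_pow, map_pow, Finsupp.weight_single, evA, evF, aeval_X,
          aeval_X]
        induction n with
        | zero => rw [pow_zero, pow_zero, zero_smul]; rfl
        | succ n ih => rw [pow_succ, ih, FA.sg_mul, pow_succ, succ_nsmul]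
    rw [← mul_one a, ← smul_eq_mul, ← smul_monomial, map_smul, map_smul, map_smul, key]

theorem pcZ_mul (d e : ι → ℤ) : pcZ x d * pcZ x e ≤ pcZ x (d + e) := by
  refine Submodule.mul_le.2 ?_
  rintro _ ⟨f, hf, rfl⟩ _ ⟨g, hg, rfl⟩
  exact ⟨f * g, IsWeightedHomogeneous.mul hf hg, map_mul (evF x) _ _⟩

theorem evF_mem {f : S σ k ι} {d : ι → ℤ} (hf : Hg f d) : evF x f ∈ pcZ x d := ⟨f, hf, rfl⟩

theorem mul_mem_pc {g u : T → k} {d e : ι → ℤ} {W : Submodule k (T → k)} (hg : g ∈ pcZ x e)
    (hu : u ∈ pcZ x d * W) : g * u ∈ pcZ x (d + e) * W := by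
  have := Submodule.mul_mem_mul hg hu
  rw [← mul_assoc] at this
  rw [add_comm]
  exact mul_le_mul_left (pcZ_mul e d) W this

variable (x) in
/-- graded functions whose parts are forms times members of `W` -/
def FS (W : Submodule k (T → k)) : Submodule (S σ k ι) (FA x) where
  carrier := {F | ∀ d, FA.co x d F ∈ pcZ x d * W}
  add_mem' ha hb d := by rw [map_add]; exact Submodule.add_mem _ (ha d) (hb d)
  zero_mem' d := by rw [map_zero]; exact Submodule.zero_mem _
  smul_mem' f F hF := by
    obtain ⟨s, hs⟩ := polyA_sum wt f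
    intro d
    rw [← hs, Finset.sum_smul, map_sum]
    refine Submodule.sum_mem _ fun e _ => ?_
    have h1 := weightedHomogeneousComponent_isWeightedHomogeneous (w := wt) e f
    rw [FA.smul_def, evA_hg h1, ← sub_add_cancel d e, FA.co_mul]
    exact mul_mem_pc (evF_mem h1) (hF _)

theorem sg_mem_FS {W : Submodule k (T → k)} {d : ι → ℤ} {g : T → k} (h : g ∈ pcZ x d * W) :
    FA.sg x d g ∈ FS x W := fun e => by
  by_cases he : e = d
  · rw [he, FA.co_sg]; exact h
  · rw [FA.co_sg_ne he]; exact Submodule.zero_mem _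

theorem one_mem_pcZ : (1 : T → k) ∈ pcZ x 0 := 
  ⟨1, isWeightedHomogeneous_one k _, map_one (evF x)⟩

theorem FS_eq_span {s : Set (T → k)} :
    FS x (Submodule.span k s) = Submodule.span (S σ k ι) (FA.sg x 0 '' s) := by
  refine le_antisymm (fun F hF => ?_) (Submodule.span_le.2 ?_)
  · obtain ⟨t, ht⟩ := FA.sum_sg F
    rw [← ht]
    refine Submodule.sum_mem _ fun d _ => ?_
    refine Submodule.mul_induction_on (hF d) ?_ fun a b ha hb => ?_
    · rintro _ ⟨f, hf, rfl⟩ w hw
      have e : FA.sg x d ((evF x).toLinearMap f * w) = f • FA.sg x 0 w := by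
        rw [FA.smul_def, evA_hg hf, FA.sg_mul, add_zero]; rfl
      rw [e]
      refine Submodule.smul_mem _ _ ?_
      clear e
      induction hw using Submodule.span_induction with
      | mem y hy => exact Submodule.subset_span ⟨y, hy, rfl⟩
      | zero => rw [map_zero]; exact Submodule.zero_mem _
      | add y z _ _ hy hz => rw [map_add]; exact Submodule.add_mem _ hy hz
      | smul a y _ hy => rw [map_smul]; exact Submodule.smul_of_tower_mem _ _ hy
    · rw [map_add]; exact Submodule.add_mem _ ha hb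
  · rintro _ ⟨w, hw, rfl⟩
    refine sg_mem_FS ?_
    have := Submodule.mul_mem_mul (one_mem_pcZ (x := x)) (Submodule.subset_span (R := k) hw)
    rwa [one_mul] at this

variable {I : Ideal (MvPolynomial σ k)}

theorem evA_eq_zero {f : S σ k ι} (h : ∀ d t, eval (x t) (cmp d f) = 0) : evA x f = 0 := by
  obtain ⟨s, hs⟩ := polyA_sum wt f
  rw [← hs, map_sum]
  refine Finset.sum_eq_zero fun d _ => ?_
  rw [evA_hg (weightedHomogeneousComponent_isWeightedHomogeneous d f),
    show evF x (cmp d f) = 0 from funext fun t => by rw [evF_apply, h]; rfl, map_zero]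

theorem co_evA (f : S σ k ι) (d : ι → ℤ) : FA.co x d (evA x f) = evF x (cmp d f) := by
  classical
  induction f using MvPolynomial.induction_on' with
  | add p q hp hq => rw [map_add, map_add, hp, hq, map_add, map_add]
  | monomial s a =>
    have h := isWeightedHomogeneous_monomial (wt (ι := ι) (σ := σ)) s a rfl
    rw [evA_hg h]
    by_cases e : d = Finsupp.weight wt s
    · rw [e, FA.co_sg, weightedHomogeneousComponent_of_mem h, if_pos rfl]
    · rw [FA.co_sg_ne e, weightedHomogeneousComponent_of_mem h, if_neg e, map_zero]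

/-- the points of the family lie on the power of the scheme -/
def OnX (I : Ideal (MvPolynomial σ k)) (x : T → ι × σ → k) : Prop :=
  ∀ f ∈ IX I ι, ∀ d t, eval (x t) (cmp d f) = 0

theorem onX_of (hI : HomI I) (h : ∀ t i, ∀ f ∈ I, eval (fun a => x t (i, a)) f = 0) : OnX I x := by
  intro f hf d t
  have h1 : IX I ι ≤ RingHom.ker (eval (x t)) := IX_le fun i g hg => by
    rw [RingHom.mem_ker, eval_rename]
    exact h t i g hg
  exact h1 (grI_IX hI d f hf)

/-- the graded module of the functions that are forms times members of `W` -/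
def FM (hx : OnX I x) (W : Submodule k (T → k)) [FiniteDimensional k W] : GM I ι where
  M := FS x W
  tower := ⟨fun a f y => Subtype.ext (smul_assoc a f y.1)⟩
  fg := by
    obtain ⟨s, hs⟩ := (Submodule.fg_iff_finiteDimensional W).2 inferInstance
    rw [Module.Finite.iff_fg, ← hs, FS_eq_span]
    exact Submodule.fg_span (s.finite_toSet.image _)
  π d := (FA.sg x d ∘ₗ FA.co x d).restrict (p := (FS x W).restrictScalars k)
    (q := (FS x W).restrictScalars k) fun _ hF => sg_mem_FS (hF d)
  π_self d F := Subtype.ext (congrArg (FA.sg x d) (FA.co_sg d _))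
  π_ne d e F h := Subtype.ext ((congrArg (FA.sg x d) (FA.co_sg_ne h _)).trans (map_zero _))
  sum_π F := by
    obtain ⟨s, hs⟩ := FA.sum_sg F.1
    exact ⟨s, Subtype.ext (by rw [Submodule.coe_sum]; exact hs)⟩
  π_X v d F := Subtype.ext (by
    change FA.sg x _ (FA.co x _ (evA x (X v) * F.1)) = evA x (X v) * FA.sg x d (FA.co x d F.1)
    rw [evA_hg (hg_X v), FA.co_mul, FA.sg_mul, add_comm])
  kil i f hf F := Subtype.ext (by
    change evA x _ * F.1 = 0
    rw [evA_eq_zero (hx _ (blk_mem i hf)), zero_mul])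

variable {hx : OnX I x} {W W' : Submodule k (T → k)} [FiniteDimensional k W]
  [FiniteDimensional k W']

/-- the underlying graded function -/
def FM.val (F : (FM hx W).M) : FA x := (show FS x W from F).1

theorem FM.val_mem (F : (FM hx W).M) : FM.val F ∈ FS x W := (show FS x W from F).2

theorem FM.ext' {F F' : (FM hx W).M} (h : FM.val F = FM.val F') : F = F' :=
  Subtype.ext (p := (· ∈ FS x W)) h

variable (hx) in
/-- a member of the module -/
def FM.mk (F : FA x) (h : F ∈ FS x W) : (FM hx W).M := (⟨F, h⟩ : FS x W)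

theorem FM.val_mk (F : FA x) (h : F ∈ FS x W) : FM.val (FM.mk hx F h) = F := rfl

theorem FM.val_smul (f : S σ k ι) (F : (FM hx W).M) : FM.val (f • F) = evA x f * FM.val F := rfl

theorem FM_π (d : ι → ℤ) (F : (FM hx W).M) :
    FM.val ((FM hx W).π d F) = FA.sg x d (FA.co x d (FM.val F)) := rfl

variable (hx W) in
theorem hilb_FM (d : ι → ℤ) :
    hilb (FM hx W) d = Module.finrank k (pcZ x d * W : Submodule k (T → k)) := by
  let φ : LinearMap.range ((FM hx W).π d) →ₗ[k] (pcZ x d * W : Submodule k (T → k)) :=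
    { toFun := fun F => ⟨FA.co x d (FM.val F.1), FM.val_mem F.1 d⟩
      map_add' := fun _ _ => rfl
      map_smul' := fun _ _ => rfl }
  refine (LinearEquiv.ofBijective φ ⟨fun F F' h => ?_, fun g => ?_⟩).finrank_eq
  · have h1 := congrArg FM.val ((FM hx W).mem_range_π.1 F.2)
    have h2 := congrArg FM.val ((FM hx W).mem_range_π.1 F'.2)
    rw [FM_π] at h1 h2
    exact Subtype.ext (FM.ext' (h1.symm.trans
      ((congrArg (FA.sg x d) (congrArg Subtype.val h)).trans h2)))
  · exact ⟨⟨FM.mk hx (FA.sg x d g) (sg_mem_FS g.2), (FM hx W).mem_range_π.2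
      (FM.ext' (congrArg (FA.sg x d) (FA.co_sg d _)))⟩, Subtype.ext (FA.co_sg d _)⟩

variable (hx) in
/-- the coordinate ring of the family -/
theorem isCyc_FM {J : Ideal (S σ k ι)} (hJ : GrI J)
    (h : ∀ f d, Hg f d → (f ∈ J ↔ ∀ t, eval (x t) f = 0)) (hW : W = 1) :
    ∃ y, IsCyc J 0 (FM hx W) y := by
  have e : W = Submodule.span k {1} := hW.trans Submodule.one_eq_span
  have e' : FS x W = Submodule.span (S σ k ι) {FA.sg x 0 1} := by
    rw [← Set.image_singleton, ← FS_eq_span, ← e]
  have h1 : FA.sg x 0 1 ∈ FS x W := e' ▸ Submodule.mem_span_singleton_self _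
  refine ⟨FM.mk hx _ h1, FM.ext' ?_, fun y => ?_, fun f => ?_⟩
  · rw [FM_π, neg_zero, FM.val_mk, FA.co_sg]
  · obtain ⟨f, hf⟩ := Submodule.mem_span_singleton.1 (e' ▸ FM.val_mem y)
    exact ⟨f, FM.ext' hf.symm⟩
  · have h2 : f • FM.mk hx _ h1 = 0 ↔ evA x f = 0 :=
      ⟨fun h => (mul_one _).symm.trans (congrArg FM.val h),
        fun h => FM.ext' ((mul_one (evA x f)).trans h)⟩
    rw [h2]
    constructor
    · intro h0
      obtain ⟨s, hs⟩ := polyA_sum wt f
      rw [← hs]
      refine J.sum_mem fun d _ =>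
        (h _ d (weightedHomogeneousComponent_isWeightedHomogeneous d f)).2 fun t => ?_
      rw [← evF_apply, ← co_evA, h0, map_zero]
      rfl
    · exact fun hf => evA_eq_zero fun d =>
        (h _ d (weightedHomogeneousComponent_isWeightedHomogeneous d f)).1 (hJ d f hf)

theorem mul_mem_FS {W W' : Submodule k (T → k)} {e : ι → ℤ} {g : T → k}
    (h : ∀ w ∈ W, g * w ∈ pcZ x e * W') {F : FA x} (hF : F ∈ FS x W) :
    FA.sg x e g * F ∈ FS x W' := fun d => by
  rw [← sub_add_cancel d e, FA.co_mul]
  refine Submodule.mul_induction_on (hF (d - e)) (fun a ha w hw => ?_) fun a b ha hb => ?_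
  · rw [mul_left_comm, add_comm]
    exact mul_mem_pc ha (h w hw)
  · rw [mul_add]; exact Submodule.add_mem _ ha hb

variable (hx) in
/-- multiplication by a function `g` put in degree `e` -/
def FM.mul (e : ι → ℤ) (g : T → k) (h : ∀ w ∈ W, g * w ∈ pcZ x e * W') :
    (FM hx W).M →ₗ[S σ k ι] (FM hx W').M where
  toFun F := FM.mk hx _ (mul_mem_FS h (FM.val_mem F))
  map_add' F F' := FM.ext' (mul_add _ (FM.val F) (FM.val F'))
  map_smul' f F := FM.ext' (mul_left_comm _ (evA x f) (FM.val F))

theorem FM.val_mul (e : ι → ℤ) (g : T → k) (h : ∀ w ∈ W, g * w ∈ pcZ x e * W') (F : (FM hx W).M) :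
    FM.val (FM.mul hx e g h F) = FA.sg x e g * FM.val F := rfl

variable (hx) in
/-- multiplication by a function in degree zero -/
def FM.mulHom (g : T → k) (h : ∀ w ∈ W, g * w ∈ pcZ x 0 * W') : Hom (FM hx W) (FM hx W') :=
  ⟨FM.mul hx 0 g h, fun d F => FM.ext' (by
    rw [FM.val_mul, FM_π, FM_π, FM.val_mul, FA.sg_mul, zero_add]
    conv_rhs => rw [← add_zero d, FA.co_mul, add_zero])⟩

end Pool.Agent.Bav
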