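import Pool.Agent.P.MP_dd457d_ag.Bav.Basic

/-! The complexified Grothendieck group. -/

set_option autoImplicit false

noncomputable section

namespace Pool.Agent.Bav

open MvPolynomial

variable {σ k ι : Type} [Field k] {I : Ideal (MvPolynomial σ k)} {M N P : GM I ι}

/-- the quotient map -/
def grpMk (I : Ideal (MvPolynomial σ k)) (ι : Type) : (GM I ι →₀ ℂ) →ₗ[ℂ] G I ι := (relC I ι).mkQ

theorem grp_cls (M : GM I ι) : cls M = grpMk I ι (Finsupp.single M 1) := rfl

theorem grp_zero {z : GM I ι →₀ ℂ} (h : z ∈ relC I ι) : grpMk I ι z = 0 :=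
  (Submodule.Quotient.mk_eq_zero _).2 h

theorem grp_surj : Function.Surjective (grpMk I ι) := (relC I ι).mkQ_surjective

theorem grp_tors (h : ∀ x : M.M, x = 0) : Tors M := ⟨0, fun _ _ => LinearMap.ext fun _ => h _⟩

theorem cls_ses {f : Hom M N} {g : Hom N P} (h : SES f g) : cls N = cls M + cls P := by
  have := grp_zero (Submodule.subset_span (Or.inl ⟨M, N, P, f, g, h, rfl⟩))
  rw [map_sub, map_sub, ← grp_cls, ← grp_cls, ← grp_cls, sub_sub, sub_eq_zero] at this
  exact this

theorem cls_tors (h : Tors M) : cls M = 0 := by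
  exact grp_zero (Submodule.subset_span (Or.inr ⟨M, h, rfl⟩))

theorem exists_lift {V : Type*} [AddCommGroup V] [Module ℂ V] (l : GM I ι → V)
    (h1 : ∀ (M N P : GM I ι) (f : Hom M N) (g : Hom N P), SES f g → l N = l M + l P)
    (h2 : ∀ M, Tors M → l M = 0) : ∃ F : G I ι →ₗ[ℂ] V, ∀ M, F (cls M) = l M := by
  have hk : relC I ι ≤ LinearMap.ker (Finsupp.linearCombination ℂ l) := by
    refine Submodule.span_le.2 ?_
    rintro _ (⟨M, N, P, f, g, h, rfl⟩ | ⟨M, h, rfl⟩)
    · simp [h1 M N P f g h]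
    · simp [h2 M h]
  refine ⟨(relC I ι).liftQ _ hk, fun M => ?_⟩
  change Finsupp.linearCombination ℂ l (Finsupp.single M 1) = _
  simp

theorem span_cls : Submodule.span ℂ (Set.range (cls : GM I ι → G I ι)) = ⊤ := by
  refine eq_top_iff.2 fun x hx => ?_
  obtain ⟨z, rfl⟩ := grp_surj x
  clear hx
  induction z using Finsupp.induction_linear with
  | zero => rw [map_zero]; exact zero_mem _
  | add a b ha hb => rw [map_add]; exact add_mem ha hb
  | single M c =>
    rw [← Finsupp.smul_single_one, map_smul]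
    exact Submodule.smul_mem _ _ (Submodule.subset_span ⟨M, rfl⟩)

theorem G.ext {V : Type*} [AddCommGroup V] [Module ℂ V] {F F' : G I ι →ₗ[ℂ] V}
    (h : ∀ M, F (cls M) = F' (cls M)) : F = F' := by
  exact LinearMap.ext_on_range span_cls h

theorem G.ind {p : G I ι → Prop} (h1 : ∀ M, p (cls M)) (h0 : p 0)
    (h2 : ∀ x y, p x → p y → p (x + y)) (h3 : ∀ (c : ℂ) x, p x → p (c • x)) (x : G I ι) :
    p x := by
  have hx : x ∈ Submodule.span ℂ (Set.range (cls : GM I ι → G I ι)) := by
    rw [span_cls]; exact Submodule.mem_top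
  induction hx using Submodule.span_induction with
  | mem _ h => obtain ⟨M, rfl⟩ := h; exact h1 M
  | zero => exact h0
  | add x y _ _ a b => exact h2 x y a b
  | smul c x _ a => exact h3 c x a

theorem grp_inj (f : Hom M N) (h : Function.Injective f.f) :
    cls N = cls M + cls (N.quo _ f.gr_range) :=
  cls_ses (f := f) (g := N.quop _ f.gr_range) ⟨h, Submodule.mkQ_surjective _, fun _ =>
    Submodule.Quotient.mk_eq_zero (LinearMap.range f.f)⟩

variable [Finite σ] [Fintype ι]

theorem cls_iso (f : Hom M N) (h : Function.Bijective f.f) : cls M = cls N := by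
  rw [grp_inj f h.1, cls_tors (M := N.quo _ f.gr_range) (grp_tors fun x => ?_), add_zero]
  obtain ⟨y, rfl⟩ := (LinearMap.range f.f).mkQ_surjective x
  exact (Submodule.Quotient.mk_eq_zero _).2 (h.2 y)

theorem cls_irr (h : Irr M.ann) : cls M = 0 := cls_tors ((tors_iff_irr M).2 h)

theorem cls_sub_quo (M : GM I ι) (W : Submodule (S σ k ι) M.M) (h : Gr M W) :
    cls M = cls (M.sub W h) + cls (M.quo W h) := cls_ses (ses_sub_quo M W h)

theorem cls_ker_coker (f : Hom M N) :
    cls M - cls (M.sub _ f.gr_ker) = cls N - cls (N.quo _ f.gr_range) := by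
  let f' : Hom M (N.sub _ f.gr_range) := ⟨f.f.rangeRestrict, fun d x => Subtype.ext (f.π d x)⟩
  have h1 : SES (M.subι _ f.gr_ker) f' :=
    ⟨Subtype.val_injective, f.f.surjective_rangeRestrict, fun y =>
      ⟨fun h => ⟨⟨y, congrArg Subtype.val h⟩, rfl⟩, by
        rintro ⟨x, rfl⟩
        exact Subtype.ext x.2⟩⟩
  rw [cls_ses h1, cls_sub_quo N _ f.gr_range]
  abel

theorem cls_surj (f : Hom M N) (h : Function.Surjective f.f) :
    cls M = cls (M.sub _ f.gr_ker) + cls N := by
  exact cls_ses (f := M.subι _ f.gr_ker) (g := f) ⟨Subtype.val_injective, h, fun y =>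
    ⟨fun h => ⟨⟨y, h⟩, rfl⟩, by
      rintro ⟨x, rfl⟩
      exact x.2⟩⟩

theorem cls_inj (f : Hom M N) (h : Function.Injective f.f) :
    cls N = cls M + cls (N.quo _ f.gr_range) := by
  exact grp_inj f h

/-- maps with torsion kernel and cokernel -/
theorem cls_eq_of_irr (f : Hom M N) {J : Ideal (S σ k ι)} (hJ : Irr J)
    (h1 : ∀ s ∈ J, ∀ x, f.f x = 0 → s • x = 0)
    (h2 : ∀ s ∈ J, ∀ y, s • y ∈ LinearMap.range f.f) : cls M = cls N := by
  have h := cls_ker_coker f
  rwa [cls_irr (M := M.sub _ f.gr_ker) (hJ.mono fun s hs => GM.mem_ann.2 fun x =>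
      Subtype.ext (h1 s hs x.1 x.2)),
    cls_irr (M := N.quo _ f.gr_range) (hJ.mono fun s hs => GM.mem_ann.2 fun x => by
      obtain ⟨y, rfl⟩ := (LinearMap.range f.f).mkQ_surjective x
      exact (Submodule.Quotient.mk_eq_zero _).2 (h2 s hs y)), sub_zero, sub_zero] at h

/-- right exact sequences that are exact modulo torsion -/
theorem cls_rex (f : Hom M N) (g : Hom N P) (hg : Function.Surjective g.f)
    (he : Function.Exact f.f g.f) {J : Ideal (S σ k ι)} (hJ : Irr J)
    (h1 : ∀ s ∈ J, ∀ x, f.f x = 0 → s • x = 0) : cls N = cls M + cls P := by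
  let f' : Hom M (N.sub _ g.gr_ker) :=
    ⟨f.f.codRestrict _ fun x => he.apply_apply_eq_zero x, fun d x => Subtype.ext (f.π d x)⟩
  rw [cls_surj g hg, cls_eq_of_irr f' hJ (fun s hs x hx => h1 s hs x (congrArg Subtype.val hx))
    fun s _ y => ?_]
  obtain ⟨x, hx⟩ := (he (s • y).1).1 (s • y).2
  exact ⟨x, Subtype.ext hx⟩

theorem grp_step {W W' : Submodule (S σ k ι) M.M} (h : Gr M W) (h' : Gr M W') (hle : W ≤ W')
    (φ : Hom M N) (h1 : ∀ x ∈ W', φ.f x = 0 ↔ x ∈ W) (h2 : ∀ y, ∃ x ∈ W', φ.f x = y) :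
    cls (M.sub W' h') = cls (M.sub W h) + cls N := by
  refine cls_ses (f := ⟨Submodule.inclusion hle, fun _ _ => Subtype.ext rfl⟩)
    (g := φ.comp (M.subι W' h')) ⟨Submodule.inclusion_injective hle, fun y => ?_,
      fun y => ⟨fun hy => ⟨⟨y.1, (h1 y.1 y.2).1 hy⟩, rfl⟩, ?_⟩⟩
  · obtain ⟨x, a, b⟩ := h2 y
    exact ⟨⟨x, a⟩, b⟩
  · rintro ⟨x, rfl⟩
    exact (h1 x.1 (hle x.2)).2 x.2

theorem grp_sum {A : Type} [Fintype A] (Q : A → GM I ι) (f : ∀ a, Hom M (Q a))
    (h : Function.Bijective fun x a => (f a).f x) : cls M = ∑ a, cls (Q a) := by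
  classical
  obtain ⟨W, mW⟩ : ∃ W : Finset A → Submodule (S σ k ι) M.M,
      ∀ s x, x ∈ W s ↔ ∀ a ∉ s, (f a).f x = 0 :=
    ⟨fun s => ⨅ a ∉ s, LinearMap.ker (f a).f, fun s x => by
      simp only [Submodule.mem_iInf, LinearMap.mem_ker]⟩
  have gW : ∀ s, Gr M (W s) := fun s d x hx => (mW _ _).2 fun a ha => by
    rw [(f a).π, (mW _ _).1 hx a ha, map_zero]
  have key : ∀ s, cls (M.sub _ (gW s)) = ∑ a ∈ s, cls (Q a) := by
    intro s
    induction s using Finset.induction_on with
    | empty =>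
      refine cls_tors (grp_tors fun x => Subtype.ext (h.1 (funext fun a => ?_)))
      exact ((mW _ _).1 x.2 a (Finset.notMem_empty a)).trans (map_zero (f a).f).symm
    | insert a s ha ih =>
      have hle : W s ≤ W (insert a s) := fun x hx => (mW _ _).2 fun b hb =>
        (mW _ _).1 hx b fun h => hb (Finset.mem_insert_of_mem h)
      rw [grp_step (gW s) (gW (insert a s)) hle (f a) (fun x hx => ⟨fun hy => ?_, fun hy =>
        (mW _ _).1 hy a ha⟩) fun y => ?_, ih, Finset.sum_insert ha, add_comm]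
      · refine (mW _ _).2 fun b hb => ?_
        by_cases e : b = a
        · rw [e]
          exact hy
        · exact (mW _ _).1 hx b fun h => (Finset.mem_insert.1 h).elim e hb
      · obtain ⟨x, hx⟩ := h.2 (Pi.single a y)
        have hx' : ∀ b, (f b).f x = Pi.single (M := fun b => (Q b).M) a y b := congrFun hx
        refine ⟨x, (mW _ _).2 fun b hb => ?_, by rw [hx', Pi.single_eq_same]⟩
        rw [hx', Pi.single_eq_of_ne fun e => hb (Finset.mem_insert.2 (Or.inl e))]
  rw [← key]
  exact (cls_iso (M.subι _ (gW Finset.univ)) ⟨Subtype.val_injective, fun x =>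
    ⟨⟨x, (mW _ _).2 fun a ha => absurd (Finset.mem_univ a) ha⟩, rfl⟩⟩).symm

theorem cls_pw (A : Type) [Fintype A] (M : GM I ι) :
    cls (M.pw A) = (Fintype.card A : ℂ) • cls M := by
  rw [grp_sum (M := M.pw A) (fun _ : A => M) (fun a => ⟨LinearMap.proj a, fun _ _ => rfl⟩)
    Function.bijective_id, Finset.sum_const, Finset.card_univ, Nat.cast_smul_eq_nsmul]

/-- direct sums -/
theorem cls_sum {A : Type} [Fintype A] (Q : A → GM I ι) (f : ∀ a, Hom M (Q a))
    (h : Function.Bijective fun x a => (f a).f x) : cls M = ∑ a, cls (Q a) := by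
  exact grp_sum Q f h

omit [Finite σ] [Fintype ι] in
/-- an integral class that dies in the complexification is torsion -/
theorem torsion_of_cls (x : FreeAbelianGroup (GM I ι))
    (h : FreeAbelianGroup.lift (cls : GM I ι → G I ι) x = 0) :
    ∃ c : ℕ, 0 < c ∧ c • x ∈ rels I ι := by
  by_contra hc
  let q := QuotientAddGroup.mk' (rels I ι)
  have hi : Function.Injective (zmultiplesHom _ (q x)) := by
    refine (injective_iff_map_eq_zero _).2 fun n hn => ?_
    by_contra h0
    refine hc ⟨n.natAbs, Int.natAbs_pos.2 h0, ?_⟩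
    have h1 : n • x ∈ rels I ι := by
      refine (QuotientAddGroup.eq_zero_iff _).1 ?_
      change q (n • x) = 0
      rw [map_zsmul]
      exact hn
    rw [← natCast_zsmul, Int.natCast_natAbs]
    rcases abs_choice n with e | e
    · rwa [e]
    · rw [e, neg_smul]
      exact neg_mem h1
  obtain ⟨φ, hφ⟩ := (Module.Baer.of_divisible ℂ).extension_property_addMonoidHom _ hi
    (Int.castAddHom ℂ)
  have z : ∀ y ∈ rels I ι, φ (q y) = 0 := fun y hy => by
    rw [show q y = 0 from (QuotientAddGroup.eq_zero_iff _).2 hy, map_zero]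
  obtain ⟨F, hF⟩ := exists_lift (fun M : GM I ι => φ (q (FreeAbelianGroup.of M)))
    (fun M N P f g hs => by
      have := z _ (AddSubgroup.subset_closure (Or.inl ⟨M, N, P, f, g, hs, rfl⟩))
      rwa [map_sub, map_sub, map_sub, map_sub, sub_sub, sub_eq_zero] at this)
    fun M hM => z _ (AddSubgroup.subset_closure (Or.inr ⟨M, hM, rfl⟩))
  have e : F.toAddMonoidHom.comp (FreeAbelianGroup.lift cls) = φ.comp q :=
    FreeAbelianGroup.lift_ext _ _ fun M => by simpa using hF M
  have e1 : F (FreeAbelianGroup.lift cls x) = φ (q x) := DFunLike.congr_fun e x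
  have e2 := DFunLike.congr_fun hφ 1
  rw [h, map_zero] at e1
  simp only [AddMonoidHom.comp_apply, zmultiplesHom_apply, one_smul, Int.coe_castAddHom,
    Int.cast_one] at e2
  exact zero_ne_one (e1.trans e2)

end Pool.Agent.Bav
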