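import Pool.Agent.P.MP_dd457d_ag.Bav.KRow
import Pool.Agent.P.MP_dd457d_ag.Bav.FilK

/-! The calculus of the Grothendieck groups of the powers of an abelian variety. -/

set_option autoImplicit false

noncomputable section

namespace Pool.Agent.Bav.PMod

open Matrix

variable {Ω : Type} [Field Ω] [IsAlgClosed Ω] {A τ σ Λ ι κ μ : Type} [AddCommGroup A] [CommRing Λ]
  {g q : ℕ} {π : Λ} (P : PMod Ω A τ σ Λ g q π) [Fintype τ] [Fintype σ] [Fintype ι] [Fintype κ]
  [Fintype μ]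

omit [IsAlgClosed Ω] [Fintype σ] in
theorem push_eq {φ : Matrix κ ι Λ} {f : (ι → A) → κ → A} (h : ∀ t, P.mat φ t = f t) :
    P.push φ = P.geo.pushM f := congrArg P.geo.pushM (funext h)

omit [IsAlgClosed Ω] in
theorem tw_eq {u : ι → Λ} {f : (ι → A) → A} (h : ∀ t, P.row u t = f t) :
    P.tw u = P.geo.twF fun t => P.h (f t) :=
  congrArg P.geo.twF (funext fun t => congrArg P.h (h t))

theorem unip_tw (u : ι → Λ) : Unip (P.tw u) := (P.regF_row u).unip

theorem l_push (v : κ → Λ) (φ : Matrix κ ι Λ) (x : G (Tav.idl P.p) ι) :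
    P.l v (P.push φ x) = P.push φ (P.l (v ᵥ* φ) x) := by
  refine lg_inter (P.unip_tw _) (P.unip_tw _) (fun y => ?_) x
  rw [P.tw_eq (P.row_vecMul v φ)]
  exact P.geo.twF_pushM (P.regF_row v) (P.regM_mat φ) y

theorem l_par (u v : ι → Λ) :
    P.l (u + v) + P.l (u - v) = (2 : ℂ) • P.l u + (2 : ℂ) • P.l v := by
  obtain ⟨c, hc, h⟩ := P.law_row u v
  exact P.geo.twF_par (P.regF_row u) (P.regF_row v) (P.regF_row _) (P.regF_row _) hc h

theorem l_box_left (u : ι → Λ) (x : G (Tav.idl P.p) ι) (y : G (Tav.idl P.p) κ) :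
    P.l (Sum.elim u 0) (boxG x y) = boxG (P.l u x) y := by
  refine lg_inter (ψ := boxG.flip y) (P.unip_tw _) (P.unip_tw _) (fun z => ?_) x
  rw [P.tw_eq (f := fun t => P.row u (t ∘ Sum.inl)) fun t => by
    rw [row_elim, row_zero, add_zero]]
  exact P.geo.twF_box_left (P.regF_row u) z y

theorem l_box_right (v : κ → Λ) (x : G (Tav.idl P.p) ι) (y : G (Tav.idl P.p) κ) :
    P.l (Sum.elim 0 v) (boxG x y) = boxG x (P.l v y) := by
  refine lg_inter (ψ := boxG x) (P.unip_tw _) (P.unip_tw _) (fun z => ?_) y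
  rw [P.tw_eq (f := fun t => P.row v (t ∘ Sum.inr)) fun t => by
    rw [row_elim, row_zero, zero_add]]
  exact P.geo.twF_box_right (P.regF_row v) x z

omit [Fintype σ] in
theorem shear [DecidableEq ι] (u : ι → Λ) (x : G (Tav.idl P.p) ι) :
    P.push (fromBlocks 1 0 (Matrix.of fun _ => u) 1) (boxG x P.one) = boxG x P.one := by
  refine P.geo.pushM_shear (P.regM_mat _)
    (P.regM_mat (fromBlocks 1 0 (-Matrix.of fun _ => u) 1)) (fun t => ?_) (fun t => ?_)
    (fun t i => ?_) x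
  · rw [← mat_mul, fromBlocks_multiply]
    simp [mat_one]
  · rw [← mat_mul, fromBlocks_multiply]
    simp [mat_one]
  · simp [mat_fromBlocks, mat_one, mat_zero]

omit [Fintype σ] in
theorem pts {x : G (Tav.idl P.p) Unit} (hx : x ∈ Fil (Tav.idl P.p) Unit 1) :
    ∃ n : ℕ, n ≠ 0 ∧ P.push (sc1 (n : Λ)) x = chi x • P.pt := by
  refine P.geo.fil_pts (fun n => P.mat (sc1 (n : Λ))) (fun _ => P.regM_mat _) 0 (fun y => ?_) hx
  obtain ⟨n, hn, h⟩ := P.tors (y ())
  refine ⟨n, hn, fun t => ?_⟩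
  rw [mat_sc1, map_natCast]
  funext _
  change (n * t) • y () = 0
  rw [mul_nsmul, h, nsmul_zero]

omit [IsAlgClosed Ω] [Fintype τ] [Fintype σ] in
theorem act_pow (a : Λ) (e : ℕ) (y : A) : P.act (a ^ e) y = (P.act a)^[e] y := by
  rw [map_pow]
  exact congrFun (AddMonoid.End.coe_pow _ _ _) y

variable (k : Type) [Field k] [Fintype k] [Algebra k Ω] [Algebra.IsAlgebraic k Ω]
  (Q : PMod Ω A τ σ Λ g (Fintype.card k) π) {N : Λ → ℂ}

/-- the calculus -/
def cal (hd : chi ((Q.l (1 : Unit → Λ) ^ g) Q.one) ≠ 0)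
    (hN : ∀ a, chi ((Q.l (fun _ : Unit => a) ^ g) Q.one) =
      N a * chi ((Q.l (1 : Unit → Λ) ^ g) Q.one)) : Calc Λ g (Fintype.card k) π N where
  G := G (Tav.idl Q.p)
  push := Q.push
  l := Q.l
  box := boxG
  chi := chi
  one := Q.one
  pt := Q.pt
  F := Fil (Tav.idl Q.p) Unit
  push_mul ψ φ x := by
    rw [Q.push_eq (Q.mat_mul ψ φ)]
    exact Q.geo.pushM_comp (Q.regM_mat φ) (Q.regM_mat ψ) x
  push_one x := by
    rw [Q.push_eq Q.mat_one]
    exact Q.geo.pushM_id x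
  l_push := Q.l_push
  l_comm u v x := LinearMap.congr_fun (lg_comm (Q.unip_tw u) (Q.unip_tw v)
    (Q.geo.twF_comm (Q.regF_row u) (Q.regF_row v))) x
  par := Q.l_par
  l_box_left := Q.l_box_left
  l_box_right := Q.l_box_right
  push_box φ ψ x y := by
    rw [Q.push_eq (f := fun t => Sum.elim (Q.mat φ (t ∘ Sum.inl)) (Q.mat ψ (t ∘ Sum.inr)))
      fun t => by rw [mat_fromBlocks, mat_zero, mat_zero, add_zero, zero_add]]
    exact Q.geo.pushM_box (Q.regM_mat φ) (Q.regM_mat ψ) x y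
  shear := Q.shear
  box_pt x := by
    rw [Q.push_eq (f := fun t => Sum.elim t 0) fun t => by rw [mat_fromRows, mat_one, mat_zero]]
    exact Q.geo.box_point x 0
  push_snd x y := by
    rw [Q.push_eq (Q.mat_rm _)]
    exact Q.geo.pushM_snd x y
  chi_push φ := Q.geo.chi_pushM (Q.regM_mat φ)
  swap x y := by
    rw [Q.push_eq (Q.mat_rm _)]
    exact Q.geo.pushM_swap x y
  assoc x y z := by
    rw [Q.push_eq (Q.mat_rm _)]
    exact Q.geo.pushM_assoc x y z
  F_zero := Fil_zero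
  F_top := Q.geo.fil_top Q.av
  l_F j u := (Q.regF_row u).low_lg j
  rank := Q.geo.fil_rank Q.av
  deg := hN
  pts _ := Q.pts
  frob j _ hx := Q.geo.fil_frob k (fun e => Q.mat (sc1 (π ^ e))) (fun _ => Q.regM_mat _)
    (fun e y => by rw [mat_sc1, act_pow]; exact par_iter Q.frob e (y ())) j hx
  del := hd

end Pool.Agent.Bav.PMod
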