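import Pool.Agent.P.MP_dd457d_ag.Bav.LinkC
import Pool.Agent.P.MP_dd457d_ag.Bav.FgtB
import Pool.Agent.P.MP_dd457d_ag.Bav.Log

/-! From the nondegeneracy of a twisted pairing to numerically trivial classes. -/

set_option autoImplicit false

noncomputable section

namespace Pool.Agent.Bav

open MvPolynomial TensorProduct Filter

theorem lk_antidif (p : Polynomial ℚ) :
    ∃ P : Polynomial ℚ, ∀ x : ℚ, P.eval (x + 1) - P.eval x = p.eval x := by
  induction p using Polynomial.induction_on' with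
  | add p q hp hq =>
    obtain ⟨P, hP⟩ := hp
    obtain ⟨Q, hQ⟩ := hq
    refine ⟨P + Q, fun x => ?_⟩
    simp only [Polynomial.eval_add]
    linear_combination hP x + hQ x
  | monomial n a =>
    refine ⟨Polynomial.C (a / ((n + 1 : ℕ) : ℚ)) * Polynomial.bernoulli (n + 1), fun x => ?_⟩
    have h := Polynomial.bernoulli_eval_one_add (n + 1) x
    have hn : ((n + 1 : ℕ) : ℚ) ≠ 0 := by positivity
    simp only [Polynomial.eval_mul, Polynomial.eval_C, Polynomial.eval_monomial]
    rw [add_comm x 1, h, Nat.add_sub_cancel]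
    field_simp
    ring

theorem lk_hp_eq {f : ℤ → ℚ} {p : Polynomial ℚ}
    (h : ∀ᶠ t : ℤ in atTop, f t = p.eval (t : ℚ)) : CXD.hp f = p := by
  have h1 : ∀ᶠ t : ℤ in atTop, f t = (CXD.hp f).eval (t : ℚ) :=
    Classical.epsilon_spec (p := fun p : Polynomial ℚ => ∀ᶠ t : ℤ in atTop, f t = p.eval (t : ℚ))
      ⟨p, h⟩
  obtain ⟨N, hN⟩ := eventually_atTop.1 (h.and h1)
  apply Polynomial.eq_of_infinite_eval_eq
  refine ((Set.Ici_infinite N).image (f := fun t : ℤ => (t : ℚ))
    (Int.cast_injective.injOn)).mono ?_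
  rintro _ ⟨t, ht, rfl⟩
  exact (hN t ht).2.symm.trans (hN t ht).1

variable {σ k ι κ : Type} [Field k] {I : Ideal (MvPolynomial σ k)}

theorem sg_apply [DecidableEq ι] (i : ι) (c : ℤ) : sg i c = Pi.single i c := by
  funext l
  by_cases h : l = i <;> simp [sg, h]

theorem lk_poly [DecidableEq ι] (i : ι) (o : ι → ℤ) (N : ℕ) : ∀ g : (ι → ℤ) → ℂ,
    (dl i ^ N) g = 0 → (∀ᶠ t : ℤ in atTop, ∃ r : ℚ, g (o + sg i t) = r) →
    ∃ p : Polynomial ℚ, ∀ t : ℤ, g (o + sg i t) = (p.eval (t : ℚ) : ℚ) := by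
  induction N with
  | zero =>
    intro g h _
    exact ⟨0, fun t => by simpa using congrFun h _⟩
  | succ N ih =>
    intro g h he
    have e : ∀ t : ℤ, dl i g (o + sg i t) = g (o + sg i (t + 1)) - g (o + sg i t) := fun t => by
      rw [dl_apply, map_add, sg_apply i 1, add_assoc]
    obtain ⟨a, ha⟩ := eventually_atTop.1 he
    obtain ⟨p, hp⟩ := ih (dl i g) (by rwa [pow_succ] at h) (eventually_atTop.2 ⟨a, fun t ht => by
      obtain ⟨r, hr⟩ := ha t ht
      obtain ⟨r', hr'⟩ := ha (t + 1) (by omega)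
      exact ⟨r' - r, by rw [e, hr, hr', Rat.cast_sub]⟩⟩)
    obtain ⟨P, hP⟩ := lk_antidif p
    have step : ∀ t : ℤ, g (o + sg i (t + 1)) - (P.eval ((t + 1 : ℤ) : ℚ) : ℚ) =
        g (o + sg i t) - (P.eval (t : ℚ) : ℚ) := fun t => by
      have h1 := hp t
      rw [e, ← hP, Rat.cast_sub] at h1
      rw [Int.cast_add, Int.cast_one]
      linear_combination h1
    have const : ∀ t : ℤ, g (o + sg i t) - (P.eval (t : ℚ) : ℚ) =
        g (o + sg i 0) - (P.eval ((0 : ℤ) : ℚ) : ℚ) := fun t => by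
      induction t using Int.induction_on with
      | zero => rfl
      | succ t ih => rw [step, ih]
      | pred t ih => rw [← step, sub_add_cancel, ih]
    obtain ⟨r, hr⟩ := ha a le_rfl
    refine ⟨P + Polynomial.C (r - P.eval (a : ℚ)), fun t => ?_⟩
    have h1 := (const t).trans (const a).symm
    rw [Polynomial.eval_add, Polynomial.eval_C, Rat.cast_add, Rat.cast_sub, ← hr]
    linear_combination h1

variable [Fintype σ] [Fintype ι] [Fintype κ]

/-- the pairing with a slice is a value of the Hilbert polynomial of the tensor product -/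
theorem pair_slice (T : GM I ι) (i : ι) : ∃ N : (ι → ℤ) → GM I Unit,
    ∀ (V : CXD.GM (CXD.hom I)) (hV : Module.Finite (MvPolynomial σ k ⧸ I) V.M),
      ∀ᶠ o in atTop, chi (shG o (cls (tn T i V hV))) = (CXD.pair k (backG (N o)) V : ℚ) := by
  classical
  have hu : Function.Injective fun _ : Unit => i := fun _ _ _ => rfl
  choose N j h using fun o => exists_isPull (reD I _ hu o) T
  refine ⟨N, fun V hV => ?_⟩
  obtain ⟨a, ha⟩ := eventually_atTop.1 (chi_spec (tn T i V hV))
  refine eventually_atTop.2 ⟨a, fun o ho => ?_⟩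
  have hv : ∀ c : ℤ, (reD I _ hu o).val (fun _ => c) = o + sg i c := fun c => by
    funext l
    rw [sg_apply]
    by_cases hl : l = i
    · subst hl
      rw [Pi.add_apply, Pi.single_eq_same]
      exact reD_val_τ _ hu o (fun _ => c) ()
    · rw [Pi.add_apply, Pi.single_eq_of_ne hl, add_zero]
      exact reD_val_of_not _ hu o _ fun _ => Ne.symm hl
  have hd := tn_hilb (T := T) (i := i) (hV := hV) (j o) o (h o).inj
    (fun f x => by rw [(h o).smul, reD_φ, rn_blk]) (fun c x => by rw [(h o).π, hv])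
    fun c x => by rw [← hv]; exact (h o).surj _ x
  have he : ∀ᶠ t : ℤ in atTop, chi (shG (o + sg i t) (cls (tn T i V hV))) =
      ((CXD.dimK k (MvPolynomial σ k ⧸ I) (CXD.tpc (backG (N o)) V t) : ℚ) : ℂ) :=
    eventually_atTop.2 ⟨0, fun t ht => by
      rw [ha _ (ho.trans (le_add_of_nonneg_right (by
        rw [sg_apply]; exact Pi.single_nonneg.2 ht))), hd, Rat.cast_natCast]⟩
  obtain ⟨n, hn⟩ := (isP_shG (cls (tn T i V hV))).comp chi
  obtain ⟨p, hp⟩ := lk_poly i o n _ (hn i) (he.mono fun t ht => ⟨_, ht⟩)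
  have h0 := hp 0
  rw [map_zero, add_zero, Int.cast_zero] at h0
  rw [h0, CXD.pair, lk_hp_eq (p := p) (he.mono fun t ht => Rat.cast_injective (α := ℂ)
    (ht.symm.trans (hp t)))]

/-- the tensor product with a combination of modules -/
def tnG (T : GM I ι) (i : ι) : FreeAbelianGroup (CXD.FGM (CXD.hom I)) →+ G I ι :=
  FreeAbelianGroup.lift fun V => cls (tn T i V.1 V.2)

theorem chi_tnG {x : FreeAbelianGroup (CXD.FGM (CXD.hom I))}
    (hx : ∀ N : CXD.FGM (CXD.hom I), FreeAbelianGroup.lift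
      (fun V : CXD.FGM (CXD.hom I) => CXD.pair k N.1 V.1) x = 0) (T : GM I ι) (i : ι) :
    chi (tnG T i x) = 0 := by
  obtain ⟨N, hN⟩ := pair_slice T i
  have key : ∀ y, ∀ᶠ o in atTop, chi (shG o (tnG T i y)) = ((FreeAbelianGroup.lift
      (fun V : CXD.FGM (CXD.hom I) => CXD.pair k (back (N o)).1 V.1) y : ℚ) : ℂ) := fun y => by
    induction y using FreeAbelianGroup.induction_on with
    | zero => simp
    | of V =>
      simp only [tnG, FreeAbelianGroup.lift_apply_of]
      exact hN V.1 V.2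
    | neg V h => exact h.mono fun o ho => by simp only [map_neg, ho, Rat.cast_neg]
    | add a b ha hb =>
      exact (ha.and hb).mono fun o ho => by simp only [map_add, ho.1, ho.2, Rat.cast_add]
  exact eq_of_ev (F' := 0) ((key x).mono fun o ho => by rw [ho, hx]; simp)

theorem link_of (hI : HomI I) {A : Type} [Fintype A] (D : TD I (Unit ⊕ κ) A)
    {E : Module.End ℂ (G I (Unit ⊕ κ))} (hE : E ∈ Algebra.adjoin ℂ {D.L})
    (nd : ∀ x : G I Unit, (∀ y : G I κ, chi (E (boxG x y)) = 0) → x = 0) :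
    CXD.NumTors k (CXD.hom I) (CXD.crd I) := by
  intro x _ hx
  refine tors_of_toG (nd _ fun y => ?_)
  let W := Submodule.span ℂ (Set.range fun T : GM I (Unit ⊕ κ) => tnG T (Sum.inl ()) x)
  have h1 : W ≤ LinearMap.ker chi := Submodule.span_le.2 (by
    rintro _ ⟨T, rfl⟩
    exact chi_tnG hx T _)
  have h2 : W ≤ W.comap D.L := Submodule.span_le.2 (by
    rintro _ ⟨T, rfl⟩
    obtain ⟨T', -, ⟨t⟩⟩ := D.exists_tw T
    have e : D.L.toAddMonoidHom.comp (tnG T (Sum.inl ())) = tnG T' (Sum.inl ()) :=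
      FreeAbelianGroup.lift_ext _ _ fun V => by
        obtain ⟨t'⟩ := t.tn (i := Sum.inl ()) (hV := V.2)
        simpa [tnG] using D.L_cls t'
    exact Submodule.subset_span ⟨T', (DFunLike.congr_fun e x).symm⟩)
  have h3 : ∀ w ∈ W, E w ∈ W := by
    clear nd
    induction hE using Algebra.adjoin_induction with
    | mem _ h => exact Set.mem_singleton_iff.1 h ▸ h2
    | algebraMap c => exact fun w hw => W.smul_mem c hw
    | add a b _ _ ha hb => exact fun w hw => W.add_mem (ha w hw) (hb w hw)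
    | mul a b _ _ ha hb => exact fun w hw => ha _ (hb w hw)
  refine h1 (h3 _ ?_)
  induction y using G.ind with
  | h0 => rw [map_zero]; exact W.zero_mem
  | h2 a b ha hb => rw [map_add]; exact W.add_mem ha hb
  | h3 c a ha => rw [map_smul]; exact W.smul_mem c ha
  | h1 Y =>
    obtain ⟨R, x₀, hR⟩ := exists_cyc (I := I) (grI_IX (ι := Unit) hI) le_rfl 0
    obtain ⟨P₀, j₀, h₀⟩ := exists_isBox R Y
    have e : (boxG.flip (cls Y)).toAddMonoidHom.comp toG = tnG P₀ (Sum.inl ()) :=
      FreeAbelianGroup.lift_ext _ _ fun V => by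
        obtain ⟨P, j, h⟩ := exists_isBox (toB V.1 V.2) Y
        simpa [tnG, toG_of] using h.boxG_cls.trans (tn_box hR h₀ h)
    exact Submodule.subset_span ⟨P₀, (DFunLike.congr_fun e x).symm⟩

/-- nondegeneracy of the twisted pairing gives the conclusion -/
theorem link (hI : HomI I) {A : Type} [Fintype A] (D : TD I (Unit ⊕ κ) A) (g : ℕ)
    (nd : ∀ x : G I Unit, (∀ y : G I κ, chi ((lg D.L ^ g) (boxG x y)) = 0) → x = 0) :
    CXD.NumTors k (CXD.hom I) (CXD.crd I) := by
  refine link_of hI D (pow_mem ?_ g) nd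
  obtain ⟨p, hp⟩ := Unip.lg_poly (t := D.L) D.isNilpotent_L
  have h : D.L - 1 ∈ Algebra.adjoin ℂ {D.L} :=
    sub_mem (Algebra.self_mem_adjoin_singleton ℂ _) (one_mem _)
  rw [hp]
  exact add_mem h (mul_mem (pow_mem h 2) (Algebra.adjoin_le (Set.singleton_subset_iff.2 h)
    (Polynomial.aeval_mem_adjoin_singleton ℂ _)))

end Pool.Agent.Bav
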