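import Pool.Agent.P.MP_dd457d_ag.Bav.KCalc
import Pool.Agent.P.MP_dd457d_ag.Bav.KNum
import Pool.Agent.P.MP_dd457d_ag.Bav.Link

/-! The package of the Grothendieck groups. -/

set_option autoImplicit false

noncomputable section

namespace Pool.Agent.Bav

theorem p_Pkg : S_Pkg := by
  intro k _ _ A τ σ Λ _ _ _ _ g π P N h1 hN
  have e1 : chi ((P.l (1 : Unit → Λ) ^ g) P.one) = (g.factorial : ℂ) * P.num1 1 := P.k_num1 1
  refine ⟨P.cal k (N := N) ?_ fun a => ?_, fun Z W => ?_, fun nd => ?_⟩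
  · rw [e1]
    exact mul_ne_zero (Nat.cast_ne_zero.2 g.factorial_ne_zero) (Rat.cast_ne_zero.2 h1)
  · rw [e1, P.k_num1, hN, mul_left_comm]
  · refine ⟨P.geo.cT {t | t () ∈ Z} 0, P.geo.cT {t | t () ∈ W} 0, fun a b => ?_⟩
    rw [← P.k_num2, ← Sum.elim_zero_zero]
    exact congrArg (fun z => chi ((P.l _ ^ g) z)) (P.geo.box_cT _ _ 0 0)
  · obtain ⟨D, hD⟩ :=
      (P.regF_row (Sum.elim (fun _ : Unit => 1) fun _ : Unit => -1)).exists_td
    refine link P.geo.hom D g fun x hx => nd x fun y => ?_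
    rw [← hD.twF_eq] at hx
    exact hx y

end Pool.Agent.Bav
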