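import Pool.Agent.P.MP_dd457d_ag.Bav.KDefs

/-! Point sets, their ideals, classes and supports. -/

set_option autoImplicit false
set_option linter.unusedSectionVars false

noncomputable section

namespace Pool.Agent.Bav

open MvPolynomial Function

variable {σ k ι κ μ τ τ' X : Type} [Field k] [IsAlgClosed k] {I : Ideal (MvPolynomial σ k)}
  [Fintype σ] [Fintype ι] [Fintype κ] [Fintype μ] [Fintype τ] [Fintype τ']

/-- ideals that agree after saturation -/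
theorem cy_eq_of_sat {J J' : Ideal (S σ k ι)} (hJ : GrI J) (hJ' : GrI J') (hF : IX I ι ≤ J)
    (hl : J ≤ J') (h : ∀ g d, Hg g d → g ∈ J' → ∀ α, ∃ N : ℕ, mono k α ^ N * g ∈ J) (n : ι → ℤ) :
    cy I J n = cy I J' n := by
  obtain ⟨M, x, hx, e⟩ := exists_cy hJ hF n
  obtain ⟨M', y, hy, e'⟩ := exists_cy hJ' (hF.trans hl) n
  obtain ⟨f, h1, h2, -⟩ := hx.exists_hom hy hl
  rw [e, e']
  refine cls_eq_of_irr f (J := J.colon J') (fun α => ?_) (fun s hs z hz => ?_)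
    fun s _ z => h2 _
  · obtain ⟨m, g, d, hg, e⟩ := GrW.exists_fin hJ'
    choose N hN using fun i => h (g i) (d i) (hg i) (e ▸ Ideal.subset_span ⟨i, rfl⟩) α
    obtain ⟨B, hB⟩ := Finite.exists_le N
    refine ⟨B, Submodule.mem_colon.2 fun s hs => ?_⟩
    have : J' ≤ J.colon {mono k α ^ B} := by
      rw [e, Ideal.span_le]
      rintro _ ⟨i, rfl⟩
      obtain ⟨c, hc⟩ := Nat.exists_eq_add_of_le' (hB i)
      rw [SetLike.mem_coe, Submodule.mem_colon_singleton, smul_eq_mul, hc, pow_add, mul_comm,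
        mul_assoc]
      exact J.mul_mem_left _ (hN i)
    have h3 := Submodule.mem_colon_singleton.1 (this hs)
    rwa [smul_eq_mul, mul_comm] at h3
  · obtain ⟨g, rfl⟩ := hx.gen z
    rw [map_smul, h1, hy.ann] at hz
    rw [smul_smul, hx.ann]
    exact Submodule.mem_colon.1 hs g hz

theorem kpt_primes {J : Ideal (S σ k ι)} {W : Submodule ℂ (G I ι)}
    (h : ∀ P n, Pr I P → J ≤ P → cy I P n ∈ W) : Sup I J ≤ W := by
  classical exact sup_le_of_primes h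

theorem kpt_cy {J J' : Ideal (S σ k ι)} (h : J ≤ J') (n : ι → ℤ) : cy I J' n ∈ Sup I J := by
  classical exact cy_mem_sup h n

theorem kpt_cls {J : Ideal (S σ k ι)} {M : GM I ι} (h : J ≤ M.ann) : cls M ∈ Sup I J := by
  classical exact cls_mem_sup h

namespace Geo
variable (Γ : Geo I X) {T T' Z : Set (ι → X)} {W : Set (κ → X)} {J P : Ideal (S σ k ι)}

include Γ in
theorem hom : HomI I := Γ.idl ▸ homI_idl Γ.p

theorem ev_eq (x : ι → X) (f : S σ k ι) : Γ.ev x f = eval (xp Γ.p x) f := rfl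

theorem ev_X (x : ι → X) (v : ι × σ) : Γ.ev x (MvPolynomial.X v) = Γ.p (x v.1) v.2 := aeval_X _ _

theorem ev_rn (u : κ → ι) (x : ι → X) (f : S σ k κ) : Γ.ev x (rn u f) = Γ.ev (x ∘ u) f :=
  aeval_rename _ _ _

theorem ev_blk (i : ι) (x : ι → X) (f : MvPolynomial σ k) :
    Γ.ev x (blk i f) = eval (Γ.p (x i)) f := eval_blk _ _ _

theorem ev_mono (x : ι → X) (α : ι → σ) : Γ.ev x (mono k α) = ∏ i, Γ.p (x i) (α i) := by
  simp [mono, ev_X]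

theorem mem_VI {f : S σ k ι} {d : ι → ℤ} (hf : Hg f d) :
    f ∈ Γ.VI T ↔ ∀ x ∈ T, Γ.ev x f = 0 := by
  rw [VI, mem_core hf]
  simp only [Ideal.mem_iInf, RingHom.mem_ker]

theorem ev_of_VI {f : S σ k ι} (hf : f ∈ Γ.VI T) {x : ι → X} (hx : x ∈ T) : Γ.ev x f = 0 := by
  have := core_le _ hf
  simp only [Ideal.mem_iInf, RingHom.mem_ker] at this
  exact this x hx

theorem grI_VI (T : Set (ι → X)) : GrI (Γ.VI T) := grW_core _

theorem le_VI (hJ : GrI J) : J ≤ Γ.VI T ↔ T ⊆ Γ.ZS J :=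
  ⟨fun h _ hx _ hf => Γ.ev_of_VI (h hf) hx,
    fun h => hJ.le_of_hom fun f _ hf hfJ => (Γ.mem_VI hf).2 fun _ hx => h hx f hfJ⟩

theorem ev_of_IX {f : S σ k ι} (hf : f ∈ IX I ι) (x : ι → X) : Γ.ev x f = 0 :=
  eval_of_mem_IX (Γ.idl ▸ hf) x

theorem IX_le_VI (T : Set (ι → X)) : IX I ι ≤ Γ.VI T :=
  (Γ.le_VI (grI_IX Γ.hom)).2 fun x _ _ hf => Γ.ev_of_IX hf x

theorem subset_ZS (T : Set (ι → X)) : T ⊆ Γ.ZS (Γ.VI T) := (Γ.le_VI (Γ.grI_VI T)).1 le_rfl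

theorem VI_anti (h : T ⊆ T') : Γ.VI T' ≤ Γ.VI T :=
  (Γ.le_VI (Γ.grI_VI T')).2 (h.trans (Γ.subset_ZS T'))

theorem pr_VI (h : (Γ.VI T).IsPrime) : Pr I (Γ.VI T) := ⟨Γ.grI_VI T, h, Γ.IX_le_VI T⟩

theorem eq_VI (hJ : GrI J) (h : ∀ f d, Hg f d → (f ∈ J ↔ ∀ x ∈ T, Γ.ev x f = 0)) :
    J = Γ.VI T :=
  le_antisymm (hJ.le_of_hom fun f d hf hfJ => (Γ.mem_VI hf).2 ((h f d hf).1 hfJ))
    ((Γ.grI_VI T).le_of_hom fun f d hf hfJ => (h f d hf).2 ((Γ.mem_VI hf).1 hfJ))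

theorem ZS_anti {J' : Ideal (S σ k ι)} (h : J ≤ J') : Γ.ZS J' ⊆ Γ.ZS J := fun _ hx f hf =>
  hx f (h hf)

theorem mem_ZS {x : ι → X} : x ∈ Γ.ZS J ↔ J ≤ RingHom.ker (Γ.ev x) := Iff.rfl

theorem mem_ZS_of_hg (hJ : GrI J) {x : ι → X} (h : ∀ f d, Hg f d → f ∈ J → Γ.ev x f = 0) :
    x ∈ Γ.ZS J := Γ.mem_ZS.2 (hJ.le_of_hom h)

theorem ZS_sup (J J' : Ideal (S σ k ι)) : Γ.ZS (J ⊔ J') = Γ.ZS J ∩ Γ.ZS J' := by
  ext x
  simp only [Set.mem_inter_iff, mem_ZS, _root_.sup_le_iff]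

theorem ZS_span (s : Set (S σ k ι)) : Γ.ZS (Ideal.span s) = {x | ∀ f ∈ s, Γ.ev x f = 0} := by
  ext x
  rw [mem_ZS, Ideal.span_le]
  rfl

theorem ZS_IX : Γ.ZS (IX I ι) = Set.univ :=
  Set.eq_univ_of_forall fun x _ hf => Γ.ev_of_IX hf x

theorem ZS_map_rn (u : κ → ι) (J : Ideal (S σ k κ)) :
    Γ.ZS (J.map (rn u)) = {x | x ∘ u ∈ Γ.ZS J} := by
  ext x
  rw [mem_ZS, Ideal.map_le_iff_le_comap]
  exact forall₂_congr fun f _ => by
    rw [Ideal.mem_comap, RingHom.mem_ker, ev_rn]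

theorem VI_image_le (u : κ → ι) (hu : Injective u) (T : Set (ι → X)) :
    (Γ.VI ((· ∘ u) '' T)).map (rn u) ≤ Γ.VI T :=
  (Γ.le_VI ((Γ.grI_VI _).map_rn hu)).2 fun x hx => by
    rw [ZS_map_rn]
    exact Γ.subset_ZS _ ⟨x, hx, rfl⟩

theorem VI_comap (u : κ → ι) (hu : Injective u) (T : Set (ι → X)) :
    (Γ.VI T).comap (rn u) = Γ.VI ((· ∘ u) '' T) := by
  refine le_antisymm (fun f hf => ?_) (Ideal.map_le_iff_le_comap.1 (Γ.VI_image_le u hu T))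
  have hg : GrI ((Γ.VI T).comap (rn u)) :=
    GrW.comap (Γ.grI_VI T) (rn u) (polyExt hu) (fun d e h => funext fun i => by
      have := congrFun h (u i)
      simpa only [polyExt, AddMonoidHom.coe_mk, ZeroHom.coe_mk, hu.extend_apply] using this)
      (polyExt_X hu)
  refine (Γ.le_VI hg).2 ?_ hf
  rintro _ ⟨x, hx, rfl⟩ g hg
  exact (Γ.ev_rn u x g).symm.trans (Γ.ev_of_VI (Ideal.mem_comap.1 hg) hx)

theorem cl_univ : Γ.Cl (Set.univ : Set (ι → X)) := Set.subset_univ _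

theorem cl_ZS (hJ : GrI J) : Γ.Cl (Γ.ZS J) := Γ.ZS_anti ((Γ.le_VI hJ).2 subset_rfl)

theorem Cl.inter (h : Γ.Cl T) (h' : Γ.Cl T') : Γ.Cl (T ∩ T') := fun _ hx =>
  ⟨h (Γ.ZS_anti (Γ.VI_anti Set.inter_subset_left) hx),
    h' (Γ.ZS_anti (Γ.VI_anti Set.inter_subset_right) hx)⟩

theorem VI_ZS_VI (T : Set (ι → X)) : Γ.VI (Γ.ZS (Γ.VI T)) = Γ.VI T :=
  le_antisymm (Γ.VI_anti (Γ.subset_ZS T)) ((Γ.le_VI (Γ.grI_VI T)).2 subset_rfl)

theorem pt_par_of_minor {y z : σ → k} (hy : y ≠ 0) (hz : z ≠ 0)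
    (h : ∀ a b, z b * y a = z a * y b) : Tav.Par y z := by
  obtain ⟨b, hb⟩ := Function.ne_iff.1 hz
  have e : y = (y b / z b) • z := funext fun a => by
    have hb' : z b ≠ 0 := hb
    rw [Pi.smul_apply, smul_eq_mul]
    field_simp
    linear_combination h a b
  refine ⟨y b / z b, IsUnit.mk0 _ fun h0 => hy ?_, e⟩
  rw [e, h0, zero_smul]

theorem cl_point (x : ι → X) : Γ.Cl {x} := fun y hy => funext fun i =>
  Γ.inj _ _ (pt_par_of_minor (Γ.ne _) (Γ.ne _) fun a b => by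
    have h1 : Hg (C (Γ.p (x i) b) * MvPolynomial.X (i, a) -
        C (Γ.p (x i) a) * MvPolynomial.X (i, b) : S σ k ι) (wt (i, a)) :=
      poly_hg_sub ((hg_X (i, a)).C_mul _) ((hg_X (i, b)).C_mul _)
    have h2 := hy _ ((Γ.mem_VI h1).2 fun z hz => by
      rw [Set.mem_singleton_iff.1 hz]
      simp only [map_sub, map_mul, algHom_C, ev_X, Algebra.algebraMap_self, RingHom.id_apply]
      ring)
    simp only [map_sub, map_mul, algHom_C, ev_X, Algebra.algebraMap_self, RingHom.id_apply] at h2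
    exact sub_eq_zero.1 h2)

/-- Nullstellensatz -/
theorem nss (hJ : GrI J) (hF : IX I ι ≤ J) {f : S σ k ι} {d : ι → ℤ} (hf : Hg f d)
    (h : ∀ x ∈ Γ.ZS J, Γ.ev x f = 0) (α : ι → σ) : ∃ N : ℕ, (mono k α * f) ^ N ∈ J :=
  nst (p := Γ.p) (Γ.idl ▸ Γ.cl) hJ (Γ.idl ▸ hF) hf h α

theorem not_irr {x : ι → X} (hx : x ∈ Γ.ZS J) : ¬ Irr J := fun h => by
  choose α hα using fun i => Function.ne_iff.1 (Γ.ne (x i))
  obtain ⟨N, hN⟩ := h α
  have := hx _ hN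
  rw [map_pow, ev_mono] at this
  exact Finset.prod_ne_zero_iff.2 (fun i _ => hα i) (eq_zero_of_pow_eq_zero this)

theorem irr_iff (hJ : GrI J) (hF : IX I ι ≤ J) : Irr J ↔ Γ.ZS J = ∅ :=
  ⟨fun h => Set.eq_empty_of_forall_notMem fun _ hx => Γ.not_irr hx h, fun h α => by
    simpa only [mul_one] using Γ.nss hJ hF (isWeightedHomogeneous_one k wt)
      (fun x hx => by rw [h] at hx; exact hx.elim) α⟩

theorem VI_ZS (hP : Pr I P) (h : ¬ Irr P) : Γ.VI (Γ.ZS P) = P := by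
  refine le_antisymm ((Γ.grI_VI _).le_of_hom fun f d hf hv => ?_) ((Γ.le_VI hP.gr).2 subset_rfl)
  obtain ⟨α, hα⟩ := exists_var_notMem hP.prime h
  obtain ⟨N, hN⟩ := Γ.nss hP.gr hP.le hf ((Γ.mem_VI hf).1 hv) α
  refine (hP.prime.mem_or_mem (hP.prime.mem_of_pow_mem N hN)).resolve_left fun hm => ?_
  have := hP.prime
  obtain ⟨i, -, hi⟩ := Ideal.IsPrime.prod_mem_iff.1 hm
  exact hα i hi

theorem cls_mem_supp {M : GM I ι} (h : Γ.ZS M.ann ⊆ T) : cls M ∈ Γ.Supp T := by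
  refine kpt_primes (fun P n hP hl => ?_) (kpt_cls le_rfl)
  by_cases hI : Irr P
  · rw [cy_irr hI]
    exact zero_mem _
  · exact kpt_cy (Γ.VI_ZS hP hI ▸ Γ.VI_anti ((Γ.ZS_anti hl).trans h)) n

theorem cy_mem_supp (h : Γ.ZS J ⊆ T) (n : ι → ℤ) : cy I J n ∈ Γ.Supp T := by
  rcases cyc_cases (I := I) J n with h0 | ⟨M, x, h1, h2⟩
  · rw [h0]
    exact zero_mem _
  · rw [h2]
    exact Γ.cls_mem_supp (h1.ann_eq.symm ▸ h)

theorem sup_le_supp (h : Γ.ZS J ⊆ T) : Sup I J ≤ Γ.Supp T :=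
  kpt_primes fun _ n _ hl => Γ.cy_mem_supp ((Γ.ZS_anti hl).trans h) n

theorem cT_mem_supp (h : Z ⊆ T) (n : ι → ℤ) : Γ.cT Z n ∈ Γ.Supp T := kpt_cy (Γ.VI_anti h) n

theorem Supp_mono (h : T ⊆ T') : Γ.Supp T ≤ Γ.Supp T' := by
  classical exact Sup_anti (Γ.VI_anti h)

theorem Supp_cl (T : Set (ι → X)) : Γ.Supp (Γ.ZS (Γ.VI T)) = Γ.Supp T := by
  rw [Supp, VI_ZS_VI, Supp]

theorem cT_cl (T : Set (ι → X)) (n : ι → ℤ) : Γ.cT (Γ.ZS (Γ.VI T)) n = Γ.cT T n := by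
  rw [cT, VI_ZS_VI, cT]

theorem mem_supp_univ (x : G I ι) : x ∈ Γ.Supp Set.univ := by
  classical
  refine Γ.sup_le_supp (J := IX I ι) (Set.subset_univ _) ?_
  rw [Sup_IX]
  trivial

theorem supp_ind (hT : Γ.Cl T) {V : Submodule ℂ (G I ι)}
    (h : ∀ Z n, Z ⊆ T → Γ.Cl Z → Pr I (Γ.VI Z) → ¬ Irr (Γ.VI Z) → Γ.cT Z n ∈ V) :
    Γ.Supp T ≤ V := kpt_primes fun P n hP hl => by
  by_cases hI : Irr P
  · rw [cy_irr hI]
    exact zero_mem _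
  · have e := Γ.VI_ZS hP hI
    have := h _ n ((Γ.ZS_anti hl).trans hT) (Γ.cl_ZS hP.gr) (e.symm ▸ hP) (e.symm ▸ hI)
    rwa [cT, e] at this

/-- two linear maps that agree on the classes of point sets inside a closed set -/
theorem supp_ext (hT : Γ.Cl T) {V : Type*} [AddCommGroup V] [Module ℂ V] {F F' : G I ι →ₗ[ℂ] V}
    (h : ∀ Z n, Z ⊆ T → F (Γ.cT Z n) = F' (Γ.cT Z n)) {x : G I ι} (hx : x ∈ Γ.Supp T) :
    F x = F' x :=
  Γ.supp_ind hT (V := LinearMap.eqLocus F F') (fun Z n hZ _ _ _ => h Z n hZ) hx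

theorem ext_cT {V : Type*} [AddCommGroup V] [Module ℂ V] {F F' : G I ι →ₗ[ℂ] V}
    (h : ∀ Z n, F (Γ.cT Z n) = F' (Γ.cT Z n)) : F = F' :=
  LinearMap.ext fun x => Γ.supp_ext Γ.cl_univ (fun Z n _ => h Z n) (Γ.mem_supp_univ x)

theorem shG_cT (T : Set (ι → X)) (n n' : ι → ℤ) : shG n' (Γ.cT T n) = Γ.cT T (n + n') :=
  shG_cy (Γ.grI_VI T) (Γ.IX_le_VI T) n n'

theorem shG_supp {x : G I ι} (hx : x ∈ Γ.Supp T) (n : ι → ℤ) : shG n x ∈ Γ.Supp T :=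
  kpt_primes (W := (Γ.Supp T).comap (shG n)) (fun P m hP hl => by
    rw [Submodule.mem_comap, shG_cy hP.gr hP.le]
    exact kpt_cy hl _) hx

theorem cT_empty (n : ι → ℤ) : Γ.cT (∅ : Set (ι → X)) n = 0 :=
  cy_irr (fun α => ⟨1, (Γ.mem_VI (basic_hg_mono α 1)).2 fun _ h => h.elim⟩) n

theorem exists_cT (T : Set (ι → X)) (n : ι → ℤ) :
    ∃ (M : GM I ι) (x : M.M), IsCyc (Γ.VI T) n M x ∧ Γ.cT T n = cls M :=
  exists_cy (Γ.grI_VI T) (Γ.IX_le_VI T) n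

theorem reG_cT (e : ι ≃ κ) (T : Set (ι → X)) (n : ι → ℤ) :
    reG e (Γ.cT T n) = Γ.cT ((· ∘ e.symm) '' T) (n ∘ e.symm) := by
  rw [cT, cT, reG_cy e (Γ.grI_VI T) (Γ.IX_le_VI T), ← Ops_comap_rn,
    Γ.VI_comap _ e.symm.injective]

end Geo

end Pool.Agent.Bav
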