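import Pool.Agent.P.MP_dd457d_ag.Bav.Tw
import Pool.Agent.P.MP_dd457d_ag.Bav.ChartC
import Pool.Agent.P.MP_dd457d_ag.Bav.LS

/-! Twists by maps that are given on points. -/

set_option autoImplicit false

noncomputable section

namespace Pool.Agent.Bav

open MvPolynomial Pool.Agent.Tav

section Crd
variable {K T τ τ' : Type} [Field K]

theorem crd_mul_crd (f : T → τ → K) (g : T → τ' → K) :
    crd f * crd g = crd fun t (a : τ × τ') => f t a.1 * g t a.2 := by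
  unfold crd
  rw [Submodule.span_mul_span]
  congr 1
  ext u
  constructor
  · rintro ⟨_, ⟨a, rfl⟩, _, ⟨b, rfl⟩, rfl⟩
    exact ⟨(a, b), rfl⟩
  · rintro ⟨a, rfl⟩
    exact ⟨_, ⟨a.1, rfl⟩, _, ⟨a.2, rfl⟩, rfl⟩

theorem mem_crd_iff [Fintype τ] {f : T → τ → K} {u : T → K} :
    u ∈ crd f ↔ ∃ m : τ → K, ∀ t, u t = ∑ a, m a * f t a := by
  unfold crd
  rw [Submodule.mem_span_range_iff_exists_fun]
  refine exists_congr fun m => ⟨fun h t => ?_, fun h => funext fun t => ?_⟩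
  · rw [← h, Finset.sum_apply]; rfl
  · rw [h, Finset.sum_apply]; rfl

end Crd

variable {Ω G σ ι : Type} [Field Ω] {p : G → σ → Ω} [Fintype ι] {A A' : Type}

/-- the image of `p` is closed -/
def ClP (p : G → σ → Ω) : Prop := ∀ z ∈ zeroLocus Ω (idl p), z ≠ 0 → ∃ x, Par z (p x)

/-- the charts of `D` are charts of the map with coordinates `w` -/
def TD.Rep (D : TD (idl p) ι A) (w : (ι → G) → A → Ω) : Prop :=
  ∀ c t, ∃ a : Ω, ∀ l, eval (xp p t) (D.P c l) = a * w t l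

theorem TD.cov (hne : ∀ x, p x ≠ 0) (D : TD (idl p) ι A) (t : ι → G) :
    ∃ c l, eval (xp p t) (D.P c l) ≠ 0 := by
  by_contra hc
  push Not at hc
  choose α hα using fun i => Function.ne_iff.1 (hne (t i))
  obtain ⟨N, hN⟩ := D.irr α
  have hle : IX (idl p) ι ⊔ Ideal.span {f | ∃ c a, f = D.P c a} ≤
      RingHom.ker (eval (xp p t)) :=
    sup_le (fun f hf => eval_of_mem_IX hf t) (Ideal.span_le.2 (by
      rintro _ ⟨c, a, rfl⟩
      exact hc c a))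
  have := hle hN
  rw [RingHom.mem_ker, map_pow, mono, map_prod] at this
  exact pow_ne_zero N (Finset.prod_ne_zero_iff.2 fun i _ => by rw [eval_X]; exact hα i) this

theorem TD.Rep.ne {D : TD (idl p) ι A} {w : (ι → G) → A → Ω} (h : D.Rep w) (hne : ∀ x, p x ≠ 0)
    (t : ι → G) : ∃ l, w t l ≠ 0 := by
  obtain ⟨c, l, h0⟩ := D.cov hne t
  obtain ⟨a, ha⟩ := h c t
  exact ⟨l, fun e => h0 (by rw [ha, e, mul_zero])⟩

theorem TD.Rep.par {D : TD (idl p) ι A} {w w' : (ι → G) → A → Ω} (h : D.Rep w)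
    (e : ∀ t, ∃ c : Ω, w t = c • w' t) : D.Rep w' := fun c t => by
  obtain ⟨a, ha⟩ := h c t
  obtain ⟨b, hb⟩ := e t
  exact ⟨a * b, fun l => by rw [ha, hb, Pi.smul_apply, smul_eq_mul, mul_assoc]⟩

variable [IsAlgClosed Ω] [Finite σ]

/-- charts from forms that are proportional to `w` and have no common zero -/
def mkTD (cl : ClP p) {C : Type} [Finite C] (u : C → A → S σ Ω ι) (e : C → ι → ℤ)
    (hu : ∀ c l, Hg (u c l) (e c)) (w : (ι → G) → A → Ω)
    (h : ∀ c t, ∃ a : Ω, ∀ l, eval (xp p t) (u c l) = a * w t l)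
    (hc : ∀ t, ∃ c l, eval (xp p t) (u c l) ≠ 0) : TD (idl p) ι A :=
  ⟨C, u, e, hu, fun c c' a b => minor_mem (hu c) (hu c') (h c) (h c') a b, irr_charts cl hu hc⟩

theorem exists_TD (cl : ClP p) (hne : ∀ x, p x ≠ 0) {w : (ι → G) → A → Ω} (hw : ∀ t, w t ≠ 0)
    (h : Rg (fun i => crd fun t : ι → G => p (t i)) (crd w)) :
    ∃ D : TD (idl p) ι A, D.Rep w := by
  obtain ⟨n, e, u, h1, h2, h3⟩ := exists_charts hne hw h
  exact ⟨mkTD cl u (fun _ i => e i) h1 w h2 h3, h2⟩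

variable [Fintype A] [Fintype A'] {D : TD (idl p) ι A} {D' : TD (idl p) ι A'}
  {w : (ι → G) → A → Ω} {w' : (ι → G) → A' → Ω}

omit [IsAlgClosed Ω] in
theorem TD.Rep.L_eq {E : TD (idl p) ι A} (h : D.Rep w) (h' : E.Rep w) : D.L = E.L :=
  D.L_congr E fun c c' a b => minor_mem (D.hg c) (E.hg c') (h c) (h' c') a b

omit [IsAlgClosed Ω] in
theorem TD.unip (D : TD (idl p) ι A) : Unip D.L := D.isNilpotent_L

theorem TD.Rep.exists_mul (cl : ClP p) (hne : ∀ x, p x ≠ 0) (h : D.Rep w) (h' : D'.Rep w') :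
    ∃ E : TD (idl p) ι (A × A'), E.Rep (fun t a => w t a.1 * w' t a.2) ∧ E.L = D'.L * D.L := by
  have r : ∀ (c : D.C × D'.C) t, ∃ x : Ω, ∀ l : A × A',
      eval (xp p t) (D.P c.1 l.1 * D'.P c.2 l.2) = x * (w t l.1 * w' t l.2) := fun c t => by
    obtain ⟨a, ha⟩ := h c.1 t
    obtain ⟨b, hb⟩ := h' c.2 t
    exact ⟨a * b, fun l => by rw [map_mul, ha, hb]; ring⟩
  refine ⟨mkTD cl (fun (c : D.C × D'.C) (l : A × A') => D.P c.1 l.1 * D'.P c.2 l.2)
    (fun c => D.e c.1 + D'.e c.2) (fun c l => (D.hg c.1 l.1).mul (D'.hg c.2 l.2)) _ r fun t => ?_,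
    r, Bav.G.ext fun M => ?_⟩
  · obtain ⟨c, l, h1⟩ := D.cov hne t
    obtain ⟨c', l', h2⟩ := D'.cov hne t
    exact ⟨(c, c'), (l, l'), by rw [map_mul]; exact mul_ne_zero h1 h2⟩
  · obtain ⟨T, -, ⟨t⟩⟩ := D.exists_tw M
    obtain ⟨U, -, ⟨u⟩⟩ := D'.exists_tw T
    rw [Module.End.mul_apply, D.L_cls t, D'.L_cls u]
    exact TD.L_cls _ (t.comp u)

/-- the twist by a tensor product -/
theorem TD.Rep.L_mul (cl : ClP p) (hne : ∀ x, p x ≠ 0) (h : D.Rep w) (h' : D'.Rep w')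
    {E : TD (idl p) ι (A × A')} (hE : E.Rep fun t a => w t a.1 * w' t a.2) :
    E.L = D'.L * D.L := by
  obtain ⟨E', h1, h2⟩ := h.exists_mul cl hne h'
  rw [hE.L_eq h1, h2]

/-- a linear projection that is defined everywhere does not change the twist -/
theorem TD.Rep.L_lin (cl : ClP p) (hne : ∀ x, p x ≠ 0) (h : D.Rep w) (h' : D'.Rep w')
    {c : (ι → G) → Ω} (hc : ∀ t, c t ≠ 0) (m : A' → A → Ω)
    (e : ∀ t b, c t * w' t b = ∑ a, m b a * w t a) : D'.L = D.L := by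
  have r : ∀ (s : D.C) t (x : Ω), (∀ l, eval (xp p t) (D.P s l) = x * w t l) → ∀ b : A',
      eval (xp p t) (∑ a, m b a • D.P s a) = x * c t * w' t b := fun s t x hx b => by
    simp only [map_sum, smul_eval, hx, mul_assoc, e, Finset.mul_sum]
    exact Finset.sum_congr rfl fun a _ => by ring
  have r' : ∀ (s : D.C) t, ∃ x : Ω, ∀ b : A',
      eval (xp p t) (∑ a, m b a • D.P s a) = x * w' t b := fun s t => by
    obtain ⟨x, hx⟩ := h s t
    exact ⟨_, r s t x hx⟩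
  let E : TD (idl p) ι A' := mkTD cl (fun s b => ∑ a, m b a • D.P s a) D.e
    (fun s b => (weightedHomogeneousSubmodule Ω wt (D.e s)).sum_mem fun a _ =>
      (weightedHomogeneousSubmodule Ω wt (D.e s)).smul_mem _ (D.hg s a)) w' r' fun t => by
      obtain ⟨s, l, h1⟩ := D.cov hne t
      obtain ⟨x, hx⟩ := h s t
      obtain ⟨b, hb⟩ := h'.ne hne t
      refine ⟨s, b, ?_⟩
      rw [r s t x hx]
      exact mul_ne_zero (mul_ne_zero (fun e0 => h1 (by rw [hx, e0, zero_mul])) (hc t)) hb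
  rw [h'.L_eq (E := E) r']
  exact D.L_lin E id m fun s b => by
    change (∑ a, m b a • D.P s a) - ∑ a, m b a • D.P s a ∈ _
    rw [sub_self]; exact zero_mem _

theorem TD.Rep.L_crd (cl : ClP p) (hne : ∀ x, p x ≠ 0) (h : D.Rep w) (h' : D'.Rep w')
    {c : (ι → G) → Ω} (hc : ∀ t, c t ≠ 0) (e : ∀ b, (c * fun t => w' t b) ∈ crd w) :
    D'.L = D.L := by
  choose m hm using fun b => mem_crd_iff.1 (e b)
  exact h.L_lin cl hne h' hc m fun t b => hm b t

theorem TD.Rep.L_comm (cl : ClP p) (hne : ∀ x, p x ≠ 0) (h : D.Rep w) (h' : D'.Rep w') :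
    Commute D.L D'.L := by
  obtain ⟨E, h1, h2⟩ := h.exists_mul cl hne h'
  obtain ⟨E', h3, h4⟩ := h'.exists_mul cl hne h
  rw [Commute, SemiconjBy, ← h2, ← h4]
  refine h1.L_crd cl hne h3 (c := 1) (fun _ => one_ne_zero) fun b => ?_
  rw [one_mul]
  simpa only [mul_comm] using mem_crd (fun t (a : A × A') => w t a.1 * w' t a.2) (b.2, b.1)

/-- forms of one degree give the shift -/
theorem TD.Rep.L_forms (cl : ClP p) (hne : ∀ x, p x ≠ 0) {u : A → S σ Ω ι} {n : ι → ℤ}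
    (hu : ∀ a, Hg (u a) n) (h : D.Rep fun t a => eval (xp p t) (u a)) : D.L = shG n := by
  have r : ∀ (_ : Unit) (t : ι → G), ∃ x : Ω, ∀ a, eval (xp p t) (u a) = x * eval (xp p t) (u a) :=
    fun _ _ => ⟨1, fun _ => (one_mul _).symm⟩
  rw [h.L_eq (E := mkTD cl (fun _ : Unit => u) (fun _ => n) (fun _ => hu) _ r fun t =>
    ⟨(), h.ne hne t⟩) r]
  exact Bav.G.ext fun M => by rw [shG_cls]; exact TD.L_cls _ (Tw.forms M hu)

theorem TD.Rep.L_const (cl : ClP p) (hne : ∀ x, p x ≠ 0) {z : A → Ω} (h : D.Rep fun _ => z) :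
    D.L = 1 := by
  rw [← shG_zero]
  refine TD.Rep.L_forms cl hne (u := fun a => MvPolynomial.C (z a))
    (fun a => isWeightedHomogeneous_C wt (z a)) ?_
  simpa only [eval_C] using h

theorem TD.Rep.L_blk [Fintype σ] [DecidableEq ι] (cl : ClP p) (hne : ∀ x, p x ≠ 0) (i : ι)
    {D : TD (idl p) ι σ} (h : D.Rep fun t => p (t i)) : D.L = shG (Pi.single i 1) := by
  refine TD.Rep.L_forms cl hne (u := fun a => X (i, a))
    (fun a => wt_eq_single (σ := σ) (i, a) ▸ hg_X (i, a)) ?_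
  simp only [eval_X]
  exact h

theorem TD.Rep.lg_mul (cl : ClP p) (hne : ∀ x, p x ≠ 0) (h : D.Rep w) (h' : D'.Rep w')
    {E : TD (idl p) ι (A × A')} (hE : E.Rep fun t a => w t a.1 * w' t a.2) :
    lg E.L = lg D.L + lg D'.L := by
  rw [h.L_mul cl hne h' hE, Bav.lg_mul D'.unip D.unip (h'.L_comm cl hne h), add_comm]

theorem TD.Rep.lg_comm (cl : ClP p) (hne : ∀ x, p x ≠ 0) (h : D.Rep w) (h' : D'.Rep w') :
    Commute (lg D.L) (lg D'.L) := Bav.lg_comm D.unip D'.unip (h.L_comm cl hne h')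

/-- the parallelogram law -/
theorem lg_par (cl : ClP p) (hne : ∀ x, p x ≠ 0) {U : Type} [AddCommGroup U] {h : U → A → Ω}
    (law : ∃ c : U × U → Ω, (∀ t, c t ≠ 0) ∧ ∀ i j,
      (c * fun t => h (t.1 + t.2) i * h (t.1 - t.2) j) ∈
        (crd fun t : U × U => h t.1) ^ 2 * (crd fun t : U × U => h t.2) ^ 2)
    {a b : (ι → G) → U} {D₁ D₂ D₃ D₄ : TD (idl p) ι A} (h₁ : D₁.Rep fun t => h (a t + b t))
    (h₂ : D₂.Rep fun t => h (a t - b t)) (h₃ : D₃.Rep fun t => h (a t))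
    (h₄ : D₄.Rep fun t => h (b t)) :
    lg D₁.L + lg D₂.L = (2 : ℂ) • lg D₃.L + (2 : ℂ) • lg D₄.L := by
  obtain ⟨c, hc, hl⟩ := law
  obtain ⟨E, e1, -⟩ := h₁.exists_mul cl hne h₂
  obtain ⟨E₃, e3, -⟩ := h₃.exists_mul cl hne h₃
  obtain ⟨E₄, e4, -⟩ := h₄.exists_mul cl hne h₄
  obtain ⟨E', e5, -⟩ := e3.exists_mul cl hne e4
  rw [← h₁.lg_mul cl hne h₂ e1, two_smul, two_smul, ← h₃.lg_mul cl hne h₃ e3,
    ← h₄.lg_mul cl hne h₄ e4, ← e3.lg_mul cl hne e4 e5]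
  congr 1
  simp only [pow_two, crd_mul_crd, mem_crd_iff] at hl
  choose m hm using hl
  exact e5.L_lin cl hne e1 (c := fun t => c (a t, b t)) (fun t => hc _) (fun l => m l.1 l.2)
    fun t l => hm l.1 l.2 (a t, b t)

end Pool.Agent.Bav
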