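import Pool.Agent.P.MP_dd457d_ag.Bav.KDefs
import Pool.Agent.P.MP_dd457d_ag.Bav.Rep

/-! The calculus of twists along regular maps. -/

set_option autoImplicit false

noncomputable section

namespace Pool.Agent.Bav

open MvPolynomial Function

variable {σ k ι τ τ' X : Type} [Field k] [IsAlgClosed k] {I : Ideal (MvPolynomial σ k)}
  [Fintype σ] [Fintype ι] [Fintype τ] [Fintype τ']

namespace Geo

section Aux
variable {p : X → σ → k} {ne : ∀ x, p x ≠ 0} {inj : ∀ x y, Tav.Par (p x) (p y) → x = y}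
  {cl : ClP p} {f : (ι → X) → τ → k}

omit [IsAlgClosed k] in
theorem twB_eq {D : TD (Tav.idl p) ι τ} (h : D.Rep f) :
    (⟨p, ne, inj, rfl, cl⟩ : Geo (Tav.idl p) X).twF f = D.L :=
  Classical.epsilon_spec (p := fun L => ∀ D : TD (Tav.idl p) ι τ,
    (⟨p, ne, inj, rfl, cl⟩ : Geo (Tav.idl p) X).IsCh D f → L = D.L)
    ⟨D.L, fun _ hE => h.L_eq hE⟩ D h

theorem twB_ex (h : (⟨p, ne, inj, rfl, cl⟩ : Geo (Tav.idl p) X).RegF f) :
    ∃ D : TD (Tav.idl p) ι τ, D.Rep f := exists_TD cl ne h.ne h.rg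

end Aux

variable (Γ : Geo I X) {f : (ι → X) → τ → k} {f' : (ι → X) → τ' → k}

theorem twF_forms {u : τ → S σ k ι} {n : ι → ℤ} (hu : ∀ a, Hg (u a) n)
    (h : ∀ x, ∃ a, Γ.ev x (u a) ≠ 0) : Γ.twF (fun x a => Γ.ev x (u a)) = shG n := by
  obtain ⟨p, ne, inj, rfl, cl⟩ := Γ
  have r : ∀ (_ : Unit) (t : ι → X), ∃ x : k, ∀ a, eval (xp p t) (u a) = x * eval (xp p t) (u a) :=
    fun _ _ => ⟨1, fun _ => (one_mul _).symm⟩
  let E := mkTD cl (fun _ : Unit => u) (fun _ => n) (fun _ => hu) _ r fun t => ⟨(), h t⟩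
  have hE : E.Rep fun t a => eval (xp p t) (u a) := r
  exact (twB_eq hE).trans (hE.L_forms cl ne hu)

theorem twF_proj [DecidableEq ι] (i : ι) :
    Γ.twF (fun x : ι → X => Γ.p (x i)) = shG (Pi.single i 1) := by
  have h := Γ.twF_forms (u := fun a => MvPolynomial.X (i, a)) (n := Pi.single i 1)
    (fun a => wt_eq_single (σ := σ) (i, a) ▸ hg_X (i, a)) fun x => by
      simp only [ev, aeval_X]
      exact Function.ne_iff.1 (Γ.ne (x i))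
  simpa only [ev, aeval_X] using h

theorem twF_const {z : τ → k} (hz : z ≠ 0) : Γ.twF (fun _ : ι → X => z) = 1 := by
  have h := Γ.twF_forms (ι := ι) (u := fun a => C (z a))
    (fun a => isWeightedHomogeneous_C wt (z a)) fun x => by
      simp only [ev, aeval_C]
      exact Function.ne_iff.1 hz
  rw [shG_zero] at h
  simp only [ev, aeval_C] at h
  exact h

theorem twF_comm (h : Γ.RegF f) (h' : Γ.RegF f') : Commute (Γ.twF f) (Γ.twF f') := by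
  obtain ⟨p, ne, inj, rfl, cl⟩ := Γ
  obtain ⟨D, hD⟩ := twB_ex h
  obtain ⟨D', hD'⟩ := twB_ex h'
  rw [twB_eq hD, twB_eq hD']
  exact hD.L_comm cl ne hD'

theorem twF_seg (h : Γ.RegF f) (h' : Γ.RegF f') :
    Γ.twF (fun x (a : τ × τ') => f x a.1 * f' x a.2) = Γ.twF f * Γ.twF f' := by
  rw [Γ.twF_comm h h']
  obtain ⟨p, ne, inj, rfl, cl⟩ := Γ
  obtain ⟨D, hD⟩ := twB_ex h
  obtain ⟨D', hD'⟩ := twB_ex h'
  obtain ⟨E, h1, h2⟩ := hD.exists_mul cl ne hD'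
  rw [twB_eq hD, twB_eq hD', twB_eq h1, h2]

theorem twF_crd (h : Γ.RegF f) (hne : ∀ x, f' x ≠ 0) {c : (ι → X) → k}
    (hc : ∀ x, c x ≠ 0) (hm : ∀ b, (c * fun x => f' x b) ∈ Tav.crd f) :
    Γ.twF f' = Γ.twF f := by
  obtain ⟨p, ne, inj, rfl, cl⟩ := Γ
  obtain ⟨D, hD⟩ := twB_ex h
  obtain ⟨D', hD'⟩ : ∃ D' : TD (Tav.idl p) ι τ', D'.Rep f' := by
    refine exists_TD cl ne hne (rg_crd fun t => ?_)
    obtain ⟨e, a, ha, h1⟩ := h.rg t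
    exact ⟨e, a * c, ha.mul (hc t).isUnit, fun l => by rw [mul_assoc]; exact h1 _ (hm l)⟩
  rw [twB_eq hD, twB_eq hD']
  exact hD.L_crd cl ne hD' hc hm

theorem twF_shG (h : Γ.RegF f) (n : ι → ℤ) : Commute (Γ.twF f) (shG n) := by
  obtain ⟨p, ne, inj, rfl, cl⟩ := Γ
  obtain ⟨D, hD⟩ := twB_ex h
  rw [twB_eq hD]
  refine G.ext fun M => ?_
  obtain ⟨T, -, ⟨t⟩⟩ := D.exists_tw M
  rw [Module.End.mul_apply, Module.End.mul_apply, shG_cls, D.L_sh t, D.L_cls t, shG_cls]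

/-- the parallelogram law -/
theorem twF_par {a b s d : (ι → X) → τ → k} (ha : Γ.RegF a) (hb : Γ.RegF b) (hs : Γ.RegF s)
    (hd : Γ.RegF d) {c : (ι → X) → k} (hc : ∀ x, c x ≠ 0)
    (hm : ∀ i j, (c * fun x => s x i * d x j) ∈ Tav.crd a ^ 2 * Tav.crd b ^ 2) :
    lg (Γ.twF s) + lg (Γ.twF d) = (2 : ℂ) • lg (Γ.twF a) + (2 : ℂ) • lg (Γ.twF b) := by
  obtain ⟨p, ne, inj, rfl, cl⟩ := Γ
  obtain ⟨D₁, h₁⟩ := twB_ex hs
  obtain ⟨D₂, h₂⟩ := twB_ex hd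
  obtain ⟨D₃, h₃⟩ := twB_ex ha
  obtain ⟨D₄, h₄⟩ := twB_ex hb
  rw [twB_eq h₁, twB_eq h₂, twB_eq h₃, twB_eq h₄]
  obtain ⟨E, e1, -⟩ := h₁.exists_mul cl ne h₂
  obtain ⟨E₃, e3, -⟩ := h₃.exists_mul cl ne h₃
  obtain ⟨E₄, e4, -⟩ := h₄.exists_mul cl ne h₄
  obtain ⟨E', e5, -⟩ := e3.exists_mul cl ne e4
  rw [← h₁.lg_mul cl ne h₂ e1, two_smul, two_smul, ← h₃.lg_mul cl ne h₃ e3,
    ← h₄.lg_mul cl ne h₄ e4, ← e3.lg_mul cl ne e4 e5]
  congr 1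
  simp only [pow_two, crd_mul_crd] at hm
  exact e5.L_crd cl ne e1 hc fun l => hm l.1 l.2

end Geo

end Pool.Agent.Bav
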