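import Pool.Agent.P.MP_dd457d_ag.Bav.Cyc
import Pool.Agent.P.MP_2ce3e7_ag.CW0

/-! Translation between graded modules over the coordinate ring and modules with one block. -/

set_option autoImplicit false

noncomputable section

namespace Pool.Agent.Bav

open MvPolynomial TensorProduct

variable {σ k ι : Type} [Field k] {I : Ideal (MvPolynomial σ k)}

/-- construction of a graded module from additive projections -/
def GM.ofAdd (V : Type) [AddCommGroup V] [Module (S σ k ι) V] (fg : Module.Finite (S σ k ι) V)
    (π : (ι → ℤ) → V →+ V) (h1 : ∀ d x, π d (π d x) = π d x)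
    (h2 : ∀ d e x, d ≠ e → π d (π e x) = 0)
    (h3 : ∀ x, ∃ s : Finset (ι → ℤ), ∑ d ∈ s, π d x = x)
    (hC : ∀ (a : k) d x, π d ((C a : S σ k ι) • x) = (C a : S σ k ι) • π d x)
    (h4 : ∀ v d x, π (d + wt v) ((X v : S σ k ι) • x) = (X v : S σ k ι) • π d x)
    (h5 : ∀ i, ∀ f ∈ I, ∀ x : V, (blk i f : S σ k ι) • x = 0) : GM I ι :=
  letI : Module k V := Module.compHom V (algebraMap k (S σ k ι))
  { M := V
    tower := ⟨fun a f x => by
      change (a • f) • x = algebraMap k (S σ k ι) a • f • x
      rw [Algebra.smul_def, mul_smul]⟩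
    fg := fg
    π := fun d => { toFun := π d, map_add' := map_add (π d), map_smul' := fun a x => hC a d x }
    π_self := h1
    π_ne := h2
    sum_π := h3
    π_X := h4
    kil := h5 }

/-- the degree `c` in the block `i` -/
def sg (i : ι) : ℤ →+ (ι → ℤ) := zmultiplesHom _ (Set.indicator {i} 1)

theorem sg_unit (c : ℤ) : sg () c = fun _ => c := by
  funext l
  simp [sg]

theorem hg_sg (i : ι) {f : MvPolynomial σ k} {n : ℕ} (hf : f.IsHomogeneous n) :
    Hg (blk i f : S σ k ι) (sg i n) := by
  have h := hg_blk (ι := ι) i hf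
  rwa [← natCast_zsmul] at h

theorem mk_mem_hom {f : MvPolynomial σ k} {n : ℕ} (hf : f.IsHomogeneous n) :
    Ideal.Quotient.mk I f ∈ CXD.hom I n := ⟨n, f, rfl, hf, rfl⟩

theorem hom_ind {p : MvPolynomial σ k → Prop} (h1 : ∀ (n : ℕ) f, f.IsHomogeneous n → p f)
    (h2 : ∀ f g, p f → p g → p (f + g)) (f : MvPolynomial σ k) : p f := by
  induction f using MvPolynomial.induction_on' with
  | monomial s a => exact h1 _ _ (isHomogeneous_monomial a rfl)
  | add f g hf hg => exact h2 f g hf hg

/-- from the ring with one block to the coordinate ring -/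
def un (I : Ideal (MvPolynomial σ k)) : S σ k Unit →+* MvPolynomial σ k ⧸ I :=
  (Ideal.Quotient.mk I).comp (rename Prod.snd : S σ k Unit →ₐ[k] MvPolynomial σ k).toRingHom

theorem un_blk (f : MvPolynomial σ k) : un I (blk () f) = Ideal.Quotient.mk I f := by
  change Ideal.Quotient.mk I (rename Prod.snd (rename (Prod.mk ()) f)) = _
  rw [rename_rename]
  exact congrArg _ (rename_id_apply f)

theorem blk_surj (f : S σ k Unit) : ∃ g, blk () g = f :=
  ⟨rename Prod.snd f, by
    rw [rename_rename]
    exact rename_id_apply f⟩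

theorem un_surj : Function.Surjective (un I) := fun a => by
  obtain ⟨f, rfl⟩ := Ideal.Quotient.mk_surjective a
  exact ⟨_, un_blk f⟩

/-- a graded module over the coordinate ring as a module with one block -/
def toB (V : CXD.GM (CXD.hom I)) (hV : Module.Finite (MvPolynomial σ k ⧸ I) V.M) : GM I Unit :=
  letI : Module (S σ k Unit) V.M := Module.compHom V.M (un I)
  GM.ofAdd V.M
    (by
      obtain ⟨s, hs⟩ := hV.fg_top
      refine ⟨s, eq_top_iff.2 fun x hx => ?_⟩
      have hx' : x ∈ Submodule.span (MvPolynomial σ k ⧸ I) (s : Set V.M) := hs ▸ hx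
      clear hx
      induction hx' using Submodule.span_induction with
      | mem x h => exact Submodule.subset_span h
      | zero => exact zero_mem _
      | add x y _ _ a b => exact add_mem a b
      | smul a x _ h =>
        obtain ⟨f, rfl⟩ := un_surj a
        exact Submodule.smul_mem _ f h)
    (fun d => V.π (d ())) (fun _ => V.π_self _)
    (fun d e x h => V.π_ne _ _ x fun h' => h (funext fun _ => h'))
    (fun x => by
      classical
      obtain ⟨s, hs⟩ := V.sum_π x
      refine ⟨s.image fun c _ => c, ?_⟩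
      rw [Finset.sum_image fun a _ b _ h => congrFun h ()]
      exact hs)
    (fun a d x => by
      have h := V.π_smul _ (d ()) _ (mk_mem_hom (isHomogeneous_C σ a)) x
      rw [Nat.cast_zero, zero_add, ← un_blk, algHom_C] at h
      exact h)
    (fun v d x => by
      have h := V.π_smul _ (d ()) _ (mk_mem_hom (isHomogeneous_X k v.2)) x
      have e : (d + wt v) () = d () + (1 : ℕ) := by simp [wt]
      rw [← un_blk, blk_X, add_comm, ← e] at h
      exact h)
    (fun i f hf x => by
      change un I (blk () f) • x = 0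
      rw [un_blk, Ideal.Quotient.eq_zero_iff_mem.2 hf]
      exact zero_smul (MvPolynomial σ k ⧸ I) x)

section
variable (V : CXD.GM (CXD.hom I)) (hV : Module.Finite (MvPolynomial σ k ⧸ I) V.M)

/-- the identity map to the module with one block -/
def toBe : V.M ≃+ (toB V hV).M := AddEquiv.refl _

theorem toBe_smul (f : MvPolynomial σ k) (x : V.M) :
    toBe V hV (Ideal.Quotient.mk I f • x) = (blk () f : S σ k Unit) • toBe V hV x := by
  rw [← un_blk]; rfl

theorem toBe_π (d : Unit → ℤ) (x : V.M) :
    toBe V hV (V.π (d ()) x) = (toB V hV).π d (toBe V hV x) := rfl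

end

/-- a module with the action of the coordinate ring through the block `i` -/
def Sl (T : GM I ι) (_ : ι) : Type := T.M

/-- the action of the coordinate ring through the block `i` -/
def slAct (T : GM I ι) (i : ι) : MvPolynomial σ k ⧸ I →+* Module.End (S σ k ι) T.M :=
  Ideal.Quotient.lift I ((Algebra.lsmul (S σ k ι) (S σ k ι) T.M).toRingHom.comp (blk i).toRingHom)
    fun f hf => LinearMap.ext fun x => T.kil i f hf x

instance (T : GM I ι) (i : ι) : AddCommGroup (Sl T i) := T.acg
instance (T : GM I ι) (i : ι) : Module (S σ k ι) (Sl T i) := T.mod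
instance (T : GM I ι) (i : ι) : Module (MvPolynomial σ k ⧸ I) (Sl T i) :=
  Module.compHom T.M (slAct T i)
instance (T : GM I ι) (i : ι) : SMulCommClass (MvPolynomial σ k ⧸ I) (S σ k ι) (Sl T i) :=
  ⟨fun a f x => ((slAct T i a).map_smul f x)⟩

/-- the identity map -/
def sle (T : GM I ι) (i : ι) : T.M ≃+ Sl T i := AddEquiv.refl _

theorem sle_smul (T : GM I ι) (i : ι) (f : MvPolynomial σ k) (x : T.M) :
    sle T i ((blk i f : S σ k ι) • x) = Ideal.Quotient.mk I f • sle T i x := rfl

/-- a module with one block as a graded module over the coordinate ring -/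
def backG (T : GM I Unit) : CXD.GM (CXD.hom I) where
  M := Sl T ()
  π c := (T.π fun _ => c).toAddMonoidHom
  π_self _ := T.π_self _
  π_ne d e x h := T.π_ne _ _ x fun h' => h (congrFun h' ())
  sum_π x := by
    classical
    obtain ⟨s, hs⟩ := T.sum_π x
    refine ⟨s.image fun d => d (), ?_⟩
    rw [Finset.sum_image fun a _ b _ h => _root_.funext fun _ => h]
    exact hs
  π_smul := by
    rintro _ d _ ⟨m, f, rfl, hf, rfl⟩ x
    have h := T.π_smul (hg_sg () hf) (fun _ => d) x
    rw [sg_unit, add_comm] at h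
    exact h

theorem sl_finite (T : GM I Unit) : Module.Finite (MvPolynomial σ k ⧸ I) (Sl T ()) := by
  obtain ⟨s, hs, h⟩ := Submodule.fg_def.1 T.fg.fg_top
  have key : ∀ x ∈ Submodule.span (S σ k Unit) s,
      sle T () x ∈ Submodule.span (MvPolynomial σ k ⧸ I) (sle T () '' s) := by
    intro x hx
    induction hx using Submodule.span_induction with
    | mem x h => exact Submodule.subset_span ⟨x, h, rfl⟩
    | zero => exact zero_mem _
    | add x y _ _ a b => exact add_mem a b
    | smul a x _ h =>
      obtain ⟨f, rfl⟩ := blk_surj a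
      exact Submodule.smul_mem _ (Ideal.Quotient.mk I f) h
  exact ⟨Submodule.fg_def.2 ⟨_, hs.image _, eq_top_iff.2 fun x _ =>
    key x (h ▸ Submodule.mem_top)⟩⟩

/-- the same, with finite generation -/
def back (T : GM I Unit) : CXD.FGM (CXD.hom I) := ⟨backG T, sl_finite T⟩

/-- maps of modules over the coordinate ring -/
def backH {M N : GM I Unit} (f : Hom M N) :
    (backG M).M →ₗ[MvPolynomial σ k ⧸ I] (backG N).M where
  toFun := f.f
  map_add' := f.f.map_add
  map_smul' a x := by
    obtain ⟨g, rfl⟩ := Ideal.Quotient.mk_surjective a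
    exact f.f.map_smul (blk () g) x

theorem back_rels {z : FreeAbelianGroup (GM I Unit)} (h : z ∈ rels I Unit) :
    FreeAbelianGroup.map back z ∈ CXD.rels (CXD.hom I) := by
  have : rels I Unit ≤ (CXD.rels (CXD.hom I)).comap (FreeAbelianGroup.map back) := by
    refine (AddSubgroup.closure_le _).2 ?_
    rintro _ (⟨M, N, P, f, g, h, rfl⟩ | ⟨M, ⟨d, h⟩, rfl⟩)
    · refine AddSubgroup.subset_closure (Or.inl ⟨back M, back N, back P,
        ⟨backH f, backH g, fun c x => f.π _ x, fun c x => g.π _ x, h⟩, ?_⟩)
      simp only [map_sub, FreeAbelianGroup.map_of_apply]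
    · refine AddSubgroup.subset_closure (Or.inr ⟨back M, ?_, FreeAbelianGroup.map_of_apply _⟩)
      refine Filter.eventually_atTop.2 ⟨d (), fun c hc => AddMonoidHom.ext fun x => ?_⟩
      exact LinearMap.congr_fun (h (fun _ => c) fun _ => hc) x
  exact this h

theorem back_toB (V : CXD.FGM (CXD.hom I)) :
    FreeAbelianGroup.of (back (toB V.1 V.2)) - FreeAbelianGroup.of V ∈ CXD.rels (CXD.hom I) := by
  let Z : CXD.FGM (CXD.hom I) :=
    ⟨{ M := PUnit
       π := fun _ => 0
       π_self := fun _ _ => rfl
       π_ne := fun _ _ _ _ => rfl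
       sum_π := fun _ => ⟨∅, rfl⟩
       π_smul := fun _ _ _ _ _ => rfl },
      inferInstanceAs (Module.Finite (MvPolynomial σ k ⧸ I) PUnit)⟩
  let f : V.1.M →ₗ[MvPolynomial σ k ⧸ I] (backG (toB V.1 V.2)).M :=
    { toFun := toBe V.1 V.2
      map_add' := map_add (toBe V.1 V.2)
      map_smul' := fun a x => by
        obtain ⟨g, rfl⟩ := Ideal.Quotient.mk_surjective a
        exact toBe_smul V.1 V.2 g x }
  have h1 : FreeAbelianGroup.of (back (toB V.1 V.2)) - FreeAbelianGroup.of V - FreeAbelianGroup.of Z ∈
      CXD.rels (CXD.hom I) :=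
    AddSubgroup.subset_closure (Or.inl ⟨V, back (toB V.1 V.2), Z,
      ⟨f, 0, fun _ _ => rfl, fun _ _ => rfl, fun _ _ h => h, fun _ => ⟨0, rfl⟩,
        fun y => ⟨fun _ => ⟨y, rfl⟩, fun _ => rfl⟩⟩, rfl⟩)
  have h2 : FreeAbelianGroup.of Z ∈ CXD.rels (CXD.hom I) :=
    AddSubgroup.subset_closure (Or.inr ⟨Z, Filter.Eventually.of_forall fun _ => rfl, rfl⟩)
  simpa using add_mem h1 h2

/-- the class in the complexified Grothendieck group -/
def toG : FreeAbelianGroup (CXD.FGM (CXD.hom I)) →+ G I Unit :=
  FreeAbelianGroup.lift fun V => cls (toB V.1 V.2)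

theorem toG_of (V : CXD.FGM (CXD.hom I)) : toG (FreeAbelianGroup.of V) = cls (toB V.1 V.2) :=
  FreeAbelianGroup.lift_apply_of _ _

/-- the module with one block -/
def toF (V : CXD.FGM (CXD.hom I)) : GM I Unit := toB V.1 V.2

/-- a class that dies in the complexified group is torsion -/
theorem tors_of_toG {x : FreeAbelianGroup (CXD.FGM (CXD.hom I))} (h : toG x = 0) :
    ∃ c : ℕ, 0 < c ∧ c • x ∈ CXD.rels (CXD.hom I) := by
  have e : (FreeAbelianGroup.lift (cls : GM I Unit → G I Unit)).comp (FreeAbelianGroup.map toF) =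
      toG := FreeAbelianGroup.lift_ext _ _ fun V => by simp [toG_of, toF]
  obtain ⟨c, hc, h1⟩ := torsion_of_cls (FreeAbelianGroup.map toF x)
    ((DFunLike.congr_fun e x).trans h)
  have h2 := back_rels h1
  have h3 : ∀ y, FreeAbelianGroup.map back (FreeAbelianGroup.map toF y) - y ∈
      CXD.rels (CXD.hom I) := fun y => by
    induction y using FreeAbelianGroup.induction_on with
    | zero => simp
    | of V => exact back_toB V
    | neg V h => simpa only [map_neg, neg_sub_neg, neg_sub] using neg_mem h
    | add a b ha hb => simpa only [map_add, add_sub_add_comm] using add_mem ha hb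
  refine ⟨c, hc, ?_⟩
  rw [← map_nsmul] at h2
  simpa using sub_mem h2 (h3 (c • x))

end Pool.Agent.Bav
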