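import Pool.Agent.P.MP_dd457d_ag.Bav.LinkA

/-! The tensor product of a multigraded module with a module over the coordinate ring. -/

set_option autoImplicit false

noncomputable section

namespace Pool.Agent.Bav

open MvPolynomial TensorProduct

variable {σ k ι : Type} [Field k] {I : Ideal (MvPolynomial σ k)}

section
variable {M X Γ : Type} [AddCommGroup M] [AddCommGroup X] {π : Γ → M →+ M}

theorem lk_ind (h1 : ∀ d x, π d (π d x) = π d x) (h3 : ∀ x, ∃ s : Finset Γ, ∑ d ∈ s, π d x = x)
    {p : M → Prop} (a0 : p 0) (a1 : ∀ d x, π d x = x → p x)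
    (a2 : ∀ x y, p x → p y → p (x + y)) (x : M) : p x := by
  obtain ⟨s, hs⟩ := h3 x
  rw [← hs]
  exact Finset.sum_induction _ p a2 a0 fun d _ => a1 d _ (h1 d x)

theorem lk_glue (h2 : ∀ d e x, d ≠ e → π d (π e x) = 0)
    (h3 : ∀ x, ∃ s : Finset Γ, ∑ d ∈ s, π d x = x) (F : Γ → M →+ X) :
    ∃ g : M →+ X, ∀ d x, π d x = x → g x = F d x := by
  have hfin : ∀ x : M, (Function.support fun d => F d (π d x)).Finite := fun x => by
    obtain ⟨s, hs⟩ := h3 x
    refine s.finite_toSet.subset fun d hd => ?_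
    by_contra hn
    apply hd
    change F d (π d x) = 0
    rw [← hs, map_sum, Finset.sum_eq_zero fun e he => h2 d e x fun h => hn (h ▸ he), map_zero]
  refine ⟨AddMonoidHom.mk' (fun x => ∑ᶠ d, F d (π d x)) fun x y => ?_, fun d x hx => ?_⟩
  · simp only [map_add]
    exact finsum_add_distrib (hfin x) (hfin y)
  · change ∑ᶠ e, F e (π e x) = F d x
    rw [finsum_eq_single _ d fun e he => by rw [← hx, h2 e d x he, map_zero], hx]

end

theorem GM.lk_ind (T : GM I ι) {p : T.M → Prop} (a0 : p 0) (a1 : ∀ d x, T.π d x = x → p x)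
    (a2 : ∀ x y, p x → p y → p (x + y)) (x : T.M) : p x :=
  Bav.lk_ind (π := fun d => (T.π d).toAddMonoidHom) T.π_self T.sum_π a0 a1 a2 x

variable (T : GM I ι) (i : ι) (V : CXD.GM (CXD.hom I))

/-- the tensor product over the coordinate ring -/
abbrev Tn : Type := Sl T i ⊗[MvPolynomial σ k ⧸ I] V.M

/-- pure tensors -/
def tm : T.M →+ V.M →+ Tn T i V :=
  (LinearMap.toAddMonoidHom'.comp
    (TensorProduct.mk (MvPolynomial σ k ⧸ I) (Sl T i) V.M).toAddMonoidHom).comp
      (sle T i).toAddMonoidHom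

variable {T i V}

theorem tm_bal (f : MvPolynomial σ k) (y : T.M) (v : V.M) :
    tm T i V ((blk i f : S σ k ι) • y) v = tm T i V y (Ideal.Quotient.mk I f • v) :=
  TensorProduct.smul_tmul (Ideal.Quotient.mk I f) (sle T i y) v

theorem tm_smul (f : S σ k ι) (y : T.M) (v : V.M) :
    f • tm T i V y v = tm T i V (f • y) v := rfl

theorem tm_ind {p : Tn T i V → Prop} (h0 : p 0)
    (h1 : ∀ y c v, V.π c v = v → p (tm T i V y v))
    (h2 : ∀ x x', p x → p x' → p (x + x')) (x : Tn T i V) : p x := by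
  induction x using TensorProduct.induction_on with
  | zero => exact h0
  | add x x' hx hx' => exact h2 x x' hx hx'
  | tmul y v =>
    refine lk_ind V.π_self V.sum_π (p := fun v => p (tm T i V y v)) ?_ (h1 y) ?_ v
    · rw [map_zero]; exact h0
    · intro v v' hv hv'
      rw [map_add]; exact h2 _ _ hv hv'

theorem tm_lift {X : Type} [AddCommGroup X] (F : T.M →+ V.M →+ X)
    (hF : ∀ f y v, F ((blk i f : S σ k ι) • y) v = F y (Ideal.Quotient.mk I f • v)) :
    ∃ g : Tn T i V →+ X, ∀ y v, g (tm T i V y v) = F y v :=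
  ⟨TensorProduct.liftAddHom (F.comp (sle T i).symm.toAddMonoidHom) fun a y v => by
    obtain ⟨f, rfl⟩ := Ideal.Quotient.mk_surjective a
    exact hF f y v, fun _ _ => rfl⟩

theorem hom_smul_mk {f : MvPolynomial σ k} {n : ℕ} (hf : f.IsHomogeneous n) {c : ℤ} {v : V.M}
    (hv : V.π c v = v) :
    V.π (n + c) (Ideal.Quotient.mk I f • v) = Ideal.Quotient.mk I f • v := by
  rw [V.π_smul _ _ _ (mk_mem_hom hf), hv]

variable (T i V) in
theorem exists_tπ (γ : ι → ℤ) : ∃ p : Tn T i V →+ Tn T i V, ∀ y c v, V.π c v = v →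
    p (tm T i V y v) = tm T i V (T.π (γ - sg i c) y) v := by
  choose g hg using fun y => lk_glue V.π_ne V.sum_π fun c => tm T i V (T.π (γ - sg i c) y)
  let F : T.M →+ V.M →+ Tn T i V := AddMonoidHom.mk' g fun y y' => AddMonoidHom.ext fun v => by
    refine lk_ind V.π_self V.sum_π (p := fun v => g (y + y') v = (g y + g y') v) ?_ ?_ ?_ v
    · rw [map_zero, map_zero]
    · intro c v hv
      rw [AddMonoidHom.add_apply, hg _ c v hv, hg _ c v hv, hg _ c v hv, map_add, map_add,
        AddMonoidHom.add_apply]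
    · intro v v' hv hv'
      rw [map_add, map_add, hv, hv']
  obtain ⟨p, hp⟩ := tm_lift (i := i) F fun f y v => by
    induction f using hom_ind with
    | h2 a b ha hb =>
      rw [map_add, map_add, add_smul, add_smul, map_add, map_add, AddMonoidHom.add_apply, ha, hb]
    | h1 n f hf =>
      refine lk_ind V.π_self V.sum_π (p := fun v => F ((blk i f : S σ k ι) • y) v =
        F y (Ideal.Quotient.mk I f • v)) ?_ ?_ ?_ v
      · rw [smul_zero, map_zero, map_zero]
      · intro c v hv
        refine (hg _ c v hv).trans (Eq.trans ?_ (hg _ _ _ (hom_smul_mk hf hv)).symm)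
        rw [← tm_bal, ← T.π_smul (hg_sg i hf),
          show γ - sg i (n + c) + sg i n = γ - sg i c by rw [map_add]; abel]
      · intro v v' hv hv'
        rw [smul_add, map_add, map_add, hv, hv']
  exact ⟨p, fun y c v hv => (hp y v).trans (hg y c v hv)⟩

variable (T i V) in
/-- the projections of the tensor product -/
def tπ (γ : ι → ℤ) : Tn T i V →+ Tn T i V := (exists_tπ T i V γ).choose

theorem tπ_tm (γ : ι → ℤ) (y : T.M) {c : ℤ} {v : V.M} (hv : V.π c v = v) :
    tπ T i V γ (tm T i V y v) = tm T i V (T.π (γ - sg i c) y) v :=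
  (exists_tπ T i V γ).choose_spec y c v hv

theorem tπ_smul {f : S σ k ι} {e : ι → ℤ} (hf : Hg f e) (d : ι → ℤ) (x : Tn T i V) :
    tπ T i V (d + e) (f • x) = f • tπ T i V d x := by
  induction x using tm_ind with
  | h0 => rw [smul_zero, map_zero, map_zero, smul_zero]
  | h2 x x' hx hx' => rw [smul_add, map_add, map_add, hx, hx', smul_add]
  | h1 y c v hv =>
    rw [tm_smul, tπ_tm _ _ hv, tπ_tm _ _ hv, tm_smul, add_sub_right_comm, T.π_smul hf]

theorem tπ_sum (x : Tn T i V) :
    ∃ s : Finset (ι → ℤ), ∑ d ∈ s, tπ T i V d x = x ∧ ∀ d, d ∉ s → tπ T i V d x = 0 := by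
  classical
  have add : ∀ x x' : Tn T i V,
      (∃ s : Finset (ι → ℤ), ∑ d ∈ s, tπ T i V d x = x ∧ ∀ d, d ∉ s → tπ T i V d x = 0) →
      (∃ s : Finset (ι → ℤ), ∑ d ∈ s, tπ T i V d x' = x' ∧ ∀ d, d ∉ s → tπ T i V d x' = 0) →
      ∃ s : Finset (ι → ℤ), ∑ d ∈ s, tπ T i V d (x + x') = x + x' ∧
        ∀ d, d ∉ s → tπ T i V d (x + x') = 0 := by
    rintro x x' ⟨s, hs, hs'⟩ ⟨t, ht, ht'⟩
    refine ⟨s ∪ t, ?_, fun d hd => ?_⟩
    · simp only [map_add]
      rw [Finset.sum_add_distrib,
        ← Finset.sum_subset Finset.subset_union_left fun d _ hd => hs' d hd,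
        ← Finset.sum_subset Finset.subset_union_right fun d _ hd => ht' d hd, hs, ht]
    · rw [Finset.mem_union, not_or] at hd
      rw [map_add, hs' d hd.1, ht' d hd.2, add_zero]
  induction x using tm_ind with
  | h0 => exact ⟨∅, Finset.sum_empty, fun d _ => map_zero _⟩
  | h2 x x' hx hx' => exact add x x' hx hx'
  | h1 y c v hv =>
    induction y using T.lk_ind with
    | a0 =>
      rw [map_zero, AddMonoidHom.zero_apply]
      exact ⟨∅, Finset.sum_empty, fun d _ => map_zero _⟩
    | a2 y y' hy hy' =>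
      rw [map_add, AddMonoidHom.add_apply]
      exact add _ _ hy hy'
    | a1 γ y hy =>
      refine ⟨{γ + sg i c}, ?_, fun d hd => ?_⟩
      · rw [Finset.sum_singleton, tπ_tm _ y hv, add_sub_cancel_right, hy]
      · rw [Finset.mem_singleton] at hd
        rw [tπ_tm _ y hv, ← hy, T.π_ne _ _ _ fun hh => hd (by rw [← hh, sub_add_cancel]),
          map_zero, AddMonoidHom.zero_apply]

theorem tn_finite (hV : Module.Finite (MvPolynomial σ k ⧸ I) V.M) :
    Module.Finite (S σ k ι) (Tn T i V) := by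
  obtain ⟨s, hs, h⟩ := Submodule.fg_def.1 hV.fg_top
  obtain ⟨t, ht, h'⟩ := Submodule.fg_def.1 T.fg.fg_top
  refine ⟨Submodule.fg_def.2 ⟨_, (ht.prod hs).image fun q => tm T i V q.1 q.2,
    eq_top_iff.2 fun x hx => ?_⟩⟩
  clear hx
  set L := Submodule.span (S σ k ι) ((fun q : T.M × V.M => tm T i V q.1 q.2) '' t ×ˢ s)
  have key : ∀ (v : V.M) (y : T.M), tm T i V y v ∈ L := by
    intro v
    have hv : v ∈ Submodule.span (MvPolynomial σ k ⧸ I) s := h ▸ Submodule.mem_top
    induction hv using Submodule.span_induction with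
    | zero => intro y; rw [map_zero]; exact L.zero_mem
    | add v v' _ _ h1 h2 => intro y; rw [map_add]; exact L.add_mem (h1 y) (h2 y)
    | smul a v _ h1 =>
      intro y
      obtain ⟨f, rfl⟩ := Ideal.Quotient.mk_surjective a
      rw [← tm_bal]; exact h1 _
    | mem v hv =>
      intro y
      have hy : y ∈ Submodule.span (S σ k ι) t := h' ▸ Submodule.mem_top
      induction hy using Submodule.span_induction with
      | zero => rw [map_zero, AddMonoidHom.zero_apply]; exact L.zero_mem
      | add y y' _ _ h1 h2 => rw [map_add, AddMonoidHom.add_apply]; exact L.add_mem h1 h2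
      | smul a y _ h1 => rw [← tm_smul]; exact L.smul_mem a h1
      | mem y hy => exact Submodule.subset_span ⟨(y, v), ⟨hy, hv⟩, rfl⟩
  induction x using tm_ind with
  | h0 => exact L.zero_mem
  | h1 y c v _ => exact key v y
  | h2 x x' hx hx' => exact L.add_mem hx hx'

variable (T i V) in
/-- the tensor product as a multigraded module -/
def tn (hV : Module.Finite (MvPolynomial σ k ⧸ I) V.M) : GM I ι :=
  GM.ofAdd (Tn T i V) (tn_finite hV) (tπ T i V)
    (fun d x => by
      induction x using tm_ind with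
      | h0 => rw [map_zero, map_zero]
      | h2 x x' hx hx' => rw [map_add, map_add, hx, hx']
      | h1 y c v hv => rw [tπ_tm d y hv, tπ_tm d _ hv, T.π_self])
    (fun d e x hde => by
      induction x using tm_ind with
      | h0 => rw [map_zero, map_zero]
      | h2 x x' hx hx' => rw [map_add, map_add, hx, hx', add_zero]
      | h1 y c v hv =>
        rw [tπ_tm e y hv, tπ_tm d _ hv, T.π_ne _ _ _ fun hh => hde (sub_left_injective hh),
          map_zero, AddMonoidHom.zero_apply])
    (fun x => (tπ_sum x).imp fun _ h => h.1)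
    (fun a d x => by
      have h := tπ_smul (isWeightedHomogeneous_C wt a) d x
      rwa [add_zero] at h)
    (fun v => tπ_smul (hg_X v))
    (fun l f hf x => by
      induction x using tm_ind with
      | h0 => rw [smul_zero]
      | h2 x x' hx hx' => rw [smul_add, hx, hx', add_zero]
      | h1 y c v hv => rw [tm_smul, T.kil l f hf, map_zero, AddMonoidHom.zero_apply])

variable {hV : Module.Finite (MvPolynomial σ k ⧸ I) V.M}

variable (T i V hV) in
/-- pure tensors -/
def tt : T.M →+ V.M →+ (tn T i V hV).M := tm T i V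

theorem tt_bal (f : MvPolynomial σ k) (y : T.M) (v : V.M) :
    tt T i V hV ((blk i f : S σ k ι) • y) v = tt T i V hV y (Ideal.Quotient.mk I f • v) :=
  tm_bal f y v

theorem tt_smul (f : S σ k ι) (y : T.M) (v : V.M) :
    f • tt T i V hV y v = tt T i V hV (f • y) v := rfl

theorem tt_ind {p : (tn T i V hV).M → Prop} (h0 : p 0)
    (h1 : ∀ y c v, V.π c v = v → p (tt T i V hV y v))
    (h2 : ∀ x x', p x → p x' → p (x + x')) (x : (tn T i V hV).M) : p x := tm_ind h0 h1 h2 x

theorem tt_lift {X : Type} [AddCommGroup X] (F : T.M →+ V.M →+ X)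
    (hF : ∀ f y v, F ((blk i f : S σ k ι) • y) v = F y (Ideal.Quotient.mk I f • v)) :
    ∃ g : (tn T i V hV).M →+ X, ∀ y v, g (tt T i V hV y v) = F y v := tm_lift F hF

theorem tt_π (γ : ι → ℤ) (y : T.M) {c : ℤ} {v : V.M} (hv : V.π c v = v) :
    (tn T i V hV).π γ (tt T i V hV y v) = tt T i V hV (T.π (γ - sg i c) y) v := tπ_tm γ y hv

theorem tn_map {T' : GM I ι} (f : T.M →ₗ[S σ k ι] T'.M) :
    ∃ F : (tn T i V hV).M →ₗ[S σ k ι] (tn T' i V hV).M,
      ∀ y v, F (tt T i V hV y v) = tt T' i V hV (f y) v := by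
  obtain ⟨g, hg⟩ := tt_lift (i := i) (hV := hV) ((tt T' i V hV).comp f.toAddMonoidHom)
    fun a y v => by
      change tt T' i V hV (f _) v = tt T' i V hV (f y) _
      rw [map_smul, tt_bal]
  have hg' : ∀ y v, g (tt T i V hV y v) = tt T' i V hV (f y) v := hg
  refine ⟨{ toFun := g, map_add' := map_add g, map_smul' := fun a x => ?_ }, hg'⟩
  change g (a • x) = a • g x
  induction x using tt_ind with
  | h0 => simp only [smul_zero, map_zero]
  | h1 y c v _ => rw [tt_smul, hg', hg', tt_smul, map_smul]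
  | h2 x x' hx hx' => rw [smul_add, map_add, map_add, hx, hx', smul_add]

theorem tn_hom {T' : GM I ι} (f : Hom T T') : ∃ F : Hom (tn T i V hV) (tn T' i V hV),
    ∀ y v, F.f (tt T i V hV y v) = tt T' i V hV (f.f y) v := by
  obtain ⟨F, hF⟩ := tn_map (i := i) (hV := hV) f.f
  refine ⟨⟨F, fun d x => ?_⟩, hF⟩
  induction x using tt_ind with
  | h0 => simp only [map_zero]
  | h1 y c v hv => rw [tt_π d y hv, hF, hF, tt_π d _ hv, f.π]
  | h2 x x' hx hx' => simp only [map_add, hx, hx']

end Pool.Agent.Bav
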