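import Pool.Agent.P.MP_dd457d_ag.Bav.LinkB
import Pool.Agent.P.MP_dd457d_ag.Bav.Box
import Pool.Agent.P.MP_dd457d_ag.Bav.Tw

/-! Twists, external products and slices of the tensor product. -/

set_option autoImplicit false

noncomputable section

namespace Pool.Agent.Bav

open MvPolynomial TensorProduct

variable {σ k ι κ : Type} [Field k] {I : Ideal (MvPolynomial σ k)} {T T' : GM I ι} {i : ι}
  {V : CXD.GM (CXD.hom I)} {hV : Module.Finite (MvPolynomial σ k ⧸ I) V.M}

theorem Tw.tn {C A : Type} {P : C → A → S σ k ι} (h : Tw P T T') :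
    Nonempty (Tw P (tn T i V hV) (tn T' i V hV)) := by
  choose j hj using fun a => tn_hom (i := i) (hV := hV) (h.j a)
  choose e he using fun c => tn_map (i := i) (hV := hV) (h.ev c)
  refine ⟨⟨j, e, fun c a x => ?_, fun c a x => ?_⟩⟩
  · induction x using tt_ind with
    | h0 => simp only [map_zero, smul_zero]
    | h1 y c v _ => rw [hj, he, h.ej, tt_smul]
    | h2 x x' hx hx' => rw [map_add, map_add, hx, hx', smul_add]
  · induction x using tt_ind with
    | h0 => simp only [map_zero, smul_zero]
    | h1 y c v _ => rw [he, hj, h.je, tt_smul]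
    | h2 x x' hx hx' => rw [map_add, map_add, hx, hx', smul_add]

theorem tt_C (a : k) (y : T.M) (v : V.M) :
    tt T i V hV y (Ideal.Quotient.mk I (C a) • v) = a • tt T i V hV y v := by
  rw [← tt_bal, algHom_C, ← tt_smul]
  exact GM.C_smul _ a _

theorem toBe_C (a : k) (v : V.M) :
    toBe V hV (Ideal.Quotient.mk I (C a) • v) = a • toBe V hV v := by
  rw [toBe_smul, algHom_C]
  exact GM.C_smul _ a _

theorem tn_box [Finite σ] [Fintype κ] {R : GM I Unit} {x₀ : R.M} (hR : IsCyc (IX I Unit) 0 R x₀)
    {W : GM I κ} {P₀ P : GM I (Unit ⊕ κ)} {j₀ : R.M ⊗[k] W.M ≃ₗ[k] P₀.M}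
    {j : (toB V hV).M ⊗[k] W.M ≃ₗ[k] P.M} (h₀ : IsBox R W P₀ j₀) (h : IsBox (toB V hV) W P j) :
    cls P = cls (tn P₀ (Sum.inl ()) V hV) := by
  let e := toBe V hV
  let b : (toB V hV).M →ₗ[k] W.M →ₗ[k] (tn P₀ (Sum.inl ()) V hV).M :=
    LinearMap.mk₂ k (fun v w => tt P₀ (Sum.inl ()) V hV (j₀ (x₀ ⊗ₜ w)) (e.symm v))
      (fun v v' w => by rw [map_add, map_add])
      (fun a v w => by
        obtain ⟨v, rfl⟩ := e.surjective v
        rw [← toBe_C, e.symm_apply_apply, e.symm_apply_apply, tt_C])
      (fun v w w' => by rw [tmul_add, map_add, map_add, AddMonoidHom.add_apply])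
      (fun a v w => by
        rw [tmul_smul, map_smul, ← GM.C_smul, ← tt_smul, GM.C_smul])
  let g : P.M →ₗ[k] (tn P₀ (Sum.inl ()) V hV).M := TensorProduct.lift b ∘ₗ j.symm.toLinearMap
  have hg : ∀ v w, g (j (e v ⊗ₜ w)) = tt P₀ (Sum.inl ()) V hV (j₀ (x₀ ⊗ₜ w)) v := fun v w => by
    change TensorProduct.lift b (j.symm (j _)) = _
    rw [j.symm_apply_apply]
    rfl
  have hs : ∀ (f : S σ k (Unit ⊕ κ)) x, g (f • x) = f • g x := by
    refine smul_of_X (AlgHom.id k _) g fun v x => ?_
    change g (X v • x) = X v • g x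
    induction x using box_ext j with
    | h0 => simp only [smul_zero, map_zero]
    | h2 x y hx hy => rw [smul_add, map_add, map_add, hx, hy, smul_add]
    | h1 y w =>
      obtain ⟨y, rfl⟩ := e.surjective y
      obtain ⟨l | l, a⟩ := v
      · have h1 := box_smul_inl h (X (l, a)) (e y) w
        rw [rn_X] at h1
        rw [h1, ← blk_X, ← toBe_smul, hg, hg, ← tt_bal, blk_X, tt_smul]
      · have h1 := box_smul_inr h (X (l, a)) (e y) w
        have h2 := box_smul_inr h₀ (X (l, a)) x₀ w
        rw [rn_X] at h1 h2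
        rw [h1, hg, hg, ← h2, tt_smul]
  have hπ : ∀ d x, g (P.π d x) = (tn P₀ (Sum.inl ()) V hV).π d (g x) := by
    intro d x
    induction x using box_ext j with
    | h0 => simp only [map_zero]
    | h2 x y hx hy => simp only [map_add, hx, hy]
    | h1 y w =>
      obtain ⟨y, rfl⟩ := e.surjective y
      refine lk_ind V.π_self V.sum_π (p := fun y => g (P.π d (j (e y ⊗ₜ w))) =
        (tn P₀ (Sum.inl ()) V hV).π d (g (j (e y ⊗ₜ w)))) ?_ ?_ ?_ y
      · simp only [map_zero, zero_tmul]
      · intro c v hv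
        have e2 : (d - sg (Sum.inl ()) c) ∘ Sum.inr = d ∘ Sum.inr := by
          funext l
          simp [sg]
        have e1 : (d - sg (Sum.inl ()) c) ∘ Sum.inl = fun _ : Unit => d (Sum.inl ()) - c := by
          funext l
          simp [sg]
        rw [box_π_tmul h, ← toBe_π, hg, hg, tt_π _ _ hv, box_π_tmul h₀, e1, e2]
        have hx := hR.deg
        rw [neg_zero] at hx
        by_cases hc : d (Sum.inl ()) = c
        · rw [Function.comp_apply, hc, hv, sub_self]
          exact congrArg (fun z => tt P₀ (Sum.inl ()) V hV (j₀ (z ⊗ₜ _)) v) hx.symm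
        · rw [Function.comp_apply, ← hv, V.π_ne _ _ _ hc, map_zero, ← hx,
            R.π_ne _ _ _ fun h => hc (sub_eq_zero.1 (congrFun h ())), zero_tmul, map_zero,
            map_zero, AddMonoidHom.zero_apply]
      · intro v v' hv hv'
        simp only [map_add, add_tmul, hv, hv']
  obtain ⟨s, hs'⟩ := ((LinearMap.toSpanSingleton (S σ k Unit) R.M x₀).restrictScalars
    k).exists_rightInverse_of_surjective (LinearMap.range_eq_top.2 fun y => by
      obtain ⟨f, rfl⟩ := hR.gen y
      exact ⟨f, rfl⟩)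
  have hρ : ∀ (f : S σ k Unit) (v : (toB V hV).M), s (f • x₀) • v = f • v := fun f v => by
    have h1 : s (f • x₀) • x₀ = f • x₀ := LinearMap.congr_fun hs' (f • x₀)
    rw [← sub_eq_zero, ← sub_smul] at h1 ⊢
    exact GM.mem_ann.1 ((toB V hV).IX_le_ann ((hR.ann _).1 h1)) v
  let ρ : V.M → R.M →ₗ[k] (toB V hV).M := fun v =>
    (LinearMap.toSpanSingleton (S σ k Unit) _ (e v)).restrictScalars k ∘ₗ s
  have hρ' : ∀ v (f : S σ k Unit), ρ v (f • x₀) = f • e v := fun v f => hρ f (e v)
  have ind : ∀ p : P₀.M → Prop, p 0 → (∀ f w, p (j₀ (((blk () f : S σ k Unit) • x₀) ⊗ₜ w))) →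
      (∀ x y, p x → p y → p (x + y)) → ∀ z, p z := fun p a0 a1 a2 z =>
    box_ext j₀ a0 (fun r w => by
      obtain ⟨f, rfl⟩ := hR.gen r
      obtain ⟨f, rfl⟩ := blk_surj f
      exact a1 f w) a2 z
  have hl : ∀ (f : MvPolynomial σ k) r w, (blk (Sum.inl ()) f : S σ k (Unit ⊕ κ)) • j₀ (r ⊗ₜ w) =
      j₀ (((blk () f : S σ k Unit) • r) ⊗ₜ w) := fun f r w => by
    rw [← box_smul_inl h₀, rn_blk]
  let F : V.M →+ P₀.M →+ P.M := AddMonoidHom.mk'
    (fun v => (box_lin j₀ j (ρ v) LinearMap.id).toAddMonoidHom) fun v v' =>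
      AddMonoidHom.ext fun y => by
        refine ind (fun y => box_lin j₀ j (ρ (v + v')) LinearMap.id y =
          box_lin j₀ j (ρ v) LinearMap.id y + box_lin j₀ j (ρ v') LinearMap.id y) ?_ ?_ ?_ y
        · simp only [map_zero, add_zero]
        · intro f w
          simp only [box_lin_tmul, hρ', map_add, smul_add, add_tmul]
        · intro x y hx hy
          rw [map_add, map_add, map_add, hx, hy, add_add_add_comm]
  obtain ⟨F₀, hF₀⟩ := tt_lift (i := Sum.inl ()) (hV := hV) F.flip fun f y v => by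
    refine ind (fun y => box_lin j₀ j (ρ v) LinearMap.id
      ((blk (Sum.inl ()) f : S σ k (Unit ⊕ κ)) • y) =
        box_lin j₀ j (ρ (Ideal.Quotient.mk I f • v)) LinearMap.id y) ?_ ?_ ?_ y
    · simp only [smul_zero, map_zero]
    · intro f' w
      rw [hl, smul_smul, box_lin_tmul, box_lin_tmul, hρ', hρ', toBe_smul, smul_smul, mul_comm]
    · intro x y hx hy
      rw [smul_add, map_add, map_add, hx, hy]
  refine cls_iso (Hom.mk' g hs hπ) ⟨Function.LeftInverse.injective (g := F₀) fun x => ?_,
    fun z => ?_⟩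
  · change F₀ (g x) = x
    induction x using box_ext j with
    | h0 => simp only [map_zero]
    | h2 x y hx hy => simp only [map_add, hx, hy]
    | h1 y w =>
      obtain ⟨y, rfl⟩ := e.surjective y
      have h1 := hρ' y 1
      rw [one_smul, one_smul] at h1
      rw [hg, hF₀]
      change box_lin j₀ j (ρ y) LinearMap.id _ = _
      rw [box_lin_tmul, h1]
      rfl
  · change z ∈ LinearMap.range g
    induction z using tt_ind with
    | h0 => exact zero_mem _
    | h2 x y hx hy => exact add_mem hx hy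
    | h1 y c v _ =>
      refine ind (fun y => tt P₀ (Sum.inl ()) V hV y v ∈ LinearMap.range g) ?_ ?_ ?_ y
      · simp only [map_zero, AddMonoidHom.zero_apply, zero_mem]
      · intro f w
        exact ⟨_, (hg _ w).trans (by rw [← hl, tt_bal])⟩
      · intro x y hx hy
        rw [map_add, AddMonoidHom.add_apply]
        exact add_mem hx hy

/-- the pieces of the tensor product are the pieces of the tensor product with a slice -/
theorem tn_hilb {N : GM I Unit} (j : N.M →ₗ[k] T.M) (o : ι → ℤ) (hi : Function.Injective j)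
    (hs : ∀ f x, j ((blk () f : S σ k Unit) • x) = (blk i f : S σ k ι) • j x)
    (hπ : ∀ c x, j (N.π (fun _ => c) x) = T.π (o + sg i c) (j x))
    (hsur : ∀ c x, T.π (o + sg i c) x ∈ LinearMap.range j) (e : ℤ) :
    hilb (tn T i V hV) (o + sg i e) =
      CXD.dimK k (MvPolynomial σ k ⧸ I) (CXD.tpc (backG N) V e) := by
  classical
  obtain ⟨q, hq⟩ := lk_glue (π := fun d => (T.π d).toAddMonoidHom) T.π_ne T.sum_π
    fun d => if ∃ c, d = o + sg i c then AddMonoidHom.id T.M else 0
  have hq1 : ∀ c x, T.π (o + sg i c) x = x → q x = x := fun c x hx => by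
    rw [hq _ x hx, if_pos ⟨c, rfl⟩]
    rfl
  have hq0 : ∀ d x, T.π d x = x → (¬ ∃ c, d = o + sg i c) → q x = 0 := fun d x hx hd => by
    rw [hq _ x hx, if_neg hd]
    rfl
  have hqr : ∀ x, q x ∈ LinearMap.range j := fun x => by
    induction x using T.lk_ind with
    | a0 => rw [map_zero]; exact zero_mem _
    | a2 x y hx hy => rw [map_add]; exact add_mem hx hy
    | a1 d x hx =>
      by_cases hd : ∃ c, d = o + sg i c
      · obtain ⟨c, rfl⟩ := hd
        rw [hq1 c x hx, ← hx]
        exact hsur c x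
      · rw [hq0 d x hx hd]; exact zero_mem _
  have hqj : ∀ y, q (j y) = j y := fun y => by
    induction y using N.lk_ind with
    | a0 => simp only [map_zero]
    | a2 x y hx hy => simp only [map_add, hx, hy]
    | a1 d x hx => exact hq1 (d ()) _ (by rw [← hπ]; exact congrArg j hx)
  have hqs : ∀ f x, q ((blk i f : S σ k ι) • x) = (blk i f : S σ k ι) • q x := fun f x => by
    induction f using hom_ind with
    | h2 a b ha hb => rw [map_add, add_smul, add_smul, map_add, ha, hb]
    | h1 n f hf =>
      induction x using T.lk_ind with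
      | a0 => simp only [smul_zero, map_zero]
      | a2 x y hx hy => rw [smul_add, map_add, map_add, hx, hy, smul_add]
      | a1 d x hx =>
        have h1 := T.π_smul (hg_sg i hf) d x
        rw [hx] at h1
        by_cases hd : ∃ c, d = o + sg i c
        · obtain ⟨c, rfl⟩ := hd
          rw [hq1 c x hx, hq1 (c + n) _ (by rw [map_add, ← add_assoc]; exact h1)]
        · rw [hq0 d x hx hd, smul_zero, hq0 _ _ h1]
          rintro ⟨c, hc⟩
          exact hd ⟨c - n, by rw [map_sub, ← add_sub_assoc, ← hc, add_sub_cancel_right]⟩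
  choose p₀ hp₀ using hqr
  let p : T.M →+ N.M := AddMonoidHom.mk' p₀ fun x y => hi (by
    rw [map_add, hp₀, hp₀, hp₀, map_add])
  have hp : ∀ x, j (p x) = q x := hp₀
  obtain ⟨J, hJ⟩ := tm_lift (T := N) (i := ()) (V := V)
    ((tt T i V hV).comp j.toAddMonoidHom) fun f y v => by
      change tt T i V hV (j _) v = tt T i V hV (j y) _
      rw [hs, tt_bal]
  have hJ' : ∀ y v, J (tm N () V y v) = tt T i V hV (j y) v := hJ
  obtain ⟨Q, hQ⟩ := tt_lift (T := T) (i := i) (hV := hV) ((tm N () V).comp p) fun f y v => by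
    change tm N () V (p _) v = tm N () V (p y) _
    rw [← tm_bal, hi (show j (p ((blk i f : S σ k ι) • y)) = j ((blk () f : S σ k Unit) • p y) by
      rw [hs, hp, hp, hqs])]
  have hQJ : ∀ x, Q (J x) = x := fun x => by
    induction x using tm_ind with
    | h0 => simp only [map_zero]
    | h2 x y hx hy => simp only [map_add, hx, hy]
    | h1 y c v _ =>
      rw [hJ', hQ]
      change tm N () V (p (j y)) v = _
      rw [hi ((hp (j y)).trans (hqj y))]
  let _ : Module k (Tn N () V) := Module.compHom _ (algebraMap k (MvPolynomial σ k ⧸ I))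
  let J' : Tn N () V →ₗ[k] (tn T i V hV).M :=
    { toFun := J
      map_add' := map_add J
      map_smul' := fun a x => by
        change J (Ideal.Quotient.mk I (C a) • x) = a • J x
        induction x using tm_ind with
        | h0 => simp only [smul_zero, map_zero]
        | h2 x y hx hy => rw [smul_add, map_add, map_add, hx, hy, smul_add]
        | h1 y c v _ =>
          rw [hJ', ← tt_C, ← hJ']
          exact congrArg J (tmul_smul _ _ _).symm }
  have hJi : Function.Injective J' := Function.LeftInverse.injective (g := Q) hQJ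
  have e1 : LinearMap.range ((tn T i V hV).π (o + sg i e)) =
      (Submodule.span k (show Set (Tn N () V) from CXD.tpc (backG N) V e)).map J' := by
    rw [Submodule.map_span]
    refine le_antisymm ?_ (Submodule.span_le.2 ?_)
    · rintro _ ⟨z, rfl⟩
      induction z using tt_ind with
      | h0 => rw [map_zero]; exact zero_mem _
      | h2 x y hx hy => rw [map_add]; exact add_mem hx hy
      | h1 y c v hv =>
        obtain ⟨y', hy'⟩ := hsur (e - c) y
        refine Submodule.subset_span ⟨_, ⟨e - c, y', v, rfl⟩, ?_⟩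
        refine (hJ' _ _).trans ?_
        change tt T i V hV (j (N.π (fun _ => e - c) y')) _ = _
        rw [tt_π _ _ hv, hπ, hy', T.π_self, sub_sub_cancel, hv, map_sub, add_sub_assoc]
    · rintro _ ⟨_, ⟨a, y, v, rfl⟩, rfl⟩
      refine ⟨tt T i V hV (j y) (V.π (e - a) v), Eq.trans ?_ (hJ' _ _).symm⟩
      obtain ⟨y, rfl⟩ := (sle N ()).surjective y
      change (tn T i V hV).π _ (tt T i V hV (j y) _) = tt T i V hV (j (N.π (fun _ => a) y)) _
      rw [tt_π _ _ (V.π_self _ v), hπ, add_sub_assoc, ← map_sub, sub_sub_cancel]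
  rw [hilb, e1]
  exact (Submodule.equivMapOfInjective J' hJi _).finrank_eq.symm

end Pool.Agent.Bav
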