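import Pool.Agent.P.MP_dd457d_ag.Bav.NumA
import Pool.Agent.P.MP_dd457d_ag.Bav.PMod
import Pool.Agent.P.MP_2ce3e7_ag.Tav.KMain
import Pool.Agent.P.MP_2ce3e7_ag.Tav.FMain
import Pool.Agent.P.MP_2ce3e7_ag.Tav.PPoly

/-! The numerical input for the point data of a model. -/

set_option autoImplicit false

noncomputable section

namespace Pool.Agent.Bav

open MvPolynomial Function Pool.Agent.Tav

variable {Ω : Type} [Field Ω]

theorem frob_pow {s : Sh} {F : Fib Ω s} {a : s.Λ} {Q : ℕ} (h : F.Frob a Q) (e : ℕ) :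
    F.Frob (a ^ e) (Q ^ e) := fun t => by
  induction e with
  | zero => exact ⟨1, fun _ => one_ne_zero, fun l => by simp⟩
  | succ e ih =>
    obtain ⟨c, hc, h1⟩ := ih
    obtain ⟨d, hd, h2⟩ := h (a ^ e • t)
    refine ⟨fun b => d b * c b ^ Q, fun b => mul_ne_zero (hd b) (pow_ne_zero _ (hc b)),
      fun l => ?_⟩
    rw [pow_succ', mul_smul, h2, Pi.pow_apply, h1, Pi.pow_apply, Pi.pow_apply, mul_pow,
      ← pow_mul, ← pow_succ, mul_assoc]

variable {R : ValuationSubring ℂ} {r : R →+* Ω} {σ : Type} [Fintype σ] {g : ℕ}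

theorem full_pow {X : Model r σ g} {q e : ℕ} (h : X.Full q) : X.Full (q ^ e) := by
  obtain ⟨L, i1, i2, c, h1, h2, h3, h4, σ', i3, g', Y, hL, hU⟩ := h
  refine ⟨L, i1, i2, c, h1, h2, h3, h4, σ', i3, g', Y, hL, hU.sm, hU.max, ?_, hU.all, hU.twist⟩
  obtain ⟨a, ha, n, hn, hf⟩ := hU.frob
  refine ⟨a ^ e, Pp.pow_mem Y ha e, n, hn, fun v => ?_⟩
  rw [← pow_mul, mul_comm e n, pow_mul]
  induction e with
  | zero => simpa using Pp.par_refl _
  | succ e ih =>
    rw [pow_succ', mul_assoc, pow_succ, pow_mul]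
    exact Pp.par_trans (hf _) (Pp.par_pow ih _)

variable {G τ : Type} [AddCommGroup G] [Fintype τ] {X : Model r σ g} {p : G → τ → Ω}
  {ψ : G →+ X.B} {ψ' : X.B →+ G} {m : ℕ}

/-- the inclusion of the order -/
def Isg.inc (h : Isg X p ψ ψ' m) (a : h.Lam) : Tav.EnR X.Λ := ⟨a.1, h.en a⟩

omit [Fintype τ] in
theorem Isg.rho_inc (h : Isg X p ψ ψ' m) (ρ : Fin g ⊕ Fin g) (a : h.Lam) :
    rho h.Lam ρ a = chE X.Λ ρ (h.inc a) := by
  cases ρ <;> rfl

omit [Fintype τ] in
theorem Isg.psi_act (h : Isg X p ψ ψ' m) (a : h.Lam) (y : G) :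
    ψ (h.act a y) = h.inc a • ψ y := by
  obtain ⟨v, hv⟩ := X.onto (ψ y)
  rw [h.act_eqv a y v hv.symm, ← hv, ← X.red_smul]
  rfl

variable [IsAlgClosed Ω]

theorem fB_H (X : Model r σ g) (b : Unit) : X.fB.H b = LS.co X.p X.sp.ne := blk_unit X.sp.ne b

theorem Isg.iso (h : Isg X p ψ ψ' m) : Iso X.fB (LS.co p h.av.ne) ψ ψ' m where
  src := by
    rw [X.sh_n]
    exact h.av.src
  r1 b := by
    rw [fB_H]
    exact Mor.reg h.av.ne X.sp.ne h.mor
  r2 b := by
    rw [funext (fB_H X)]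
    exact Mor.reg X.sp.ne h.av.ne h.mor'
  m0 := h.m0
  comp := h.comp

theorem dd_coeff (X : Model r σ g) {T β ι : Type} [Fintype β] [Fintype ι] {B : β → LS Ω T}
    (hB : Src B X.sh.n) {v : T → X.B} (hv : RegM B X.fB.H v) (L : ι → LS Ω T)
    (u : β ⊕ Unit → ι) (hu : Surjective u)
    (e : Sum.elim B (fun _ : Unit => (LS.co X.p X.sp.ne).pb v) = L ∘ u) :
    X.fB.DD B v = (g.factorial : ℚ) *
      coeff (Finsupp.single (u (Sum.inr ())) g) (hp fun i => (L i).sp) := by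
  have h1 := mix_rep (ν := Fin g) hB (hv ()) le_rfl L u hu (by rw [fB_H]; exact e)
  rw [Fintype.card_fin] at h1
  rw [hp_eq_pf]
  exact h1

theorem Isg.dd1 (h : Isg X p ψ ψ' m) (a : h.Lam) :
    X.fB.DD (fun _ : Unit => LS.co p h.av.ne) (fun y => h.inc a • ψ y) = (g.factorial : ℚ) *
      coeff (Finsupp.single 1 g) (hp ![crd p, crd fun y => X.p (ψ (h.act a y))]) := by
  have e : (![crd p, crd fun y => X.p (ψ (h.act a y))] : Fin 2 → _) = fun i =>
      ((![LS.co p h.av.ne, (LS.co X.p X.sp.ne).pb fun y => h.inc a • ψ y] : Fin 2 → _) i).sp := by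
    funext i
    fin_cases i
    · rfl
    · simp only [h.psi_act, LS.pb_co]
      rfl
  rw [e]
  exact dd_coeff X h.iso.src (h.iso.r1.comp (regM_smul X.fB (h.inc a))) _
    (Sum.elim (fun _ => 0) fun _ => 1)
    (fun i => by fin_cases i; exacts [⟨Sum.inl (), rfl⟩, ⟨Sum.inr (), rfl⟩])
    (funext fun i => by cases i <;> rfl)

theorem Isg.dd2 (h : Isg X p ψ ψ' m) {Z W : Set G}
    (hs : Src (prodB (bz (LS.co p h.av.ne) Z) (bz (LS.co p h.av.ne) W)) X.sh.n) (a b : h.Lam) :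
    X.fB.DD (prodB (bz (LS.co p h.av.ne) Z) (bz (LS.co p h.av.ne) W))
      (fun t : Z × W => h.inc a • ψ t.1 - h.inc b • ψ t.2) = (g.factorial : ℚ) *
      coeff (Finsupp.single 2 g) (hp ![crd fun t : Z × W => p t.1, crd fun t => p t.2,
        crd fun t => X.p (ψ (h.act a t.1 - h.act b t.2))]) := by
  have e : (![crd fun t : Z × W => p t.1, crd fun t => p t.2,
      crd fun t => X.p (ψ (h.act a t.1 - h.act b t.2))] : Fin 3 → _) = fun i =>
      ((![((LS.co p h.av.ne).pb Subtype.val).pb Prod.fst,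
        ((LS.co p h.av.ne).pb Subtype.val).pb Prod.snd, (LS.co X.p X.sp.ne).pb
          fun t : Z × W => h.inc a • ψ t.1 - h.inc b • ψ t.2] : Fin 3 → _) i).sp := by
    funext i
    fin_cases i
    · simp only [LS.pb_co]
      rfl
    · simp only [LS.pb_co]
      rfl
    · simp only [map_sub, h.psi_act, LS.pb_co]
      rfl
  rw [e]
  exact dd_coeff X hs (h.iso.reg2 Z W (h.inc a) (h.inc b)) _
    (Sum.elim (Sum.elim (fun _ => 0) fun _ => 1) fun _ => 2)
    (fun i => by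
      fin_cases i
      exacts [⟨Sum.inl (Sum.inl ()), rfl⟩, ⟨Sum.inl (Sum.inr ()), rfl⟩, ⟨Sum.inr (), rfl⟩])
    (funext fun i => by rcases i with (i | i) | i <;> rfl)

theorem p_Num : S_Num := by
  intro k _ _ G τ σ _ _ _ g p inj F hF R r hr X ψ ψ' m h π e h7
  have hD := X.deg hr
  have hg : ((g.factorial : ℚ) : ℂ) ≠ 0 := by exact_mod_cast g.factorial_ne_zero
  have e1 : (fun y => h.inc 1 • ψ y) = ψ := funext fun y => one_smul _ _
  have n1 : ∀ a, X.fB.DD (fun _ : Unit => LS.co p h.av.ne) (fun y => h.inc a • ψ y) =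
      (g.factorial : ℚ) * (h.pmod k inj hF π e).num1 a := h.dd1
  refine ⟨fun h0 => h.iso.del hD ?_, fun a => ?_, fun S n j hn _ hS => ?_⟩
  · rw [← e1, n1, h0, mul_zero]
  · have h1 := h.iso.deg hD (h.inc a)
    rw [n1 a] at h1
    have h2 := n1 1
    rw [e1] at h2
    rw [h2, Rat.cast_mul, Rat.cast_mul, mul_left_comm] at h1
    simp only [h.rho_inc]
    exact mul_left_cancel₀ hg h1
  · obtain ⟨N, hN, hf⟩ := k_frob (j := g) (j' := 0) (X := X) (π := h.inc π) h.av hF h.mor h.m0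
      h.comp e
    have hf' : X.fB.Frob ((h.inc π ^ n) ^ N) ((Fintype.card k ^ n) ^ N) := by
      rw [← pow_mul, ← pow_mul, mul_comm n N, pow_mul, pow_mul]
      exact frob_pow hf n
    have hQ : ∀ u ≠ 0, FrobF (AlgebraicClosure k) ((Fintype.card k ^ n) ^ u) := fun u hu => by
      rw [← pow_mul]
      exact frobF k (mul_ne_zero hn hu)
    have hT : X.fB.TateAlg (h.inc π ^ n) (Fintype.card k ^ n) := by
      rcases h7 with h7 | h7
      · refine X.ord hr hN (hQ N hN) hf' fun i => ?_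
        change R.valuation (star (π.1 i ^ n)) = 1
        rw [star_pow, map_pow, h7 i, one_pow]
      · exact X.full hr hN hQ hf' (full_pow h7)
    have hA := hT S j (by
      simp only [map_pow, Finset.prod_pow, Nat.cast_pow]
      simpa only [h.rho_inc] using hS)
    obtain ⟨Z, W, c, hc, hs, hZ⟩ := h.iso.alg hD hA
    refine ⟨Z, W, fun T => ((g.factorial : ℚ) : ℂ)⁻¹ * c T, mul_ne_zero (inv_ne_zero hg) hc,
      fun a b => ?_⟩
    have h1 := hZ (h.inc a) (h.inc b)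
    rw [h.dd2 hs a b, Rat.cast_mul] at h1
    refine ((eq_inv_mul_iff_mul_eq₀ hg).2 h1).trans ?_
    rw [Finset.mul_sum]
    refine Finset.sum_congr rfl fun T _ => ?_
    simp only [h.rho_inc]
    ring

theorem p_Model : S_Model := model_of_num p_Num

end Pool.Agent.Bav
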