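import Pool.Agent.P.MP_dd457d_ag.Bav.KPkg
import Pool.Agent.P.MP_dd457d_ag.Bav.Num
import Pool.Agent.P.MP_dd457d_ag.Bav.CalcC
import Pool.Agent.P.MP_dd457d_ag.Bav.DescB
import Pool.Agent.P.MP_dd457d_ag.Bav.Idk

/-! The main theorem. -/

set_option autoImplicit false

namespace Pool.Agent.Bav

theorem p_Desc : S_Desc := fun k Ω _ _ _ _ _ _ J _ h => Desc.numTors_alg k Ω J h

theorem main : Main := main_of p_Model p_Pkg p_Calc p_Desc p_Idk

end Pool.Agent.Bav
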