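import Pool.Agent.P.MP_2ce3e7_ag.Tav.AMain
import Pool.Agent.P.MP_2ce3e7_ag.Tav.APush

/-! Degrees on a variety that is isogenous to a fibre. -/

set_option autoImplicit false

noncomputable section

namespace Pool.Agent.Bav

open MvPolynomial Function Pool.Agent.Tav

variable {Ω : Type} [Field Ω]

/-- a repeated slot as a coefficient of the Hilbert polynomial -/
theorem mix_rep {T β ν ι : Type} [Fintype β] [Fintype ν] [Fintype ι] {B : β → LS Ω T}
    {V : LS Ω T} {n : ℕ} (hB : Src B n) (hV : Reg B V) (hn : n ≤ Fintype.card ν)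
    (L : ι → LS Ω T) (u : β ⊕ Unit → ι) (hu : Surjective u)
    (e : Sum.elim B (fun _ : Unit => V) = L ∘ u) :
    mix B (fun _ : ν => V) = ((Fintype.card ν).factorial : ℚ) *
      coeff (Finsupp.single (u (Sum.inr ())) (Fintype.card ν)) (pf fun i => (L i).sp) := by
  classical
  have h1 : mix B (fun _ : ν => V) = nc (Finsupp.single (Sum.inr ()) (Fintype.card ν))
      (pL (Sum.elim B fun _ : Unit => V)) := by
    cases isEmpty_or_nonempty ν with
    | inl h =>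
      have h0 : Fintype.card ν = 0 := Fintype.card_eq_zero
      have := nc_forget (W := fun _ : Unit => V) hB (fun _ => hV) (f := fun _ : ν => ())
        (fun a => isEmptyElim a) 0 (by simpa [h0] using hn)
      rw [Finsupp.mapDomain_zero] at this
      rw [h0, Finsupp.single_zero, this, mix_eq_nc, slots, Finset.univ_eq_empty, Finset.sum_empty]
      rfl
    | inr h =>
      obtain ⟨a⟩ := h
      have := mix_comp B (fun _ : Unit => V) (g := fun _ : ν => ()) fun _ => ⟨a, rfl⟩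
      refine this.trans ?_
      rw [Finset.sum_const, Finset.card_univ, Finsupp.smul_single, smul_eq_mul, mul_one]
  rw [h1, e]
  refine (nc_pf_comp (fun i => (L i).sp) hu _).trans ?_
  rw [Finsupp.mapDomain_single, nc_apply, Finsupp.prod_single_index (by simp)]

variable {s : Sh} {F : Fib Ω s}

theorem regM_smul (F : Fib Ω s) (a : s.Λ) : RegM F.H F.H fun t => a • t := F.smul a

theorem dd_id (F : Fib Ω s) : F.DD F.H id = mix F.H (F.H ∘ s.sl) := by
  simp only [Fib.DD, LS.pb_id]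
  rfl

theorem deg_smul (hF : F.Deg) (a : s.Λ) :
    ∃ r : ℚ, (r : ℂ) = Det.nm s.χ a ∧ Deg F.H F.H (fun t => a • t) s.n r := by
  have h0 : mix F.H (F.H ∘ s.sl) ≠ 0 := F.top
  have h1 := hF a
  rw [dd_id] at h1
  refine ⟨F.DD F.H (fun t => a • t) / mix F.H (F.H ∘ s.sl), ?_, ?_⟩
  · rw [Rat.cast_div, h1, mul_div_cancel_right₀ _ (Rat.cast_ne_zero.2 h0)]
  · exact deg_of_ne F.src F.src (regM_smul F a) (W := F.H ∘ s.sl) le_rfl
      (fun k => Reg.self F.H _) h0 (div_mul_cancel₀ _ h0).symm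

/-- a variety with regular maps to and from the fibre whose composite is multiplication by `m` -/
structure Iso (F : Fib Ω s) {G : Type} [AddCommGroup G] (A : LS Ω G) (ψ : G →+ F.G)
    (ψ' : F.G →+ G) (m : ℕ) : Prop where
  src : Src (fun _ : Unit => A) s.n
  r1 : RegM (fun _ : Unit => A) F.H ψ
  r2 : RegM F.H (fun _ : Unit => A) ψ'
  m0 : m ≠ 0
  comp : ∀ b, ψ (ψ' b) = m • b

variable {G : Type} [AddCommGroup G] {A : LS Ω G} {ψ : G →+ F.G} {ψ' : F.G →+ G} {m : ℕ}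

theorem nm_nat {m : ℕ} (hm : m ≠ 0) : Det.nm s.χ (m : s.Λ) ≠ 0 := by
  simp only [Det.nm, map_natCast]
  exact Finset.prod_ne_zero_iff.2 fun _ _ => Nat.cast_ne_zero.2 hm

theorem Iso.del (h : Iso F A ψ ψ' m) (hF : F.Deg) : F.DD (fun _ : Unit => A) ψ ≠ 0 := by
  obtain ⟨r, hr⟩ := exists_deg h.src F.src h.r1
  obtain ⟨r', hr'⟩ := exists_deg F.src h.src h.r2
  have h0 : mix F.H (F.H ∘ s.sl) ≠ 0 := F.top
  have h1 := hr'.comp hr h.r1 s.ν (F.H ∘ s.sl) le_rfl fun k => Reg.self F.H _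
  have e : (ψ ∘ ψ' : F.G → F.G) = fun t => (m : s.Λ) • t := funext fun t => by
    rw [Nat.cast_smul_eq_nsmul]
    exact h.comp t
  rw [e] at h1
  have h2 := hF (m : s.Λ)
  rw [dd_id] at h2
  have h3 : F.DD F.H (fun t => (m : s.Λ) • t) ≠ 0 := fun h4 => by
    rw [h4, Rat.cast_zero] at h2
    exact mul_ne_zero (nm_nat h.m0) (Rat.cast_ne_zero.2 h0) h2.symm
  have h5 : (r : ℚ) ≠ 0 := fun h6 => h3 (h1.trans (by rw [h6, mul_zero, zero_mul]))
  have h7 := hr s.ν (F.H ∘ s.sl) le_rfl fun k => Reg.self F.H _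
  exact fun h8 => mul_ne_zero h5 h0 (h7.symm.trans h8)

theorem Iso.deg (h : Iso F A ψ ψ' m) (hF : F.Deg) (a : s.Λ) :
    (F.DD (fun _ : Unit => A) (fun y => a • ψ y) : ℂ) =
      Det.nm s.χ a * (F.DD (fun _ : Unit => A) ψ : ℚ) := by
  obtain ⟨r, hr, d⟩ := deg_smul hF a
  have := d.mulc h.src F.src h.r1 (regM_smul F a) (W := F.H ∘ s.sl) le_rfl
    fun k => Reg.self F.H _
  rw [← hr, ← Rat.cast_mul]
  exact congrArg _ this

theorem regM_sub {T β : Type} [Fintype β] {B : β → LS Ω T} {u v : T → F.G} (hu : RegM B F.H u)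
    (hv : RegM B F.H v) : RegM B F.H fun t => u t - v t :=
  (hu.pair hv).comp (i := fun t : F.G × F.G => t.1 - t.2) F.sub

/-- the base of a subset -/
abbrev bz (A : LS Ω G) (Z : Set G) : Unit → LS Ω Z := fun _ => A.pb Subtype.val

omit [AddCommGroup G] in
theorem src_range {T β : Type} [Fintype β] {B : β → LS Ω T} {n : ℕ} (hB : Src B n) {u : T → G}
    (hu : RegM B (fun _ : Unit => A) u) :
    Src (bz A (Set.range u)) n ∧ RegM B (bz A (Set.range u)) (Set.rangeFactorization u) := by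
  have h1 : RegM B (bz A (Set.range u)) (Set.rangeFactorization u) := fun k => by
    rw [LS.pb_pb]
    exact hu k
  exact ⟨(Dense.of_surj Set.rangeFactorization_surjective _).src.1 (hB.of_reg h1), h1⟩

theorem Iso.reg2 (h : Iso F A ψ ψ' m) (Z W : Set G) (a b : s.Λ) :
    RegM (prodB (bz A Z) (bz A W)) F.H fun t : Z × W => a • ψ t.1 - b • ψ t.2 :=
  regM_sub
    ((((RegM.fst _ _).comp (RegM.restrict (fun _ : Unit => A) Subtype.val)).comp h.r1).comp
      (regM_smul F a))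
    ((((RegM.snd _ _).comp (RegM.restrict (fun _ : Unit => A) Subtype.val)).comp h.r1).comp
      (regM_smul F b))

theorem Iso.alg (h : Iso F A ψ ψ' m) (hF : F.Deg) {S : Finset s.Γ}
    (hS : F.AlgS S) : ∃ (Z W : Set G) (c : Finset s.Γ → ℂ), c S ≠ 0 ∧
      Src (prodB (bz A Z) (bz A W)) s.n ∧ ∀ a b : s.Λ,
      (F.DD (prodB (bz A Z) (bz A W)) (fun t : Z × W => a • ψ t.1 - b • ψ t.2) : ℂ) =
        ∑ T, (∏ r ∈ T, s.χ r a) * (∏ r ∈ Tᶜ, s.χ r b) * c T := by
  obtain ⟨j, j', hj, -, Z, W, hp⟩ := hS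
  obtain ⟨s1, r1⟩ := src_range Z.src (RegM.comp (C := F.H) Z.reg h.r2)
  obtain ⟨s2, r2⟩ := src_range W.src (RegM.comp (C := F.H) W.reg h.r2)
  have s3 : Src (prodB (bz A (Set.range (ψ' ∘ W.z))) (bz A (Set.range (ψ' ∘ Z.z)))) s.n := by
    rw [← hj, add_comm]
    exact s2.prod s1
  have s4 : Src (prodB Z.B W.B) s.n := by
    rw [← hj]
    exact Z.src.prod W.src
  obtain ⟨r, hr⟩ := exists_deg s4 s3
    (((RegM.snd Z.B W.B).comp r2).pair ((RegM.fst Z.B W.B).comp r1))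
  have key : ∀ a b : s.Λ, Fib.D Z W (-(b * m)) (a * m) = r * F.DD
      (prodB (bz A (Set.range (ψ' ∘ W.z))) (bz A (Set.range (ψ' ∘ Z.z))))
      (fun t => a • ψ t.1 - b • ψ t.2) := fun a b => by
    refine Eq.trans ?_ (hr s.ν _ le_rfl fun k => h.reg2 _ _ a b (s.sl k))
    simp only [Fib.D, Fib.DD, LS.pb_pb]
    congr 1
    funext i
    congr 1
    funext t
    change _ = a • ψ (ψ' (W.z t.2)) - b • ψ (ψ' (Z.z t.1))
    simp only [h.comp, neg_smul, mul_smul, Nat.cast_smul_eq_nsmul]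
    exact neg_add_eq_sub _ _
  have exp : ∀ a b : s.Λ, (Fib.D Z W (-(b * m)) (a * m) : ℂ) =
      ∑ T, (∏ r ∈ T, s.χ r a) * (∏ r ∈ Tᶜ, s.χ r b) *
        ((-1) ^ Tᶜ.card * Det.nm s.χ (m : s.Λ) * Fib.pS Z W T) := fun a b => by
    rw [Fib.exp hF hj]
    refine Finset.sum_congr rfl fun T _ => ?_
    simp only [Det.mon, Det.nm, map_neg, map_mul, Finset.prod_neg, Finset.prod_mul_distrib]
    rw [← Finset.prod_mul_prod_compl T fun ρ => s.χ ρ (m : s.Λ)]
    ring
  have hc : ∀ T, Fib.pS Z W T ≠ 0 →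
      (-1) ^ Tᶜ.card * Det.nm s.χ (m : s.Λ) * Fib.pS Z W T ≠ 0 := fun T hT =>
    mul_ne_zero (mul_ne_zero (pow_ne_zero _ (neg_ne_zero.2 one_ne_zero)) (nm_nat h.m0)) hT
  have hr0 : (r : ℂ) ≠ 0 := fun h0 => by
    have h1 : r = 0 := Nat.cast_eq_zero.1 h0
    have := Det.uniq s.bas s.inj
      (fun T => (-1) ^ Tᶜ.card * Det.nm s.χ (m : s.Λ) * Fib.pS Z W T) 0 fun x y _ _ => by
        have h2 := exp y x
        rw [key, h1, Nat.cast_zero, zero_mul, Rat.cast_zero] at h2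
        simp only [Pi.zero_apply, zero_mul, Finset.sum_const_zero]
        rw [h2]
        exact Finset.sum_congr rfl fun T _ => by rw [Det.mon]; ring
    exact hc S hp (congrFun this S)
  refine ⟨_, _, fun T => (r : ℂ)⁻¹ * ((-1) ^ Tᶜ.card * Det.nm s.χ (m : s.Λ) * Fib.pS Z W T),
    mul_ne_zero (inv_ne_zero hr0) (hc S hp), s3, fun a b => ?_⟩
  have h3 := exp a b
  rw [key, Rat.cast_mul, Rat.cast_natCast] at h3
  rw [(eq_inv_mul_iff_mul_eq₀ hr0).2 h3, Finset.mul_sum]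
  exact Finset.sum_congr rfl fun T _ => by ring

end Pool.Agent.Bav
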