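import Pool.Agent.P.MP_dd457d_ag.Bav.Cyc
import Pool.Agent.P.MP_dd457d_ag.Bav.Ext

/-! Shift operators on the Grothendieck group, their unipotence, and extrapolation to degree zero. -/

set_option autoImplicit false

noncomputable section

namespace Pool.Agent.Bav

open MvPolynomial Filter

variable {σ k ι : Type} [Field k] {I : Ideal (MvPolynomial σ k)}

/-- shift of a homomorphism -/
def Hom.sh {M N : GM I ι} (f : Hom M N) (n : ι → ℤ) : Hom (M.sh n) (N.sh n) :=
  ⟨f.f, fun _ x => f.π _ x⟩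

theorem Tors.sh {M : GM I ι} (h : Tors M) (n : ι → ℤ) : Tors (M.sh n) := by
  obtain ⟨d₀, h⟩ := h
  exact ⟨d₀ - n, fun d hd => h _ (sub_le_iff_le_add.1 hd)⟩

theorem exists_shG (I : Ideal (MvPolynomial σ k)) (n : ι → ℤ) :
    ∃ F : G I ι →ₗ[ℂ] G I ι, ∀ M, F (cls M) = cls (M.sh n) :=
  exists_lift (fun M => cls (M.sh n))
    (fun _ _ _ f g h => cls_ses (f := f.sh n) (g := g.sh n) h) fun _ h => cls_tors (h.sh n)

/-- the shift of the grading on classes -/
def shG (n : ι → ℤ) : Module.End ℂ (G I ι) := (exists_shG I n).choose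

theorem shG_cls (n : ι → ℤ) (M : GM I ι) : shG n (cls M) = cls (M.sh n) :=
  (exists_shG I n).choose_spec M

variable [Finite σ] [Fintype ι]

theorem shG_zero : shG (0 : ι → ℤ) = (1 : Module.End ℂ (G I ι)) :=
  G.ext fun M => by
    rw [shG_cls]
    exact cls_iso (M := M.sh 0) (N := M)
      ⟨LinearMap.id, fun d x => by change M.π (d + 0) x = M.π d x; rw [add_zero]⟩
      Function.bijective_id

theorem shG_zero_apply (x : G I ι) : shG (0 : ι → ℤ) x = x := by rw [shG_zero]; rfl

theorem shG_shG (n n' : ι → ℤ) (x : G I ι) : shG n (shG n' x) = shG (n + n') x := by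
  have : (shG n).comp (shG n') = (shG (n + n') : Module.End ℂ (G I ι)) := G.ext fun M => by
    rw [LinearMap.comp_apply, shG_cls, shG_cls, shG_cls]
    exact cls_iso (M := (M.sh n').sh n) (N := M.sh (n + n'))
      ⟨LinearMap.id, fun d x => by
        change M.π (d + n + n') x = M.π (d + (n + n')) x; rw [add_assoc]⟩
      Function.bijective_id
  exact LinearMap.congr_fun this x

theorem shG_add (n n' : ι → ℤ) :
    shG (n + n') = (shG n * shG n' : Module.End ℂ (G I ι)) :=
  LinearMap.ext fun x => (shG_shG n n' x).symm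

theorem shG_comm (n n' : ι → ℤ) (x : G I ι) : shG n (shG n' x) = shG n' (shG n x) := by
  rw [shG_shG, shG_shG, add_comm]

theorem shG_inj (n : ι → ℤ) : Function.Injective (shG n : G I ι → G I ι) := fun x y h => by
  have := congrArg (shG (-n)) h
  rwa [shG_shG, shG_shG, neg_add_cancel, shG_zero_apply, shG_zero_apply] at this

theorem shG_cy {J : Ideal (S σ k ι)} (hJ : GrI J) (hF : IX I ι ≤ J) (n n' : ι → ℤ) :
    shG n' (cy I J n) = cy I J (n + n') := by
  obtain ⟨M, x, h, h'⟩ := exists_cy hJ hF n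
  rw [h', shG_cls, (h.sh n').cls_eq]

omit [Finite σ] [Fintype ι] in
/-- multiplication by a variable -/
def sh_mulX (M : GM I ι) (v : ι × σ) : Hom M (M.sh (wt v)) :=
  ⟨LinearMap.lsmul (S σ k ι) M.M (X v), fun d x => (M.π_X v d x).symm⟩

/-- kernel and cokernel of the multiplication by a variable -/
theorem sh_step (M : GM I ι) (v : ι × σ) : ∃ K Q : GM I ι,
    M.ann ≤ K.ann ∧ M.ann ≤ Q.ann ∧ (X v : S σ k ι) ∈ K.ann ∧ (X v : S σ k ι) ∈ Q.ann ∧
      shG (wt v) (cls M) - cls M = cls Q - cls K := by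
  refine ⟨M.sub _ (sh_mulX M v).gr_ker, (M.sh (wt v)).quo _ (sh_mulX M v).gr_range,
    fun f hf => GM.mem_ann.2 fun x => Subtype.ext (GM.mem_ann.1 hf x.1),
    fun f hf => GM.mem_ann.2 fun x => ?_, GM.mem_ann.2 fun x => Subtype.ext x.2,
    GM.mem_ann.2 fun x => ?_, ?_⟩
  · obtain ⟨y, rfl⟩ := (LinearMap.range (sh_mulX M v).f).mkQ_surjective x
    have h : f • y = 0 := GM.mem_ann.1 hf y
    change f • (LinearMap.range (sh_mulX M v).f).mkQ y = 0
    rw [← map_smul, h, map_zero]
  · obtain ⟨y, rfl⟩ := (LinearMap.range (sh_mulX M v).f).mkQ_surjective x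
    change (X v : S σ k ι) • (LinearMap.range (sh_mulX M v).f).mkQ y = 0
    rw [← map_smul]
    exact (Submodule.Quotient.mk_eq_zero _).2 ⟨y, rfl⟩
  · have h := cls_ker_coker (sh_mulX M v)
    rw [shG_cls]
    rw [sub_eq_sub_iff_sub_eq_sub] at h
    rw [← neg_sub, h, neg_sub]

variable [DecidableEq ι]

theorem sh_nil_aux (i : ι) (s : Finset σ) : ∀ M : GM I ι,
    (∀ a ∉ s, (X (i, a) : S σ k ι) ∈ M.ann) →
      ((shG (Pi.single i 1) - 1 : Module.End ℂ (G I ι)) ^ s.card) (cls M) = 0 := by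
  classical
  induction s using Finset.induction_on with
  | empty =>
    intro M h
    exact cls_irr (irr_of_block i fun a => ⟨1, by
      rw [pow_one]; exact h a (Finset.notMem_empty a)⟩)
  | insert a s ha ih =>
    intro M h
    obtain ⟨K, Q, hK, hQ, hK', hQ', e⟩ := sh_step M (i, a)
    have key : ∀ P : GM I ι, M.ann ≤ P.ann → (X (i, a) : S σ k ι) ∈ P.ann →
        ∀ b ∉ s, (X (i, b) : S σ k ι) ∈ P.ann := fun P h1 h2 b hb => by
      by_cases e : b = a
      · rwa [e]
      · exact h1 (h b fun h' => (Finset.mem_insert.1 h').elim e hb)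
    rw [wt_eq_single] at e
    rw [Finset.card_insert_of_notMem ha, pow_succ, Module.End.mul_apply, LinearMap.sub_apply,
      Module.End.one_apply, e, map_sub, ih Q (key Q hQ hQ'), ih K (key K hK hK'), sub_zero]

/-- the shifts are unipotent -/
theorem shG_nil (i : ι) :
    (shG (Pi.single i 1) - 1 : Module.End ℂ (G I ι)) ^ Nat.card σ = 0 := by
  cases nonempty_fintype σ
  rw [Nat.card_eq_fintype_card]
  exact G.ext fun M => sh_nil_aux i Finset.univ M fun a ha => absurd (Finset.mem_univ a) ha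

theorem dl_pow_shG (i : ι) (x : G I ι) : (dl i ^ Nat.card σ) (fun d => shG d x) = 0 :=
  funext fun d => by
    rw [dl_pow_op i _ (shG (Pi.single i 1)) _ fun d => by rw [shG_shG, add_comm], shG_nil]
    rfl

/-- orbits of the shifts are of polynomial type -/
theorem isP_shG (x : G I ι) : IsP fun d => shG d x := ⟨_, fun i => dl_pow_shG i x⟩

variable {V : Type*} [AddCommGroup V] [Module ℂ V]

omit [DecidableEq ι] in
/-- two values agree if they agree after all large shifts -/
theorem eq_of_ev {F F' : G I ι →ₗ[ℂ] V} {x : G I ι}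
    (h : ∀ᶠ d in atTop, F (shG d x) = F' (shG d x)) : F x = F' x := by
  classical
  have := congrFun (((isP_shG x).comp F).uniq ((isP_shG x).comp F') h) 0
  simpa only [shG_zero_apply] using this

omit [DecidableEq ι] in
theorem G.ext_ev {F F' : G I ι →ₗ[ℂ] V}
    (h : ∀ M, ∀ᶠ d in atTop, F (shG d (cls M)) = F' (shG d (cls M))) : F = F' :=
  G.ext fun M => eq_of_ev (h M)

omit [DecidableEq ι] in
/-- extrapolation of an additive function of large shifts -/
theorem exists_ev (s : (ι → ℤ) → GM I ι → V)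
    (h1 : ∀ (M N P : GM I ι) (f : Hom M N) (g : Hom N P), SES f g →
      ∀ᶠ d in atTop, s d N = s d M + s d P)
    (h2 : ∀ M, Tors M → ∀ᶠ d in atTop, s d M = 0)
    (h3 : ∀ M n, ∀ᶠ d in atTop, s d (M.sh n) = s (d + n) M) :
    ∃ F : G I ι →ₗ[ℂ] V, ∀ M, ∀ᶠ d in atTop, F (shG d (cls M)) = s d M := by
  classical
  let E : Submodule ℂ ((ι → ℤ) → V) :=
    { carrier := {h | ∀ᶠ d in atTop, h d = 0}
      add_mem' := fun ha hb => (ha.and hb).mono fun d h => by
        rw [Pi.add_apply, h.1, h.2, add_zero]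
      zero_mem' := Eventually.of_forall fun _ => rfl
      smul_mem' := fun c _ ha => ha.mono fun d h => by rw [Pi.smul_apply, h, smul_zero] }
  have mE : ∀ h h', E.mkQ h = E.mkQ h' ↔ ∀ᶠ d in atTop, h d = h' d := fun h h' =>
    (Submodule.Quotient.eq E).trans
      ⟨fun e => Eventually.mono e fun _ => sub_eq_zero.1, fun e => e.mono fun _ => sub_eq_zero.2⟩
  obtain ⟨Φ, hΦ⟩ := exists_lift (fun M : GM I ι => E.mkQ fun d => s d M)
    (fun M N P f g h => by rw [← map_add]; exact (mE _ _).2 (h1 M N P f g h))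
    fun M h => by rw [← map_zero E.mkQ]; exact (mE _ _).2 (h2 M h)
  have trE : ∀ n, E ≤ E.comap (tr n) := fun n h hh =>
    (tendsto_atTop_add_const_right atTop n tendsto_id).eventually hh
  have hT : ∀ n x h, E.mkQ h = Φ x → E.mkQ (tr n h) = Φ (shG n x) := fun n x h e => by
    have : Φ.comp (shG n) = (E.mapQ E (tr n) (trE n)).comp Φ := G.ext fun M => by
      rw [LinearMap.comp_apply, LinearMap.comp_apply, shG_cls, hΦ, hΦ]
      exact (mE _ (tr n fun d => s d M)).2 (h3 M n)
    have e2 := LinearMap.congr_fun this x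
    rw [LinearMap.comp_apply, LinearMap.comp_apply, ← e] at e2
    exact e2.symm
  have hD : ∀ (i : ι) (N : ℕ) x h, E.mkQ h = Φ x → E.mkQ ((dl i ^ N) h) =
      Φ (((shG (Pi.single i 1) - 1 : Module.End ℂ (G I ι)) ^ N) x) := fun i N => by
    induction N with
    | zero => exact fun _ _ e => e
    | succ N ih =>
      intro x h e
      rw [pow_succ, pow_succ, Module.End.mul_apply, Module.End.mul_apply]
      refine ih _ _ ?_
      rw [dl, LinearMap.sub_apply, LinearMap.sub_apply, map_sub, map_sub, hT _ _ _ e]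
      exact congrArg _ e
  have ex : ∀ x, ∃ g, IsP g ∧ E.mkQ g = Φ x := fun x => by
    obtain ⟨h, e⟩ := E.mkQ_surjective (Φ x)
    have h4 : ∀ᶠ d in atTop, ∀ i, (dl i ^ Nat.card σ) h d = 0 := eventually_all.2 fun i => by
      have := hD i (Nat.card σ) x h e
      rw [shG_nil, LinearMap.zero_apply, map_zero, ← map_zero E.mkQ] at this
      exact (mE _ _).1 this
    obtain ⟨a, ha⟩ := eventually_atTop.1 h4
    obtain ⟨g, g1, g2⟩ := exists_ext (h := h) (a := a) fun i y hy => ha y hy i
    exact ⟨g, ⟨_, g1⟩, ((mE _ _).2 (eventually_atTop.2 ⟨a, g2⟩)).trans e⟩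
  choose p p1 p2 using ex
  have un : ∀ x g, IsP g → E.mkQ g = Φ x → p x = g := fun x g a b =>
    (p1 x).uniq a ((mE _ _).1 ((p2 x).trans b.symm))
  refine ⟨{ toFun := fun x => p x 0
            map_add' := fun x y => congrFun (un (x + y) (p x + p y) ((p1 x).add (p1 y))
              (by rw [map_add, map_add, p2, p2])) 0
            map_smul' := fun c x => congrFun (un (c • x) (c • p x) ((p1 x).smul c)
              (by rw [map_smul, map_smul, p2])) 0 }, fun M => ?_⟩
  refine ((mE _ _).1 ((p2 (cls M)).trans (hΦ M))).mono fun d hd => ?_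
  have := congrFun (un (shG d (cls M)) (tr d (p (cls M))) ((p1 _).tr d) (hT d _ _ (p2 _))) 0
  rw [tr_apply, zero_add, hd] at this
  exact this

/-- a function of polynomial type that is eventually right is right -/
theorem ev_of_isP {F : G I ι →ₗ[ℂ] V} {x : G I ι} {h g : (ι → ℤ) → V}
    (hF : ∀ᶠ d in atTop, F (shG d x) = h d) (hg : IsP g) (e : ∀ᶠ d in atTop, g d = h d)
    (d : ι → ℤ) : F (shG d x) = g d :=
  congrFun (((isP_shG x).comp F).uniq hg ((hF.and e).mono fun _ a => a.1.trans a.2.symm)) d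

/-- a recurrence on a cone gives the value on the whole cone -/
theorem ev_of_cone {F : G I ι →ₗ[ℂ] V} {x : G I ι} {h : (ι → ℤ) → V}
    (hF : ∀ᶠ d in atTop, F (shG d x) = h d) {N : ℕ} {a : ι → ℤ}
    (hh : ∀ i y, a ≤ y → (dl i ^ N) h y = 0) {d : ι → ℤ} (hd : a ≤ d) : F (shG d x) = h d := by
  obtain ⟨g, g1, g2⟩ := exists_ext hh
  rw [ev_of_isP hF ⟨N, g1⟩ (eventually_atTop.2 ⟨a, g2⟩), g2 d hd]

end Pool.Agent.Bav
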