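import Pool.Agent.P.MP_dd457d_ag.Bav.Box
import Pool.Agent.P.MP_dd457d_ag.Bav.Sh

/-! Shifts, Frobenius maps and renamings. -/

set_option autoImplicit false

noncomputable section

namespace Pool.Agent.Bav

open MvPolynomial

variable {σ k ι κ : Type} [Field k] {I : Ideal (MvPolynomial σ k)}

/-- renaming with a shift -/
def reD (I : Ideal (MvPolynomial σ k)) (f : ι → κ) (hf : Function.Injective f) (o : κ → ℤ) :
    PD I ι κ where
  τ := f
  inj := hf
  c _ := 1
  c_ne _ := one_ne_zero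
  q _ := 1
  q_pos _ := one_pos
  o := o
  fer := by
    intro i g hg
    have h : phi f (fun _ : ι × σ => (1 : k)) (fun _ => 1) = rn f := by
      ext1 v
      simp [phi, rn_X]
    rw [h, rn_blk]
    exact blk_mem _ hg

theorem reD_φ (f : ι → κ) (hf : Function.Injective f) (o : κ → ℤ) :
    (reD I f hf o).φ = rn f := by
  ext1 v
  simp [PD.φ_X, reD, rn_X]

theorem Ops_pow_card [Fintype k] {A : Type} [CommRing A] [Algebra k A]
    (θ θ' : MvPolynomial σ k →ₐ[k] A) (s : ℕ)
    (h : ∀ a, θ' (X a) = θ (X a) ^ Fintype.card k ^ s) (f : MvPolynomial σ k) :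
    θ' f = θ f ^ Fintype.card k ^ s := by
  obtain ⟨p, hp, n, hpp, hn⟩ := FiniteField.card' k
  have : Fact p.Prime := ⟨hpp⟩
  cases subsingleton_or_nontrivial A
  · exact Subsingleton.elim _ _
  have : CharP A p := charP_of_injective_algebraMap (algebraMap k A).injective p
  induction f using MvPolynomial.induction_on with
  | C a => rw [algHom_C, algHom_C, ← map_pow, FiniteField.pow_card_pow]
  | add g g' h1 h2 => rw [map_add, map_add, h1, h2, hn, ← pow_mul, add_pow_char_pow]
  | mul_X g v h1 => rw [map_mul, map_mul, h1, h, mul_pow]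

/-- Frobenius map over a finite field -/
def frD [Fintype k] (I : Ideal (MvPolynomial σ k)) (s : ι → ℕ) : PD I ι ι where
  τ := id
  inj := Function.injective_id
  c _ := 1
  c_ne _ := one_ne_zero
  q i := Fintype.card k ^ s i
  q_pos _ := pow_pos Fintype.card_pos _
  o := 0
  fer := by
    intro i f hf
    have h := Ops_pow_card (blk i : MvPolynomial σ k →ₐ[k] S σ k ι)
      ((phi id (fun _ => (1 : k)) fun i => Fintype.card k ^ s i).comp (blk i)) (s i)
      (fun a => by simp [phi]) f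
    rw [AlgHom.comp_apply] at h
    rw [h]
    exact Ideal.pow_mem_of_mem _ (blk_mem i hf) _ (pow_pos Fintype.card_pos _)

theorem Ops_re_X (f : ι → κ) (hf : Function.Injective f) (o : κ → ℤ) (v : ι × σ) :
    (reD I f hf o).φ (X v) = X (f v.1, v.2) := by rw [reD_φ, rn_X]

theorem Ops_sh_val (n e : ι → ℤ) : (reD I id Function.injective_id n).val e = e + n := by
  funext i
  have := (reD I id Function.injective_id n).val_τ e i
  simpa [reD, add_comm] using this

theorem Ops_re_val (e : ι ≃ κ) (d : κ → ℤ) :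
    (reD I e.symm e.symm.injective 0).val d = d ∘ e := by
  funext i
  have := (reD I e.symm e.symm.injective 0).val_τ d (e i)
  simpa [reD] using this

theorem Ops_fr_X [Fintype k] (s : ι → ℕ) (v : ι × σ) :
    (frD I s).φ (X v) = X v ^ Fintype.card k ^ s v.1 := by
  simp [PD.φ_X, frD]

theorem frD_φ [Fintype k] (s : ℕ) (g : S σ k ι) :
    (frD I fun _ : ι => s).φ g = g ^ Fintype.card k ^ s :=
  Ops_pow_card (AlgHom.id k _) _ s (fun v => Ops_fr_X _ v) g

theorem Ops_fr_val [Fintype k] (s : ι → ℕ) (e : ι → ℤ) :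
    (frD I s).val e = fun i => (Fintype.card k : ℤ) ^ s i * e i := by
  funext i
  have := (frD I s).val_τ e i
  simpa [frD] using this

theorem Ops_sh_s (n : ι → ℤ) : Function.Surjective (reD I id Function.injective_id n).τ :=
  Function.surjective_id

theorem Ops_re_s (e : ι ≃ κ) : Function.Surjective (reD I e.symm e.symm.injective 0).τ :=
  e.symm.surjective

theorem Ops_fr_s [Fintype k] (s : ι → ℕ) :
    Function.Surjective (frD I s).τ := Function.surjective_id

theorem Ops_PD_ext {D D' : PD I ι κ} (h1 : D.τ = D'.τ) (h2 : D.c = D'.c) (h3 : D.q = D'.q)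
    (h4 : D.o = D'.o) : D = D' := by
  cases D; cases D'
  simp only at h1 h2 h3 h4
  subst h1 h2 h3 h4
  rfl

theorem Ops_rn_rn (e : ι ≃ κ) (f : S σ k ι) : rn e.symm (rn e f) = f := by
  have : (rn (σ := σ) (k := k) e.symm).comp (rn e) = AlgHom.id k _ := by
    ext1 v
    simp [rn_X]
  exact AlgHom.congr_fun this f

theorem Ops_comap_rn (e : ι ≃ κ) (J : Ideal (S σ k ι)) : J.comap (rn e.symm) = J.map (rn e) := by
  apply le_antisymm
  · intro f hf
    have h := Ideal.mem_map_of_mem (rn (σ := σ) (k := k) e) (Ideal.mem_comap.1 hf)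
    have h2 := Ops_rn_rn (σ := σ) (k := k) e.symm f
    rw [Equiv.symm_symm] at h2
    rwa [h2] at h
  · rw [Ideal.map_le_iff_le_comap]
    intro f hf
    rw [Ideal.mem_comap, Ideal.mem_comap, Ops_rn_rn]
    exact hf

variable [Fintype σ] [Fintype ι] [Fintype κ]

/-- renaming of the factors -/
def reG (e : ι ≃ κ) : G I ι →ₗ[ℂ] G I κ := pullG (reD I e.symm e.symm.injective 0)

/-- Frobenius -/
def fr [Fintype k] (s : ι → ℕ) : Module.End ℂ (G I ι) :=
  pullG (frD I s)

theorem shG_eq_pull (n : ι → ℤ) :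
    (shG n : G I ι →ₗ[ℂ] G I ι) = pullG (reD I id Function.injective_id n) := by
  refine G.ext fun M => (shG_cls n M).trans (Eq.symm ?_)
  refine IsPull.pullG_cls (N := M.sh n) (j := LinearMap.id) (Ops_sh_s n) ⟨fun _ _ h => h, ?_, ?_, ?_⟩
  · intro f x
    have h : (reD I id Function.injective_id n).φ = AlgHom.id k _ := by
      ext1 v
      rw [Ops_re_X]; rfl
    rw [h]; rfl
  · intro e x
    rw [Ops_sh_val]; rfl
  · intro e x
    exact ⟨_, rfl⟩

theorem reG_cy (e : ι ≃ κ) {J : Ideal (S σ k ι)} (hJ : GrI J) (hF : IX I ι ≤ J) (n : ι → ℤ) :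
    reG e (cy I J n) = cy I (J.map (rn e)) (n ∘ e.symm) := by
  rw [reG, pullG_cy (Ops_re_s e) (fun _ => rfl) hJ hF, reD_φ, Ops_comap_rn]
  congr 1
  funext i
  simp [reD]

theorem reG_refl (x : G I ι) : reG (Equiv.refl ι) x = x := by
  exact pullG_id (Ops_re_s _) (fun v => by rw [Ops_re_X]; rfl) (fun d => by rw [Ops_re_val]; rfl) x

theorem reG_trans {μ : Type} [Fintype μ] (e : ι ≃ κ) (e' : κ ≃ μ) (x : G I ι) :
    reG e' (reG e x) = reG (e.trans e') x := by
  refine pullG_comp (Ops_re_s e) (Ops_re_s e') (Ops_re_s (e.trans e')) (fun v => ?_) (fun d => ?_) x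
  · rw [Ops_re_X, Ops_re_X, Ops_re_X]; rfl
  · rw [Ops_re_val, Ops_re_val, Ops_re_val]; rfl

theorem reG_symm (e : ι ≃ κ) (x : G I ι) : reG e.symm (reG e x) = x := by
  rw [reG_trans, Equiv.self_trans_symm, reG_refl]

theorem reG_inj (e : ι ≃ κ) {x : G I ι} (h : reG e x = 0) : x = 0 := by
  rw [← reG_symm e x, h, map_zero]

theorem reG_box {ι' κ' : Type} [Fintype ι'] [Fintype κ'] (e : ι ≃ ι') (e' : κ ≃ κ')
    (x : G I ι) (y : G I κ) :
    reG (e.sumCongr e') (boxG x y) = boxG (reG e x) (reG e' y) := by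
  have h : reD I (e.sumCongr e').symm (e.sumCongr e').symm.injective 0 =
      (reD I e.symm e.symm.injective 0).sum (reD I e'.symm e'.symm.injective 0) := by
    apply Ops_PD_ext
    · rfl
    · funext v; rcases v with ⟨i | i, j⟩ <;> rfl
    · funext i; rcases i with i | i <;> rfl
    · funext i; rcases i with i | i <;> rfl
  rw [reG, h, pullG_sum (Ops_re_s e) (Ops_re_s e')]
  rfl

section Fr
variable [Fintype k]

theorem fr_add (s t : ι → ℕ) : (fr (s + t) : Module.End ℂ (G I ι)) = fr s * fr t := by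
  ext1 x
  refine (pullG_comp (Ops_fr_s t) (Ops_fr_s s) (Ops_fr_s (s + t)) (fun v => ?_)
    (fun d => ?_) x).symm
  · rw [Ops_fr_X, Ops_fr_X, map_pow, Ops_fr_X, ← pow_mul, ← pow_add, Pi.add_apply, add_comm]
  · rw [Ops_fr_val, Ops_fr_val, Ops_fr_val]
    funext i
    rw [Pi.add_apply, pow_add]; ring

theorem fr_zero : (fr (0 : ι → ℕ) : Module.End ℂ (G I ι)) = 1 := by
  ext1 x
  exact pullG_id (Ops_fr_s 0) (fun v => by rw [Ops_fr_X]; simp)
    (fun d => by rw [Ops_fr_val]; simp) x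

theorem reG_fr (e : ι ≃ κ) (s : ι → ℕ) (x : G I ι) :
    reG e (fr s x) = fr (s ∘ e.symm) (reG e x) := by
  refine pullG_square (Ops_fr_s s) (Ops_re_s e) (Ops_re_s e) (Ops_fr_s _) (fun v => ?_)
    (fun d => ?_) x
  · rw [Ops_re_X, Ops_fr_X, Ops_fr_X, map_pow, Ops_re_X]; rfl
  · rw [Ops_fr_val, Ops_re_val, Ops_re_val, Ops_fr_val]
    funext i
    simp

theorem fr_box (s : ι ⊕ κ → ℕ) (x : G I ι) (y : G I κ) :
    fr s (boxG x y) = boxG (fr (s ∘ Sum.inl) x) (fr (s ∘ Sum.inr) y) := by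
  have h : frD I s = (frD I (s ∘ Sum.inl)).sum (frD I (s ∘ Sum.inr)) := by
    apply Ops_PD_ext
    · funext i; rcases i with i | i <;> rfl
    · funext v; rcases v with ⟨i | i, j⟩ <;> rfl
    · funext i; rcases i with i | i <;> rfl
    · funext i; rcases i with i | i <;> rfl
  rw [fr, h, pullG_sum (Ops_fr_s _) (Ops_fr_s _)]
  rfl

end Fr

theorem reG_shG (e : ι ≃ κ) (n : ι → ℤ) (x : G I ι) :
    reG e (shG n x) = shG (n ∘ e.symm) (reG e x) := by
  rw [shG_eq_pull, shG_eq_pull]
  refine pullG_square (Ops_sh_s n) (Ops_re_s e) (Ops_re_s e) (Ops_sh_s _) (fun v => ?_)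
    (fun d => ?_) x
  · rw [Ops_re_X, Ops_re_X, Ops_re_X, Ops_re_X]; rfl
  · rw [Ops_sh_val, Ops_re_val, Ops_re_val, Ops_sh_val]
    funext i
    simp

theorem shG_box (n : ι ⊕ κ → ℤ) (x : G I ι) (y : G I κ) :
    shG n (boxG x y) = boxG (shG (n ∘ Sum.inl) x) (shG (n ∘ Sum.inr) y) := by
  have h : reD I id Function.injective_id n = (reD I id Function.injective_id (n ∘ Sum.inl)).sum
      (reD I id Function.injective_id (n ∘ Sum.inr)) := by
    apply Ops_PD_ext
    · funext i; rcases i with i | i <;> rfl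
    · funext v; rcases v with ⟨i | i, j⟩ <;> rfl
    · funext i; rcases i with i | i <;> rfl
    · funext i; rcases i with i | i <;> rfl
  rw [shG_eq_pull, shG_eq_pull, shG_eq_pull, h, pullG_sum (Ops_sh_s _) (Ops_sh_s _)]

end Pool.Agent.Bav
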