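import Pool.Agent.P.MP_dd457d_ag.Bav.PullA

/-! Pull-back of modules along monomial substitutions. -/

set_option autoImplicit false

noncomputable section

namespace Pool.Agent.Bav

open MvPolynomial

variable {σ k ι κ μ : Type} [Field k] {I : Ideal (MvPolynomial σ k)}
  [Fintype σ] [Fintype ι] [Fintype κ] [Fintype μ]

/-- the class of the pull-back of a module -/
def pl (D : PD I ι κ) (M : GM I κ) : G I ι := cls (exists_isPull D M).choose

theorem IsPull.cls_eq {D : PD I ι κ} {M : GM I κ} {N : GM I ι} {j : N.M →ₗ[k] M.M}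
    (h : IsPull D M N j) : cls N = pl D M := by
  have h0 := (exists_isPull D M).choose_spec.choose_spec
  obtain ⟨g, h1, h2, -⟩ := h.exists_hom h0 (⟨LinearMap.id, fun _ _ => rfl⟩ : Hom M M)
  refine cls_iso g ⟨fun x y hxy => h.inj ?_, h2 Function.surjective_id⟩
  have e1 := h1 x
  have e2 := h1 y
  rw [hxy] at e1
  exact e1.symm.trans e2

theorem pl_ses (D : PD I ι κ) {M N P : GM I κ} {f : Hom M N} {g : Hom N P} (h : SES f g) :
    pl D N = pl D M + pl D P := by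
  obtain ⟨M', jM, hM⟩ := exists_isPull D M
  obtain ⟨N', jN, hN⟩ := exists_isPull D N
  obtain ⟨P', jP, hP⟩ := exists_isPull D P
  obtain ⟨f', f1, -, f3⟩ := hM.exists_hom hN f
  obtain ⟨g', g1, g2, -⟩ := hN.exists_hom hP g
  rw [← hM.cls_eq, ← hN.cls_eq, ← hP.cls_eq]
  refine cls_ses (f := f') (g := g') ⟨fun x y hxy => hM.inj (h.1 ?_), g2 h.2.1, fun y => ?_⟩
  · rw [← f1, ← f1, hxy]
  · constructor
    · intro hy
      refine f3 y ?_
      have e := g1 y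
      rw [hy, map_zero] at e
      exact (h.2.2 _).1 e.symm
    · rintro ⟨x, rfl⟩
      apply hP.inj
      rw [g1, f1, map_zero]
      exact (h.2.2 _).2 ⟨_, rfl⟩

/-- vanishing on torsion modules, uniformly in the shift -/
theorem pl_tors {M : GM I κ} (h : Tors M) : ∃ d₀ : κ → ℤ, ∀ D : PD I ι κ,
    (∀ l, (∀ i, D.τ i ≠ l) → d₀ l ≤ D.o l) → pl D M = 0 := by
  obtain ⟨d₀, hd⟩ := h
  refine ⟨d₀, fun D hD => ?_⟩
  obtain ⟨N, j, hN⟩ := exists_isPull D M
  rw [← hN.cls_eq]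
  refine cls_tors ⟨fun i => |d₀ (D.τ i) - D.o (D.τ i)|, fun e he => ?_⟩
  have hv : d₀ ≤ D.val e := by
    intro l
    by_cases hl : ∃ i, D.τ i = l
    · obtain ⟨i, rfl⟩ := hl
      rw [D.val_τ]
      have h1 : |d₀ (D.τ i) - D.o (D.τ i)| ≤ e i := he i
      have h2 := le_abs_self (d₀ (D.τ i) - D.o (D.τ i))
      have h3 := abs_nonneg (d₀ (D.τ i) - D.o (D.τ i))
      have h4 : (1 : ℤ) ≤ D.q i := by exact_mod_cast D.q_pos i
      nlinarith
    · have hl' : ∀ i, D.τ i ≠ l := fun i hi => hl ⟨i, hi⟩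
      rw [D.val_of_not e hl']
      exact hD l hl'
  ext x
  apply hN.inj
  rw [hN.π, hd _ hv]
  simp

theorem exists_pullG (D : PD I ι κ) : ∃ F : G I κ →ₗ[ℂ] G I ι,
    Function.Surjective D.τ → ∀ M, F (cls M) = pl D M := by
  by_cases hs : Function.Surjective D.τ
  · obtain ⟨F, hF⟩ := exists_lift (pl D) (fun _ _ _ _ _ h => pl_ses D h) (fun M hM => by
      obtain ⟨d₀, hd⟩ := pl_tors (ι := ι) hM
      refine hd D fun l hl => ?_
      obtain ⟨i, hi⟩ := hs l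
      exact absurd hi (hl i))
    exact ⟨F, fun _ => hF⟩
  · exact ⟨0, fun h => absurd h hs⟩

/-- pull-back on classes -/
def pullG (D : PD I ι κ) : G I κ →ₗ[ℂ] G I ι := (exists_pullG D).choose

theorem IsPull.pullG_cls {D : PD I ι κ} (hs : Function.Surjective D.τ) {M : GM I κ}
    {N : GM I ι} {j : N.M →ₗ[k] M.M} (h : IsPull D M N j) : pullG D (cls M) = cls N :=
  ((exists_pullG D).choose_spec hs M).trans h.cls_eq.symm

theorem pullG_comp {D : PD I ι κ} {D' : PD I μ ι} {D'' : PD I μ κ}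
    (hs : Function.Surjective D.τ) (hs' : Function.Surjective D'.τ)
    (hs'' : Function.Surjective D''.τ) (hφ : ∀ v, D''.φ (X v) = D.φ (D'.φ (X v)))
    (hv : ∀ e, D''.val e = D.val (D'.val e)) (x : G I κ) :
    pullG D' (pullG D x) = pullG D'' x := by
  have key : (pullG D').comp (pullG D) = pullG D'' := by
    refine G.ext fun M => ?_
    obtain ⟨N, j, hN⟩ := exists_isPull D M
    obtain ⟨P, j', hP⟩ := exists_isPull D' N
    rw [LinearMap.comp_apply, hN.pullG_cls hs, hP.pullG_cls hs',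
      (hN.comp hP hφ hv).pullG_cls hs'']
  exact LinearMap.congr_fun key x

omit [Fintype σ] [Fintype ι] [Fintype κ] [Fintype μ] in
theorem Pull_phi_comp (D₁ : PD I ι κ) (D₂ : PD I μ ι) :
    phi (D₁.τ ∘ D₂.τ) (fun v => D₂.c v * D₁.c (D₂.τ v.1, v.2) ^ D₂.q v.1)
      (fun i => D₁.q (D₂.τ i) * D₂.q i) = D₁.φ.comp D₂.φ := by
  refine MvPolynomial.algHom_ext fun v => ?_
  have e : D₁.φ (C (D₂.c v)) = C (D₂.c v) := D₁.φ.commutes _
  rw [AlgHom.comp_apply, PD.φ_X, map_mul, map_pow, e, PD.φ_X, phi, aeval_X, mul_pow, ← pow_mul,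
    C_mul, C_pow, mul_assoc]
  rfl

/-- composition of two substitutions -/
def PD.cmpD (D₁ : PD I ι κ) (D₂ : PD I μ ι) : PD I μ κ where
  τ := D₁.τ ∘ D₂.τ
  inj := D₁.inj.comp D₂.inj
  c v := D₂.c v * D₁.c (D₂.τ v.1, v.2) ^ D₂.q v.1
  c_ne v := mul_ne_zero (D₂.c_ne v) (pow_ne_zero _ (D₁.c_ne _))
  q i := D₁.q (D₂.τ i) * D₂.q i
  q_pos i := Nat.mul_pos (D₁.q_pos _) (D₂.q_pos i)
  o := D₁.val D₂.o
  fer i f hf := by
    rw [Pull_phi_comp]
    exact D₁.φ_mem_IX (D₂.fer i f hf)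

omit [Fintype σ] [Fintype ι] [Fintype κ] [Fintype μ] in
theorem PD.cmpD_φ (D₁ : PD I ι κ) (D₂ : PD I μ ι) (v : μ × σ) :
    (D₁.cmpD D₂).φ (X v) = D₁.φ (D₂.φ (X v)) :=
  AlgHom.congr_fun (Pull_phi_comp D₁ D₂) (X v)

/-- commutative squares -/
theorem pullG_square {ι' : Type} [Fintype ι'] {D₁ : PD I ι κ} {D₂ : PD I μ ι}
    {D₃ : PD I ι' κ} {D₄ : PD I μ ι'}
    (h₁ : Function.Surjective D₁.τ) (h₂ : Function.Surjective D₂.τ)
    (h₃ : Function.Surjective D₃.τ) (h₄ : Function.Surjective D₄.τ)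
    (hφ : ∀ v, D₁.φ (D₂.φ (X v)) = D₃.φ (D₄.φ (X v)))
    (hv : ∀ e, D₁.val (D₂.val e) = D₃.val (D₄.val e)) (x : G I κ) :
    pullG D₂ (pullG D₁ x) = pullG D₄ (pullG D₃ x) := by
  have hs : Function.Surjective (D₁.cmpD D₂).τ := h₁.comp h₂
  have hv' : ∀ e, (D₁.cmpD D₂).val e = D₁.val (D₂.val e) := by
    intro e
    funext l
    obtain ⟨i, rfl⟩ := hs l
    rw [PD.val_τ]
    change D₁.val D₂.o (D₁.τ (D₂.τ i)) + ((D₁.q (D₂.τ i) * D₂.q i : ℕ) : ℤ) * e i =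
      D₁.val (D₂.val e) (D₁.τ (D₂.τ i))
    rw [PD.val_τ, PD.val_τ, PD.val_τ]
    push_cast
    ring
  rw [pullG_comp h₁ h₂ hs (D₁.cmpD_φ D₂) hv',
    pullG_comp h₃ h₄ hs (fun v => (D₁.cmpD_φ D₂ v).trans (hφ v))
      (fun e => (hv' e).trans (hv e))]

theorem pullG_id {D : PD I ι ι} (hs : Function.Surjective D.τ) (hφ : ∀ v, D.φ (X v) = X v)
    (hv : ∀ e, D.val e = e) (x : G I ι) : pullG D x = x := by
  have hφ' : D.φ = AlgHom.id k _ := MvPolynomial.algHom_ext hφ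
  have key : pullG D = LinearMap.id := by
    refine G.ext fun M => ?_
    have hM : IsPull D M M LinearMap.id :=
      ⟨Function.injective_id, fun f x => by rw [hφ']; rfl, fun e x => by rw [hv]; rfl,
        fun e x => ⟨_, rfl⟩⟩
    exact hM.pullG_cls hs
  rw [key]
  rfl

theorem pullG_cy {D : PD I ι κ} (hs : Function.Surjective D.τ) (hq : ∀ i, D.q i = 1)
    {J : Ideal (S σ k κ)} (hJ : GrI J) (hF : IX I κ ≤ J) (n : κ → ℤ) :
    pullG D (cy I J n) = cy I (J.comap D.φ) fun i => n (D.τ i) + D.o (D.τ i) := by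
  obtain ⟨M, x, hx, hc⟩ := exists_cy hJ hF n
  obtain ⟨N, j, hN⟩ := exists_isPull D M
  have hsurj : ∀ f : S σ k κ, ∃ g, D.φ g = f := by
    intro f
    induction f using MvPolynomial.induction_on with
    | C a => exact ⟨C a, D.φ.commutes a⟩
    | add p q hp hq =>
      obtain ⟨p', rfl⟩ := hp
      obtain ⟨q', rfl⟩ := hq
      exact ⟨p' + q', map_add _ _ _⟩
    | mul_X p v hp =>
      obtain ⟨p', rfl⟩ := hp
      obtain ⟨l, a⟩ := v
      obtain ⟨i, rfl⟩ := hs l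
      refine ⟨p' * (C (D.c (i, a))⁻¹ * X (i, a)), ?_⟩
      have e : D.φ (C (D.c (i, a))⁻¹) = C (D.c (i, a))⁻¹ := D.φ.commutes _
      rw [map_mul, map_mul, e, PD.φ_X, hq, pow_one, ← mul_assoc (C _), ← C_mul,
        inv_mul_cancel₀ (D.c_ne _), C_1, one_mul]
  have hv : D.val (-fun i => n (D.τ i) + D.o (D.τ i)) = -n := by
    funext l
    obtain ⟨i, rfl⟩ := hs l
    rw [PD.val_τ, hq]
    simp
  obtain ⟨y, hy⟩ := hN.surj (-fun i => n (D.τ i) + D.o (D.τ i)) x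
  rw [hv, hx.deg] at hy
  have hcyc : IsCyc (J.comap D.φ) (fun i => n (D.τ i) + D.o (D.τ i)) N y := by
    refine ⟨hN.inj ?_, fun z => ?_, fun f => ?_⟩
    · rw [hN.π, hv, hy, hx.deg]
    · obtain ⟨f, hf⟩ := hx.gen (j z)
      obtain ⟨g, rfl⟩ := hsurj f
      exact ⟨g, hN.inj (by rw [hN.smul, hy, hf])⟩
    · rw [Ideal.mem_comap, ← hx.ann, ← hy, ← hN.smul]
      exact (map_eq_zero_iff j hN.inj).symm
  rw [hc, hN.pullG_cls hs, hcyc.cls_eq]

/-- product of two substitutions -/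
def PD.sum {ι' κ' : Type} (D : PD I ι κ) (D' : PD I ι' κ') : PD I (ι ⊕ ι') (κ ⊕ κ') where
  τ := Sum.map D.τ D'.τ
  inj := D.inj.sumMap D'.inj
  c v := Sum.elim (fun i => D.c (i, v.2)) (fun i => D'.c (i, v.2)) v.1
  c_ne := by rintro ⟨i | i, j⟩ <;> simp [D.c_ne, D'.c_ne]
  q := Sum.elim D.q D'.q
  q_pos := by rintro (i | i) <;> simp [D.q_pos, D'.q_pos]
  o := Sum.elim D.o D'.o
  fer := by
    rintro (i | i) f hf
    · have e := rn_mem_IX (Sum.inl : κ → κ ⊕ κ') (D.fer i f hf)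
      have h : (rn (Sum.inl : κ → κ ⊕ κ')).comp ((phi D.τ D.c D.q).comp (blk i)) =
          (phi (Sum.map D.τ D'.τ)
            (fun v => Sum.elim (fun i => D.c (i, v.2)) (fun i => D'.c (i, v.2)) v.1)
            (Sum.elim D.q D'.q)).comp (blk (Sum.inl i)) :=
        MvPolynomial.algHom_ext fun a => by simp [phi, rn]
      exact (AlgHom.congr_fun h f : _ = _) ▸ e
    · have e := rn_mem_IX (Sum.inr : κ' → κ ⊕ κ') (D'.fer i f hf)
      have h : (rn (Sum.inr : κ' → κ ⊕ κ')).comp ((phi D'.τ D'.c D'.q).comp (blk i)) =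
          (phi (Sum.map D.τ D'.τ)
            (fun v => Sum.elim (fun i => D.c (i, v.2)) (fun i => D'.c (i, v.2)) v.1)
            (Sum.elim D.q D'.q)).comp (blk (Sum.inr i)) :=
        MvPolynomial.algHom_ext fun a => by simp [phi, rn]
      exact (AlgHom.congr_fun h f : _ = _) ▸ e

end Pool.Agent.Bav
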