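import Pool.Agent.P.MP_2ce3e7_ag.Tav.Stmt
import Pool.Agent.P.MP_dd457d_ag.Bav.Stmt0

/-! The statement. -/

set_option autoImplicit false

noncomputable section

namespace Pool.Agent.Bav

open Function Pool.Agent.Tav

/-- the statement -/
def Main : Prop :=
  ∀ (k : Type) [Field k] [Fintype k] {G τ σ : Type} [AddCommGroup G] [Fintype τ] [Fintype σ]
    (g : ℕ) (p : G → τ → AlgebraicClosure k) (_ : AV p g)
    (_ : ∀ y y', Par (p y) (p y') → y = y') (F : G →+ G)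
    (_ : ∀ y, Par (p (F y)) (p y ^ Fintype.card k))
    (R : ValuationSubring ℂ) (r : R →+* AlgebraicClosure k) (_ : Surjective r)
    (X : Model r σ g) (ψ : G →+ X.B) (ψ' : X.B →+ G) (_ : Mor p X.p ψ)
    (_ : Mor X.p p ψ') (_ : Surjective ψ') (m : ℕ) (_ : m ≠ 0) (_ : ∀ b, ψ (ψ' b) = m • b)
    (π : Fin g → ℂ) (_ : π ∈ En X.Λ) (_ : X.Eqv ψ F π)
    (_ : (∀ i, R.valuation (star (π i)) = 1) ∨ X.Full (Fintype.card k)),
    CXD.NumTors k (CXD.hom (idk k p)) (CXD.crd (idk k p))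

end Pool.Agent.Bav
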