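import Pool.Agent.K.MP_e12fcd_ag.C98
import Pool.Agent.K.MP_e12fcd_ag.C118

/-! The Euler pairing is the value of a Hilbert polynomial, and it kills the relations. -/

set_option autoImplicit false

open Function Filter
open scoped TensorProduct

noncomputable section

namespace Pool.Agent.BavT

open Pool.Agent.CXD

/-- the span over `k` has finite dimension -/
def FinK (k A : Type) [Field k] [CommRing A] [Algebra k A] {M : Type} [AddCommGroup M]
    [Module A M] (S : Set M) : Prop :=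
  letI := Module.compHom M (algebraMap k A)
  Module.Finite k (Submodule.span k S)

/-- standard gradings -/
structure Sd (k : Type) {A σ : Type} [Field k] [CommRing A] [Algebra k A] (𝒜 : ℤ → Set A)
    (z : σ → A) : Prop where
  alg : ∀ r : k, algebraMap k A r ∈ 𝒜 0
  deg : ∀ i, z i ∈ 𝒜 1
  fin : ∀ c, ∃ T : Set A, T.Finite ∧ ∀ a ∈ 𝒜 c, a ∈ Submodule.span k T
  pos : ∀ c, 0 < c → ∀ a ∈ 𝒜 c, a ∈ Ideal.span (Set.range z)

variable {k A σ : Type} [Field k] [CommRing A] [Algebra k A] {𝒜 : ℤ → Set A} {z : σ → A}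

theorem dim_tr {X Y : Type} [AddCommGroup X] [Module A X] [AddCommGroup Y] [Module A Y]
    (e : X →ₗ[A] Y) (he : Injective e) {S : Set X} {T : Set Y}
    (h1 : ∀ x ∈ S, e x ∈ AddSubgroup.closure T) (h2 : T ⊆ e '' S) :
    dimK k A S = dimK k A T ∧ (FinK k A S → FinK k A T) := by
  let _ := Module.compHom X (algebraMap k A)
  let _ := Module.compHom Y (algebraMap k A)
  let e' : X →ₗ[k] Y :=
    { toFun := e, map_add' := map_add e, map_smul' := fun c x => e.map_smul (algebraMap k A c) x }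
  have h3 : (Submodule.span k S).map e' = Submodule.span k T := by
    rw [Submodule.map_span]
    refine le_antisymm (Submodule.span_le.2 ?_) (Submodule.span_mono h2)
    rintro _ ⟨x, hx, rfl⟩
    exact (AddSubgroup.closure_le (Submodule.span k T).toAddSubgroup).2 Submodule.subset_span
      (h1 x hx)
  constructor
  · show Module.finrank k (Submodule.span k S) = Module.finrank k (Submodule.span k T)
    rw [← h3]
    exact (Submodule.equivMapOfInjective e' he _).finrank_eq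
  · intro hS
    have hS' : Module.Finite k (Submodule.span k S) := hS
    show Module.Finite k (Submodule.span k T)
    rw [← h3]
    exact Module.Finite.equiv (Submodule.equivMapOfInjective e' he _)

variable (k) in
/-- the Hilbert function -/
def hf (M : GM 𝒜) (t : ℤ) : ℚ := dimK k A (Set.range (M.π t))

variable (k) in
/-- the value of the Hilbert polynomial -/
def hv (s : ℚ) (M : GM 𝒜) : ℚ := (hp (hf k M)).eval s

theorem hf_zero {M : GM 𝒜} {t : ℤ} (h0 : M.π t = 0) : hf k M t = 0 := by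
  let _ := Module.compHom M.M (algebraMap k A)
  have h1 : Submodule.span k (Set.range (M.π t)) = ⊥ := by
    rw [Submodule.span_eq_bot]
    rintro _ ⟨x, rfl⟩
    rw [h0]; rfl
  have h2 : Module.finrank k (Submodule.span k (Set.range (M.π t))) = 0 := by
    rw [h1, finrank_bot]
  exact Nat.cast_eq_zero.2 h2

theorem zero_of_hf {M : GM 𝒜} {t : ℤ} (hM : FinK k A (Set.range (M.π t))) (h0 : hf k M t = 0) :
    M.π t = 0 := by
  let _ := Module.compHom M.M (algebraMap k A)
  have hM' : Module.Finite k (Submodule.span k (Set.range (M.π t))) := hM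
  have h2 : Module.finrank k (Submodule.span k (Set.range (M.π t))) = 0 := Nat.cast_eq_zero.1 h0
  ext x
  exact Submodule.span_eq_bot.1 (Submodule.finrank_eq_zero.1 h2) _ ⟨x, rfl⟩

theorem hv_tors {M : GM 𝒜} (h : Tors M) (s : ℚ) : hv k s M = 0 := by
  have h1 : hp (hf k M) = 0 := hp_eq (h.mono fun t ht => by rw [hf_zero ht, Polynomial.eval_zero])
  rw [hv, h1, Polynomial.eval_zero]

theorem lift_zero (l : FGM 𝒜 → ℚ) (h1 : ∀ M N P : FGM 𝒜, Ses M.1 N.1 P.1 → l N = l M + l P)
    (h2 : ∀ M : FGM 𝒜, Tors M.1 → l M = 0) {c : ℕ} (hc : 0 < c)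
    {x : FreeAbelianGroup (FGM 𝒜)} (hx : c • x ∈ rels 𝒜) : FreeAbelianGroup.lift l x = 0 := by
  have h3 : rels 𝒜 ≤ (FreeAbelianGroup.lift l).ker := by
    refine (AddSubgroup.closure_le _).2 ?_
    rintro _ (⟨M, N, P, hs, rfl⟩ | ⟨M, hM, rfl⟩)
    · show FreeAbelianGroup.lift l _ = 0
      rw [map_sub, map_sub, FreeAbelianGroup.lift_apply_of, FreeAbelianGroup.lift_apply_of,
        FreeAbelianGroup.lift_apply_of, h1 M N P hs]
      ring
    · show FreeAbelianGroup.lift l _ = 0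
      rw [FreeAbelianGroup.lift_apply_of, h2 M hM]
  have h4 : FreeAbelianGroup.lift l (c • x) = 0 := h3 hx
  rw [map_nsmul, nsmul_eq_mul] at h4
  exact (mul_eq_zero.1 h4).resolve_left (Nat.cast_ne_zero.2 hc.ne')

theorem Sd.mem (h : Sd k 𝒜 z) (M : GM 𝒜) (t : ℤ) (x : M.M) :
    letI := Module.compHom M.M (algebraMap k A)
    x ∈ Submodule.span k (Set.range (M.π t)) ↔ M.π t x = x := by
  let _ := Module.compHom M.M (algebraMap k A)
  refine ⟨fun hx => ?_, fun hx => Submodule.subset_span ⟨x, hx⟩⟩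
  induction hx using Submodule.span_induction with
  | mem x hx => obtain ⟨y, rfl⟩ := hx; exact M.π_self t y
  | zero => exact map_zero _
  | add x y _ _ hx hy => rw [map_add, hx, hy]
  | smul r x _ hx =>
    have h1 := M.π_smul 0 t _ (h.alg r) x
    rw [zero_add, hx] at h1
    exact h1

variable [Gd 𝒜]

theorem Sd.fin_pc (h : Sd k 𝒜 z) (M : GM 𝒜) (hM : Module.Finite A M.M) (t : ℤ) :
    FinK k A (Set.range (M.π t)) := by
  classical
  let _ := Module.compHom M.M (algebraMap k A)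
  obtain ⟨s, hs, hh⟩ := M.exists_gens
  choose! g hg using hh
  choose T hT hT' using h.fin
  let U : Set M.M := ⋃ x ∈ (s : Set M.M), (fun a => a • x) '' T (t - g x)
  have hU : U.Finite := s.finite_toSet.biUnion fun x _ => (hT _).image _
  have h1 : Module.Finite k (Submodule.span k U) := Module.Finite.span_of_finite k hU
  have hle : Submodule.span k (Set.range (M.π t)) ≤ Submodule.span k U := by
    refine Submodule.span_le.2 ?_
    rintro _ ⟨y, rfl⟩
    refine (AddSubgroup.closure_le (Submodule.span k U).toAddSubgroup).2 ?_ (M.π_mem hs g hg t y)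
    rintro _ ⟨x, hx, a, ha, rfl⟩
    have h2 := hT' _ a ha
    clear ha
    show a • x ∈ Submodule.span k U
    induction h2 using Submodule.span_induction with
    | mem b hb => exact Submodule.subset_span (Set.mem_biUnion hx ⟨b, hb, rfl⟩)
    | zero => rw [zero_smul]; exact zero_mem _
    | add a b _ _ ha hb => rw [add_smul]; exact add_mem ha hb
    | smul r a _ ha => rw [Algebra.smul_def, mul_smul]; exact Submodule.smul_mem _ r ha
  exact Submodule.finiteDimensional_of_le hle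

theorem Sd.hf_add (h : Sd k 𝒜 z) (t : ℤ) : GAdd fun M : GM 𝒜 => hf k M t := by
  rintro M N P hN ⟨f, g, hf', hg', hi, hs, he⟩
  let _ := Module.compHom M.M (algebraMap k A)
  let _ := Module.compHom N.M (algebraMap k A)
  let _ := Module.compHom P.M (algebraMap k A)
  have hN' : Module.Finite k (Submodule.span k (Set.range (N.π t))) := h.fin_pc N hN t
  let fk : M.M →ₗ[k] N.M :=
    { toFun := f, map_add' := map_add f, map_smul' := fun c x => f.map_smul (algebraMap k A c) x }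
  let gk : N.M →ₗ[k] P.M :=
    { toFun := g, map_add' := map_add g, map_smul' := fun c x => g.map_smul (algebraMap k A c) x }
  let F : Submodule.span k (Set.range (M.π t)) →ₗ[k] Submodule.span k (Set.range (N.π t)) :=
    fk.restrict fun x hx => (h.mem N t _).2 (hf'.hom ((h.mem M t x).1 hx))
  let G : Submodule.span k (Set.range (N.π t)) →ₗ[k] Submodule.span k (Set.range (P.π t)) :=
    gk.restrict fun x hx => (h.mem P t _).2 (hg'.hom ((h.mem N t x).1 hx))
  have h1 : Injective F := fun x y hxy => Subtype.ext (hi (congrArg Subtype.val hxy))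
  have h2 : Surjective G := fun y => by
    obtain ⟨x, hx⟩ := hs y.1
    refine ⟨⟨N.π t x, Submodule.subset_span ⟨x, rfl⟩⟩, Subtype.ext ?_⟩
    show g (N.π t x) = y.1
    rw [hg', hx, (h.mem P t _).1 y.2]
  have h3 : LinearMap.ker G = LinearMap.range F := by
    refine le_antisymm (fun x hx => ?_) ?_
    · obtain ⟨y, hy⟩ := (he x.1).1 (congrArg Subtype.val (LinearMap.mem_ker.1 hx))
      refine ⟨⟨M.π t y, Submodule.subset_span ⟨y, rfl⟩⟩, Subtype.ext ?_⟩
      show f (M.π t y) = x.1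
      rw [hf', hy, (h.mem N t _).1 x.2]
    · rintro _ ⟨y, rfl⟩
      exact LinearMap.mem_ker.2 (Subtype.ext ((he _).2 ⟨y.1, rfl⟩))
  have h4 := LinearMap.finrank_range_add_finrank_ker G
  rw [h3, LinearMap.finrank_range_of_inj h1, LinearMap.range_eq_top.2 h2, finrank_top] at h4
  have h5 : dimK k A (Set.range (N.π t)) =
      dimK k A (Set.range (M.π t)) + dimK k A (Set.range (P.π t)) := (h4.symm.trans (add_comm _ _))
  simp only [hf, h5, Nat.cast_add]

theorem Sd.tors (h : Sd k 𝒜 z) {M : GM 𝒜} (hM : Module.Finite A M.M)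
    (h0 : ∀ f ∈ Set.range z, ∀ x : M.M, f • x = 0) : Tors M := by
  obtain ⟨s, hs, hh⟩ := M.exists_gens
  choose! g hg using hh
  obtain ⟨b, hb⟩ := (s.finite_toSet.image g).bddAbove
  refine eventually_atTop.2 ⟨b + 1, fun t ht => ?_⟩
  ext y
  refine AddSubgroup.mem_bot.1 ((AddSubgroup.closure_le ⊥).2 ?_ (M.π_mem hs g hg t y))
  rintro _ ⟨x, hx, a, ha, rfl⟩
  have h1 : g x ≤ b := hb ⟨x, hx, rfl⟩
  have h2 : Ideal.span (Set.range z) ≤ Module.annihilator A M.M :=
    Ideal.span_le.2 fun f hf => Module.mem_annihilator.2 (h0 f hf)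
  exact Module.mem_annihilator.1 (h2 (h.pos _ (by omega) a ha)) x

theorem Sd.nil (h : Sd k 𝒜 z) {M : GM 𝒜} (hM : Tors M) : Nil (Set.range z) M.M := by
  obtain ⟨b, hb⟩ := eventually_atTop.1 hM
  rintro _ ⟨i, rfl⟩ x
  induction x using GM.ind with
  | h0 => exact ⟨0, smul_zero _⟩
  | h1 d x hx =>
    refine ⟨(b - d).toNat, ?_⟩
    rw [← GM.hom_smul (cl_pow (mem_cl (h.deg i)) (b - d).toNat) hx, hb _ ?_]
    · rfl
    · rw [nsmul_eq_mul, mul_one]
      omega
  | h2 x y hx hy =>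
    obtain ⟨m, hm⟩ := hx
    obtain ⟨n, hn⟩ := hy
    refine ⟨m + n, ?_⟩
    rw [smul_add, pow_add, mul_smul, mul_smul, hn, smul_comm, hm, smul_zero, smul_zero, add_zero]

theorem hid (𝒜 : ℤ → Set A) : Hm (RingHom.id A) 𝒜 𝒜 (AddMonoidHom.id ℤ) :=
  ⟨injective_id, fun _ _ ha => mem_cl ha⟩

theorem tpc_tr (N V : GM 𝒜) (t : ℤ) :
    dimK k A (Set.range ((tens (hid 𝒜) N V).π t)) = dimK k A (tpc N V t) ∧
      (FinK k A (Set.range ((tens (hid 𝒜) N V).π t)) → FinK k A (tpc N V t)) := by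
  obtain ⟨e₀, he₀⟩ := tens_lift (h := hid 𝒜) (V := N) (Y := V) (X := N.M ⊗[A] V.M)
    (LinearMap.toAddMonoidHom'.comp (TensorProduct.mk A N.M V.M).flip.toAddMonoidHom)
    fun a y v => (TensorProduct.smul_tmul a v y).symm
  have he₁ : ∀ y v, e₀ (tt (hid 𝒜) N V y v) = v ⊗ₜ y := he₀
  have hsm : ∀ (a : A) x, e₀ (a • x) = a • e₀ x := by
    intro a x
    induction x using tens_ind with
    | h0 => simp only [smul_zero, map_zero]
    | h1 γ y c v _ _ => rw [tt_smul, he₁, he₁, TensorProduct.tmul_smul]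
    | h2 x x' hx hx' => rw [smul_add, map_add, map_add, hx, hx', smul_add]
  let e : (tens (hid 𝒜) N V).M →ₗ[A] N.M ⊗[A] V.M :=
    { toFun := e₀, map_add' := map_add e₀, map_smul' := hsm }
  have he : ∀ y v, e (tt (hid 𝒜) N V y v) = v ⊗ₜ y := he₀
  let g : N.M ⊗[A] V.M →+ (tens (hid 𝒜) N V).M :=
    TensorProduct.liftAddHom (tt (hid 𝒜) N V).flip
      fun a v y => (tt_bal (h := hid 𝒜) a y v).symm
  have hg : ∀ x, g (e x) = x := fun x => by
    induction x using tens_ind with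
    | h0 => simp only [map_zero]
    | h1 γ y c v _ _ => rw [he]; rfl
    | h2 x x' hx hx' => rw [map_add, map_add, hx, hx']
  refine dim_tr e (LeftInverse.injective hg) ?_ ?_
  · rintro _ ⟨x, rfl⟩
    induction x using tens_ind with
    | h0 => rw [map_zero, map_zero]; exact zero_mem _
    | h1 γ y c v _ hv =>
      rw [tens_π t y hv, he]
      exact AddSubgroup.subset_closure ⟨c, v, y, by rw [hv]; rfl⟩
    | h2 x x' hx hx' => rw [map_add, map_add]; exact add_mem hx hx'
  · rintro _ ⟨a, v, y, rfl⟩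
    refine ⟨_, ⟨tt (hid 𝒜) N V y (N.π a v), rfl⟩, ?_⟩
    rw [tens_π t y (N.π_self _ _), he, AddMonoidHom.id_apply]

theorem hf_tens (N V : GM 𝒜) :
    hf k (tens (hid 𝒜) N V) = fun t => (dimK k A (tpc N V t) : ℚ) :=
  funext fun t => congrArg Nat.cast (tpc_tr N V t).1

theorem pair_tens (N V : GM 𝒜) : pair k N V = hv k 0 (tens (hid 𝒜) N V) := by
  rw [hv, hf_tens, pair]

variable [Fintype σ] [IsNoetherianRing A]

theorem Sd.spec (h : Sd k 𝒜 z) {M : GM 𝒜} (hM : Module.Finite A M.M) :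
    ∀ᶠ t : ℤ in atTop, hf k M t = (hp (hf k M)).eval (t : ℚ) := by
  have h1 : (fun t => hf k M t) ∈ PF atTop := by
    refine hilb itg_atTop (fun t M => hf k M t) h.hf_add (u := 1) ?_
      (Z := Set.range z) (Set.finite_range z) ?_ ?_ M hM
    · intro t M _
      have e : (M.shift (-1)).π (t + 1) = M.π t := by
        change M.π (-1 + (t + 1)) = M.π t
        rw [neg_add_cancel_comm_assoc]
      change (dimK k A (Set.range ((M.shift (-1)).π (t + 1))) : ℚ) = _
      rw [e]
      rfl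
    · rintro _ ⟨i, rfl⟩
      exact mem_cl (h.deg i)
    · intro M hM h0
      exact ⟨0, (h.tors hM h0).mono fun t ht => by rw [Polynomial.eval_zero]; exact hf_zero ht⟩
  obtain ⟨p, h2⟩ := h1
  rw [hp_eq (f := hf k M) h2]
  exact h2

theorem Sd.hv_add (h : Sd k 𝒜 z) (s : ℚ) : GAdd (hv k (𝒜 := 𝒜) s) := by
  intro M N P hN hs
  obtain ⟨f, g, -, -, hi, hsu, -⟩ := id hs
  have hM : Module.Finite A M.M := Module.Finite.of_injective f hi
  have hP : Module.Finite A P.M := Module.Finite.of_surjective g hsu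
  have e : hp (hf k N) = hp (hf k M) + hp (hf k P) :=
    hp_eq (((h.spec hM).and (h.spec hP)).mono fun t ht => by
      rw [Polynomial.eval_add, ← ht.1, ← ht.2]
      exact h.hf_add t M N P hN hs)
  rw [hv, hv, hv, e, Polynomial.eval_add]

theorem Sd.hv_nil (h : Sd k 𝒜 z) (s : ℚ) {M : GM 𝒜} (hM : Module.Finite A M.M)
    (hn : Nil (Set.range z) M.M) : hv k s M = 0 :=
  (h.hv_add s).nil (𝔟 := ⊥) (Set.finite_range z)
    (by rintro _ ⟨i, rfl⟩; exact ⟨1, mem_cl (h.deg i)⟩)
    (fun _ hM _ h0 => hv_tors (h.tors hM h0) s) M hM kill_bot hn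

theorem Sd.hilbert (h : Sd k 𝒜 z) (N V : FGM 𝒜) :
    (∀ t, FinK k A (tpc N.1 V.1 t)) ∧ ∀ᶠ t : ℤ in atTop, (dimK k A (tpc N.1 V.1 t) : ℚ) =
      (hp fun t => dimK k A (tpc N.1 V.1 t)).eval (t : ℚ) := by
  have hT := tens_finite (h := hid 𝒜) N.2 V.2
  refine ⟨fun t => (tpc_tr N.1 V.1 t).2 (h.fin_pc _ hT t), ?_⟩
  have h1 := h.spec hT
  rw [hf_tens] at h1
  exact h1

theorem Sd.converse (h : Sd k 𝒜 z) (N : FGM 𝒜) (hN : LF z N.1) {c : ℕ} (hc : 0 < c)
    {x : FreeAbelianGroup (FGM 𝒜)} (hx : c • x ∈ rels 𝒜) :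
    FreeAbelianGroup.lift (fun V : FGM 𝒜 => pair k N.1 V.1) x = 0 := by
  refine lift_zero _ (fun M V P hs => ?_) (fun M hM => ?_) hc hx
  · obtain ⟨F, G, hF, hG, h1, h2, h3⟩ := tens_ses (hid 𝒜) N.1 hN hs
    have hM := tens_finite (h := hid 𝒜) N.2 M.2
    have h4 := (h.hv_add 0).right hM (tens_finite (h := hid 𝒜) N.2 V.2) hF hG h1 h2
    have h5 := h.hv_nil 0 (M := (tens (hid 𝒜) N.1 M.1).sub _ hF.ker)
      (inferInstanceAs (Module.Finite A (LinearMap.ker F))) h3
    simp only [pair_tens]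
    linarith
  · rw [pair_tens]
    exact h.hv_nil 0 (tens_finite N.2 M.2) (tens_nil (h.nil hM))

theorem Sd.faithful (h : Sd k 𝒜 z) (M : FGM 𝒜) {c : ℕ} (hc : 0 < c)
    (hx : c • FreeAbelianGroup.of M ∈ rels 𝒜) : Tors M.1 := by
  refine (h.spec M.2).mono fun t ht => zero_of_hf (h.fin_pc M.1 M.2 t) (ht.trans ?_)
  have h1 := lift_zero (fun M => hv k t M.1) (fun M N P hs => h.hv_add t _ _ _ N.2 hs)
    (fun M hM => hv_tors hM t) hc hx
  rwa [FreeAbelianGroup.lift_apply_of] at h1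

omit [Gd 𝒜] [IsNoetherianRing A]

omit [Fintype σ] in
theorem gd_hom (J : Ideal (MvPolynomial σ k)) : Gd (hom J) := by
  refine ⟨⟨0, 1, rfl, MvPolynomial.isHomogeneous_one σ k, map_one _⟩, ?_, ?_⟩
  · rintro c d a ⟨m, f, rfl, hf, rfl⟩ b ⟨n, g, rfl, hg, rfl⟩
    exact ⟨m + n, f * g, Nat.cast_add m n, hf.mul hg, map_mul _ _ _⟩
  · rw [eq_top_iff]
    intro y _
    obtain ⟨f, rfl⟩ := Ideal.Quotient.mk_surjective y
    rw [← MvPolynomial.sum_homogeneousComponent f, map_sum]
    refine sum_mem fun m _ => AddSubgroup.subset_closure (Set.mem_iUnion.2 ⟨(m : ℤ), ?_⟩)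
    exact ⟨m, _, rfl, MvPolynomial.homogeneousComponent_isHomogeneous m f, rfl⟩

theorem sd_hom (J : Ideal (MvPolynomial σ k)) : Sd k (hom J) (crd J) := by
  refine ⟨fun c => ⟨0, MvPolynomial.C c, rfl, MvPolynomial.isHomogeneous_C σ c, rfl⟩,
    fun i => ⟨1, _, rfl, MvPolynomial.isHomogeneous_X k i, rfl⟩, fun c => ?_, ?_⟩
  · obtain ⟨T, hT⟩ := MvPolynomial.homogeneousSubmodule_fg σ k c.toNat
    refine ⟨(Ideal.Quotient.mkₐ k J).toLinearMap '' T, T.finite_toSet.image _, ?_⟩
    rintro _ ⟨m, f, rfl, hf, rfl⟩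
    rw [← Submodule.map_span, hT]
    exact ⟨f, hf, rfl⟩
  · rintro _ hc _ ⟨m, f, rfl, hf, rfl⟩
    have h1 : f ∈ MvPolynomial.idealOfVars σ k ^ 1 :=
      (MvPolynomial.mem_pow_idealOfVars_iff' 1 f).2 fun x hx => hf.coeff_eq_zero (by omega)
    rw [pow_one] at h1
    have h2 := Ideal.mem_map_of_mem (Ideal.Quotient.mk J) h1
    rwa [Ideal.map_span, ← Set.range_comp] at h2

end Pool.Agent.BavT
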