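import Pool.Agent.P.MP_dd457d_ag.Bav.Tight
import Pool.Agent.P.MP_dd457d_ag.Bav.Idk

/-! The structure sheaf is a vector bundle whose class is not torsion. -/

set_option autoImplicit false

open Function Filter

noncomputable section

namespace Pool.Agent.BavT

open Pool.Agent.CXD MvPolynomial

variable {k σ : Type} [Field k]

/-- homogeneous components, with integer degrees -/
def cz (d : ℤ) : MvPolynomial σ k →+ MvPolynomial σ k :=
  if 0 ≤ d then (homogeneousComponent d.toNat).toAddMonoidHom else 0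

theorem cz_nat (m : ℕ) (f : MvPolynomial σ k) : cz (m : ℤ) f = homogeneousComponent m f := by
  rw [cz, if_pos (Int.natCast_nonneg m)]; rfl

theorem cz_hom {m : ℕ} {f : MvPolynomial σ k} (hf : f.IsHomogeneous m) (d : ℤ) :
    cz d f = if d = m then f else 0 := by
  rcases le_or_gt 0 d with h | h
  · obtain ⟨n, rfl⟩ := Int.eq_ofNat_of_zero_le h
    rw [cz_nat, homogeneousComponent_of_mem hf]
    simp only [Nat.cast_inj]
  · rw [cz, if_neg h.not_ge, if_neg (by omega)]; rfl

theorem hom_ind {p : MvPolynomial σ k → Prop} (h0 : p 0)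
    (h1 : ∀ (m : ℕ) (f : MvPolynomial σ k), f.IsHomogeneous m → p f)
    (h2 : ∀ f g, p f → p g → p (f + g)) (f : MvPolynomial σ k) : p f := by
  rw [← sum_homogeneousComponent f]
  exact Finset.sum_induction _ p h2 h0 fun m _ => h1 m _ (homogeneousComponent_isHomogeneous m f)

theorem cz_cz (d e : ℤ) (f : MvPolynomial σ k) : cz d (cz e f) = if d = e then cz e f else 0 := by
  rcases le_or_gt 0 e with h | h
  · obtain ⟨n, rfl⟩ := Int.eq_ofNat_of_zero_le h
    rw [cz_nat, cz_hom (homogeneousComponent_isHomogeneous n f)]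
  · have h1 : cz e f = 0 := by rw [cz, if_neg h.not_ge]; rfl
    rw [h1, map_zero, ite_self]

theorem cz_mul {m : ℕ} {f : MvPolynomial σ k} (hf : f.IsHomogeneous m) (d : ℤ)
    (g : MvPolynomial σ k) : cz (m + d) (f * g) = f * cz d g := by
  induction g using hom_ind with
  | h0 => rw [mul_zero, map_zero, map_zero, mul_zero]
  | h1 n g hg =>
    rw [cz_hom (hf.mul hg), cz_hom hg, Nat.cast_add, mul_ite, mul_zero]
    simp only [add_right_inj]
  | h2 g g' hg hg' => rw [mul_add, map_add, map_add, hg, hg', mul_add]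

/-- the ring as a graded module -/
def ringG {J : Ideal (MvPolynomial σ k)} (hJ : ∀ d, ∀ f ∈ J, homogeneousComponent d f ∈ J) :
    GM (hom J) where
  M := MvPolynomial σ k ⧸ J
  π d := QuotientAddGroup.map J.toAddSubgroup J.toAddSubgroup (cz d) fun f hf => by
    show cz d f ∈ J
    rw [cz]
    split_ifs
    · exact hJ _ f hf
    · exact J.zero_mem
  π_self d x := by
    obtain ⟨f, rfl⟩ := Ideal.Quotient.mk_surjective x
    exact congrArg (Ideal.Quotient.mk J) ((cz_cz d d f).trans (if_pos rfl))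
  π_ne d e x h := by
    obtain ⟨f, rfl⟩ := Ideal.Quotient.mk_surjective x
    exact congrArg (Ideal.Quotient.mk J) ((cz_cz d e f).trans (if_neg h))
  sum_π x := by
    obtain ⟨f, rfl⟩ := Ideal.Quotient.mk_surjective x
    refine ⟨(Finset.range (f.totalDegree + 1)).image Nat.cast, ?_⟩
    rw [Finset.sum_image fun a _ b _ h => Nat.cast_injective h]
    refine .trans ?_ (congrArg (Ideal.Quotient.mk J) (sum_homogeneousComponent f))
    rw [map_sum]
    exact Finset.sum_congr rfl fun m _ => congrArg (Ideal.Quotient.mk J) (cz_nat m f)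
  π_smul := by
    rintro _ d _ ⟨m, f, rfl, hf, rfl⟩ x
    obtain ⟨g, rfl⟩ := Ideal.Quotient.mk_surjective x
    exact congrArg (Ideal.Quotient.mk J) (cz_mul hf d g)

theorem bundle_hom [Fintype σ] {J : Ideal (MvPolynomial σ k)}
    (hJ : ∀ d, ∀ f ∈ J, homogeneousComponent d f ∈ J) {i : σ} (hi : ∀ m : ℕ, X i ^ m ∉ J) :
    ∃ V : FGM (hom J), LF (crd J) V.1 ∧
      ∀ c : ℕ, 0 < c → c • FreeAbelianGroup.of V ∉ rels (hom J) := by
  have := gd_hom J
  refine ⟨⟨ringG hJ, Module.Finite.self _⟩, fun j => ?_, fun c hc hx => ?_⟩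
  · have : Module.Projective (MvPolynomial σ k ⧸ J) (ringG hJ).M :=
      inferInstanceAs (Module.Projective (MvPolynomial σ k ⧸ J) (MvPolynomial σ k ⧸ J))
    exact Module.projective_of_isLocalizedModule (Submonoid.powers (crd J j))
      (LocalizedModule.mkLinearMap (Submonoid.powers (crd J j)) (ringG hJ).M)
  · obtain ⟨b, hb⟩ := eventually_atTop.1 ((sd_hom J).faithful _ hc hx)
    refine hi b.toNat (Ideal.Quotient.eq_zero_iff_mem.1 ?_)
    have h1 : Ideal.Quotient.mk J (cz (b.toNat : ℤ) (X i ^ b.toNat)) = 0 :=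
      DFunLike.congr_fun (hb b.toNat (by omega)) (Ideal.Quotient.mk J (X i ^ b.toNat))
    rwa [cz_hom (isHomogeneous_X_pow i b.toNat), if_pos rfl] at h1

theorem bundle {G : Type} [Fintype σ] (p : G → σ → AlgebraicClosure k) {y : G} (hy : p y ≠ 0) :
    ∃ V : FGM (hom (Bav.idk k p)), LF (crd (Bav.idk k p)) V.1 ∧
      ∀ c : ℕ, 0 < c → c • FreeAbelianGroup.of V ∉ rels (hom (Bav.idk k p)) := by
  obtain ⟨i, hi⟩ := Function.ne_iff.1 hy
  refine bundle_hom (fun d f hf => ?_) (i := i) fun m hm => hi ?_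
  · have := Bav.homI_idl p d _ hf
    rw [Bav.idk, Ideal.mem_comap]
    refine (congrArg (· ∈ Tav.idl p) ?_).mpr this
    ext s
    simp only [coeff_map, coeff_homogeneousComponent]
    split_ifs <;> simp
  · have h1 := Bav.mem_idl.1 (Ideal.mem_comap.1 hm) 1 y
    rw [map_pow, map_X, map_pow, eval_X, one_smul] at h1
    exact pow_eq_zero_iff'.1 h1 |>.1

end Pool.Agent.BavT
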