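import Pool.Agent.P.MP_dd457d_ag.Bav.Idk
import Pool.Agent.P.MP_2ce3e7_ag.Tav.PUp

/-! The charts of an abelian variety are smooth. -/

set_option autoImplicit false

open Function

noncomputable section

namespace Pool.Agent.BavT

open MvPolynomial Pool.Agent.Tav

section Loc
variable {Ω B B' : Type} [Field Ω] [CommRing B] [Algebra Ω B] [CommRing B'] [Algebra Ω B']

theorem loc_res {m : Ideal B} [m.IsPrime] {ε : B →ₐ[Ω] Ω} (hm : ∀ b, b ∈ m ↔ ε b = 0) :
    ∃ r : Localization.AtPrime m →ₐ[Ω] Ω, (∀ b, r (algebraMap B _ b) = ε b) ∧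
      ∀ x, r x ≠ 0 → IsUnit x := by
  have hu : ∀ y : m.primeCompl, IsUnit (ε y) := fun y =>
    isUnit_iff_ne_zero.2 fun h => y.2 ((hm _).2 h)
  refine ⟨IsLocalization.liftAlgHom hu, fun b => IsLocalization.lift_eq hu b, fun x hx => ?_⟩
  obtain ⟨b, s, rfl⟩ := IsLocalization.exists_mk'_eq m.primeCompl x
  refine (IsLocalization.AtPrime.isUnit_mk'_iff _ m b s).2 fun hb => hx ?_
  rw [IsLocalization.liftAlgHom_apply, IsLocalization.lift_mk'_spec, mul_zero]
  exact (hm b).1 hb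

theorem loc_retract {m : Ideal B} [m.IsPrime] {m' : Ideal B'} [m'.IsPrime]
    (φ : B →ₐ[Ω] Localization.AtPrime m') (ψ : B' →ₐ[Ω] Localization.AtPrime m)
    (hφ : ∀ y : m.primeCompl, IsUnit (φ y)) (hψ : ∀ y : m'.primeCompl, IsUnit (ψ y))
    (h : ∀ Ψ : Localization.AtPrime m' →ₐ[Ω] Localization.AtPrime m,
      (∀ b, Ψ (algebraMap B' _ b) = ψ b) → ∀ b, Ψ (φ b) = algebraMap B _ b)
    (hs : Algebra.IsSmoothAt Ω m') : Algebra.IsSmoothAt Ω m := by
  let Φ : Localization.AtPrime m →ₐ[Ω] Localization.AtPrime m' := IsLocalization.liftAlgHom hφ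
  let Ψ : Localization.AtPrime m' →ₐ[Ω] Localization.AtPrime m := IsLocalization.liftAlgHom hψ
  have h1 : (Ψ.comp Φ).toRingHom = RingHom.id _ :=
    IsLocalization.ringHom_ext m.primeCompl (RingHom.ext fun b =>
      (congrArg Ψ (IsLocalization.lift_eq hφ b)).trans
        (h Ψ (fun b => IsLocalization.lift_eq hψ b) b))
  have h2 : ∀ x, Ψ (Φ x) = x := fun x => RingHom.congr_fun h1 x
  refine .of_comp_surjective fun C _ _ J hJ g₀ => ?_
  obtain ⟨f, hf⟩ :=
    Algebra.FormallySmooth.comp_surjective Ω (Localization.AtPrime m') J hJ (g₀.comp Ψ)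
  refine ⟨f.comp Φ, AlgHom.ext fun b => ?_⟩
  have h3 := AlgHom.congr_fun hf (Φ b)
  rw [AlgHom.comp_apply g₀, h2] at h3
  exact h3

theorem gen_smooth [IsAlgClosed Ω] [IsDomain B] [Algebra.FiniteType Ω B] :
    ∃ f : B, f ≠ 0 ∧ ∀ (m : Ideal B) [m.IsPrime], f ∉ m → Algebra.IsSmoothAt Ω m := by
  have : Algebra.FinitePresentation Ω B := Algebra.FinitePresentation.of_finiteType.1 inferInstance
  have h1 : IsLocalization (nonZeroDivisors B) (Localization.AtPrime (⊥ : Ideal B)) := by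
    rw [← Ideal.primeCompl_bot]
    exact Localization.isLocalization
  have h2 : Algebra.EssFiniteType B (FractionRing B) := .of_isLocalization _ (nonZeroDivisors B)
  have h3 : Algebra.EssFiniteType Ω (FractionRing B) := .comp Ω B _
  have h4 : Algebra.IsSmoothAt Ω (⊥ : Ideal B) := Algebra.FormallySmooth.of_equiv
    ((IsLocalization.algEquiv (nonZeroDivisors B) (FractionRing B)
      (Localization.AtPrime (⊥ : Ideal B))).restrictScalars Ω)
  obtain ⟨f, hf, h5⟩ := Algebra.IsSmoothAt.exists_notMem_smooth Ω (⊥ : Ideal B)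
  have h6 := Algebra.basicOpen_subset_smoothLocus_iff_smooth.2 h5
  exact ⟨f, hf, fun m _ hm => h6 (show (⟨m, inferInstance⟩ : PrimeSpectrum B) ∈
    (PrimeSpectrum.basicOpen f : Set (PrimeSpectrum B)) from hm)⟩

theorem smooth_of_points [IsAlgClosed Ω] [Algebra.FiniteType Ω B]
    (h : ∀ (ε : B →ₐ[Ω] Ω) (m : Ideal B) [m.IsPrime], (∀ b, b ∈ m ↔ ε b = 0) →
      Algebra.IsSmoothAt Ω m) : Algebra.Smooth Ω B := by
  have : Algebra.FinitePresentation Ω B := Algebra.FinitePresentation.of_finiteType.1 inferInstance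
  refine ⟨Algebra.smoothLocus_eq_univ_iff.1 (Set.eq_univ_iff_forall.2 fun q => ?_), this⟩
  obtain ⟨m, hm, hq⟩ := Ideal.exists_le_maximal q.asIdeal q.2.ne_top
  let _ := Ideal.Quotient.field m
  have h1 : Module.Finite Ω (B ⧸ m) := finite_of_finite_type_of_isJacobsonRing Ω (B ⧸ m)
  let e : Ω ≃ₐ[Ω] B ⧸ m := AlgEquiv.ofBijective (Algebra.ofId Ω (B ⧸ m))
    IsAlgClosed.algebraMap_bijective_of_isIntegral
  have h2 : (⟨m, hm.isPrime⟩ : PrimeSpectrum B) ∈ Algebra.smoothLocus Ω B :=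
    h (e.symm.toAlgHom.comp (Ideal.Quotient.mkₐ Ω m)) m fun b =>
      Ideal.Quotient.eq_zero_iff_mem.symm.trans (map_eq_zero_iff e.symm e.symm.injective).symm
  exact ((PrimeSpectrum.le_iff_specializes q ⟨m, hm.isPrime⟩).1 hq).mem_open
    Algebra.isOpen_smoothLocus h2

end Loc

variable {Ω G σ L : Type} [Field Ω] [CommRing L] [Algebra Ω L] {p : G → σ → Ω}

theorem aeval_scale {f : MvPolynomial σ Ω} {n : ℕ} (hf : f.IsHomogeneous n) (u : L) (v : σ → L) :
    aeval (fun l => u * v l) f = u ^ n * aeval v f := by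
  rw [f.as_sum, map_sum, map_sum, Finset.mul_sum]
  refine Finset.sum_congr rfl fun d hd => ?_
  have h1 : d.degree = n := by
    by_contra h
    exact mem_support_iff.1 hd (hf.coeff_eq_zero h)
  rw [aeval_monomial, aeval_monomial, ← h1, Finsupp.degree_apply, ← Finset.prod_pow_eq_pow_sum]
  simp only [mul_pow, Finsupp.prod, Finset.prod_mul_distrib]
  ring

theorem ae (z : σ → Ω) (f : MvPolynomial σ Ω) : aeval z f = eval z f := rfl

/-- points of the cone with values in `L` -/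
def Pt (p : G → σ → Ω) (v : σ → L) : Prop := ∀ f ∈ idl p, aeval v f = 0

theorem Pt.scale [Infinite Ω] {v : σ → L} (h : Pt p v) (u : L) : Pt p fun l => u * v l := by
  intro f hf
  rw [← sum_homogeneousComponent f, map_sum]
  refine Finset.sum_eq_zero fun d _ => ?_
  rw [aeval_scale (homogeneousComponent_isHomogeneous d f), h _ (Bav.homI_idl p d f hf), mul_zero]

theorem aeval_sub (v : σ → L) (F : σ → MvPolynomial σ Ω) (f : MvPolynomial σ Ω) :
    aeval (fun l => aeval v (F l)) f = aeval v (aeval F f) := by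
  rw [← AlgHom.comp_apply, comp_aeval]

variable [AddCommGroup G]

/-- forms that describe the translation by `-b` -/
structure Tr (p : G → σ → Ω) (b : G) (e : ℕ) (c : G → Ω) (F : σ → MvPolynomial σ Ω) : Prop where
  hom : ∀ a, (F a).IsHomogeneous e
  val : ∀ (s : Ω) (t : G) (a : σ), aeval (s • p t) (F a) = (s ^ e * c t) * p (t - b) a

theorem exists_tr {g : ℕ} (h : AV p g) (b x : G) : ∃ e c F, Tr p b e c F ∧ c x ≠ 0 := by
  obtain ⟨e, c, hc, h1⟩ := Pp.av_trans h b x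
  choose F hF hF' using fun a => (Pp.mem_crd_pow p e _).1 (h1 a)
  refine ⟨e, c, F, ⟨hF, fun s t a => ?_⟩, hc⟩
  rw [ae, Bav.eval_smul_hom (hF a), ← hF' a t, mul_assoc]
  rfl

variable {b : G} {e e' : ℕ} {c c' : G → Ω} {F F' : σ → MvPolynomial σ Ω}

theorem Tr.pt (h : Tr p b e c F) {v : σ → L} (hv : Pt p v) : Pt p fun l => aeval v (F l) := by
  intro f hf
  rw [aeval_sub]
  refine hv _ (Bav.mem_idl.2 fun s t => ?_)
  rw [← ae, ← aeval_sub]
  simp only [h.val]
  exact Bav.mem_idl.1 hf (s ^ e * c t) (t - b)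

theorem Tr.back (h : Tr p b e c F) (h' : Tr p (-b) e' c' F') {v : σ → L} (hv : Pt p v) (i l : σ) :
    aeval (fun a => aeval v (F' a)) (F l) * v i = aeval (fun a => aeval v (F' a)) (F i) * v l := by
  have h1 := hv (aeval F' (F l) * X i - aeval F' (F i) * X l) (Bav.mem_idl.2 fun s t => by
    have h2 : ∀ a, aeval (s • p t) (aeval F' (F a)) =
        ((s ^ e' * c' t) ^ e * c (t - -b)) * p t a := fun a => by
      rw [← aeval_sub]
      simp only [h'.val]
      refine (h.val (s ^ e' * c' t) (t - -b) a).trans ?_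
      rw [sub_neg_eq_add, add_sub_cancel_right]
    rw [← ae, map_sub, map_mul, map_mul, h2, h2, aeval_X, aeval_X]
    simp only [Pi.smul_apply, smul_eq_mul]
    ring)
  rw [map_sub, map_mul, map_mul, aeval_X, aeval_X, sub_eq_zero] at h1
  rw [aeval_sub, aeval_sub, h1]

theorem smooth_chart [IsAlgClosed Ω] [Fintype σ] {g : ℕ} (h : AV p g) {B : Type} [CommRing B]
    [Algebra Ω B] {i : σ} {v : σ → B} (hv : Pt p v) (h1 : v i = 1)
    (hs : Surjective (aeval v : MvPolynomial σ Ω →ₐ[Ω] B))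
    (lift : ∀ (L : Type) [CommRing L] [Algebra Ω L] (u : σ → L), Pt p u → u i = 1 →
      ∃ φ : B →ₐ[Ω] L, ∀ l, φ (v l) = u l) : Algebra.Smooth Ω B := by
  have : Algebra.FiniteType Ω B := .of_surjective _ hs
  have := h.irr
  have ext : ∀ (L : Type) [CommRing L] [Algebra Ω L] (φ φ' : B →ₐ[Ω] L),
      (∀ l, φ (v l) = φ' (v l)) → ∀ x, φ x = φ' x := fun L _ _ φ φ' hφ x => by
    obtain ⟨f, rfl⟩ := hs x
    rw [← AlgHom.comp_apply, ← AlgHom.comp_apply, comp_aeval, comp_aeval, funext hφ]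
  obtain ⟨f₀, hf₀, hsm⟩ := gen_smooth (Ω := Ω) (B := MvPolynomial σ Ω ⧸ idl p)
  obtain ⟨f₀, rfl⟩ := Ideal.Quotient.mk_surjective f₀
  obtain ⟨j, hj⟩ := Function.ne_iff.1 (h.ne 0)
  have hj' : Ideal.Quotient.mk (idl p) (X j) ≠ 0 := fun h0 => hj (by
    simpa using Bav.mem_idl.1 (Ideal.Quotient.eq_zero_iff_mem.1 h0) 1 0)
  have h2 : ¬ ∀ (s : Ω) (t : G), eval (s • p t) (f₀ * X j) = 0 := fun h0 =>
    mul_ne_zero hf₀ hj' (Ideal.Quotient.eq_zero_iff_mem.2 (Bav.mem_idl.2 h0))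
  push Not at h2
  obtain ⟨s₀, y₀, h2⟩ := h2
  rw [map_mul, eval_X] at h2
  have hs₀ : s₀ ≠ 0 := left_ne_zero_of_mul (right_ne_zero_of_mul h2)
  have cone : ∀ (L : Type) [CommRing L] [Algebra Ω L] (u : σ → L), Pt p u →
      ∃ ψ : (MvPolynomial σ Ω ⧸ idl p) →ₐ[Ω] L,
        ∀ f, ψ (Ideal.Quotient.mk _ f) = aeval u f := fun L _ _ u hu =>
    ⟨Ideal.Quotient.liftₐ _ (aeval u) hu, fun _ => rfl⟩
  obtain ⟨ε', hε'⟩ := cone Ω (s₀ • p y₀) fun f hf => Bav.mem_idl.1 hf s₀ y₀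
  have hm' : (RingHom.ker ε').IsPrime := RingHom.ker_isPrime _
  obtain ⟨r', hr', hu'⟩ := loc_res (m := RingHom.ker ε') (ε := ε') fun _ => Iff.rfl
  refine smooth_of_points fun ε m _ hm => ?_
  obtain ⟨r, hr, hu⟩ := loc_res hm
  obtain ⟨y, s, hs', hy⟩ := h.cl (fun l => ε (v l)) (fun f hf => by
    rw [← comp_aeval, AlgHom.comp_apply, hv f hf, map_zero]) fun h0 => by
      have h3 := congrFun h0 i
      rw [h1, map_one] at h3
      exact one_ne_zero h3
  have hy' : ∀ l, ε (v l) = s * p y l := congrFun hy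
  have hi : s * p y i = 1 := by rw [← hy', h1, map_one]
  obtain ⟨e, c, F, hF, hc⟩ := exists_tr h (y₀ - y) y₀
  obtain ⟨e', c', F', hF', hc'⟩ := exists_tr h (-(y₀ - y)) y
  let v' : σ → Localization.AtPrime (RingHom.ker ε') := fun l =>
    algebraMap (MvPolynomial σ Ω ⧸ idl p) _ (Ideal.Quotient.mk _ (X l))
  have hv₀ : ∀ f, aeval v' f =
      algebraMap (MvPolynomial σ Ω ⧸ idl p) _ (Ideal.Quotient.mk _ f) := fun f =>
    AlgHom.congr_fun (algHom_ext (g := (IsScalarTower.toAlgHom Ω _ _).comp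
      (Ideal.Quotient.mkₐ Ω (idl p))) fun l => aeval_X _ l) f
  have hv' : Pt p v' := fun f hf => by
    rw [hv₀, Ideal.Quotient.eq_zero_iff_mem.2 hf, map_zero]
  have k1 : ∀ l, r' (aeval v' (F l)) = s₀ ^ e * c y₀ * p y l := fun l => by
    rw [hv₀, hr', hε', hF.val, sub_sub_cancel]
  obtain ⟨u', hu₁⟩ := (hu' (aeval v' (F i)) (by
    rw [k1]
    exact mul_ne_zero (mul_ne_zero (pow_ne_zero _ hs₀) hc)
      (right_ne_zero_of_mul_eq_one hi))).exists_left_inv
  obtain ⟨φ, hφ⟩ := lift _ _ ((hF.pt hv').scale u') hu₁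
  let w : σ → Localization.AtPrime m := fun l => algebraMap B _ (v l)
  have hw₀ : ∀ f, aeval w f = algebraMap B _ (aeval v f) := fun f =>
    (AlgHom.congr_fun (comp_aeval v (IsScalarTower.toAlgHom Ω B _)) f).symm
  have hw : Pt p w := fun f hf => by rw [hw₀, hv f hf, map_zero]
  have k2 : ∀ l, r (aeval w (F' l)) = s ^ e' * c' y * p y₀ l := fun l => by
    rw [hw₀, hr, ← AlgHom.comp_apply, comp_aeval, hy, hF'.val, sub_neg_eq_add, add_sub_cancel]
  obtain ⟨ψ, hψ⟩ := cone _ _ ((hF'.pt hw).scale (algebraMap Ω _ (s₀ / (s ^ e' * c' y))))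
  refine loc_retract φ ψ (fun x => hu' _ fun h0 => x.2 ((hm _).2 ?_))
    (fun x => hu _ fun h0 => x.2 ?_) (fun Ψ hΨ => ?_)
    (hsm _ fun h0 => left_ne_zero_of_mul h2 ((hε' f₀).symm.trans h0))
  · refine (ext Ω ε (r'.comp φ) (fun l => ?_) _).trans h0
    have h3 := congrArg r' hu₁
    rw [map_mul, k1, map_one] at h3
    rw [AlgHom.comp_apply, hφ, map_mul, k1, hy']
    linear_combination (r' u' * (s₀ ^ e * c y₀) * p y l) * hi - (s * p y l) * h3
  · obtain ⟨x, hx⟩ := x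
    obtain ⟨f, rfl⟩ := Ideal.Quotient.mk_surjective x
    refine (hε' f).trans (Eq.trans ?_ h0)
    rw [hψ, ← AlgHom.comp_apply, comp_aeval]
    refine congrArg (fun z => aeval z f) (funext fun l => ?_)
    rw [map_mul, k2, AlgHom.commutes, ← mul_assoc]
    exact congrArg (· * p y₀ l)
      (div_mul_cancel₀ s₀ (mul_ne_zero (pow_ne_zero _ hs'.ne_zero) hc')).symm
  · refine ext _ (Ψ.comp φ) (IsScalarTower.toAlgHom Ω B _) fun l => ?_
    have k3 : ∀ a, Ψ (aeval v' (F a)) = algebraMap Ω _ (s₀ / (s ^ e' * c' y)) ^ e *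
        aeval (fun a => aeval w (F' a)) (F a) := fun a => by
      rw [hv₀, hΨ, hψ, aeval_scale (hF.hom a)]
    have h3 := congrArg Ψ hu₁
    have h4 := hF.back hF' hw i l
    have h5 : w i = 1 := (congrArg (algebraMap B _) h1).trans (map_one _)
    rw [map_mul, k3, map_one] at h3
    rw [h5, mul_one] at h4
    rw [AlgHom.comp_apply, hφ, map_mul, k3, h4, ← mul_assoc _ _ (w l), ← mul_assoc _ _ (w l), h3,
      one_mul]
    rfl

end Pool.Agent.BavT
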