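import Pool.Agent.K.MP_e12fcd_ag.C334
import Pool.Agent.P.MP_dd457d_ag.Bav.MainP
import Pool.Agent.P.MP_dd457d_ag.Bav.TightB
import Pool.Agent.P.MP_dd457d_ag.Bav.TightC

/-! Coherent classes are classes of vector bundles; numerical triviality is torsion. -/

set_option autoImplicit false

open Function
open scoped TensorProduct LaurentPolynomial

noncomputable section

namespace Pool.Agent.BavT

open Pool.Agent.CXD

section
variable {k A σ : Type} [Field k] [CommRing A] [Algebra k A] {𝒜 : ℤ → Set A} {z : σ → A}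

theorem pair_comm (N V : GM 𝒜) : pair k N V = pair k V N := by
  have h : ∀ t, dimK k A (tpc N V t) = dimK k A (tpc V N t) := fun t => by
    refine (dim_tr (TensorProduct.comm A N.M V.M).toLinearMap
      (TensorProduct.comm A N.M V.M).injective ?_ ?_).1
    · rintro _ ⟨a, y, v, rfl⟩
      exact AddSubgroup.subset_closure ⟨t - a, v, y, by rw [sub_sub_cancel]; rfl⟩
    · rintro _ ⟨a, v, y, rfl⟩
      exact ⟨_, ⟨t - a, y, v, rfl⟩, by rw [sub_sub_cancel]; rfl⟩
  simp only [pair, h]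

variable [Gd 𝒜] [IsNoetherianRing A]

omit [Gd 𝒜] in
theorem res_of_rgl (h : Rgl 𝒜 z) (N : FGM 𝒜) : FreeAbelianGroup.of N ∈ vb 𝒜 z ⊔ rels 𝒜 := by
  obtain ⟨𝒬, g, hR, hQ⟩ := h
  have h0 : ∀ M : FGM 𝒜, 𝒬 0 M.1 → FreeAbelianGroup.of M ∈ vb 𝒜 z ⊔ rels 𝒜 := fun M hM =>
    AddSubgroup.mem_sup_left (AddSubgroup.subset_closure ⟨M, fun j => by
      have := M.2
      exact (qp_iff (z j)).1 (((hQ M.1).1 hM).2 j), rfl⟩)
  have main : ∀ n, ∀ M : FGM 𝒜, 𝒬 n M.1 → FreeAbelianGroup.of M ∈ vb 𝒜 z ⊔ rels 𝒜 := by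
    intro n
    induction n with
    | zero => exact h0
    | succ n ih =>
      intro M hM
      obtain ⟨F, c, hF, hc, hs⟩ := hR.cover M.1 M.2
      have s1 := ses_ker hc hs
      have hC := hR.ker n _ _ M.1 s1 (rsv_zero_CPG hR n hF) hM
      have h1 := ih ⟨_, hR.fin _ _ hC⟩ hC
      have h2 := h0 ⟨F, hR.fin _ _ hF⟩ hF
      have h3 : _ ∈ vb 𝒜 z ⊔ rels 𝒜 := AddSubgroup.mem_sup_right (AddSubgroup.subset_closure
        (Or.inl ⟨⟨_, hR.fin _ _ hC⟩, ⟨F, hR.fin _ _ hF⟩, M, s1, rfl⟩))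
      have h4 := sub_mem (sub_mem h2 h1) h3
      rwa [sub_sub_cancel] at h4
  exact main g N (hR.all N.1 N.2)

theorem Sd.sharp [Fintype σ] (h : Sd k 𝒜 z)
    (hr : ∀ N : FGM 𝒜, FreeAbelianGroup.of N ∈ vb 𝒜 z ⊔ rels 𝒜) (hT : NumTors k 𝒜 z)
    (x : FreeAbelianGroup (FGM 𝒜)) :
    (∀ N : FGM 𝒜, LF z N.1 → FreeAbelianGroup.lift (fun V : FGM 𝒜 => pair k N.1 V.1) x = 0) ↔
      ∃ c : ℕ, 0 < c ∧ c • x ∈ rels 𝒜 := by
  refine ⟨fun hx => ?_, fun ⟨c, hc, hx⟩ N hN => h.converse N hN hc hx⟩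
  have h0 : ∀ N : FGM 𝒜, LF z N.1 → ∀ y ∈ rels 𝒜,
      FreeAbelianGroup.lift (fun V : FGM 𝒜 => pair k N.1 V.1) y = 0 := fun N hN y hy =>
    h.converse N hN one_pos (by rwa [one_smul])
  have h1 : x ∈ vb 𝒜 z ⊔ rels 𝒜 := by
    clear hx
    induction x using FreeAbelianGroup.induction_on with
    | zero => exact zero_mem _
    | of N => exact hr N
    | neg N hN => exact neg_mem hN
    | add x y hx hy => exact add_mem hx hy
  obtain ⟨x', hx', r, hr', rfl⟩ := AddSubgroup.mem_sup.1 h1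
  let β : FreeAbelianGroup (FGM 𝒜) →+ FreeAbelianGroup (FGM 𝒜) →+ ℚ :=
    FreeAbelianGroup.lift fun N => FreeAbelianGroup.lift fun V : FGM 𝒜 => pair k N.1 V.1
  have hβ : ∀ N, β (FreeAbelianGroup.of N) =
      FreeAbelianGroup.lift fun V : FGM 𝒜 => pair k N.1 V.1 := fun N =>
    FreeAbelianGroup.lift_apply_of _ N
  have h2 : vb 𝒜 z ≤ (β.flip x').ker := by
    refine (AddSubgroup.closure_le _).2 ?_
    rintro _ ⟨N, hN, rfl⟩
    have h3 := hx N hN
    rw [map_add, h0 N hN r hr', add_zero] at h3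
    exact (DFunLike.congr_fun (hβ N) x').trans h3
  have h3 : ∀ y ∈ rels 𝒜, vb 𝒜 z ≤ (β y).ker := fun y hy => by
    refine (AddSubgroup.closure_le _).2 ?_
    rintro _ ⟨V, hV, rfl⟩
    have e : β.flip (FreeAbelianGroup.of V) =
        FreeAbelianGroup.lift fun N : FGM 𝒜 => pair k V.1 N.1 :=
      FreeAbelianGroup.lift_ext _ _ fun N => by
        rw [AddMonoidHom.flip_apply, hβ, FreeAbelianGroup.lift_apply_of,
          FreeAbelianGroup.lift_apply_of, pair_comm]
    exact (DFunLike.congr_fun e y).trans (h0 V hV y hy)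
  obtain ⟨c, hc, h4⟩ := hT x' hx' fun N => by
    obtain ⟨y, hy, y', hy', e⟩ := AddSubgroup.mem_sup.1 (hr N)
    rw [← hβ, ← e, map_add, AddMonoidHom.add_apply]
    exact (congrArg₂ (· + ·) (h2 hy) (h3 y' hy' hx')).trans (add_zero 0)
  exact ⟨c, hc, by rw [smul_add]; exact add_mem h4 (AddSubgroup.nsmul_mem _ hr' c)⟩

end

open MvPolynomial

theorem exists_theta {k σ A : Type} [Field k] [CommRing A] [Algebra k A]
    (π : MvPolynomial σ k →ₐ[k] A) (hπ : Surjective π)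
    (h : ∀ d f, π f = 0 → π (homogeneousComponent d f) = 0) : ∃ θ : A →ₐ[k] A[T;T⁻¹],
      ∀ i, θ (π (X i)) = LaurentPolynomial.C (π (X i)) * LaurentPolynomial.T 1 := by
  have e : ∀ f : MvPolynomial σ k, aeval (fun i => LaurentPolynomial.C (π (X i))) f =
      LaurentPolynomial.C (π f) := fun f =>
    AlgHom.congr_fun (algHom_ext (g := (IsScalarTower.toAlgHom k A A[T;T⁻¹]).comp π)
      fun l => aeval_X _ l) f
  refine ⟨AlgHom.liftOfSurjective π hπ (aeval fun i => LaurentPolynomial.T 1 *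
    LaurentPolynomial.C (π (X i))) fun f hf => ?_, fun i => ?_⟩
  · change aeval _ f = 0
    rw [← sum_homogeneousComponent f, map_sum]
    refine Finset.sum_eq_zero fun d _ => ?_
    rw [aeval_scale (homogeneousComponent_isHomogeneous d f), e, h d f hf, map_zero, mul_zero]
  · rw [AlgHom.liftOfSurjective_apply, aeval_X, mul_comm]

theorem exists_std {k σ : Type} [Field k] [Fintype σ] {J : Ideal (MvPolynomial σ k)}
    (hJ : ∀ d, ∀ f ∈ J, homogeneousComponent d f ∈ J) :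
    ∃ θ, Std (k := k) (hom J) (crd J) θ := by
  obtain ⟨θ, hθ⟩ := exists_theta (Ideal.Quotient.mkₐ k J) (Ideal.Quotient.mkₐ_surjective k J)
    fun d f hf => Ideal.Quotient.eq_zero_iff_mem.2 (hJ d f (Ideal.Quotient.eq_zero_iff_mem.1 hf))
  exact ⟨θ, hom_std J θ hθ⟩

theorem noeth_sq (k A : Type) [Field k] [CommRing A] [Algebra k A] [Algebra.FiniteType k A]
    [IsNoetherianRing A] : IsNoetherianRing (A ⊗[k] A) :=
  Algebra.FiniteType.isNoetherianRing A _

variable (k : Type) [Field k] [Fintype k] {G τ : Type} [AddCommGroup G] [Fintype τ] {g : ℕ}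
  {p : G → τ → AlgebraicClosure k} (hA : Tav.AV p g) (hi : ∀ y y', Tav.Par (p y) (p y') → y = y')
  {F : G →+ G} (hF : ∀ y, Tav.Par (p (F y)) (p y ^ Fintype.card k))

include hA hi hF

theorem smooth_of {B : Type} [CommRing B] [Algebra k B] (i : τ) (π : MvPolynomial τ k →ₐ[k] B)
    (hπ : Surjective π) (h0 : ∀ f ∈ Bav.idk k p, π f = 0) (h1 : π (X i) = 1)
    (hl : ∀ (L : Type) [CommRing L] [Algebra k L] (u : τ → L),
      (∀ f ∈ Bav.idk k p, aeval u f = 0) → u i = 1 → ∃ φ : B →ₐ[k] L, ∀ l, φ (π (X l)) = u l) :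
    Algebra.Smooth k B := by
  let v : τ → AlgebraicClosure k ⊗[k] B := fun l => 1 ⊗ₜ π (X l)
  have hv : ∀ f, aeval v (map (algebraMap k (AlgebraicClosure k)) f) = 1 ⊗ₜ π f := fun f => by
    rw [aeval_map_algebraMap]
    exact AlgHom.congr_fun (algHom_ext (g := Algebra.TensorProduct.includeRight.comp π)
      fun l => aeval_X _ l) f
  have : Algebra.Smooth (AlgebraicClosure k) (AlgebraicClosure k ⊗[k] B) := by
    refine smooth_chart hA (i := i) (v := v) (fun f hf => ?_) (congrArg (1 ⊗ₜ ·) h1) (fun x => ?_)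
      fun L _ _ u hu hu₁ => ?_
    · rw [← (Bav.p_Idk k p F hi hA.ne hF).1] at hf
      refine (Ideal.map_le_iff_le_comap (K := RingHom.ker (aeval v))).2 (fun f hf => ?_) hf
      refine (hv f).trans ?_
      rw [h0 f hf, TensorProduct.tmul_zero]
    · induction x using TensorProduct.induction_on with
      | zero => exact ⟨0, map_zero _⟩
      | tmul a b =>
        obtain ⟨f, rfl⟩ := hπ b
        refine ⟨a • map (algebraMap k (AlgebraicClosure k)) f, ?_⟩
        rw [map_smul, hv, TensorProduct.smul_tmul', smul_eq_mul, mul_one]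
      | add x y hx hy =>
        obtain ⟨f, rfl⟩ := hx
        obtain ⟨f', rfl⟩ := hy
        exact ⟨f + f', map_add _ _ _⟩
    · let _ : Algebra k L :=
        ((algebraMap (AlgebraicClosure k) L).comp (algebraMap k (AlgebraicClosure k))).toAlgebra
      have : IsScalarTower k (AlgebraicClosure k) L := .of_algebraMap_eq' rfl
      obtain ⟨φ, hφ⟩ := hl L u (fun f hf =>
        (aeval_map_algebraMap (AlgebraicClosure k) u f).symm.trans (hu _ hf)) hu₁
      refine ⟨Algebra.TensorProduct.lift (Algebra.ofId _ L) φ fun _ _ => Commute.all _ _,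
        fun l => ?_⟩
      rw [Algebra.TensorProduct.lift_tmul, map_one, one_mul]
      exact hφ l
  exact Algebra.Smooth.of_smooth_tensorProduct_of_faithfullyFlat (AlgebraicClosure k)

theorem smooth_idk (i : τ) : Algebra.Smooth k
    ((MvPolynomial τ k ⧸ Bav.idk k p) ⧸ Ideal.span {crd (Bav.idk k p) i - 1}) := by
  refine smooth_of k hA hi hF i ((Ideal.Quotient.mkₐ k _).comp (Ideal.Quotient.mkₐ k _))
    ((Ideal.Quotient.mkₐ_surjective k _).comp (Ideal.Quotient.mkₐ_surjective k _))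
    (fun f hf => ?_) (Ideal.Quotient.eq.2 (Ideal.subset_span rfl)) fun L _ _ u hu hu₁ => ?_
  · rw [AlgHom.comp_apply, Ideal.Quotient.mkₐ_eq_mk k (Bav.idk k p),
      Ideal.Quotient.eq_zero_iff_mem.2 hf, map_zero]
  · let φ : (MvPolynomial τ k ⧸ Bav.idk k p) →ₐ[k] L := Ideal.Quotient.liftₐ _ (aeval u) hu
    have hφ : ∀ l, φ (crd (Bav.idk k p) l) = u l := fun l => aeval_X u l
    refine ⟨Ideal.Quotient.liftₐ _ φ fun a ha => ?_, hφ⟩
    obtain ⟨b, rfl⟩ := Ideal.mem_span_singleton'.1 ha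
    rw [map_mul, map_sub, hφ, hu₁, map_one, sub_self, mul_zero]

theorem resolution (N : FGM (hom (Bav.idk k p))) :
    FreeAbelianGroup.of N ∈
      vb (hom (Bav.idk k p)) (crd (Bav.idk k p)) ⊔ rels (hom (Bav.idk k p)) := by
  obtain ⟨θ, hθ⟩ := exists_std (Bav.p_Idk k p F hi hA.ne hF).2
  have := noeth_sq k (MvPolynomial τ k ⧸ Bav.idk k p)
  exact res_of_rgl (hθ.rgl (hθ.atl (smooth_idk k hA hi hF))) N

theorem sharp (x : FreeAbelianGroup (FGM (hom (Bav.idk k p)))) :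
    (∀ N : FGM (hom (Bav.idk k p)), LF (crd (Bav.idk k p)) N.1 →
      FreeAbelianGroup.lift (fun V : FGM (hom (Bav.idk k p)) => pair k N.1 V.1) x = 0) ↔
      ∃ c : ℕ, 0 < c ∧ c • x ∈ rels (hom (Bav.idk k p)) :=
  (sd_hom _).sharp (resolution k hA hi hF) (Bav.mainP k hA hi hF) x

end Pool.Agent.BavT
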