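import Pool.Agent.P.MP_dd457d_ag.Bav.Main

set_option autoImplicit false

namespace Pool.Agent.Results.MP_dd457d_ag.AbelianBeilinson

open Function Pool.Agent.Tav Pool.Agent.Bav Pool.Agent

/-- Numerically trivial classes of vector bundles on an abelian variety over a finite field are
torsion. -/
theorem result (k : Type) [Field k] [Fintype k] {G τ σ : Type} [AddCommGroup G] [Fintype τ]
    [Fintype σ] (g : ℕ) (p : G → τ → AlgebraicClosure k) (hA : AV p g)
    (hi : ∀ y y', Par (p y) (p y') → y = y') (F : G →+ G)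
    (hF : ∀ y, Par (p (F y)) (p y ^ Fintype.card k))
    (R : ValuationSubring ℂ) (r : R →+* AlgebraicClosure k) (hr : Surjective r)
    (X : Model r σ g) (ψ : G →+ X.B) (ψ' : X.B →+ G) (hψ : Mor p X.p ψ)
    (hψ' : Mor X.p p ψ') (ho : Surjective ψ') (m : ℕ) (hm : m ≠ 0) (hψψ : ∀ b, ψ (ψ' b) = m • b)
    (π : Fin g → ℂ) (hπ : π ∈ En X.Λ) (he : X.Eqv ψ F π)
    (h : (∀ i, R.valuation (star (π i)) = 1) ∨ X.Full (Fintype.card k)) :
    CXD.NumTors k (CXD.hom (idk k p)) (CXD.crd (idk k p)) :=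
  Bav.main k g p hA hi F hF R r hr X ψ ψ' hψ hψ' ho m hm hψψ π hπ he h

end Pool.Agent.Results.MP_dd457d_ag.AbelianBeilinson
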